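import Mathlib

/-!
# Statements for the jobs of the project GN

Equations between monomials with free exponents. The finite lemmas and the algebra.
-/

set_option autoImplicit false

namespace Pool.Agent.Y902.GN

open MvPolynomial

/-- the derivation `H_Θ ∂_a - H_a ∂_Θ` of the polynomial ring in `y_b` (index `some b`) and `Θ`
(index `none`) -/
noncomputable def dl {d : ℕ} {R : Type*} [CommRing R] (H : MvPolynomial (Option (Fin d)) R)
    (a : Fin d) (P : MvPolynomial (Option (Fin d)) R) : MvPolynomial (Option (Fin d)) R :=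
  pderiv none H * pderiv (some a) P - pderiv (some a) H * pderiv none P

/-- substitution of `x_(ι b)` for `y_b` and of `A` for `Θ` -/
noncomputable def sb {d n : ℕ} {R : Type*} [CommRing R] (ι : Fin d → Fin n)
    (A : MvPolynomial (Fin n) R) : MvPolynomial (Option (Fin d)) R →ₐ[R] MvPolynomial (Fin n) R :=
  aeval (fun o => o.elim A (fun b => X (ι b)))

/-- JOB A: the determinant method on the intersection of `H = 0` and `f = 0` -/
def S_A : Prop := ∀ d k : ℕ, 1 ≤ k → ∃ D ρ X₀ : ℕ, ∀ X Y : ℕ, X₀ ≤ X → 1 ≤ Y → Y ≤ X ^ k →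
  ∀ (H f : MvPolynomial (Option (Fin d)) ℤ) (a : Fin d) (α : Type) (T : Finset α)
    (s : α → Option (Fin d) → ℤ),
    (∀ t ∈ T, eval (s t) H = 0 ∧ eval (s t) f = 0 ∧ (∀ b, |s t (some b)| ≤ (Y : ℤ)) ∧
      eval (s t) (dl H a f) ≠ 0 ∧ |eval (s t) (dl H a f)| < 2 ^ X) →
    ∃ T' ⊆ T, T.card ≤ X ^ (2 * d + 5) * T'.card ∧ ∃ c : (Fin d → Fin (D + 1)) → ℤ, c ≠ 0 ∧
      (∀ e, |c e| ≤ (X : ℤ) ^ ρ) ∧ ∀ t ∈ T', ∑ e, c e * ∏ b, s t (some b) ^ (e b : ℕ) = 0

/-- JOB B: a function with derivative zero is constant on residue classes -/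
def S_B : Prop := ∀ d : ℕ, ∃ X₀ : ℕ, ∀ X : ℕ, X₀ ≤ X →
  ∀ (H U V c : MvPolynomial (Option (Fin d)) ℤ) (Q : Fin d → MvPolynomial (Option (Fin d)) ℤ),
    (∀ a, c * (V * dl H a U - U * dl H a V) = H * Q a) →
    ∀ (α : Type) (T : Finset α) (s : α → Option (Fin d) → ℤ),
    (∀ t ∈ T, eval (s t) H = 0 ∧ eval (s t) (pderiv none H * c * U * V) ≠ 0 ∧
      |eval (s t) (pderiv none H * c * U * V)| < 2 ^ X) →
    ∃ T' ⊆ T, T.card ≤ X ^ (2 * d + 5) * T'.card ∧
      ∀ t ∈ T', ∀ t' ∈ T', eval (s t) U * eval (s t') V = eval (s t') U * eval (s t) V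

/-- JOB ALG: a prime ideal as a function field with a primitive element -/
def S_alg : Prop := ∀ (O : Type) [CommRing O] [IsDomain O] [CharZero O] (n : ℕ)
  (J : Ideal (MvPolynomial (Fin n) O)), J.IsPrime → (∀ c : O, c ≠ 0 → C c ∉ J) →
  ∃ (d : ℕ) (ι : Fin d → Fin n) (A : MvPolynomial (Fin n) O)
    (H : MvPolynomial (Option (Fin d)) O) (B₀ : MvPolynomial (Fin d) O)
    (B : Fin n → MvPolynomial (Option (Fin d)) O),
    (∀ P : MvPolynomial (Fin d) O, rename ι P ∈ J → P = 0) ∧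
    sb ι A H ∈ J ∧ sb ι A (pderiv none H) ∉ J ∧
    (∀ P, sb ι A P ∈ J → ∃ (c : MvPolynomial (Fin d) O) (Q : MvPolynomial (Option (Fin d)) O),
      c ≠ 0 ∧ rename some c * P = H * Q) ∧
    B₀ ≠ 0 ∧ ∀ i, rename ι B₀ * X i - sb ι A (B i) ∈ J

end Pool.Agent.Y902.GN
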