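import Mathlib
import Pool.Agent.Y902.GN.Stm

/-!
# Logarithmic derivatives of monomials
-/

set_option autoImplicit false

namespace Pool.Agent.Y902.GN

open MvPolynomial

section

variable {d : ℕ} {R : Type*} [CommRing R]

/-- the derivation -/
noncomputable def dlD (H : MvPolynomial (Option (Fin d)) R) (a : Fin d) :
    Derivation R (MvPolynomial (Option (Fin d)) R) (MvPolynomial (Option (Fin d)) R) :=
  pderiv none H • pderiv (some a) - pderiv (some a) H • pderiv none

theorem dl_eq (H : MvPolynomial (Option (Fin d)) R) (a : Fin d)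
    (P : MvPolynomial (Option (Fin d)) R) : dl H a P = dlD H a P := by
  simp [dl, dlD]

theorem dl_self (H : MvPolynomial (Option (Fin d)) R) (a : Fin d) : dl H a H = 0 := by
  unfold dl; ring

theorem dl_mul (H : MvPolynomial (Option (Fin d)) R) (a : Fin d)
    (P Q : MvPolynomial (Option (Fin d)) R) : dl H a (P * Q) = P * dl H a Q + Q * dl H a P := by
  rw [dl_eq, dl_eq, dl_eq, Derivation.leibniz, smul_eq_mul, smul_eq_mul]

theorem dl_sum {ι : Type*} (H : MvPolynomial (Option (Fin d)) R) (a : Fin d) (s : Finset ι)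
    (P : ι → MvPolynomial (Option (Fin d)) R) : dl H a (∑ i ∈ s, P i) = ∑ i ∈ s, dl H a (P i) := by
  rw [dl_eq, map_sum]
  exact Finset.sum_congr rfl fun i _ => (dl_eq _ _ _).symm

theorem dl_C (H : MvPolynomial (Option (Fin d)) R) (a : Fin d) (c : R) : dl H a (C c) = 0 := by
  unfold dl
  simp

theorem dl_pow (H : MvPolynomial (Option (Fin d)) R) (a : Fin d)
    (P : MvPolynomial (Option (Fin d)) R) (e : ℕ) :
    P * dl H a (P ^ e) = (e : MvPolynomial (Option (Fin d)) R) * (P ^ e * dl H a P) := by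
  rw [dl_eq, dl_eq, Derivation.leibniz_pow]
  rcases e with _ | e
  · simp
  · simp only [Nat.add_sub_cancel, nsmul_eq_mul, smul_eq_mul]
    ring

/-- derivative of a monomial, with cofactors -/
theorem dl_mon {ι : Type*} (H : MvPolynomial (Option (Fin d)) R) (a : Fin d) (s : Finset ι)
    (b c : ι → MvPolynomial (Option (Fin d)) R) (B : MvPolynomial (Option (Fin d)) R) (e : ι → ℕ)
    (h : ∀ j ∈ s, c j * b j = B) :
    B * dl H a (∏ j ∈ s, b j ^ e j) = (∏ j ∈ s, b j ^ e j) *
      ∑ j ∈ s, (e j : MvPolynomial (Option (Fin d)) R) * (c j * dl H a (b j)) := by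
  classical
  induction s using Finset.induction_on with
  | empty =>
    simp only [Finset.prod_empty, Finset.sum_empty, mul_zero]
    rw [show (1 : MvPolynomial (Option (Fin d)) R) = C 1 by simp, dl_C, mul_zero]
  | insert j s hj ih =>
    rw [Finset.prod_insert hj, Finset.sum_insert hj, dl_mul]
    have h1 := ih fun k hk => h k (Finset.mem_insert_of_mem hk)
    have h2 := h j (Finset.mem_insert_self _ _)
    have h3 : B * dl H a (b j ^ e j) =
        b j ^ e j * ((e j : MvPolynomial (Option (Fin d)) R) * (c j * dl H a (b j))) := by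
      rw [← h2]
      linear_combination c j * dl_pow H a (b j) (e j)
    linear_combination (b j ^ e j) * h1 + (∏ k ∈ s, b k ^ e k) * h3

/-- the cofactors -/
noncomputable def cof {N : ℕ} (b : Fin N → MvPolynomial (Option (Fin d)) R) (j : Fin N) :
    MvPolynomial (Option (Fin d)) R := ∏ k ∈ Finset.univ.erase j, b k

theorem cof_mul {N : ℕ} (b : Fin N → MvPolynomial (Option (Fin d)) R) (j : Fin N) :
    cof b j * b j = ∏ k, b k := by
  unfold cof
  rw [Finset.prod_erase_mul _ _ (Finset.mem_univ j)]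

/-- the logarithmic derivative of a monomial, multiplied by a denominator -/
noncomputable def ldv {N : ℕ} (H b0 : MvPolynomial (Option (Fin d)) R)
    (b : Fin N → MvPolynomial (Option (Fin d)) R) (κ : Fin N → R) (a : Fin d) :
    MvPolynomial (Option (Fin d)) R :=
  ∑ j, C (κ j) * (cof b j * (b0 * dl H a (b j) - b j * dl H a b0))

/-- the operation on coefficient vectors given by the derivation -/
noncomputable def nab {N : ℕ} (H b0 : MvPolynomial (Option (Fin d)) R)
    (b : Fin N → MvPolynomial (Option (Fin d)) R) (κ : Fin N → R) (a : Fin d)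
    (r : MvPolynomial (Option (Fin d)) R) : MvPolynomial (Option (Fin d)) R :=
  (∏ k, b k) * b0 * dl H a r + r * ldv H b0 b κ a

/-- the monomial -/
noncomputable def mon {N : ℕ} (b0 : MvPolynomial (Option (Fin d)) R)
    (b : Fin N → MvPolynomial (Option (Fin d)) R) (e : Fin N → ℕ) (M : ℕ) :
    MvPolynomial (Option (Fin d)) R := (∏ j, b j ^ e j) * b0 ^ (M - ∑ j, e j)

theorem dl_mon' {N : ℕ} (H b0 : MvPolynomial (Option (Fin d)) R)
    (b : Fin N → MvPolynomial (Option (Fin d)) R) (e : Fin N → ℕ) (a : Fin d) {M : ℕ}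
    (hM : ∑ j, e j ≤ M) : (∏ k, b k) * b0 * dl H a (mon b0 b e M) =
      mon b0 b e M * (ldv H b0 b (fun j => (e j : R)) a +
        (M : MvPolynomial (Option (Fin d)) R) * ((∏ k, b k) * dl H a b0)) := by
  unfold mon ldv
  rw [dl_mul]
  have h1 := dl_mon H a Finset.univ b (cof b) (∏ k, b k) e (fun j _ => cof_mul b j)
  have h2 := dl_pow H a b0 (M - ∑ j, e j)
  have h3 : ((M - ∑ j, e j : ℕ) : MvPolynomial (Option (Fin d)) R) =
      M - ∑ j, (e j : MvPolynomial (Option (Fin d)) R) := by
    rw [Nat.cast_sub hM]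
    push_cast
    rfl
  rw [h3] at h2
  have h4 : ∑ j, C ((e j : R)) * (cof b j * (b0 * dl H a (b j) - b j * dl H a b0)) =
      b0 * (∑ j, (e j : MvPolynomial (Option (Fin d)) R) * (cof b j * dl H a (b j))) -
        (∑ j, (e j : MvPolynomial (Option (Fin d)) R)) * ((∏ k, b k) * dl H a b0) := by
    rw [Finset.mul_sum, Finset.sum_mul, ← Finset.sum_sub_distrib]
    refine Finset.sum_congr rfl fun j _ => ?_
    rw [← cof_mul b j, map_natCast]
    ring
  rw [h4]
  linear_combination (b0 * b0 ^ (M - ∑ j, e j)) * h1 +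
    ((∏ j, b j ^ e j) * ∏ k, b k) * h2

/-- derivative of a term -/
theorem dl_term {N : ℕ} (H b0 : MvPolynomial (Option (Fin d)) R)
    (b : Fin N → MvPolynomial (Option (Fin d)) R) (e : Fin N → ℕ) (a : Fin d) {M : ℕ}
    (hM : ∑ j, e j ≤ M) (r : MvPolynomial (Option (Fin d)) R) :
    (∏ k, b k) * b0 * dl H a (r * mon b0 b e M) =
      mon b0 b e M * nab H b0 b (fun j => (e j : R)) a r +
        (M : MvPolynomial (Option (Fin d)) R) * ((∏ k, b k) * dl H a b0) * (r * mon b0 b e M) := by
  rw [dl_mul]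
  have h1 := dl_mon' H b0 b e a hM
  unfold nab
  linear_combination r * h1

/-- derivative of a sum of terms -/
theorem dl_terms {N n : ℕ} (H b0 : MvPolynomial (Option (Fin d)) R)
    (b : Fin N → MvPolynomial (Option (Fin d)) R) (e : Fin n → Fin N → ℕ) (a : Fin d) {M : ℕ}
    (hM : ∀ i, ∑ j, e i j ≤ M) (u : Fin n → R) (r : Fin n → MvPolynomial (Option (Fin d)) R) :
    (∏ k, b k) * b0 * dl H a (∑ i, C (u i) * (r i * mon b0 b (e i) M)) =
      (∑ i, C (u i) * (mon b0 b (e i) M * nab H b0 b (fun j => (e i j : R)) a (r i))) +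
        (M : MvPolynomial (Option (Fin d)) R) * ((∏ k, b k) * dl H a b0) *
          (∑ i, C (u i) * (r i * mon b0 b (e i) M)) := by
  rw [dl_sum, Finset.mul_sum, Finset.mul_sum, ← Finset.sum_add_distrib]
  refine Finset.sum_congr rfl fun i _ => ?_
  rw [dl_mul, dl_C, mul_zero, add_zero]
  linear_combination C (u i) * dl_term H b0 b (e i) a (hM i) (r i)

/-- the wronskian of two terms -/
theorem dl_wron {N : ℕ} (H b0 : MvPolynomial (Option (Fin d)) R)
    (b : Fin N → MvPolynomial (Option (Fin d)) R) (e e' : Fin N → ℕ) (a : Fin d) {M : ℕ}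
    (hM : ∑ j, e j ≤ M) (hM' : ∑ j, e' j ≤ M) (r r' : MvPolynomial (Option (Fin d)) R) :
    (∏ k, b k) * b0 * ((r' * mon b0 b e' M) * dl H a (r * mon b0 b e M) -
        (r * mon b0 b e M) * dl H a (r' * mon b0 b e' M)) =
      (mon b0 b e M * mon b0 b e' M) * (r' * nab H b0 b (fun j => (e j : R)) a r -
        nab H b0 b (fun j => (e' j : R)) a r' * r) := by
  have h1 := dl_term H b0 b e a hM r
  have h2 := dl_term H b0 b e' a hM' r'
  linear_combination (r' * mon b0 b e' M) * h1 - (r * mon b0 b e M) * h2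

end

end Pool.Agent.Y902.GN
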