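import Mathlib

/-!
# Nonstandard integers of polynomial size, and transfer of polynomials
-/

set_option autoImplicit false

namespace Pool.Agent.Y902.GN

open Filter MvPolynomial

/-- the ultrafilter -/
noncomputable abbrev Uf : Ultrafilter ℕ := Filter.hyperfilter ℕ

/-- germs -/
abbrev Gm (R : Type*) := Filter.Germ ((Uf : Ultrafilter ℕ) : Filter ℕ) R

/-- nonstandard integers -/
abbrev ZS : Type := Gm ℤ

theorem ev_or {p q : ℕ → Prop} : (∀ᶠ ν in (Uf : Filter ℕ), (p ν ∨ q ν)) ↔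
    (∀ᶠ ν in (Uf : Filter ℕ), p ν) ∨ ∀ᶠ ν in (Uf : Filter ℕ), q ν := Ultrafilter.eventually_or

theorem ev_not {p : ℕ → Prop} : (∀ᶠ ν in (Uf : Filter ℕ), ¬ p ν) ↔
    ¬ ∀ᶠ ν in (Uf : Filter ℕ), p ν := Ultrafilter.eventually_not

theorem ev_exists {ι : Type*} [Finite ι] {p : ι → ℕ → Prop}
    (h : ∀ᶠ ν in (Uf : Filter ℕ), ∃ i, p i ν) : ∃ i, ∀ᶠ ν in (Uf : Filter ℕ), p i ν := by
  by_contra hcon
  rw [not_exists] at hcon
  have h1 : ∀ i, ∀ᶠ ν in (Uf : Filter ℕ), ¬ p i ν := fun i => ev_not.2 (hcon i)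
  have h2 := (Filter.eventually_all (ι := ι)).2 h1
  have h3 := h.and h2
  obtain ⟨ν, ⟨i, hi⟩, h4⟩ := h3.exists
  exact h4 i hi

/-- large indices -/
theorem ev_ge (m : ℕ) : ∀ᶠ ν in (Uf : Filter ℕ), m ≤ ν := by
  have h : (Uf : Filter ℕ) ≤ Filter.cofinite := Filter.hyperfilter_le_cofinite
  rw [Nat.cofinite_eq_atTop] at h
  exact h (Filter.eventually_ge_atTop m)

noncomputable instance : IsDomain ZS := inferInstance
instance : CharZero ZS := inferInstance

/-- the size parameter -/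
noncomputable def Yg (Y : ℕ → ℕ) : ZS := ((fun ν => ((Y ν : ℤ) + 2) : ℕ → ℤ) : ZS)

theorem two_le_Yg (Y : ℕ → ℕ) : (2 : ZS) ≤ Yg Y := by
  have : ((fun _ => (2 : ℤ) : ℕ → ℤ) : ZS) ≤ ((fun ν => ((Y ν : ℤ) + 2) : ℕ → ℤ) : ZS) := by
    rw [Filter.Germ.coe_le]
    exact Filter.Eventually.of_forall fun ν => by
      show (2 : ℤ) ≤ (Y ν : ℤ) + 2
      omega
  exact this

/-- nonstandard integers of polynomial size -/
noncomputable def OO (Y : ℕ → ℕ) : Subring ZS where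
  carrier := {x | ∃ C : ℕ, |x| ≤ (Yg Y) ^ C}
  zero_mem' := ⟨0, by simp⟩
  one_mem' := ⟨0, by simp⟩
  neg_mem' := by
    rintro x ⟨C, hC⟩
    exact ⟨C, by rwa [abs_neg]⟩
  mul_mem' := by
    rintro x y ⟨C, hC⟩ ⟨C', hC'⟩
    refine ⟨C + C', ?_⟩
    rw [abs_mul, pow_add]
    have h := two_le_Yg Y
    exact mul_le_mul hC hC' (abs_nonneg _) (pow_nonneg (by linarith) _)
  add_mem' := by
    rintro x y ⟨C, hC⟩ ⟨C', hC'⟩
    refine ⟨max C C' + 1, ?_⟩
    have h := two_le_Yg Y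
    have h1 : (1 : ZS) ≤ Yg Y := by linarith
    have a1 : (Yg Y) ^ C ≤ (Yg Y) ^ (max C C') := pow_le_pow_right₀ h1 (le_max_left _ _)
    have a2 : (Yg Y) ^ C' ≤ (Yg Y) ^ (max C C') := pow_le_pow_right₀ h1 (le_max_right _ _)
    have a3 := abs_add_le x y
    have a4 : (0 : ZS) ≤ (Yg Y) ^ (max C C') := pow_nonneg (by linarith) _
    calc |x + y| ≤ |x| + |y| := a3
      _ ≤ 2 * (Yg Y) ^ (max C C') := by linarith
      _ ≤ Yg Y * (Yg Y) ^ (max C C') := mul_le_mul_of_nonneg_right h a4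
      _ = (Yg Y) ^ (max C C' + 1) := by rw [pow_succ]; ring

theorem mem_OO {Y : ℕ → ℕ} {f : ℕ → ℤ} : ((f : ZS) ∈ OO Y) ↔
    ∃ C : ℕ, ∀ᶠ ν in (Uf : Filter ℕ), |f ν| ≤ ((Y ν : ℤ) + 2) ^ C := by
  constructor
  · rintro ⟨C, hC⟩
    refine ⟨C, ?_⟩
    have h1 : |(f : ZS)| = ((fun ν => |f ν| : ℕ → ℤ) : ZS) := Filter.Germ.abs_def _
    have h2 : (Yg Y) ^ C = ((fun ν => ((Y ν : ℤ) + 2) ^ C : ℕ → ℤ) : ZS) := rfl
    rw [h1, h2, Filter.Germ.coe_le] at hC
    exact hC
  · rintro ⟨C, hC⟩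
    refine ⟨C, ?_⟩
    have h1 : |(f : ZS)| = ((fun ν => |f ν| : ℕ → ℤ) : ZS) := Filter.Germ.abs_def _
    have h2 : (Yg Y) ^ C = ((fun ν => ((Y ν : ℤ) + 2) ^ C : ℕ → ℤ) : ZS) := rfl
    rw [h1, h2, Filter.Germ.coe_le]
    exact hC

noncomputable instance (Y : ℕ → ℕ) : IsDomain (OO Y) := inferInstance
instance (Y : ℕ → ℕ) : CharZero (OO Y) := inferInstance

/-- every element has a representing sequence -/
theorem rep_exists {Y : ℕ → ℕ} (x : OO Y) : ∃ f : ℕ → ℤ, (x : ZS) = (f : ZS) := by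
  obtain ⟨x, hx⟩ := x
  induction x using Filter.Germ.inductionOn with
  | h f => exact ⟨f, rfl⟩

/-- the map on germs given by a ring homomorphism -/
noncomputable def gmap {R S : Type*} [CommRing R] [CommRing S] (g : R →+* S) : Gm R →+* Gm S where
  toFun := Filter.Germ.map g
  map_one' := by
    show Filter.Germ.map g ((fun _ => 1 : ℕ → R) : Gm R) = ((fun _ => 1 : ℕ → S) : Gm S)
    rw [Filter.Germ.map_coe]
    congr 1
    funext ν
    simp
  map_zero' := by
    show Filter.Germ.map g ((fun _ => 0 : ℕ → R) : Gm R) = ((fun _ => 0 : ℕ → S) : Gm S)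
    rw [Filter.Germ.map_coe]
    congr 1
    funext ν
    simp
  map_mul' := by
    intro x y
    induction x, y using Filter.Germ.inductionOn₂ with
    | h f f' =>
      rw [← Filter.Germ.coe_mul, Filter.Germ.map_coe, Filter.Germ.map_coe, Filter.Germ.map_coe,
        ← Filter.Germ.coe_mul]
      congr 1
      funext ν
      simp
  map_add' := by
    intro x y
    induction x, y using Filter.Germ.inductionOn₂ with
    | h f f' =>
      rw [← Filter.Germ.coe_add, Filter.Germ.map_coe, Filter.Germ.map_coe, Filter.Germ.map_coe,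
        ← Filter.Germ.coe_add]
      congr 1
      funext ν
      simp

theorem gmap_coe {R S : Type*} [CommRing R] [CommRing S] (g : R →+* S) (f : ℕ → R) :
    gmap g (f : Gm R) = ((fun ν => g (f ν) : ℕ → S) : Gm S) := rfl

/-- transfer of polynomials -/
noncomputable def Tr (Y : ℕ → ℕ) (σ : Type*) :
    MvPolynomial σ (OO Y) →+* Gm (MvPolynomial σ ℤ) :=
  eval₂Hom ((gmap C).comp (OO Y).subtype) (fun i => ((fun _ => X i : ℕ → MvPolynomial σ ℤ) :
    Gm (MvPolynomial σ ℤ)))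

/-- `p` represents `P` -/
def Re {Y : ℕ → ℕ} {σ : Type*} (P : MvPolynomial σ (OO Y)) (p : ℕ → MvPolynomial σ ℤ) : Prop :=
  Tr Y σ P = (p : Gm (MvPolynomial σ ℤ))

section

variable {Y : ℕ → ℕ} {σ : Type*}

theorem Re.ex (P : MvPolynomial σ (OO Y)) : ∃ p, Re P p := by
  unfold Re
  induction Tr Y σ P using Filter.Germ.inductionOn with
  | h f => exact ⟨f, rfl⟩

/-- a representing sequence -/
noncomputable def sq (P : MvPolynomial σ (OO Y)) : ℕ → MvPolynomial σ ℤ := (Re.ex P).choose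

theorem Re.sq (P : MvPolynomial σ (OO Y)) : Re P (sq P) := (Re.ex P).choose_spec

theorem Re.eq {P : MvPolynomial σ (OO Y)} {p q : ℕ → MvPolynomial σ ℤ} (hp : Re P p)
    (hq : Re P q) : ∀ᶠ ν in (Uf : Filter ℕ), p ν = q ν := by
  unfold Re at hp hq
  rw [hp] at hq
  exact Filter.Germ.coe_eq.1 hq

theorem Re.congr {P : MvPolynomial σ (OO Y)} {p q : ℕ → MvPolynomial σ ℤ} (hp : Re P p)
    (h : ∀ᶠ ν in (Uf : Filter ℕ), p ν = q ν) : Re P q := by
  unfold Re at *
  rw [hp]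
  exact Filter.Germ.coe_eq.2 h

theorem Re.add {P Q : MvPolynomial σ (OO Y)} {p q : ℕ → MvPolynomial σ ℤ} (hp : Re P p)
    (hq : Re Q q) : Re (P + Q) (fun ν => p ν + q ν) := by
  unfold Re at *
  rw [map_add, hp, hq]
  rfl

theorem Re.sub {P Q : MvPolynomial σ (OO Y)} {p q : ℕ → MvPolynomial σ ℤ} (hp : Re P p)
    (hq : Re Q q) : Re (P - Q) (fun ν => p ν - q ν) := by
  unfold Re at *
  rw [map_sub, hp, hq]
  rfl

theorem Re.mul {P Q : MvPolynomial σ (OO Y)} {p q : ℕ → MvPolynomial σ ℤ} (hp : Re P p)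
    (hq : Re Q q) : Re (P * Q) (fun ν => p ν * q ν) := by
  unfold Re at *
  rw [map_mul, hp, hq]
  rfl

theorem Re.one : Re (1 : MvPolynomial σ (OO Y)) (fun _ => 1) := by
  unfold Re
  rw [map_one]
  rfl

theorem Re.zero : Re (0 : MvPolynomial σ (OO Y)) (fun _ => 0) := by
  unfold Re
  rw [map_zero]
  rfl

theorem Re.X (i : σ) : Re (X i : MvPolynomial σ (OO Y)) (fun _ => MvPolynomial.X i) := by
  unfold Re Tr
  rw [coe_eval₂Hom, eval₂_X]

theorem Re.C {c : OO Y} {f : ℕ → ℤ} (h : (c : ZS) = (f : ZS)) :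
    Re (C c : MvPolynomial σ (OO Y)) (fun ν => MvPolynomial.C (f ν)) := by
  unfold Re Tr
  rw [coe_eval₂Hom, eval₂_C, RingHom.comp_apply, Subring.coe_subtype, h, gmap_coe]

theorem Re.sum {ι : Type*} (s : Finset ι) {P : ι → MvPolynomial σ (OO Y)}
    {p : ι → ℕ → MvPolynomial σ ℤ} (h : ∀ i ∈ s, Re (P i) (p i)) :
    Re (∑ i ∈ s, P i) (fun ν => ∑ i ∈ s, p i ν) := by
  classical
  induction s using Finset.induction_on with
  | empty => simpa using Re.zero
  | insert a s ha ih =>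
    have h1 := (h a (Finset.mem_insert_self _ _)).add
      (ih fun i hi => h i (Finset.mem_insert_of_mem hi))
    simp only [Finset.sum_insert ha]
    exact h1

theorem Re.prod {ι : Type*} (s : Finset ι) {P : ι → MvPolynomial σ (OO Y)}
    {p : ι → ℕ → MvPolynomial σ ℤ} (h : ∀ i ∈ s, Re (P i) (p i)) :
    Re (∏ i ∈ s, P i) (fun ν => ∏ i ∈ s, p i ν) := by
  classical
  induction s using Finset.induction_on with
  | empty => simpa using Re.one
  | insert a s ha ih =>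
    have h1 := (h a (Finset.mem_insert_self _ _)).mul
      (ih fun i hi => h i (Finset.mem_insert_of_mem hi))
    simp only [Finset.prod_insert ha]
    exact h1

theorem Re.pderiv (i : σ) {P : MvPolynomial σ (OO Y)} :
    ∀ {p : ℕ → MvPolynomial σ ℤ}, Re P p →
    Re (pderiv i P) (fun ν => MvPolynomial.pderiv i (p ν)) := by
  classical
  induction P using MvPolynomial.induction_on with
  | C a =>
    intro p hp
    obtain ⟨f, hf⟩ := rep_exists a
    have h1 := hp.eq (Re.C (σ := σ) hf)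
    rw [pderiv_C]
    refine (Re.zero).congr ?_
    filter_upwards [h1] with ν hν
    rw [hν, pderiv_C]
  | add P Q hP hQ =>
    intro p hp
    obtain ⟨p1, hp1⟩ := Re.ex P
    obtain ⟨q1, hq1⟩ := Re.ex Q
    rw [map_add]
    refine ((hP hp1).add (hQ hq1)).congr ?_
    filter_upwards [hp.eq (hp1.add hq1)] with ν hν
    rw [hν, map_add]
  | mul_X P j hP =>
    intro p hp
    obtain ⟨p1, hp1⟩ := Re.ex P
    have h2 : Re (MvPolynomial.pderiv i (MvPolynomial.X j : MvPolynomial σ (OO Y)))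
        (fun _ => MvPolynomial.pderiv i (MvPolynomial.X j)) := by
      by_cases hij : j = i
      · subst hij
        simp only [pderiv_X_self]
        exact Re.one
      · simp only [pderiv_X_of_ne hij]
        exact Re.zero
    have h3 : Re (MvPolynomial.pderiv i (P * MvPolynomial.X j)) (fun ν => p1 ν * MvPolynomial.pderiv i
        (MvPolynomial.X j) + MvPolynomial.X j * MvPolynomial.pderiv i (p1 ν)) := by
      rw [Derivation.leibniz, smul_eq_mul, smul_eq_mul]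
      exact (hp1.mul h2).add ((Re.X j).mul (hP hp1))
    refine h3.congr ?_
    filter_upwards [hp.eq (hp1.mul (Re.X j))] with ν hν
    rw [hν, Derivation.leibniz, smul_eq_mul, smul_eq_mul]

theorem Re.aeval {τ : Type*} {P : MvPolynomial τ (OO Y)} (g : τ → MvPolynomial σ (OO Y))
    (g' : τ → ℕ → MvPolynomial σ ℤ) (hg : ∀ i, Re (g i) (g' i)) :
    ∀ {p : ℕ → MvPolynomial τ ℤ}, Re P p →
    Re (aeval g P) (fun ν => MvPolynomial.aeval (fun i => g' i ν) (p ν)) := by
  classical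
  induction P using MvPolynomial.induction_on with
  | C a =>
    intro p hp
    obtain ⟨f, hf⟩ := rep_exists a
    have h1 := hp.eq (Re.C (σ := τ) hf)
    rw [aeval_C]
    refine (Re.C (σ := σ) hf).congr ?_
    filter_upwards [h1] with ν hν
    rw [hν, aeval_C]
    rfl
  | add P Q hP hQ =>
    intro p hp
    obtain ⟨p1, hp1⟩ := Re.ex P
    obtain ⟨q1, hq1⟩ := Re.ex Q
    rw [map_add]
    refine ((hP hp1).add (hQ hq1)).congr ?_
    filter_upwards [hp.eq (hp1.add hq1)] with ν hν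
    rw [hν, map_add]
  | mul_X P j hP =>
    intro p hp
    obtain ⟨p1, hp1⟩ := Re.ex P
    rw [map_mul, aeval_X]
    refine ((hP hp1).mul (hg j)).congr ?_
    filter_upwards [hp.eq (hp1.mul (Re.X j))] with ν hν
    rw [hν, map_mul, aeval_X]

theorem Re.rename {τ : Type*} {P : MvPolynomial τ (OO Y)} (g : τ → σ) {p : ℕ → MvPolynomial τ ℤ}
    (hp : Re P p) : Re (rename g P) (fun ν => MvPolynomial.rename g (p ν)) := by
  have h := Re.aeval (Y := Y) (P := P) (fun i => MvPolynomial.X (g i))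
    (fun i _ => MvPolynomial.X (g i)) (fun i => Re.X (g i)) hp
  have e1 : ∀ (R : Type) [CommRing R] (P : MvPolynomial τ R), MvPolynomial.rename g P =
      MvPolynomial.aeval (fun i => MvPolynomial.X (g i)) P := by
    intro R _ P
    have : (MvPolynomial.rename g : MvPolynomial τ R →ₐ[R] MvPolynomial σ R) =
        MvPolynomial.aeval (fun i => MvPolynomial.X (g i)) :=
      MvPolynomial.algHom_ext fun i => by simp
    rw [this]
  simp only [e1]
  exact h

/-- values at points of polynomial size are of polynomial size -/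
theorem Re.bd {P : MvPolynomial σ (OO Y)} (c : ℕ) : ∀ {p : ℕ → MvPolynomial σ ℤ}, Re P p →
    ∃ C : ℕ, ∀ᶠ ν in (Uf : Filter ℕ), ∀ s : σ → ℤ, (∀ i, |s i| ≤ ((Y ν : ℤ) + 2) ^ c) →
      |eval s (p ν)| ≤ ((Y ν : ℤ) + 2) ^ C := by
  classical
  induction P using MvPolynomial.induction_on with
  | C a =>
    intro p hp
    obtain ⟨f, hf⟩ := rep_exists a
    have h1 := hp.eq (Re.C (σ := σ) hf)
    have h2 : ((f : ZS) ∈ OO Y) := by rw [← hf]; exact a.2
    obtain ⟨C, hC⟩ := mem_OO.1 h2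
    refine ⟨C, ?_⟩
    filter_upwards [h1, hC] with ν h3 h4 s _
    rw [h3, eval_C]
    exact h4
  | add P Q hP hQ =>
    intro p hp
    obtain ⟨p1, hp1⟩ := Re.ex P
    obtain ⟨q1, hq1⟩ := Re.ex Q
    obtain ⟨C1, hC1⟩ := hP hp1
    obtain ⟨C2, hC2⟩ := hQ hq1
    refine ⟨max C1 C2 + 1, ?_⟩
    filter_upwards [hp.eq (hp1.add hq1), hC1, hC2] with ν h3 h4 h5 s hs
    rw [h3, map_add]
    have a0 : (1 : ℤ) ≤ (Y ν : ℤ) + 2 := by omega
    have a1 := (h4 s hs).trans (pow_le_pow_right₀ a0 (le_max_left C1 C2))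
    have a2 := (h5 s hs).trans (pow_le_pow_right₀ a0 (le_max_right C1 C2))
    have a3 := abs_add_le (eval s (p1 ν)) (eval s (q1 ν))
    have a4 : (0 : ℤ) ≤ ((Y ν : ℤ) + 2) ^ (max C1 C2) := by positivity
    calc |eval s (p1 ν) + eval s (q1 ν)| ≤ 2 * ((Y ν : ℤ) + 2) ^ (max C1 C2) := by linarith
      _ ≤ ((Y ν : ℤ) + 2) * ((Y ν : ℤ) + 2) ^ (max C1 C2) :=
          mul_le_mul_of_nonneg_right (by omega) a4
      _ = _ := by rw [pow_succ]; ring
  | mul_X P j hP =>
    intro p hp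
    obtain ⟨p1, hp1⟩ := Re.ex P
    obtain ⟨C1, hC1⟩ := hP hp1
    refine ⟨C1 + c, ?_⟩
    filter_upwards [hp.eq (hp1.mul (Re.X j)), hC1] with ν h3 h4 s hs
    rw [h3, map_mul, eval_X, abs_mul, pow_add]
    exact mul_le_mul (h4 s hs) (hs j) (abs_nonneg _) (by positivity)

end

end Pool.Agent.Y902.GN
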