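import Mathlib
import Pool.Agent.Y902.GN.Ul

/-!
# Generic internal sets
-/

set_option autoImplicit false

namespace Pool.Agent.Y902.GN

open Filter MvPolynomial

/-- the size of an internal set is a positive power of `Y` -/
def Big (Y : ℕ → ℕ) {α : Type*} (A : ℕ → Finset α) : Prop :=
  ∃ m : ℕ, ∀ᶠ ν in (Uf : Filter ℕ), Y ν + 2 ≤ (A ν).card ^ m

section

variable {Y : ℕ → ℕ} {α : Type*}

theorem Big.mono {A B : ℕ → Finset α} (h : Big Y A)
    (hAB : ∀ᶠ ν in (Uf : Filter ℕ), A ν ⊆ B ν) : Big Y B := by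
  obtain ⟨m, hm⟩ := h
  refine ⟨m, ?_⟩
  filter_upwards [hm, hAB] with ν h1 h2
  exact h1.trans (Nat.pow_le_pow_left (Finset.card_le_card h2) m)

theorem Big.one_lt {A : ℕ → Finset α} (h : Big Y A) :
    ∀ᶠ ν in (Uf : Filter ℕ), 1 < (A ν).card := by
  obtain ⟨m, hm⟩ := h
  filter_upwards [hm] with ν h1
  by_contra hcon
  have h2 : (A ν).card ^ m ≤ 1 ^ m := Nat.pow_le_pow_left (by omega) m
  rw [one_pow] at h2
  omega

theorem Big.nonempty {A : ℕ → Finset α} (h : Big Y A) :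
    ∀ᶠ ν in (Uf : Filter ℕ), (A ν).Nonempty := by
  filter_upwards [h.one_lt] with ν hν
  exact Finset.card_pos.1 (by omega)

theorem half_aux {y a m : ℕ} (h : y ≤ (2 * a) ^ m) (h4 : 4 ^ m ≤ y) : y ≤ a ^ (2 * m) := by
  have h1 : y * y ≤ (2 * a) ^ m * (2 * a) ^ m := Nat.mul_le_mul h h
  have h2 : (2 * a) ^ m * (2 * a) ^ m = 4 ^ m * a ^ (2 * m) := by
    rw [← pow_add, ← two_mul, mul_pow, pow_mul 2 2 m]
    norm_num
  rw [h2] at h1
  have h3 : 4 ^ m * a ^ (2 * m) ≤ y * a ^ (2 * m) := Nat.mul_le_mul_right _ h4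
  have hy : 0 < y := lt_of_lt_of_le (Nat.pow_pos (by norm_num)) h4
  exact Nat.le_of_mul_le_mul_left (h1.trans h3) hy

theorem Big.or [DecidableEq α] (hY : ∀ m : ℕ, ∀ᶠ ν in (Uf : Filter ℕ), m ≤ Y ν)
    {A B C : ℕ → Finset α} (h : Big Y A)
    (hABC : ∀ᶠ ν in (Uf : Filter ℕ), A ν ⊆ B ν ∪ C ν) : Big Y B ∨ Big Y C := by
  obtain ⟨m, hm⟩ := h
  have h1 : ∀ᶠ ν in (Uf : Filter ℕ), ((C ν).card ≤ (B ν).card ∨ (B ν).card ≤ (C ν).card) :=
    Filter.Eventually.of_forall fun ν => le_total _ _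
  rcases ev_or.1 h1 with h2 | h2
  · left
    refine ⟨2 * m, ?_⟩
    filter_upwards [hm, hABC, h2, hY (4 ^ m)] with ν a b c d
    have e : (A ν).card ≤ (B ν).card + (C ν).card :=
      (Finset.card_le_card b).trans (Finset.card_union_le _ _)
    exact half_aux (a.trans (Nat.pow_le_pow_left (by omega) m)) (by omega)
  · right
    refine ⟨2 * m, ?_⟩
    filter_upwards [hm, hABC, h2, hY (4 ^ m)] with ν a b c d
    have e : (A ν).card ≤ (B ν).card + (C ν).card :=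
      (Finset.card_le_card b).trans (Finset.card_union_le _ _)
    exact half_aux (a.trans (Nat.pow_le_pow_left (by omega) m)) (by omega)

/-- a set with few classes has a large class -/
theorem Big.frac (hY : ∀ m : ℕ, ∀ᶠ ν in (Uf : Filter ℕ), m ≤ Y ν) {α' : Type*}
    {A : ℕ → Finset α} {A' : ℕ → Finset α'} {X : ℕ → ℕ} {m e k : ℕ} (hk : 4 * e * m ≤ k)
    (h1 : ∀ᶠ ν in (Uf : Filter ℕ), Y ν + 2 ≤ (A ν).card ^ m)
    (h2 : ∀ᶠ ν in (Uf : Filter ℕ), (A ν).card ≤ X ν ^ e * (A' ν).card)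
    (h3 : ∀ᶠ ν in (Uf : Filter ℕ), 1 ≤ X ν ∧ X ν ^ k ≤ 2 ^ k * (Y ν + 2)) : Big Y A' := by
  refine ⟨2 * m, ?_⟩
  filter_upwards [h1, h2, h3, hY (2 ^ k)] with ν a b c d
  obtain ⟨c1, c2⟩ := c
  set y := Y ν + 2 with hy
  have d' : 2 ^ k ≤ y := by omega
  have hypos : 0 < y := by omega
  have e1 : X ν ^ (2 * e * m) * X ν ^ (2 * e * m) ≤ y * y := by
    rw [← pow_add]
    have : 2 * e * m + 2 * e * m = 4 * e * m := by ring
    rw [this]
    exact (Nat.pow_le_pow_right c1 hk).trans (c2.trans (Nat.mul_le_mul_right _ d'))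
  have e2 : X ν ^ (2 * e * m) ≤ y := by
    by_contra hcon
    push Not at hcon
    have := Nat.mul_lt_mul'' hcon hcon
    omega
  have e3 : y * y ≤ y * (A' ν).card ^ (2 * m) := by
    calc y * y ≤ (A ν).card ^ m * (A ν).card ^ m := Nat.mul_le_mul a a
      _ = (A ν).card ^ (2 * m) := by rw [← pow_add, two_mul]
      _ ≤ (X ν ^ e * (A' ν).card) ^ (2 * m) := Nat.pow_le_pow_left b _
      _ = X ν ^ (2 * e * m) * (A' ν).card ^ (2 * m) := by
          rw [mul_pow, ← pow_mul]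
          congr 2
          ring
      _ ≤ y * (A' ν).card ^ (2 * m) := Nat.mul_le_mul_right _ e2
  exact Nat.le_of_mul_le_mul_left e3 hypos

end

section

variable {Y : ℕ → ℕ} {N : ℕ}

/-- polynomials which vanish on an internal set -/
noncomputable def JI (Y : ℕ → ℕ) {N : ℕ} (Om : ℕ → Finset (Fin N → ℤ)) :
    Ideal (MvPolynomial (Fin N) (OO Y)) where
  carrier := {P | ∀ᶠ ν in (Uf : Filter ℕ), ∀ t ∈ Om ν, eval t (sq P ν) = 0}
  add_mem' := by
    intro P Q hP hQ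
    simp only [Set.mem_ofPred_eq] at *
    filter_upwards [hP, hQ, (Re.sq (P + Q)).eq ((Re.sq P).add (Re.sq Q))] with ν a b c t ht
    rw [c, map_add, a t ht, b t ht, add_zero]
  zero_mem' := by
    simp only [Set.mem_ofPred_eq]
    filter_upwards [(Re.sq (0 : MvPolynomial (Fin N) (OO Y))).eq Re.zero] with ν c t _
    rw [c, map_zero]
  smul_mem' := by
    intro P Q hQ
    simp only [Set.mem_ofPred_eq, smul_eq_mul] at *
    filter_upwards [hQ, (Re.sq (P * Q)).eq ((Re.sq P).mul (Re.sq Q))] with ν b c t ht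
    rw [c, map_mul, b t ht, mul_zero]

theorem mem_JI {Om : ℕ → Finset (Fin N → ℤ)} {P : MvPolynomial (Fin N) (OO Y)}
    {p : ℕ → MvPolynomial (Fin N) ℤ} (hp : Re P p) :
    P ∈ JI Y Om ↔ ∀ᶠ ν in (Uf : Filter ℕ), ∀ t ∈ Om ν, eval t (p ν) = 0 := by
  have h : ∀ᶠ ν in (Uf : Filter ℕ), sq P ν = p ν := (Re.sq P).eq hp
  constructor
  · intro h1
    have h1' : ∀ᶠ ν in (Uf : Filter ℕ), ∀ t ∈ Om ν, eval t (sq P ν) = 0 := h1
    filter_upwards [h1', h] with ν a b t ht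
    rw [← b]; exact a t ht
  · intro h1
    show ∀ᶠ ν in (Uf : Filter ℕ), ∀ t ∈ Om ν, eval t (sq P ν) = 0
    filter_upwards [h1, h] with ν a b t ht
    rw [b]; exact a t ht

theorem JI_mono {Om Om' : ℕ → Finset (Fin N → ℤ)}
    (h : ∀ᶠ ν in (Uf : Filter ℕ), Om' ν ⊆ Om ν) : JI Y Om ≤ JI Y Om' := by
  intro P hP
  rw [mem_JI (Re.sq P)] at hP ⊢
  filter_upwards [hP, h] with ν a b t ht
  exact a t (b ht)

/-- constants -/
theorem ev_ne_zero {c : OO Y} (hc : c ≠ 0) {f : ℕ → ℤ} (hf : (c : ZS) = (f : ZS)) :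
    ∀ᶠ ν in (Uf : Filter ℕ), f ν ≠ 0 := by
  rw [ev_not]
  intro h
  apply hc
  apply Subtype.ext
  rw [hf]
  exact Filter.Germ.coe_eq.2 h

theorem C_notMem {Om : ℕ → Finset (Fin N → ℤ)} (h : Big Y Om) {c : OO Y} (hc : c ≠ 0) :
    C c ∉ JI Y Om := by
  obtain ⟨f, hf⟩ := rep_exists c
  intro hcon
  rw [mem_JI (Re.C hf)] at hcon
  obtain ⟨ν, h1, h2, h3⟩ := (hcon.and ((ev_ne_zero hc hf).and h.nonempty)).exists
  obtain ⟨t, ht⟩ := h3
  have := h1 t ht
  rw [eval_C] at this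
  exact h2 this

theorem C_mul_mem {Om : ℕ → Finset (Fin N → ℤ)} {c : OO Y} (hc : c ≠ 0)
    {P : MvPolynomial (Fin N) (OO Y)} (h : C c * P ∈ JI Y Om) : P ∈ JI Y Om := by
  obtain ⟨f, hf⟩ := rep_exists c
  rw [mem_JI ((Re.C hf).mul (Re.sq P))] at h
  rw [mem_JI (Re.sq P)]
  filter_upwards [h, ev_ne_zero hc hf] with ν a b t ht
  have := a t ht
  rw [map_mul, eval_C] at this
  exact (mul_eq_zero.1 this).resolve_left b

/-- generic internal sets: every large internal subset has the same ideal -/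
def Gen (Y : ℕ → ℕ) {N : ℕ} (Om : ℕ → Finset (Fin N → ℤ)) : Prop :=
  Big Y Om ∧ ∀ Om' : ℕ → Finset (Fin N → ℤ), (∀ᶠ ν in (Uf : Filter ℕ), Om' ν ⊆ Om ν) →
    Big Y Om' → JI Y Om' ≤ JI Y Om

theorem Gen.ex {Om₀ : ℕ → Finset (Fin N → ℤ)} (h : Big Y Om₀) : ∃ Om : ℕ → Finset (Fin N → ℤ),
    (∀ᶠ ν in (Uf : Filter ℕ), Om ν ⊆ Om₀ ν) ∧ Gen Y Om := by
  classical
  let K := FractionRing (OO Y)
  let ψ : MvPolynomial (Fin N) (OO Y) →+* MvPolynomial (Fin N) K := MvPolynomial.map (algebraMap _ _)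
  let 𝒜 : Set (Ideal (MvPolynomial (Fin N) K)) := {I | ∃ Om : ℕ → Finset (Fin N → ℤ),
    (∀ᶠ ν in (Uf : Filter ℕ), Om ν ⊆ Om₀ ν) ∧ Big Y Om ∧ I = (JI Y Om).map ψ}
  have hne : 𝒜.Nonempty := ⟨_, Om₀, Filter.Eventually.of_forall fun _ => subset_rfl, h, rfl⟩
  obtain ⟨I, ⟨Om, hOm, hbig, hI⟩, hmax⟩ := WellFounded.has_min
    (wellFounded_gt : WellFounded ((· > ·) : Ideal (MvPolynomial (Fin N) K) → _ → Prop)) 𝒜 hne
  refine ⟨Om, hOm, hbig, fun Om' hOm' hbig' P hP => ?_⟩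
  have h1 : (JI Y Om).map ψ ≤ (JI Y Om').map ψ := Ideal.map_mono (JI_mono hOm')
  have h2 : (JI Y Om').map ψ ∈ 𝒜 := by
    refine ⟨Om', ?_, hbig', rfl⟩
    filter_upwards [hOm, hOm'] with ν a b
    exact b.trans a
  have h3 : (JI Y Om').map ψ = (JI Y Om).map ψ := by
    by_contra hcon
    have h4 : (JI Y Om).map ψ < (JI Y Om').map ψ := lt_of_le_of_ne h1 (Ne.symm hcon)
    rw [← hI] at h4
    exact hmax _ h2 h4
  have h4 : ψ P ∈ (JI Y Om).map ψ := by rw [← h3]; exact Ideal.mem_map_of_mem ψ hP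
  let _ := MvPolynomial.algebraMvPolynomial (σ := Fin N) (R := OO Y) (S := K)
  have hloc : IsLocalization ((nonZeroDivisors (OO Y)).map (C (σ := Fin N)))
      (MvPolynomial (Fin N) K) := MvPolynomial.isLocalization (nonZeroDivisors (OO Y)) K
  have hψ : ψ = algebraMap (MvPolynomial (Fin N) (OO Y)) (MvPolynomial (Fin N) K) := rfl
  rw [hψ, IsLocalization.mem_map_algebraMap_iff ((nonZeroDivisors (OO Y)).map (C (σ := Fin N)))
    (MvPolynomial (Fin N) K)] at h4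
  obtain ⟨⟨x, m⟩, hx⟩ := h4
  obtain ⟨m, c, hc, rfl⟩ := m
  simp only at hx
  rw [← map_mul] at hx
  have hinj : Function.Injective ψ := MvPolynomial.map_injective _ (IsFractionRing.injective _ _)
  have h5 : P * C c = (x : MvPolynomial (Fin N) (OO Y)) := hinj hx
  have h6 : C c * P ∈ JI Y Om := by rw [mul_comm, h5]; exact x.2
  exact C_mul_mem (nonZeroDivisors.ne_zero hc) h6

variable {Om : ℕ → Finset (Fin N → ℤ)}

theorem Gen.notBig (h : Gen Y Om) {P : MvPolynomial (Fin N) (OO Y)}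
    {p : ℕ → MvPolynomial (Fin N) ℤ} (hp : Re P p) (hP : P ∉ JI Y Om) {Om' : ℕ → Finset (Fin N → ℤ)}
    (hOm' : ∀ᶠ ν in (Uf : Filter ℕ), Om' ν ⊆ Om ν)
    (h0 : ∀ᶠ ν in (Uf : Filter ℕ), ∀ t ∈ Om' ν, eval t (p ν) = 0) : ¬ Big Y Om' := by
  intro hb
  exact hP (h.2 Om' hOm' hb ((mem_JI hp).2 h0))

theorem Gen.isPrime (hY : ∀ m : ℕ, ∀ᶠ ν in (Uf : Filter ℕ), m ≤ Y ν) (h : Gen Y Om) :
    (JI Y Om).IsPrime := by
  classical
  rw [Ideal.isPrime_iff]
  refine ⟨?_, ?_⟩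
  · intro htop
    have h1 : (1 : MvPolynomial (Fin N) (OO Y)) ∈ JI Y Om := by rw [htop]; trivial
    have h2 := C_notMem (Y := Y) h.1 (one_ne_zero (α := OO Y))
    rw [C_1] at h2
    exact h2 h1
  · intro P Q hPQ
    by_contra hcon
    push Not at hcon
    have h1 := (mem_JI ((Re.sq P).mul (Re.sq Q))).1 hPQ
    rcases h.1.or hY (B := fun ν => (Om ν).filter fun t => eval t (sq P ν) = 0)
      (C := fun ν => (Om ν).filter fun t => eval t (sq Q ν) = 0) (by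
        filter_upwards [h1] with ν a t ht
        have := a t ht
        rw [map_mul] at this
        rw [Finset.mem_union, Finset.mem_filter, Finset.mem_filter]
        rcases mul_eq_zero.1 this with h2 | h2
        · exact Or.inl ⟨ht, h2⟩
        · exact Or.inr ⟨ht, h2⟩) with h2 | h2
    · exact h.notBig (Re.sq P) hcon.1 (Filter.Eventually.of_forall fun ν => Finset.filter_subset _ _)
        (Filter.Eventually.of_forall fun ν t ht => (Finset.mem_filter.1 ht).2) h2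
    · exact h.notBig (Re.sq Q) hcon.2 (Filter.Eventually.of_forall fun ν => Finset.filter_subset _ _)
        (Filter.Eventually.of_forall fun ν t ht => (Finset.mem_filter.1 ht).2) h2

end

end Pool.Agent.Y902.GN
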