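import Mathlib
import Pool.Agent.Y902.GN.Gen

/-!
# Sizes: roots of `Y` and logarithms
-/

set_option autoImplicit false

namespace Pool.Agent.Y902.GN

open Filter

theorem rootX (Y : ℕ → ℕ) (k : ℕ) (hk : 1 ≤ k) : ∃ X : ℕ → ℕ, ∀ ν, 1 ≤ X ν ∧
    Y ν + 2 ≤ X ν ^ k ∧ X ν ^ k ≤ 2 ^ k * (Y ν + 2) := by
  have h : ∀ ν, ∃ X : ℕ, Y ν + 2 ≤ X ^ k := fun ν => ⟨Y ν + 2, Nat.le_self_pow (by omega) _⟩
  classical
  refine ⟨fun ν => Nat.find (h ν), fun ν => ?_⟩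
  have h1 := Nat.find_spec (h ν)
  set X := Nat.find (h ν) with hX
  have hX2 : 2 ≤ X := by
    by_contra hcon
    push Not at hcon
    have : X ^ k ≤ 1 ^ k := Nat.pow_le_pow_left (by omega) k
    rw [one_pow] at this
    omega
  refine ⟨show 1 ≤ X by omega, h1, ?_⟩
  show X ^ k ≤ 2 ^ k * (Y ν + 2)
  have hlt : X - 1 < X := by omega
  have h2 : ¬ (Y ν + 2 ≤ (X - 1) ^ k) := Nat.find_min (h ν) hlt
  push Not at h2
  calc X ^ k ≤ (2 * (X - 1)) ^ k := Nat.pow_le_pow_left (by omega) k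
    _ = 2 ^ k * (X - 1) ^ k := by rw [mul_pow]
    _ ≤ 2 ^ k * (Y ν + 2) := Nat.mul_le_mul_left _ h2.le

theorem log_pow_le (c : ℕ) : ∃ y₀ : ℕ, ∀ y : ℕ, y₀ ≤ y → (Nat.log 2 (y + 2) + 1) ^ c ≤ y := by
  have h1 : Tendsto (fun n : ℕ => ((n : ℝ) ^ c / (2 : ℝ) ^ n)) atTop (nhds 0) :=
    tendsto_pow_const_div_const_pow_of_one_lt c (by norm_num)
  have h2 : ∀ᶠ n : ℕ in atTop, ((n : ℝ) ^ c / (2 : ℝ) ^ n) < 1 / 4 :=
    h1.eventually (gt_mem_nhds (by norm_num))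
  obtain ⟨n₀, hn₀⟩ := Filter.eventually_atTop.1 h2
  refine ⟨2 ^ (n₀ + 3), fun y hy => ?_⟩
  set n := Nat.log 2 (y + 2) + 1 with hn
  have h3 : y + 2 < 2 ^ n := Nat.lt_pow_succ_log_self (by norm_num) _
  have h4 : 2 ^ (n - 1) ≤ y + 2 := by
    have : n - 1 = Nat.log 2 (y + 2) := by omega
    rw [this]
    exact Nat.pow_log_le_self 2 (by omega)
  have h5 : n₀ ≤ n := by
    by_contra hcon
    push Not at hcon
    have : 2 ^ n ≤ 2 ^ (n₀ + 3) := Nat.pow_le_pow_right (by norm_num) (by omega)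
    omega
  have h6 := hn₀ n h5
  rw [div_lt_iff₀ (by positivity)] at h6
  have h7 : (4 : ℝ) * (n : ℝ) ^ c < (2 : ℝ) ^ n := by linarith
  have h8 : 4 * n ^ c < 2 ^ n := by exact_mod_cast h7
  have hn1 : 1 ≤ n := by omega
  have h9 : 2 ^ n = 2 * 2 ^ (n - 1) := by
    conv_lhs => rw [show n = (n - 1) + 1 by omega, pow_succ]
    ring
  have h10 : 8 ≤ 2 ^ (n₀ + 3) := by
    calc 8 = 2 ^ 3 := by norm_num
      _ ≤ 2 ^ (n₀ + 3) := Nat.pow_le_pow_right (by norm_num) (by omega)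
  have h11 : n ^ c = (Nat.log 2 (y + 2) + 1) ^ c := by rw [hn]
  omega

section

variable {Y : ℕ → ℕ} (hY : ∀ m : ℕ, ∀ᶠ ν in (Uf : Filter ℕ), m ≤ Y ν)

include hY

theorem ev_log_pow (c : ℕ) :
    ∀ᶠ ν in (Uf : Filter ℕ), (Nat.log 2 (Y ν + 2) + 1) ^ c ≤ Y ν := by
  obtain ⟨y₀, hy₀⟩ := log_pow_le c
  filter_upwards [hY y₀] with ν hν
  exact hy₀ _ hν

theorem X_large {X : ℕ → ℕ} {k : ℕ} (hX : ∀ ν, Y ν + 2 ≤ X ν ^ k) (m : ℕ) :
    ∀ᶠ ν in (Uf : Filter ℕ), m ≤ X ν := by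
  filter_upwards [hY (m ^ k)] with ν hν
  by_contra hcon
  push Not at hcon
  have h1 : X ν ^ k ≤ m ^ k := Nat.pow_le_pow_left hcon.le k
  have := hX ν
  omega

/-- everything of logarithmic size is less than `X` -/
theorem ev_size {X : ℕ → ℕ} {k : ℕ} (hk : 1 ≤ k) (hX : ∀ ν, Y ν + 2 ≤ X ν ^ k)
    {M w : ℕ → ℕ} (hM : ∀ c : ℕ, ∀ᶠ ν in (Uf : Filter ℕ), M ν ^ c ≤ Y ν)
    (hw : ∀ c : ℕ, ∀ᶠ ν in (Uf : Filter ℕ), w ν ^ c ≤ Y ν) (C : ℕ) :
    ∀ᶠ ν in (Uf : Filter ℕ),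
      (C * (M ν + 1)) * (Nat.log 2 (Y ν + 2) + 1) + w ν + C < X ν := by
  filter_upwards [hM (4 * k), hw (4 * k), ev_log_pow hY (4 * k),
    X_large hY hX ((3 * C + 2) ^ 4)] with ν h1 h2 h3 h4
  have root : ∀ a : ℕ, a ^ (4 * k) ≤ Y ν → a ^ 4 ≤ X ν := by
    intro a ha
    have h5 : (a ^ 4) ^ k ≤ X ν ^ k := by
      rw [← pow_mul]
      have := hX ν
      omega
    exact (Nat.pow_le_pow_iff_left (by omega)).1 h5
  set L := Nat.log 2 (Y ν + 2) + 1 with hL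
  obtain ⟨a, ha⟩ : ∃ a, a = max (max (M ν) (w ν)) (max L (3 * C + 2)) := ⟨_, rfl⟩
  have ha4 : a ^ 4 ≤ X ν := by
    rw [ha]
    rcases max_choice (max (M ν) (w ν)) (max L (3 * C + 2)) with h | h
    · rw [h]
      rcases max_choice (M ν) (w ν) with h' | h'
      · rw [h']; exact root _ h1
      · rw [h']; exact root _ h2
    · rw [h]
      rcases max_choice L (3 * C + 2) with h' | h'
      · rw [h']; exact root _ h3
      · rw [h']; exact h4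
  have b1 : M ν ≤ a := by rw [ha]; exact (le_max_left _ _).trans (le_max_left _ _)
  have b2 : w ν ≤ a := by rw [ha]; exact (le_max_right _ _).trans (le_max_left _ _)
  have b3 : L ≤ a := by rw [ha]; exact (le_max_left _ _).trans (le_max_right _ _)
  have b4 : 3 * C + 2 ≤ a := by rw [ha]; exact (le_max_right _ _).trans (le_max_right _ _)
  have a1 : 1 ≤ a := by omega
  refine lt_of_lt_of_le ?_ ha4
  have e1 : (C * (M ν + 1)) * L ≤ (C * (2 * a)) * a := by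
    refine Nat.mul_le_mul (Nat.mul_le_mul_left _ (by omega)) b3
  have e2 : (C * (2 * a)) * a + a + C < (3 * C + 2) * (a * a) := by
    have h5 : a ≤ a * a := Nat.le_mul_of_pos_left _ (by omega)
    have h6 : C * 1 ≤ C * (a * a) := Nat.mul_le_mul_left _ (by nlinarith)
    have h7 : 1 ≤ a * a := by nlinarith
    have e : (3 * C + 2) * (a * a) = (C * (2 * a)) * a + C * (a * a) + 2 * (a * a) := by ring
    rw [e]
    omega
  have e3 : (3 * C + 2) * (a * a) ≤ a ^ 4 := by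
    calc (3 * C + 2) * (a * a) ≤ a * (a * a) := Nat.mul_le_mul_right _ b4
      _ ≤ a * (a * (a * a)) := Nat.mul_le_mul_left _ (Nat.le_mul_of_pos_left _ (by omega))
      _ = a ^ 4 := by ring
  omega

end

end Pool.Agent.Y902.GN
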