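import Mathlib
import Pool.Agent.Y902.GN.Alg
import Pool.Agent.Y902.GN.Size

/-!
# Function field data of a generic internal set, and systems of terms
-/

set_option autoImplicit false

namespace Pool.Agent.Y902.GN

open Filter MvPolynomial

theorem Re.dl {Y : ℕ → ℕ} {d : ℕ} {H P : MvPolynomial (Option (Fin d)) (OO Y)}
    {h p : ℕ → MvPolynomial (Option (Fin d)) ℤ} (hh : Re H h) (hp : Re P p) (a : Fin d) :
    Re (dl H a P) (fun ν => GN.dl (h ν) a (p ν)) := by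
  unfold GN.dl
  exact ((hh.pderiv none).mul (hp.pderiv (some a))).sub ((hh.pderiv (some a)).mul (hp.pderiv none))

theorem eval_aeval {σ τ : Type*} (g : σ → MvPolynomial τ ℤ) (t : τ → ℤ) (p : MvPolynomial σ ℤ) :
    eval t (aeval g p) = eval (fun i => eval t (g i)) p := by
  induction p using MvPolynomial.induction_on with
  | C a => rw [aeval_C, eval_C]; exact eval_C a
  | add p q hp hq => rw [map_add, map_add, map_add, hp, hq]
  | mul_X p i hp => rw [map_mul, map_mul, map_mul, hp, aeval_X, eval_X]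

section

variable {Y : ℕ → ℕ} {N : ℕ}

/-- function field data of an internal set -/
structure FF (Y : ℕ → ℕ) {N : ℕ} (Om : ℕ → Finset (Fin N → ℤ)) where
  d : ℕ
  ι : Fin d → Fin N
  A : MvPolynomial (Fin N) (OO Y)
  H : MvPolynomial (Option (Fin d)) (OO Y)
  B₀ : MvPolynomial (Fin d) (OO Y)
  B : Fin N → MvPolynomial (Option (Fin d)) (OO Y)
  ind : ∀ P : MvPolynomial (Fin d) (OO Y), rename ι P ∈ JI Y Om → P = 0
  H0 : sb ι A H ∈ JI Y Om
  HT : sb ι A (pderiv none H) ∉ JI Y Om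
  dvd : ∀ P, sb ι A P ∈ JI Y Om → ∃ (c : MvPolynomial (Fin d) (OO Y))
    (Q : MvPolynomial (Option (Fin d)) (OO Y)), c ≠ 0 ∧ rename some c * P = H * Q
  B00 : B₀ ≠ 0
  BX : ∀ i, rename ι B₀ * X i - sb ι A (B i) ∈ JI Y Om

theorem FF.ex (hS : S_alg) (hY : ∀ m : ℕ, ∀ᶠ ν in (Uf : Filter ℕ), m ≤ Y ν)
    {Om : ℕ → Finset (Fin N → ℤ)} (h : Gen Y Om) : Nonempty (FF Y Om) := by
  obtain ⟨d, ι, A, H, B₀, B, h1, h2, h3, h4, h5, h6⟩ := hS (OO Y) N (JI Y Om) (h.isPrime hY)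
    (fun c hc => C_notMem h.1 hc)
  exact ⟨⟨d, ι, A, H, B₀, B, h1, h2, h3, h4, h5, h6⟩⟩

variable {Om : ℕ → Finset (Fin N → ℤ)}

/-- the point of the hypersurface -/
noncomputable def FF.sp (F : FF Y Om) (ν : ℕ) (t : Fin N → ℤ) : Option (Fin F.d) → ℤ :=
  fun o => o.elim (eval t (sq F.A ν)) (fun b => t (F.ι b))

theorem FF.sp_some (F : FF Y Om) (ν : ℕ) (t : Fin N → ℤ) (b : Fin F.d) :
    F.sp ν t (some b) = t (F.ι b) := rfl

theorem FF.sb_re (F : FF Y Om) {P : MvPolynomial (Option (Fin F.d)) (OO Y)}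
    {p : ℕ → MvPolynomial (Option (Fin F.d)) ℤ} (hp : Re P p) : Re (sb F.ι F.A P)
    (fun ν => aeval (fun o => Option.elim o (sq F.A ν) (fun b => X (F.ι b))) (p ν)) := by
  unfold sb
  refine Re.aeval (fun o => Option.elim o F.A (fun b => X (F.ι b)))
    (fun o ν => Option.elim o (sq F.A ν) (fun b => X (F.ι b))) ?_ hp
  intro o
  cases o with
  | none => exact Re.sq _
  | some b => exact Re.X _

theorem FF.eval_sb (F : FF Y Om) (ν : ℕ) (t : Fin N → ℤ) (q : MvPolynomial (Option (Fin F.d)) ℤ) :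
    eval t (aeval (fun o => Option.elim o (sq F.A ν) (fun b => X (F.ι b))) q) =
      eval (F.sp ν t) q := by
  rw [eval_aeval]
  have : (fun o => eval t (Option.elim o (sq F.A ν) (fun b => X (F.ι b)))) = F.sp ν t := by
    funext o
    cases o with
    | none => rfl
    | some b => simp [FF.sp]
  rw [this]

theorem FF.mem (F : FF Y Om) {P : MvPolynomial (Option (Fin F.d)) (OO Y)}
    {p : ℕ → MvPolynomial (Option (Fin F.d)) ℤ} (hp : Re P p) : sb F.ι F.A P ∈ JI Y Om ↔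
      ∀ᶠ ν in (Uf : Filter ℕ), ∀ t ∈ Om ν, eval (F.sp ν t) (p ν) = 0 := by
  rw [mem_JI (F.sb_re hp)]
  simp only [F.eval_sb]

theorem FF.notBig (F : FF Y Om) (h : Gen Y Om) {P : MvPolynomial (Option (Fin F.d)) (OO Y)}
    {p : ℕ → MvPolynomial (Option (Fin F.d)) ℤ} (hp : Re P p) (hP : sb F.ι F.A P ∉ JI Y Om)
    {Om' : ℕ → Finset (Fin N → ℤ)} (hOm' : ∀ᶠ ν in (Uf : Filter ℕ), Om' ν ⊆ Om ν)
    (h0 : ∀ᶠ ν in (Uf : Filter ℕ), ∀ t ∈ Om' ν, eval (F.sp ν t) (p ν) = 0) : ¬ Big Y Om' := by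
  refine h.notBig (F.sb_re hp) hP hOm' ?_
  simp only [F.eval_sb]
  exact h0

theorem sb_rename {d : ℕ} {R : Type*} [CommRing R] (ι : Fin d → Fin N)
    (A : MvPolynomial (Fin N) R) (P : MvPolynomial (Fin d) R) :
    sb ι A (rename some P) = rename ι P := by
  unfold sb
  rw [aeval_rename]
  induction P using MvPolynomial.induction_on with
  | C a => simp
  | add p q hp hq => rw [map_add, map_add, hp, hq]
  | mul_X p i hp => rw [map_mul, map_mul, hp, aeval_X, rename_X]; rfl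

/-- the common denominator -/
noncomputable def FF.B0 (F : FF Y Om) : MvPolynomial (Option (Fin F.d)) (OO Y) :=
  rename some F.B₀

theorem FF.B0_notMem (F : FF Y Om) : sb F.ι F.A F.B0 ∉ JI Y Om := by
  unfold FF.B0
  rw [sb_rename]
  exact fun h => F.B00 (F.ind _ h)

theorem FF.rel (F : FF Y Om) (j : Fin N) : ∀ᶠ ν in (Uf : Filter ℕ), ∀ t ∈ Om ν,
    eval (F.sp ν t) (sq F.B0 ν) * t j = eval (F.sp ν t) (sq (F.B j) ν) := by
  have h1 := F.BX j
  rw [← sb_rename F.ι F.A F.B₀] at h1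
  have h2 := (mem_JI (((F.sb_re (Re.sq F.B0)).mul (Re.X j)).sub (F.sb_re (Re.sq (F.B j))))).1 h1
  filter_upwards [h2] with ν a t ht
  have := a t ht
  rw [map_sub, map_mul, eval_X, F.eval_sb, F.eval_sb] at this
  linarith

/-- bounds for the coordinates -/
def Bdd (Y : ℕ → ℕ) (Om : ℕ → Finset (Fin N → ℤ)) : Prop :=
  ∀ᶠ ν in (Uf : Filter ℕ), ∀ t ∈ Om ν, ∀ j, t j ≠ 0 ∧ |t j| ≤ (Y ν : ℤ)

theorem FF.sp_bd (F : FF Y Om) (hb : Bdd Y Om) : ∃ c : ℕ, ∀ᶠ ν in (Uf : Filter ℕ), ∀ t ∈ Om ν,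
    ∀ o, |F.sp ν t o| ≤ ((Y ν : ℤ) + 2) ^ c := by
  obtain ⟨C, hC⟩ := (Re.sq F.A).bd 1
  refine ⟨max C 1, ?_⟩
  filter_upwards [hC, hb] with ν h1 h2 t ht o
  have a0 : (1 : ℤ) ≤ (Y ν : ℤ) + 2 := by omega
  have h3 : ∀ j, |t j| ≤ ((Y ν : ℤ) + 2) ^ 1 := fun j => by
    have := (h2 t ht j).2
    rw [pow_one]; omega
  cases o with
  | none => exact (h1 t h3).trans (pow_le_pow_right₀ a0 (le_max_left _ _))
  | some b => exact (h3 _).trans (pow_le_pow_right₀ a0 (le_max_right _ _))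

theorem FF.val_bd (F : FF Y Om) (hb : Bdd Y Om) {P : MvPolynomial (Option (Fin F.d)) (OO Y)}
    {p : ℕ → MvPolynomial (Option (Fin F.d)) ℤ} (hp : Re P p) :
    ∃ C : ℕ, ∀ᶠ ν in (Uf : Filter ℕ), ∀ t ∈ Om ν,
      |eval (F.sp ν t) (p ν)| ≤ ((Y ν : ℤ) + 2) ^ C := by
  obtain ⟨c, hc⟩ := F.sp_bd hb
  obtain ⟨C, hC⟩ := hp.bd c
  refine ⟨C, ?_⟩
  filter_upwards [hc, hC] with ν h1 h2 t ht
  exact h2 _ (h1 t ht)

theorem FF.B_notMem (F : FF Y Om) (hb : Bdd Y Om) (j : Fin N) :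
    sb F.ι F.A (F.B j) ∉ JI Y Om := by
  intro h
  apply F.B0_notMem
  rw [F.mem (Re.sq _)] at h ⊢
  filter_upwards [h, F.rel j, hb] with ν a b c t ht
  have h1 := b t ht
  rw [a t ht] at h1
  exact (mul_eq_zero.1 h1).resolve_right (c t ht j).1

/-- systems of terms -/
structure TS (Y : ℕ → ℕ) {N : ℕ} (Om : ℕ → Finset (Fin N → ℤ)) (n : ℕ) where
  e : ℕ → Fin n → Fin N → ℕ
  u : ℕ → Fin n → ℤ
  w : ℕ → ℕ
  he : ∀ c : ℕ, ∀ᶠ ν in (Uf : Filter ℕ), (∑ i, ∑ j, e ν i j) ^ c ≤ Y ν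
  hu : ∀ᶠ ν in (Uf : Filter ℕ), ∀ i, u ν i ≠ 0 ∧ |u ν i| ≤ 2 ^ w ν
  hw : ∀ c : ℕ, ∀ᶠ ν in (Uf : Filter ℕ), w ν ^ c ≤ Y ν
  sum0 : ∀ᶠ ν in (Uf : Filter ℕ), ∀ t ∈ Om ν, ∑ i, u ν i * ∏ j, t j ^ e ν i j = 0

variable {n : ℕ}

/-- the terms -/
def TS.T (S : TS Y Om n) (ν : ℕ) (i : Fin n) (t : Fin N → ℤ) : ℤ :=
  S.u ν i * ∏ j, t j ^ S.e ν i j

/-- the total degree -/
def TS.M (S : TS Y Om n) (ν : ℕ) : ℕ := ∑ i, ∑ j, S.e ν i j

theorem TS.le_M (S : TS Y Om n) (ν : ℕ) (i : Fin n) : ∑ j, S.e ν i j ≤ S.M ν :=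
  Finset.single_le_sum (f := fun i => ∑ j, S.e ν i j) (fun _ _ => Nat.zero_le _)
    (Finset.mem_univ i)

theorem TS.e_mem (S : TS Y Om n) (i : Fin n) (j : Fin N) :
    ((fun ν => (S.e ν i j : ℤ) : ℕ → ℤ) : ZS) ∈ OO Y := by
  rw [mem_OO]
  refine ⟨1, ?_⟩
  filter_upwards [S.he 1] with ν hν
  rw [pow_one] at hν
  have h1 : S.e ν i j ≤ ∑ j, S.e ν i j :=
    Finset.single_le_sum (f := fun j => S.e ν i j) (fun _ _ => Nat.zero_le _) (Finset.mem_univ j)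
  have h2 : ∑ j, S.e ν i j ≤ ∑ i, ∑ j, S.e ν i j := S.le_M ν i
  rw [pow_one, abs_of_nonneg (by positivity)]
  have h3 : S.e ν i j ≤ Y ν := h1.trans (h2.trans hν)
  have h4 : (S.e ν i j : ℤ) ≤ Y ν := by exact_mod_cast h3
  linarith

/-- the exponents as nonstandard integers -/
noncomputable def TS.κ (S : TS Y Om n) (i : Fin n) (j : Fin N) : OO Y := ⟨_, S.e_mem i j⟩

theorem TS.bd (S : TS Y Om n) (hb : Bdd Y Om) : ∀ᶠ ν in (Uf : Filter ℕ), ∀ t ∈ Om ν, ∀ i,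
    S.T ν i t ≠ 0 ∧ |S.T ν i t| ≤ 2 ^ S.w ν * ((Y ν : ℤ) + 2) ^ S.M ν := by
  filter_upwards [hb, S.hu] with ν h1 h2 t ht i
  refine ⟨mul_ne_zero (h2 i).1 (Finset.prod_ne_zero_iff.2 fun j _ =>
    pow_ne_zero _ (h1 t ht j).1), ?_⟩
  unfold TS.T
  rw [abs_mul, Finset.abs_prod]
  have a0 : (1 : ℤ) ≤ (Y ν : ℤ) + 2 := by omega
  have h3 : ∏ j, |t j ^ S.e ν i j| ≤ ∏ j, ((Y ν : ℤ) + 2) ^ S.e ν i j := by
    refine Finset.prod_le_prod (fun _ _ => abs_nonneg _) fun j _ => ?_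
    rw [abs_pow]
    refine pow_le_pow_left₀ (abs_nonneg _) ?_ _
    have := (h1 t ht j).2
    linarith
  rw [Finset.prod_pow_eq_pow_sum] at h3
  have h4 : ((Y ν : ℤ) + 2) ^ (∑ j, S.e ν i j) ≤ ((Y ν : ℤ) + 2) ^ S.M ν :=
    pow_le_pow_right₀ a0 (S.le_M ν i)
  exact mul_le_mul (h2 i).2 (h3.trans h4) (Finset.prod_nonneg fun _ _ => abs_nonneg _)
    (by positivity)

theorem Re.ldv {d : ℕ} (κ : Fin N → OO Y) (k : ℕ → Fin N → ℤ)
    (hk : ∀ j, (κ j : ZS) = ((fun ν => k ν j : ℕ → ℤ) : ZS))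
    {H B0 : MvPolynomial (Option (Fin d)) (OO Y)} {B : Fin N → MvPolynomial (Option (Fin d)) (OO Y)}
    {h b0 : ℕ → MvPolynomial (Option (Fin d)) ℤ} {b : Fin N → ℕ → MvPolynomial (Option (Fin d)) ℤ}
    (hh : Re H h) (hb0 : Re B0 b0) (hb : ∀ j, Re (B j) (b j)) (a : Fin d) :
    Re (ldv H B0 B κ a) (fun ν => GN.ldv (h ν) (b0 ν) (fun j => b j ν) (k ν) a) := by
  unfold GN.ldv
  refine Re.sum _ fun j _ => (Re.C (hk j)).mul ?_
  unfold cof
  exact (Re.prod _ fun k _ => hb k).mul ((hb0.mul (hh.dl (hb j) a)).sub ((hb j).mul (hh.dl hb0 a)))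

theorem Re.nab {d : ℕ} (κ : Fin N → OO Y) (k : ℕ → Fin N → ℤ)
    (hk : ∀ j, (κ j : ZS) = ((fun ν => k ν j : ℕ → ℤ) : ZS))
    {H B0 R : MvPolynomial (Option (Fin d)) (OO Y)}
    {B : Fin N → MvPolynomial (Option (Fin d)) (OO Y)}
    {h b0 r : ℕ → MvPolynomial (Option (Fin d)) ℤ}
    {b : Fin N → ℕ → MvPolynomial (Option (Fin d)) ℤ}
    (hh : Re H h) (hb0 : Re B0 b0) (hb : ∀ j, Re (B j) (b j)) (hr : Re R r) (a : Fin d) :
    Re (nab H B0 B κ a R) (fun ν => GN.nab (h ν) (b0 ν) (fun j => b j ν) (k ν) a (r ν)) := by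
  unfold GN.nab
  exact (((Re.prod _ fun k _ => hb k).mul hb0).mul (hh.dl hr a)).add
    (hr.mul (Re.ldv κ k hk hh hb0 hb a))

/-- coefficient vectors of relations between the terms which hold at almost all points -/
def FR (F : FF Y Om) (S : TS Y Om n) (R : Fin n → MvPolynomial (Option (Fin F.d)) (OO Y)) : Prop :=
  ¬ Big Y (fun ν => (Om ν).filter fun t => ∑ i, eval (F.sp ν t) (sq (R i) ν) * S.T ν i t ≠ 0)

theorem FR.iff {F : FF Y Om} {S : TS Y Om n} {R : Fin n → MvPolynomial (Option (Fin F.d)) (OO Y)}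
    {r : Fin n → ℕ → MvPolynomial (Option (Fin F.d)) ℤ} (hr : ∀ i, Re (R i) (r i)) : FR F S R ↔
    ¬ Big Y (fun ν => (Om ν).filter fun t => ∑ i, eval (F.sp ν t) (r i ν) * S.T ν i t ≠ 0) := by
  have h1 : ∀ᶠ ν in (Uf : Filter ℕ), ∀ i, sq (R i) ν = r i ν :=
    Filter.eventually_all.2 fun i => (Re.sq (R i)).eq (hr i)
  have h2 : ∀ᶠ ν in (Uf : Filter ℕ),
      ((Om ν).filter fun t => ∑ i, eval (F.sp ν t) (sq (R i) ν) * S.T ν i t ≠ 0) =
      ((Om ν).filter fun t => ∑ i, eval (F.sp ν t) (r i ν) * S.T ν i t ≠ 0) := by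
    filter_upwards [h1] with ν hν
    simp only [hν]
  unfold FR
  rw [not_iff_not]
  constructor
  · intro h
    exact h.mono (h2.mono fun ν hν => hν.subset)
  · intro h
    exact h.mono (h2.mono fun ν hν => hν.symm.subset)

theorem FR.comb (hY : ∀ m : ℕ, ∀ᶠ ν in (Uf : Filter ℕ), m ≤ Y ν) {F : FF Y Om} {S : TS Y Om n}
    {R R' : Fin n → MvPolynomial (Option (Fin F.d)) (OO Y)} (h : FR F S R) (h' : FR F S R')
    (P P' : MvPolynomial (Option (Fin F.d)) (OO Y)) :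
    FR F S (fun i => P * R i + P' * R' i) := by
  classical
  rw [FR.iff (fun i => ((Re.sq P).mul (Re.sq (R i))).add ((Re.sq P').mul (Re.sq (R' i))))]
  intro hb
  rcases hb.or hY (B := fun ν => (Om ν).filter fun t => ∑ i, eval (F.sp ν t) (sq (R i) ν) * S.T ν i t ≠ 0)
    (C := fun ν => (Om ν).filter fun t => ∑ i, eval (F.sp ν t) (sq (R' i) ν) * S.T ν i t ≠ 0)
    (Filter.Eventually.of_forall fun ν t ht => by
      rw [Finset.mem_filter] at ht
      rw [Finset.mem_union, Finset.mem_filter, Finset.mem_filter]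
      by_contra hcon
      push Not at hcon
      apply ht.2
      have e1 := hcon.1 ht.1
      have e2 := hcon.2 ht.1
      have e3 : ∑ i, eval (F.sp ν t) (sq P ν * sq (R i) ν + sq P' ν * sq (R' i) ν) * S.T ν i t =
          eval (F.sp ν t) (sq P ν) * (∑ i, eval (F.sp ν t) (sq (R i) ν) * S.T ν i t) +
          eval (F.sp ν t) (sq P' ν) * (∑ i, eval (F.sp ν t) (sq (R' i) ν) * S.T ν i t) := by
        rw [Finset.mul_sum, Finset.mul_sum, ← Finset.sum_add_distrib]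
        refine Finset.sum_congr rfl fun i _ => ?_
        rw [map_add, map_mul, map_mul]
        ring
      rw [e3, e1, e2]
      ring) with h1 | h1
  · exact h h1
  · exact h' h1

theorem not_big_empty {α : Type*} {A : ℕ → Finset α}
    (h : ∀ᶠ ν in (Uf : Filter ℕ), A ν = ∅) : ¬ Big Y A := by
  intro hb
  obtain ⟨ν, h1, h2⟩ := (h.and hb.nonempty).exists
  rw [h1] at h2
  exact Finset.not_nonempty_empty h2

theorem FR.one (F : FF Y Om) (S : TS Y Om n) : FR F S (fun _ => 1) := by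
  rw [FR.iff (fun i => Re.one)]
  apply not_big_empty
  filter_upwards [S.sum0] with ν hν
  apply Finset.filter_false_of_mem
  intro t ht
  simp only [map_one, one_mul, not_not]
  exact hν t ht

/-- a relation cannot have exactly one nonzero coefficient -/
theorem FR.two {F : FF Y Om} (hG : Gen Y Om) (hY : ∀ m : ℕ, ∀ᶠ ν in (Uf : Filter ℕ), m ≤ Y ν)
    (hb : Bdd Y Om) {S : TS Y Om n}
    {R : Fin n → MvPolynomial (Option (Fin F.d)) (OO Y)} (h : FR F S R) {i : Fin n}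
    (hi : sb F.ι F.A (R i) ∉ JI Y Om) : ∃ j, j ≠ i ∧ sb F.ι F.A (R j) ∉ JI Y Om := by
  classical
  by_contra hcon
  push Not at hcon
  have h1 : ∀ᶠ ν in (Uf : Filter ℕ), ∀ j, j ≠ i → ∀ t ∈ Om ν,
      eval (F.sp ν t) (sq (R j) ν) = 0 := by
    rw [Filter.eventually_all]
    intro j
    by_cases hj : j = i
    · exact Filter.Eventually.of_forall fun ν hne => absurd hj hne
    · filter_upwards [(F.mem (Re.sq (R j))).1 (hcon j hj)] with ν hν _
      exact hν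
  rcases hG.1.or hY (B := fun ν => (Om ν).filter fun t => eval (F.sp ν t) (sq (R i) ν) = 0)
    (C := fun ν => (Om ν).filter fun t => ∑ i, eval (F.sp ν t) (sq (R i) ν) * S.T ν i t ≠ 0) (by
      filter_upwards [h1, S.bd hb] with ν h2 h3 t ht
      rw [Finset.mem_union, Finset.mem_filter, Finset.mem_filter]
      by_cases h4 : eval (F.sp ν t) (sq (R i) ν) = 0
      · exact Or.inl ⟨ht, h4⟩
      · right
        refine ⟨ht, ?_⟩
        rw [Finset.sum_eq_single i (fun j _ hj => by rw [h2 j hj t ht, zero_mul])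
          (fun h => absurd (Finset.mem_univ i) h)]
        exact mul_ne_zero h4 (h3 t ht i).1) with h5 | h5
  · exact F.notBig hG (Re.sq (R i)) hi (Filter.Eventually.of_forall fun ν =>
      Finset.filter_subset _ _) (Filter.Eventually.of_forall fun ν t ht =>
      (Finset.mem_filter.1 ht).2) h5
  · exact h h5

end

end Pool.Agent.Y902.GN
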