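import Mathlib
import Pool.Agent.Y902.GN.Core

/-!
# Relations are stable under the derivations
-/

set_option autoImplicit false

namespace Pool.Agent.Y902.GN

open Filter MvPolynomial

section

variable {Y : ℕ → ℕ} {N n : ℕ} {Om : ℕ → Finset (Fin N → ℤ)}

theorem Re.pow {σ : Type*} {P : MvPolynomial σ (OO Y)} {p : ℕ → MvPolynomial σ ℤ} (hp : Re P p)
    (e : ℕ) : Re (P ^ e) (fun ν => p ν ^ e) := by
  induction e with
  | zero => simpa using Re.one
  | succ e ih =>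
    simp only [pow_succ]
    exact ih.mul hp

/-- the value of a monomial -/
theorem eval_mon {σ : Type*} {d : ℕ} {b0 : MvPolynomial (Option (Fin d)) ℤ}
    {b : Fin N → MvPolynomial (Option (Fin d)) ℤ} {s : Option (Fin d) → ℤ} {t : Fin N → ℤ}
    (h : ∀ j, eval s b0 * t j = eval s (b j)) {e : Fin N → ℕ} {M : ℕ} (hM : ∑ j, e j ≤ M)
    (_x : σ) : eval s (mon b0 b e M) = eval s b0 ^ M * ∏ j, t j ^ e j := by
  unfold mon
  rw [map_mul, map_prod, map_pow]
  have h1 : ∏ j, eval s (b j ^ e j) = eval s b0 ^ (∑ j, e j) * ∏ j, t j ^ e j := by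
    rw [← Finset.prod_pow_eq_pow_sum, ← Finset.prod_mul_distrib]
    refine Finset.prod_congr rfl fun j _ => ?_
    rw [map_pow, ← h j, mul_pow]
  rw [h1]
  have h2 : eval s b0 ^ M = eval s b0 ^ (∑ j, e j) * eval s b0 ^ (M - ∑ j, e j) := by
    rw [← pow_add]
    congr 1
    omega
  rw [h2]
  ring

/-- polynomials with bounded degrees and coefficients of polynomial size: if it vanishes then all
coefficients vanish -/
theorem coeffs_zero {d D : ℕ} {R : Type*} [CommRing R] (c : (Fin d → Fin (D + 1)) → R)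
    (h : ∑ e, C (c e) * ∏ b, (X b : MvPolynomial (Fin d) R) ^ (e b : ℕ) = 0) : c = 0 := by
  classical
  have h1 : ∀ e : Fin d → Fin (D + 1), C (c e) * ∏ b, (X b : MvPolynomial (Fin d) R) ^ (e b : ℕ) =
      monomial (Finsupp.equivFunOnFinite.symm fun b => (e b : ℕ)) (c e) := by
    intro e
    rw [monomial_eq, Finsupp.prod_fintype _ _ (fun i => pow_zero _)]
    rfl
  funext e0
  have h2 := congrArg (coeff (Finsupp.equivFunOnFinite.symm fun b => (e0 b : ℕ))) h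
  rw [coeff_sum, MvPolynomial.coeff_zero] at h2
  rw [Finset.sum_eq_single e0] at h2
  · rw [h1, coeff_monomial, if_pos rfl] at h2
    rw [h2]; rfl
  · intro e _ hne
    rw [h1, coeff_monomial, if_neg]
    intro hcon
    apply hne
    funext b
    have h3 := DFunLike.congr_fun hcon b
    simp only [Finsupp.equivFunOnFinite_symm_apply_apply] at h3
    exact Fin.ext h3
  · intro h3
    exact absurd (Finset.mem_univ _) h3

/-- the numbers with bounded size -/
theorem size_aux {y M w C1 C2 n X : ℕ} (hn : ((C1 + C2 + 1 + n) * (M + 1)) *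
    (Nat.log 2 (y + 2) + 1) + w + (C1 + C2 + 1 + n) < X) :
    ((y : ℤ) + 2) ^ (C1 * M) * ((n : ℤ) * (((y : ℤ) + 2) ^ C2 *
      (2 ^ w * ((y : ℤ) + 2) ^ M))) < 2 ^ X := by
  set L := Nat.log 2 (y + 2) + 1 with hL
  have h1 : y + 2 ≤ 2 ^ L := (Nat.lt_pow_succ_log_self (by norm_num) _).le
  have h2 : ((y : ℤ) + 2) ≤ 2 ^ L := by exact_mod_cast h1
  have h0 : (0 : ℤ) ≤ (y : ℤ) + 2 := by omega
  have h3 : ∀ c : ℕ, ((y : ℤ) + 2) ^ c ≤ 2 ^ (L * c) := by
    intro c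
    rw [pow_mul]
    exact pow_le_pow_left₀ h0 h2 c
  have h4 : (n : ℤ) ≤ 2 ^ n := by exact_mod_cast Nat.lt_two_pow_self.le
  have h5 : ((y : ℤ) + 2) ^ (C1 * M) * ((n : ℤ) * (((y : ℤ) + 2) ^ C2 *
      (2 ^ w * ((y : ℤ) + 2) ^ M))) ≤ 2 ^ (L * (C1 * M)) * (2 ^ n * (2 ^ (L * C2) *
      (2 ^ w * 2 ^ (L * M)))) := by
    gcongr
    · exact h3 _
    · exact h3 _
    · exact h3 _
  refine lt_of_le_of_lt h5 ?_
  rw [← pow_add, ← pow_add, ← pow_add, ← pow_add]
  apply pow_lt_pow_right₀ (by norm_num)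
  refine lt_of_le_of_lt ?_ hn
  have e1 : L * (C1 * M) + L * C2 + L * M ≤ ((C1 + C2 + 1 + n) * (M + 1)) * L := by
    have : L * (C1 * M) + L * C2 + L * M = (C1 * M + C2 + M) * L := by ring
    rw [this]
    apply Nat.mul_le_mul_right
    have : (C1 + C2 + 1 + n) * (M + 1) = C1 * M + C2 + M + (C1 + C2 * M + 1 + n * M + n) := by ring
    omega
  omega

theorem FR_nab (hS : S_A) (hY : ∀ m : ℕ, ∀ᶠ ν in (Uf : Filter ℕ), m ≤ Y ν) (F : FF Y Om)
    (hG : Gen Y Om) (hb : Bdd Y Om) (S : TS Y Om n)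
    {R : Fin n → MvPolynomial (Option (Fin F.d)) (OO Y)} (h : FR F S R) (a : Fin F.d) :
    FR F S (fun i => nab F.H F.B0 F.B (S.κ i) a (R i)) := by
  classical
  rw [FR.iff (fun i => Re.nab (S.κ i) (fun ν j => (S.e ν i j : ℤ)) (fun j => rfl) (Re.sq F.H)
    (Re.sq F.B0) (fun j => Re.sq (F.B j)) (Re.sq (R i)) a)]
  intro hbig
  -- the derivatives of the relation
  set rn : Fin n → ℕ → MvPolynomial (Option (Fin F.d)) ℤ := fun i ν => GN.nab (sq F.H ν)
    (sq F.B0 ν) (fun j => sq (F.B j) ν) (fun j => (S.e ν i j : ℤ)) a (sq (R i) ν) with hrn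
  set Z : ℕ → Finset (Fin N → ℤ) := fun ν => (Om ν).filter fun t =>
    ∑ i, eval (F.sp ν t) (rn i ν) * S.T ν i t ≠ 0 with hZ
  -- remove the points where the relation fails or the denominator vanishes
  obtain ⟨m, hm⟩ : Big Y (fun ν => (Z ν).filter fun t =>
      ∑ i, eval (F.sp ν t) (sq (R i) ν) * S.T ν i t = 0 ∧ eval (F.sp ν t) (sq F.B0 ν) ≠ 0) := by
    rcases hbig.or hY (A := Z) (B := fun ν => (Z ν).filter fun t =>
        ∑ i, eval (F.sp ν t) (sq (R i) ν) * S.T ν i t = 0)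
      (C := fun ν => (Om ν).filter fun t => ∑ i, eval (F.sp ν t) (sq (R i) ν) * S.T ν i t ≠ 0)
      (Filter.Eventually.of_forall fun ν t ht => by
        by_cases h1 : ∑ i, eval (F.sp ν t) (sq (R i) ν) * S.T ν i t = 0
        · exact Finset.mem_union_left _ (Finset.mem_filter.2 ⟨ht, h1⟩)
        · exact Finset.mem_union_right _
            (Finset.mem_filter.2 ⟨(Finset.mem_filter.1 ht).1, h1⟩)) with h1 | h1
    · rcases h1.or hY (B := fun ν => (Z ν).filter fun t =>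
        ∑ i, eval (F.sp ν t) (sq (R i) ν) * S.T ν i t = 0 ∧ eval (F.sp ν t) (sq F.B0 ν) ≠ 0)
        (C := fun ν => (Om ν).filter fun t => eval (F.sp ν t) (sq F.B0 ν) = 0)
        (Filter.Eventually.of_forall fun ν t ht => by
          have ht' := Finset.mem_filter.1 ht
          by_cases h2 : eval (F.sp ν t) (sq F.B0 ν) = 0
          · exact Finset.mem_union_right _
              (Finset.mem_filter.2 ⟨(Finset.mem_filter.1 ht'.1).1, h2⟩)
          · exact Finset.mem_union_left _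
              (Finset.mem_filter.2 ⟨ht'.1, ht'.2, h2⟩)) with h2 | h2
      · exact h2
      · exact absurd h2 (F.notBig hG (Re.sq F.B0) F.B0_notMem (Filter.Eventually.of_forall fun ν =>
          Finset.filter_subset _ _) (Filter.Eventually.of_forall fun ν t ht =>
          (Finset.mem_filter.1 ht).2))
    · exact absurd h1 h
  set Z3 : ℕ → Finset (Fin N → ℤ) := fun ν => (Z ν).filter fun t =>
      ∑ i, eval (F.sp ν t) (sq (R i) ν) * S.T ν i t = 0 ∧ eval (F.sp ν t) (sq F.B0 ν) ≠ 0 with hZ3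
  set k := 4 * (2 * F.d + 5) * m + 1 with hk
  have hk1 : 1 ≤ k := by omega
  obtain ⟨D, ρ, X₀, hAA⟩ := hS F.d k hk1
  obtain ⟨xx, hX⟩ := rootX Y k hk1
  obtain ⟨C1, hC1⟩ := F.val_bd hb (Re.sq F.B0)
  have hC2 : ∃ C2 : ℕ, ∀ᶠ ν in (Uf : Filter ℕ), ∀ t ∈ Om ν, ∀ i,
      |eval (F.sp ν t) (rn i ν)| ≤ ((Y ν : ℤ) + 2) ^ C2 := by
    have h1 : ∀ i, ∃ C : ℕ, ∀ᶠ ν in (Uf : Filter ℕ), ∀ t ∈ Om ν,
      |eval (F.sp ν t) (rn i ν)| ≤ ((Y ν : ℤ) + 2) ^ C := fun i => F.val_bd hb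
        (Re.nab (S.κ i) (fun ν j => (S.e ν i j : ℤ)) (fun j => rfl) (Re.sq F.H)
          (Re.sq F.B0) (fun j => Re.sq (F.B j)) (Re.sq (R i)) a)
    choose Cf hCf using h1
    refine ⟨∑ i, Cf i, ?_⟩
    filter_upwards [Filter.eventually_all.2 hCf] with ν hν t ht i
    refine (hν i t ht).trans (pow_le_pow_right₀ (by omega) ?_)
    exact Finset.single_le_sum (f := Cf) (fun _ _ => Nat.zero_le _) (Finset.mem_univ i)
  obtain ⟨C2, hC2⟩ := hC2
  -- apply the determinant method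
  have key : ∀ᶠ ν in (Uf : Filter ℕ), ∃ p : Finset (Fin N → ℤ) × ((Fin F.d → Fin (D + 1)) → ℤ),
      p.1 ⊆ Z3 ν ∧ (Z3 ν).card ≤ xx ν ^ (2 * F.d + 5) * p.1.card ∧ p.2 ≠ 0 ∧
      (∀ e, |p.2 e| ≤ (xx ν : ℤ) ^ ρ) ∧
      ∀ t ∈ p.1, ∑ e, p.2 e * ∏ b, (F.sp ν t (some b)) ^ (e b : ℕ) = 0 := by
    filter_upwards [X_large hY (fun ν => (hX ν).2.1) X₀, hC1, hC2, (F.mem (Re.sq F.H)).1 F.H0,
      S.bd hb, hb, Filter.eventually_all.2 F.rel, ev_size hY hk1 (fun ν => (hX ν).2.1)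
        (M := S.M) S.he S.hw (C1 + C2 + 1 + n)] with ν g1 g2 g3 g4 g5 g6 g7 g8
    have hpt : ∀ t ∈ Z3 ν, eval (F.sp ν t) (sq F.H ν) = 0 ∧ eval (F.sp ν t)
        (∑ i, C (S.u ν i) * (sq (R i) ν * mon (sq F.B0 ν) (fun j => sq (F.B j) ν)
          (S.e ν i) (S.M ν))) = 0 ∧ (∀ b, |F.sp ν t (some b)| ≤ ((Y ν + 2 : ℕ) : ℤ)) ∧
        eval (F.sp ν t) (GN.dl (sq F.H ν) a (∑ i, C (S.u ν i) * (sq (R i) ν *
          mon (sq F.B0 ν) (fun j => sq (F.B j) ν) (S.e ν i) (S.M ν)))) ≠ 0 ∧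
        |eval (F.sp ν t) (GN.dl (sq F.H ν) a (∑ i, C (S.u ν i) * (sq (R i) ν *
          mon (sq F.B0 ν) (fun j => sq (F.B j) ν) (S.e ν i) (S.M ν))))| < 2 ^ xx ν := by
      intro t ht
      rw [hZ3, Finset.mem_filter, hZ, Finset.mem_filter] at ht
      obtain ⟨⟨ht1, ht2⟩, ht3, ht4⟩ := ht
      set f := ∑ i, C (S.u ν i) * (sq (R i) ν * mon (sq F.B0 ν) (fun j => sq (F.B j) ν)
          (S.e ν i) (S.M ν)) with hf
      have hrel : ∀ j, eval (F.sp ν t) (sq F.B0 ν) * t j = eval (F.sp ν t) (sq (F.B j) ν) :=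
        fun j => g7 j t ht1
      have hmon : ∀ i, eval (F.sp ν t) (mon (sq F.B0 ν) (fun j => sq (F.B j) ν)
          (S.e ν i) (S.M ν)) = eval (F.sp ν t) (sq F.B0 ν) ^ (S.M ν) * ∏ j, t j ^ S.e ν i j :=
        fun i => eval_mon hrel (S.le_M ν i) ()
      have hf0 : eval (F.sp ν t) f = 0 := by
        rw [hf, map_sum]
        have e1 : ∑ i, eval (F.sp ν t) (C (S.u ν i) * (sq (R i) ν * mon (sq F.B0 ν)
            (fun j => sq (F.B j) ν) (S.e ν i) (S.M ν))) = eval (F.sp ν t) (sq F.B0 ν) ^ (S.M ν) *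
            ∑ i, eval (F.sp ν t) (sq (R i) ν) * S.T ν i t := by
          rw [Finset.mul_sum]
          refine Finset.sum_congr rfl fun i _ => ?_
          rw [map_mul, map_mul, eval_C, hmon i]
          unfold TS.T
          ring
        rw [e1, ht3, mul_zero]
      have hdl : eval (F.sp ν t) ((∏ j, sq (F.B j) ν) * sq F.B0 ν) *
          eval (F.sp ν t) (GN.dl (sq F.H ν) a f) = eval (F.sp ν t) (sq F.B0 ν) ^ (S.M ν) *
            ∑ i, eval (F.sp ν t) (rn i ν) * S.T ν i t := by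
        rw [← map_mul, hf, dl_terms _ _ _ (S.e ν) a (S.le_M ν) (S.u ν) (fun i => sq (R i) ν),
          map_add, ← hf, map_mul, hf0, mul_zero, add_zero, map_sum, Finset.mul_sum]
        refine Finset.sum_congr rfl fun i _ => ?_
        rw [map_mul, map_mul, eval_C, hmon i]
        unfold TS.T
        ring
      have hne : eval (F.sp ν t) (sq F.B0 ν) ^ (S.M ν) *
            ∑ i, eval (F.sp ν t) (rn i ν) * S.T ν i t ≠ 0 := mul_ne_zero (pow_ne_zero _ ht4) ht2
      have hdl0 : eval (F.sp ν t) (GN.dl (sq F.H ν) a f) ≠ 0 := by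
        intro hcon
        rw [hcon, mul_zero] at hdl
        exact hne hdl.symm
      have hB0 : eval (F.sp ν t) ((∏ j, sq (F.B j) ν) * sq F.B0 ν) ≠ 0 := by
        intro hcon
        rw [hcon, zero_mul] at hdl
        exact hne hdl.symm
      refine ⟨g4 t ht1, hf0, fun b => ?_, hdl0, ?_⟩
      · rw [F.sp_some]
        have := (g6 t ht1 (F.ι b)).2
        push_cast
        linarith
      · have e1 : |eval (F.sp ν t) (GN.dl (sq F.H ν) a f)| ≤
            |eval (F.sp ν t) (sq F.B0 ν) ^ (S.M ν) *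
            ∑ i, eval (F.sp ν t) (rn i ν) * S.T ν i t| := by
          rw [← hdl, abs_mul]
          have e2 : (1 : ℤ) ≤ |eval (F.sp ν t) ((∏ j, sq (F.B j) ν) * sq F.B0 ν)| :=
            Int.one_le_abs hB0
          exact le_mul_of_one_le_left (abs_nonneg _) e2
        refine lt_of_le_of_lt e1 (lt_of_le_of_lt ?_ (size_aux g8))
        rw [abs_mul, abs_pow]
        have e3 : |eval (F.sp ν t) (sq F.B0 ν)| ^ S.M ν ≤ ((Y ν : ℤ) + 2) ^ (C1 * S.M ν) := by
          rw [pow_mul]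
          exact pow_le_pow_left₀ (abs_nonneg _) (g2 t ht1) _
        have e4 : |∑ i, eval (F.sp ν t) (rn i ν) * S.T ν i t| ≤
            (n : ℤ) * (((Y ν : ℤ) + 2) ^ C2 * (2 ^ S.w ν * ((Y ν : ℤ) + 2) ^ S.M ν)) := by
          refine (Finset.abs_sum_le_sum_abs _ _).trans ?_
          have e5 : ∀ i ∈ Finset.univ, |eval (F.sp ν t) (rn i ν) * S.T ν i t| ≤
              ((Y ν : ℤ) + 2) ^ C2 * (2 ^ S.w ν * ((Y ν : ℤ) + 2) ^ S.M ν) := by
            intro i _
            rw [abs_mul]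
            exact mul_le_mul (g3 t ht1 i) (g5 t ht1 i).2 (abs_nonneg _) (by positivity)
          refine (Finset.sum_le_card_nsmul _ _ _ e5).trans ?_
          rw [Finset.card_univ, Fintype.card_fin, nsmul_eq_mul]
        exact mul_le_mul e3 e4 (abs_nonneg _) (by positivity)
    obtain ⟨T', hT', hc1, c, hc2, hc3, hc4⟩ := hAA (xx ν) (Y ν + 2) g1 (by omega) (hX ν).2.1
      (sq F.H ν) (∑ i, C (S.u ν i) * (sq (R i) ν * mon (sq F.B0 ν) (fun j => sq (F.B j) ν)
          (S.e ν i) (S.M ν))) a (Fin N → ℤ) (Z3 ν) (F.sp ν) hpt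
    exact ⟨(T', c), hT', hc1, hc2, hc3, hc4⟩
  obtain ⟨p, hp⟩ := key.choice
  have hbig' : Big Y (fun ν => (p ν).1) := by
    refine Big.frac hY (A := Z3) (X := xx) (m := m) (e := 2 * F.d + 5) (k := k) (by omega) hm ?_ ?_
    · filter_upwards [hp] with ν hν
      exact hν.2.1
    · exact Filter.Eventually.of_forall fun ν => ⟨(hX ν).1, (hX ν).2.2⟩
  -- the coefficients
  have hcO : ∀ e, ((fun ν => (p ν).2 e : ℕ → ℤ) : ZS) ∈ OO Y := by
    intro e
    rw [mem_OO]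
    refine ⟨2 * ρ, ?_⟩
    filter_upwards [hp, hY (2 ^ k)] with ν hν h1
    refine (hν.2.2.2.1 e).trans ?_
    rw [pow_mul]
    refine pow_le_pow_left₀ (by positivity) ?_ _
    have h2 : xx ν ≤ xx ν ^ k := Nat.le_self_pow (by omega) _
    have h3 := (hX ν).2.2
    have h4 : 2 ^ k * (Y ν + 2) ≤ (Y ν + 2) * (Y ν + 2) := Nat.mul_le_mul_right _ (by omega)
    have h5 : xx ν ≤ (Y ν + 2) ^ 2 := by
      rw [pow_two]
      omega
    exact_mod_cast h5
  let c : (Fin F.d → Fin (D + 1)) → OO Y := fun e => ⟨_, hcO e⟩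
  have hP : rename F.ι (∑ e, C (c e) * ∏ b, (X b : MvPolynomial (Fin F.d) (OO Y)) ^ (e b : ℕ)) ∈
      JI Y Om := by
    apply hG.2 (fun ν => (p ν).1)
    · filter_upwards [hp] with ν hν
      exact hν.1.trans ((Finset.filter_subset _ _).trans (Finset.filter_subset _ _))
    · exact hbig'
    · have hre : Re (∑ e, C (c e) * ∏ b, (X b : MvPolynomial (Fin F.d) (OO Y)) ^ (e b : ℕ))
          (fun ν => ∑ e, C ((p ν).2 e) * ∏ b, (MvPolynomial.X b) ^ (e b : ℕ)) :=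
        Re.sum _ fun e _ => (Re.C rfl).mul (Re.prod _ fun b _ => (Re.X b).pow _)
      rw [mem_JI (hre.rename F.ι)]
      filter_upwards [hp] with ν hν t ht
      rw [eval_rename]
      have h1 := hν.2.2.2.2 t ht
      rw [map_sum]
      rw [← h1]
      refine Finset.sum_congr rfl fun e _ => ?_
      rw [map_mul, eval_C, map_prod]
      congr 1
      refine Finset.prod_congr rfl fun b _ => ?_
      rw [map_pow, eval_X]
      rfl
  have hP0 := coeffs_zero c (F.ind _ hP)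
  have hc0 : ∀ᶠ ν in (Uf : Filter ℕ), ∀ e, (p ν).2 e = 0 := by
    rw [Filter.eventually_all]
    intro e
    have h1 : c e = 0 := congrFun hP0 e
    have h2 : ((c e : OO Y) : ZS) = 0 := by rw [h1]; rfl
    exact Filter.Germ.coe_eq.1 h2
  obtain ⟨ν, h1, h2⟩ := (hc0.and hp).exists
  exact h2.2.2.1 (funext h1)

end

end Pool.Agent.Y902.GN
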