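import Mathlib
import Pool.Agent.Y902.GN.Nab

/-!
# The core theorem: some ratio of two terms is nearly constant
-/

set_option autoImplicit false

namespace Pool.Agent.Y902.GN

open Filter MvPolynomial

section

variable {Y : ℕ → ℕ} {N n : ℕ} {Om : ℕ → Finset (Fin N → ℤ)}

/-- the prime of the function field -/
noncomputable def FF.hh (F : FF Y Om) : Ideal (MvPolynomial (Option (Fin F.d)) (OO Y)) :=
  (JI Y Om).comap (sb F.ι F.A)

theorem FF.mem_hh (F : FF Y Om) {P : MvPolynomial (Option (Fin F.d)) (OO Y)} :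
    P ∈ F.hh ↔ sb F.ι F.A P ∈ JI Y Om := Iff.rfl

theorem FF.hh_prime (F : FF Y Om) (hY : ∀ m : ℕ, ∀ᶠ ν in (Uf : Filter ℕ), m ≤ Y ν)
    (hG : Gen Y Om) : F.hh.IsPrime := by
  have := hG.isPrime hY
  unfold FF.hh
  infer_instance

theorem FF.ren_notMem (F : FF Y Om) {c : MvPolynomial (Fin F.d) (OO Y)} (hc : c ≠ 0) :
    rename some c ∉ F.hh := by
  rw [F.mem_hh, sb_rename]
  exact fun h => hc (F.ind _ h)

theorem FF.dl_mem (F : FF Y Om) (hY : ∀ m : ℕ, ∀ᶠ ν in (Uf : Filter ℕ), m ≤ Y ν)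
    (hG : Gen Y Om) {P : MvPolynomial (Option (Fin F.d)) (OO Y)} (h : P ∈ F.hh) (a : Fin F.d) :
    dl F.H a P ∈ F.hh := by
  obtain ⟨c, Q, hc, hQ⟩ := F.dvd P h
  have hp := F.hh_prime hY hG
  have h1 := congrArg (dl F.H a) hQ
  rw [dl_mul, dl_mul, dl_self, mul_zero, add_zero] at h1
  have h2 : rename some c * dl F.H a P ∈ F.hh := by
    have : rename some c * dl F.H a P = F.H * dl F.H a Q - P * dl F.H a (rename some c) := by
      linear_combination h1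
    rw [this]
    exact Ideal.sub_mem _ (Ideal.mul_mem_right _ _ F.H0) (Ideal.mul_mem_right _ _ h)
  exact (hp.mem_or_mem h2).resolve_left (F.ren_notMem hc)

theorem FF.nab_mem (F : FF Y Om) (hY : ∀ m : ℕ, ∀ᶠ ν in (Uf : Filter ℕ), m ≤ Y ν)
    (hG : Gen Y Om) {P : MvPolynomial (Option (Fin F.d)) (OO Y)} (h : P ∈ F.hh) (a : Fin F.d)
    (κ : Fin N → OO Y) : nab F.H F.B0 F.B κ a P ∈ F.hh := by
  unfold nab
  exact Ideal.add_mem _ (Ideal.mul_mem_left _ _ (F.dl_mem hY hG h a)) (Ideal.mul_mem_right _ _ h)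

theorem FF.dvd' (F : FF Y Om) (P : MvPolynomial (Option (Fin F.d)) (OO Y)) (h : P ∈ F.hh) :
    ∃ (c : MvPolynomial (Fin F.d) (OO Y)) (Q : MvPolynomial (Option (Fin F.d)) (OO Y)),
      c ≠ 0 ∧ rename some c * P = F.H * Q := F.dvd P (F.mem_hh.1 h)

theorem FF.HT' (F : FF Y Om) : pderiv none F.H ∉ F.hh := fun h => F.HT (F.mem_hh.1 h)

theorem FF.B0_notMem' (F : FF Y Om) : F.B0 ∉ F.hh := fun h => F.B0_notMem (F.mem_hh.1 h)

theorem FF.B_notMem' (F : FF Y Om) (hb : Bdd Y Om) (j : Fin N) : F.B j ∉ F.hh :=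
  fun h => F.B_notMem hb j (F.mem_hh.1 h)

theorem FF.notBig' (F : FF Y Om) (h : Gen Y Om) {P : MvPolynomial (Option (Fin F.d)) (OO Y)}
    {p : ℕ → MvPolynomial (Option (Fin F.d)) ℤ} (hp : Re P p) (hP : P ∉ F.hh)
    {Om' : ℕ → Finset (Fin N → ℤ)} (hOm' : ∀ᶠ ν in (Uf : Filter ℕ), Om' ν ⊆ Om ν)
    (h0 : ∀ᶠ ν in (Uf : Filter ℕ), ∀ t ∈ Om' ν, eval (F.sp ν t) (p ν) = 0) : ¬ Big Y Om' :=
  F.notBig h hp (fun h' => hP (F.mem_hh.2 h')) hOm' h0

/-- a circuit -/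
theorem circ (hS : S_A) (hY : ∀ m : ℕ, ∀ᶠ ν in (Uf : Filter ℕ), m ≤ Y ν) (F : FF Y Om)
    (hG : Gen Y Om) (hb : Bdd Y Om) (S : TS Y Om n) (i0 : Fin n) :
    ∃ R : Fin n → MvPolynomial (Option (Fin F.d)) (OO Y), R i0 ∉ F.hh ∧ ∃ i, i ≠ i0 ∧
      R i ∉ F.hh ∧ ∀ a, R i0 * nab F.H F.B0 F.B (S.κ i) a (R i) -
        nab F.H F.B0 F.B (S.κ i0) a (R i0) * R i ∈ F.hh := by
  classical
  have hp := F.hh_prime hY hG
  have hex : ∃ k : ℕ, ∃ R : Fin n → MvPolynomial (Option (Fin F.d)) (OO Y), FR F S R ∧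
      R i0 ∉ F.hh ∧ (Finset.univ.filter fun i => R i ∉ F.hh).card = k := by
    refine ⟨_, fun _ => 1, FR.one F S, ?_, rfl⟩
    exact fun h => hp.ne_top ((Ideal.eq_top_iff_one _).2 h)
  obtain ⟨R, hR1, hR2, hR3⟩ := Nat.find_spec hex
  have hmin : ∀ R' : Fin n → MvPolynomial (Option (Fin F.d)) (OO Y), FR F S R' → R' i0 ∉ F.hh →
      (Finset.univ.filter fun i => R i ∉ F.hh).card ≤
        (Finset.univ.filter fun i => R' i ∉ F.hh).card := by
    intro R' h1 h2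
    rw [hR3]
    exact Nat.find_min' hex ⟨R', h1, h2, rfl⟩
  obtain ⟨i, hi1, hi2⟩ := hR1.two hG hY hb hR2
  refine ⟨R, hR2, i, hi1, hi2, fun a => ?_⟩
  -- the new relation
  obtain ⟨R', hR'⟩ : ∃ R' : Fin n → MvPolynomial (Option (Fin F.d)) (OO Y), R' = fun i =>
      R i0 * nab F.H F.B0 F.B (S.κ i) a (R i) +
        (- nab F.H F.B0 F.B (S.κ i0) a (R i0)) * R i := ⟨_, rfl⟩
  have h1 : FR F S R' := by
    rw [hR']
    exact (FR_nab hS hY F hG hb S hR1 a).comb hY hR1 _ _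
  have h2 : R' i0 = 0 := by rw [hR']; ring
  have h3 : ∀ j, R j ∈ F.hh → R' j ∈ F.hh := by
    intro j hj
    rw [hR']
    exact Ideal.add_mem _ (Ideal.mul_mem_left _ _ (F.nab_mem hY hG hj a _))
      (Ideal.mul_mem_left _ _ hj)
  have h4 : ∀ j, R' j ∈ F.hh := by
    intro j
    by_contra hj
    have h5 : FR F S (fun i => R' j * R i + (- R j) * R' i) := hR1.comb hY h1 _ _
    have h6 := hmin _ h5 (by
      show R' j * R i0 + (- R j) * R' i0 ∉ F.hh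
      rw [h2, mul_zero, add_zero]
      exact fun h => (hp.mem_or_mem h).elim hj hR2)
    have h7 : (Finset.univ.filter fun i => (fun i => R' j * R i + (- R j) * R' i) i ∉ F.hh) ⊂
        (Finset.univ.filter fun i => R i ∉ F.hh) := by
      rw [Finset.ssubset_iff_of_subset]
      · refine ⟨j, Finset.mem_filter.2 ⟨Finset.mem_univ _, fun h => hj (h3 j h)⟩, ?_⟩
        intro h8
        apply (Finset.mem_filter.1 h8).2
        show R' j * R j + (- R j) * R' j ∈ F.hh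
        have : R' j * R j + (- R j) * R' j = 0 := by ring
        rw [this]
        exact Ideal.zero_mem _
      · intro i' hi'
        refine Finset.mem_filter.2 ⟨Finset.mem_univ _, fun h => (Finset.mem_filter.1 hi').2 ?_⟩
        exact Ideal.add_mem _ (Ideal.mul_mem_left _ _ h) (Ideal.mul_mem_left _ _ (h3 _ h))
    have h8 := Finset.card_lt_card h7
    exact absurd h6 (not_le.2 h8)
  have h5 := h4 i
  rw [hR'] at h5
  have : R i0 * nab F.H F.B0 F.B (S.κ i) a (R i) - nab F.H F.B0 F.B (S.κ i0) a (R i0) * R i =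
    R i0 * nab F.H F.B0 F.B (S.κ i) a (R i) + (- nab F.H F.B0 F.B (S.κ i0) a (R i0)) * R i := by
    ring
  rw [this]
  exact h5

theorem TS.mbd (S : TS Y Om n) (hb : Bdd Y Om) : ∀ᶠ ν in (Uf : Filter ℕ), ∀ t ∈ Om ν, ∀ i,
    ∏ j, t j ^ S.e ν i j ≠ 0 ∧ |∏ j, t j ^ S.e ν i j| ≤ ((Y ν : ℤ) + 2) ^ S.M ν := by
  filter_upwards [hb] with ν h1 t ht i
  refine ⟨Finset.prod_ne_zero_iff.2 fun j _ => pow_ne_zero _ (h1 t ht j).1, ?_⟩
  rw [Finset.abs_prod]
  have a0 : (1 : ℤ) ≤ (Y ν : ℤ) + 2 := by omega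
  have h3 : ∏ j, |t j ^ S.e ν i j| ≤ ∏ j, ((Y ν : ℤ) + 2) ^ S.e ν i j := by
    refine Finset.prod_le_prod (fun _ _ => abs_nonneg _) fun j _ => ?_
    rw [abs_pow]
    refine pow_le_pow_left₀ (abs_nonneg _) ?_ _
    have := (h1 t ht j).2
    linarith
  rw [Finset.prod_pow_eq_pow_sum] at h3
  exact h3.trans (pow_le_pow_right₀ a0 (S.le_M ν i))

end

end Pool.Agent.Y902.GN
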