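import Mathlib
import Pool.Agent.Y902.GN.Nab

/-!
# The finite step of the core theorem
-/

set_option autoImplicit false

namespace Pool.Agent.Y902.GN

open MvPolynomial

theorem ring_aux {A : Type*} [CommRing A] {cp ca PB W mm E H q : A} (h1 : PB * W = mm * E)
    (h2 : ca * E = H * q) : cp * ca * PB * W = H * (mm * (cp * q)) := by
  linear_combination cp * ca * h1 + cp * mm * h2

theorem eval_six {σ : Type*} (s : σ → ℤ) (A B ri mi r0 m0 : MvPolynomial σ ℤ) {x P P0 : ℤ}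
    (h1 : eval s mi = x * P) (h2 : eval s m0 = x * P0) :
    eval s (A * B * (ri * mi) * (r0 * m0)) = x ^ 2 * (eval s (A * B * (ri * r0)) * (P * P0)) := by
  rw [map_mul, map_mul, map_mul (eval s) ri mi, map_mul (eval s) r0 m0, h1, h2,
    map_mul (eval s) (A * B), map_mul (eval s) ri r0]
  ring

/-- the polynomial whose zeros are avoided -/
noncomputable def gg {d N : ℕ} {R : Type*} [CommRing R] (H b0 ri r0 : MvPolynomial (Option (Fin d)) R)
    (b : Fin N → MvPolynomial (Option (Fin d)) R) (ca : Fin d → MvPolynomial (Fin d) R) :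
    MvPolynomial (Option (Fin d)) R :=
  pderiv none H * (rename some (∏ a, ca a) * ((∏ j, b j) * b0)) * (ri * r0)

theorem gg_b0 {d N : ℕ} {H b0 ri r0 : MvPolynomial (Option (Fin d)) ℤ}
    {b : Fin N → MvPolynomial (Option (Fin d)) ℤ} {ca : Fin d → MvPolynomial (Fin d) ℤ}
    {s : Option (Fin d) → ℤ} (h : eval s (gg H b0 ri r0 b ca) ≠ 0) :
    eval s b0 ≠ 0 ∧ eval s ri ≠ 0 ∧ eval s r0 ≠ 0 := by
  unfold gg at h
  rw [map_mul, map_mul, map_mul, map_mul, map_mul] at h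
  have h1 := left_ne_zero_of_mul h
  have h2 := right_ne_zero_of_mul h
  exact ⟨right_ne_zero_of_mul (right_ne_zero_of_mul (right_ne_zero_of_mul h1)),
    left_ne_zero_of_mul h2, right_ne_zero_of_mul h2⟩

theorem fin_step {d N : ℕ} {X₀ : ℕ} (hBB : ∀ X : ℕ, X₀ ≤ X →
    ∀ (H U V c : MvPolynomial (Option (Fin d)) ℤ) (Q : Fin d → MvPolynomial (Option (Fin d)) ℤ),
    (∀ a, c * (V * dl H a U - U * dl H a V) = H * Q a) →
    ∀ (α : Type) (T : Finset α) (s : α → Option (Fin d) → ℤ),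
    (∀ t ∈ T, eval (s t) H = 0 ∧ eval (s t) (pderiv none H * c * U * V) ≠ 0 ∧
      |eval (s t) (pderiv none H * c * U * V)| < 2 ^ X) →
    ∃ T' ⊆ T, T.card ≤ X ^ (2 * d + 5) * T'.card ∧
      ∀ t ∈ T', ∀ t' ∈ T', eval (s t) U * eval (s t') V = eval (s t') U * eval (s t) V)
    {X : ℕ} (hX : X₀ ≤ X) {H b0 ri r0 : MvPolynomial (Option (Fin d)) ℤ}
    {b : Fin N → MvPolynomial (Option (Fin d)) ℤ} {ca : Fin d → MvPolynomial (Fin d) ℤ}
    {q : Fin d → MvPolynomial (Option (Fin d)) ℤ} {e e0 : Fin N → ℕ} {M : ℕ}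
    (hM : ∑ j, e j ≤ M) (hM0 : ∑ j, e0 j ≤ M)
    (hrel : ∀ a, rename some (ca a) * (r0 * nab H b0 b (fun j => (e j : ℤ)) a ri -
      nab H b0 b (fun j => (e0 j : ℤ)) a r0 * ri) = H * q a)
    (Z : Finset (Fin N → ℤ)) (sp : (Fin N → ℤ) → Option (Fin d) → ℤ)
    (hZ : ∀ t ∈ Z, eval (sp t) H = 0 ∧ (∀ j, eval (sp t) b0 * t j = eval (sp t) (b j)) ∧
      eval (sp t) (gg H b0 ri r0 b ca) ≠ 0 ∧ ∏ j, t j ^ e j ≠ 0 ∧ ∏ j, t j ^ e0 j ≠ 0 ∧
      |eval (sp t) b0| ^ (2 * M) * (|eval (sp t) (gg H b0 ri r0 b ca)| *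
        (|∏ j, t j ^ e j| * |∏ j, t j ^ e0 j|)) < 2 ^ X) :
    ∃ T' ⊆ Z, Z.card ≤ X ^ (2 * d + 5) * T'.card ∧ ∀ t ∈ T', ∀ t' ∈ T',
      (eval (sp t) ri * eval (sp t') r0) * ((∏ j, t j ^ e j) * ∏ j, t' j ^ e0 j) =
      (eval (sp t') ri * eval (sp t) r0) * ((∏ j, t' j ^ e j) * ∏ j, t j ^ e0 j) := by
  classical
  have hval : ∀ t ∈ Z, eval (sp t) (pderiv none H * (rename some (∏ a, ca a) * ((∏ j, b j) * b0)) *
      (ri * mon b0 b e M) * (r0 * mon b0 b e0 M)) = (eval (sp t) b0 ^ M) ^ 2 *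
        (eval (sp t) (gg H b0 ri r0 b ca) * ((∏ j, t j ^ e j) * ∏ j, t j ^ e0 j)) := by
    intro t ht
    exact eval_six (sp t) _ _ _ _ _ _ (eval_mon (hZ t ht).2.1 hM ()) (eval_mon (hZ t ht).2.1 hM0 ())
  obtain ⟨T', hT', hc1, hc2⟩ := hBB X hX H (ri * mon b0 b e M) (r0 * mon b0 b e0 M)
    (rename some (∏ a, ca a) * ((∏ j, b j) * b0))
    (fun a => (mon b0 b e M * mon b0 b e0 M) *
      (rename some (∏ a' ∈ Finset.univ.erase a, ca a') * q a)) (by
        intro a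
        have e3 : rename (some : Fin d → Option (Fin d)) (∏ a, ca a) = rename some
            (∏ a' ∈ Finset.univ.erase a, ca a') * rename some (ca a) := by
          rw [← map_mul, Finset.prod_erase_mul _ _ (Finset.mem_univ a)]
        rw [e3]
        exact ring_aux (dl_wron H b0 b e e0 a hM hM0 ri r0) (hrel a))
    (Fin N → ℤ) Z sp (by
      intro t ht
      obtain ⟨g1, g2, g3, g4, g5, g6⟩ := hZ t ht
      refine ⟨g1, ?_, ?_⟩
      · rw [hval t ht]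
        exact mul_ne_zero (pow_ne_zero _ (pow_ne_zero _ (gg_b0 g3).1))
          (mul_ne_zero g3 (mul_ne_zero g4 g5))
      · rw [hval t ht, ← pow_mul, mul_comm M 2, abs_mul, abs_mul, abs_mul, abs_pow]
        exact g6)
  refine ⟨T', hT', hc1, fun t ht t' ht' => ?_⟩
  have h1 := hc2 t ht t' ht'
  obtain ⟨-, g2, g3, -⟩ := hZ t (hT' ht)
  obtain ⟨-, g2', g3', -⟩ := hZ t' (hT' ht')
  rw [map_mul, map_mul, map_mul, map_mul, eval_mon g2 hM (), eval_mon g2' hM0 (),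
    eval_mon g2' hM (), eval_mon g2 hM0 ()] at h1
  have n3 : eval (sp t) b0 ^ M * eval (sp t') b0 ^ M ≠ 0 :=
    mul_ne_zero (pow_ne_zero _ (gg_b0 g3).1) (pow_ne_zero _ (gg_b0 g3').1)
  apply mul_left_cancel₀ n3
  linear_combination h1

end Pool.Agent.Y902.GN
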