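import Mathlib
import Pool.Agent.Y902.GN.Circ
import Pool.Agent.Y902.GN.FinStep

/-!
# The core theorem: some ratio of two terms is nearly constant
-/

set_option autoImplicit false

namespace Pool.Agent.Y902.GN

open Filter MvPolynomial

section

variable {Y : ℕ → ℕ} {N n : ℕ} {Om : ℕ → Finset (Fin N → ℤ)}

theorem size_aux2 {y M w C1 C2 : ℕ} {b0 g P P0 : ℤ}
    (e2 : |b0| ^ (2 * M) ≤ ((y : ℤ) + 2) ^ (C1 * (2 * M)))
    (e3 : |g| ≤ ((y : ℤ) + 2) ^ C2) (e4 : |P| ≤ ((y : ℤ) + 2) ^ M)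
    (e5 : |P0| ≤ ((y : ℤ) + 2) ^ M) :
    |b0| ^ (2 * M) * (|g| * (|P| * |P0|)) ≤ ((y : ℤ) + 2) ^ ((2 * C1 + 1) * M) *
      (((1 : ℕ) : ℤ) * (((y : ℤ) + 2) ^ C2 * (2 ^ w * ((y : ℤ) + 2) ^ M))) := by
  have hw1 : (1 : ℤ) ≤ 2 ^ w := one_le_pow₀ (by norm_num)
  have y0 : (0 : ℤ) ≤ (y : ℤ) + 2 := by positivity
  calc |b0| ^ (2 * M) * (|g| * (|P| * |P0|)) ≤
        ((y : ℤ) + 2) ^ (C1 * (2 * M)) * (((y : ℤ) + 2) ^ C2 *
        (((y : ℤ) + 2) ^ M * ((y : ℤ) + 2) ^ M)) :=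
        mul_le_mul e2 (mul_le_mul e3 (mul_le_mul e4 e5 (abs_nonneg _) (by positivity))
          (by positivity) (by positivity)) (by positivity) (by positivity)
    _ = ((y : ℤ) + 2) ^ ((2 * C1 + 1) * M) * (((1 : ℕ) : ℤ) *
        (((y : ℤ) + 2) ^ C2 * (1 * ((y : ℤ) + 2) ^ M))) := by
        rw [Nat.cast_one, one_mul, one_mul, show (2 * C1 + 1) * M =
          C1 * (2 * M) + M by ring, pow_add]
        ring
    _ ≤ ((y : ℤ) + 2) ^ ((2 * C1 + 1) * M) * (((1 : ℕ) : ℤ) *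
        (((y : ℤ) + 2) ^ C2 * (2 ^ w * ((y : ℤ) + 2) ^ M))) := by
        refine mul_le_mul_of_nonneg_left ?_ (by positivity)
        refine mul_le_mul_of_nonneg_left ?_ (by positivity)
        refine mul_le_mul_of_nonneg_left ?_ (by positivity)
        exact mul_le_mul_of_nonneg_right hw1 (by positivity)

/-- the core theorem for generic sets -/
theorem core_gen (hA : S_A) (hB : S_B) (halg : S_alg)
    (hY : ∀ m : ℕ, ∀ᶠ ν in (Uf : Filter ℕ), m ≤ Y ν)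
    (hG : Gen Y Om) (hb : Bdd Y Om) (S : TS Y Om n) (i0 : Fin n) :
    ∃ i, i ≠ i0 ∧ ∃ Om' : ℕ → Finset (Fin N → ℤ),
      (∀ᶠ ν in (Uf : Filter ℕ), Om' ν ⊆ Om ν) ∧ Big Y Om' ∧ ∃ C : ℕ, ∀ᶠ ν in (Uf : Filter ℕ),
      ∀ t ∈ Om' ν, ∀ t' ∈ Om' ν, ∃ r r' : ℤ, r ≠ 0 ∧ r' ≠ 0 ∧ |r| ≤ ((Y ν : ℤ) + 2) ^ C ∧
      |r'| ≤ ((Y ν : ℤ) + 2) ^ C ∧
      r * (S.T ν i t * S.T ν i0 t') = r' * (S.T ν i t' * S.T ν i0 t) := by
  classical
  obtain ⟨F⟩ := FF.ex halg hY hG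
  have hp := F.hh_prime hY hG
  obtain ⟨R, hR0, i, hi, hRi, hE⟩ := circ hA hY F hG hb S i0
  refine ⟨i, hi, ?_⟩
  choose c Q hc hQ using fun a => F.dvd' _ (hE a)
  -- the polynomial whose zeros are avoided
  have hcc : ∏ a, c a ≠ 0 := Finset.prod_ne_zero_iff.2 fun a _ => hc a
  have hGn : gg F.H F.B0 (R i) (R i0) F.B c ∉ F.hh := by
    intro h
    unfold gg at h
    rcases hp.mem_or_mem h with h | h
    · rcases hp.mem_or_mem h with h | h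
      · exact F.HT' h
      · rcases hp.mem_or_mem h with h | h
        · exact F.ren_notMem hcc h
        · rcases hp.mem_or_mem h with h | h
          · obtain ⟨j, _, hj⟩ := (hp.prod_mem_iff).1 h
            exact F.B_notMem' hb j hj
          · exact F.B0_notMem' h
    · rcases hp.mem_or_mem h with h | h
      · exact hRi h
      · exact hR0 h
  have hGr : Re (gg F.H F.B0 (R i) (R i0) F.B c) (fun ν => gg (sq F.H ν) (sq F.B0 ν)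
      (sq (R i) ν) (sq (R i0) ν) (fun j => sq (F.B j) ν) (fun a => sq (c a) ν)) := by
    unfold gg
    exact ((((Re.sq F.H).pderiv none).mul (((Re.prod _ fun a _ => Re.sq (c a)).rename some).mul
      ((Re.prod _ fun j _ => Re.sq (F.B j)).mul (Re.sq F.B0)))).mul
        ((Re.sq (R i)).mul (Re.sq (R i0))))
  obtain ⟨g, hg⟩ : ∃ g : ℕ → MvPolynomial (Option (Fin F.d)) ℤ, g = (fun ν =>
      gg (sq F.H ν) (sq F.B0 ν) (sq (R i) ν) (sq (R i0) ν) (fun j => sq (F.B j) ν)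
        (fun a => sq (c a) ν)) := ⟨_, rfl⟩
  have hgν : ∀ ν, g ν = gg (sq F.H ν) (sq F.B0 ν) (sq (R i) ν) (sq (R i0) ν)
    (fun j => sq (F.B j) ν) (fun a => sq (c a) ν) := fun ν => congrFun hg ν
  rw [← hg] at hGr
  obtain ⟨Z, hZ⟩ : ∃ Z : ℕ → Finset (Fin N → ℤ), ∀ ν t, t ∈ Z ν ↔ t ∈ Om ν ∧
      eval (F.sp ν t) (g ν) ≠ 0 :=
    ⟨fun ν => (Om ν).filter fun t => eval (F.sp ν t) (g ν) ≠ 0, fun ν t => Finset.mem_filter⟩
  have hZbig : Big Y Z := by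
    rcases hG.1.or hY (B := Z) (C := fun ν => (Om ν).filter fun t => eval (F.sp ν t) (g ν) = 0)
      (Filter.Eventually.of_forall fun ν t ht => by
        by_cases h1 : eval (F.sp ν t) (g ν) = 0
        · exact Finset.mem_union_right _ (Finset.mem_filter.2 ⟨ht, h1⟩)
        · exact Finset.mem_union_left _ ((hZ ν t).2 ⟨ht, h1⟩)) with h1 | h1
    · exact h1
    · exact absurd h1 (F.notBig' hG hGr hGn (Filter.Eventually.of_forall fun ν =>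
        Finset.filter_subset _ _) (Filter.Eventually.of_forall fun ν t ht =>
        (Finset.mem_filter.1 ht).2))
  obtain ⟨m, hm⟩ := hZbig
  obtain ⟨k, hk⟩ : ∃ k, k = 4 * (2 * F.d + 5) * m + 1 := ⟨_, rfl⟩
  have hk1 : 1 ≤ k := by omega
  obtain ⟨X₀, hBB⟩ := hB F.d
  obtain ⟨xx, hX⟩ := rootX Y k hk1
  obtain ⟨C1, hC1⟩ := F.val_bd hb (Re.sq F.B0)
  obtain ⟨C2, hC2⟩ := F.val_bd hb hGr
  -- the relations for the derivations
  have hrel : ∀ᶠ ν in (Uf : Filter ℕ), ∀ a, rename some (sq (c a) ν) *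
      (sq (R i0) ν * nab (sq F.H ν) (sq F.B0 ν) (fun j => sq (F.B j) ν)
        (fun j => (S.e ν i j : ℤ)) a (sq (R i) ν) -
        nab (sq F.H ν) (sq F.B0 ν) (fun j => sq (F.B j) ν)
        (fun j => (S.e ν i0 j : ℤ)) a (sq (R i0) ν) * sq (R i) ν) = sq F.H ν * sq (Q a) ν := by
    rw [Filter.eventually_all]
    intro a
    have e1 := ((Re.sq (c a)).rename some).mul (((Re.sq (R i0)).mul
      (Re.nab (S.κ i) (fun ν j => (S.e ν i j : ℤ)) (fun j => rfl) (Re.sq F.H)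
        (Re.sq F.B0) (fun j => Re.sq (F.B j)) (Re.sq (R i)) a)).sub
      ((Re.nab (S.κ i0) (fun ν j => (S.e ν i0 j : ℤ)) (fun j => rfl) (Re.sq F.H)
        (Re.sq F.B0) (fun j => Re.sq (F.B j)) (Re.sq (R i0)) a).mul (Re.sq (R i))))
    rw [hQ a] at e1
    exact e1.eq ((Re.sq F.H).mul (Re.sq (Q a)))
  have key : ∀ᶠ ν in (Uf : Filter ℕ), ∃ T' : Finset (Fin N → ℤ),
      T' ⊆ Z ν ∧ (Z ν).card ≤ xx ν ^ (2 * F.d + 5) * T'.card ∧
      ∀ t ∈ T', ∀ t' ∈ T',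
        (eval (F.sp ν t) (sq (R i) ν) * eval (F.sp ν t') (sq (R i0) ν)) *
          ((∏ j, t j ^ S.e ν i j) * ∏ j, t' j ^ S.e ν i0 j) =
        (eval (F.sp ν t') (sq (R i) ν) * eval (F.sp ν t) (sq (R i0) ν)) *
          ((∏ j, t' j ^ S.e ν i j) * ∏ j, t j ^ S.e ν i0 j) := by
    filter_upwards [X_large hY (fun ν => (hX ν).2.1) X₀, hC1, hC2, (F.mem (Re.sq F.H)).1 F.H0,
      S.mbd hb, hrel, Filter.eventually_all.2 F.rel, ev_size hY hk1 (fun ν => (hX ν).2.1)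
        (M := S.M) S.he S.hw ((2 * C1 + 1) + C2 + 1 + 1)] with ν g1 g2 g3 g4 g5 g6 g7 g8
    refine fin_step hBB g1 (S.le_M ν i) (S.le_M ν i0) g6 (Z ν) (F.sp ν) fun t ht => ?_
    obtain ⟨ht1, ht2⟩ := (hZ ν t).1 ht
    have e3 := g3 t ht1
    rw [hgν ν] at ht2 e3
    refine ⟨g4 t ht1, fun j => g7 j t ht1, ht2, (g5 t ht1 i).1, (g5 t ht1 i0).1, ?_⟩
    refine lt_of_le_of_lt ?_ (size_aux g8)
    have e2 : |eval (F.sp ν t) (sq F.B0 ν)| ^ (2 * S.M ν) ≤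
        ((Y ν : ℤ) + 2) ^ (C1 * (2 * S.M ν)) := by
      rw [pow_mul (((Y ν : ℤ) + 2)) C1]
      exact pow_le_pow_left₀ (abs_nonneg _) (g2 t ht1) _
    have e4 := (g5 t ht1 i).2
    have e5 := (g5 t ht1 i0).2
    exact size_aux2 e2 e3 e4 e5
  obtain ⟨Om', hOm'⟩ := key.choice
  refine ⟨Om', ?_, ?_, ?_⟩
  · filter_upwards [hOm'] with ν hν
    exact hν.1.trans fun t ht => ((hZ ν t).1 ht).1
  · refine Big.frac hY (A := Z) (X := xx) (m := m) (e := 2 * F.d + 5) (k := k) (by omega) hm ?_ ?_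
    · filter_upwards [hOm'] with ν hν
      exact hν.2.1
    · exact Filter.Eventually.of_forall fun ν => ⟨(hX ν).1, (hX ν).2.2⟩
  · obtain ⟨C3, hC3⟩ := F.val_bd hb (Re.sq (R i))
    obtain ⟨C4, hC4⟩ := F.val_bd hb (Re.sq (R i0))
    refine ⟨C3 + C4, ?_⟩
    filter_upwards [hOm', hC3, hC4] with ν hν h3 h4 t ht t' ht'
    obtain ⟨m1, n1⟩ := (hZ ν t).1 (hν.1 ht)
    obtain ⟨m2, n2⟩ := (hZ ν t').1 (hν.1 ht')
    rw [hgν ν] at n1 n2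
    have k1 := gg_b0 n1
    have k2 := gg_b0 n2
    refine ⟨_, _, mul_ne_zero k1.2.1 k2.2.2, mul_ne_zero k2.2.1 k1.2.2, ?_, ?_, ?_⟩
    · rw [abs_mul, pow_add]
      exact mul_le_mul (h3 t m1) (h4 t' m2) (abs_nonneg _) (by positivity)
    · rw [abs_mul, pow_add]
      exact mul_le_mul (h3 t' m2) (h4 t m1) (abs_nonneg _) (by positivity)
    · have h5 := hν.2.2 t ht t' ht'
      unfold TS.T
      linear_combination (S.u ν i * S.u ν i0) * h5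

/-- restriction of a system -/
def TS.res (S : TS Y Om n) {Om' : ℕ → Finset (Fin N → ℤ)}
    (h : ∀ᶠ ν in (Uf : Filter ℕ), Om' ν ⊆ Om ν) : TS Y Om' n where
  e := S.e
  u := S.u
  w := S.w
  he := S.he
  hu := S.hu
  hw := S.hw
  sum0 := by
    filter_upwards [S.sum0, h] with ν h1 h2 t ht
    exact h1 t (h2 ht)

theorem Bdd.res (hb : Bdd Y Om) {Om' : ℕ → Finset (Fin N → ℤ)}
    (h : ∀ᶠ ν in (Uf : Filter ℕ), Om' ν ⊆ Om ν) : Bdd Y Om' := by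
  filter_upwards [hb, h] with ν h1 h2 t ht
  exact h1 t (h2 ht)

/-- the core theorem -/
theorem core (hA : S_A) (hB : S_B) (halg : S_alg)
    (hY : ∀ m : ℕ, ∀ᶠ ν in (Uf : Filter ℕ), m ≤ Y ν)
    (hG : Big Y Om) (hb : Bdd Y Om) (S : TS Y Om n) (i0 : Fin n) :
    ∃ i, i ≠ i0 ∧ ∃ Om' : ℕ → Finset (Fin N → ℤ),
      (∀ᶠ ν in (Uf : Filter ℕ), Om' ν ⊆ Om ν) ∧ Big Y Om' ∧ ∃ C : ℕ, ∀ᶠ ν in (Uf : Filter ℕ),
      ∀ t ∈ Om' ν, ∀ t' ∈ Om' ν, ∃ r r' : ℤ, r ≠ 0 ∧ r' ≠ 0 ∧ |r| ≤ ((Y ν : ℤ) + 2) ^ C ∧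
      |r'| ≤ ((Y ν : ℤ) + 2) ^ C ∧
      r * (S.T ν i t * S.T ν i0 t') = r' * (S.T ν i t' * S.T ν i0 t) := by
  obtain ⟨Om1, h1, h2⟩ := Gen.ex hG
  obtain ⟨i, hi, Om', h3, h4, C, h5⟩ := core_gen hA hB halg hY h2 (hb.res h1) (S.res h1) i0
  refine ⟨i, hi, Om', ?_, h4, C, h5⟩
  filter_upwards [h1, h3] with ν a b
  exact b.trans a

end

end Pool.Agent.Y902.GN
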