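import Mathlib
import Pool.Agent.Y902.GN.CoreThm

/-!
# The isotypic decomposition of the relations between the terms
-/

set_option autoImplicit false

namespace Pool.Agent.Y902.GN

open Filter MvPolynomial

section

variable {Y : ℕ → ℕ} {N n : ℕ} {Om : ℕ → Finset (Fin N → ℤ)}

/-- gauge equivalence of two terms -/
def GE (F : FF Y Om) (S : TS Y Om n) (i i' : Fin n) : Prop :=
  ∃ r r' : MvPolynomial (Option (Fin F.d)) (OO Y), r ∉ F.hh ∧ r' ∉ F.hh ∧
    ∀ a, r' * nab F.H F.B0 F.B (S.κ i) a r - nab F.H F.B0 F.B (S.κ i') a r' * r ∈ F.hh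

theorem one_notMem_hh (hY : ∀ m : ℕ, ∀ᶠ ν in (Uf : Filter ℕ), m ≤ Y ν) (F : FF Y Om)
    (hG : Gen Y Om) : (1 : MvPolynomial (Option (Fin F.d)) (OO Y)) ∉ F.hh :=
  fun h => (F.hh_prime hY hG).ne_top ((Ideal.eq_top_iff_one _).2 h)

theorem GE.refl (hY : ∀ m : ℕ, ∀ᶠ ν in (Uf : Filter ℕ), m ≤ Y ν) (F : FF Y Om)
    (hG : Gen Y Om) (S : TS Y Om n) (i : Fin n) : GE F S i i := by
  refine ⟨1, 1, one_notMem_hh hY F hG, one_notMem_hh hY F hG, fun a => ?_⟩
  rw [one_mul, mul_one, sub_self]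
  exact Ideal.zero_mem _

theorem GE.symm {F : FF Y Om} {S : TS Y Om n} {i i' : Fin n} (h : GE F S i i') :
    GE F S i' i := by
  obtain ⟨r, r', hr, hr', h⟩ := h
  refine ⟨r', r, hr', hr, fun a => ?_⟩
  have h1 := Ideal.mul_mem_left _ (-1) (h a)
  have h2 : r * nab F.H F.B0 F.B (S.κ i') a r' - nab F.H F.B0 F.B (S.κ i) a r * r' =
    -1 * (r' * nab F.H F.B0 F.B (S.κ i) a r - nab F.H F.B0 F.B (S.κ i') a r' * r) := by ring
  rw [h2]
  exact h1

theorem ge_ring {A : Type*} [CommRing A] (PB l l' l'' r1 r1' r2 r2' d1 d1' d2 d2' : A) :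
    (r1' * r2') * (PB * (r1 * d2 + r2 * d1) + (r1 * r2) * l) -
      (PB * (r1' * d2' + r2' * d1') + (r1' * r2') * l'') * (r1 * r2) =
    (r2 * r2') * (r1' * (PB * d1 + r1 * l) - (PB * d1' + r1' * l') * r1) +
      (r1 * r1') * (r2' * (PB * d2 + r2 * l') - (PB * d2' + r2' * l'') * r2) := by
  ring

theorem GE.trans (hY : ∀ m : ℕ, ∀ᶠ ν in (Uf : Filter ℕ), m ≤ Y ν) {F : FF Y Om}
    (hG : Gen Y Om) {S : TS Y Om n} {i i' i'' : Fin n} (h : GE F S i i') (h' : GE F S i' i'') :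
    GE F S i i'' := by
  have hp := F.hh_prime hY hG
  obtain ⟨r1, r1', hr1, hr1', h1⟩ := h
  obtain ⟨r2, r2', hr2, hr2', h2⟩ := h'
  refine ⟨r1 * r2, r1' * r2', fun h => (hp.mem_or_mem h).elim hr1 hr2,
    fun h => (hp.mem_or_mem h).elim hr1' hr2', fun a => ?_⟩
  have e1 := h1 a
  have e2 := h2 a
  unfold nab at e1 e2 ⊢
  rw [dl_mul, dl_mul, ge_ring _ _ (ldv F.H F.B0 F.B (S.κ i') a)]
  exact Ideal.add_mem _ (Ideal.mul_mem_left _ _ e1) (Ideal.mul_mem_left _ _ e2)

theorem FR.of_mem {F : FF Y Om} {S : TS Y Om n}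
    {R : Fin n → MvPolynomial (Option (Fin F.d)) (OO Y)} (h : ∀ i, R i ∈ F.hh) : FR F S R := by
  rw [FR.iff (fun i => Re.sq (R i))]
  apply not_big_empty
  have h1 : ∀ᶠ ν in (Uf : Filter ℕ), ∀ i, ∀ t ∈ Om ν, eval (F.sp ν t) (sq (R i) ν) = 0 :=
    Filter.eventually_all.2 fun i => (F.mem (Re.sq (R i))).1 (F.mem_hh.1 (h i))
  filter_upwards [h1] with ν hν
  apply Finset.filter_false_of_mem
  intro t ht
  rw [not_not]
  refine Finset.sum_eq_zero fun i _ => ?_
  rw [hν i t ht, zero_mul]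

theorem FR.congr (hY : ∀ m : ℕ, ∀ᶠ ν in (Uf : Filter ℕ), m ≤ Y ν) {F : FF Y Om} {S : TS Y Om n}
    {R R' : Fin n → MvPolynomial (Option (Fin F.d)) (OO Y)} (h : FR F S R)
    (h' : ∀ i, R i - R' i ∈ F.hh) : FR F S R' := by
  have h1 := h.comb hY (FR.of_mem (S := S) h') 1 (-1)
  have h2 : (fun i => 1 * R i + -1 * (R i - R' i)) = R' := by
    funext i
    ring
  rwa [h2] at h1

theorem FR.cancel (hY : ∀ m : ℕ, ∀ᶠ ν in (Uf : Filter ℕ), m ≤ Y ν) {F : FF Y Om}
    (hG : Gen Y Om) {S : TS Y Om n}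
    {R : Fin n → MvPolynomial (Option (Fin F.d)) (OO Y)}
    {P : MvPolynomial (Option (Fin F.d)) (OO Y)} (hP : P ∉ F.hh)
    (h : FR F S (fun i => P * R i)) : FR F S R := by
  classical
  rw [FR.iff (fun i => (Re.sq P).mul (Re.sq (R i)))] at h
  rw [FR.iff (fun i => Re.sq (R i))]
  intro hb
  rcases hb.or hY (B := fun ν => (Om ν).filter fun t => eval (F.sp ν t) (sq P ν) = 0)
    (C := fun ν => (Om ν).filter fun t =>
      ∑ i, eval (F.sp ν t) (sq P ν * sq (R i) ν) * S.T ν i t ≠ 0)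
    (Filter.Eventually.of_forall fun ν t ht => by
      obtain ⟨ht1, ht2⟩ := Finset.mem_filter.1 ht
      by_cases h0 : eval (F.sp ν t) (sq P ν) = 0
      · exact Finset.mem_union_left _ (Finset.mem_filter.2 ⟨ht1, h0⟩)
      · refine Finset.mem_union_right _ (Finset.mem_filter.2 ⟨ht1, ?_⟩)
        have e3 : ∑ i, eval (F.sp ν t) (sq P ν * sq (R i) ν) * S.T ν i t =
            eval (F.sp ν t) (sq P ν) * (∑ i, eval (F.sp ν t) (sq (R i) ν) * S.T ν i t) := by
          rw [Finset.mul_sum]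
          refine Finset.sum_congr rfl fun i _ => ?_
          rw [map_mul]
          ring
        rw [e3]
        exact mul_ne_zero h0 ht2) with h1 | h1
  · exact F.notBig' hG (Re.sq P) hP (Filter.Eventually.of_forall fun ν =>
      Finset.filter_subset _ _) (Filter.Eventually.of_forall fun ν t ht =>
      (Finset.mem_filter.1 ht).2) h1
  · exact h h1

open Classical in
/-- the support of a coefficient vector -/
noncomputable def spt (F : FF Y Om) (R : Fin n → MvPolynomial (Option (Fin F.d)) (OO Y)) :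
    Finset (Fin n) := Finset.univ.filter fun i => R i ∉ F.hh

theorem mem_spt {F : FF Y Om} {R : Fin n → MvPolynomial (Option (Fin F.d)) (OO Y)} {i : Fin n} :
    i ∈ spt F R ↔ R i ∉ F.hh := by
  unfold spt
  simp

/-- circuits -/
theorem circuit (hS : S_A) (hY : ∀ m : ℕ, ∀ᶠ ν in (Uf : Filter ℕ), m ≤ Y ν) (F : FF Y Om)
    (hG : Gen Y Om) (hb : Bdd Y Om) (S : TS Y Om n)
    {R : Fin n → MvPolynomial (Option (Fin F.d)) (OO Y)} (hR : FR F S R)
    (hne : (spt F R).Nonempty) :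
    ∃ Rc : Fin n → MvPolynomial (Option (Fin F.d)) (OO Y), FR F S Rc ∧ (spt F Rc).Nonempty ∧
      spt F Rc ⊆ spt F R ∧ ∀ i ∈ spt F Rc, ∀ i' ∈ spt F Rc, GE F S i i' := by
  classical
  have hex : ∃ k : ℕ, ∃ Rc : Fin n → MvPolynomial (Option (Fin F.d)) (OO Y), FR F S Rc ∧
      (spt F Rc).Nonempty ∧ spt F Rc ⊆ spt F R ∧ (spt F Rc).card = k :=
    ⟨_, R, hR, hne, subset_rfl, rfl⟩
  obtain ⟨Rc, h1, h2, h3, h4⟩ := Nat.find_spec hex
  have hmin : ∀ R' : Fin n → MvPolynomial (Option (Fin F.d)) (OO Y), FR F S R' →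
      (spt F R').Nonempty → spt F R' ⊆ spt F R → (spt F Rc).card ≤ (spt F R').card := by
    intro R' g1 g2 g3
    rw [h4]
    exact Nat.find_min' hex ⟨R', g1, g2, g3, rfl⟩
  refine ⟨Rc, h1, h2, h3, fun i hi i0 hi0 => ?_⟩
  refine ⟨Rc i, Rc i0, mem_spt.1 hi, mem_spt.1 hi0, fun a => ?_⟩
  obtain ⟨R', hR'⟩ : ∃ R' : Fin n → MvPolynomial (Option (Fin F.d)) (OO Y), ∀ i, R' i =
      Rc i0 * nab F.H F.B0 F.B (S.κ i) a (Rc i) +
        (- nab F.H F.B0 F.B (S.κ i0) a (Rc i0)) * Rc i := ⟨_, fun _ => rfl⟩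
  have g1 : FR F S R' := by
    have := (FR_nab hS hY F hG hb S h1 a).comb hY h1 (Rc i0)
      (- nab F.H F.B0 F.B (S.κ i0) a (Rc i0))
    have e : (fun i => Rc i0 * nab F.H F.B0 F.B (S.κ i) a (Rc i) +
        (- nab F.H F.B0 F.B (S.κ i0) a (Rc i0)) * Rc i) = R' := by
      funext i
      exact (hR' i).symm
    rwa [e] at this
  have g2 : ∀ j, Rc j ∈ F.hh → R' j ∈ F.hh := by
    intro j hj
    rw [hR' j]
    exact Ideal.add_mem _ (Ideal.mul_mem_left _ _ (F.nab_mem hY hG hj a _))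
      (Ideal.mul_mem_left _ _ hj)
  have g3 : spt F R' ⊆ (spt F Rc).erase i0 := by
    intro j hj
    have hj' := mem_spt.1 hj
    refine Finset.mem_erase.2 ⟨?_, mem_spt.2 fun h => hj' (g2 j h)⟩
    rintro rfl
    apply hj'
    rw [hR' j]
    have : Rc j * nab F.H F.B0 F.B (S.κ j) a (Rc j) +
        (- nab F.H F.B0 F.B (S.κ j) a (Rc j)) * Rc j = 0 := by ring
    rw [this]
    exact Ideal.zero_mem _
  have g4 : R' i ∈ F.hh := by
    by_contra hcon
    have g5 := hmin R' g1 ⟨i, mem_spt.2 hcon⟩ ((g3.trans (Finset.erase_subset _ _)).trans h3)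
    have g6 := Finset.card_le_card g3
    rw [Finset.card_erase_of_mem hi0] at g6
    have g7 : 0 < (spt F Rc).card := Finset.card_pos.2 ⟨i0, hi0⟩
    omega
  rw [hR' i] at g4
  have : Rc i0 * nab F.H F.B0 F.B (S.κ i) a (Rc i) -
      nab F.H F.B0 F.B (S.κ i0) a (Rc i0) * Rc i =
      Rc i0 * nab F.H F.B0 F.B (S.κ i) a (Rc i) +
        (- nab F.H F.B0 F.B (S.κ i0) a (Rc i0)) * Rc i := by ring
  rw [this]
  exact g4

open Classical in
/-- the isotypic decomposition -/
theorem isotypic (hS : S_A) (hY : ∀ m : ℕ, ∀ᶠ ν in (Uf : Filter ℕ), m ≤ Y ν) (F : FF Y Om)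
    (hG : Gen Y Om) (hb : Bdd Y Om) (S : TS Y Om n) (K : Finset (Fin n))
    (hK : ∀ i i', GE F S i i' → i ∈ K → i' ∈ K) : ∀ (k : ℕ)
    (R : Fin n → MvPolynomial (Option (Fin F.d)) (OO Y)), (spt F R).card ≤ k → FR F S R →
    FR F S (fun i => if i ∈ K then R i else 0) := by
  have hp := F.hh_prime hY hG
  have hempty : ∀ R : Fin n → MvPolynomial (Option (Fin F.d)) (OO Y), ¬ (spt F R).Nonempty →
      FR F S (fun i => if i ∈ K then R i else 0) := by
    intro R hR
    apply FR.of_mem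
    intro i
    rw [Finset.not_nonempty_iff_eq_empty] at hR
    have h1 : R i ∈ F.hh := by
      by_contra hcon
      have := mem_spt.2 hcon
      rw [hR] at this
      exact absurd this (Finset.notMem_empty _)
    split_ifs
    · exact h1
    · exact Ideal.zero_mem _
  intro k
  induction k with
  | zero =>
    intro R hR _
    apply hempty
    rw [Finset.not_nonempty_iff_eq_empty]
    exact Finset.card_eq_zero.1 (by omega)
  | succ k ih =>
    intro R hk hR
    by_cases hne : (spt F R).Nonempty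
    swap
    · exact hempty R hne
    obtain ⟨Rc, h1, ⟨i, hi⟩, h3, h4⟩ := circuit hS hY F hG hb S hR hne
    have hi' := mem_spt.1 hi
    -- the vector with smaller support
    have g1 : FR F S (fun j => Rc i * R j + (- R i) * Rc j) := hR.comb hY h1 _ _
    have g2 : (spt F (fun j => Rc i * R j + (- R i) * Rc j)).card ≤ k := by
      have g3 : spt F (fun j => Rc i * R j + (- R i) * Rc j) ⊆ (spt F R).erase i := by
        intro j hj
        have hj' := mem_spt.1 hj
        refine Finset.mem_erase.2 ⟨?_, mem_spt.2 fun h => hj' ?_⟩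
        · rintro rfl
          apply hj'
          have : Rc j * R j + (- R j) * Rc j = 0 := by ring
          rw [this]
          exact Ideal.zero_mem _
        · have h5 : Rc j ∈ F.hh := by
            by_contra hcon
            exact mem_spt.1 (h3 (mem_spt.2 hcon)) h
          exact Ideal.add_mem _ (Ideal.mul_mem_left _ _ h) (Ideal.mul_mem_left _ _ h5)
      have g4 := Finset.card_le_card g3
      rw [Finset.card_erase_of_mem (h3 hi)] at g4
      have g5 : 0 < (spt F R).card := Finset.card_pos.2 hne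
      omega
    have g3 := ih _ g2 g1
    -- the circuit
    have g4 : FR F S (fun j => if j ∈ K then Rc j else 0) := by
      by_cases hiK : i ∈ K
      · refine h1.congr hY fun j => ?_
        split_ifs with hj
        · rw [sub_self]; exact Ideal.zero_mem _
        · rw [sub_zero]
          by_contra hcon
          exact hj (hK i j (h4 i hi j (mem_spt.2 hcon)) hiK)
      · apply FR.of_mem
        intro j
        split_ifs with hj
        · by_contra hcon
          exact hiK (hK j i (h4 j (mem_spt.2 hcon) i hi) hj)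
        · exact Ideal.zero_mem _
    have g5 := g3.comb hY g4 1 (R i)
    refine FR.cancel hY hG hi' ?_
    have e : (fun j => 1 * (if j ∈ K then Rc i * R j + (- R i) * Rc j else 0) +
        R i * (if j ∈ K then Rc j else 0)) = fun j => Rc i * (if j ∈ K then R j else 0) := by
      funext j
      split_ifs
      · ring
      · ring
    rw [← e]
    exact g5

/-- no partial sum of the terms vanishes -/
def NVS (S : TS Y Om n) : Prop := ∀ᶠ ν in (Uf : Filter ℕ), ∀ t ∈ Om ν, ∀ K : Finset (Fin n),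
  K.Nonempty → K ≠ Finset.univ → ∑ i ∈ K, S.T ν i t ≠ 0

theorem all_GE (hS : S_A) (hY : ∀ m : ℕ, ∀ᶠ ν in (Uf : Filter ℕ), m ≤ Y ν) (F : FF Y Om)
    (hG : Gen Y Om) (hb : Bdd Y Om) (S : TS Y Om n) (hv : NVS S) (i0 i : Fin n) :
    GE F S i0 i := by
  classical
  by_contra hcon
  obtain ⟨K, hK⟩ : ∃ K : Finset (Fin n), ∀ j, j ∈ K ↔ GE F S i0 j :=
    ⟨Finset.univ.filter fun j => GE F S i0 j, fun j => by simp⟩
  have h1 := isotypic hS hY F hG hb S K (fun j j' hjj hj =>
    (hK j').2 (((hK j).1 hj).trans hY hG hjj)) _ (fun _ => 1) le_rfl (FR.one F S)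
  have h2 : ∀ j, Re (if j ∈ K then (1 : MvPolynomial (Option (Fin F.d)) (OO Y)) else 0)
      (fun _ => if j ∈ K then 1 else 0) := by
    intro j
    split_ifs
    · exact Re.one
    · exact Re.zero
  rw [FR.iff h2] at h1
  apply h1
  refine hG.1.mono ?_
  filter_upwards [hv] with ν hν t ht
  refine Finset.mem_filter.2 ⟨ht, ?_⟩
  have h3 := hν t ht K ⟨i0, (hK i0).2 (GE.refl hY F hG S i0)⟩ (by
    intro h
    exact hcon ((hK i).1 (by rw [h]; exact Finset.mem_univ _)))
  convert h3 using 1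
  rw [← Finset.sum_filter_add_sum_filter_not Finset.univ (fun j => j ∈ K)]
  have e1 : ∑ j ∈ Finset.univ.filter (fun j => j ∈ K),
      eval (F.sp ν t) (if j ∈ K then 1 else 0) * S.T ν j t = ∑ j ∈ K, S.T ν j t := by
    have : Finset.univ.filter (fun j => j ∈ K) = K := by ext; simp
    rw [this]
    refine Finset.sum_congr rfl fun j hj => ?_
    rw [if_pos hj, map_one, one_mul]
  have e2 : ∑ j ∈ Finset.univ.filter (fun j => ¬ j ∈ K),
      eval (F.sp ν t) (if j ∈ K then 1 else 0) * S.T ν j t = 0 := by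
    refine Finset.sum_eq_zero fun j hj => ?_
    rw [if_neg (Finset.mem_filter.1 hj).2, map_zero, zero_mul]
  rw [e1, e2, add_zero]

end

end Pool.Agent.Y902.GN
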