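import Mathlib
import Pool.Agent.Y902.GN.Size

/-!
# Few values, and large subsets on which a function is constant
-/

set_option autoImplicit false

namespace Pool.Agent.Y902.GN

open Filter

/-- less than every power of `Y` -/
def Few (Y : ℕ → ℕ) (f : ℕ → ℕ) : Prop := ∀ m : ℕ, ∀ᶠ ν in (Uf : Filter ℕ), f ν ^ m ≤ Y ν

section

variable {Y : ℕ → ℕ} {α β : Type*}

theorem pow_root {a b m : ℕ} (hm : m ≠ 0) (h : a ^ m ≤ b ^ m) : a ≤ b :=
  (Nat.pow_le_pow_iff_left hm).1 h

theorem Few.mono {f g : ℕ → ℕ} (h : Few Y g) (hfg : ∀ᶠ ν in (Uf : Filter ℕ), f ν ≤ g ν) :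
    Few Y f := by
  intro m
  filter_upwards [h m, hfg] with ν h1 h2
  exact (Nat.pow_le_pow_left h2 m).trans h1

theorem Few.mul {f g : ℕ → ℕ} (h : Few Y f) (h' : Few Y g) : Few Y (fun ν => f ν * g ν) := by
  intro m
  filter_upwards [h (m * 2), h' (m * 2)] with ν h1 h2
  apply pow_root (m := 2) (by norm_num)
  rw [← pow_mul, mul_pow, pow_two]
  exact Nat.mul_le_mul h1 h2

theorem Few.pow {f : ℕ → ℕ} (h : Few Y f) (c : ℕ) : Few Y (fun ν => f ν ^ c) := by
  intro m
  filter_upwards [h (c * m)] with ν h1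
  rw [← pow_mul]
  exact h1

theorem Few.const (hY : ∀ m : ℕ, ∀ᶠ ν in (Uf : Filter ℕ), m ≤ Y ν) (c : ℕ) :
    Few Y (fun _ => c) := fun m => hY (c ^ m)

theorem Few.add (hY : ∀ m : ℕ, ∀ᶠ ν in (Uf : Filter ℕ), m ≤ Y ν) {f g : ℕ → ℕ} (h : Few Y f)
    (h' : Few Y g) : Few Y (fun ν => f ν + g ν) := by
  have h1 : Few Y (fun ν => (f ν + 1) * (g ν + 1)) := by
    apply Few.mul
    · intro m
      have h2 := ((Few.const hY 2).mul h) m
      filter_upwards [h2, hY (1 ^ m), hY (2 ^ m)] with ν a b c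
      rcases Nat.eq_zero_or_pos (f ν) with h0 | h0
      · rw [h0]; simpa using b
      · exact (Nat.pow_le_pow_left (by omega) m).trans a
    · intro m
      have h2 := ((Few.const hY 2).mul h') m
      filter_upwards [h2, hY (1 ^ m), hY (2 ^ m)] with ν a b c
      rcases Nat.eq_zero_or_pos (g ν) with h0 | h0
      · rw [h0]; simpa using b
      · exact (Nat.pow_le_pow_left (by omega) m).trans a
  refine h1.mono (Filter.Eventually.of_forall fun ν => ?_)
  nlinarith

/-- a function with few values is constant on a large subset -/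
theorem Big.fiber [DecidableEq β] {A : ℕ → Finset α} (h : Big Y A) (f : ℕ → α → β)
    (V : ℕ → Finset β) (hV : ∀ᶠ ν in (Uf : Filter ℕ), ∀ t ∈ A ν, f ν t ∈ V ν)
    (hfew : Few Y (fun ν => (V ν).card)) : ∃ A' : ℕ → Finset α,
      (∀ᶠ ν in (Uf : Filter ℕ), A' ν ⊆ A ν) ∧ Big Y A' ∧
      ∀ᶠ ν in (Uf : Filter ℕ), ∀ t ∈ A' ν, ∀ t' ∈ A' ν, f ν t = f ν t' := by
  classical
  obtain ⟨m, hm⟩ := h
  have key : ∀ᶠ ν in (Uf : Filter ℕ), ∃ A' : Finset α, A' ⊆ A ν ∧
      (∀ t ∈ A', ∀ t' ∈ A', f ν t = f ν t') ∧ Y ν + 2 ≤ A'.card ^ (m * 2) := by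
    filter_upwards [hm, hV, hfew (m * 2)] with ν h1 h2 h3
    have hne : (V ν).Nonempty := by
      rw [Finset.nonempty_iff_ne_empty]
      intro hcon
      have h4 : A ν = ∅ := by
        rw [Finset.eq_empty_iff_forall_notMem]
        intro t ht
        have := h2 t ht
        rw [hcon] at this
        exact absurd this (Finset.notMem_empty _)
      rw [h4, Finset.card_empty] at h1
      rcases m with _ | m
      · simp at h1
      · simp at h1
    obtain ⟨v, hv, hmax⟩ := Finset.exists_max_image (V ν)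
      (fun v => ((A ν).filter fun t => f ν t = v).card) hne
    refine ⟨(A ν).filter fun t => f ν t = v, Finset.filter_subset _ _, ?_, ?_⟩
    · intro t ht t' ht'
      rw [(Finset.mem_filter.1 ht).2, (Finset.mem_filter.1 ht').2]
    · set a' := ((A ν).filter fun t => f ν t = v).card with ha'
      have h4 : (A ν).card ≤ (V ν).card * a' := by
        rw [Finset.card_eq_sum_card_fiberwise (f := f ν) (t := V ν) (fun t ht => h2 t ht)]
        refine (Finset.sum_le_card_nsmul _ _ a' fun v' hv' => hmax v' hv').trans ?_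
        rw [smul_eq_mul]
      have h5 : (Y ν + 2) * (Y ν + 2) ≤ (Y ν + 2) * a' ^ (m * 2) := by
        calc (Y ν + 2) * (Y ν + 2) ≤ (A ν).card ^ m * (A ν).card ^ m := Nat.mul_le_mul h1 h1
          _ = (A ν).card ^ (m * 2) := by rw [← pow_add]; congr 1; ring
          _ ≤ ((V ν).card * a') ^ (m * 2) := Nat.pow_le_pow_left h4 _
          _ = (V ν).card ^ (m * 2) * a' ^ (m * 2) := mul_pow _ _ _
          _ ≤ (Y ν + 2) * a' ^ (m * 2) := Nat.mul_le_mul_right _ (by omega)
      exact Nat.le_of_mul_le_mul_left h5 (by omega)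
  obtain ⟨A', hA'⟩ := key.choice
  refine ⟨A', ?_, ⟨m * 2, ?_⟩, ?_⟩
  · filter_upwards [hA'] with ν hν
    exact hν.1
  · filter_upwards [hA'] with ν hν
    exact hν.2.2
  · filter_upwards [hA'] with ν hν
    exact hν.2.1

/-- finitely many functions are constant on a large subset if each of them is, relatively -/
theorem Big.const_all {ι : Type*} (s : Finset ι) (f : ι → ℕ → α → β) {A : ℕ → Finset α}
    (h : Big Y A) (H : ∀ q ∈ s, ∀ A' : ℕ → Finset α, (∀ᶠ ν in (Uf : Filter ℕ), A' ν ⊆ A ν) →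
      Big Y A' → ∃ A'' : ℕ → Finset α, (∀ᶠ ν in (Uf : Filter ℕ), A'' ν ⊆ A' ν) ∧ Big Y A'' ∧
      ∀ᶠ ν in (Uf : Filter ℕ), ∀ t ∈ A'' ν, ∀ t' ∈ A'' ν, f q ν t = f q ν t') :
    ∃ A'' : ℕ → Finset α, (∀ᶠ ν in (Uf : Filter ℕ), A'' ν ⊆ A ν) ∧ Big Y A'' ∧
      ∀ q ∈ s, ∀ᶠ ν in (Uf : Filter ℕ), ∀ t ∈ A'' ν, ∀ t' ∈ A'' ν, f q ν t = f q ν t' := by
  classical
  induction s using Finset.induction_on with
  | empty => exact ⟨A, Filter.Eventually.of_forall fun _ => subset_rfl, h, fun q hq =>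
      absurd hq (Finset.notMem_empty q)⟩
  | insert q s hq ih =>
    obtain ⟨A1, h1, h2, h3⟩ := ih fun q' hq' => H q' (Finset.mem_insert_of_mem hq')
    obtain ⟨A2, h4, h5, h6⟩ := H q (Finset.mem_insert_self _ _) A1 h1 h2
    refine ⟨A2, ?_, h5, ?_⟩
    · filter_upwards [h1, h4] with ν a b
      exact b.trans a
    · intro q' hq'
      rcases Finset.mem_insert.1 hq' with rfl | hq'
      · exact h6
      · filter_upwards [h3 q' hq', h4] with ν a b t ht t' ht'
        exact a t (b ht) t' (b ht')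

end

end Pool.Agent.Y902.GN
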