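import Mathlib

/-!
# Elementary divisibility
-/

set_option autoImplicit false

namespace Pool.Agent.Y902.GN

/-- the statement of job C -/
def S_C : Prop := ∀ N m : ℕ, ∃ Y₀ : ℕ, ∀ Y : ℕ, Y₀ ≤ Y → ∀ P : ℕ, P ≠ 0 → P ≤ Y ^ N →
  ∀ H : Finset ℕ, (∀ h ∈ H, 1 ≤ h ∧ h ≤ Y ∧ ∀ p, p.Prime → p ∣ h → p ∣ P) → H.card ^ m ≤ Y

theorem nsplit (P : ℕ) : ∀ x : ℕ, x ≠ 0 → ∃ g h : ℕ, x = g * h ∧ g.Coprime P ∧
    ∀ p, p.Prime → p ∣ h → p ∣ P := by
  intro x
  induction x using induction_on_primes with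
  | zero => intro h; exact absurd rfl h
  | one =>
    intro _
    exact ⟨1, 1, rfl, Nat.coprime_one_left P, fun p hp h => absurd (Nat.dvd_one.1 h) hp.one_lt.ne'⟩
  | prime_mul p a hp ih =>
    intro h0
    have ha : a ≠ 0 := fun h => h0 (by rw [h, mul_zero])
    obtain ⟨g, h, h1, h2, h3⟩ := ih ha
    by_cases hpP : p ∣ P
    · refine ⟨g, p * h, by rw [h1]; ring, h2, fun q hq hqd => ?_⟩
      rcases (Nat.Prime.dvd_mul hq).1 hqd with h4 | h4
      · rw [(Nat.prime_dvd_prime_iff_eq hq hp).1 h4]; exact hpP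
      · exact h3 q hq h4
    · exact ⟨p * g, h, by rw [h1]; ring, Nat.Coprime.mul_left ((Nat.Prime.coprime_iff_not_dvd hp).2 hpP) h2,
        h3⟩

theorem dvd_split {x e ρ l P : ℕ} (hx : x ≠ 0) (hl : ∀ p, p.Prime → p ∣ l → p ∣ P)
    (h : x ^ e ∣ ρ * l) : ∃ g h : ℕ, x = g * h ∧ g ^ e ∣ ρ ∧ ∀ p, p.Prime → p ∣ h → p ∣ P := by
  obtain ⟨g, h', h1, h2, h3⟩ := nsplit P x hx
  refine ⟨g, h', h1, ?_, h3⟩
  have h4 : g.Coprime l := by
    rw [Nat.coprime_iff_gcd_eq_one]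
    by_contra hcon
    obtain ⟨p, hp, hpd⟩ := Nat.exists_prime_and_dvd hcon
    have h5 : p ∣ P := hl p hp (hpd.trans (Nat.gcd_dvd_right _ _))
    have h6 : p ∣ Nat.gcd g P := Nat.dvd_gcd (hpd.trans (Nat.gcd_dvd_left _ _)) h5
    rw [Nat.coprime_iff_gcd_eq_one.1 h2] at h6
    exact hp.one_lt.ne' (Nat.dvd_one.1 h6)
  have h5 : g ^ e ∣ ρ * l := by
    refine dvd_trans ?_ h
    rw [h1, mul_pow]
    exact dvd_mul_right _ _
  exact (Nat.Coprime.pow_left e h4).dvd_of_dvd_mul_right h5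

/-- uniqueness for the abc equation with large parts given -/
theorem abc_unique {A B C a b c a' b' c' s : ℤ} (hA : 0 < A) (hB : 0 < B)
    (ha : 0 < a) (hb : 0 < b) (hc : 0 < c) (ha' : 0 < a') (hb' : 0 < b') (hc' : 0 < c')
    (h1 : A * a + B * b = C * c) (h2 : A * a' + B * b' = C * c')
    (g1 : IsCoprime (A * a) (C * c)) (g2 : IsCoprime (A * a') (C * c'))
    (g3 : IsCoprime (A * a) (B * b))
    (sa : a ≤ s) (sb : b ≤ s) (sc : c ≤ s) (sa' : a' ≤ s) (sb' : b' ≤ s) (sc' : c' ≤ s) :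
    (A * a = A * a' ∧ B * b = B * b') ∨ C * c ≤ 4 * s ^ 3 := by
  have hs : 0 < s := lt_of_lt_of_le ha sa
  have gAB : IsCoprime A B := (g3.of_mul_left_left).of_mul_right_left
  have e1 : A * (a * c' - a' * c) = B * (b' * c - b * c') := by
    linear_combination c' * h1 - c * h2
  by_cases h0 : a * c' - a' * c = 0
  · left
    have gac : IsCoprime a c := (g1.of_mul_left_right).of_mul_right_right
    have gac' : IsCoprime a' c' := (g2.of_mul_left_right).of_mul_right_right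
    have e2 : a * c' = a' * c := by linarith
    have d1 : a ∣ a' := gac.dvd_of_dvd_mul_right (Dvd.intro _ e2)
    have d2 : a' ∣ a := gac'.dvd_of_dvd_mul_right (Dvd.intro _ e2.symm)
    have e3 : a = a' := Int.dvd_antisymm ha.le ha'.le d1 d2
    have e4 : c' = c := by
      rw [e3] at e2
      exact mul_left_cancel₀ ha'.ne' e2
    refine ⟨by rw [e3], ?_⟩
    rw [e3] at h1
    rw [e4] at h2
    linarith
  · right
    have d1 : B ∣ a * c' - a' * c := gAB.symm.dvd_of_dvd_mul_left (Dvd.intro _ e1.symm)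
    have h0' : b' * c - b * c' ≠ 0 := by
      intro hcon
      rw [hcon, mul_zero] at e1
      exact (mul_ne_zero hA.ne' h0) e1
    have d2 : A ∣ b' * c - b * c' := gAB.dvd_of_dvd_mul_left (Dvd.intro _ e1)
    have q1 : B ≤ |a * c' - a' * c| := Int.le_of_dvd (abs_pos.2 h0) ((dvd_abs _ _).2 d1)
    have q2 : A ≤ |b' * c - b * c'| := Int.le_of_dvd (abs_pos.2 h0') ((dvd_abs _ _).2 d2)
    have q3 : |a * c' - a' * c| ≤ 2 * s ^ 2 := by
      rw [abs_le]
      constructor <;> nlinarith [mul_pos ha hc', mul_pos ha' hc,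
        mul_le_mul sa sc' hc'.le hs.le, mul_le_mul sa' sc hc.le hs.le]
    have q4 : |b' * c - b * c'| ≤ 2 * s ^ 2 := by
      rw [abs_le]
      constructor <;> nlinarith [mul_pos hb hc', mul_pos hb' hc,
        mul_le_mul sb sc' hc'.le hs.le, mul_le_mul sb' sc hc.le hs.le]
    rw [← h1]
    have q5 : A * a ≤ (2 * s ^ 2) * s := mul_le_mul (q2.trans q4) sa ha.le (by positivity)
    have q6 : B * b ≤ (2 * s ^ 2) * s := mul_le_mul (q1.trans q3) sb hb.le (by positivity)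
    have : (4 : ℤ) * s ^ 3 = (2 * s ^ 2) * s + (2 * s ^ 2) * s := by ring
    rw [this]
    exact add_le_add q5 q6

end Pool.Agent.Y902.GN
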