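import Mathlib
import Pool.Agent.Y902.GN.CoreThm
import Pool.Agent.Y902.GN.Few
import Pool.Agent.Y902.GN.Nt
import Pool.Agent.Y884.GN.A
import Pool.Agent.Y317.GN.B
import Pool.Agent.Y394.GN.Alg
import Pool.Agent.Y275.GN.C

/-!
# The core theorem without hypotheses; bases with large exponents take few values
-/

set_option autoImplicit false

namespace Pool.Agent.Y902.GN

open Filter

section

variable {Y : ℕ → ℕ} {N n : ℕ} {Om : ℕ → Finset (Fin N → ℤ)}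

/-- the core theorem -/
theorem core' (hY : ∀ m : ℕ, ∀ᶠ ν in (Uf : Filter ℕ), m ≤ Y ν)
    (hG : Big Y Om) (hb : Bdd Y Om) (S : TS Y Om n) (i0 : Fin n) :
    ∃ i, i ≠ i0 ∧ ∃ Om' : ℕ → Finset (Fin N → ℤ),
      (∀ᶠ ν in (Uf : Filter ℕ), Om' ν ⊆ Om ν) ∧ Big Y Om' ∧ ∃ C : ℕ, ∀ᶠ ν in (Uf : Filter ℕ),
      ∀ t ∈ Om' ν, ∀ t' ∈ Om' ν, ∃ r r' : ℤ, r ≠ 0 ∧ r' ≠ 0 ∧ |r| ≤ ((Y ν : ℤ) + 2) ^ C ∧
      |r'| ≤ ((Y ν : ℤ) + 2) ^ C ∧
      r * (S.T ν i t * S.T ν i0 t') = r' * (S.T ν i t' * S.T ν i0 t) :=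
  core Y884.GN.t Y317.GN.t Y394.GN.t hY hG hb S i0

theorem hSC : S_C := fun N m => Y275.GN.t_C N m

/-- infinite exponents -/
def Lar (e : ℕ → ℕ) : Prop := ∀ E : ℕ, ∀ᶠ ν in (Uf : Filter ℕ), E ≤ e ν

theorem not_lar {e : ℕ → ℕ} (h : ¬ Lar e) : ∃ E : ℕ, ∀ᶠ ν in (Uf : Filter ℕ), e ν ≤ E := by
  unfold Lar at h
  push Not at h
  obtain ⟨E, hE⟩ := h
  refine ⟨E, ?_⟩
  filter_upwards [hE] with ν hν
  exact hν.le

theorem card_root {y m : ℕ} (hy : 1 ≤ y) :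
    ((Finset.Icc 1 y).filter fun g => g ^ m ≤ y).card ^ m ≤ y := by
  rcases Finset.eq_empty_or_nonempty ((Finset.Icc 1 y).filter fun g => g ^ m ≤ y) with h | h
  · rw [h, Finset.card_empty]
    rcases m with _ | m
    · simpa using hy
    · simp
  · obtain ⟨g, hg, hmax⟩ := Finset.exists_max_image _ id h
    have h1 : ((Finset.Icc 1 y).filter fun g => g ^ m ≤ y) ⊆ Finset.Icc 1 g := by
      intro g' hg'
      rw [Finset.mem_Icc]
      exact ⟨(Finset.mem_Icc.1 (Finset.mem_filter.1 hg').1).1, hmax g' hg'⟩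
    have h2 := Finset.card_le_card h1
    rw [Nat.card_Icc, Nat.add_sub_cancel] at h2
    exact (Nat.pow_le_pow_left h2 m).trans (Finset.mem_filter.1 hg).2

/-- the finite part of the argument -/
theorem few_bases {N : ℕ} {y m C' e0 : ℕ} (hC' : 1 ≤ C') (he0 : C' * (4 * m) ≤ e0)
    (hy2 : 2 ^ (4 * m) ≤ y) (hy3 : 2 ≤ y) {Y₀ : ℕ} (hY₀ : Y₀ ≤ y)
    (hS : ∀ Y : ℕ, Y₀ ≤ Y → ∀ P : ℕ, P ≠ 0 → P ≤ Y ^ N →
      ∀ H : Finset ℕ, (∀ h ∈ H, 1 ≤ h ∧ h ≤ Y ∧ ∀ p, p.Prime → p ∣ h → p ∣ P) →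
      H.card ^ (4 * m) ≤ Y) (L : Finset (Fin N)) (e : Fin N → ℕ) (t' : Fin N → ℤ)
    (ht' : ∀ j, t' j ≠ 0 ∧ |t' j| ≤ (y : ℤ)) (V : Finset ℤ)
    (hV : ∀ v ∈ V, v ≠ 0 ∧ |v| ≤ (y : ℤ) ∧ ∃ ρ : ℤ, ρ ≠ 0 ∧ |ρ| ≤ ((y : ℤ) + 2) ^ C' ∧
      v ^ e0 ∣ ρ * ∏ j ∈ L, t' j ^ e j) : V.card ^ m ≤ y := by
  classical
  set P : ℕ := ∏ j ∈ L, (t' j).natAbs with hP
  have hP0 : P ≠ 0 := Finset.prod_ne_zero_iff.2 fun j _ => Int.natAbs_ne_zero.2 (ht' j).1
  have hPN : P ≤ y ^ N := by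
    calc P ≤ ∏ j ∈ L, y := Finset.prod_le_prod' fun j _ => by
          have := (ht' j).2
          rw [Int.abs_eq_natAbs] at this
          exact_mod_cast this
      _ = y ^ L.card := by rw [Finset.prod_const]
      _ ≤ y ^ N := Nat.pow_le_pow_right (by omega) (by
          simpa using Finset.card_le_univ L)
  set H : Finset ℕ := (Finset.Icc 1 y).filter fun h => ∀ p, p.Prime → p ∣ h → p ∣ P with hH
  have hHc : H.card ^ (4 * m) ≤ y := hS y hY₀ P hP0 hPN H (by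
    intro h hh
    rw [hH, Finset.mem_filter, Finset.mem_Icc] at hh
    exact ⟨hh.1.1, hh.1.2, hh.2⟩)
  set G : Finset ℕ := (Finset.Icc 1 (y + 2)).filter fun g => g ^ (4 * m) ≤ y + 2 with hG
  have hGc : G.card ^ (4 * m) ≤ y + 2 := card_root (by omega)
  have hsub : V ⊆ (({1, -1} : Finset ℤ) ×ˢ (G ×ˢ H)).image fun p => p.1 * ((p.2.1 * p.2.2 : ℕ) : ℤ) := by
    intro v hv
    obtain ⟨hv0, hvy, ρ, hρ0, hρ, hd⟩ := hV v hv
    have h1 : v.natAbs ^ e0 ∣ ρ.natAbs * ∏ j ∈ L, (t' j).natAbs ^ e j := by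
      have h2 := Int.natAbs_dvd_natAbs.2 hd
      rw [Int.natAbs_pow, Int.natAbs_mul] at h2
      have h3 : (∏ j ∈ L, t' j ^ e j).natAbs = ∏ j ∈ L, (t' j).natAbs ^ e j := by
        rw [← Int.natAbsHom_apply, map_prod]
        simp only [Int.natAbsHom_apply, Int.natAbs_pow]
      rwa [h3] at h2
    have hx : v.natAbs ≠ 0 := Int.natAbs_ne_zero.2 hv0
    obtain ⟨g, h, hgh, hg, hh⟩ := dvd_split (P := P) hx (by
      intro p hp hpd
      obtain ⟨j, hj, hpj⟩ := (Prime.dvd_finsetProd_iff hp.prime _).1 hpd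
      exact (hp.dvd_of_dvd_pow hpj).trans (Finset.dvd_prod_of_mem _ hj)) h1
    have hg0 : 1 ≤ g := Nat.one_le_iff_ne_zero.2 fun hc => hx (by rw [hgh, hc, zero_mul])
    have hh0 : 1 ≤ h := Nat.one_le_iff_ne_zero.2 fun hc => hx (by rw [hgh, hc, mul_zero])
    have hvn : v.natAbs ≤ y := by
      rw [Int.abs_eq_natAbs] at hvy
      exact_mod_cast hvy
    have hgv : g ≤ v.natAbs := by rw [hgh]; exact Nat.le_mul_of_pos_right _ hh0
    have hhv : h ≤ v.natAbs := by rw [hgh]; exact Nat.le_mul_of_pos_left _ hg0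
    have hgρ : g ^ e0 ≤ (y + 2) ^ C' := by
      refine (Nat.le_of_dvd (Int.natAbs_pos.2 hρ0) hg).trans ?_
      have : ((ρ.natAbs : ℕ) : ℤ) ≤ ((y : ℤ) + 2) ^ C' := by rw [Int.natCast_natAbs]; exact hρ
      exact_mod_cast this
    have hg4 : g ^ (4 * m) ≤ y + 2 := by
      apply pow_root (m := C') (by omega)
      rw [← pow_mul, mul_comm (4 * m) C']
      exact (Nat.pow_le_pow_right hg0 he0).trans hgρ
    rw [Finset.mem_image]
    have hgG : g ∈ G := by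
      rw [hG, Finset.mem_filter, Finset.mem_Icc]
      exact ⟨⟨hg0, by omega⟩, hg4⟩
    have hhH : h ∈ H := by
      rw [hH, Finset.mem_filter, Finset.mem_Icc]
      exact ⟨⟨hh0, by omega⟩, hh⟩
    rcases Int.natAbs_eq v with h2 | h2
    · refine ⟨(1, g, h), ?_, ?_⟩
      · rw [Finset.mem_product, Finset.mem_product]
        exact ⟨by simp, hgG, hhH⟩
      · show 1 * ((g * h : ℕ) : ℤ) = v
        rw [← hgh, one_mul]; exact h2.symm
    · refine ⟨(-1, g, h), ?_, ?_⟩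
      · rw [Finset.mem_product, Finset.mem_product]
        exact ⟨by simp, hgG, hhH⟩
      · show -1 * ((g * h : ℕ) : ℤ) = v
        rw [← hgh, neg_one_mul]; exact h2.symm
  have hVc : V.card ≤ 2 * (G.card * H.card) := by
    refine (Finset.card_le_card hsub).trans (Finset.card_image_le.trans ?_)
    rw [Finset.card_product, Finset.card_product]
    exact Nat.mul_le_mul_right _ (Finset.card_le_two)
  apply pow_root (m := 4) (by norm_num)
  calc (V.card ^ m) ^ 4 = V.card ^ (4 * m) := by rw [← pow_mul, mul_comm]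
    _ ≤ (2 * (G.card * H.card)) ^ (4 * m) := Nat.pow_le_pow_left hVc _
    _ = 2 ^ (4 * m) * (G.card ^ (4 * m) * H.card ^ (4 * m)) := by rw [mul_pow, mul_pow]
    _ ≤ y * ((y + 2) * y) := Nat.mul_le_mul hy2 (Nat.mul_le_mul hGc hHc)
    _ ≤ y * ((y * y) * y) := by
        refine Nat.mul_le_mul_left _ (Nat.mul_le_mul_right _ ?_)
        nlinarith
    _ = y ^ 4 := by ring

end

end Pool.Agent.Y902.GN
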