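import Mathlib
import Pool.Agent.Y902.GN.Un

/-!
# Variables with infinite exponents are constant on a large subset
-/

set_option autoImplicit false

namespace Pool.Agent.Y902.GN

open Filter

section

variable {Y : ℕ → ℕ} {N n : ℕ} {Om : ℕ → Finset (Fin N → ℤ)}

theorem small_prod {N : ℕ} {y E : ℕ} (L : Finset (Fin N)) (e : Fin N → ℕ) (t : Fin N → ℤ)
    (ht : ∀ j, t j ≠ 0 ∧ |t j| ≤ (y : ℤ)) (he : ∀ j ∈ L, e j ≤ E) :
    |∏ j ∈ L, t j ^ e j| ≤ ((y : ℤ) + 2) ^ (N * E) := by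
  rw [Finset.abs_prod]
  have a0 : (1 : ℤ) ≤ (y : ℤ) + 2 := by omega
  calc ∏ j ∈ L, |t j ^ e j| ≤ ∏ j ∈ L, ((y : ℤ) + 2) ^ E := by
        refine Finset.prod_le_prod (fun _ _ => abs_nonneg _) fun j hj => ?_
        rw [abs_pow]
        refine (pow_le_pow_left₀ (abs_nonneg _) ?_ _).trans (pow_le_pow_right₀ a0 (he j hj))
        have := (ht j).2
        linarith
    _ = (((y : ℤ) + 2) ^ E) ^ L.card := by rw [Finset.prod_const]
    _ ≤ (((y : ℤ) + 2) ^ E) ^ N := pow_le_pow_right₀ (one_le_pow₀ a0) (by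
        simpa using Finset.card_le_univ L)
    _ = ((y : ℤ) + 2) ^ (N * E) := by rw [← pow_mul, mul_comm]

/-- divisibility from the core relation -/
theorem core_dvd {N : ℕ} {Li L0 : Finset (Fin N)} {ei e0 : Fin N → ℕ} {t t' : Fin N → ℤ}
    {ui u0 r r' : ℤ} (hui : ui ≠ 0) (hu0 : u0 ≠ 0)
    (h : r * ((ui * ∏ j, t j ^ ei j) * (u0 * ∏ j, t' j ^ e0 j)) =
      r' * ((ui * ∏ j, t' j ^ ei j) * (u0 * ∏ j, t j ^ e0 j)))
    {j0 : Fin N} (hj0 : j0 ∈ L0) (hcop : ∀ j ∈ Li, IsCoprime (t j0) (t j)) :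
    t j0 ^ e0 j0 ∣ (r * (∏ j ∈ Liᶜ, t j ^ ei j) * ∏ j ∈ L0ᶜ, t' j ^ e0 j) *
      ∏ j ∈ L0, t' j ^ e0 j := by
  classical
  have hs : ∀ (L : Finset (Fin N)) (t : Fin N → ℤ) (e : Fin N → ℕ),
      ∏ j, t j ^ e j = (∏ j ∈ L, t j ^ e j) * ∏ j ∈ Lᶜ, t j ^ e j :=
    fun L t e => (Finset.prod_mul_prod_compl L _).symm
  rw [hs Li t ei, hs L0 t' e0, hs Li t' ei, hs L0 t e0] at h
  have h1 : (ui * u0) * ((∏ j ∈ Li, t j ^ ei j) * ((r * (∏ j ∈ Liᶜ, t j ^ ei j) *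
      ∏ j ∈ L0ᶜ, t' j ^ e0 j) * ∏ j ∈ L0, t' j ^ e0 j)) = (ui * u0) *
      ((∏ j ∈ L0, t j ^ e0 j) * (r' * ((∏ j ∈ Li, t' j ^ ei j) * ∏ j ∈ Liᶜ, t' j ^ ei j) *
        ∏ j ∈ L0ᶜ, t j ^ e0 j)) := by linear_combination h
  have h2 := mul_left_cancel₀ (mul_ne_zero hui hu0) h1
  have h3 : t j0 ^ e0 j0 ∣ (∏ j ∈ Li, t j ^ ei j) * ((r * (∏ j ∈ Liᶜ, t j ^ ei j) *
      ∏ j ∈ L0ᶜ, t' j ^ e0 j) * ∏ j ∈ L0, t' j ^ e0 j) := by
    rw [h2]
    exact Dvd.dvd.mul_right (Finset.dvd_prod_of_mem (fun j => t j ^ e0 j) hj0) _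
  have h4 : IsCoprime (t j0 ^ e0 j0) (∏ j ∈ Li, t j ^ ei j) :=
    IsCoprime.pow_left (IsCoprime.prod_right fun j hj => (hcop j hj).pow_right)
  exact h4.dvd_of_dvd_mul_left h3

theorem small_exps (e : ℕ → Fin n → Fin N → ℕ) : ∃ E : ℕ, ∀ᶠ ν in (Uf : Filter ℕ), ∀ i j,
    ¬ Lar (fun ν => e ν i j) → e ν i j ≤ E := by
  classical
  have h1 : ∀ i j, ∃ E : ℕ, ∀ᶠ ν in (Uf : Filter ℕ), ¬ Lar (fun ν => e ν i j) → e ν i j ≤ E := by
    intro i j
    by_cases h : Lar (fun ν => e ν i j)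
    · exact ⟨0, Filter.Eventually.of_forall fun ν hn => absurd h hn⟩
    · obtain ⟨E, hE⟩ := not_lar h
      exact ⟨E, hE.mono fun ν hν _ => hν⟩
  choose E hE using h1
  refine ⟨∑ i, ∑ j, E i j, ?_⟩
  filter_upwards [Filter.eventually_all.2 fun i => Filter.eventually_all.2 fun j => hE i j]
    with ν hν i j h
  refine (hν i j h).trans ?_
  exact (Finset.single_le_sum (f := fun j => E i j) (fun _ _ => Nat.zero_le _)
    (Finset.mem_univ j)).trans (Finset.single_le_sum (f := fun i => ∑ j, E i j)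
    (fun _ _ => Nat.zero_le _) (Finset.mem_univ i))

/-- coprimality of the variables with infinite exponents in different terms -/
def Cop (Om : ℕ → Finset (Fin N → ℤ)) (e : ℕ → Fin n → Fin N → ℕ) : Prop :=
  ∀ i i' j k, i ≠ i' → Lar (fun ν => e ν i j) → Lar (fun ν => e ν i' k) →
    ∀ᶠ ν in (Uf : Filter ℕ), ∀ t ∈ Om ν, IsCoprime (t j) (t k)

theorem lar_step (hY : ∀ m : ℕ, ∀ᶠ ν in (Uf : Filter ℕ), m ≤ Y ν)
    (hG : Big Y Om) (hb : Bdd Y Om) (S : TS Y Om n) (hcop : Cop Om S.e) (i0 : Fin n) (j0 : Fin N)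
    (hl : Lar (fun ν => S.e ν i0 j0)) : ∃ Om' : ℕ → Finset (Fin N → ℤ),
      (∀ᶠ ν in (Uf : Filter ℕ), Om' ν ⊆ Om ν) ∧ Big Y Om' ∧
      ∀ᶠ ν in (Uf : Filter ℕ), ∀ t ∈ Om' ν, ∀ t' ∈ Om' ν, t j0 = t' j0 := by
  classical
  obtain ⟨i, hi, Om1, h1, h2, C, h3⟩ := core' hY hG hb S i0
  obtain ⟨E, hE⟩ := small_exps S.e
  have hcop' : ∀ᶠ ν in (Uf : Filter ℕ), ∀ j, Lar (fun ν => S.e ν i j) → ∀ t ∈ Om ν,
      IsCoprime (t j0) (t j) := by
    rw [Filter.eventually_all]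
    intro j
    by_cases hj : Lar (fun ν => S.e ν i j)
    · filter_upwards [hcop i0 i j0 j hi.symm hl hj] with ν hν _
      exact hν
    · exact Filter.Eventually.of_forall fun ν h => absurd h hj
  obtain ⟨Om', h4, h5, h6⟩ := h2.fiber (fun ν t => t j0) (fun ν => (Om1 ν).image fun t => t j0)
    (Filter.Eventually.of_forall fun ν t ht => Finset.mem_image_of_mem _ ht) (by
      intro m
      obtain ⟨Y₀, hY₀⟩ := hSC N (4 * m)
      filter_upwards [h1, h2.nonempty, h3, hb, hcop', hE, S.hu, hl ((C + 2 * (N * E) + 1) * (4 * m)),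
        hY (2 ^ (4 * m)), hY 2, hY Y₀] with ν g1 g2 g3 g4 g5 g6 g7 g8 g9 g10 g11
      obtain ⟨t', ht'⟩ := g2
      refine few_bases (C' := C + 2 * (N * E) + 1) (e0 := S.e ν i0 j0) (by omega) g8 g9 g10 g11
        hY₀ (Finset.univ.filter fun j => Lar (fun ν => S.e ν i0 j)) (S.e ν i0) t'
        (g4 t' (g1 ht')) _ ?_
      intro v hv
      obtain ⟨t, ht, rfl⟩ := Finset.mem_image.1 hv
      have k1 := g4 t (g1 ht)
      have k1' := g4 t' (g1 ht')
      refine ⟨(k1 j0).1, (k1 j0).2, ?_⟩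
      obtain ⟨r, r', hr, hr', hr1, hr2, hrr⟩ := g3 t ht t' ht'
      refine ⟨_, ?_, ?_, core_dvd (g7 i).1 (g7 i0).1 hrr
        (Li := Finset.univ.filter fun j => Lar (fun ν => S.e ν i j))
        (L0 := Finset.univ.filter fun j => Lar (fun ν => S.e ν i0 j))
        (Finset.mem_filter.2 ⟨Finset.mem_univ _, hl⟩)
        fun j hj => g5 j (Finset.mem_filter.1 hj).2 t (g1 ht)⟩
      · refine mul_ne_zero (mul_ne_zero hr ?_) ?_
        · exact Finset.prod_ne_zero_iff.2 fun j _ => pow_ne_zero _ (k1 j).1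
        · exact Finset.prod_ne_zero_iff.2 fun j _ => pow_ne_zero _ (k1' j).1
      · have a0 : (1 : ℤ) ≤ (Y ν : ℤ) + 2 := by omega
        rw [abs_mul, abs_mul]
        have q1 := small_prod (Finset.univ.filter fun j => Lar (fun ν => S.e ν i j))ᶜ (S.e ν i) t
          (y := Y ν) (E := E) k1 (fun j hj => g6 i j (by
            rw [Finset.mem_compl, Finset.mem_filter, not_and] at hj
            exact hj (Finset.mem_univ _)))
        have q2 := small_prod (Finset.univ.filter fun j => Lar (fun ν => S.e ν i0 j))ᶜ (S.e ν i0)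
          t' (y := Y ν) (E := E) k1' (fun j hj => g6 i0 j (by
            rw [Finset.mem_compl, Finset.mem_filter, not_and] at hj
            exact hj (Finset.mem_univ _)))
        have q3 := mul_le_mul (mul_le_mul hr1 q1 (abs_nonneg _) (by positivity)) q2
          (abs_nonneg _) (by positivity)
        refine q3.trans ?_
        rw [← pow_add, ← pow_add]
        exact pow_le_pow_right₀ a0 (by omega))
  refine ⟨Om', ?_, h5, h6⟩
  filter_upwards [h1, h4] with ν a b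
  exact b.trans a

/-- all variables with infinite exponents are constant on a large subset -/
theorem lar_const (hY : ∀ m : ℕ, ∀ᶠ ν in (Uf : Filter ℕ), m ≤ Y ν)
    (hG : Big Y Om) (hb : Bdd Y Om) (S : TS Y Om n) (hcop : Cop Om S.e) :
    ∃ Om' : ℕ → Finset (Fin N → ℤ), (∀ᶠ ν in (Uf : Filter ℕ), Om' ν ⊆ Om ν) ∧ Big Y Om' ∧
      ∀ j, (∃ i, Lar (fun ν => S.e ν i j)) → ∀ᶠ ν in (Uf : Filter ℕ),
        ∀ t ∈ Om' ν, ∀ t' ∈ Om' ν, t j = t' j := by
  classical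
  obtain ⟨Om', h1, h2, h3⟩ := Big.const_all (Y := Y)
    (Finset.univ.filter fun j : Fin N => ∃ i, Lar (fun ν => S.e ν i j))
    (fun j _ t => t j) hG (by
      intro j hj A' hA' hbig
      obtain ⟨i, hi⟩ := (Finset.mem_filter.1 hj).2
      refine lar_step hY hbig (hb.res hA') (S.res hA') ?_ i j hi
      intro i i' j k hii hi hi'
      filter_upwards [hA', hcop i i' j k hii hi hi'] with ν a b t ht
      exact b t (a ht))
  exact ⟨Om', h1, h2, fun j hj => h3 j (Finset.mem_filter.2 ⟨Finset.mem_univ _, hj⟩)⟩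

end

end Pool.Agent.Y902.GN
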