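import Mathlib
import Pool.Agent.Y902.GN.Iso
import Pool.Agent.Y902.GN.Lar

/-!
# All ratios of terms are nearly constant if no partial sum vanishes
-/

set_option autoImplicit false

namespace Pool.Agent.Y902.GN

open Filter MvPolynomial

section

variable {Y : ℕ → ℕ} {N n : ℕ} {Om : ℕ → Finset (Fin N → ℤ)}

/-- the ratio of two terms is nearly constant -/
def NC (Y : ℕ → ℕ) {N n : ℕ} {Om : ℕ → Finset (Fin N → ℤ)} (S : TS Y Om n)
    (Om' : ℕ → Finset (Fin N → ℤ)) (i i0 : Fin n) : Prop :=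
  ∃ C : ℕ, ∀ᶠ ν in (Uf : Filter ℕ), ∀ t ∈ Om' ν, ∀ t' ∈ Om' ν, ∃ r r' : ℤ, r ≠ 0 ∧ r' ≠ 0 ∧
    |r| ≤ ((Y ν : ℤ) + 2) ^ C ∧ |r'| ≤ ((Y ν : ℤ) + 2) ^ C ∧
    r * (S.T ν i t * S.T ν i0 t') = r' * (S.T ν i t' * S.T ν i0 t)

theorem NC.mono {S : TS Y Om n} {Om1 Om2 : ℕ → Finset (Fin N → ℤ)} {i i0 : Fin n}
    (h : NC Y S Om1 i i0) (h' : ∀ᶠ ν in (Uf : Filter ℕ), Om2 ν ⊆ Om1 ν) : NC Y S Om2 i i0 := by
  obtain ⟨C, hC⟩ := h
  refine ⟨C, ?_⟩
  filter_upwards [hC, h'] with ν a b t ht t' ht'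
  exact a t (b ht) t' (b ht')

/-- gauge equivalent terms have nearly constant ratio on a large subset of each large subset -/
theorem ge_const (hB : S_B) (hY : ∀ m : ℕ, ∀ᶠ ν in (Uf : Filter ℕ), m ≤ Y ν) (F : FF Y Om)
    (hG : Gen Y Om) (hb : Bdd Y Om) (S : TS Y Om n) {i i0 : Fin n} (h : GE F S i i0)
    {Z0 : ℕ → Finset (Fin N → ℤ)} (hZ0 : ∀ᶠ ν in (Uf : Filter ℕ), Z0 ν ⊆ Om ν)
    (hbig0 : Big Y Z0) : ∃ Om' : ℕ → Finset (Fin N → ℤ),
      (∀ᶠ ν in (Uf : Filter ℕ), Om' ν ⊆ Z0 ν) ∧ Big Y Om' ∧ NC Y S Om' i i0 := by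
  classical
  have hp := F.hh_prime hY hG
  obtain ⟨Ri, R0, hRi, hR0, hE⟩ := h
  choose c Q hc hQ using fun a => F.dvd' _ (hE a)
  -- the polynomial whose zeros are avoided
  have hcc : ∏ a, c a ≠ 0 := Finset.prod_ne_zero_iff.2 fun a _ => hc a
  have hGn : gg F.H F.B0 Ri R0 F.B c ∉ F.hh := by
    intro h
    unfold gg at h
    rcases hp.mem_or_mem h with h | h
    · rcases hp.mem_or_mem h with h | h
      · exact F.HT' h
      · rcases hp.mem_or_mem h with h | h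
        · exact F.ren_notMem hcc h
        · rcases hp.mem_or_mem h with h | h
          · obtain ⟨j, _, hj⟩ := (hp.prod_mem_iff).1 h
            exact F.B_notMem' hb j hj
          · exact F.B0_notMem' h
    · rcases hp.mem_or_mem h with h | h
      · exact hRi h
      · exact hR0 h
  have hGr : Re (gg F.H F.B0 Ri R0 F.B c) (fun ν => gg (sq F.H ν) (sq F.B0 ν)
      (sq Ri ν) (sq R0 ν) (fun j => sq (F.B j) ν) (fun a => sq (c a) ν)) := by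
    unfold gg
    exact ((((Re.sq F.H).pderiv none).mul (((Re.prod _ fun a _ => Re.sq (c a)).rename some).mul
      ((Re.prod _ fun j _ => Re.sq (F.B j)).mul (Re.sq F.B0)))).mul
        ((Re.sq Ri).mul (Re.sq R0)))
  obtain ⟨g, hg⟩ : ∃ g : ℕ → MvPolynomial (Option (Fin F.d)) ℤ, g = (fun ν =>
      gg (sq F.H ν) (sq F.B0 ν) (sq Ri ν) (sq R0 ν) (fun j => sq (F.B j) ν)
        (fun a => sq (c a) ν)) := ⟨_, rfl⟩
  have hgν : ∀ ν, g ν = gg (sq F.H ν) (sq F.B0 ν) (sq Ri ν) (sq R0 ν)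
    (fun j => sq (F.B j) ν) (fun a => sq (c a) ν) := fun ν => congrFun hg ν
  rw [← hg] at hGr
  obtain ⟨Z, hZ⟩ : ∃ Z : ℕ → Finset (Fin N → ℤ), ∀ ν t, t ∈ Z ν ↔ t ∈ Z0 ν ∧
      eval (F.sp ν t) (g ν) ≠ 0 :=
    ⟨fun ν => (Z0 ν).filter fun t => eval (F.sp ν t) (g ν) ≠ 0, fun ν t => Finset.mem_filter⟩
  have hZbig : Big Y Z := by
    rcases hbig0.or hY (B := Z) (C := fun ν => (Z0 ν).filter fun t => eval (F.sp ν t) (g ν) = 0)
      (Filter.Eventually.of_forall fun ν t ht => by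
        by_cases h1 : eval (F.sp ν t) (g ν) = 0
        · exact Finset.mem_union_right _ (Finset.mem_filter.2 ⟨ht, h1⟩)
        · exact Finset.mem_union_left _ ((hZ ν t).2 ⟨ht, h1⟩)) with h1 | h1
    · exact h1
    · refine absurd h1 (F.notBig' hG hGr hGn ?_ (Filter.Eventually.of_forall fun ν t ht =>
        (Finset.mem_filter.1 ht).2))
      filter_upwards [hZ0] with ν hν
      exact (Finset.filter_subset _ _).trans hν
  obtain ⟨m, hm⟩ := hZbig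
  obtain ⟨k, hk⟩ : ∃ k, k = 4 * (2 * F.d + 5) * m + 1 := ⟨_, rfl⟩
  have hk1 : 1 ≤ k := by omega
  obtain ⟨X₀, hBB⟩ := hB F.d
  obtain ⟨xx, hX⟩ := rootX Y k hk1
  obtain ⟨C1, hC1⟩ := F.val_bd hb (Re.sq F.B0)
  obtain ⟨C2, hC2⟩ := F.val_bd hb hGr
  -- the relations for the derivations
  have hrel : ∀ᶠ ν in (Uf : Filter ℕ), ∀ a, rename some (sq (c a) ν) *
      (sq R0 ν * nab (sq F.H ν) (sq F.B0 ν) (fun j => sq (F.B j) ν)
        (fun j => (S.e ν i j : ℤ)) a (sq Ri ν) -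
        nab (sq F.H ν) (sq F.B0 ν) (fun j => sq (F.B j) ν)
        (fun j => (S.e ν i0 j : ℤ)) a (sq R0 ν) * sq Ri ν) = sq F.H ν * sq (Q a) ν := by
    rw [Filter.eventually_all]
    intro a
    have e1 := ((Re.sq (c a)).rename some).mul (((Re.sq R0).mul
      (Re.nab (S.κ i) (fun ν j => (S.e ν i j : ℤ)) (fun j => rfl) (Re.sq F.H)
        (Re.sq F.B0) (fun j => Re.sq (F.B j)) (Re.sq Ri) a)).sub
      ((Re.nab (S.κ i0) (fun ν j => (S.e ν i0 j : ℤ)) (fun j => rfl) (Re.sq F.H)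
        (Re.sq F.B0) (fun j => Re.sq (F.B j)) (Re.sq R0) a).mul (Re.sq Ri)))
    rw [hQ a] at e1
    exact e1.eq ((Re.sq F.H).mul (Re.sq (Q a)))
  have key : ∀ᶠ ν in (Uf : Filter ℕ), ∃ T' : Finset (Fin N → ℤ),
      T' ⊆ Z ν ∧ (Z ν).card ≤ xx ν ^ (2 * F.d + 5) * T'.card ∧
      ∀ t ∈ T', ∀ t' ∈ T',
        (eval (F.sp ν t) (sq Ri ν) * eval (F.sp ν t') (sq R0 ν)) *
          ((∏ j, t j ^ S.e ν i j) * ∏ j, t' j ^ S.e ν i0 j) =
        (eval (F.sp ν t') (sq Ri ν) * eval (F.sp ν t) (sq R0 ν)) *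
          ((∏ j, t' j ^ S.e ν i j) * ∏ j, t j ^ S.e ν i0 j) := by
    filter_upwards [X_large hY (fun ν => (hX ν).2.1) X₀, hC1, hC2, (F.mem (Re.sq F.H)).1 F.H0,
      S.mbd hb, hrel, Filter.eventually_all.2 F.rel, ev_size hY hk1 (fun ν => (hX ν).2.1)
        (M := S.M) S.he S.hw ((2 * C1 + 1) + C2 + 1 + 1), hZ0]
        with ν g1 g2 g3 g4 g5 g6 g7 g8 g9
    refine fin_step hBB g1 (S.le_M ν i) (S.le_M ν i0) g6 (Z ν) (F.sp ν) fun t ht => ?_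
    obtain ⟨ht1', ht2⟩ := (hZ ν t).1 ht
    have ht1 := g9 ht1'
    have e3 := g3 t ht1
    rw [hgν ν] at ht2 e3
    refine ⟨g4 t ht1, fun j => g7 j t ht1, ht2, (g5 t ht1 i).1, (g5 t ht1 i0).1, ?_⟩
    refine lt_of_le_of_lt ?_ (size_aux g8)
    have e2 : |eval (F.sp ν t) (sq F.B0 ν)| ^ (2 * S.M ν) ≤
        ((Y ν : ℤ) + 2) ^ (C1 * (2 * S.M ν)) := by
      rw [pow_mul (((Y ν : ℤ) + 2)) C1]
      exact pow_le_pow_left₀ (abs_nonneg _) (g2 t ht1) _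
    have e4 := (g5 t ht1 i).2
    have e5 := (g5 t ht1 i0).2
    exact size_aux2 e2 e3 e4 e5
  obtain ⟨Om', hOm'⟩ := key.choice
  refine ⟨Om', ?_, ?_, ?_⟩
  · filter_upwards [hOm'] with ν hν
    exact hν.1.trans fun t ht => ((hZ ν t).1 ht).1
  · refine Big.frac hY (A := Z) (X := xx) (m := m) (e := 2 * F.d + 5) (k := k) (by omega) hm ?_ ?_
    · filter_upwards [hOm'] with ν hν
      exact hν.2.1
    · exact Filter.Eventually.of_forall fun ν => ⟨(hX ν).1, (hX ν).2.2⟩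
  · obtain ⟨C3, hC3⟩ := F.val_bd hb (Re.sq Ri)
    obtain ⟨C4, hC4⟩ := F.val_bd hb (Re.sq R0)
    refine ⟨C3 + C4, ?_⟩
    filter_upwards [hOm', hC3, hC4, hZ0] with ν hν h3 h4 h5 t ht t' ht'
    obtain ⟨m1, n1⟩ := (hZ ν t).1 (hν.1 ht)
    obtain ⟨m2, n2⟩ := (hZ ν t').1 (hν.1 ht')
    rw [hgν ν] at n1 n2
    have k1 := gg_b0 n1
    have k2 := gg_b0 n2
    refine ⟨_, _, mul_ne_zero k1.2.1 k2.2.2, mul_ne_zero k2.2.1 k1.2.2, ?_, ?_, ?_⟩
    · rw [abs_mul, pow_add]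
      exact mul_le_mul (h3 t (h5 m1)) (h4 t' (h5 m2)) (abs_nonneg _) (by positivity)
    · rw [abs_mul, pow_add]
      exact mul_le_mul (h3 t' (h5 m2)) (h4 t (h5 m1)) (abs_nonneg _) (by positivity)
    · have h5 := hν.2.2 t ht t' ht'
      unfold TS.T
      linear_combination (S.u ν i * S.u ν i0) * h5

theorem NC.comp (hb : Bdd Y Om) {S : TS Y Om n} {Om' : ℕ → Finset (Fin N → ℤ)}
    (hOm' : ∀ᶠ ν in (Uf : Filter ℕ), Om' ν ⊆ Om ν) {i i' i0 : Fin n}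
    (h : NC Y S Om' i i0) (h' : NC Y S Om' i' i0) : NC Y S Om' i i' := by
  obtain ⟨C, hC⟩ := h
  obtain ⟨C', hC'⟩ := h'
  refine ⟨C + C', ?_⟩
  filter_upwards [hC, hC', hOm', S.bd hb] with ν a b c d t ht t' ht'
  obtain ⟨r1, r1', p1, p2, p3, p4, p5⟩ := a t ht t' ht'
  obtain ⟨r2, r2', q1, q2, q3, q4, q5⟩ := b t ht t' ht'
  refine ⟨r1 * r2', r1' * r2, mul_ne_zero p1 q2, mul_ne_zero p2 q1, ?_, ?_, ?_⟩
  · rw [abs_mul, pow_add]
    exact mul_le_mul p3 q4 (abs_nonneg _) (by positivity)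
  · rw [abs_mul, pow_add]
    exact mul_le_mul p4 q3 (abs_nonneg _) (by positivity)
  · have n1 : S.T ν i0 t * S.T ν i0 t' ≠ 0 :=
      mul_ne_zero (d t (c ht) i0).1 (d t' (c ht') i0).1
    apply mul_left_cancel₀ n1
    linear_combination (r2' * S.T ν i' t' * S.T ν i0 t) * p5 -
      (r1' * S.T ν i t' * S.T ν i0 t) * q5

/-- **The general core theorem.** -/
theorem gct (hY : ∀ m : ℕ, ∀ᶠ ν in (Uf : Filter ℕ), m ≤ Y ν)
    (hG : Big Y Om) (hb : Bdd Y Om) (S : TS Y Om n) (hv : NVS S) :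
    ∃ Om' : ℕ → Finset (Fin N → ℤ), (∀ᶠ ν in (Uf : Filter ℕ), Om' ν ⊆ Om ν) ∧ Big Y Om' ∧
      ∀ i i', NC Y S Om' i i' := by
  classical
  obtain ⟨Om1, h1, h2⟩ := Gen.ex hG
  obtain ⟨F⟩ := FF.ex Y394.GN.t hY h2
  have hb1 := hb.res h1
  have hv1 : NVS (S.res h1) := by
    unfold NVS
    filter_upwards [hv, h1] with ν a b t ht
    exact a t (b ht)
  have hge : ∀ i i', GE F (S.res h1) i i' := fun i i' =>
    all_GE Y884.GN.t hY F h2 hb1 (S.res h1) hv1 i i'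
  rcases Nat.eq_zero_or_pos n with hn | hn
  · subst hn
    exact ⟨Om1, h1, h2.1, fun i => i.elim0⟩
  let i0 : Fin n := ⟨0, hn⟩
  have hind : ∀ s : Finset (Fin n), ∃ Om' : ℕ → Finset (Fin N → ℤ),
      (∀ᶠ ν in (Uf : Filter ℕ), Om' ν ⊆ Om1 ν) ∧ Big Y Om' ∧
      ∀ i ∈ s, NC Y (S.res h1) Om' i i0 := by
    intro s
    induction s using Finset.induction_on with
    | empty => exact ⟨Om1, Filter.Eventually.of_forall fun _ => subset_rfl, h2.1,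
        fun i hi => absurd hi (Finset.notMem_empty i)⟩
    | insert i s hi ih =>
      obtain ⟨Om2, g1, g2, g3⟩ := ih
      obtain ⟨Om3, g4, g5, g6⟩ := ge_const Y317.GN.t hY F h2 hb1 (S.res h1) (hge i i0) g1 g2
      refine ⟨Om3, ?_, g5, ?_⟩
      · filter_upwards [g1, g4] with ν a b
        exact b.trans a
      · intro j hj
        rcases Finset.mem_insert.1 hj with rfl | hj
        · exact g6
        · exact (g3 j hj).mono g4
  obtain ⟨Om', g1, g2, g3⟩ := hind Finset.univ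
  have g4 : ∀ᶠ ν in (Uf : Filter ℕ), Om' ν ⊆ Om ν := by
    filter_upwards [g1, h1] with ν a b
    exact a.trans b
  exact ⟨Om', g4, g2, fun i i' => NC.comp hb g4 (i0 := i0) (g3 i (Finset.mem_univ i))
    (g3 i' (Finset.mem_univ i'))⟩

end

end Pool.Agent.Y902.GN
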