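import Mathlib
import Pool.Agent.Y902.GN.Gct

/-!
# Coprime bases with infinite exponent differences are constant on a large subset
-/

set_option autoImplicit false

namespace Pool.Agent.Y902.GN

open Filter

section

variable {Y : ℕ → ℕ} {N n : ℕ} {Om : ℕ → Finset (Fin N → ℤ)}

/-- splitting a monomial into small part, common part and the rest -/
theorem split_term (L : Finset (Fin N)) (e e' : Fin N → ℕ) (t : Fin N → ℤ) :
    ∏ j, t j ^ e j = (∏ j ∈ Lᶜ, t j ^ e j) * ((∏ j ∈ L, t j ^ (min (e j) (e' j))) *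
      ∏ j ∈ L, t j ^ (e j - e' j)) := by
  classical
  rw [← Finset.prod_mul_prod_compl L, mul_comm, ← Finset.prod_mul_distrib]
  congr 1
  refine Finset.prod_congr rfl fun j _ => ?_
  rw [← pow_add]
  congr 1
  omega

/-- divisibility from the relation of near constancy -/
theorem core_dvd2 {L : Finset (Fin N)} {ei e0 : Fin N → ℕ} {t t' : Fin N → ℤ}
    {ui u0 r r' : ℤ} (hui : ui ≠ 0) (hu0 : u0 ≠ 0) (ht : ∀ j, t j ≠ 0) (ht' : ∀ j, t' j ≠ 0)
    (h : r * ((ui * ∏ j, t j ^ ei j) * (u0 * ∏ j, t' j ^ e0 j)) =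
      r' * ((ui * ∏ j, t' j ^ ei j) * (u0 * ∏ j, t j ^ e0 j)))
    {j0 : Fin N} (hj0 : j0 ∈ L) (h0 : 1 ≤ ei j0 - e0 j0)
    (hcop : ∀ j ∈ L, j ≠ j0 → IsCoprime (t j0) (t j)) :
    t j0 ^ (ei j0 - e0 j0) ∣ (r' * (∏ j ∈ Lᶜ, t' j ^ ei j) * ∏ j ∈ Lᶜ, t j ^ e0 j) *
      ∏ j ∈ L, t' j ^ (ei j - e0 j) := by
  classical
  have hm : ∀ (t : Fin N → ℤ), ∏ j ∈ L, t j ^ (min (e0 j) (ei j)) =
      ∏ j ∈ L, t j ^ (min (ei j) (e0 j)) := fun t =>
    Finset.prod_congr rfl fun j _ => by rw [min_comm]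
  rw [split_term L ei e0 t, split_term L e0 ei t', split_term L ei e0 t', split_term L e0 ei t,
    hm t, hm t'] at h
  have hn : ∀ (t : Fin N → ℤ), (∀ j, t j ≠ 0) → ∏ j ∈ L, t j ^ (min (ei j) (e0 j)) ≠ 0 :=
    fun t ht => Finset.prod_ne_zero_iff.2 fun j _ => pow_ne_zero _ (ht j)
  have hc : (ui * u0) * ((∏ j ∈ L, t j ^ (min (ei j) (e0 j))) *
      ∏ j ∈ L, t' j ^ (min (ei j) (e0 j))) ≠ 0 :=
    mul_ne_zero (mul_ne_zero hui hu0) (mul_ne_zero (hn t ht) (hn t' ht'))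
  have h2 : (∏ j ∈ L, t j ^ (ei j - e0 j)) * (r * (∏ j ∈ Lᶜ, t j ^ ei j) *
      (∏ j ∈ Lᶜ, t' j ^ e0 j) * ∏ j ∈ L, t' j ^ (e0 j - ei j)) =
      (∏ j ∈ L, t j ^ (e0 j - ei j)) * ((r' * (∏ j ∈ Lᶜ, t' j ^ ei j) *
        ∏ j ∈ Lᶜ, t j ^ e0 j) * ∏ j ∈ L, t' j ^ (ei j - e0 j)) := by
    apply mul_left_cancel₀ hc
    linear_combination h
  have h3 : t j0 ^ (ei j0 - e0 j0) ∣ (∏ j ∈ L, t j ^ (e0 j - ei j)) *
      ((r' * (∏ j ∈ Lᶜ, t' j ^ ei j) * ∏ j ∈ Lᶜ, t j ^ e0 j) *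
        ∏ j ∈ L, t' j ^ (ei j - e0 j)) := by
    rw [← h2]
    exact Dvd.dvd.mul_right (Finset.dvd_prod_of_mem (fun j => t j ^ (ei j - e0 j)) hj0) _
  have h4 : IsCoprime (t j0 ^ (ei j0 - e0 j0)) (∏ j ∈ L, t j ^ (e0 j - ei j)) := by
    refine IsCoprime.pow_left (IsCoprime.prod_right fun j hj => ?_)
    by_cases hjj : j = j0
    · subst hjj
      have : e0 j - ei j = 0 := by omega
      rw [this, pow_zero]
      exact isCoprime_one_right
    · exact (hcop j hj hjj).pow_right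
  exact h4.dvd_of_dvd_mul_left h3

/-- coprimality of the variables with infinite exponents -/
def PC (Om : ℕ → Finset (Fin N → ℤ)) (e : ℕ → Fin n → Fin N → ℕ) : Prop :=
  ∀ j k, j ≠ k → (∃ i, Lar (fun ν => e ν i j)) → (∃ i, Lar (fun ν => e ν i k)) →
    ∀ᶠ ν in (Uf : Filter ℕ), ∀ t ∈ Om ν, IsCoprime (t j) (t k)

theorem lcc_step (hY : ∀ m : ℕ, ∀ᶠ ν in (Uf : Filter ℕ), m ≤ Y ν)
    (hG : Big Y Om) (hb : Bdd Y Om) (S : TS Y Om n) (hv : NVS S) (hcop : PC Om S.e) (i i0 : Fin n)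
    (j0 : Fin N) (hl : Lar (fun ν => S.e ν i j0 - S.e ν i0 j0)) :
    ∃ Om' : ℕ → Finset (Fin N → ℤ), (∀ᶠ ν in (Uf : Filter ℕ), Om' ν ⊆ Om ν) ∧ Big Y Om' ∧
      ∀ᶠ ν in (Uf : Filter ℕ), ∀ t ∈ Om' ν, ∀ t' ∈ Om' ν, t j0 = t' j0 := by
  classical
  obtain ⟨Om1, h1, h2, h3⟩ := gct hY hG hb S hv
  obtain ⟨C, h3⟩ := h3 i i0
  obtain ⟨E, hE⟩ := small_exps S.e
  have hlj : Lar (fun ν => S.e ν i j0) := fun m => by
    filter_upwards [hl m] with ν hν
    omega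
  have hcop' : ∀ᶠ ν in (Uf : Filter ℕ), ∀ j, (∃ i, Lar (fun ν => S.e ν i j)) → j ≠ j0 →
      ∀ t ∈ Om ν, IsCoprime (t j0) (t j) := by
    rw [Filter.eventually_all]
    intro j
    by_cases hj : (∃ i, Lar (fun ν => S.e ν i j)) ∧ j ≠ j0
    · filter_upwards [hcop j0 j hj.2.symm ⟨i, hlj⟩ hj.1] with ν hν _ _
      exact hν
    · exact Filter.Eventually.of_forall fun ν h h' => absurd ⟨h, h'⟩ hj
  obtain ⟨Om', h4, h5, h6⟩ := h2.fiber (fun ν t => t j0) (fun ν => (Om1 ν).image fun t => t j0)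
    (Filter.Eventually.of_forall fun ν t ht => Finset.mem_image_of_mem _ ht) (by
      intro m
      obtain ⟨Y₀, hY₀⟩ := hSC N (4 * m)
      filter_upwards [h1, h2.nonempty, h3, hb, hcop', hE, S.hu,
        hl ((C + 2 * (N * E) + 1) * (4 * m) + 1),
        hY (2 ^ (4 * m)), hY 2, hY Y₀] with ν g1 g2 g3 g4 g5 g6 g7 g8 g9 g10 g11
      obtain ⟨t', ht'⟩ := g2
      refine few_bases (C' := C + 2 * (N * E) + 1) (e0 := S.e ν i j0 - S.e ν i0 j0) (by omega)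
        (by omega) g9 g10 g11
        hY₀ (Finset.univ.filter fun j => ∃ i, Lar (fun ν => S.e ν i j))
        (fun j => S.e ν i j - S.e ν i0 j) t' (g4 t' (g1 ht')) _ ?_
      intro v hv
      obtain ⟨t, ht, rfl⟩ := Finset.mem_image.1 hv
      have k1 := g4 t (g1 ht)
      have k1' := g4 t' (g1 ht')
      refine ⟨(k1 j0).1, (k1 j0).2, ?_⟩
      obtain ⟨r, r', hr, hr', hr1, hr2, hrr⟩ := g3 t ht t' ht'
      refine ⟨_, ?_, ?_, core_dvd2 (g7 i).1 (g7 i0).1 (fun j => (k1 j).1) (fun j => (k1' j).1) hrr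
        (L := Finset.univ.filter fun j => ∃ i, Lar (fun ν => S.e ν i j))
        (Finset.mem_filter.2 ⟨Finset.mem_univ _, ⟨i, hlj⟩⟩) (by omega)
        fun j hj hjj => g5 j (Finset.mem_filter.1 hj).2 hjj t (g1 ht)⟩
      · refine mul_ne_zero (mul_ne_zero hr' ?_) ?_
        · exact Finset.prod_ne_zero_iff.2 fun j _ => pow_ne_zero _ (k1' j).1
        · exact Finset.prod_ne_zero_iff.2 fun j _ => pow_ne_zero _ (k1 j).1
      · have a0 : (1 : ℤ) ≤ (Y ν : ℤ) + 2 := by omega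
        rw [abs_mul, abs_mul]
        have q1 := small_prod (Finset.univ.filter fun j => ∃ i, Lar (fun ν => S.e ν i j))ᶜ
          (S.e ν i) t' (y := Y ν) (E := E) k1' (fun j hj => g6 i j (by
            rw [Finset.mem_compl, Finset.mem_filter, not_and] at hj
            exact fun h => hj (Finset.mem_univ _) ⟨i, h⟩))
        have q2 := small_prod (Finset.univ.filter fun j => ∃ i, Lar (fun ν => S.e ν i j))ᶜ
          (S.e ν i0) t (y := Y ν) (E := E) k1 (fun j hj => g6 i0 j (by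
            rw [Finset.mem_compl, Finset.mem_filter, not_and] at hj
            exact fun h => hj (Finset.mem_univ _) ⟨i0, h⟩))
        have q3 := mul_le_mul (mul_le_mul hr2 q1 (abs_nonneg _) (by positivity)) q2
          (abs_nonneg _) (by positivity)
        refine q3.trans ?_
        rw [← pow_add, ← pow_add]
        exact pow_le_pow_right₀ a0 (by omega))
  refine ⟨Om', ?_, h5, h6⟩
  filter_upwards [h1, h4] with ν a b
  exact b.trans a

theorem NVS.res {S : TS Y Om n} (hv : NVS S) {Om' : ℕ → Finset (Fin N → ℤ)}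
    (h : ∀ᶠ ν in (Uf : Filter ℕ), Om' ν ⊆ Om ν) : NVS (S.res h) := by
  unfold NVS
  filter_upwards [hv, h] with ν a b t ht
  exact a t (b ht)

/-- coprime bases with infinite exponent differences are constant on a large subset -/
theorem lcc (hY : ∀ m : ℕ, ∀ᶠ ν in (Uf : Filter ℕ), m ≤ Y ν)
    (hG : Big Y Om) (hb : Bdd Y Om) (S : TS Y Om n) (hv : NVS S) (hcop : PC Om S.e) :
    ∃ Om' : ℕ → Finset (Fin N → ℤ), (∀ᶠ ν in (Uf : Filter ℕ), Om' ν ⊆ Om ν) ∧ Big Y Om' ∧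
      ∀ j, (∃ i i', Lar (fun ν => S.e ν i j - S.e ν i' j)) → ∀ᶠ ν in (Uf : Filter ℕ),
        ∀ t ∈ Om' ν, ∀ t' ∈ Om' ν, t j = t' j := by
  classical
  obtain ⟨Om', h1, h2, h3⟩ := Big.const_all (Y := Y)
    (Finset.univ.filter fun j : Fin N => ∃ i i', Lar (fun ν => S.e ν i j - S.e ν i' j))
    (fun j _ t => t j) hG (by
      intro j hj A' hA' hbig
      obtain ⟨i, i', hi⟩ := (Finset.mem_filter.1 hj).2
      refine lcc_step hY hbig (hb.res hA') (S.res hA') (hv.res hA') ?_ i i' j hi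
      intro j k hjk hj hk
      filter_upwards [hA', hcop j k hjk hj hk] with ν a b t ht
      exact b t (a ht))
  exact ⟨Om', h1, h2, fun j hj => h3 j (Finset.mem_filter.2 ⟨Finset.mem_univ _, hj⟩)⟩

end

end Pool.Agent.Y902.GN
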