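import Mathlib
import Pool.Agent.Y902.GN.Lar

/-!
# From sequences of counterexamples to internal sets
-/

set_option autoImplicit false

namespace Pool.Agent.Y902.GN

open Filter

section

variable {Y : ℕ → ℕ}

theorem few_rpow (hY : ∀ m : ℕ, ∀ᶠ ν in (Uf : Filter ℕ), m ≤ Y ν) (c : ℕ) :
    Few Y (fun ν => ⌊(c : ℝ) * (Y ν : ℝ) ^ (1 / ((ν : ℝ) + 1))⌋₊ + 1) := by
  intro m
  filter_upwards [hY 1, hY (((c + 1) ^ m) ^ 2), ev_ge (2 * m)] with ν h1 h2 h3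
  have y1 : (1 : ℝ) ≤ (Y ν : ℝ) := by exact_mod_cast h1
  set y : ℝ := (Y ν : ℝ) ^ (1 / ((ν : ℝ) + 1)) with hy
  have hy1 : 1 ≤ y := Real.one_le_rpow y1 (by positivity)
  have h4 : ((⌊(c : ℝ) * y⌋₊ + 1 : ℕ) : ℝ) ≤ ((c : ℝ) + 1) * y := by
    push_cast
    have := Nat.floor_le (show 0 ≤ (c : ℝ) * y by positivity)
    nlinarith
  have h5 : y ^ m ≤ (Y ν : ℝ) ^ ((1 : ℝ) / 2) := by
    rw [hy, ← Real.rpow_natCast, ← Real.rpow_mul (by positivity)]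
    apply Real.rpow_le_rpow_of_exponent_le y1
    rw [one_div_mul_eq_div, div_le_div_iff₀ (by positivity) (by norm_num)]
    have : ((2 * m : ℕ) : ℝ) ≤ (ν : ℝ) := by exact_mod_cast h3
    push_cast at this
    linarith
  have h6 : ((c : ℝ) + 1) ^ m ≤ (Y ν : ℝ) ^ ((1 : ℝ) / 2) := by
    have h7 : (((c : ℝ) + 1) ^ m) ^ 2 ≤ (Y ν : ℝ) := by exact_mod_cast h2
    rw [← Real.sqrt_eq_rpow]
    exact Real.le_sqrt_of_sq_le h7
  have h7 : (((⌊(c : ℝ) * y⌋₊ + 1 : ℕ) : ℝ)) ^ m ≤ (Y ν : ℝ) := by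
    calc (((⌊(c : ℝ) * y⌋₊ + 1 : ℕ) : ℝ)) ^ m ≤ (((c : ℝ) + 1) * y) ^ m :=
          pow_le_pow_left₀ (by positivity) h4 m
      _ = ((c : ℝ) + 1) ^ m * y ^ m := mul_pow _ _ _
      _ ≤ (Y ν : ℝ) ^ ((1 : ℝ) / 2) * (Y ν : ℝ) ^ ((1 : ℝ) / 2) :=
          mul_le_mul h6 h5 (by positivity) (by positivity)
      _ = (Y ν : ℝ) := by
          rw [← Real.rpow_add (by positivity)]
          norm_num
  exact_mod_cast h7

/-- an exponent bound from a bound for a power of two -/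
theorem exp_bd {e : ℕ} {c y : ℝ} (h : (2 : ℝ) ^ e ≤ c) (hc : c ≤ Real.exp y) :
    e < ⌊((2 : ℕ) : ℝ) * y⌋₊ + 1 := by
  have h1 := h.trans hc
  have h2 : Real.log ((2 : ℝ) ^ e) ≤ y := by
    rw [Real.log_le_iff_le_exp (by positivity)]
    exact h1
  rw [Real.log_pow] at h2
  have h3 : (1 : ℝ) / 2 < Real.log 2 := by
    have := Real.log_two_gt_d9
    linarith
  have h4 : (e : ℝ) ≤ ((2 : ℕ) : ℝ) * y := by
    push_cast
    nlinarith [(Nat.cast_nonneg e : (0 : ℝ) ≤ (e : ℝ))]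
  have h5 := Nat.le_floor h4
  omega

theorem big_of_card {α : Type*} {ε : ℝ} (hε : 0 < ε) {T : ℕ → Finset α}
    (h2 : ∀ᶠ ν in (Uf : Filter ℕ), 2 ≤ Y ν)
    (h : ∀ᶠ ν in (Uf : Filter ℕ), (Y ν : ℝ) ^ ε < ((T ν).card : ℝ)) : Big Y T := by
  obtain ⟨m, hm⟩ := exists_nat_ge (2 / ε)
  refine ⟨m, ?_⟩
  filter_upwards [h, h2] with ν h1 h2
  have y2 : (2 : ℝ) ≤ (Y ν : ℝ) := by exact_mod_cast h2
  have y0 : (0 : ℝ) ≤ (Y ν : ℝ) := by linarith
  have h3 : (Y ν : ℝ) ^ (2 : ℝ) ≤ ((T ν).card : ℝ) ^ m := by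
    calc (Y ν : ℝ) ^ (2 : ℝ) ≤ (Y ν : ℝ) ^ (ε * m) := by
          apply Real.rpow_le_rpow_of_exponent_le (by linarith)
          rw [div_le_iff₀ hε] at hm
          linarith
      _ = ((Y ν : ℝ) ^ ε) ^ m := by rw [Real.rpow_mul y0, Real.rpow_natCast]
      _ ≤ ((T ν).card : ℝ) ^ m := pow_le_pow_left₀ (by positivity) h1.le m
  have h4 : (Y ν : ℝ) + 2 ≤ (Y ν : ℝ) ^ (2 : ℝ) := by
    rw [Real.rpow_two]
    nlinarith
  exact_mod_cast h4.trans h3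

theorem prod_block {m N : ℕ} (t : Fin m → Fin N → ℤ) (e : Fin m → Fin N → ℕ) (i : Fin m) :
    ∏ q : Fin (m * N), (t (finProdFinEquiv.symm q).1 (finProdFinEquiv.symm q).2) ^
      (if (finProdFinEquiv.symm q).1 = i then e i (finProdFinEquiv.symm q).2 else 0) =
      ∏ j, t i j ^ e i j := by
  rw [Fintype.prod_equiv finProdFinEquiv.symm _
    (fun p : Fin m × Fin N => (t p.1 p.2) ^ (if p.1 = i then e i p.2 else 0)) (fun _ => rfl),
    Fintype.prod_prod_type, Finset.prod_eq_single i]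
  · simp
  · intro b _ hb
    simp [hb]
  · intro h
    exact absurd (Finset.mem_univ i) h

/-- an internal image under an injective map -/
theorem big_image {α β : Type*} [DecidableEq β] {A : ℕ → Finset α} (h : Big Y A)
    (f : ℕ → α → β) (hf : ∀ᶠ ν in (Uf : Filter ℕ), Set.InjOn (f ν) (A ν)) :
    Big Y (fun ν => (A ν).image (f ν)) := by
  obtain ⟨m, hm⟩ := h
  refine ⟨m, ?_⟩
  filter_upwards [hm, hf] with ν h1 h2
  rw [Finset.card_image_of_injOn h2]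
  exact h1

end

end Pool.Agent.Y902.GN
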