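import Mathlib
import Pool.Agent.Y902.GN.Lcc
import Pool.Agent.Y902.GN.Seq

/-!
# Sums of `n` terms: the large parts take few values
-/

set_option autoImplicit false

namespace Pool.Agent.Y902.GN

open Filter

/-- the data of a solution -/
structure LpGood (n N E R : ℕ) (δ : ℝ) (Y : ℕ) (u : Fin n → ℤ) (A : Fin n → ℕ)
    (a s : Fin n → ℤ) (x : Fin N → ℕ) (e : Fin n → Fin N → ℕ) : Prop where
  x1 : ∀ j, 1 ≤ x j ∧ x j ≤ Y
  xc : ∀ j k, j ≠ k → (x j).Coprime (x k)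
  s1 : ∀ i, |s i| ≤ (Y : ℤ) ^ E
  ha : ∀ i, a i = s i * ∏ j, (x j : ℤ) ^ e i j
  nz : ∀ i, a i ≠ 0
  gcd : ∀ d : ℕ, (∀ i, (d : ℤ) ∣ a i) → d = 1
  sum : ∑ i, u i * a i = 0
  nvs : ∀ K : Finset (Fin n), K.Nonempty → K ≠ Finset.univ → ∑ i ∈ K, u i * a i ≠ 0
  hi : ∀ i, ((|a i| : ℤ) : ℝ) ≤ Real.exp ((Y : ℝ) ^ δ)
  hA : ∀ i, A i = ∏ j, if R ≤ e i j then x j ^ e i j else 1

section

variable {n N E R : ℕ} {δ : ℝ} {Y : ℕ} {u : Fin n → ℤ} {A : Fin n → ℕ}
    {a s : Fin n → ℤ} {x : Fin N → ℕ} {e : Fin n → Fin N → ℕ}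

/-- exponents of bases equal to one can be put equal to zero -/
theorem LpGood.norm (h : LpGood n N E R δ Y u A a s x e) :
    LpGood n N E R δ Y u A a s x (fun i j => if x j = 1 then 0 else e i j) := by
  refine ⟨h.x1, h.xc, h.s1, fun i => ?_, h.nz, h.gcd, h.sum, h.nvs, h.hi, fun i => ?_⟩
  · rw [h.ha i]
    congr 1
    refine Finset.prod_congr rfl fun j _ => ?_
    by_cases hj : x j = 1
    · simp [hj]
    · simp [hj]
  · rw [h.hA i]
    refine Finset.prod_congr rfl fun j _ => ?_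
    by_cases hj : x j = 1
    · simp [hj]
    · simp [hj]

theorem LpGood.two_pow (h : LpGood n N E R δ Y u A a s x e) (i : Fin n) (j : Fin N)
    (hj : x j ≠ 1) : (2 : ℝ) ^ e i j ≤ Real.exp ((Y : ℝ) ^ δ) := by
  have hx : 2 ≤ x j := by have := (h.x1 j).1; omega
  have h1 : (x j : ℤ) ^ e i j ∣ a i := by
    rw [h.ha i]
    exact Dvd.dvd.mul_left (Finset.dvd_prod_of_mem (fun j => (x j : ℤ) ^ e i j)
      (Finset.mem_univ j)) _
  have h2 : (x j : ℤ) ^ e i j ≤ |a i| :=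
    Int.le_of_dvd (abs_pos.2 (h.nz i)) ((dvd_abs _ _).2 h1)
  have h3 : (2 : ℤ) ^ e i j ≤ (x j : ℤ) ^ e i j := by
    exact_mod_cast Nat.pow_le_pow_left hx (e i j)
  have h4 : ((2 : ℤ) : ℝ) ^ e i j ≤ ((|a i| : ℤ) : ℝ) := by exact_mod_cast h3.trans h2
  push_cast at h4
  refine le_trans ?_ (h.hi i)
  push_cast
  exact h4

end

theorem LpGood.large {n N E ν Y : ℕ} {u : Fin n → ℤ} {A : Fin n → ℕ}
    {a s : Fin n → ℤ} {x : Fin N → ℕ} {e : Fin n → Fin N → ℕ} (hY : 1 ≤ Y)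
    (h : LpGood n N E ν (1 / ((ν : ℝ) + 1)) Y u A a s x e) (hA : A ≠ fun _ => 1) :
    ν ≤ 2 * Y := by
  obtain ⟨i, hi⟩ : ∃ i, A i ≠ 1 := by
    by_contra hcon
    push Not at hcon
    exact hA (funext hcon)
  rw [h.hA i] at hi
  obtain ⟨j, _, hj⟩ := Finset.exists_ne_one_of_prod_ne_one hi
  by_cases hR : ν ≤ e i j
  swap
  · rw [if_neg hR] at hj; exact absurd rfl hj
  rw [if_pos hR] at hj
  have hx : x j ≠ 1 := by
    intro hx
    rw [hx, one_pow] at hj
    exact hj rfl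
  have y1 : (1 : ℝ) ≤ (Y : ℝ) := by exact_mod_cast hY
  have h3 : (2 : ℝ) ^ ν ≤ Real.exp (Y : ℝ) := by
    calc (2 : ℝ) ^ ν ≤ (2 : ℝ) ^ e i j := pow_le_pow_right₀ (by norm_num) hR
      _ ≤ Real.exp ((Y : ℝ) ^ (1 / ((ν : ℝ) + 1))) := h.two_pow i j hx
      _ ≤ Real.exp (Y : ℝ) := by
          apply Real.exp_le_exp.2
          calc (Y : ℝ) ^ (1 / ((ν : ℝ) + 1)) ≤ (Y : ℝ) ^ (1 : ℝ) := by
                apply Real.rpow_le_rpow_of_exponent_le y1
                rw [div_le_one (by positivity)]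
                have : (0 : ℝ) ≤ (ν : ℝ) := Nat.cast_nonneg _
                linarith
            _ = (Y : ℝ) := Real.rpow_one _
  have h4 : Real.log ((2 : ℝ) ^ ν) ≤ (Y : ℝ) := by
    rw [Real.log_le_iff_le_exp (by positivity)]
    exact h3
  rw [Real.log_pow] at h4
  have h5 : (1 : ℝ) / 2 < Real.log 2 := by
    have := Real.log_two_gt_d9
    linarith
  have h6 : (ν : ℝ) ≤ 2 * (Y : ℝ) := by
    nlinarith [(Nat.cast_nonneg ν : (0 : ℝ) ≤ (ν : ℝ))]
  exact_mod_cast h6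

theorem prod_append {N n : ℕ} (x : Fin N → ℤ) (s : Fin n → ℤ) (e : Fin N → ℕ) (i : Fin n) :
    ∏ q : Fin (N + n), (Fin.append x s q) ^ (Fin.append e (fun i' => if i' = i then 1 else 0) q) =
      s i * ∏ j, x j ^ e j := by
  rw [Fin.prod_univ_add]
  simp only [Fin.append_left, Fin.append_right]
  rw [mul_comm]
  congr 1
  rw [Finset.prod_eq_single i]
  · simp
  · intro b _ hb
    simp [hb]
  · intro h
    exact absurd (Finset.mem_univ i) h

theorem Few.mono_Y {Y Y' f : ℕ → ℕ} (h : Few Y f)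
    (hYY : ∀ᶠ ν in (Uf : Filter ℕ), Y ν ≤ Y' ν) : Few Y' f := by
  intro m
  filter_upwards [h m, hYY] with ν a b
  exact a.trans b

theorem exp_le_two_pow {y : ℝ} (_hy : 0 ≤ y) : Real.exp y ≤ 2 ^ (⌊((2 : ℕ) : ℝ) * y⌋₊ + 1) := by
  have h5 : (1 : ℝ) / 2 < Real.log 2 := by
    have := Real.log_two_gt_d9
    linarith
  have h6 := Nat.lt_floor_add_one (((2 : ℕ) : ℝ) * y)
  rw [← Real.exp_log (show (0 : ℝ) < 2 ^ (⌊((2 : ℕ) : ℝ) * y⌋₊ + 1) by positivity), Real.log_pow]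
  apply Real.exp_le_exp.2
  push_cast at h6 ⊢
  nlinarith

/-- **Large parts.** -/
theorem lp (n N E : ℕ) (ε : ℝ) (hε : 0 < ε) : ∃ (R : ℕ) (δ : ℝ), 0 < δ ∧
    ∀ (Y : ℕ), 1 ≤ Y → ∀ (u : Fin n → ℤ), (∀ i, u i ≠ 0 ∧
      ((|u i| : ℤ) : ℝ) ≤ Real.exp ((Y : ℝ) ^ δ)) → ∀ (T : Finset (Fin n → ℕ)),
      (∀ A ∈ T, ∃ (a s : Fin n → ℤ) (x : Fin N → ℕ) (e : Fin n → Fin N → ℕ),
        LpGood n N E R δ Y u A a s x e) → (T.card : ℝ) ≤ (Y : ℝ) ^ ε := by
  classical
  by_contra hcon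
  push Not at hcon
  have hseq := fun ν : ℕ => hcon ν (1 / ((ν : ℝ) + 1)) (by positivity)
  choose Y0 hY1 u hu T hT hc using hseq
  have hYlarge : ∀ ν, ν ≤ 2 * Y0 ν := by
    intro ν
    have h1 : (1 : ℝ) ≤ (Y0 ν : ℝ) ^ ε := Real.one_le_rpow (by exact_mod_cast hY1 ν) hε.le
    have h2 : 1 < (T ν).card := by exact_mod_cast lt_of_le_of_lt h1 (hc ν)
    obtain ⟨A, hA, A', hA', hne⟩ := Finset.one_lt_card.1 h2
    by_cases h3 : A = fun _ => 1
    · obtain ⟨a, s, x, e, h⟩ := hT ν A' hA'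
      exact h.large (hY1 ν) (fun h4 => hne (h3.trans h4.symm))
    · obtain ⟨a, s, x, e, h⟩ := hT ν A hA
      exact h.large (hY1 ν) h3
  have hY0 : ∀ m : ℕ, ∀ᶠ ν in (Uf : Filter ℕ), m ≤ Y0 ν := by
    intro m
    filter_upwards [ev_ge (2 * m)] with ν hν
    have := hYlarge ν
    omega
  obtain ⟨Y, hYd⟩ : ∃ Y : ℕ → ℕ, ∀ ν, Y ν = Y0 ν ^ (E + 1) := ⟨_, fun _ => rfl⟩
  have hYY : ∀ ν, Y0 ν ≤ Y ν := fun ν => by
    rw [hYd]
    exact Nat.le_self_pow (by omega) _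
  have hY : ∀ m : ℕ, ∀ᶠ ν in (Uf : Filter ℕ), m ≤ Y ν := fun m =>
    (hY0 m).mono fun ν hν => hν.trans (hYY ν)
  have hYYe : ∀ᶠ ν in (Uf : Filter ℕ), Y0 ν ≤ Y ν := Filter.Eventually.of_forall hYY
  have hbig : Big Y T := by
    refine big_of_card (ε := ε / (E + 1)) (by positivity) (hY 2) (Filter.Eventually.of_forall
      fun ν => ?_)
    rw [hYd]
    push_cast
    rw [← Real.rpow_natCast, ← Real.rpow_mul (by positivity)]
    have : ((E + 1 : ℕ) : ℝ) * (ε / ((E : ℝ) + 1)) = ε := by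
      push_cast
      field_simp
    rw [this]
    exact hc ν
  -- representations
  have hrep : ∀ ν, ∀ A ∈ T ν, ∃ (a s : Fin n → ℤ) (x : Fin N → ℕ) (e : Fin n → Fin N → ℕ),
      LpGood n N E ν (1 / ((ν : ℝ) + 1)) (Y0 ν) (u ν) A a s x e ∧ ∀ i j, e i j <
        ⌊((2 : ℕ) : ℝ) * (Y0 ν : ℝ) ^ (1 / ((ν : ℝ) + 1))⌋₊ + 1 := by
    intro ν A hA
    obtain ⟨a, s, x, e, h⟩ := hT ν A hA
    refine ⟨a, s, x, _, h.norm, fun i j => ?_⟩
    by_cases hj : x j = 1
    · simp [hj]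
    · exact exp_bd (h.norm.two_pow i j hj) le_rfl
  choose! a s x e hxe using hrep
  -- constant exponents
  obtain ⟨T', h1, h2, h3⟩ := hbig.fiber (fun ν A => e ν A)
    (fun ν => Fintype.piFinset fun _ : Fin n => Fintype.piFinset fun _ : Fin N =>
      Finset.range (⌊((2 : ℕ) : ℝ) * (Y0 ν : ℝ) ^ (1 / ((ν : ℝ) + 1))⌋₊ + 1))
    (Filter.Eventually.of_forall fun ν A hA => by
      rw [Fintype.mem_piFinset]
      intro i
      rw [Fintype.mem_piFinset]
      intro j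
      rw [Finset.mem_range]
      exact (hxe ν A hA).2 i j) (by
      have h4 := (((few_rpow hY0 2).mono_Y hYYe).pow N).pow n
      refine h4.mono (Filter.Eventually.of_forall fun ν => ?_)
      rw [Fintype.card_piFinset_const, Fintype.card_piFinset_const, Finset.card_range])
  obtain ⟨e0, he0⟩ : ∃ e0 : ℕ → Fin n → Fin N → ℕ, ∀ᶠ ν in (Uf : Filter ℕ),
      (∀ A ∈ T' ν, e ν A = e0 ν) := by
    have h4 : ∀ᶠ ν in (Uf : Filter ℕ), ∃ e0 : Fin n → Fin N → ℕ, ∀ A ∈ T' ν, e ν A = e0 := by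
      filter_upwards [h3, h2.nonempty] with ν a b
      obtain ⟨p0, hp0⟩ := b
      exact ⟨e ν p0, fun p hp => a p hp p0 hp0⟩
    exact h4.choice
  have he0b : ∀ᶠ ν in (Uf : Filter ℕ), ∀ i j, e0 ν i j ≤
      ⌊((2 : ℕ) : ℝ) * (Y0 ν : ℝ) ^ (1 / ((ν : ℝ) + 1))⌋₊ + 1 := by
    filter_upwards [he0, h1, h2.nonempty] with ν a b c i j
    obtain ⟨p0, hp0⟩ := c
    rw [← a p0 hp0]
    exact ((hxe ν p0 (b hp0)).2 i j).le
  have hgood : ∀ᶠ ν in (Uf : Filter ℕ), ∀ A ∈ T' ν,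
      LpGood n N E ν (1 / ((ν : ℝ) + 1)) (Y0 ν) (u ν) A (a ν A) (s ν A) (x ν A) (e0 ν) := by
    filter_upwards [he0, h1] with ν b c A hA
    have := (hxe ν A (c hA)).1
    rwa [b A hA] at this
  -- the points
  obtain ⟨pt, hpt⟩ : ∃ pt : ℕ → (Fin n → ℕ) → Fin (N + n) → ℤ, ∀ ν A, pt ν A =
      Fin.append (fun j => (x ν A j : ℤ)) (s ν A) := ⟨_, fun _ _ => rfl⟩
  obtain ⟨ee, hee⟩ : ∃ ee : ℕ → Fin n → Fin (N + n) → ℕ, ∀ ν i, ee ν i =
      Fin.append (e0 ν i) (fun i' => if i' = i then 1 else 0) := ⟨_, fun _ _ => rfl⟩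
  have hprod : ∀ᶠ ν in (Uf : Filter ℕ), ∀ A ∈ T' ν, ∀ i,
      ∏ q, pt ν A q ^ ee ν i q = a ν A i := by
    filter_upwards [hgood] with ν b A hA i
    rw [hpt, hee, prod_append, (b A hA).ha i]
  have hptl : ∀ ν A j, pt ν A (Fin.castAdd n j) = (x ν A j : ℤ) := by
    intro ν A j
    rw [hpt, Fin.append_left]
  have hinj : ∀ᶠ ν in (Uf : Filter ℕ), Set.InjOn (pt ν) (T' ν) := by
    filter_upwards [hgood] with ν b A hA A' hA' hpp
    have h5 : ∀ j, x ν A j = x ν A' j := by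
      intro j
      have h6 := congrFun hpp (Fin.castAdd n j)
      rw [hptl, hptl] at h6
      exact_mod_cast h6
    funext i
    rw [(b A hA).hA i, (b A' hA').hA i]
    exact Finset.prod_congr rfl fun j _ => by rw [h5 j]
  have hOm := big_image h2 pt hinj
  have hb : Bdd Y (fun ν => (T' ν).image (pt ν)) := by
    filter_upwards [hgood] with ν b t ht q
    obtain ⟨A, hA, rfl⟩ := Finset.mem_image.1 ht
    have h5 := b A hA
    rw [hpt]
    refine Fin.addCases (fun j => ?_) (fun i => ?_) q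
    · rw [Fin.append_left]
      have h6 := h5.x1 j
      refine ⟨?_, ?_⟩
      · have : x ν A j ≠ 0 := by omega
        exact_mod_cast this
      · rw [abs_of_nonneg (by positivity)]
        exact_mod_cast h6.2.trans (hYY ν)
    · rw [Fin.append_right]
      refine ⟨?_, ?_⟩
      · intro h7
        apply h5.nz i
        rw [h5.ha i, h7, zero_mul]
      · refine (h5.s1 i).trans ?_
        rw [hYd]
        push_cast
        exact pow_le_pow_right₀ (by exact_mod_cast hY1 ν) (by omega)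
  have hfew : Few Y (fun ν => ∑ i, ∑ q, ee ν i q) := by
    have h4 := (Few.const hY (n * (N + n))).mul ((few_rpow hY0 2).mono_Y hYYe)
    refine h4.mono ?_
    filter_upwards [he0b] with ν b
    calc ∑ i, ∑ q, ee ν i q ≤ ∑ _i : Fin n, ∑ _q : Fin (N + n),
          (⌊((2 : ℕ) : ℝ) * (Y0 ν : ℝ) ^ (1 / ((ν : ℝ) + 1))⌋₊ + 1) := by
          refine Finset.sum_le_sum fun i _ => Finset.sum_le_sum fun q _ => ?_
          rw [hee]
          refine Fin.addCases (fun j => ?_) (fun i' => ?_) q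
          · rw [Fin.append_left]
            exact b _ _
          · rw [Fin.append_right]
            split_ifs <;> omega
      _ = _ := by simp; ring
  let S : TS Y (fun ν => (T' ν).image (pt ν)) n :=
    { e := ee
      u := u
      w := fun ν => ⌊((2 : ℕ) : ℝ) * (Y0 ν : ℝ) ^ (1 / ((ν : ℝ) + 1))⌋₊ + 1
      he := hfew
      hu := Filter.Eventually.of_forall fun ν i => ⟨(hu ν i).1, by
        have h5 := (hu ν i).2.trans (exp_le_two_pow (by positivity))
        exact_mod_cast h5⟩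
      hw := (few_rpow hY0 2).mono_Y hYYe
      sum0 := by
        filter_upwards [hprod, hgood] with ν b c t ht
        obtain ⟨A, hA, rfl⟩ := Finset.mem_image.1 ht
        simp only [b A hA]
        exact (c A hA).sum }
  have hST : ∀ᶠ ν in (Uf : Filter ℕ), ∀ A ∈ T' ν, ∀ i, S.T ν i (pt ν A) = u ν i * a ν A i := by
    filter_upwards [hprod] with ν b A hA i
    show u ν i * ∏ q, pt ν A q ^ ee ν i q = _
    rw [b A hA i]
  have hv : NVS S := by
    unfold NVS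
    filter_upwards [hST, hgood] with ν b c t ht K hK1 hK2
    obtain ⟨A, hA, rfl⟩ := Finset.mem_image.1 ht
    rw [Finset.sum_congr rfl fun i _ => b A hA i]
    exact (c A hA).nvs K hK1 hK2
  -- variables with infinite exponents are bases
  have hlv : ∀ q : Fin (N + n), (∃ i, Lar (fun ν => ee ν i q)) → ∃ j, q = Fin.castAdd n j := by
    intro q
    refine Fin.addCases (fun j _ => ⟨j, rfl⟩) (fun i' => ?_) q
    rintro ⟨i, hi⟩
    exfalso
    obtain ⟨ν, hν⟩ := (hi 2).exists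
    simp only [hee, Fin.append_right] at hν
    split_ifs at hν <;> omega
  have hcop : PC (fun ν => (T' ν).image (pt ν)) S.e := by
    intro q q' hqq hq hq'
    obtain ⟨j, rfl⟩ := hlv q hq
    obtain ⟨j', rfl⟩ := hlv q' hq'
    filter_upwards [hgood] with ν b t ht
    obtain ⟨A, hA, rfl⟩ := Finset.mem_image.1 ht
    rw [hptl, hptl]
    exact Nat.isCoprime_iff_coprime.2 ((b A hA).xc j j' fun h => hqq (by rw [h]))
  obtain ⟨Om', g1, g2, g3⟩ := lcc hY hOm hb S hv hcop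
  -- all large bases are constant
  have hconst : ∀ᶠ ν in (Uf : Filter ℕ), ∀ i j, ν ≤ e0 ν i j → ∀ t ∈ Om' ν, ∀ t' ∈ Om' ν,
      t (Fin.castAdd n j) = t' (Fin.castAdd n j) := by
    rw [Filter.eventually_all]
    intro i
    rw [Filter.eventually_all]
    intro j
    by_cases hl : ∃ i1 i2, Lar (fun ν => ee ν i1 (Fin.castAdd n j) - ee ν i2 (Fin.castAdd n j))
    · filter_upwards [g3 _ hl] with ν b _
      exact b
    · push Not at hl
      have h5 : ∀ i', ∃ E' : ℕ, ∀ᶠ ν in (Uf : Filter ℕ), e0 ν i j - e0 ν i' j ≤ E' := by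
        intro i'
        have h6 := not_lar (hl i i')
        simp only [hee, Fin.append_left] at h6
        exact h6
      choose E' hE' using h5
      filter_upwards [Filter.eventually_all.2 hE', ev_ge ((∑ i', E' i') + 1), hgood, g1]
        with ν b c d f hν t ht t' ht'
      have h6 : ∀ t ∈ Om' ν, t (Fin.castAdd n j) = 1 := by
        intro t ht
        obtain ⟨A, hA, rfl⟩ := Finset.mem_image.1 (f ht)
        rw [hptl]
        have h7 := (d A hA).gcd (x ν A j) fun i' => by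
          have h8 : E' i' ≤ ∑ i', E' i' :=
            Finset.single_le_sum (f := E') (fun _ _ => Nat.zero_le _) (Finset.mem_univ i')
          have h9 := b i'
          have h10 : e0 ν i' j ≠ 0 := by omega
          rw [(d A hA).ha i']
          exact Dvd.dvd.mul_left ((dvd_pow_self _ h10).trans
            (Finset.dvd_prod_of_mem (fun j => (x ν A j : ℤ) ^ e0 ν i' j) (Finset.mem_univ j))) _
        rw [h7]
        rfl
      rw [h6 t ht, h6 t' ht']
  obtain ⟨ν, k1, k2, k3, k4⟩ := (g1.and (g2.one_lt.and (hconst.and hgood))).exists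
  obtain ⟨t1, ht1, t2, ht2, htne⟩ := Finset.one_lt_card.1 k2
  obtain ⟨A1, hA1, rfl⟩ := Finset.mem_image.1 (k1 ht1)
  obtain ⟨A2, hA2, rfl⟩ := Finset.mem_image.1 (k1 ht2)
  apply htne
  congr 1
  funext i
  rw [(k4 A1 hA1).hA i, (k4 A2 hA2).hA i]
  refine Finset.prod_congr rfl fun j _ => ?_
  by_cases hj : ν ≤ e0 ν i j
  · rw [if_pos hj, if_pos hj]
    have h5 := k3 i j hj _ ht1 _ ht2
    rw [hptl, hptl] at h5
    have h6 : x ν A1 j = x ν A2 j := by exact_mod_cast h5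
    rw [h6]
  · rw [if_neg hj, if_neg hj]

end Pool.Agent.Y902.GN
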