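import Mathlib
import Pool.Agent.Y902.GN.Lp

/-!
# Points on diagonal hypersurfaces with varying coefficients
-/

set_option autoImplicit false

namespace Pool.Agent.Y902.GN

open Filter

/-- the points which are counted -/
structure DhGood (n E d Y : ℕ) (u : Fin n → ℤ) (x s : Fin n → ℤ) : Prop where
  x1 : ∀ i, x i ≠ 0 ∧ |x i| ≤ (Y : ℤ)
  prim : Finset.univ.gcd x = 1
  s1 : ∀ i, s i ≠ 0 ∧ |s i| ≤ (Y : ℤ) ^ E
  sum : ∑ i, u i * (s i * x i ^ d) = 0
  nvs : ∀ K : Finset (Fin n), K.Nonempty → K ≠ Finset.univ → ∑ i ∈ K, u i * (s i * x i ^ d) ≠ 0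

theorem prim_eq {n : ℕ} {x x' : Fin n → ℤ} {i0 : Fin n} (h : Finset.univ.gcd x = 1)
    (h' : Finset.univ.gcd x' = 1) (_h0 : x i0 ≠ 0) (h0' : x' i0 ≠ 0)
    (hs : SignType.sign (x i0) = SignType.sign (x' i0))
    (hx : ∀ i, x i * x' i0 = x' i * x i0) : x = x' := by
  have h1 : x' i0 ∣ x i0 := by
    have e1 : ∀ i ∈ Finset.univ, x' i0 ∣ x i0 * x' i := fun i _ => ⟨x i, by rw [mul_comm, ← hx i]; ring⟩
    have e2 := Finset.dvd_gcd e1
    rw [Finset.gcd_mul_left, h', mul_one] at e2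
    exact (dvd_normalize_iff).1 e2
  have h2 : x i0 ∣ x' i0 := by
    have e1 : ∀ i ∈ Finset.univ, x i0 ∣ x' i0 * x i := fun i _ => ⟨x' i, by
      rw [mul_comm, hx i]; ring⟩
    have e2 := Finset.dvd_gcd e1
    rw [Finset.gcd_mul_left, h, mul_one] at e2
    exact (dvd_normalize_iff).1 e2
  have h3 : x i0 = x' i0 := by
    rcases Int.natAbs_eq_natAbs_iff.1 (Int.natAbs_eq_of_dvd_dvd h2 h1) with h4 | h4
    · exact h4
    · exfalso
      rw [h4, Left.sign_neg] at hs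
      rcases lt_trichotomy (x' i0) 0 with h5 | h5 | h5
      · rw [sign_neg h5] at hs; exact absurd hs (by decide)
      · exact h0' h5
      · rw [sign_pos h5] at hs; exact absurd hs (by decide)
  funext i
  have h4 := hx i
  rw [h3] at h4
  exact mul_right_cancel₀ h0' h4

/-- a nearly constant power has few values -/
theorem few_ratio {y m C' d : ℕ} (hm : 1 ≤ m) (hC' : 1 ≤ C') (hd : C' * (4 * m) ≤ d)
    (hy2 : 2 ^ (4 * m) ≤ y) (hy4 : 4 ≤ y) (c : ℚ) (V : Finset ℚ)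
    (hV : ∀ v ∈ V, ∃ a b ρ ρ' : ℤ, a ≠ 0 ∧ b ≠ 0 ∧ ρ ≠ 0 ∧ ρ' ≠ 0 ∧
      |ρ| ≤ ((y : ℤ) + 2) ^ C' ∧ |ρ'| ≤ ((y : ℤ) + 2) ^ C' ∧ ρ * a ^ d = ρ' * b ^ d ∧
      v = c * ((a : ℚ) / b)) : V.card ^ m ≤ y := by
  classical
  set G : Finset ℕ := (Finset.Icc 1 (y + 2)).filter fun g => g ^ (4 * m) ≤ y + 2 with hG
  have hGc : G.card ^ (4 * m) ≤ y + 2 := card_root (by omega)
  have hGm : ∀ {p : ℤ} {ρ : ℤ}, p ≠ 0 → ρ ≠ 0 → |ρ| ≤ ((y : ℤ) + 2) ^ C' → p ^ d ∣ ρ →
      p.natAbs ∈ G := by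
    intro p ρ hp hρ hρy hd'
    have h1 : 1 ≤ p.natAbs := Int.natAbs_pos.2 hp
    have h2 : p.natAbs ^ d ≤ (y + 2) ^ C' := by
      have h3 : p.natAbs ^ d ∣ ρ.natAbs := by
        rw [← Int.natAbs_pow]
        exact Int.natAbs_dvd_natAbs.2 hd'
      refine (Nat.le_of_dvd (Int.natAbs_pos.2 hρ) h3).trans ?_
      rw [Int.abs_eq_natAbs] at hρy
      exact_mod_cast hρy
    have h3 : p.natAbs ^ (4 * m) ≤ y + 2 := by
      apply pow_root (m := C') (by omega)
      rw [← pow_mul, mul_comm (4 * m) C']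
      exact (Nat.pow_le_pow_right h1 hd).trans h2
    rw [hG, Finset.mem_filter, Finset.mem_Icc]
    exact ⟨⟨h1, (Nat.le_self_pow (by omega) _).trans h3⟩, h3⟩
  have hsub : V ⊆ (({1, -1} : Finset ℚ) ×ˢ (G ×ˢ G)).image
      fun p => c * (p.1 * ((p.2.1 : ℚ) / (p.2.2 : ℚ))) := by
    intro v hv
    obtain ⟨a, b, ρ, ρ', ha, hb, hρ, hρ', h1, h2, h3, h4⟩ := hV v hv
    obtain ⟨g, p, q, hg, hpq, hap, hbq⟩ : ∃ g p q : ℤ, g ≠ 0 ∧ IsCoprime p q ∧ a = p * g ∧
        b = q * g := by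
      obtain ⟨p, q, hp1, hp2⟩ := Int.exists_gcd_one (m := a) (n := b)
        (Int.gcd_pos_of_ne_zero_left _ ha)
      refine ⟨Int.gcd a b, p, q, ?_, Int.isCoprime_iff_gcd_eq_one.2 hp1, hp2.1, hp2.2⟩
      exact_mod_cast (Int.gcd_pos_of_ne_zero_left b ha).ne'
    have hp : p ≠ 0 := fun h => ha (by rw [hap, h, zero_mul])
    have hq : q ≠ 0 := fun h => hb (by rw [hbq, h, zero_mul])
    have h5 : ρ * p ^ d = ρ' * q ^ d := by
      rw [hap, hbq, mul_pow, mul_pow] at h3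
      apply mul_right_cancel₀ (pow_ne_zero d hg)
      linear_combination h3
    have h6 : p ^ d ∣ ρ' := by
      have : p ^ d ∣ ρ' * q ^ d := ⟨ρ, by rw [← h5]; ring⟩
      exact (IsCoprime.pow hpq).dvd_of_dvd_mul_right this
    have h7 : q ^ d ∣ ρ := by
      have : q ^ d ∣ ρ * p ^ d := ⟨ρ', by rw [h5]; ring⟩
      exact (IsCoprime.pow hpq.symm).dvd_of_dvd_mul_right this
    have hpG := hGm hp hρ' h2 h6
    have hqG := hGm hq hρ h1 h7
    have hab : (a : ℚ) / b = (p : ℚ) / q := by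
      have g0 : (g : ℚ) ≠ 0 := by exact_mod_cast hg
      have q0 : (q : ℚ) ≠ 0 := by exact_mod_cast hq
      rw [hap, hbq]
      push_cast
      field_simp
    rw [Finset.mem_image]
    have hsg : ∀ z : ℤ, z ≠ 0 → ∃ σ : ℚ, (σ = 1 ∨ σ = -1) ∧ (z : ℚ) = σ * (z.natAbs : ℚ) := by
      intro z hz
      rcases Int.natAbs_eq z with h8 | h8
      · refine ⟨1, Or.inl rfl, ?_⟩
        rw [one_mul]
        conv_lhs => rw [h8]
        rw [Int.cast_natCast]
      · refine ⟨-1, Or.inr rfl, ?_⟩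
        rw [neg_one_mul]
        conv_lhs => rw [h8]
        rw [Int.cast_neg, Int.cast_natCast]
    obtain ⟨σ, hσ, hpσ⟩ := hsg p hp
    obtain ⟨τ, hτ, hqτ⟩ := hsg q hq
    refine ⟨(σ * τ, p.natAbs, q.natAbs), ?_, ?_⟩
    · rw [Finset.mem_product, Finset.mem_product]
      refine ⟨?_, hpG, hqG⟩
      rcases hσ with rfl | rfl <;> rcases hτ with rfl | rfl <;> simp
    · rw [h4, hab, hpσ, hqτ]
      show c * (σ * τ * (((p.natAbs : ℕ) : ℚ) / ((q.natAbs : ℕ) : ℚ))) = _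
      have hτ2 : τ * τ = 1 := by rcases hτ with rfl | rfl <;> norm_num
      have hτ0 : τ ≠ 0 := by rcases hτ with rfl | rfl <;> norm_num
      have hq0 : ((q.natAbs : ℕ) : ℚ) ≠ 0 := by
        exact_mod_cast Int.natAbs_ne_zero.2 hq
      field_simp
      linear_combination (c * σ) * hτ2
  have hVc : V.card ≤ 2 * (G.card * G.card) := by
    refine (Finset.card_le_card hsub).trans (Finset.card_image_le.trans ?_)
    rw [Finset.card_product, Finset.card_product]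
    exact Nat.mul_le_mul_right _ (Finset.card_le_two)
  apply pow_root (m := 4) (by norm_num)
  calc (V.card ^ m) ^ 4 = V.card ^ (4 * m) := by rw [← pow_mul, mul_comm]
    _ ≤ (2 * (G.card * G.card)) ^ (4 * m) := Nat.pow_le_pow_left hVc _
    _ = 2 ^ (4 * m) * (G.card ^ (4 * m) * G.card ^ (4 * m)) := by rw [mul_pow, mul_pow]
    _ ≤ y * ((y + 2) * (y + 2)) := Nat.mul_le_mul hy2 (Nat.mul_le_mul hGc hGc)
    _ ≤ y * ((y * y) * y) := by
        refine Nat.mul_le_mul_left _ ?_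
        nlinarith
    _ = y ^ 4 := by ring

/-- **Diagonal hypersurfaces.** -/
theorem dh (n E : ℕ) (ε : ℝ) (hε : 0 < ε) : ∃ (R : ℕ) (δ : ℝ), 0 < δ ∧
    ∀ (Y : ℕ), 1 ≤ Y → ∀ d : ℕ, R ≤ d → (d : ℝ) ≤ (Y : ℝ) ^ δ → ∀ (u : Fin n → ℤ),
      (∀ i, u i ≠ 0 ∧ ((|u i| : ℤ) : ℝ) ≤ Real.exp ((Y : ℝ) ^ δ)) →
      ∀ (T : Finset (Fin n → ℤ)), (∀ x ∈ T, ∃ s : Fin n → ℤ, DhGood n E d Y u x s) →
      (T.card : ℝ) ≤ (Y : ℝ) ^ ε := by
  classical
  by_contra hcon
  push Not at hcon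
  have hseq := fun ν : ℕ => hcon ν (1 / ((ν : ℝ) + 1)) (by positivity)
  choose Y0 hY1 d hd1 hd2 u hu T hT hc using hseq
  have hY1' : ∀ ν, (1 : ℝ) ≤ (Y0 ν : ℝ) := fun ν => by exact_mod_cast hY1 ν
  have hdY : ∀ ν, d ν ≤ Y0 ν := by
    intro ν
    have h1 : (d ν : ℝ) ≤ (Y0 ν : ℝ) := by
      refine (hd2 ν).trans ?_
      calc (Y0 ν : ℝ) ^ (1 / ((ν : ℝ) + 1)) ≤ (Y0 ν : ℝ) ^ (1 : ℝ) := by
            apply Real.rpow_le_rpow_of_exponent_le (hY1' ν)
            rw [div_le_one (by positivity)]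
            have : (0 : ℝ) ≤ (ν : ℝ) := Nat.cast_nonneg _
            linarith
        _ = (Y0 ν : ℝ) := Real.rpow_one _
    exact_mod_cast h1
  have hY0 : ∀ m : ℕ, ∀ᶠ ν in (Uf : Filter ℕ), m ≤ Y0 ν := by
    intro m
    filter_upwards [ev_ge m] with ν hν
    exact hν.trans ((hd1 ν).trans (hdY ν))
  obtain ⟨Y, hYd⟩ : ∃ Y : ℕ → ℕ, ∀ ν, Y ν = Y0 ν ^ (E + 1) := ⟨_, fun _ => rfl⟩
  have hYY : ∀ ν, Y0 ν ≤ Y ν := fun ν => by
    rw [hYd]
    exact Nat.le_self_pow (by omega) _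
  have hY : ∀ m : ℕ, ∀ᶠ ν in (Uf : Filter ℕ), m ≤ Y ν := fun m =>
    (hY0 m).mono fun ν hν => hν.trans (hYY ν)
  have hYYe : ∀ᶠ ν in (Uf : Filter ℕ), Y0 ν ≤ Y ν := Filter.Eventually.of_forall hYY
  have hbig : Big Y T := by
    refine big_of_card (ε := ε / (E + 1)) (by positivity) (hY 2) (Filter.Eventually.of_forall
      fun ν => ?_)
    rw [hYd]
    push_cast
    rw [← Real.rpow_natCast, ← Real.rpow_mul (by positivity)]
    have : ((E + 1 : ℕ) : ℝ) * (ε / ((E : ℝ) + 1)) = ε := by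
      push_cast
      field_simp
    rw [this]
    exact hc ν
  choose! s hs using hT
  rcases Nat.eq_zero_or_pos n with hn | hn
  · subst hn
    obtain ⟨ν, h1⟩ := hbig.one_lt.exists
    obtain ⟨t1, _, t2, _, htne⟩ := Finset.one_lt_card.1 h1
    exact htne (Subsingleton.elim _ _)
  let i0 : Fin n := ⟨0, hn⟩
  -- the points
  obtain ⟨pt, hpt⟩ : ∃ pt : ℕ → (Fin n → ℤ) → Fin (n + n) → ℤ, ∀ ν x, pt ν x =
      Fin.append x (s ν x) := ⟨_, fun _ _ => rfl⟩
  obtain ⟨ee, hee⟩ : ∃ ee : ℕ → Fin n → Fin (n + n) → ℕ, ∀ ν i, ee ν i =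
      Fin.append (fun i' => if i' = i then d ν else 0) (fun i' => if i' = i then 1 else 0) :=
    ⟨_, fun _ _ => rfl⟩
  have hprod : ∀ ν x i, ∏ q, pt ν x q ^ ee ν i q = s ν x i * x i ^ d ν := by
    intro ν x i
    rw [hpt, hee, prod_append]
    congr 1
    rw [Finset.prod_eq_single i]
    · simp
    · intro b _ hb
      simp [hb]
    · intro h
      exact absurd (Finset.mem_univ i) h
  have hptl : ∀ ν x j, pt ν x (Fin.castAdd n j) = x j := by
    intro ν A j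
    rw [hpt, Fin.append_left]
  have hinj : ∀ᶠ ν in (Uf : Filter ℕ), Set.InjOn (pt ν) (T ν) := by
    refine Filter.Eventually.of_forall fun ν x _ x' _ hpp => ?_
    funext j
    have h6 := congrFun hpp (Fin.castAdd n j)
    rwa [hptl, hptl] at h6
  have hOm := big_image hbig pt hinj
  have hb : Bdd Y (fun ν => (T ν).image (pt ν)) := by
    refine Filter.Eventually.of_forall fun ν t ht q => ?_
    obtain ⟨x, hx, rfl⟩ := Finset.mem_image.1 ht
    have h5 := hs ν x hx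
    rw [hpt]
    refine Fin.addCases (fun j => ?_) (fun i => ?_) q
    · rw [Fin.append_left]
      refine ⟨(h5.x1 j).1, (h5.x1 j).2.trans ?_⟩
      exact_mod_cast hYY ν
    · rw [Fin.append_right]
      refine ⟨(h5.s1 i).1, (h5.s1 i).2.trans ?_⟩
      rw [hYd]
      push_cast
      exact pow_le_pow_right₀ (by exact_mod_cast hY1 ν) (by omega)
  have hfew : Few Y (fun ν => ∑ i, ∑ q, ee ν i q) := by
    have h4 := (Few.const hY (n * (n + n))).mul ((few_rpow hY0 1).mono_Y hYYe)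
    refine h4.mono (Filter.Eventually.of_forall fun ν => ?_)
    have hdν : d ν ≤ ⌊((1 : ℕ) : ℝ) * (Y0 ν : ℝ) ^ (1 / ((ν : ℝ) + 1))⌋₊ := by
      apply Nat.le_floor
      rw [Nat.cast_one, one_mul]
      exact hd2 ν
    calc ∑ i, ∑ q, ee ν i q ≤ ∑ _i : Fin n, ∑ _q : Fin (n + n),
          (⌊((1 : ℕ) : ℝ) * (Y0 ν : ℝ) ^ (1 / ((ν : ℝ) + 1))⌋₊ + 1) := by
          refine Finset.sum_le_sum fun i _ => Finset.sum_le_sum fun q _ => ?_
          rw [hee]
          refine Fin.addCases (fun j => ?_) (fun i' => ?_) q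
          · rw [Fin.append_left]
            split_ifs <;> omega
          · rw [Fin.append_right]
            split_ifs <;> omega
      _ = _ := by simp; ring
  let S : TS Y (fun ν => (T ν).image (pt ν)) n :=
    { e := ee
      u := u
      w := fun ν => ⌊((2 : ℕ) : ℝ) * (Y0 ν : ℝ) ^ (1 / ((ν : ℝ) + 1))⌋₊ + 1
      he := hfew
      hu := Filter.Eventually.of_forall fun ν i => ⟨(hu ν i).1, by
        have h5 := (hu ν i).2.trans (exp_le_two_pow (by positivity))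
        exact_mod_cast h5⟩
      hw := (few_rpow hY0 2).mono_Y hYYe
      sum0 := by
        refine Filter.Eventually.of_forall fun ν t ht => ?_
        obtain ⟨x, hx, rfl⟩ := Finset.mem_image.1 ht
        simp only [hprod]
        exact (hs ν x hx).sum }
  have hST : ∀ ν x i, S.T ν i (pt ν x) = u ν i * (s ν x i * x i ^ d ν) := by
    intro ν x i
    show u ν i * ∏ q, pt ν x q ^ ee ν i q = _
    rw [hprod]
  have hv : NVS S := by
    refine Filter.Eventually.of_forall fun ν t ht K hK1 hK2 => ?_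
    obtain ⟨x, hx, rfl⟩ := Finset.mem_image.1 ht
    rw [Finset.sum_congr rfl fun i _ => hST ν x i]
    exact (hs ν x hx).nvs K hK1 hK2
  -- the ratios are constant
  obtain ⟨A1, g1, g2, g3⟩ := Big.const_all (Y := Y) (Finset.univ : Finset (Fin n))
    (fun i _ t => ((t (Fin.castAdd n i) : ℚ) / (t (Fin.castAdd n i0) : ℚ))) hOm (by
      intro i _ A' hA' hbig'
      obtain ⟨Om1, h1, h2, h3⟩ := gct hY hbig' (hb.res hA') (S.res hA') (hv.res hA')
      obtain ⟨C, h3⟩ := h3 i i0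
      obtain ⟨Om', h4, h5, h6⟩ := h2.fiber
        (fun _ t => ((t (Fin.castAdd n i) : ℚ) / (t (Fin.castAdd n i0) : ℚ)))
        (fun ν => (Om1 ν).image fun t => ((t (Fin.castAdd n i) : ℚ) / (t (Fin.castAdd n i0) : ℚ)))
        (Filter.Eventually.of_forall fun ν t ht => Finset.mem_image_of_mem _ ht) (by
          intro m
          rcases Nat.eq_zero_or_pos m with hm | hm
          · subst hm
            filter_upwards [hY 1] with ν hν
            rw [pow_zero]; exact hν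
          filter_upwards [h1, hA', h2.nonempty, h3, hb, ev_ge ((C + 2 + 1) * (4 * m)),
            hY (2 ^ (4 * m)), hY 4] with ν k1 k2 k3 k4 k5 k6 k7 k8
          obtain ⟨t', ht'⟩ := k3
          have hmem : ∀ t ∈ Om1 ν, ∃ x ∈ T ν, t = pt ν x := fun t ht => by
            obtain ⟨x, hx, rfl⟩ := Finset.mem_image.1 (k2 (k1 ht))
            exact ⟨x, hx, rfl⟩
          obtain ⟨x', hx', rfl⟩ := hmem t' ht'
          refine few_ratio (C' := C + 2 + 1) (d := d ν) hm (by omega) (k6.trans (hd1 ν)) k7 k8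
            ((x' i : ℚ) / (x' i0 : ℚ)) _ ?_
          intro v hv
          obtain ⟨t, ht, rfl⟩ := Finset.mem_image.1 hv
          obtain ⟨x, hx, rfl⟩ := hmem t ht
          obtain ⟨r, r', hr, hr', hr1, hr2, hrr⟩ := k4 _ ht _ ht'
          have G := hs ν x hx
          have G' := hs ν x' hx'
          have e1 : r * ((u ν i * (s ν x i * x i ^ d ν)) * (u ν i0 * (s ν x' i0 * x' i0 ^ d ν))) =
              r' * ((u ν i * (s ν x' i * x' i ^ d ν)) * (u ν i0 * (s ν x i0 * x i0 ^ d ν))) := by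
            rw [← hST, ← hST, ← hST, ← hST]
            exact hrr
          have e2 : (r * s ν x i * s ν x' i0) * (x i * x' i0) ^ d ν =
              (r' * s ν x' i * s ν x i0) * (x' i * x i0) ^ d ν := by
            apply mul_left_cancel₀ (mul_ne_zero (hu ν i).1 (hu ν i0).1)
            rw [mul_pow, mul_pow]
            linear_combination e1
          have a0 : (1 : ℤ) ≤ (Y ν : ℤ) + 2 := by omega
          have hsb : ∀ x ∈ T ν, ∀ i, |s ν x i| ≤ ((Y ν : ℤ) + 2) := by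
            intro x hx i
            have := (k5 _ (Finset.mem_image_of_mem (pt ν) hx) (Fin.natAdd n i)).2
            rw [hpt, Fin.append_right] at this
            linarith
          have hbd : ∀ {r a b : ℤ}, |r| ≤ ((Y ν : ℤ) + 2) ^ C → |a| ≤ ((Y ν : ℤ) + 2) →
              |b| ≤ ((Y ν : ℤ) + 2) → |r * a * b| ≤ ((Y ν : ℤ) + 2) ^ (C + 2 + 1) := by
            intro r a b q1 q2 q3
            rw [abs_mul, abs_mul]
            have q4 := mul_le_mul (mul_le_mul q1 q2 (abs_nonneg _) (by positivity)) q3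
              (abs_nonneg _) (by positivity)
            refine q4.trans ?_
            rw [← pow_succ, ← pow_succ]
            exact pow_le_pow_right₀ a0 (by omega)
          refine ⟨x i * x' i0, x' i * x i0, r * s ν x i * s ν x' i0, r' * s ν x' i * s ν x i0,
            mul_ne_zero (G.x1 i).1 (G'.x1 i0).1, mul_ne_zero (G'.x1 i).1 (G.x1 i0).1,
            mul_ne_zero (mul_ne_zero hr (G.s1 i).1) (G'.s1 i0).1,
            mul_ne_zero (mul_ne_zero hr' (G'.s1 i).1) (G.s1 i0).1,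
            hbd hr1 (hsb x hx i) (hsb x' hx' i0), hbd hr2 (hsb x' hx' i) (hsb x hx i0), e2, ?_⟩
          rw [hptl, hptl]
          have n1 : (x' i : ℚ) ≠ 0 := by exact_mod_cast (G'.x1 i).1
          have n2 : (x' i0 : ℚ) ≠ 0 := by exact_mod_cast (G'.x1 i0).1
          have n3 : (x i0 : ℚ) ≠ 0 := by exact_mod_cast (G.x1 i0).1
          push_cast
          field_simp)
      exact ⟨Om', (h1.and h4).mono fun ν h => h.2.trans h.1, h5, h6⟩)
  obtain ⟨A2, g4, g5, g6⟩ := g2.fiber (fun _ t => SignType.sign (t (Fin.castAdd n i0)))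
    (fun _ => Finset.univ) (Filter.Eventually.of_forall fun ν t _ => Finset.mem_univ _)
    (Few.const hY _)
  obtain ⟨ν, k1, k2, k3, k4, k5⟩ := (g1.and (g4.and (g5.one_lt.and (g6.and
    (Filter.eventually_all.2 fun i => g3 i (Finset.mem_univ i)))))).exists
  obtain ⟨t1, ht1, t2, ht2, htne⟩ := Finset.one_lt_card.1 k3
  obtain ⟨x1, hx1, rfl⟩ := Finset.mem_image.1 (k1 (k2 ht1))
  obtain ⟨x2, hx2, rfl⟩ := Finset.mem_image.1 (k1 (k2 ht2))
  apply htne
  congr 1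
  have G1 := hs ν x1 hx1
  have G2 := hs ν x2 hx2
  have hsg := k4 _ ht1 _ ht2
  rw [hptl, hptl] at hsg
  refine prim_eq G1.prim G2.prim (G1.x1 i0).1 (G2.x1 i0).1 hsg fun i => ?_
  have e1 := k5 i _ (k2 ht1) _ (k2 ht2)
  rw [hptl, hptl, hptl, hptl] at e1
  have n2 : (x2 i0 : ℚ) ≠ 0 := by exact_mod_cast (G2.x1 i0).1
  have n3 : (x1 i0 : ℚ) ≠ 0 := by exact_mod_cast (G1.x1 i0).1
  rw [div_eq_div_iff n3 n2] at e1
  exact_mod_cast e1

end Pool.Agent.Y902.GN
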