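import Mathlib
import Pool.Agent.Y902.GN.Dh

/-!
# Linear relations between high powers of two rational numbers, all exponents together
-/

set_option autoImplicit false

namespace Pool.Agent.Y902.GN

/-- the height of `q` is at most `B` -/
def HtLe (B : ℕ) (q : ℚ) : Prop := |q.num| ≤ (B : ℤ) ∧ q.den ≤ B

theorem prim3 {Y : ℕ} {x y : ℚ} (hx : x ≠ 0) (hy : y ≠ 0) (h1 : HtLe Y x) (h2 : HtLe Y y) :
    ∃ v : Fin 3 → ℤ, (∀ i, v i ≠ 0 ∧ |v i| ≤ ((Y ^ 2 : ℕ) : ℤ)) ∧ Finset.univ.gcd v = 1 ∧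
      (v 1 : ℚ) = x * v 0 ∧ (v 2 : ℚ) = y * v 0 := by
  have hxn : x.num ≠ 0 := Rat.num_ne_zero.2 hx
  have hyn : y.num ≠ 0 := Rat.num_ne_zero.2 hy
  have hxd : ((x.den : ℕ) : ℤ) ≠ 0 := by exact_mod_cast x.den_nz
  have hyd : ((y.den : ℕ) : ℤ) ≠ 0 := by exact_mod_cast y.den_nz
  have ex : x * (x.den : ℚ) = x.num := Rat.mul_den_eq_num x
  have ey : y * (y.den : ℚ) = y.num := Rat.mul_den_eq_num y
  obtain ⟨w, hw⟩ : ∃ w : Fin 3 → ℤ, w = ![(x.den : ℤ) * y.den, x.num * y.den, y.num * x.den] :=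
    ⟨_, rfl⟩
  have hw0 : ∀ i, w i ≠ 0 := by
    intro i
    rw [hw]
    fin_cases i
    · exact mul_ne_zero hxd hyd
    · exact mul_ne_zero hxn hyd
    · exact mul_ne_zero hyn hxd
  have hwb : ∀ i, |w i| ≤ ((Y ^ 2 : ℕ) : ℤ) := by
    have e1 : |((x.den : ℕ) : ℤ)| ≤ (Y : ℤ) := by
      rw [abs_of_nonneg (by positivity)]
      exact_mod_cast h1.2
    have e2 : |((y.den : ℕ) : ℤ)| ≤ (Y : ℤ) := by
      rw [abs_of_nonneg (by positivity)]
      exact_mod_cast h2.2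
    intro i
    rw [hw]
    push_cast
    rw [pow_two]
    fin_cases i
    · show |(x.den : ℤ) * y.den| ≤ _
      rw [abs_mul]
      exact mul_le_mul e1 e2 (abs_nonneg _) (by positivity)
    · show |x.num * y.den| ≤ _
      rw [abs_mul]
      exact mul_le_mul h1.1 e2 (abs_nonneg _) (by positivity)
    · show |y.num * x.den| ≤ _
      rw [abs_mul]
      exact mul_le_mul h2.1 e1 (abs_nonneg _) (by positivity)
  obtain ⟨v, hv, hv1⟩ := Finset.extract_gcd w (Finset.univ_nonempty (α := Fin 3))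
  have hv' : ∀ i, w i = Finset.univ.gcd w * v i := fun i => hv i (Finset.mem_univ i)
  have hG : Finset.univ.gcd w ≠ 0 := by
    intro h
    exact hw0 0 (by rw [hv' 0, h, zero_mul])
  refine ⟨v, fun i => ⟨fun h => hw0 i (by rw [hv' i, h, mul_zero]), ?_⟩, hv1, ?_, ?_⟩
  · refine le_trans ?_ (hwb i)
    rw [hv' i, abs_mul]
    exact le_mul_of_one_le_left (abs_nonneg _) (Int.one_le_abs hG)
  · have h3 : ((w 1 : ℤ) : ℚ) = x * (w 0 : ℤ) := by
      rw [hw]
      show ((x.num * y.den : ℤ) : ℚ) = x * ((x.den * y.den : ℤ) : ℚ)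
      push_cast
      rw [← ex]
      ring
    rw [hv' 1, hv' 0] at h3
    push_cast at h3
    have h4 : ((Finset.univ.gcd w : ℤ) : ℚ) ≠ 0 := by exact_mod_cast hG
    exact mul_left_cancel₀ h4 (by rw [h3]; ring)
  · have h3 : ((w 2 : ℤ) : ℚ) = y * (w 0 : ℤ) := by
      rw [hw]
      show ((y.num * x.den : ℤ) : ℚ) = y * ((x.den * y.den : ℤ) : ℚ)
      push_cast
      rw [← ey]
      ring
    rw [hv' 2, hv' 0] at h3
    push_cast at h3
    have h4 : ((Finset.univ.gcd w : ℤ) : ℚ) ≠ 0 := by exact_mod_cast hG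
    exact mul_left_cancel₀ h4 (by rw [h3]; ring)

/-- few pairs of rational numbers have powers of a common high exponent with a short linear
relation -/
theorem few_lin (E : ℕ) (ε : ℝ) (hε : 0 < ε) : ∃ (R : ℕ) (δ : ℝ), 0 < δ ∧
    ∀ Y : ℕ, 1 ≤ Y → ∀ T : Finset (ℚ × ℚ),
      (∀ p ∈ T, p.1 ≠ 0 ∧ p.2 ≠ 0 ∧ HtLe Y p.1 ∧ HtLe Y p.2 ∧ ∃ d : ℕ, R ≤ d ∧
        (d : ℝ) ≤ (Y : ℝ) ^ δ ∧ ∃ s : Fin 3 → ℤ, (∀ i, s i ≠ 0 ∧ |s i| ≤ (Y : ℤ) ^ E) ∧
          (s 0 : ℚ) + s 1 * p.1 ^ d + s 2 * p.2 ^ d = 0) →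
      (T.card : ℝ) ≤ (Y : ℝ) ^ ε := by
  classical
  obtain ⟨R, δ1, hδ1, H⟩ := dh 3 E (ε / 4) (by positivity)
  refine ⟨R + 1, min δ1 (ε / 2), by positivity, fun Y hY T hT => ?_⟩
  have hYr : (1 : ℝ) ≤ (Y : ℝ) := by exact_mod_cast hY
  have hY0 : (0 : ℝ) < (Y : ℝ) := by linarith
  choose! h1 h2 h3 h4 d hd1 hd2 s hs1 hs2 using hT
  have hfib : ∀ d0 ∈ T.image d, (T.filter fun p => d p = d0).card ≤ ⌊(Y : ℝ) ^ (ε / 2)⌋₊ := by
    intro d0 hd0
    obtain ⟨p0, hp0, rfl⟩ := Finset.mem_image.1 hd0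
    apply Nat.le_floor
    have hv : ∀ p ∈ T, ∃ v : Fin 3 → ℤ, (∀ i, v i ≠ 0 ∧ |v i| ≤ ((Y ^ 2 : ℕ) : ℤ)) ∧
        Finset.univ.gcd v = 1 ∧ (v 1 : ℚ) = p.1 * v 0 ∧ (v 2 : ℚ) = p.2 * v 0 :=
      fun p hp => prim3 (h1 p hp) (h2 p hp) (h3 p hp) (h4 p hp)
    choose! v hv1 hv2 hv3 hv4 using hv
    have hinj : Set.InjOn v (T.filter fun p => d p = d p0 : Finset (ℚ × ℚ)) := by
      intro p hp q hq hpq
      have hp' := (Finset.mem_filter.1 (Finset.mem_coe.1 hp)).1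
      have hq' := (Finset.mem_filter.1 (Finset.mem_coe.1 hq)).1
      have h0 : ((v p 0 : ℤ) : ℚ) ≠ 0 := by exact_mod_cast (hv1 p hp' 0).1
      have e1 := hv3 p hp'
      have e2 := hv3 q hq'
      have e3 := hv4 p hp'
      have e4 := hv4 q hq'
      rw [← hpq] at e2 e4
      refine Prod.ext ?_ ?_
      · exact mul_right_cancel₀ h0 (e1.symm.trans e2)
      · exact mul_right_cancel₀ h0 (e3.symm.trans e4)
    rw [← Finset.card_image_of_injOn hinj]
    have hYY : ((Y ^ 2 : ℕ) : ℝ) = (Y : ℝ) ^ (2 : ℝ) := by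
      rw [Nat.cast_pow, ← Real.rpow_natCast]
      norm_num
    have key := H (Y ^ 2) (Nat.one_le_pow _ _ hY) (d p0) (by have := hd1 p0 hp0; omega) (by
      refine (hd2 p0 hp0).trans ?_
      calc (Y : ℝ) ^ (min δ1 (ε / 2)) ≤ (Y : ℝ) ^ δ1 :=
            Real.rpow_le_rpow_of_exponent_le hYr (min_le_left _ _)
        _ ≤ ((Y ^ 2 : ℕ) : ℝ) ^ δ1 := by
            apply Real.rpow_le_rpow hY0.le _ hδ1.le
            rw [Nat.cast_pow]
            nlinarith) (fun _ => 1) (fun i => ⟨one_ne_zero, by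
        simp only [abs_one, Int.cast_one]
        exact Real.one_le_exp (by positivity)⟩)
      ((T.filter fun p => d p = d p0).image v) (by
        intro x hx
        obtain ⟨p, hp, rfl⟩ := Finset.mem_image.1 hx
        obtain ⟨hp1, hp2⟩ := Finset.mem_filter.1 hp
        have hsum : ∑ i, (1 : ℤ) * (s p i * v p i ^ d p0) = 0 := by
          have e0 : ((v p 0 : ℤ) : ℚ) ^ d p0 ≠ 0 := pow_ne_zero _ (by
            exact_mod_cast (hv1 p hp1 0).1)
          have e1 := hs2 p hp1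
          rw [hp2] at e1
          have e2 : ((∑ i, (1 : ℤ) * (s p i * v p i ^ d p0) : ℤ) : ℚ) = 0 := by
            rw [Fin.sum_univ_three]
            push_cast
            rw [hv3 p hp1, hv4 p hp1, mul_pow, mul_pow]
            linear_combination ((v p 0 : ℤ) : ℚ) ^ d p0 * e1
          exact_mod_cast e2
        have hne : ∀ i, (1 : ℤ) * (s p i * v p i ^ d p0) ≠ 0 := fun i => by
          rw [one_mul]
          exact mul_ne_zero (hs1 p hp1 i).1 (pow_ne_zero _ (hv1 p hp1 i).1)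
        refine ⟨s p, hv1 p hp1, hv2 p hp1, fun i => ⟨(hs1 p hp1 i).1,
          (hs1 p hp1 i).2.trans (pow_le_pow_left₀ (by positivity) ?_ _)⟩, hsum, ?_⟩
        · push_cast
          have : (1 : ℤ) ≤ (Y : ℤ) := by exact_mod_cast hY
          nlinarith
        · intro K hK1 hK2 hK3
          have hc : ∑ i ∈ Kᶜ, (1 : ℤ) * (s p i * v p i ^ d p0) = 0 := by
            have := Finset.sum_add_sum_compl K fun i => (1 : ℤ) * (s p i * v p i ^ d p0)
            rw [hK3, hsum, zero_add] at this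
            exact this
          have hcard : K.card + Kᶜ.card = 3 := by
            rw [Finset.card_add_card_compl, Fintype.card_fin]
          have hK4 : 1 ≤ K.card := hK1.card_pos
          have hK5 : 1 ≤ Kᶜ.card := by
            rw [Nat.one_le_iff_ne_zero, Ne, Finset.card_eq_zero, Finset.compl_eq_empty_iff]
            exact hK2
          rcases (by omega : K.card = 1 ∨ Kᶜ.card = 1) with h5 | h5
          · obtain ⟨i, rfl⟩ := Finset.card_eq_one.1 h5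
            rw [Finset.sum_singleton] at hK3
            exact hne i hK3
          · obtain ⟨i, hi⟩ := Finset.card_eq_one.1 h5
            rw [hi, Finset.sum_singleton] at hc
            exact hne i hc)
    refine key.trans (le_of_eq ?_)
    rw [hYY, ← Real.rpow_mul hY0.le]
    congr 1
    ring
  have hfin := Finset.card_le_mul_card_image (f := d) T ⌊(Y : ℝ) ^ (ε / 2)⌋₊ hfib
  have himg : ((T.image d).card : ℝ) ≤ (Y : ℝ) ^ (ε / 2) := by
    have h5 : T.image d ⊆ Finset.Icc 1 ⌊(Y : ℝ) ^ (min δ1 (ε / 2))⌋₊ := by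
      intro d0 hd0
      obtain ⟨p0, hp0, rfl⟩ := Finset.mem_image.1 hd0
      exact Finset.mem_Icc.2 ⟨by have := hd1 p0 hp0; omega, Nat.le_floor (hd2 p0 hp0)⟩
    have h6 := Finset.card_le_card h5
    rw [Nat.card_Icc, Nat.add_sub_cancel] at h6
    calc ((T.image d).card : ℝ) ≤ (⌊(Y : ℝ) ^ (min δ1 (ε / 2))⌋₊ : ℝ) := by exact_mod_cast h6
      _ ≤ (Y : ℝ) ^ (min δ1 (ε / 2)) := Nat.floor_le (by positivity)
      _ ≤ (Y : ℝ) ^ (ε / 2) := Real.rpow_le_rpow_of_exponent_le hYr (min_le_right _ _)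
  calc (T.card : ℝ) ≤ ((⌊(Y : ℝ) ^ (ε / 2)⌋₊ * (T.image d).card : ℕ) : ℝ) := by exact_mod_cast hfin
    _ = (⌊(Y : ℝ) ^ (ε / 2)⌋₊ : ℝ) * ((T.image d).card : ℝ) := by push_cast; rfl
    _ ≤ (Y : ℝ) ^ (ε / 2) * (Y : ℝ) ^ (ε / 2) :=
        mul_le_mul (Nat.floor_le (by positivity)) himg (by positivity) (by positivity)
    _ = (Y : ℝ) ^ ε := by
        rw [← Real.rpow_add hY0]
        congr 1
        ring

end Pool.Agent.Y902.GN
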