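import Mathlib
import Pool.Agent.Y902.GN.Dy

/-!
# Heights of rational numbers; points of finite orbits
-/

set_option autoImplicit false

namespace Pool.Agent.Y902.GN

theorem HtLe.of_div {M : ℕ} {q : ℚ} {A B : ℤ} (hB : B ≠ 0) (h : q = (A : ℚ) / (B : ℚ))
    (hA' : |A| ≤ (M : ℤ)) (hB' : |B| ≤ (M : ℤ)) : HtLe M q := by
  have e : q = Rat.divInt A B := by rw [h, Rat.divInt_eq_div]
  have h1 : q.num ∣ A := by rw [e]; exact Rat.num_dvd A hB
  have h2 : ((q.den : ℕ) : ℤ) ∣ B := by rw [e]; exact Rat.den_dvd A B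
  refine ⟨?_, ?_⟩
  · by_cases hA : A = 0
    · have : q = 0 := by rw [h, hA]; simp
      rw [this]
      simp
    · exact (Int.le_of_dvd (abs_pos.2 hA) ((abs_dvd_abs _ _).2 h1)).trans hA'
  · have h3 := Int.le_of_dvd (abs_pos.2 hB) ((dvd_abs _ _).2 h2)
    exact_mod_cast h3.trans hB'

theorem HtLe.mono {M M' : ℕ} {q : ℚ} (h : HtLe M q) (hM : M ≤ M') : HtLe M' q :=
  ⟨h.1.trans (by exact_mod_cast hM), h.2.trans hM⟩

theorem HtLe.den_abs {M : ℕ} {q : ℚ} (h : HtLe M q) : |((q.den : ℕ) : ℤ)| ≤ (M : ℤ) := by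
  rw [abs_of_nonneg (by positivity)]
  exact_mod_cast h.2

theorem HtLe.add {A B : ℕ} {p q : ℚ} (hp : HtLe A p) (hq : HtLe B q) :
    HtLe (2 * (A * B)) (p + q) := by
  have hpd : ((p.den : ℕ) : ℤ) ≠ 0 := by exact_mod_cast p.den_nz
  have hqd : ((q.den : ℕ) : ℤ) ≠ 0 := by exact_mod_cast q.den_nz
  refine HtLe.of_div (A := p.num * q.den + q.num * p.den) (B := p.den * q.den)
    (mul_ne_zero hpd hqd) ?_ ?_ ?_
  · have hpd' : (p.den : ℚ) ≠ 0 := by exact_mod_cast p.den_nz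
    have hqd' : (q.den : ℚ) ≠ 0 := by exact_mod_cast q.den_nz
    push_cast
    rw [← Rat.mul_den_eq_num p, ← Rat.mul_den_eq_num q]
    field_simp
  · refine (abs_add_le _ _).trans ?_
    rw [abs_mul, abs_mul]
    have h1 := mul_le_mul hp.1 hq.den_abs (abs_nonneg _) (by positivity)
    have h2 := mul_le_mul hq.1 hp.den_abs (abs_nonneg _) (by positivity)
    push_cast
    nlinarith
  · rw [abs_mul]
    have h1 := mul_le_mul hp.den_abs hq.den_abs (abs_nonneg _) (by positivity)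
    push_cast
    have h2 : (0 : ℤ) ≤ (A : ℤ) * B := by positivity
    linarith

theorem HtLe.mul {A B : ℕ} {p q : ℚ} (hp : HtLe A p) (hq : HtLe B q) : HtLe (A * B) (p * q) := by
  have hpd : ((p.den : ℕ) : ℤ) ≠ 0 := by exact_mod_cast p.den_nz
  have hqd : ((q.den : ℕ) : ℤ) ≠ 0 := by exact_mod_cast q.den_nz
  refine HtLe.of_div (A := p.num * q.num) (B := p.den * q.den)
    (mul_ne_zero hpd hqd) ?_ ?_ ?_
  · have hpd' : (p.den : ℚ) ≠ 0 := by exact_mod_cast p.den_nz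
    have hqd' : (q.den : ℚ) ≠ 0 := by exact_mod_cast q.den_nz
    push_cast
    rw [← Rat.mul_den_eq_num p, ← Rat.mul_den_eq_num q]
    field_simp
  · rw [abs_mul]
    push_cast
    exact mul_le_mul hp.1 hq.1 (abs_nonneg _) (by positivity)
  · rw [abs_mul]
    push_cast
    exact mul_le_mul hp.den_abs hq.den_abs (abs_nonneg _) (by positivity)

theorem HtLe.neg {A : ℕ} {p : ℚ} (hp : HtLe A p) : HtLe A (-p) := by
  refine ⟨?_, ?_⟩
  · rw [Rat.num_neg_eq_neg_num, abs_neg]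
    exact hp.1
  · rw [Rat.den_neg_eq_den]
    exact hp.2

theorem HtLe.sub {A B : ℕ} {p q : ℚ} (hp : HtLe A p) (hq : HtLe B q) :
    HtLe (2 * (A * B)) (p - q) := by
  rw [sub_eq_add_neg]
  exact hp.add hq.neg

theorem HtLe.pow {A : ℕ} {p : ℚ} (hp : HtLe A p) (n : ℕ) : HtLe (A ^ n) (p ^ n) := by
  refine ⟨?_, ?_⟩
  · rw [Rat.num_pow, abs_pow]
    push_cast
    exact pow_le_pow_left₀ (abs_nonneg _) hp.1 n
  · rw [Rat.den_pow]
    exact Nat.pow_le_pow_left hp.2 n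

theorem HtLe.zero : HtLe 1 0 := by
  refine ⟨?_, ?_⟩ <;> simp

theorem HtLe.sum {A : ℕ} {f : ℕ → ℚ} (h : ∀ i, HtLe A (f i)) (n : ℕ) :
    HtLe ((2 * A) ^ n) (∑ i ∈ Finset.range n, f i) := by
  induction n with
  | zero => simpa using HtLe.zero
  | succ n ih =>
    rw [Finset.sum_range_succ]
    refine (ih.add (h n)).mono (le_of_eq ?_)
    ring

theorem HtLe.one_le {A : ℕ} {p : ℚ} (hp : HtLe A p) : 1 ≤ A := by
  have := hp.2
  have := p.pos
  omega

theorem HtLe.eval {A B k : ℕ} {g : Polynomial ℚ} {w : ℚ} (hg : g.natDegree ≤ k)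
    (hc : ∀ i, HtLe A (g.coeff i)) (hw : HtLe B w) :
    HtLe ((2 * (A * B ^ k)) ^ (k + 1)) (g.eval w) := by
  rw [Polynomial.eval_eq_sum_range' (Nat.lt_succ_of_le hg)]
  have h1 : ∑ i ∈ Finset.range (k + 1), g.coeff i * w ^ i =
      ∑ i ∈ Finset.range (k + 1), if i ≤ k then g.coeff i * w ^ i else 0 := by
    refine Finset.sum_congr rfl fun i hi => ?_
    rw [if_pos (by have := Finset.mem_range.1 hi; omega)]
  rw [h1]
  refine HtLe.sum (fun i => ?_) _
  split_ifs with h2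
  · exact ((hc i).mul (hw.pow i)).mono (Nat.mul_le_mul_left _ (Nat.pow_le_pow_right hw.one_le h2))
  · exact HtLe.zero.mono (Nat.one_le_iff_ne_zero.2 (Nat.mul_ne_zero (by have := (hc 0).one_le; omega)
      (pow_ne_zero _ (by have := hw.one_le; omega))))

/-- the denominator of a point with a given image -/
theorem den_step {a w r c : ℚ} {d : ℕ} (ha : a ≠ 0) (h : a * w ^ d = r - c) :
    w.den ^ d ≤ a.num.natAbs * r.den * c.den := by
  have e1 := Rat.mul_den_eq_num a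
  have e2 := Rat.mul_den_eq_num w
  have e3 := Rat.mul_den_eq_num r
  have e4 := Rat.mul_den_eq_num c
  have key : (a.num * r.den * c.den) * w.num ^ d =
      (r.num * c.den - c.num * r.den) * a.den * (w.den : ℤ) ^ d := by
    have h1 : (((a.num * r.den * c.den) * w.num ^ d : ℤ) : ℚ) =
        (((r.num * c.den - c.num * r.den) * a.den * (w.den : ℤ) ^ d : ℤ) : ℚ) := by
      push_cast
      rw [← e1, ← e2, ← e3, ← e4, mul_pow]
      linear_combination (a.den : ℚ) * r.den * c.den * (w.den : ℚ) ^ d * h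
    exact_mod_cast h1
  have hcop : IsCoprime ((w.den : ℤ) ^ d) (w.num ^ d) := by
    apply IsCoprime.pow
    rw [Int.isCoprime_iff_gcd_eq_one, Int.gcd_comm]
    exact w.reduced
  have hdvd : (w.den : ℤ) ^ d ∣ a.num * r.den * c.den := by
    refine hcop.dvd_of_dvd_mul_right ?_
    exact ⟨(r.num * c.den - c.num * r.den) * a.den, by rw [key]; ring⟩
  have hdvd2 := Int.natAbs_dvd_natAbs.2 hdvd
  rw [Int.natAbs_pow, Int.natAbs_mul, Int.natAbs_mul, Int.natAbs_natCast, Int.natAbs_natCast,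
    Int.natAbs_natCast] at hdvd2
  refine Nat.le_of_dvd ?_ hdvd2
  have h1 : 0 < a.num.natAbs := Int.natAbs_pos.2 (Rat.num_ne_zero.2 ha)
  have h2 := r.pos
  have h3 := c.pos
  positivity

theorem den_bd {Y E K d : ℕ} (_hY : 1 ≤ Y) (hd : 2 * K + 2 * E + 1 ≤ d) {a w r c : ℚ} (ha : a ≠ 0)
    (h : a * w ^ d = r - c) (ha2 : HtLe (Y ^ E) a) (hc : HtLe (Y ^ d) c)
    (hr : r.den ≤ Y ^ E * w.den ^ K) : w.den ≤ Y ^ 2 := by
  have h1 := den_step ha h
  have h2 : a.num.natAbs ≤ Y ^ E := by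
    have := ha2.1
    rw [Int.abs_eq_natAbs] at this
    exact_mod_cast this
  have h3 : w.den ^ (d - K) * w.den ^ K ≤ (Y ^ 2) ^ (d - K) * w.den ^ K := by
    calc w.den ^ (d - K) * w.den ^ K = w.den ^ d := by
          rw [← pow_add]
          congr 1
          omega
      _ ≤ a.num.natAbs * r.den * c.den := h1
      _ ≤ Y ^ E * (Y ^ E * w.den ^ K) * Y ^ d :=
          Nat.mul_le_mul (Nat.mul_le_mul h2 hr) hc.2
      _ = Y ^ (E + E + d) * w.den ^ K := by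
          rw [pow_add, pow_add]
          ring
      _ ≤ (Y ^ 2) ^ (d - K) * w.den ^ K := by
          refine Nat.mul_le_mul_right _ ?_
          rw [← pow_mul]
          exact Nat.pow_le_pow_right _hY (by omega)
  have h4 : w.den ^ (d - K) ≤ (Y ^ 2) ^ (d - K) :=
    Nat.le_of_mul_le_mul_right h3 (pow_pos w.pos _)
  exact (Nat.pow_le_pow_iff_left (by omega)).1 h4

theorem abs_bd {Y E K d : ℕ} (hY : 2 ≤ Y) (hd : 2 * K + 2 * E + 4 ≤ d) {a w r c : ℚ}
    (ha : a ≠ 0) (h : a * w ^ d = r - c) (ha2 : HtLe (Y ^ E) a) (hc : HtLe (Y ^ d) c)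
    (hr : |r| ≤ (Y : ℚ) ^ E * (max 1 |w|) ^ K) : |w| ≤ (Y : ℚ) ^ 3 := by
  by_contra hcon
  push Not at hcon
  have hY' : (2 : ℚ) ≤ (Y : ℚ) := by exact_mod_cast hY
  have hY1 : (1 : ℚ) ≤ (Y : ℚ) := by linarith
  have h8 : (8 : ℚ) ≤ (Y : ℚ) ^ 3 := by
    calc (8 : ℚ) = 2 ^ 3 := by norm_num
      _ ≤ _ := pow_le_pow_left₀ (by norm_num) hY' 3
  have hw1 : (1 : ℚ) ≤ |w| := by linarith
  rw [max_eq_right hw1] at hr
  have hYw : (Y : ℚ) ≤ |w| := by
    refine le_trans ?_ hcon.le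
    calc (Y : ℚ) = (Y : ℚ) ^ 1 := (pow_one _).symm
      _ ≤ (Y : ℚ) ^ 3 := pow_le_pow_right₀ hY1 (by norm_num)
  have ha3 : 1 ≤ |a| * (Y : ℚ) ^ E := by
    have e1 := Rat.mul_den_eq_num a
    have e2 : (1 : ℚ) ≤ |(a.num : ℚ)| := by
      exact_mod_cast Int.one_le_abs (Rat.num_ne_zero.2 ha)
    rw [← e1, abs_mul] at e2
    refine e2.trans (mul_le_mul_of_nonneg_left ?_ (abs_nonneg _))
    rw [abs_of_nonneg (by positivity)]
    exact_mod_cast ha2.2
  have hcc : |c| ≤ (Y : ℚ) ^ d := by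
    have e1 := Rat.mul_den_eq_num c
    have e2 : |(c.num : ℚ)| ≤ (Y : ℚ) ^ d := by
      exact_mod_cast hc.1
    rw [← e1, abs_mul] at e2
    refine le_trans ?_ e2
    refine le_mul_of_one_le_right (abs_nonneg _) ?_
    rw [abs_of_nonneg (by positivity)]
    exact_mod_cast c.pos
  have h1 : |w| ^ d ≤ (Y : ℚ) ^ E * (|r| + |c|) := by
    have e1 : |a| * |w| ^ d ≤ |r| + |c| := by
      rw [← abs_pow, ← abs_mul, h]
      exact abs_sub _ _
    calc |w| ^ d = 1 * |w| ^ d := (one_mul _).symm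
      _ ≤ (|a| * (Y : ℚ) ^ E) * |w| ^ d := mul_le_mul_of_nonneg_right ha3 (by positivity)
      _ = (Y : ℚ) ^ E * (|a| * |w| ^ d) := by ring
      _ ≤ _ := mul_le_mul_of_nonneg_left e1 (by positivity)
  have h2 : (Y : ℚ) ^ E * |r| ≤ |w| ^ (d - 1) := by
    calc (Y : ℚ) ^ E * |r| ≤ (Y : ℚ) ^ E * ((Y : ℚ) ^ E * |w| ^ K) :=
          mul_le_mul_of_nonneg_left hr (by positivity)
      _ ≤ |w| ^ E * (|w| ^ E * |w| ^ K) := by
          have := pow_le_pow_left₀ (by positivity : (0 : ℚ) ≤ (Y : ℚ)) hYw E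
          exact mul_le_mul this (mul_le_mul_of_nonneg_right this (by positivity)) (by positivity)
            (by positivity)
      _ = |w| ^ (E + (E + K)) := by rw [pow_add, pow_add]
      _ ≤ |w| ^ (d - 1) := pow_le_pow_right₀ hw1 (by omega)
  have h3 : (Y : ℚ) ^ E * |c| ≤ |w| ^ (d - 1) := by
    calc (Y : ℚ) ^ E * |c| ≤ (Y : ℚ) ^ E * (Y : ℚ) ^ d :=
          mul_le_mul_of_nonneg_left hcc (by positivity)
      _ = (Y : ℚ) ^ (E + d) := (pow_add _ _ _).symm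
      _ ≤ (Y : ℚ) ^ (3 * (d - 1)) := pow_le_pow_right₀ hY1 (by omega)
      _ = ((Y : ℚ) ^ 3) ^ (d - 1) := pow_mul _ _ _
      _ ≤ |w| ^ (d - 1) := pow_le_pow_left₀ (by positivity) hcon.le _
  have h4 : |w| ^ d ≤ 2 * |w| ^ (d - 1) := by
    refine h1.trans ?_
    rw [mul_add]
    linarith
  have h5 : |w| ^ d = |w| ^ (d - 1) * |w| := by
    rw [← pow_succ]
    congr 1
    omega
  rw [h5] at h4
  have h6 : 0 < |w| ^ (d - 1) := by positivity
  nlinarith

end Pool.Agent.Y902.GN
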