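import Mathlib
import Pool.Agent.Y902.GN.Dy2

/-!
# Few polynomial maps of large degree with many rational points of finite orbit
-/

set_option autoImplicit false

namespace Pool.Agent.Y902.GN

/-- `w` has a partner -/
def Prt (Y E d : ℕ) (w : ℚ) : Prop :=
  w ≠ 0 ∧ ∃ w' : ℚ, w' ≠ 0 ∧ HtLe Y w ∧ HtLe Y w' ∧ ∃ s : Fin 3 → ℤ,
    (∀ i, s i ≠ 0 ∧ |s i| ≤ (Y : ℤ) ^ E) ∧ (s 0 : ℚ) + s 1 * w ^ d + s 2 * w' ^ d = 0

theorem prt_card (E : ℕ) (ε : ℝ) (hε : 0 < ε) : ∃ (R : ℕ) (δ : ℝ), 0 < δ ∧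
    ∀ Y : ℕ, 1 ≤ Y → ∀ T : Finset ℚ,
      (∀ w ∈ T, w = 0 ∨ ∃ d : ℕ, R ≤ d ∧ (d : ℝ) ≤ (Y : ℝ) ^ δ ∧ Prt Y E d w) →
      (T.card : ℝ) ≤ (Y : ℝ) ^ ε + 1 := by
  classical
  obtain ⟨R, δ, hδ, H⟩ := few_lin E ε hε
  refine ⟨R, δ, hδ, fun Y hY T hT => ?_⟩
  have h1 : ∀ w ∈ T.erase 0, ∃ w' : ℚ, w ≠ 0 ∧ w' ≠ 0 ∧ HtLe Y w ∧ HtLe Y w' ∧ ∃ d : ℕ, R ≤ d ∧
      (d : ℝ) ≤ (Y : ℝ) ^ δ ∧ ∃ s : Fin 3 → ℤ, (∀ i, s i ≠ 0 ∧ |s i| ≤ (Y : ℤ) ^ E) ∧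
        (s 0 : ℚ) + s 1 * w ^ d + s 2 * w' ^ d = 0 := by
    intro w hw
    obtain ⟨h0, hw1⟩ := Finset.mem_erase.1 hw
    rcases hT w hw1 with h2 | ⟨d, hd1, hd2, h3, w', h4, h5, h6, s, hs1, hs2⟩
    · exact absurd h2 h0
    · exact ⟨w', h3, h4, h5, h6, d, hd1, hd2, s, hs1, hs2⟩
  choose! w' hw' using h1
  have h2 := H Y hY ((T.erase 0).image fun w => (w, w' w)) (by
    intro p hp
    obtain ⟨w, hw, rfl⟩ := Finset.mem_image.1 hp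
    exact hw' w hw)
  rw [Finset.card_image_of_injective _ (fun a b h => (Prod.mk.inj h).1)] at h2
  have h3 : T.card ≤ (T.erase 0).card + 1 := by
    have := Finset.pred_card_le_card_erase (s := T) (a := (0 : ℚ))
    omega
  have h4 : (T.card : ℝ) ≤ ((T.erase 0).card : ℝ) + 1 := by exact_mod_cast h3
  linarith

/-- **Counting lemma.** -/
theorem cnt (n B E : ℕ) (hB : 1 ≤ B) (ε : ℝ) (hε : 0 < ε) : ∃ (R : ℕ) (δ : ℝ), 0 < δ ∧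
    ∀ Y : ℕ, 1 ≤ Y → ∀ (Φ : ℕ → (Fin n → ℚ) → ℚ) (T : Finset (ℕ × ℚ)),
      (∀ t ∈ T, R ≤ t.1 ∧ (t.1 : ℝ) ≤ (Y : ℝ) ^ δ ∧ ∃ v : Fin n → ℚ, t.2 = Φ t.1 v ∧
        ∀ i, v i = 0 ∨ Prt (Y ^ B) E t.1 (v i)) →
      (T.card : ℝ) ≤ (Y : ℝ) ^ ε := by
  classical
  obtain ⟨R, δ1, hδ1, H⟩ := prt_card E (ε / (4 * (B + 1) * (n + 1))) (by positivity)
  refine ⟨R + 2 ^ n, min (min δ1 1) (ε / 4), by positivity, fun Y hY Φ T hT => ?_⟩
  obtain ⟨δ, hδ⟩ : ∃ δ : ℝ, δ = min (min δ1 1) (ε / 4) := ⟨_, rfl⟩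
  rw [← hδ] at hT
  have hδ0 : 0 < δ := by rw [hδ]; positivity
  have hδa : δ ≤ δ1 := by rw [hδ]; exact (min_le_left _ _).trans (min_le_left _ _)
  have hδb : δ ≤ ε / 4 := by rw [hδ]; exact min_le_right _ _
  have hYr : (1 : ℝ) ≤ (Y : ℝ) := by exact_mod_cast hY
  have hY0 : (0 : ℝ) < (Y : ℝ) := by linarith
  have hmono : ∀ {a b : ℝ}, a ≤ b → (Y : ℝ) ^ a ≤ (Y : ℝ) ^ b :=
    fun hab => Real.rpow_le_rpow_of_exponent_le hYr hab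
  rcases T.eq_empty_or_nonempty with rfl | ⟨t0, ht0⟩
  · rw [Finset.card_empty, Nat.cast_zero]
    positivity
  have hYB : ((Y ^ B : ℕ) : ℝ) = (Y : ℝ) ^ (B : ℝ) := by
    rw [Nat.cast_pow, Real.rpow_natCast]
  have hB1 : (1 : ℝ) ≤ (B : ℝ) := by exact_mod_cast hB
  have hYYB : (Y : ℝ) ≤ ((Y ^ B : ℕ) : ℝ) := by
    rw [hYB]
    calc (Y : ℝ) = (Y : ℝ) ^ (1 : ℝ) := (Real.rpow_one _).symm
      _ ≤ _ := hmono hB1
  have h2n : (2 : ℝ) ^ n ≤ (Y : ℝ) ^ (ε / 4) := by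
    obtain ⟨e1, e2, _⟩ := hT t0 ht0
    have e3 : (2 : ℝ) ^ n ≤ (t0.1 : ℝ) := by
      exact_mod_cast (by omega : 2 ^ n ≤ t0.1)
    exact e3.trans (e2.trans (hmono hδb))
  choose! hR hd v hv1 hv2 using hT
  -- the roles
  have hrole : ∀ i, ((T.image fun t => v t i).card : ℝ) ≤ 2 * (Y : ℝ) ^ (ε / (4 * (n + 1))) := by
    intro i
    have h1 := H (Y ^ B) (Nat.one_le_pow _ _ hY) (T.image fun t => v t i) (by
      intro w hw
      obtain ⟨t, ht, rfl⟩ := Finset.mem_image.1 hw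
      rcases hv2 t ht i with h2 | h2
      · exact Or.inl h2
      · refine Or.inr ⟨t.1, (Nat.le_add_right _ _).trans (hR t ht), ?_, h2⟩
        refine (hd t ht).trans ?_
        calc (Y : ℝ) ^ δ ≤ (Y : ℝ) ^ δ1 := hmono hδa
          _ ≤ _ := Real.rpow_le_rpow hY0.le hYYB hδ1.le)
    refine h1.trans ?_
    rw [hYB, ← Real.rpow_mul hY0.le]
    have h3 : (Y : ℝ) ^ ((B : ℝ) * (ε / (4 * (B + 1) * (n + 1)))) ≤
        (Y : ℝ) ^ (ε / (4 * (n + 1))) := by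
      apply hmono
      rw [mul_div_assoc', div_le_div_iff₀ (by positivity) (by positivity)]
      have : (0 : ℝ) ≤ ε * (n + 1) := by positivity
      nlinarith
    have h4 : (1 : ℝ) ≤ (Y : ℝ) ^ (ε / (4 * (n + 1))) := Real.one_le_rpow hYr (by positivity)
    linarith
  -- the injection
  have hinj : Set.InjOn (fun t : ℕ × ℚ => (t.1, v t)) (T : Set (ℕ × ℚ)) := by
    intro t ht t' ht' h
    obtain ⟨h1, h2⟩ := Prod.mk.inj h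
    refine Prod.ext h1 ?_
    rw [hv1 t (Finset.mem_coe.1 ht), hv1 t' (Finset.mem_coe.1 ht'), h1, h2]
  have hcard : T.card ≤ (Finset.Icc 1 ⌊(Y : ℝ) ^ δ⌋₊).card *
      ∏ i : Fin n, (T.image fun t => v t i).card := by
    rw [← Fintype.card_piFinset, ← Finset.card_product]
    refine Finset.card_le_card_of_injOn _ ?_ hinj
    intro t ht
    have ht' := Finset.mem_coe.1 ht
    refine Finset.mem_coe.2 (Finset.mem_product.2 ⟨Finset.mem_Icc.2 ⟨?_, Nat.le_floor (hd t ht')⟩,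
      Fintype.mem_piFinset.2 fun i => Finset.mem_image_of_mem (fun t => v t i) ht'⟩)
    have h1 := hR t ht'
    have h2 : 0 < 2 ^ n := by positivity
    show 1 ≤ t.1
    omega
  have hIcc : ((Finset.Icc 1 ⌊(Y : ℝ) ^ δ⌋₊).card : ℝ) ≤ (Y : ℝ) ^ (ε / 4) := by
    rw [Nat.card_Icc, Nat.add_sub_cancel]
    exact (Nat.floor_le (by positivity)).trans (hmono hδb)
  calc (T.card : ℝ) ≤ (((Finset.Icc 1 ⌊(Y : ℝ) ^ δ⌋₊).card *
      ∏ i : Fin n, (T.image fun t => v t i).card : ℕ) : ℝ) := by exact_mod_cast hcard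
    _ = ((Finset.Icc 1 ⌊(Y : ℝ) ^ δ⌋₊).card : ℝ) *
        ∏ i : Fin n, ((T.image fun t => v t i).card : ℝ) := by push_cast; rfl
    _ ≤ (Y : ℝ) ^ (ε / 4) * ∏ _i : Fin n, (2 * (Y : ℝ) ^ (ε / (4 * (n + 1)))) := by
        refine mul_le_mul hIcc ?_ (by positivity) (by positivity)
        exact Finset.prod_le_prod (fun i _ => by positivity) fun i _ => hrole i
    _ = (Y : ℝ) ^ (ε / 4) * ((2 : ℝ) ^ n * (Y : ℝ) ^ (ε / (4 * (n + 1)) * n)) := by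
        rw [Finset.prod_const, Finset.card_univ, Fintype.card_fin, mul_pow,
          Real.rpow_mul hY0.le, Real.rpow_natCast]
    _ ≤ (Y : ℝ) ^ (ε / 4) * ((Y : ℝ) ^ (ε / 4) * (Y : ℝ) ^ (ε / 4)) := by
        refine mul_le_mul_of_nonneg_left (mul_le_mul h2n (hmono ?_) (by positivity)
          (by positivity)) (by positivity)
        rw [div_mul_eq_mul_div, div_le_div_iff₀ (by positivity) (by norm_num)]
        nlinarith
    _ ≤ (Y : ℝ) ^ ε := by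
        rw [← Real.rpow_add hY0, ← Real.rpow_add hY0]
        apply hmono
        linarith

end Pool.Agent.Y902.GN
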