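import Mathlib
import Pool.Agent.Y902.GN.Dy3

/-!
# Closed systems
-/

set_option autoImplicit false

namespace Pool.Agent.Y902.GN

theorem den_add_le (p q : ℚ) : (p + q).den ≤ p.den * q.den :=
  Nat.le_of_dvd (Nat.mul_pos p.pos q.pos) (Rat.add_den_dvd p q)

theorem den_mul_le (p q : ℚ) : (p * q).den ≤ p.den * q.den :=
  Nat.le_of_dvd (Nat.mul_pos p.pos q.pos) (Rat.mul_den_dvd p q)

theorem den_sub_le (p q : ℚ) : (p - q).den ≤ p.den * q.den := by
  have := den_add_le p (-q)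
  rwa [← sub_eq_add_neg, Rat.den_neg_eq_den] at this

theorem den_sum_le {A : ℕ} (f : ℕ → ℚ) (n : ℕ) (h : ∀ i ∈ Finset.range n, (f i).den ≤ A) :
    (∑ i ∈ Finset.range n, f i).den ≤ A ^ n := by
  induction n with
  | zero => simp
  | succ n ih =>
    rw [Finset.sum_range_succ, pow_succ]
    refine (den_add_le _ _).trans (Nat.mul_le_mul (ih fun i hi => h i ?_) (h n ?_))
    · exact Finset.mem_range.2 (by have := Finset.mem_range.1 hi; omega)
    · exact Finset.mem_range.2 (by omega)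

theorem den_eval_le {A k : ℕ} {g : Polynomial ℚ} (w : ℚ) (hg : g.natDegree ≤ k)
    (hc : ∀ i, (g.coeff i).den ≤ A) : (g.eval w).den ≤ (A * w.den ^ k) ^ (k + 1) := by
  rw [Polynomial.eval_eq_sum_range' (Nat.lt_succ_of_le hg)]
  refine den_sum_le _ _ fun i hi => ?_
  have hi' := Finset.mem_range.1 hi
  refine (den_mul_le _ _).trans (Nat.mul_le_mul (hc i) ?_)
  rw [Rat.den_pow]
  exact Nat.pow_le_pow_right w.pos (by omega)

theorem abs_eval_le {A : ℚ} {k : ℕ} {g : Polynomial ℚ} (w : ℚ) (hg : g.natDegree ≤ k)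
    (hc : ∀ i, |g.coeff i| ≤ A) : |g.eval w| ≤ (k + 1) * (A * (max 1 |w|) ^ k) := by
  rw [Polynomial.eval_eq_sum_range' (Nat.lt_succ_of_le hg)]
  have hA : 0 ≤ A := (abs_nonneg _).trans (hc 0)
  have h1 : (1 : ℚ) ≤ max 1 |w| := le_max_left _ _
  calc |∑ i ∈ Finset.range (k + 1), g.coeff i * w ^ i|
      ≤ ∑ i ∈ Finset.range (k + 1), |g.coeff i * w ^ i| := Finset.abs_sum_le_sum_abs _ _
    _ ≤ ∑ _i ∈ Finset.range (k + 1), A * (max 1 |w|) ^ k := by
        refine Finset.sum_le_sum fun i hi => ?_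
        rw [abs_mul, abs_pow]
        refine mul_le_mul (hc i) ?_ (by positivity) hA
        calc |w| ^ i ≤ (max 1 |w|) ^ i := pow_le_pow_left₀ (abs_nonneg _) (le_max_right _ _) i
          _ ≤ _ := pow_le_pow_right₀ h1 (by have := Finset.mem_range.1 hi; omega)
    _ = _ := by
        rw [Finset.sum_const, Finset.card_range, nsmul_eq_mul]
        push_cast
        ring

theorem HtLe.abs_le {M : ℕ} {q : ℚ} (h : HtLe M q) : |q| ≤ (M : ℚ) := by
  have e1 := Rat.mul_den_eq_num q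
  have e2 : |(q.num : ℚ)| ≤ (M : ℚ) := by
    exact_mod_cast h.1
  rw [← e1, abs_mul] at e2
  refine le_trans ?_ e2
  refine le_mul_of_one_le_right (abs_nonneg _) ?_
  rw [abs_of_nonneg (by positivity)]
  exact_mod_cast q.pos

/-- a finite closed system of values -/
structure Cls (a : ℚ) (g : Polynomial ℚ) (b : ℚ) (d : ℕ) (c : ℚ) (S : Set ℚ) : Prop where
  fin : S.Finite
  cl : ∀ w ∈ S, ∃ p ∈ S, ∃ q ∈ S, a * w ^ d = (p + b * q - g.eval w) - c

theorem Cls.apriori {a b c : ℚ} {g : Polynomial ℚ} {d k E Y : ℕ} {S : Set ℚ}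
    (hS : Cls a g b d c S) (hY : 2 ≤ Y) (ha : a ≠ 0) (ha2 : HtLe (Y ^ E) a)
    (hb : HtLe (Y ^ E) b) (hg : g.natDegree ≤ k) (hgc : ∀ i, HtLe (Y ^ E) (g.coeff i))
    (hc : HtLe (Y ^ d) c) (hd : 2 * (2 + k * (k + 1)) + 2 * (E * (k + 2) + k + 2) + 4 ≤ d) :
    ∀ w ∈ S, HtLe (Y ^ 5) w := by
  intro w hw
  have hY1 : 1 ≤ Y := by omega
  have hY' : (2 : ℚ) ≤ (Y : ℚ) := by exact_mod_cast hY
  have hY1' : (1 : ℚ) ≤ (Y : ℚ) := by linarith
  -- denominators
  have hden : ∀ w ∈ S, w.den ≤ Y ^ 2 := by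
    obtain ⟨w0, hw0, hmax⟩ := Set.exists_max_image S (fun w => w.den) hS.fin ⟨w, hw⟩
    obtain ⟨p, hp, q, hq, h⟩ := hS.cl w0 hw0
    have h1 : w0.den ≤ Y ^ 2 := by
      refine den_bd (E := E * (k + 2)) (K := 2 + k * (k + 1)) hY1 (by omega) ha h
        (ha2.mono (Nat.pow_le_pow_right hY1 (by nlinarith))) hc ?_
      calc (p + b * q - g.eval w0).den ≤ (p + b * q).den * (g.eval w0).den := den_sub_le _ _
        _ ≤ (p.den * (b * q).den) * (g.eval w0).den :=
            Nat.mul_le_mul_right _ (den_add_le _ _)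
        _ ≤ (p.den * (b.den * q.den)) * (g.eval w0).den :=
            Nat.mul_le_mul_right _ (Nat.mul_le_mul_left _ (den_mul_le _ _))
        _ ≤ (w0.den * (Y ^ E * w0.den)) * (Y ^ E * w0.den ^ k) ^ (k + 1) := by
            refine Nat.mul_le_mul (Nat.mul_le_mul (hmax p hp) (Nat.mul_le_mul hb.2 (hmax q hq))) ?_
            exact den_eval_le w0 hg fun i => (hgc i).2
        _ = Y ^ (E * (k + 2)) * w0.den ^ (2 + k * (k + 1)) := by
            rw [mul_pow, ← pow_mul, ← pow_mul, show E * (k + 2) = E + E * (k + 1) by ring, pow_add,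
              pow_add]
            ring
    exact fun w hw => (hmax w hw).trans h1
  have habs : ∀ w ∈ S, |w| ≤ (Y : ℚ) ^ 3 := by
    obtain ⟨w0, hw0, hmax⟩ := Set.exists_max_image S (fun w => |w|) hS.fin ⟨w, hw⟩
    obtain ⟨p, hp, q, hq, h⟩ := hS.cl w0 hw0
    have h1 : |w0| ≤ (Y : ℚ) ^ 3 := by
      refine abs_bd (E := E * (k + 2) + k + 2) (K := k + 1) hY (by nlinarith) ha h
        (ha2.mono (Nat.pow_le_pow_right hY1 (by nlinarith))) hc ?_
      obtain ⟨X, hX⟩ : ∃ X : ℚ, X = max 1 |w0| := ⟨_, rfl⟩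
      rw [← hX]
      have hX1 : (1 : ℚ) ≤ X := by rw [hX]; exact le_max_left _ _
      have hpX : |p| ≤ X := (hmax p hp).trans (by rw [hX]; exact le_max_right _ _)
      have hqX : |q| ≤ X := (hmax q hq).trans (by rw [hX]; exact le_max_right _ _)
      have hbX : |b| ≤ (Y : ℚ) ^ E := by
        have := hb.abs_le
        push_cast at this
        exact this
      have hgX : |g.eval w0| ≤ (k + 1) * ((Y : ℚ) ^ E * X ^ k) := by
        rw [hX]
        refine abs_eval_le w0 hg fun i => ?_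
        have := (hgc i).abs_le
        push_cast at this
        exact this
      have hXk : X ≤ X ^ (k + 1) := le_self_pow₀ hX1 (by omega)
      have hXk2 : X ^ k ≤ X ^ (k + 1) := pow_le_pow_right₀ hX1 (by omega)
      have hYE : (1 : ℚ) ≤ (Y : ℚ) ^ E := one_le_pow₀ hY1'
      have hk : ((k : ℚ) + 3) ≤ (Y : ℚ) ^ (k + 2) := by
        have h2 : k + 3 ≤ 2 ^ (k + 2) := by
          have := Nat.lt_two_pow_self (n := k + 2)
          omega
        calc ((k : ℚ) + 3) = ((k + 3 : ℕ) : ℚ) := by push_cast; ring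
          _ ≤ ((2 ^ (k + 2) : ℕ) : ℚ) := by exact_mod_cast h2
          _ = (2 : ℚ) ^ (k + 2) := by push_cast; rfl
          _ ≤ _ := pow_le_pow_left₀ (by norm_num) hY' _
      calc |p + b * q - g.eval w0| ≤ |p + b * q| + |g.eval w0| := abs_sub _ _
        _ ≤ (|p| + |b * q|) + |g.eval w0| := by
            have := abs_add_le p (b * q)
            linarith
        _ ≤ (X + (Y : ℚ) ^ E * X) + (k + 1) * ((Y : ℚ) ^ E * X ^ k) := by
            rw [abs_mul]
            have := mul_le_mul hbX hqX (abs_nonneg _) (by positivity)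
            linarith
        _ ≤ ((Y : ℚ) ^ E * X ^ (k + 1) + (Y : ℚ) ^ E * X ^ (k + 1)) +
              (k + 1) * ((Y : ℚ) ^ E * X ^ (k + 1)) := by
            have e1 : X ≤ (Y : ℚ) ^ E * X ^ (k + 1) :=
              hXk.trans (le_mul_of_one_le_left (by positivity) hYE)
            have e2 : (Y : ℚ) ^ E * X ≤ (Y : ℚ) ^ E * X ^ (k + 1) :=
              mul_le_mul_of_nonneg_left hXk (by positivity)
            have e3 : ((k : ℚ) + 1) * ((Y : ℚ) ^ E * X ^ k) ≤
                (k + 1) * ((Y : ℚ) ^ E * X ^ (k + 1)) :=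
              mul_le_mul_of_nonneg_left (mul_le_mul_of_nonneg_left hXk2 (by positivity))
                (by positivity)
            linarith
        _ = ((k : ℚ) + 3) * ((Y : ℚ) ^ E * X ^ (k + 1)) := by ring
        _ ≤ (Y : ℚ) ^ (k + 2) * ((Y : ℚ) ^ E * X ^ (k + 1)) :=
            mul_le_mul_of_nonneg_right hk (by positivity)
        _ = (Y : ℚ) ^ (k + 2 + E) * X ^ (k + 1) := by rw [pow_add]; ring
        _ ≤ (Y : ℚ) ^ (E * (k + 2) + k + 2) * X ^ (k + 1) := by
            refine mul_le_mul_of_nonneg_right (pow_le_pow_right₀ hY1' (by nlinarith))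
              (by positivity)
    exact fun w hw => (hmax w hw).trans h1
  refine ⟨?_, (hden w hw).trans (Nat.pow_le_pow_right hY1 (by norm_num))⟩
  have e1 := Rat.mul_den_eq_num w
  have e2 : |(w.num : ℚ)| ≤ (Y : ℚ) ^ 5 := by
    rw [← e1, abs_mul]
    have e3 : |((w.den : ℕ) : ℚ)| ≤ (Y : ℚ) ^ 2 := by
      rw [abs_of_nonneg (by positivity)]
      exact_mod_cast hden w hw
    calc |w| * |((w.den : ℕ) : ℚ)| ≤ (Y : ℚ) ^ 3 * (Y : ℚ) ^ 2 :=
          mul_le_mul (habs w hw) e3 (abs_nonneg _) (by positivity)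
      _ = (Y : ℚ) ^ 5 := by ring
  exact_mod_cast e2

theorem four {S : Set ℚ} (hS : 3 < S.encard) {d : ℕ} (hd : d ≠ 0) :
    ∃ x ∈ S, ∃ x' ∈ S, x ≠ 0 ∧ x' ≠ 0 ∧ x ^ d ≠ x' ^ d := by
  by_contra hcon
  push Not at hcon
  have h3 : ∀ x : ℚ, ({0, x, -x} : Set ℚ).encard ≤ 3 := by
    intro x
    calc ({0, x, -x} : Set ℚ).encard ≤ ({x, -x} : Set ℚ).encard + 1 := Set.encard_insert_le _ _
      _ ≤ (({-x} : Set ℚ).encard + 1) + 1 := by gcongr; exact Set.encard_insert_le _ _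
      _ = 3 := by rw [Set.encard_singleton]; norm_num
  by_cases hx : ∃ x ∈ S, x ≠ 0
  · obtain ⟨x, hx1, hx2⟩ := hx
    have h1 : S ⊆ {0, x, -x} := by
      intro y hy
      by_cases hy0 : y = 0
      · exact Or.inl hy0
      · have h2 := hcon y hy x hx1 hy0 hx2
        have h4 : |y| ^ d = |x| ^ d := by rw [← abs_pow, ← abs_pow, h2]
        have h5 : |y| = |x| := (pow_left_inj₀ (abs_nonneg _) (abs_nonneg _) hd).1 h4
        rcases abs_eq_abs.1 h5 with h6 | h6
        · exact Or.inr (Or.inl h6)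
        · exact Or.inr (Or.inr h6)
    exact absurd ((Set.encard_le_encard h1).trans (h3 x)) (not_le.2 hS)
  · push Not at hx
    have h1 : S ⊆ {0, 1, -1} := fun y hy => Or.inl (hx y hy)
    exact absurd ((Set.encard_le_encard h1).trans (h3 1)) (not_le.2 hS)

end Pool.Agent.Y902.GN
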