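import Mathlib
import Pool.Agent.Y902.GN.Dy4

/-!
# Maps of large degree with many points in closed systems are rare
-/

set_option autoImplicit false

namespace Pool.Agent.Y902.GN

theorem partner {Y E E3 B d : ℕ} (hY : 2 ≤ Y) (hB : 1 ≤ B) {a c w w' r r' : ℚ} (ha : a ≠ 0)
    (ha2 : HtLe (Y ^ E) a) (h : a * w ^ d = r - c) (h' : a * w' ^ d = r' - c)
    (hr : HtLe (Y ^ E3) r) (hr' : HtLe (Y ^ E3) r') (hw0 : w ≠ 0) (hw0' : w' ≠ 0)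
    (hw : HtLe (Y ^ B) w) (hw' : HtLe (Y ^ B) w') (hne : w ^ d ≠ w' ^ d) :
    Prt (Y ^ B) (E + (1 + (E3 + E3))) d w := by
  have hY1 : 1 ≤ Y := by omega
  obtain ⟨ρ, hρ⟩ : ∃ ρ : ℚ, ρ = r - r' := ⟨_, rfl⟩
  have hρ2 : HtLe (Y ^ (1 + (E3 + E3))) ρ := by
    rw [hρ]
    refine (hr.sub hr').mono ?_
    rw [pow_add, pow_add, pow_one]
    exact Nat.mul_le_mul_right _ hY
  have hrel : a * (w ^ d - w' ^ d) = ρ := by
    rw [hρ]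
    linear_combination h - h'
  have hρ0 : ρ ≠ 0 := by
    rw [← hrel]
    exact mul_ne_zero ha (sub_ne_zero.2 hne)
  have e1 := Rat.mul_den_eq_num a
  have e2 := Rat.mul_den_eq_num ρ
  have hYB : (1 : ℤ) ≤ (Y : ℤ) := by exact_mod_cast hY1
  have hbd : ∀ u v : ℤ, |u| ≤ ((Y ^ E : ℕ) : ℤ) → |v| ≤ ((Y ^ (1 + (E3 + E3)) : ℕ) : ℤ) →
      |u * v| ≤ (((Y ^ B : ℕ)) : ℤ) ^ (E + (1 + (E3 + E3))) := by
    intro u v hu hv
    rw [abs_mul]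
    calc |u| * |v| ≤ ((Y ^ E : ℕ) : ℤ) * ((Y ^ (1 + (E3 + E3)) : ℕ) : ℤ) :=
          mul_le_mul hu hv (abs_nonneg _) (by positivity)
      _ = (Y : ℤ) ^ (E + (1 + (E3 + E3))) := by
          push_cast
          rw [← pow_add]
      _ ≤ (((Y ^ B : ℕ)) : ℤ) ^ (E + (1 + (E3 + E3))) := by
          refine pow_le_pow_left₀ (by positivity) ?_ _
          push_cast
          exact le_self_pow₀ hYB (by omega)
  have hA : a.num ≠ 0 := Rat.num_ne_zero.2 ha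
  have hC : ρ.num ≠ 0 := Rat.num_ne_zero.2 hρ0
  have hAd : ((a.den : ℕ) : ℤ) ≠ 0 := by exact_mod_cast a.den_nz
  have hCd : ((ρ.den : ℕ) : ℤ) ≠ 0 := by exact_mod_cast ρ.den_nz
  refine ⟨hw0, w', hw0', hw, hw', ![-((a.den : ℤ) * ρ.num), a.num * ρ.den, -(a.num * ρ.den)],
    ?_, ?_⟩
  · intro i
    fin_cases i
    · refine ⟨neg_ne_zero.2 (mul_ne_zero hAd hC), ?_⟩
      show |-((a.den : ℤ) * ρ.num)| ≤ _
      rw [abs_neg]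
      exact hbd _ _ ha2.den_abs hρ2.1
    · exact ⟨mul_ne_zero hA hCd, hbd _ _ ha2.1 hρ2.den_abs⟩
    · refine ⟨neg_ne_zero.2 (mul_ne_zero hA hCd), ?_⟩
      show |-(a.num * (ρ.den : ℤ))| ≤ _
      rw [abs_neg]
      exact hbd _ _ ha2.1 hρ2.den_abs
  · show ((-((a.den : ℤ) * ρ.num) : ℤ) : ℚ) + ((a.num * ρ.den : ℤ) : ℚ) * w ^ d +
      ((-(a.num * ρ.den) : ℤ) : ℚ) * w' ^ d = 0
    push_cast
    rw [← e1, ← e2]
    linear_combination (a.den : ℚ) * ρ.den * hrel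

/-- **Closed systems are rare.** -/
theorem main_cl (k E : ℕ) (ε : ℝ) (hε : 0 < ε) : ∃ (d₀ : ℕ) (δ : ℝ), 0 < δ ∧
    ∀ Y : ℕ, 1 ≤ Y → ∀ (a b : ℚ) (g : Polynomial ℚ), a ≠ 0 → HtLe (Y ^ E) a → HtLe (Y ^ E) b →
      g.natDegree ≤ k → (∀ i, HtLe (Y ^ E) (g.coeff i)) → ∀ T : Finset (ℕ × ℚ),
      (∀ t ∈ T, d₀ ≤ t.1 ∧ (t.1 : ℝ) ≤ (Y : ℝ) ^ δ ∧ HtLe (Y ^ t.1) t.2 ∧ ∃ S : Set ℚ,
        3 < S.encard ∧ ∀ w ∈ S, ∃ S' ⊆ S, w ∈ S' ∧ Cls a g b t.1 t.2 S') →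
      (T.card : ℝ) ≤ (Y : ℝ) ^ ε := by
  classical
  obtain ⟨E3, hE3⟩ : ∃ E3 : ℕ, E3 = 1 + (11 + E) + (1 + E + 5 * k) * (k + 1) := ⟨_, rfl⟩
  obtain ⟨R, δ, hδ, H⟩ := cnt 3 5 (E + (1 + (E3 + E3))) (by norm_num) ε hε
  refine ⟨R + (2 * (2 + k * (k + 1)) + 2 * (E * (k + 2) + k + 2) + 4), δ, hδ,
    fun Y hY a b g ha ha2 hb hg hgc T hT => ?_⟩
  refine H Y hY (fun d v => v 1 + b * v 2 - g.eval (v 0) - a * v 0 ^ d) T fun t ht => ?_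
  obtain ⟨hd1, hd2, hc, S, hS1, hS2⟩ := hT t ht
  have hd3 : 2 * (2 + k * (k + 1)) + 2 * (E * (k + 2) + k + 2) + 4 ≤ t.1 :=
    (Nat.le_add_left _ _).trans hd1
  have hd4 : 4 ≤ t.1 := (Nat.le_add_left _ _).trans hd3
  have hY2 : 2 ≤ Y := by
    by_contra hcon
    have hY1 : Y = 1 := by omega
    rw [hY1, Nat.cast_one, Real.one_rpow] at hd2
    have : t.1 ≤ 1 := by exact_mod_cast hd2
    omega
  refine ⟨(Nat.le_add_right _ _).trans hd1, hd2, ?_⟩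
  have hrel : ∀ w ∈ S, HtLe (Y ^ 5) w ∧ ∃ p ∈ S, ∃ q ∈ S,
      a * w ^ t.1 = (p + b * q - g.eval w) - t.2 := by
    intro w hw
    obtain ⟨S', h1, h2, h3⟩ := hS2 w hw
    obtain ⟨p, hp, q, hq, h4⟩ := h3.cl w h2
    exact ⟨h3.apriori hY2 ha ha2 hb hg hgc hc hd3 w h2, p, h1 hp, q, h1 hq, h4⟩
  have hr : ∀ w ∈ S, ∃ r, HtLe (Y ^ E3) r ∧ a * w ^ t.1 = r - t.2 := by
    intro w hw
    obtain ⟨h1, p, hp, q, hq, h4⟩ := hrel w hw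
    refine ⟨_, ?_, h4⟩
    have hp1 := (hrel p hp).1
    have hq1 := (hrel q hq).1
    refine ((hp1.add (hb.mul hq1)).sub (HtLe.eval hg hgc h1)).mono ?_
    calc 2 * ((2 * (Y ^ 5 * (Y ^ E * Y ^ 5))) * (2 * (Y ^ E * (Y ^ 5) ^ k)) ^ (k + 1))
        ≤ Y * ((Y * (Y ^ 5 * (Y ^ E * Y ^ 5))) * (Y * (Y ^ E * (Y ^ 5) ^ k)) ^ (k + 1)) := by
          gcongr
      _ = Y ^ E3 := by
          rw [hE3]
          ring
  obtain ⟨x, hx, x', hx', hx0, hx0', hne⟩ := four hS1 (show t.1 ≠ 0 by omega)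
  obtain ⟨_, p, hp, q, hq, h4⟩ := hrel x hx
  have hall : ∀ w ∈ S, w = 0 ∨ Prt (Y ^ 5) (E + (1 + (E3 + E3))) t.1 w := by
    intro w hw
    by_cases hw0 : w = 0
    · exact Or.inl hw0
    · right
      obtain ⟨r, hr1, hr2⟩ := hr w hw
      by_cases h5 : w ^ t.1 = x ^ t.1
      · obtain ⟨r', hr1', hr2'⟩ := hr x' hx'
        exact partner hY2 (by norm_num) ha ha2 hr2 hr2' hr1 hr1' hw0 hx0' (hrel w hw).1
          (hrel x' hx').1 (by rw [h5]; exact hne)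
      · obtain ⟨r', hr1', hr2'⟩ := hr x hx
        exact partner hY2 (by norm_num) ha ha2 hr2 hr2' hr1 hr1' hw0 hx0 (hrel w hw).1
          (hrel x hx).1 h5
  refine ⟨![x, p, q], ?_, ?_⟩
  · show t.2 = p + b * q - g.eval x - a * x ^ t.1
    linear_combination h4
  · intro i
    fin_cases i
    · exact hall x hx
    · exact hall p hp
    · exact hall q hq

end Pool.Agent.Y902.GN
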