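import Mathlib

/-!
# Finiteness from a bound for finite subsets
-/

set_option autoImplicit false

namespace Pool.Agent.Y902.GN

theorem fin_of_bound {α : Type*} (S : Set α) (B : ℝ)
    (h : ∀ T : Finset α, (∀ p ∈ T, p ∈ S) → (T.card : ℝ) ≤ B) :
    S.Finite ∧ (S.ncard : ℝ) ≤ B := by
  have hfin : S.Finite := by
    by_contra hinf
    obtain ⟨T, hT, hc⟩ := Set.Infinite.exists_subset_card_eq hinf (⌊B⌋₊ + 1)
    have h1 := h T fun p hp => hT hp
    rw [hc] at h1
    push_cast at h1
    linarith [Nat.lt_floor_add_one B]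
  refine ⟨hfin, ?_⟩
  have h1 := h hfin.toFinset fun p hp => by simpa using hp
  rwa [← Set.ncard_eq_toFinset_card S hfin] at h1

end Pool.Agent.Y902.GN
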