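import Mathlib
import Pool.Agent.Y902.GN.Dh

/-!
# Blocks of equal powers: all ratios of the bases are constant on a large subset
-/

set_option autoImplicit false

namespace Pool.Agent.Y902.GN

open Filter

/-- a set whose points come from an image of another one -/
theorem big_preimage {α β : Type*} [DecidableEq β] {Y : ℕ → ℕ} {A1 : ℕ → Finset β}
    {A : ℕ → Finset α} (h : Big Y A1) (f : ℕ → α → β)
    (hf : ∀ᶠ ν in (Uf : Filter ℕ), A1 ν ⊆ (A ν).image (f ν)) :
    Big Y (fun ν => (A ν).filter fun x => f ν x ∈ A1 ν) := by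
  obtain ⟨m, hm⟩ := h
  refine ⟨m, ?_⟩
  filter_upwards [hm, hf] with ν h1 h2
  refine h1.trans (Nat.pow_le_pow_left ?_ m)
  have h3 : A1 ν ⊆ ((A ν).filter fun x => f ν x ∈ A1 ν).image (f ν) := by
    intro t ht
    obtain ⟨x, hx, rfl⟩ := Finset.mem_image.1 (h2 ht)
    exact Finset.mem_image_of_mem _ (Finset.mem_filter.2 ⟨hx, ht⟩)
  exact (Finset.card_le_card h3).trans Finset.card_image_le

/-- **Blocks of equal powers.** -/
theorem block {n k : ℕ} {Y : ℕ → ℕ} (hY : ∀ m : ℕ, ∀ᶠ ν in (Uf : Filter ℕ), m ≤ Y ν)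
    {A : ℕ → Finset (Fin n → ℤ)} (hA : Big Y A) (c : ℕ → ℤ)
    (hx : ∀ᶠ ν in (Uf : Filter ℕ), ∀ x ∈ A ν, ∀ j, x j + c ν ≠ 0 ∧ |x j + c ν| ≤ (Y ν : ℤ))
    (b s : ℕ → (Fin n → ℤ) → Fin k → ℤ)
    (hbb : ∀ᶠ ν in (Uf : Filter ℕ), ∀ x ∈ A ν, ∀ i, b ν x i ≠ 0 ∧ |b ν x i| ≤ (Y ν : ℤ))
    (hss : ∀ᶠ ν in (Uf : Filter ℕ), ∀ x ∈ A ν, ∀ i, s ν x i ≠ 0 ∧ |s ν x i| ≤ (Y ν : ℤ))
    (d w : ℕ → ℕ) (hd : Few Y d) (hw : Few Y w)
    (hl : ∀ m : ℕ, ∀ᶠ ν in (Uf : Filter ℕ), m ≤ d ν)
    (u : ℕ → Fin k → ℤ) (hu : ∀ᶠ ν in (Uf : Filter ℕ), ∀ i, u ν i ≠ 0 ∧ |u ν i| ≤ 2 ^ w ν)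
    (h0 : ∀ᶠ ν in (Uf : Filter ℕ), ∀ x ∈ A ν, ∑ i, u ν i * (s ν x i * b ν x i ^ d ν) = 0)
    (hv : ∀ᶠ ν in (Uf : Filter ℕ), ∀ x ∈ A ν, ∀ K : Finset (Fin k), K.Nonempty →
      K ≠ Finset.univ → ∑ i ∈ K, u ν i * (s ν x i * b ν x i ^ d ν) ≠ 0) :
    ∃ A' : ℕ → Finset (Fin n → ℤ), (∀ᶠ ν in (Uf : Filter ℕ), A' ν ⊆ A ν) ∧ Big Y A' ∧
      ∀ i i', ∀ᶠ ν in (Uf : Filter ℕ), ∀ x ∈ A' ν, ∀ x' ∈ A' ν,
        b ν x i * b ν x' i' = b ν x' i * b ν x i' := by
  classical
  -- the points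
  obtain ⟨pt, hpt⟩ : ∃ pt : ℕ → (Fin n → ℤ) → Fin (k + (k + n)) → ℤ, ∀ ν x, pt ν x =
      Fin.append (b ν x) (Fin.append (s ν x) (fun j => x j + c ν)) := ⟨_, fun _ _ => rfl⟩
  obtain ⟨ee, hee⟩ : ∃ ee : ℕ → Fin k → Fin (k + (k + n)) → ℕ, ∀ ν i, ee ν i =
      Fin.append (fun i' => if i' = i then d ν else 0)
        (Fin.append (fun i' => if i' = i then 1 else 0) (fun _ => 0)) :=
    ⟨_, fun _ _ => rfl⟩
  have hprod : ∀ ν x i, ∏ q, pt ν x q ^ ee ν i q = s ν x i * b ν x i ^ d ν := by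
    intro ν x i
    rw [hpt, hee, Fin.prod_univ_add, Fin.prod_univ_add]
    simp only [Fin.append_left, Fin.append_right]
    have e1 : ∏ i', b ν x i' ^ (if i' = i then d ν else 0) = b ν x i ^ d ν := by
      rw [Finset.prod_eq_single i]
      · simp
      · intro b _ hb
        simp [hb]
      · intro h
        exact absurd (Finset.mem_univ i) h
    have e2 : ∏ i', s ν x i' ^ (if i' = i then 1 else 0) = s ν x i := by
      rw [Finset.prod_eq_single i]
      · simp
      · intro b _ hb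
        simp [hb]
      · intro h
        exact absurd (Finset.mem_univ i) h
    have e3 : ∏ j : Fin n, (x j + c ν) ^ 0 = 1 := by simp
    rw [e1, e2, e3]
    ring
  have hptl : ∀ ν x i, pt ν x (Fin.castAdd (k + n) i) = b ν x i := by
    intro ν A j
    rw [hpt, Fin.append_left]
  have hptm : ∀ ν x i, pt ν x (Fin.natAdd k (Fin.castAdd n i)) = s ν x i := by
    intro ν A j
    rw [hpt, Fin.append_right, Fin.append_left]
  have hptr : ∀ ν x j, pt ν x (Fin.natAdd k (Fin.natAdd k j)) = x j + c ν := by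
    intro ν A j
    rw [hpt, Fin.append_right, Fin.append_right]
  have hinj : ∀ᶠ ν in (Uf : Filter ℕ), Set.InjOn (pt ν) (A ν) := by
    refine Filter.Eventually.of_forall fun ν x _ x' _ hpp => ?_
    funext j
    have h6 := congrFun hpp (Fin.natAdd k (Fin.natAdd k j))
    rw [hptr, hptr] at h6
    linarith
  have hOm := big_image hA pt hinj
  have hb : Bdd Y (fun ν => (A ν).image (pt ν)) := by
    filter_upwards [hx, hbb, hss] with ν a1 a2 a3 t ht q
    obtain ⟨x, hx, rfl⟩ := Finset.mem_image.1 ht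
    rw [hpt]
    refine Fin.addCases (fun j => ?_) (fun q => ?_) q
    · rw [Fin.append_left]
      exact a2 x hx j
    · rw [Fin.append_right]
      refine Fin.addCases (fun j => ?_) (fun j => ?_) q
      · rw [Fin.append_left]
        exact a3 x hx j
      · rw [Fin.append_right]
        exact a1 x hx j
  have hfew : Few Y (fun ν => ∑ i, ∑ q, ee ν i q) := by
    have h4 := (Few.const hY (k * (k + (k + n)))).mul (Few.add hY hd (Few.const hY 1))
    refine h4.mono (Filter.Eventually.of_forall fun ν => ?_)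
    calc ∑ i, ∑ q, ee ν i q ≤ ∑ _i : Fin k, ∑ _q : Fin (k + (k + n)), (d ν + 1) := by
          refine Finset.sum_le_sum fun i _ => Finset.sum_le_sum fun q _ => ?_
          rw [hee]
          refine Fin.addCases (fun j => ?_) (fun q => ?_) q
          · rw [Fin.append_left]
            split_ifs <;> omega
          · rw [Fin.append_right]
            refine Fin.addCases (fun j => ?_) (fun j => ?_) q
            · rw [Fin.append_left]
              split_ifs <;> omega
            · rw [Fin.append_right]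
              omega
      _ = _ := by simp; ring
  let S : TS Y (fun ν => (A ν).image (pt ν)) k :=
    { e := ee
      u := u
      w := w
      he := hfew
      hu := hu
      hw := hw
      sum0 := by
        filter_upwards [h0] with ν h0 t ht
        obtain ⟨x, hx, rfl⟩ := Finset.mem_image.1 ht
        simp only [hprod]
        exact h0 x hx }
  have hST : ∀ ν x i, S.T ν i (pt ν x) = u ν i * (s ν x i * b ν x i ^ d ν) := by
    intro ν x i
    show u ν i * ∏ q, pt ν x q ^ ee ν i q = _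
    rw [hprod]
  have hv' : NVS S := by
    filter_upwards [hv] with ν hv t ht K hK1 hK2
    obtain ⟨x, hx, rfl⟩ := Finset.mem_image.1 ht
    rw [Finset.sum_congr rfl fun i _ => hST ν x i]
    exact hv x hx K hK1 hK2
  -- the ratios are constant
  obtain ⟨A1, g1, g2, g3⟩ := Big.const_all (Y := Y) (Finset.univ : Finset (Fin k × Fin k))
    (fun p _ t => ((t (Fin.castAdd (k + n) p.1) : ℚ) / (t (Fin.castAdd (k + n) p.2) : ℚ))) hOm (by
      rintro ⟨i, i0⟩ _ A' hA' hbig'
      obtain ⟨Om1, h1, h2, h3⟩ := gct hY hbig' (hb.res hA') (S.res hA') (hv'.res hA')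
      obtain ⟨C, h3⟩ := h3 i i0
      obtain ⟨Om', h4, h5, h6⟩ := h2.fiber
        (fun _ t => ((t (Fin.castAdd (k + n) i) : ℚ) / (t (Fin.castAdd (k + n) i0) : ℚ)))
        (fun ν => (Om1 ν).image fun t =>
          ((t (Fin.castAdd (k + n) i) : ℚ) / (t (Fin.castAdd (k + n) i0) : ℚ)))
        (Filter.Eventually.of_forall fun ν t ht => Finset.mem_image_of_mem _ ht) (by
          intro m
          rcases Nat.eq_zero_or_pos m with hm | hm
          · subst hm
            filter_upwards [hY 1] with ν hν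
            rw [pow_zero]; exact hν
          filter_upwards [h1, hA', h2.nonempty, h3, hbb, hss, hl ((C + 2 + 1) * (4 * m)),
            hY (2 ^ (4 * m)), hY 4, hu] with ν k1 k2 k3 k4 k5 k5' k6 k7 k8 k9
          obtain ⟨t', ht'⟩ := k3
          have hmem : ∀ t ∈ Om1 ν, ∃ x ∈ A ν, t = pt ν x := fun t ht => by
            obtain ⟨x, hx, rfl⟩ := Finset.mem_image.1 (k2 (k1 ht))
            exact ⟨x, hx, rfl⟩
          obtain ⟨x', hx', rfl⟩ := hmem t' ht'
          refine few_ratio (C' := C + 2 + 1) (d := d ν) hm (by omega) k6 k7 k8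
            ((b ν x' i : ℚ) / (b ν x' i0 : ℚ)) _ ?_
          intro v hv
          obtain ⟨t, ht, rfl⟩ := Finset.mem_image.1 hv
          obtain ⟨x, hx, rfl⟩ := hmem t ht
          obtain ⟨r, r', hr, hr', hr1, hr2, hrr⟩ := k4 _ ht _ ht'
          have G := k5 x hx
          have G' := k5 x' hx'
          have Q := k5' x hx
          have Q' := k5' x' hx'
          have e1 : r * ((u ν i * (s ν x i * b ν x i ^ d ν)) *
              (u ν i0 * (s ν x' i0 * b ν x' i0 ^ d ν))) =
              r' * ((u ν i * (s ν x' i * b ν x' i ^ d ν)) *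
              (u ν i0 * (s ν x i0 * b ν x i0 ^ d ν))) := by
            rw [← hST, ← hST, ← hST, ← hST]
            exact hrr
          have e2 : (r * s ν x i * s ν x' i0) * (b ν x i * b ν x' i0) ^ d ν =
              (r' * s ν x' i * s ν x i0) * (b ν x' i * b ν x i0) ^ d ν := by
            apply mul_left_cancel₀ (mul_ne_zero (k9 i).1 (k9 i0).1)
            rw [mul_pow, mul_pow]
            linear_combination e1
          have a0 : (1 : ℤ) ≤ (Y ν : ℤ) + 2 := by omega
          have hbd : ∀ {r a b : ℤ}, |r| ≤ ((Y ν : ℤ) + 2) ^ C → |a| ≤ (Y ν : ℤ) →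
              |b| ≤ (Y ν : ℤ) → |r * a * b| ≤ ((Y ν : ℤ) + 2) ^ (C + 2 + 1) := by
            intro r a b q1 q2 q3
            rw [abs_mul, abs_mul]
            have q4 := mul_le_mul (mul_le_mul q1 (q2.trans (show (Y ν : ℤ) ≤ (Y ν : ℤ) + 2 by omega))
              (abs_nonneg _) (by positivity)) (q3.trans (show (Y ν : ℤ) ≤ (Y ν : ℤ) + 2 by omega))
              (abs_nonneg _) (by positivity)
            refine q4.trans ?_
            rw [← pow_succ, ← pow_succ]
            exact pow_le_pow_right₀ a0 (by omega)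
          refine ⟨b ν x i * b ν x' i0, b ν x' i * b ν x i0, r * s ν x i * s ν x' i0,
            r' * s ν x' i * s ν x i0,
            mul_ne_zero (G i).1 (G' i0).1, mul_ne_zero (G' i).1 (G i0).1,
            mul_ne_zero (mul_ne_zero hr (Q i).1) (Q' i0).1,
            mul_ne_zero (mul_ne_zero hr' (Q' i).1) (Q i0).1,
            hbd hr1 (Q i).2 (Q' i0).2, hbd hr2 (Q' i).2 (Q i0).2, e2, ?_⟩
          rw [hptl, hptl]
          have n1 : (b ν x' i : ℚ) ≠ 0 := by exact_mod_cast (G' i).1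
          have n2 : (b ν x' i0 : ℚ) ≠ 0 := by exact_mod_cast (G' i0).1
          have n3 : (b ν x i0 : ℚ) ≠ 0 := by exact_mod_cast (G i0).1
          push_cast
          field_simp)
      exact ⟨Om', (h1.and h4).mono fun ν h => h.2.trans h.1, h5, h6⟩)
  refine ⟨fun ν => (A ν).filter fun x => pt ν x ∈ A1 ν,
    Filter.Eventually.of_forall fun ν => Finset.filter_subset _ _, big_preimage g2 pt g1, ?_⟩
  intro i i'
  filter_upwards [g3 (i, i') (Finset.mem_univ _), hbb] with ν a1 a2 x hx x' hx'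
  obtain ⟨hx1, hx2⟩ := Finset.mem_filter.1 hx
  obtain ⟨hx1', hx2'⟩ := Finset.mem_filter.1 hx'
  have e1 := a1 _ hx2 _ hx2'
  simp only [hptl] at e1
  have n2 : (b ν x' i' : ℚ) ≠ 0 := by exact_mod_cast (a2 x' hx1' i').1
  have n3 : (b ν x i' : ℚ) ≠ 0 := by exact_mod_cast (a2 x hx1 i').1
  rw [div_eq_div_iff n3 n2] at e1
  exact_mod_cast e1

end Pool.Agent.Y902.GN
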