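import Mathlib
import Pool.Agent.Y902.GN.Blk

/-!
# Blocks of powers of monomials: all ratios of the monomials are constant on a large subset
-/

set_option autoImplicit false

namespace Pool.Agent.Y902.GN

open Filter

/-- a monomial with natural exponents -/
def mm {N : ℕ} (g : Fin N → ℕ) (x : Fin N → ℤ) : ℤ := ∏ j, x j ^ g j

theorem mm_ne {N : ℕ} (g : Fin N → ℕ) {x : Fin N → ℤ} (hx : ∀ j, x j ≠ 0) : mm g x ≠ 0 :=
  Finset.prod_ne_zero_iff.2 fun j _ => pow_ne_zero _ (hx j)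

/-- **Blocks of powers of monomials.** -/
theorem mblock {n k : ℕ} {Y : ℕ → ℕ} (hY : ∀ m : ℕ, ∀ᶠ ν in (Uf : Filter ℕ), m ≤ Y ν)
    {A : ℕ → Finset (Fin n → ℤ)} (hA : Big Y A)
    (hx : ∀ᶠ ν in (Uf : Filter ℕ), ∀ x ∈ A ν, ∀ j, x j ≠ 0 ∧ |x j| ≤ (Y ν : ℤ))
    (g : ℕ → Fin k → Fin n → ℕ) (s : ℕ → (Fin n → ℤ) → Fin k → ℤ)
    (hss : ∀ᶠ ν in (Uf : Filter ℕ), ∀ x ∈ A ν, ∀ i, s ν x i ≠ 0 ∧ |s ν x i| ≤ (Y ν : ℤ))
    (d w : ℕ → ℕ) (hg : Few Y (fun ν => ∑ i, ∑ j, d ν * g ν i j)) (hw : Few Y w)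
    (hl : ∀ m : ℕ, ∀ᶠ ν in (Uf : Filter ℕ), m ≤ d ν)
    (u : ℕ → Fin k → ℤ) (hu : ∀ᶠ ν in (Uf : Filter ℕ), ∀ i, u ν i ≠ 0 ∧ |u ν i| ≤ 2 ^ w ν)
    (h0 : ∀ᶠ ν in (Uf : Filter ℕ), ∀ x ∈ A ν,
      ∑ i, u ν i * (s ν x i * mm (g ν i) x ^ d ν) = 0)
    (hv : ∀ᶠ ν in (Uf : Filter ℕ), ∀ x ∈ A ν, ∀ K : Finset (Fin k), K.Nonempty →
      K ≠ Finset.univ → ∑ i ∈ K, u ν i * (s ν x i * mm (g ν i) x ^ d ν) ≠ 0) :
    ∃ A' : ℕ → Finset (Fin n → ℤ), (∀ᶠ ν in (Uf : Filter ℕ), A' ν ⊆ A ν) ∧ Big Y A' ∧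
      ∀ i i', ∀ᶠ ν in (Uf : Filter ℕ), ∀ x ∈ A' ν, ∀ x' ∈ A' ν,
        mm (g ν i) x * mm (g ν i') x' = mm (g ν i) x' * mm (g ν i') x := by
  classical
  -- the points
  obtain ⟨pt, hpt⟩ : ∃ pt : ℕ → (Fin n → ℤ) → Fin (k + n) → ℤ, ∀ ν x, pt ν x =
      Fin.append (s ν x) x := ⟨_, fun _ _ => rfl⟩
  obtain ⟨ee, hee⟩ : ∃ ee : ℕ → Fin k → Fin (k + n) → ℕ, ∀ ν i, ee ν i =
      Fin.append (fun i' => if i' = i then 1 else 0) (fun j => d ν * g ν i j) :=
    ⟨_, fun _ _ => rfl⟩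
  have hprod : ∀ ν x i, ∏ q, pt ν x q ^ ee ν i q = s ν x i * mm (g ν i) x ^ d ν := by
    intro ν x i
    rw [hpt, hee, Fin.prod_univ_add]
    simp only [Fin.append_left, Fin.append_right]
    have e2 : ∏ i', s ν x i' ^ (if i' = i then 1 else 0) = s ν x i := by
      rw [Finset.prod_eq_single i]
      · simp
      · intro b _ hb
        simp [hb]
      · intro h
        exact absurd (Finset.mem_univ i) h
    rw [e2]
    congr 1
    unfold mm
    rw [← Finset.prod_pow]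
    refine Finset.prod_congr rfl fun j _ => ?_
    rw [← pow_mul, mul_comm]
  have hptm : ∀ ν x i, pt ν x (Fin.castAdd n i) = s ν x i := by
    intro ν A j
    rw [hpt, Fin.append_left]
  have hptr : ∀ ν x j, pt ν x (Fin.natAdd k j) = x j := by
    intro ν A j
    rw [hpt, Fin.append_right]
  have hptr' : ∀ ν x, (fun j => pt ν x (Fin.natAdd k j)) = x := by
    intro ν x
    funext j
    rw [hptr]
  have hinj : ∀ᶠ ν in (Uf : Filter ℕ), Set.InjOn (pt ν) (A ν) := by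
    refine Filter.Eventually.of_forall fun ν x _ x' _ hpp => ?_
    rw [← hptr' ν x, ← hptr' ν x', hpp]
  have hOm := big_image hA pt hinj
  have hb : Bdd Y (fun ν => (A ν).image (pt ν)) := by
    filter_upwards [hx, hss] with ν a1 a3 t ht q
    obtain ⟨x, hx, rfl⟩ := Finset.mem_image.1 ht
    rw [hpt]
    refine Fin.addCases (fun j => ?_) (fun q => ?_) q
    · rw [Fin.append_left]
      exact a3 x hx j
    · rw [Fin.append_right]
      exact a1 x hx q
  have hfew : Few Y (fun ν => ∑ i, ∑ q, ee ν i q) := by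
    have h4 := Few.add hY hg (Few.const hY k)
    refine h4.mono (Filter.Eventually.of_forall fun ν => ?_)
    have e1 : ∀ i, ∑ q, ee ν i q = (∑ j, d ν * g ν i j) + 1 := by
      intro i
      rw [hee, Fin.sum_univ_add]
      simp only [Fin.append_left, Fin.append_right]
      rw [add_comm]
      congr 1
      simp
    rw [Finset.sum_congr rfl fun i _ => e1 i, Finset.sum_add_distrib]
    simp
  let S : TS Y (fun ν => (A ν).image (pt ν)) k :=
    { e := ee
      u := u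
      w := w
      he := hfew
      hu := hu
      hw := hw
      sum0 := by
        filter_upwards [h0] with ν h0 t ht
        obtain ⟨x, hx, rfl⟩ := Finset.mem_image.1 ht
        simp only [hprod]
        exact h0 x hx }
  have hST : ∀ ν x i, S.T ν i (pt ν x) = u ν i * (s ν x i * mm (g ν i) x ^ d ν) := by
    intro ν x i
    show u ν i * ∏ q, pt ν x q ^ ee ν i q = _
    rw [hprod]
  have hv' : NVS S := by
    filter_upwards [hv] with ν hv t ht K hK1 hK2
    obtain ⟨x, hx, rfl⟩ := Finset.mem_image.1 ht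
    rw [Finset.sum_congr rfl fun i _ => hST ν x i]
    exact hv x hx K hK1 hK2
  -- the ratios are constant
  obtain ⟨A1, g1, g2, g3⟩ := Big.const_all (Y := Y) (Finset.univ : Finset (Fin k × Fin k))
    (fun p ν t => ((mm (g ν p.1) (fun j => t (Fin.natAdd k j)) : ℚ) /
      (mm (g ν p.2) (fun j => t (Fin.natAdd k j)) : ℚ))) hOm (by
      rintro ⟨i, i0⟩ _ A' hA' hbig'
      obtain ⟨Om1, h1, h2, h3⟩ := gct hY hbig' (hb.res hA') (S.res hA') (hv'.res hA')
      obtain ⟨C, h3⟩ := h3 i i0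
      obtain ⟨Om', h4, h5, h6⟩ := h2.fiber
        (fun ν t => ((mm (g ν i) (fun j => t (Fin.natAdd k j)) : ℚ) /
          (mm (g ν i0) (fun j => t (Fin.natAdd k j)) : ℚ)))
        (fun ν => (Om1 ν).image fun t => ((mm (g ν i) (fun j => t (Fin.natAdd k j)) : ℚ) /
          (mm (g ν i0) (fun j => t (Fin.natAdd k j)) : ℚ)))
        (Filter.Eventually.of_forall fun ν t ht => Finset.mem_image_of_mem _ ht) (by
          intro m
          rcases Nat.eq_zero_or_pos m with hm | hm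
          · subst hm
            filter_upwards [hY 1] with ν hν
            rw [pow_zero]; exact hν
          filter_upwards [h1, hA', h2.nonempty, h3, hx, hss, hl ((C + 2 + 1) * (4 * m)),
            hY (2 ^ (4 * m)), hY 4, hu] with ν k1 k2 k3 k4 k5 k5' k6 k7 k8 k9
          obtain ⟨t', ht'⟩ := k3
          have hmem : ∀ t ∈ Om1 ν, ∃ x ∈ A ν, t = pt ν x := fun t ht => by
            obtain ⟨x, hx, rfl⟩ := Finset.mem_image.1 (k2 (k1 ht))
            exact ⟨x, hx, rfl⟩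
          obtain ⟨x', hx', rfl⟩ := hmem t' ht'
          refine few_ratio (C' := C + 2 + 1) (d := d ν) hm (by omega) k6 k7 k8
            ((mm (g ν i) x' : ℚ) / (mm (g ν i0) x' : ℚ)) _ ?_
          intro v hv
          obtain ⟨t, ht, rfl⟩ := Finset.mem_image.1 hv
          obtain ⟨x, hx, rfl⟩ := hmem t ht
          obtain ⟨r, r', hr, hr', hr1, hr2, hrr⟩ := k4 _ ht _ ht'
          have G := fun i => mm_ne (g ν i) fun j => (k5 x hx j).1
          have G' := fun i => mm_ne (g ν i) fun j => (k5 x' hx' j).1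
          have Q := k5' x hx
          have Q' := k5' x' hx'
          have e1 : r * ((u ν i * (s ν x i * mm (g ν i) x ^ d ν)) *
              (u ν i0 * (s ν x' i0 * mm (g ν i0) x' ^ d ν))) =
              r' * ((u ν i * (s ν x' i * mm (g ν i) x' ^ d ν)) *
              (u ν i0 * (s ν x i0 * mm (g ν i0) x ^ d ν))) := by
            rw [← hST, ← hST, ← hST, ← hST]
            exact hrr
          have e2 : (r * s ν x i * s ν x' i0) * (mm (g ν i) x * mm (g ν i0) x') ^ d ν =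
              (r' * s ν x' i * s ν x i0) * (mm (g ν i) x' * mm (g ν i0) x) ^ d ν := by
            apply mul_left_cancel₀ (mul_ne_zero (k9 i).1 (k9 i0).1)
            rw [mul_pow, mul_pow]
            linear_combination e1
          have a0 : (1 : ℤ) ≤ (Y ν : ℤ) + 2 := by omega
          have hbd : ∀ {r a b : ℤ}, |r| ≤ ((Y ν : ℤ) + 2) ^ C → |a| ≤ (Y ν : ℤ) →
              |b| ≤ (Y ν : ℤ) → |r * a * b| ≤ ((Y ν : ℤ) + 2) ^ (C + 2 + 1) := by
            intro r a b q1 q2 q3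
            rw [abs_mul, abs_mul]
            have q4 := mul_le_mul (mul_le_mul q1 (q2.trans (show (Y ν : ℤ) ≤ (Y ν : ℤ) + 2 by omega))
              (abs_nonneg _) (by positivity)) (q3.trans (show (Y ν : ℤ) ≤ (Y ν : ℤ) + 2 by omega))
              (abs_nonneg _) (by positivity)
            refine q4.trans ?_
            rw [← pow_succ, ← pow_succ]
            exact pow_le_pow_right₀ a0 (by omega)
          refine ⟨mm (g ν i) x * mm (g ν i0) x', mm (g ν i) x' * mm (g ν i0) x,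
            r * s ν x i * s ν x' i0, r' * s ν x' i * s ν x i0,
            mul_ne_zero (G i) (G' i0), mul_ne_zero (G' i) (G i0),
            mul_ne_zero (mul_ne_zero hr (Q i).1) (Q' i0).1,
            mul_ne_zero (mul_ne_zero hr' (Q' i).1) (Q i0).1,
            hbd hr1 (Q i).2 (Q' i0).2, hbd hr2 (Q' i).2 (Q i0).2, e2, ?_⟩
          rw [hptr']
          have n1 : (mm (g ν i) x' : ℚ) ≠ 0 := by exact_mod_cast (G' i)
          have n2 : (mm (g ν i0) x' : ℚ) ≠ 0 := by exact_mod_cast (G' i0)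
          have n3 : (mm (g ν i0) x : ℚ) ≠ 0 := by exact_mod_cast (G i0)
          push_cast
          field_simp)
      exact ⟨Om', (h1.and h4).mono fun ν h => h.2.trans h.1, h5, h6⟩)
  refine ⟨fun ν => (A ν).filter fun x => pt ν x ∈ A1 ν,
    Filter.Eventually.of_forall fun ν => Finset.filter_subset _ _, big_preimage g2 pt g1, ?_⟩
  intro i i'
  filter_upwards [g3 (i, i') (Finset.mem_univ _), hx] with ν a1 a2 x hx x' hx'
  obtain ⟨hx1, hx2⟩ := Finset.mem_filter.1 hx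
  obtain ⟨hx1', hx2'⟩ := Finset.mem_filter.1 hx'
  have e1 := a1 _ hx2 _ hx2'
  simp only [hptr] at e1
  have n2 : (mm (g ν i') x' : ℚ) ≠ 0 := by
    exact_mod_cast mm_ne (g ν i') fun j => (a2 x' hx1' j).1
  have n3 : (mm (g ν i') x : ℚ) ≠ 0 := by
    exact_mod_cast mm_ne (g ν i') fun j => (a2 x hx1 j).1
  rw [div_eq_div_iff n3 n2] at e1
  exact_mod_cast e1

/-- the same for a block of a larger set of indices -/
theorem mblockB {n m : ℕ} {Y : ℕ → ℕ} (hY : ∀ m : ℕ, ∀ᶠ ν in (Uf : Filter ℕ), m ≤ Y ν)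
    {A : ℕ → Finset (Fin n → ℤ)} (hA : Big Y A)
    (hx : ∀ᶠ ν in (Uf : Filter ℕ), ∀ x ∈ A ν, ∀ j, x j ≠ 0 ∧ |x j| ≤ (Y ν : ℤ))
    (B : Finset (Fin m)) (g : ℕ → Fin m → Fin n → ℕ) (s : ℕ → (Fin n → ℤ) → Fin m → ℤ)
    (hss : ∀ᶠ ν in (Uf : Filter ℕ), ∀ x ∈ A ν, ∀ i ∈ B, s ν x i ≠ 0 ∧ |s ν x i| ≤ (Y ν : ℤ))
    (d w : ℕ → ℕ) (hg : Few Y (fun ν => ∑ i, ∑ j, d ν * g ν i j)) (hw : Few Y w)
    (hl : ∀ m : ℕ, ∀ᶠ ν in (Uf : Filter ℕ), m ≤ d ν)
    (u : ℕ → Fin m → ℤ) (hu : ∀ᶠ ν in (Uf : Filter ℕ), ∀ i ∈ B, u ν i ≠ 0 ∧ |u ν i| ≤ 2 ^ w ν)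
    (h0 : ∀ᶠ ν in (Uf : Filter ℕ), ∀ x ∈ A ν,
      ∑ i ∈ B, u ν i * (s ν x i * mm (g ν i) x ^ d ν) = 0)
    (hv : ∀ᶠ ν in (Uf : Filter ℕ), ∀ x ∈ A ν, ∀ K ⊆ B, K.Nonempty →
      K ≠ B → ∑ i ∈ K, u ν i * (s ν x i * mm (g ν i) x ^ d ν) ≠ 0) :
    ∃ A' : ℕ → Finset (Fin n → ℤ), (∀ᶠ ν in (Uf : Filter ℕ), A' ν ⊆ A ν) ∧ Big Y A' ∧
      ∀ i ∈ B, ∀ i' ∈ B, ∀ᶠ ν in (Uf : Filter ℕ), ∀ x ∈ A' ν, ∀ x' ∈ A' ν,
        mm (g ν i) x * mm (g ν i') x' = mm (g ν i) x' * mm (g ν i') x := by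
  classical
  let e : Fin B.card ≃ B := B.equivFin.symm
  have hsum : ∀ f : Fin m → ℤ, ∑ q : Fin B.card, f (e q).1 = ∑ i ∈ B, f i := by
    intro f
    rw [Equiv.sum_comp e (fun i : B => f i.1)]
    exact Finset.sum_coe_sort B f
  have hsumN : ∀ f : Fin m → ℕ, ∑ q : Fin B.card, f (e q).1 = ∑ i ∈ B, f i := by
    intro f
    rw [Equiv.sum_comp e (fun i : B => f i.1)]
    exact Finset.sum_coe_sort B f
  obtain ⟨A', h1, h2, h3⟩ := mblock (k := B.card) hY hA hx (fun ν q => g ν (e q).1)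
    (fun ν x q => s ν x (e q).1)
    (by filter_upwards [hss] with ν hν x hx q using hν x hx _ (e q).2)
    d w (hg.mono (Filter.Eventually.of_forall fun ν => by
      rw [hsumN fun i => ∑ j, d ν * g ν i j]
      exact Finset.sum_le_sum_of_subset (Finset.subset_univ _))) hw hl (fun ν q => u ν (e q).1)
    (by filter_upwards [hu] with ν hν q using hν _ (e q).2)
    (by
      filter_upwards [h0] with ν hν x hx
      rw [hsum fun i => u ν i * (s ν x i * mm (g ν i) x ^ d ν)]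
      exact hν x hx)
    (by
      filter_upwards [hv] with ν hν x hx K hK1 hK2
      have h4 := hν x hx (K.map (e.toEmbedding.trans (Function.Embedding.subtype _))) (by
        intro i hi
        obtain ⟨q, _, rfl⟩ := Finset.mem_map.1 hi
        exact (e q).2) (hK1.map) (by
        intro hcon
        apply hK2
        have h5 := congrArg Finset.card hcon
        rw [Finset.card_map] at h5
        apply Finset.eq_univ_of_card
        rw [h5, Fintype.card_fin])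
      rw [Finset.sum_map] at h4
      exact h4)
  refine ⟨A', h1, h2, fun i hi i' hi' => ?_⟩
  have h4 := h3 (e.symm ⟨i, hi⟩) (e.symm ⟨i', hi'⟩)
  simp only [Equiv.apply_symm_apply] at h4
  exact h4

end Pool.Agent.Y902.GN
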