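import Mathlib
import Pool.Agent.Y902.GN.Blk

/-!
# Sums of powers of linear forms: almost all rational points lie on rational lines
-/

set_option autoImplicit false

namespace Pool.Agent.Y902.GN

open Filter

theorem min_blocks {ι : Type*} [DecidableEq ι] (τ : ι → ℤ) : ∀ (k : ℕ) (I : Finset ι),
    I.card ≤ k → ∑ i ∈ I, τ i = 0 → ∃ P : Finset (Finset ι),
      (∀ B ∈ P, B.Nonempty ∧ ∑ i ∈ B, τ i = 0 ∧ ∀ K ⊆ B, K.Nonempty → K ≠ B →
        ∑ i ∈ K, τ i ≠ 0) ∧ P.biUnion id = I ∧ Set.PairwiseDisjoint (P : Set (Finset ι)) id := by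
  intro k
  induction k with
  | zero =>
    intro I hI _
    refine ⟨∅, fun B hB => absurd hB (Finset.notMem_empty B), ?_, by simp⟩
    rw [Finset.card_eq_zero.1 (by omega : I.card = 0)]
    rfl
  | succ k ih =>
    intro I hI h0
    rcases Finset.eq_empty_or_nonempty I with hne | hne
    · subst hne
      exact ⟨∅, fun B hB => absurd hB (Finset.notMem_empty B), rfl, by simp⟩
    · have hex : (I.powerset.filter fun B => B.Nonempty ∧ ∑ i ∈ B, τ i = 0).Nonempty :=
        ⟨I, Finset.mem_filter.2 ⟨Finset.mem_powerset.2 subset_rfl, hne, h0⟩⟩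
      obtain ⟨B, hB, hmin⟩ := Finset.exists_min_image _ (fun B : Finset ι => B.card) hex
      obtain ⟨hB1, hB2, hB3⟩ := Finset.mem_filter.1 hB
      rw [Finset.mem_powerset] at hB1
      have h1 : ∑ i ∈ I \ B, τ i = 0 := by
        have := Finset.sum_sdiff (f := τ) hB1
        rw [hB3, add_zero, h0] at this
        exact this
      have h2 : (I \ B).card ≤ k := by
        rw [Finset.card_sdiff_of_subset hB1]
        have := Finset.card_pos.2 hB2
        omega
      obtain ⟨P, hP1, hP2, hP3⟩ := ih _ h2 h1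
      have hPs : ∀ B' ∈ P, B' ⊆ I \ B := fun B' hB' => by
        rw [← hP2]
        exact Finset.subset_biUnion_of_mem id hB'
      refine ⟨insert B P, ?_, ?_, ?_⟩
      · intro B' hB'
        rcases Finset.mem_insert.1 hB' with rfl | hB'
        · refine ⟨hB2, hB3, fun K hK hK1 hK2 hK3 => ?_⟩
          have h3 := hmin K (Finset.mem_filter.2 ⟨Finset.mem_powerset.2 (hK.trans hB1), hK1, hK3⟩)
          exact hK2 (Finset.eq_of_subset_of_card_le hK h3)
        · exact hP1 B' hB'
      · rw [Finset.biUnion_insert, hP2]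
        exact Finset.union_sdiff_of_subset hB1
      · rw [Finset.coe_insert]
        refine hP3.insert fun B' hB' _ => ?_
        exact Finset.disjoint_of_subset_right (hPs B' hB') Finset.disjoint_sdiff

/-- a linear form -/
def lin {n : ℕ} (h x : Fin n → ℤ) : ℤ := ∑ j, h j * x j

theorem lin_comb {n : ℕ} (h x y : Fin n → ℤ) (a b : ℤ) :
    lin h (a • x + b • y) = a * lin h x + b * lin h y := by
  unfold lin
  rw [Finset.mul_sum, Finset.mul_sum, ← Finset.sum_add_distrib]
  refine Finset.sum_congr rfl fun j _ => ?_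
  simp only [Pi.add_apply, Pi.smul_apply, smul_eq_mul]
  ring

theorem lin_bd {n : ℕ} {h x : Fin n → ℤ} {a b : ℤ} (hh : ∀ j, |h j| ≤ a)
    (hx : ∀ j, |x j| ≤ b) : |lin h x| ≤ n * (a * b) := by
  unfold lin
  refine (Finset.abs_sum_le_sum_abs _ _).trans ?_
  have e5 : ∀ j ∈ Finset.univ, |h j * x j| ≤ a * b := by
    intro j _
    rw [abs_mul]
    exact mul_le_mul (hh j) (hx j) (abs_nonneg _) ((abs_nonneg _).trans (hh j))
  refine (Finset.sum_le_card_nsmul _ _ _ e5).trans ?_
  rw [Finset.card_univ, Fintype.card_fin, nsmul_eq_mul]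

/-- the sum of powers of linear forms with coefficients `u i * s i` -/
def spF {n m : ℕ} (u : Fin m → ℤ) (h : Fin m → Fin n → ℤ) (d : ℕ) (s : Fin m → ℤ)
    (x : Fin n → ℤ) : ℤ := ∑ i, u i * (s i * lin (h i) x ^ d)

/-- `x` lies on a line on which `F` vanishes -/
def OnLine {n : ℕ} (F : (Fin n → ℤ) → ℤ) (x : Fin n → ℤ) : Prop :=
  ∃ y : Fin n → ℤ, (∀ a b : ℤ, a • x + b • y = 0 → a = 0 ∧ b = 0) ∧
    ∀ a b : ℤ, F (a • x + b • y) = 0

/-- the points which are counted -/
structure SpGood (n m E d Y : ℕ) (u : Fin m → ℤ) (h : Fin m → Fin n → ℤ) (x : Fin n → ℤ)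
    (s : Fin m → ℤ) : Prop where
  x1 : ∀ j, |x j| ≤ (Y : ℤ)
  prim : Finset.univ.gcd x = 1
  s1 : ∀ i, s i ≠ 0 ∧ |s i| ≤ (Y : ℤ) ^ E
  sum : spF u h d s x = 0
  line : ¬ OnLine (spF u h d s) x

theorem prim_indep {n : ℕ} {x y : Fin n → ℤ} (hx : Finset.univ.gcd x = 1)
    (hy : Finset.univ.gcd y = 1) (h1 : x ≠ y) (h2 : x ≠ -y) (a b : ℤ)
    (h : a • x + b • y = 0) : a = 0 ∧ b = 0 := by
  have h3 : a • x = (-b) • y := by
    rw [neg_smul]
    exact eq_neg_of_add_eq_zero_left h
  have e1 : ∀ (c : ℤ) (z : Fin n → ℤ), Finset.univ.gcd z = 1 → Finset.univ.gcd (c • z) =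
      normalize c := by
    intro c z hz
    have : (c • z) = fun j => c * z j := by
      funext j
      simp
    rw [this, Finset.gcd_mul_left, hz, mul_one]
  have h4 : normalize a = normalize (-b) := by
    rw [← e1 a x hx, ← e1 (-b) y hy, h3]
  have h5 : a = b ∨ a = -b := by
    obtain ⟨q1, q2⟩ := normalize_eq_normalize_iff.1 h4
    have h6 := Int.natAbs_eq_of_dvd_dvd q1 q2
    rcases Int.natAbs_eq_natAbs_iff.1 h6 with h7 | h7
    · exact Or.inr h7
    · left; rw [h7, neg_neg]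
  by_cases ha : a = 0
  · refine ⟨ha, ?_⟩
    rcases h5 with h5 | h5 <;> omega
  · exfalso
    rcases h5 with h5 | h5
    · apply h2
      have h6 : a • x = a • (-y) := by rw [h3, h5]; simp
      exact smul_right_injective _ ha h6
    · apply h1
      have h6 : a • x = a • y := by rw [h3, h5]
      exact smul_right_injective _ ha h6

/-- two points with proportional values on all blocks span a line -/
theorem line_aux {n m d : ℕ} (hd : d ≠ 0) {u : Fin m → ℤ} {h : Fin m → Fin n → ℤ}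
    {s : Fin m → ℤ} {x y : Fin n → ℤ} (P : Finset (Finset (Fin m)))
    (hP : Set.PairwiseDisjoint (P : Set (Finset (Fin m))) id)
    (hne : ∀ B ∈ P, B.Nonempty)
    (hB : ∀ B ∈ P, ∑ i ∈ B, u i * (s i * lin (h i) x ^ d) = 0)
    (hx : ∀ B ∈ P, ∀ i ∈ B, lin (h i) x ≠ 0 ∧ lin (h i) y ≠ 0)
    (hxy : ∀ B ∈ P, ∀ i ∈ B, ∀ i' ∈ B, lin (h i) x * lin (h i') y = lin (h i) y * lin (h i') x)
    (h0 : ∀ i, i ∉ P.biUnion id → u i = 0 ∨ lin (h i) x = 0 ∧ lin (h i) y = 0) (a b : ℤ) :
    spF u h d s (a • x + b • y) = 0 := by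
  classical
  unfold spF
  rw [← Finset.sum_subset (Finset.subset_univ (P.biUnion id)) (fun i _ hi => ?_)]
  · rw [Finset.sum_biUnion hP]
    refine Finset.sum_eq_zero fun B hBP => ?_
    obtain ⟨i0, hi0⟩ := hne B hBP
    obtain ⟨n1, n2⟩ := hx B hBP i0 hi0
    show ∑ i ∈ B, u i * (s i * lin (h i) (a • x + b • y) ^ d) = 0
    have e1 : (lin (h i0) x ^ d) * ∑ i ∈ B, u i * (s i * lin (h i) (a • x + b • y) ^ d) =
        (a * lin (h i0) x + b * lin (h i0) y) ^ d * ∑ i ∈ B, u i * (s i * lin (h i) x ^ d) := by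
      rw [Finset.mul_sum, Finset.mul_sum]
      refine Finset.sum_congr rfl fun i hi => ?_
      have e2 : lin (h i0) x * lin (h i) (a • x + b • y) =
          (a * lin (h i0) x + b * lin (h i0) y) * lin (h i) x := by
        rw [lin_comb]
        have := hxy B hBP i hi i0 hi0
        linear_combination (-b) * this
      have e3 : lin (h i0) x ^ d * lin (h i) (a • x + b • y) ^ d =
          (a * lin (h i0) x + b * lin (h i0) y) ^ d * lin (h i) x ^ d := by
        rw [← mul_pow, ← mul_pow, e2]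
      linear_combination (u i * s i) * e3
    rw [hB B hBP, mul_zero] at e1
    exact (mul_eq_zero.1 e1).resolve_left (pow_ne_zero _ n1)
  · rcases h0 i hi with h1 | ⟨h1, h2⟩
    · rw [h1, zero_mul]
    · rw [lin_comb, h1, h2, mul_zero, mul_zero, add_zero, zero_pow hd, mul_zero, mul_zero]

end Pool.Agent.Y902.GN
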