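import Mathlib
import Pool.Agent.Y902.GN.Mb
import Pool.Agent.Y902.GN.Sp
import Pool.Agent.Y902.GN.FinB

/-!
# Systems of equations between powers of monomials: few keys
-/

set_option autoImplicit false

namespace Pool.Agent.Y902.GN

open Filter

/-- `P` is a partition of the set of indices of nonzero terms into minimal vanishing sums -/
structure MPat {N M : ℕ} (u : Fin M → ℤ) (g : Fin M → Fin N → ℕ) (d : ℕ) (s : Fin M → ℤ)
    (t : Fin N → ℤ) (P : Finset (Finset (Fin M))) : Prop where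
  blk : ∀ B ∈ P, B.Nonempty ∧ ∑ i ∈ B, u i * (s i * mm (g i) t ^ d) = 0 ∧
    ∀ K ⊆ B, K.Nonempty → K ≠ B → ∑ i ∈ K, u i * (s i * mm (g i) t ^ d) ≠ 0
  un : ∀ i, i ∈ P.biUnion id ↔ u i * (s i * mm (g i) t ^ d) ≠ 0
  dis : Set.PairwiseDisjoint (P : Set (Finset (Fin M))) id

theorem MPat.ex {N M : ℕ} {u : Fin M → ℤ} {g : Fin M → Fin N → ℕ} {d : ℕ} {s : Fin M → ℤ}
    {t : Fin N → ℤ} (h0 : ∑ i, u i * (s i * mm (g i) t ^ d) = 0) : ∃ P, MPat u g d s t P := by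
  classical
  obtain ⟨P, h1, h2, h3⟩ := min_blocks (fun i => u i * (s i * mm (g i) t ^ d)) _
    (Finset.univ.filter fun i => u i * (s i * mm (g i) t ^ d) ≠ 0) le_rfl (by
      rw [Finset.sum_filter_ne_zero]
      exact h0)
  refine ⟨P, h1, fun i => ?_, h3⟩
  rw [h2, Finset.mem_filter]
  exact ⟨fun h => h.2, fun h => ⟨Finset.mem_univ _, h⟩⟩

/-- two indices are in the same block for one of the equations -/
def Same {M r : ℕ} (P : Fin r → Finset (Finset (Fin M))) (i i' : Fin M) : Prop :=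
  ∃ k, ∃ B ∈ P k, i ∈ B ∧ i' ∈ B

open Classical in
/-- the ratios of the monomials in the blocks -/
noncomputable def mrat {N M r : ℕ} (P : Fin r → Finset (Finset (Fin M)))
    (g : Fin M → Fin N → ℕ) (t : Fin N → ℤ) : Fin M → Fin M → ℚ := fun i i' =>
  if Same P i i' then (mm (g i) t : ℚ) / (mm (g i') t : ℚ) else 0

/-- the data of a solution with a given key -/
structure MonSol (N M r E d Y : ℕ) (u : Fin r → Fin M → ℤ) (g : Fin M → Fin N → ℕ)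
    (κ : (Fin r → Finset (Finset (Fin M))) × (Fin M → Fin M → ℚ)) (t : Fin N → ℤ)
    (s : Fin r → Fin M → ℤ) : Prop where
  t1 : ∀ q, t q ≠ 0 ∧ |t q| ≤ (Y : ℤ)
  s1 : ∀ k i, |s k i| ≤ (Y : ℤ) ^ E
  pat : ∀ k, MPat (u k) g d (s k) t (κ.1 k)
  rat : κ.2 = mrat κ.1 g t

/-- **There are few keys.** -/
theorem monk (N M r E : ℕ) (ε : ℝ) (hε : 0 < ε) : ∃ (R : ℕ) (δ : ℝ), 0 < δ ∧
    ∀ (Y : ℕ), 1 ≤ Y → ∀ d : ℕ, R ≤ d → (d : ℝ) ≤ (Y : ℝ) ^ δ → ∀ (u : Fin r → Fin M → ℤ),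
      (∀ k i, ((|u k i| : ℤ) : ℝ) ≤ Real.exp ((Y : ℝ) ^ δ)) → ∀ (g : Fin M → Fin N → ℕ),
      (∀ i j, (g i j : ℝ) ≤ (Y : ℝ) ^ δ) →
      ∀ (T : Finset ((Fin r → Finset (Finset (Fin M))) × (Fin M → Fin M → ℚ))),
        (∀ κ ∈ T, ∃ (t : Fin N → ℤ) (s : Fin r → Fin M → ℤ), MonSol N M r E d Y u g κ t s) →
      (T.card : ℝ) ≤ (Y : ℝ) ^ ε := by
  classical
  by_contra hcon
  push Not at hcon
  have hseq := fun ν : ℕ => hcon (ν + 1) (1 / ((ν : ℝ) + 1)) (by positivity)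
  choose Y0 hY1 d hd1 hd2 u hu g hg T hT hc using hseq
  have hY1' : ∀ ν, (1 : ℝ) ≤ (Y0 ν : ℝ) := fun ν => by exact_mod_cast hY1 ν
  have hdY : ∀ ν, d ν ≤ Y0 ν := by
    intro ν
    have h1 : (d ν : ℝ) ≤ (Y0 ν : ℝ) := by
      refine (hd2 ν).trans ?_
      calc (Y0 ν : ℝ) ^ (1 / ((ν : ℝ) + 1)) ≤ (Y0 ν : ℝ) ^ (1 : ℝ) := by
            apply Real.rpow_le_rpow_of_exponent_le (hY1' ν)
            rw [div_le_one (by positivity)]
            have : (0 : ℝ) ≤ (ν : ℝ) := Nat.cast_nonneg _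
            linarith
        _ = (Y0 ν : ℝ) := Real.rpow_one _
    exact_mod_cast h1
  have hY0 : ∀ m : ℕ, ∀ᶠ ν in (Uf : Filter ℕ), m ≤ Y0 ν := by
    intro m
    filter_upwards [ev_ge m] with ν hν
    have := hd1 ν
    have := hdY ν
    omega
  obtain ⟨Y, hYd⟩ : ∃ Y : ℕ → ℕ, ∀ ν, Y ν = Y0 ν ^ (E + 2) := ⟨_, fun _ => rfl⟩
  have hYY : ∀ ν, Y0 ν ≤ Y ν := fun ν => by
    rw [hYd]
    exact Nat.le_self_pow (by omega) _
  have hY : ∀ m : ℕ, ∀ᶠ ν in (Uf : Filter ℕ), m ≤ Y ν := fun m =>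
    (hY0 m).mono fun ν hν => hν.trans (hYY ν)
  have hYYe : ∀ᶠ ν in (Uf : Filter ℕ), Y0 ν ≤ Y ν := Filter.Eventually.of_forall hYY
  have hbig : Big Y T := by
    refine big_of_card (ε := ε / (E + 2)) (by positivity) (hY 2) (Filter.Eventually.of_forall
      fun ν => ?_)
    rw [hYd]
    push_cast
    rw [← Real.rpow_natCast, ← Real.rpow_mul (by positivity)]
    have : ((E + 2 : ℕ) : ℝ) * (ε / ((E : ℝ) + 2)) = ε := by
      push_cast
      field_simp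
    rw [this]
    exact hc ν
  -- the patterns
  obtain ⟨T0, a1, a2, a3⟩ := hbig.fiber (fun _ κ => κ.1) (fun _ => Finset.univ)
    (Filter.Eventually.of_forall fun ν t _ => Finset.mem_univ _) (Few.const hY _)
  obtain ⟨P, hP⟩ : ∃ P : Fin r → Finset (Finset (Fin M)), ∀ᶠ ν in (Uf : Filter ℕ),
      ∀ κ ∈ T0 ν, κ.1 = P := by
    apply ev_exists
    filter_upwards [a2.nonempty, a3] with ν h1 h2
    obtain ⟨κ0, hκ0⟩ := h1
    exact ⟨κ0.1, fun κ hκ => h2 κ hκ κ0 hκ0⟩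
  choose! xx ss hs' using hT
  have hinj : ∀ᶠ ν in (Uf : Filter ℕ), Set.InjOn (xx ν) (T0 ν) := by
    filter_upwards [a1, hP] with ν h1 h2 κ hκ κ' hκ' hxx
    have e1 := (hs' ν κ (h1 hκ)).rat
    have e2 := (hs' ν κ' (h1 hκ')).rat
    rw [h2 κ hκ] at e1
    rw [h2 κ' hκ'] at e2
    refine Prod.ext ?_ ?_
    · rw [h2 κ hκ, h2 κ' hκ']
    · rw [e1, e2, hxx]
  have hbigA := big_image a2 xx hinj
  have hkey : ∀ ν x, x ∈ (T0 ν).image (xx ν) → ∃ κ, κ ∈ T0 ν ∧ xx ν κ = x := by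
    intro ν x hx
    exact Finset.mem_image.1 hx
  choose! key hkey1 hkey2 using hkey
  obtain ⟨s, hsd⟩ : ∃ s : ℕ → (Fin N → ℤ) → Fin r → Fin M → ℤ, ∀ ν x,
      s ν x = ss ν (key ν x) := ⟨_, fun _ _ => rfl⟩
  have hs : ∀ᶠ ν in (Uf : Filter ℕ), ∀ x ∈ (T0 ν).image (xx ν),
      (∀ j, x j ≠ 0 ∧ |x j| ≤ (Y0 ν : ℤ)) ∧ (∀ k i, |s ν x k i| ≤ (Y0 ν : ℤ) ^ E) ∧
      (∀ k, MPat (u ν k) (g ν) (d ν) (s ν x k) x (P k)) ∧ key ν x = (P, mrat P (g ν) x) := by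
    filter_upwards [a1, hP] with ν h1 h2 x hx
    have h3 := hkey1 ν x hx
    have h4 := hkey2 ν x hx
    have h5 := hs' ν _ (h1 h3)
    rw [h4] at h5
    have h6 := h5.pat
    have h7 := h5.rat
    rw [h2 _ h3] at h6 h7
    refine ⟨h5.t1, ?_, ?_, Prod.ext (h2 _ h3) h7⟩
    · rw [hsd]
      exact h5.s1
    · rw [hsd]
      exact h6
  -- bounds
  have hxb : ∀ᶠ ν in (Uf : Filter ℕ), ∀ x ∈ (T0 ν).image (xx ν), ∀ j,
      x j ≠ 0 ∧ |x j| ≤ (Y ν : ℤ) := by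
    filter_upwards [hs] with ν h1 x hx j
    have h2 := (h1 x hx).1 j
    refine ⟨h2.1, h2.2.trans ?_⟩
    exact_mod_cast hYY ν
  have hsb : ∀ᶠ ν in (Uf : Filter ℕ), ∀ x ∈ (T0 ν).image (xx ν), ∀ k i,
      |s ν x k i| ≤ (Y ν : ℤ) := by
    filter_upwards [hs] with ν h1 x hx k i
    refine ((h1 x hx).2.1 k i).trans ?_
    rw [hYd]
    push_cast
    exact pow_le_pow_right₀ (by exact_mod_cast hY1 ν) (by omega)
  have hdν : ∀ ν, d ν ≤ ⌊((1 : ℕ) : ℝ) * (Y0 ν : ℝ) ^ (1 / ((ν : ℝ) + 1))⌋₊ := by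
    intro ν
    apply Nat.le_floor
    rw [Nat.cast_one, one_mul]
    exact hd2 ν
  have hgν : ∀ ν i j, g ν i j ≤ ⌊((1 : ℕ) : ℝ) * (Y0 ν : ℝ) ^ (1 / ((ν : ℝ) + 1))⌋₊ := by
    intro ν i j
    apply Nat.le_floor
    rw [Nat.cast_one, one_mul]
    exact hg ν i j
  have hgf : Few Y (fun ν => ∑ i, ∑ j, d ν * g ν i j) := by
    have h1 := (few_rpow hY0 1).mono_Y hYYe
    have h2 := ((Few.const hY (M * N)).mul (h1.mul h1))
    refine h2.mono (Filter.Eventually.of_forall fun ν => ?_)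
    obtain ⟨f, hf⟩ : ∃ f : ℕ, f = ⌊((1 : ℕ) : ℝ) * (Y0 ν : ℝ) ^ (1 / ((ν : ℝ) + 1))⌋₊ := ⟨_, rfl⟩
    have q1 := hdν ν
    have q2 := hgν ν
    simp only [← hf] at q1 q2 ⊢
    calc ∑ i, ∑ j, d ν * g ν i j ≤ ∑ _i : Fin M, ∑ _j : Fin N, (f + 1) * (f + 1) := by
          refine Finset.sum_le_sum fun i _ => Finset.sum_le_sum fun j _ => ?_
          exact Nat.mul_le_mul (by omega) ((q2 i j).trans (by omega))
      _ = _ := by simp; ring
  have hdl : ∀ m : ℕ, ∀ᶠ ν in (Uf : Filter ℕ), m ≤ d ν := fun m => by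
    filter_upwards [ev_ge m] with ν hν
    have := hd1 ν
    omega
  have hub : ∀ ν k i,
      |u ν k i| ≤ 2 ^ (⌊((2 : ℕ) : ℝ) * (Y0 ν : ℝ) ^ (1 / ((ν : ℝ) + 1))⌋₊ + 1) := by
    intro ν k i
    have h5 := (hu ν k i).trans (exp_le_two_pow (by positivity))
    exact_mod_cast h5
  -- the ratios are constant
  obtain ⟨A1, g1, g2, g3⟩ := Big.const_all (Y := Y)
    ((Finset.univ : Finset (Fin r)).biUnion fun k => (P k).biUnion fun B =>
      (B ×ˢ B).image fun p => (k, B, p.1, p.2))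
    (fun q ν x => ((mm (g ν q.2.2.1) x : ℚ) / (mm (g ν q.2.2.2) x : ℚ))) hbigA (by
      rintro ⟨k, B, i, i'⟩ hq A' hA' hbig'
      obtain ⟨k', _, hq⟩ := Finset.mem_biUnion.1 hq
      obtain ⟨B', hB', hq⟩ := Finset.mem_biUnion.1 hq
      obtain ⟨⟨j, j'⟩, hj, hjj⟩ := Finset.mem_image.1 hq
      simp only [Prod.mk.injEq] at hjj
      obtain ⟨rfl, rfl, rfl, rfl⟩ := hjj
      obtain ⟨hj1, hj2⟩ := Finset.mem_product.1 hj
      simp only at hj1 hj2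
      have hτ : ∀ᶠ ν in (Uf : Filter ℕ), ∀ x ∈ A' ν, ∀ i ∈ B',
          u ν k' i * (s ν x k' i * mm (g ν i) x ^ d ν) ≠ 0 := by
        filter_upwards [hA', hs] with ν h1 h2 x hx i hi
        exact (((h2 x (h1 hx)).2.2.1 k').un i).1 (Finset.mem_biUnion.2 ⟨B', hB', hi⟩)
      obtain ⟨A'', h1, h2, h3⟩ := mblockB hY hbig'
        (by filter_upwards [hxb, hA'] with ν k1 k2 x hx using k1 x (k2 hx)) B'
        g (fun ν x i => s ν x k' i)
        (by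
          filter_upwards [hsb, hA', hτ] with ν k1 k2 k3 x hx i hi
          exact ⟨left_ne_zero_of_mul (right_ne_zero_of_mul (k3 x hx i hi)), k1 x (k2 hx) k' i⟩)
        d _ hgf ((few_rpow hY0 2).mono_Y hYYe) hdl (fun ν => u ν k')
        (by
          filter_upwards [hτ, hbig'.nonempty] with ν k1 k2 i hi
          obtain ⟨x, hx⟩ := k2
          exact ⟨left_ne_zero_of_mul (k1 x hx i hi), hub ν k' i⟩)
        (by
          filter_upwards [hA', hs] with ν k1 k2 x hx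
          exact (((k2 x (k1 hx)).2.2.1 k').blk B' hB').2.1)
        (by
          filter_upwards [hA', hs] with ν k1 k2 x hx
          exact (((k2 x (k1 hx)).2.2.1 k').blk B' hB').2.2)
      refine ⟨A'', h1, h2, ?_⟩
      filter_upwards [h3 j hj1 j' hj2, h1, hxb, hA'] with ν k1 k2 k3 k4 x hx x' hx'
      have hne : ∀ x ∈ A'' ν, (mm (g ν j') x : ℚ) ≠ 0 := by
        intro x hx
        exact_mod_cast mm_ne _ fun q => (k3 x (k4 (k2 hx)) q).1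
      show (mm (g ν j) x : ℚ) / (mm (g ν j') x : ℚ) = (mm (g ν j) x' : ℚ) / (mm (g ν j') x' : ℚ)
      rw [div_eq_div_iff (hne x hx) (hne x' hx')]
      exact_mod_cast k1 x hx x' hx')
  -- the end
  have g3' : ∀ᶠ ν in (Uf : Filter ℕ), ∀ i i', Same P i i' → ∀ x ∈ A1 ν, ∀ x' ∈ A1 ν,
      ((mm (g ν i) x : ℚ) / (mm (g ν i') x : ℚ)) =
        ((mm (g ν i) x' : ℚ) / (mm (g ν i') x' : ℚ)) := by
    rw [Filter.eventually_all]
    intro i
    rw [Filter.eventually_all]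
    intro i'
    by_cases hii : Same P i i'
    · obtain ⟨k, B, hB, hi, hi'⟩ := id hii
      filter_upwards [g3 (k, B, i, i') (Finset.mem_biUnion.2 ⟨k, Finset.mem_univ _,
        Finset.mem_biUnion.2 ⟨B, hB, Finset.mem_image.2
        ⟨(i, i'), Finset.mem_product.2 ⟨hi, hi'⟩, rfl⟩⟩⟩)] with ν h _ using h
    · exact Filter.Eventually.of_forall fun ν h => absurd h hii
  obtain ⟨ν, k1, k2, k3, k4⟩ := (g1.and (g3'.and (g2.one_lt.and hs))).exists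
  obtain ⟨x, hx, y, hy, hxy⟩ := Finset.one_lt_card.1 k3
  have G := k4 x (k1 hx)
  have G' := k4 y (k1 hy)
  apply hxy
  rw [← hkey2 ν x (k1 hx), ← hkey2 ν y (k1 hy), G.2.2.2, G'.2.2.2]
  congr 2
  funext i i'
  unfold mrat
  by_cases hii : Same P i i'
  · rw [if_pos hii, if_pos hii]
    exact k2 i i' hii x hx y hy
  · rw [if_neg hii, if_neg hii]

end Pool.Agent.Y902.GN
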