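import Mathlib
import Pool.Agent.Y902.GN.Mk

/-!
# Three collinear points: the relations between the six monomials
-/

set_option autoImplicit false

namespace Pool.Agent.Y902.GN

theorem lin6 (A B C D : ℝ) (B0 : Finset (Fin 6)) (t : Fin 6 → ℤ)
    (H0 : ∀ j, j ∈ B0 → (![A + D, C, B, A, D, B + C] : Fin 6 → ℝ) j = A + D)
    (H1 : ∀ j k, j ∉ B0 → k ∉ B0 → (![A + D, C, B, A, D, B + C] : Fin 6 → ℝ) j =
      (![A + D, C, B, A, D, B + C] : Fin 6 → ℝ) k)
    (S0 : t 0 + (if (1 : Fin 6) ∈ B0 then t 1 else 0) + (if (2 : Fin 6) ∈ B0 then t 2 else 0) +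
      (if (3 : Fin 6) ∈ B0 then t 3 else 0) + (if (4 : Fin 6) ∈ B0 then t 4 else 0) +
      (if (5 : Fin 6) ∈ B0 then t 5 else 0) = 0)
    (S1 : (if (1 : Fin 6) ∈ B0 then 0 else t 1) + (if (2 : Fin 6) ∈ B0 then 0 else t 2) +
      (if (3 : Fin 6) ∈ B0 then 0 else t 3) + (if (4 : Fin 6) ∈ B0 then 0 else t 4) +
      (if (5 : Fin 6) ∈ B0 then 0 else t 5) = 0)
    (nz : ∀ i, t i ≠ 0) (nd : ∀ a b : Fin 6, a < 3 → 3 ≤ b → t a + t b ≠ 0) :
    A = 0 ∧ B = 0 ∧ C = 0 ∧ D = 0 := by
  by_cases h1 : (1 : Fin 6) ∈ B0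
  · by_cases h2 : (2 : Fin 6) ∈ B0
    · by_cases h3 : (3 : Fin 6) ∈ B0
      · by_cases h4 : (4 : Fin 6) ∈ B0
        · by_cases h5 : (5 : Fin 6) ∈ B0
          · have e1 : C = A + D := H0 1 h1
            have e2 : B = A + D := H0 2 h2
            have e3 : A = A + D := H0 3 h3
            have e4 : D = A + D := H0 4 h4
            have e5 : B + C = A + D := H0 5 h5
            refine ⟨?_, ?_, ?_, ?_⟩ <;> linarith
          · rw [if_pos h1, if_pos h2, if_pos h3, if_pos h4, if_neg h5] at S1
            exact absurd (by linarith) (nz 5)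
        · by_cases h5 : (5 : Fin 6) ∈ B0
          · rw [if_pos h1, if_pos h2, if_pos h3, if_neg h4, if_pos h5] at S1
            exact absurd (by linarith) (nz 4)
          · have e1 : C = A + D := H0 1 h1
            have e2 : B = A + D := H0 2 h2
            have e3 : A = A + D := H0 3 h3
            have f4 : D = B + C := H1 4 5 h4 h5
            refine ⟨?_, ?_, ?_, ?_⟩ <;> linarith
      · by_cases h4 : (4 : Fin 6) ∈ B0
        · by_cases h5 : (5 : Fin 6) ∈ B0
          · rw [if_pos h1, if_pos h2, if_neg h3, if_pos h4, if_pos h5] at S1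
            exact absurd (by linarith) (nz 3)
          · have e1 : C = A + D := H0 1 h1
            have e2 : B = A + D := H0 2 h2
            have e4 : D = A + D := H0 4 h4
            have f3 : A = B + C := H1 3 5 h3 h5
            refine ⟨?_, ?_, ?_, ?_⟩ <;> linarith
        · by_cases h5 : (5 : Fin 6) ∈ B0
          · have e1 : C = A + D := H0 1 h1
            have e2 : B = A + D := H0 2 h2
            have e5 : B + C = A + D := H0 5 h5
            have f3 : A = D := H1 3 4 h3 h4
            refine ⟨?_, ?_, ?_, ?_⟩ <;> linarith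
          · have e1 : C = A + D := H0 1 h1
            have e2 : B = A + D := H0 2 h2
            have f3 : A = D := H1 3 4 h3 h4
            have f4 : D = B + C := H1 4 5 h4 h5
            refine ⟨?_, ?_, ?_, ?_⟩ <;> linarith
    · by_cases h3 : (3 : Fin 6) ∈ B0
      · by_cases h4 : (4 : Fin 6) ∈ B0
        · by_cases h5 : (5 : Fin 6) ∈ B0
          · rw [if_pos h1, if_neg h2, if_pos h3, if_pos h4, if_pos h5] at S1
            exact absurd (by linarith) (nz 2)
          · rw [if_pos h1, if_neg h2, if_pos h3, if_pos h4, if_neg h5] at S1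
            exact absurd (by linarith) (nd 2 5 (by decide) (by decide))
        · by_cases h5 : (5 : Fin 6) ∈ B0
          · rw [if_pos h1, if_neg h2, if_pos h3, if_neg h4, if_pos h5] at S1
            exact absurd (by linarith) (nd 2 4 (by decide) (by decide))
          · have e1 : C = A + D := H0 1 h1
            have e3 : A = A + D := H0 3 h3
            have f2 : B = D := H1 2 4 h2 h4
            have f4 : D = B + C := H1 4 5 h4 h5
            refine ⟨?_, ?_, ?_, ?_⟩ <;> linarith
      · by_cases h4 : (4 : Fin 6) ∈ B0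
        · by_cases h5 : (5 : Fin 6) ∈ B0
          · rw [if_pos h1, if_neg h2, if_neg h3, if_pos h4, if_pos h5] at S1
            exact absurd (by linarith) (nd 2 3 (by decide) (by decide))
          · have e1 : C = A + D := H0 1 h1
            have e4 : D = A + D := H0 4 h4
            have f2 : B = A := H1 2 3 h2 h3
            have f3 : A = B + C := H1 3 5 h3 h5
            refine ⟨?_, ?_, ?_, ?_⟩ <;> linarith
        · by_cases h5 : (5 : Fin 6) ∈ B0
          · have e1 : C = A + D := H0 1 h1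
            have e5 : B + C = A + D := H0 5 h5
            have f2 : B = A := H1 2 3 h2 h3
            have f3 : A = D := H1 3 4 h3 h4
            refine ⟨?_, ?_, ?_, ?_⟩ <;> linarith
          · have e1 : C = A + D := H0 1 h1
            have f2 : B = A := H1 2 3 h2 h3
            have f3 : A = D := H1 3 4 h3 h4
            have f4 : D = B + C := H1 4 5 h4 h5
            refine ⟨?_, ?_, ?_, ?_⟩ <;> linarith
  · by_cases h2 : (2 : Fin 6) ∈ B0
    · by_cases h3 : (3 : Fin 6) ∈ B0
      · by_cases h4 : (4 : Fin 6) ∈ B0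
        · by_cases h5 : (5 : Fin 6) ∈ B0
          · rw [if_neg h1, if_pos h2, if_pos h3, if_pos h4, if_pos h5] at S1
            exact absurd (by linarith) (nz 1)
          · rw [if_neg h1, if_pos h2, if_pos h3, if_pos h4, if_neg h5] at S1
            exact absurd (by linarith) (nd 1 5 (by decide) (by decide))
        · by_cases h5 : (5 : Fin 6) ∈ B0
          · rw [if_neg h1, if_pos h2, if_pos h3, if_neg h4, if_pos h5] at S1
            exact absurd (by linarith) (nd 1 4 (by decide) (by decide))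
          · have e2 : B = A + D := H0 2 h2
            have e3 : A = A + D := H0 3 h3
            have f1 : C = D := H1 1 4 h1 h4
            have f4 : D = B + C := H1 4 5 h4 h5
            refine ⟨?_, ?_, ?_, ?_⟩ <;> linarith
      · by_cases h4 : (4 : Fin 6) ∈ B0
        · by_cases h5 : (5 : Fin 6) ∈ B0
          · rw [if_neg h1, if_pos h2, if_neg h3, if_pos h4, if_pos h5] at S1
            exact absurd (by linarith) (nd 1 3 (by decide) (by decide))
          · have e2 : B = A + D := H0 2 h2
            have e4 : D = A + D := H0 4 h4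
            have f1 : C = A := H1 1 3 h1 h3
            have f3 : A = B + C := H1 3 5 h3 h5
            refine ⟨?_, ?_, ?_, ?_⟩ <;> linarith
        · by_cases h5 : (5 : Fin 6) ∈ B0
          · have e2 : B = A + D := H0 2 h2
            have e5 : B + C = A + D := H0 5 h5
            have f1 : C = A := H1 1 3 h1 h3
            have f3 : A = D := H1 3 4 h3 h4
            refine ⟨?_, ?_, ?_, ?_⟩ <;> linarith
          · have e2 : B = A + D := H0 2 h2
            have f1 : C = A := H1 1 3 h1 h3
            have f3 : A = D := H1 3 4 h3 h4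
            have f4 : D = B + C := H1 4 5 h4 h5
            refine ⟨?_, ?_, ?_, ?_⟩ <;> linarith
    · by_cases h3 : (3 : Fin 6) ∈ B0
      · by_cases h4 : (4 : Fin 6) ∈ B0
        · by_cases h5 : (5 : Fin 6) ∈ B0
          · have e3 : A = A + D := H0 3 h3
            have e4 : D = A + D := H0 4 h4
            have e5 : B + C = A + D := H0 5 h5
            have f1 : C = B := H1 1 2 h1 h2
            refine ⟨?_, ?_, ?_, ?_⟩ <;> linarith
          · have e3 : A = A + D := H0 3 h3
            have e4 : D = A + D := H0 4 h4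
            have f1 : C = B := H1 1 2 h1 h2
            have f2 : B = B + C := H1 2 5 h2 h5
            refine ⟨?_, ?_, ?_, ?_⟩ <;> linarith
        · by_cases h5 : (5 : Fin 6) ∈ B0
          · have e3 : A = A + D := H0 3 h3
            have e5 : B + C = A + D := H0 5 h5
            have f1 : C = B := H1 1 2 h1 h2
            have f2 : B = D := H1 2 4 h2 h4
            refine ⟨?_, ?_, ?_, ?_⟩ <;> linarith
          · rw [if_neg h1, if_neg h2, if_pos h3, if_neg h4, if_neg h5] at S0
            exact absurd (by linarith) (nd 0 3 (by decide) (by decide))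
      · by_cases h4 : (4 : Fin 6) ∈ B0
        · by_cases h5 : (5 : Fin 6) ∈ B0
          · have e4 : D = A + D := H0 4 h4
            have e5 : B + C = A + D := H0 5 h5
            have f1 : C = B := H1 1 2 h1 h2
            have f2 : B = A := H1 2 3 h2 h3
            refine ⟨?_, ?_, ?_, ?_⟩ <;> linarith
          · rw [if_neg h1, if_neg h2, if_neg h3, if_pos h4, if_neg h5] at S0
            exact absurd (by linarith) (nd 0 4 (by decide) (by decide))
        · by_cases h5 : (5 : Fin 6) ∈ B0
          · rw [if_neg h1, if_neg h2, if_neg h3, if_neg h4, if_pos h5] at S0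
            exact absurd (by linarith) (nd 0 5 (by decide) (by decide))
          · rw [if_neg h1, if_neg h2, if_neg h3, if_neg h4, if_neg h5] at S0
            exact absurd (by linarith) (nz 0)

theorem par2 : ∀ a b : Fin 6, a ≠ b → ¬ (a < 3 ∧ 3 ≤ b) → ¬ (b < 3 ∧ 3 ≤ a) →
    (({a, b} : Finset (Fin 6)) ∩ {0, 1, 2}).card % 2 = 0 := by
  decide

theorem blk_two {t : Fin 6 → ℤ} (nz : ∀ i, t i ≠ 0)
    (nd : ∀ a b : Fin 6, a < 3 → 3 ≤ b → t a + t b ≠ 0) {B : Finset (Fin 6)} (hB : B.Nonempty)
    (hs : ∑ i ∈ B, t i = 0) : 2 ≤ B.card ∧ (B.card = 2 → (B ∩ {0, 1, 2}).card % 2 = 0) := by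
  constructor
  · by_contra h
    have h1 : B.card = 1 := by
      have := hB.card_pos
      omega
    obtain ⟨i, rfl⟩ := Finset.card_eq_one.1 h1
    rw [Finset.sum_singleton] at hs
    exact nz i hs
  · intro h
    obtain ⟨a, b, hab, rfl⟩ := Finset.card_eq_two.1 h
    rw [Finset.sum_pair hab] at hs
    refine par2 a b hab (fun h1 => nd a b h1.1 h1.2 hs) (fun h1 => nd b a h1.1 h1.2 ?_)
    rw [add_comm]
    exact hs

theorem blk_same {P : Finset (Finset (Fin 6))} {t : Fin 6 → ℤ} (nz : ∀ i, t i ≠ 0)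
    (nd : ∀ a b : Fin 6, a < 3 → 3 ≤ b → t a + t b ≠ 0)
    (hb : ∀ B ∈ P, B.Nonempty ∧ ∑ i ∈ B, t i = 0)
    (hdis : Set.PairwiseDisjoint (P : Set (Finset (Fin 6))) id) {B0 B1 B2 : Finset (Fin 6)}
    (h0 : B0 ∈ P) (h1 : B1 ∈ P) (h2 : B2 ∈ P) (h01 : B0 ≠ B1) (h02 : B0 ≠ B2) : B1 = B2 := by
  by_contra h12
  have d01 : Disjoint B0 B1 := hdis (Finset.mem_coe.2 h0) (Finset.mem_coe.2 h1) h01
  have d02 : Disjoint B0 B2 := hdis (Finset.mem_coe.2 h0) (Finset.mem_coe.2 h2) h02
  have d12 : Disjoint B1 B2 := hdis (Finset.mem_coe.2 h1) (Finset.mem_coe.2 h2) h12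
  obtain ⟨c0, p0⟩ := blk_two nz nd (hb B0 h0).1 (hb B0 h0).2
  obtain ⟨c1, p1⟩ := blk_two nz nd (hb B1 h1).1 (hb B1 h1).2
  obtain ⟨c2, p2⟩ := blk_two nz nd (hb B2 h2).1 (hb B2 h2).2
  have d : Disjoint (B0 ∪ B1) B2 := by
    rw [Finset.disjoint_union_left]
    exact ⟨d02, d12⟩
  have hc : (B0 ∪ B1 ∪ B2).card = B0.card + B1.card + B2.card := by
    rw [Finset.card_union_of_disjoint d, Finset.card_union_of_disjoint d01]
  have hle : (B0 ∪ B1 ∪ B2).card ≤ 6 := (Finset.card_le_univ _).trans (by simp)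
  have hun : B0 ∪ B1 ∪ B2 = Finset.univ := by
    rw [← Finset.card_eq_iff_eq_univ, Fintype.card_fin]
    omega
  have hc2 : ((B0 ∪ B1 ∪ B2) ∩ {0, 1, 2}).card = (B0 ∩ {0, 1, 2}).card + (B1 ∩ {0, 1, 2}).card +
      (B2 ∩ {0, 1, 2}).card := by
    rw [Finset.union_inter_distrib_right, Finset.union_inter_distrib_right,
      Finset.card_union_of_disjoint, Finset.card_union_of_disjoint]
    · exact Finset.disjoint_of_subset_left Finset.inter_subset_left
        (Finset.disjoint_of_subset_right Finset.inter_subset_left d01)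
    · rw [← Finset.union_inter_distrib_right]
      exact Finset.disjoint_of_subset_left Finset.inter_subset_left
        (Finset.disjoint_of_subset_right Finset.inter_subset_left d)
  rw [hun, Finset.univ_inter] at hc2
  have h3 : ({0, 1, 2} : Finset (Fin 6)).card = 3 := by decide
  have q0 := p0 (by omega)
  have q1 := p1 (by omega)
  have q2 := p2 (by omega)
  omega

/-- in the blocks of a partition into vanishing sums the logarithms of the monomials determine the
logarithms of the coordinates -/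
theorem alg6 {P : Finset (Finset (Fin 6))} {t : Fin 6 → ℤ} (nz : ∀ i, t i ≠ 0)
    (nd : ∀ a b : Fin 6, a < 3 → 3 ≤ b → t a + t b ≠ 0) (hs : ∑ i, t i = 0)
    (hb : ∀ B ∈ P, B.Nonempty ∧ ∑ i ∈ B, t i = 0)
    (hdis : Set.PairwiseDisjoint (P : Set (Finset (Fin 6))) id) (hu : ∀ i, ∃ B ∈ P, i ∈ B)
    (A B C D : ℝ)
    (hL : ∀ i i', (∃ K ∈ P, i ∈ K ∧ i' ∈ K) → (![A + D, C, B, A, D, B + C] : Fin 6 → ℝ) i =
      (![A + D, C, B, A, D, B + C] : Fin 6 → ℝ) i') : A = 0 ∧ B = 0 ∧ C = 0 ∧ D = 0 := by
  obtain ⟨B0, hB0, h0⟩ := hu 0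
  have e1 : ∑ i, (if i ∈ B0 then t i else 0) = 0 := by
    rw [Finset.sum_ite_mem, Finset.univ_inter]
    exact (hb B0 hB0).2
  have e2 : ∑ i, (if i ∈ B0 then 0 else t i) = 0 := by
    have : ∑ i, (if i ∈ B0 then 0 else t i) = ∑ i, t i - ∑ i, (if i ∈ B0 then t i else 0) := by
      rw [← Finset.sum_sub_distrib]
      refine Finset.sum_congr rfl fun i _ => ?_
      split_ifs <;> simp
    rw [this, hs, e1, sub_zero]
  refine lin6 A B C D B0 t (fun j hj => hL j 0 ⟨B0, hB0, hj, h0⟩) (fun j k hj hk => ?_) ?_ ?_ nz nd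
  · obtain ⟨B1, hB1, h1⟩ := hu j
    obtain ⟨B2, hB2, h2⟩ := hu k
    have h12 : B1 = B2 := blk_same nz nd hb hdis hB0 hB1 hB2 (fun h => hj (h ▸ h1))
      (fun h => hk (h ▸ h2))
    exact hL j k ⟨B1, hB1, h1, h12 ▸ h2⟩
  · rw [Fin.sum_univ_six, if_pos h0] at e1
    exact e1
  · rw [Fin.sum_univ_six, if_pos h0, zero_add] at e2
    exact e2

end Pool.Agent.Y902.GN
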