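import Mathlib
import Pool.Agent.Y902.GN.Ug
import Pool.Agent.Y902.GN.Dy

/-!
# Few diagonal curves with three points
-/

set_option autoImplicit false

namespace Pool.Agent.Y902.GN

/-- the exponents of the six monomials in numerators and denominators -/
def g6 (m n : ℕ) : Fin 6 → Fin 8 → ℕ :=
  ![![m, 0, 0, n, 0, n, m, 0], ![0, 0, m, 0, m, n, 0, n], ![0, n, 0, 0, m, 0, m, n],
    ![m, 0, 0, 0, 0, n, m, n], ![0, 0, 0, n, m, n, m, 0], ![0, n, m, 0, m, 0, 0, n]]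

/-- numerators and denominators -/
def t8 (p q r s : ℚ) : Fin 8 → ℤ := ![p.num, q.num, r.num, s.num, p.den, q.den, r.den, s.den]

/-- the signs -/
def u6 : Fin 6 → ℤ := ![1, 1, 1, -1, -1, -1]

/-- the monomials -/
def M6 (m n : ℕ) (p q r s : ℚ) : Fin 6 → ℚ :=
  ![p ^ m * s ^ n, r ^ m, q ^ n, p ^ m, s ^ n, q ^ n * r ^ m]

/-- the common denominator -/
def D6 (m n : ℕ) (p q r s : ℚ) : ℚ :=
  (p.den : ℚ) ^ m * (q.den : ℚ) ^ n * (r.den : ℚ) ^ m * (s.den : ℚ) ^ n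

theorem D6_ne (m n : ℕ) (p q r s : ℚ) : D6 m n p q r s ≠ 0 := by
  unfold D6
  have h1 : (p.den : ℚ) ≠ 0 := by exact_mod_cast p.den_nz
  have h2 : (q.den : ℚ) ≠ 0 := by exact_mod_cast q.den_nz
  have h3 : (r.den : ℚ) ≠ 0 := by exact_mod_cast r.den_nz
  have h4 : (s.den : ℚ) ≠ 0 := by exact_mod_cast s.den_nz
  positivity

theorem mm6 (m n : ℕ) (p q r s : ℚ) (i : Fin 6) :
    ((mm (g6 m n i) (t8 p q r s) : ℤ) : ℚ) = D6 m n p q r s * M6 m n p q r s i := by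
  have ep : (p.num : ℚ) = p * p.den := (Rat.mul_den_eq_num p).symm
  have eq : (q.num : ℚ) = q * q.den := (Rat.mul_den_eq_num q).symm
  have er : (r.num : ℚ) = r * r.den := (Rat.mul_den_eq_num r).symm
  have es : (s.num : ℚ) = s * s.den := (Rat.mul_den_eq_num s).symm
  unfold mm D6
  rw [Fin.prod_univ_eight]
  push_cast
  fin_cases i
  · show (p.num : ℚ) ^ m * (q.num : ℚ) ^ 0 * (r.num : ℚ) ^ 0 * (s.num : ℚ) ^ n *
      (p.den : ℚ) ^ 0 * (q.den : ℚ) ^ n * (r.den : ℚ) ^ m * (s.den : ℚ) ^ 0 =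
      _ * (p ^ m * s ^ n)
    rw [ep, es]
    ring
  · show (p.num : ℚ) ^ 0 * (q.num : ℚ) ^ 0 * (r.num : ℚ) ^ m * (s.num : ℚ) ^ 0 *
      (p.den : ℚ) ^ m * (q.den : ℚ) ^ n * (r.den : ℚ) ^ 0 * (s.den : ℚ) ^ n = _ * r ^ m
    rw [er]
    ring
  · show (p.num : ℚ) ^ 0 * (q.num : ℚ) ^ n * (r.num : ℚ) ^ 0 * (s.num : ℚ) ^ 0 *
      (p.den : ℚ) ^ m * (q.den : ℚ) ^ 0 * (r.den : ℚ) ^ m * (s.den : ℚ) ^ n = _ * q ^ n
    rw [eq]
    ring
  · show (p.num : ℚ) ^ m * (q.num : ℚ) ^ 0 * (r.num : ℚ) ^ 0 * (s.num : ℚ) ^ 0 *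
      (p.den : ℚ) ^ 0 * (q.den : ℚ) ^ n * (r.den : ℚ) ^ m * (s.den : ℚ) ^ n = _ * p ^ m
    rw [ep]
    ring
  · show (p.num : ℚ) ^ 0 * (q.num : ℚ) ^ 0 * (r.num : ℚ) ^ 0 * (s.num : ℚ) ^ n *
      (p.den : ℚ) ^ m * (q.den : ℚ) ^ n * (r.den : ℚ) ^ m * (s.den : ℚ) ^ 0 = _ * s ^ n
    rw [es]
    ring
  · show (p.num : ℚ) ^ 0 * (q.num : ℚ) ^ n * (r.num : ℚ) ^ m * (s.num : ℚ) ^ 0 *
      (p.den : ℚ) ^ m * (q.den : ℚ) ^ 0 * (r.den : ℚ) ^ 0 * (s.den : ℚ) ^ n =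
      _ * (q ^ n * r ^ m)
    rw [eq, er]
    ring

/-- the linear forms in the logarithms -/
def LL (A B C D : ℝ) : Fin 6 → ℝ := ![A + D, C, B, A, D, B + C]

theorem LL_sub (A B C D A' B' C' D' : ℝ) (i : Fin 6) :
    LL (A - A') (B - B') (C - C') (D - D') i = LL A B C D i - LL A' B' C' D' i := by
  fin_cases i
  · show (A - A') + (D - D') = (A + D) - (A' + D'); ring
  · rfl
  · rfl
  · rfl
  · rfl
  · show (B - B') + (C - C') = (B + C) - (B' + C'); ring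

theorem log6 (m n : ℕ) {p q r s : ℚ} (hp : p ≠ 0) (hq : q ≠ 0) (hr : r ≠ 0) (hs : s ≠ 0)
    (i : Fin 6) : Real.log ((M6 m n p q r s i : ℚ) : ℝ) =
      LL (m * Real.log p) (n * Real.log q) (m * Real.log r) (n * Real.log s) i := by
  have hp' : (p : ℝ) ≠ 0 := by exact_mod_cast hp
  have hq' : (q : ℝ) ≠ 0 := by exact_mod_cast hq
  have hr' : (r : ℝ) ≠ 0 := by exact_mod_cast hr
  have hs' : (s : ℝ) ≠ 0 := by exact_mod_cast hs
  fin_cases i
  · show Real.log ((p ^ m * s ^ n : ℚ) : ℝ) = m * Real.log p + n * Real.log s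
    push_cast
    rw [Real.log_mul (pow_ne_zero _ hp') (pow_ne_zero _ hs'), Real.log_pow, Real.log_pow]
  · show Real.log ((r ^ m : ℚ) : ℝ) = m * Real.log r
    push_cast
    rw [Real.log_pow]
  · show Real.log ((q ^ n : ℚ) : ℝ) = n * Real.log q
    push_cast
    rw [Real.log_pow]
  · show Real.log ((p ^ m : ℚ) : ℝ) = m * Real.log p
    push_cast
    rw [Real.log_pow]
  · show Real.log ((s ^ n : ℚ) : ℝ) = n * Real.log s
    push_cast
    rw [Real.log_pow]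
  · show Real.log ((q ^ n * r ^ m : ℚ) : ℝ) = n * Real.log q + m * Real.log r
    push_cast
    rw [Real.log_mul (pow_ne_zero _ hq') (pow_ne_zero _ hr'), Real.log_pow, Real.log_pow]

theorem M6_ne (m n : ℕ) {p q r s : ℚ} (hp : p ≠ 0) (hq : q ≠ 0) (hr : r ≠ 0) (hs : s ≠ 0)
    (i : Fin 6) : M6 m n p q r s i ≠ 0 := by
  fin_cases i
  · exact mul_ne_zero (pow_ne_zero _ hp) (pow_ne_zero _ hs)
  · exact pow_ne_zero _ hr
  · exact pow_ne_zero _ hq
  · exact pow_ne_zero _ hp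
  · exact pow_ne_zero _ hs
  · exact mul_ne_zero (pow_ne_zero _ hq) (pow_ne_zero _ hr)

/-- the data of three points -/
structure Tri (m n d Y : ℕ) (α p q r s : ℚ) : Prop where
  a0 : α ≠ 0
  a1 : α ≠ 1
  hp : p ≠ 0 ∧ HtLe Y p
  hq : q ≠ 0 ∧ HtLe Y q
  hr : r ≠ 0 ∧ HtLe Y r
  hs : s ≠ 0 ∧ HtLe Y s
  e1 : α * p ^ (m * d) + (1 - α) * q ^ (n * d) = 1
  e2 : α * r ^ (m * d) + (1 - α) * s ^ (n * d) = 1
  n1 : p ^ (m * d) ≠ 1
  n2 : r ^ (m * d) ≠ 1
  n3 : p ^ (m * d) ≠ r ^ (m * d)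

theorem nd9 {α x y z w : ℚ} (a0 : α ≠ 0) (_a1 : α ≠ 1) (e1 : α * x + (1 - α) * y = 1)
    (e2 : α * z + (1 - α) * w = 1) (hx : x ≠ 1) (hz : z ≠ 1) (hxz : x ≠ z) :
    y ≠ 1 ∧ w ≠ 1 ∧ y ≠ w ∧ x ≠ y ∧ z ≠ w ∧ x * w ≠ y * z := by
  have hyw : y ≠ w := by
    intro h
    subst h
    have : α * (x - z) = 0 := by linear_combination e1 - e2
    rcases mul_eq_zero.1 this with h | h
    · exact a0 h
    · exact hxz (by linarith)
  refine ⟨?_, ?_, hyw, ?_, ?_, ?_⟩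
  · intro h
    subst h
    have : α * (x - 1) = 0 := by linear_combination e1
    rcases mul_eq_zero.1 this with h | h
    · exact a0 h
    · exact hx (by linarith)
  · intro h
    subst h
    have : α * (z - 1) = 0 := by linear_combination e2
    rcases mul_eq_zero.1 this with h | h
    · exact a0 h
    · exact hz (by linarith)
  · intro h
    subst h
    exact hx (by linear_combination e1)
  · intro h
    subst h
    exact hz (by linear_combination e2)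
  · intro h
    exact hyw (by linear_combination (-α) * h + w * e1 - y * e2)

theorem rel6 {α x y z w : ℚ} (a0 : α ≠ 0) (a1 : α ≠ 1) (e1 : α * x + (1 - α) * y = 1)
    (e2 : α * z + (1 - α) * w = 1) : x * w + z + y - x - w - y * z = 0 := by
  have h1 : α * (x - 1) = -((1 - α) * (y - 1)) := by linear_combination e1
  have h2 : α * (z - 1) = -((1 - α) * (w - 1)) := by linear_combination e2
  have h3 : (α * (1 - α)) * (x * w + z + y - x - w - y * z) = 0 := by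
    linear_combination ((1 - α) * (w - 1)) * h1 - ((1 - α) * (y - 1)) * h2
  rcases mul_eq_zero.1 h3 with h | h
  · exfalso
    rcases mul_eq_zero.1 h with h | h
    · exact a0 h
    · exact a1 (by linarith)
  · exact h

end Pool.Agent.Y902.GN
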