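import Mathlib
import Pool.Agent.Y902.GN.Ug2

/-!
# Few diagonal curves with three points: the count
-/

set_option autoImplicit false

namespace Pool.Agent.Y902.GN

theorem t8_bd {Y : ℕ} {p q r s : ℚ} (hp : p ≠ 0 ∧ HtLe Y p) (hq : q ≠ 0 ∧ HtLe Y q)
    (hr : r ≠ 0 ∧ HtLe Y r) (hs : s ≠ 0 ∧ HtLe Y s) (j : Fin 8) :
    t8 p q r s j ≠ 0 ∧ |t8 p q r s j| ≤ (Y : ℤ) := by
  have key : ∀ x : ℚ, x ≠ 0 ∧ HtLe Y x → (x.num ≠ 0 ∧ |x.num| ≤ (Y : ℤ)) ∧
      (((x.den : ℕ) : ℤ) ≠ 0 ∧ |((x.den : ℕ) : ℤ)| ≤ (Y : ℤ)) := by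
    intro x hx
    refine ⟨⟨Rat.num_ne_zero.2 hx.1, hx.2.1⟩, by exact_mod_cast x.den_nz, ?_⟩
    rw [abs_of_nonneg (by positivity)]
    exact_mod_cast hx.2.2
  fin_cases j
  · exact (key p hp).1
  · exact (key q hq).1
  · exact (key r hr).1
  · exact (key s hs).1
  · exact (key p hp).2
  · exact (key q hq).2
  · exact (key r hr).2
  · exact (key s hs).2

/-- the six terms -/
def tm (m n d : ℕ) (p q r s : ℚ) (i : Fin 6) : ℤ := u6 i * (1 * mm (g6 m n i) (t8 p q r s) ^ d)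

theorem tm_cast (m n d : ℕ) (p q r s : ℚ) (i : Fin 6) :
    ((tm m n d p q r s i : ℤ) : ℚ) = D6 m n p q r s ^ d * (u6 i * M6 m n p q r s i ^ d) := by
  unfold tm
  push_cast
  rw [mm6, mul_pow]
  ring

theorem Tri.tm_facts {m n d Y : ℕ} {α p q r s : ℚ} (h : Tri m n d Y α p q r s) :
    (∀ i, tm m n d p q r s i ≠ 0) ∧
      (∀ a b : Fin 6, a < 3 → 3 ≤ b → tm m n d p q r s a + tm m n d p q r s b ≠ 0) ∧
      ∑ i, tm m n d p q r s i = 0 := by
  obtain ⟨x, hx⟩ : ∃ x, x = p ^ (m * d) := ⟨_, rfl⟩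
  obtain ⟨y, hy⟩ : ∃ y, y = q ^ (n * d) := ⟨_, rfl⟩
  obtain ⟨z, hz⟩ : ∃ z, z = r ^ (m * d) := ⟨_, rfl⟩
  obtain ⟨w, hw⟩ : ∃ w, w = s ^ (n * d) := ⟨_, rfl⟩
  have e1 := h.e1
  have e2 := h.e2
  have n1 := h.n1
  have n2 := h.n2
  have n3 := h.n3
  have x0 : x ≠ 0 := by rw [hx]; exact pow_ne_zero _ h.hp.1
  have y0 : y ≠ 0 := by rw [hy]; exact pow_ne_zero _ h.hq.1
  have z0 : z ≠ 0 := by rw [hz]; exact pow_ne_zero _ h.hr.1
  have w0 : w ≠ 0 := by rw [hw]; exact pow_ne_zero _ h.hs.1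
  rw [← hx, ← hy] at e1
  rw [← hz, ← hw] at e2
  rw [← hx] at n1
  rw [← hz] at n2
  rw [← hx, ← hz] at n3
  obtain ⟨c1, c2, c3, c4, c5, c6⟩ := nd9 h.a0 h.a1 e1 e2 n1 n2 n3
  have hD : D6 m n p q r s ^ d ≠ 0 := pow_ne_zero _ (D6_ne _ _ _ _ _ _)
  have hv : ∀ i, (u6 i : ℚ) * M6 m n p q r s i ^ d =
      (![x * w, z, y, -x, -w, -(y * z)] : Fin 6 → ℚ) i := by
    intro i
    fin_cases i
    · show ((1 : ℤ) : ℚ) * (p ^ m * s ^ n) ^ d = x * w
      rw [hx, hw, mul_pow, ← pow_mul, ← pow_mul]; push_cast; ring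
    · show ((1 : ℤ) : ℚ) * (r ^ m) ^ d = z
      rw [hz, ← pow_mul]; push_cast; ring
    · show ((1 : ℤ) : ℚ) * (q ^ n) ^ d = y
      rw [hy, ← pow_mul]; push_cast; ring
    · show ((-1 : ℤ) : ℚ) * (p ^ m) ^ d = -x
      rw [hx, ← pow_mul]; push_cast; ring
    · show ((-1 : ℤ) : ℚ) * (s ^ n) ^ d = -w
      rw [hw, ← pow_mul]; push_cast; ring
    · show ((-1 : ℤ) : ℚ) * (q ^ n * r ^ m) ^ d = -(y * z)
      rw [hy, hz, mul_pow, ← pow_mul, ← pow_mul]; push_cast; ring
  have hc : ∀ i, ((tm m n d p q r s i : ℤ) : ℚ) = D6 m n p q r s ^ d *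
      (![x * w, z, y, -x, -w, -(y * z)] : Fin 6 → ℚ) i := fun i => by
    rw [tm_cast, hv]
  refine ⟨fun i hi => ?_, fun a b ha hb hab => ?_, ?_⟩
  · have h1 := hc i
    rw [hi, Int.cast_zero] at h1
    have h2 : (![x * w, z, y, -x, -w, -(y * z)] : Fin 6 → ℚ) i = 0 := by
      rcases mul_eq_zero.1 h1.symm with h3 | h3
      · exact absurd h3 hD
      · exact h3
    fin_cases i
    · exact mul_ne_zero x0 w0 h2
    · exact z0 h2
    · exact y0 h2
    · exact neg_ne_zero.2 x0 h2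
    · exact neg_ne_zero.2 w0 h2
    · exact neg_ne_zero.2 (mul_ne_zero y0 z0) h2
  · have h1 : ((tm m n d p q r s a : ℤ) : ℚ) + ((tm m n d p q r s b : ℤ) : ℚ) = 0 := by
      exact_mod_cast hab
    rw [hc a, hc b, ← mul_add] at h1
    have h2 : (![x * w, z, y, -x, -w, -(y * z)] : Fin 6 → ℚ) a +
        (![x * w, z, y, -x, -w, -(y * z)] : Fin 6 → ℚ) b = 0 := by
      rcases mul_eq_zero.1 h1 with h3 | h3
      · exact absurd h3 hD
      · exact h3
    fin_cases a
    · fin_cases b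
      · exact absurd hb (by decide)
      · exact absurd hb (by decide)
      · exact absurd hb (by decide)
      · have h3 : x * w + -x = 0 := h2
        have h4 : x * (w - 1) = 0 := by linear_combination h3
        rcases mul_eq_zero.1 h4 with h5 | h5
        · exact x0 h5
        · exact c2 (by linarith)
      · have h3 : x * w + -w = 0 := h2
        have h4 : w * (x - 1) = 0 := by linear_combination h3
        rcases mul_eq_zero.1 h4 with h5 | h5
        · exact w0 h5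
        · exact n1 (by linarith)
      · have h3 : x * w + -(y * z) = 0 := h2
        exact c6 (by linarith)
    · fin_cases b
      · exact absurd hb (by decide)
      · exact absurd hb (by decide)
      · exact absurd hb (by decide)
      · have h3 : z + -x = 0 := h2
        exact n3 (by linarith)
      · have h3 : z + -w = 0 := h2
        exact c5 (by linarith)
      · have h3 : z + -(y * z) = 0 := h2
        have h4 : z * (1 - y) = 0 := by linear_combination h3
        rcases mul_eq_zero.1 h4 with h5 | h5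
        · exact z0 h5
        · exact c1 (by linarith)
    · fin_cases b
      · exact absurd hb (by decide)
      · exact absurd hb (by decide)
      · exact absurd hb (by decide)
      · have h3 : y + -x = 0 := h2
        exact c4 (by linarith)
      · have h3 : y + -w = 0 := h2
        exact c3 (by linarith)
      · have h3 : y + -(y * z) = 0 := h2
        have h4 : y * (1 - z) = 0 := by linear_combination h3
        rcases mul_eq_zero.1 h4 with h5 | h5
        · exact y0 h5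
        · exact n2 (by linarith)
    · exact absurd ha (by decide)
    · exact absurd ha (by decide)
    · exact absurd ha (by decide)
  · have h1 : ((∑ i, tm m n d p q r s i : ℤ) : ℚ) = 0 := by
      push_cast
      rw [Finset.sum_congr rfl fun i _ => hc i, ← Finset.mul_sum, Fin.sum_univ_six]
      show D6 m n p q r s ^ d * (x * w + z + y + -x + -w + -(y * z)) = 0
      rw [show x * w + z + y + -x + -w + -(y * z) = x * w + z + y - x - w - y * z by ring,
        rel6 h.a0 h.a1 e1 e2, mul_zero]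
    exact_mod_cast h1

theorem ratio_log {a b a' b' : ℤ} (ha : a ≠ 0) (hb : b ≠ 0) (ha' : a' ≠ 0) (hb' : b' ≠ 0)
    (h : (a : ℚ) / (b : ℚ) = (a' : ℚ) / (b' : ℚ)) :
    Real.log a - Real.log b = Real.log a' - Real.log b' := by
  have h1 : (a : ℝ) ≠ 0 := by exact_mod_cast ha
  have h2 : (b : ℝ) ≠ 0 := by exact_mod_cast hb
  have h3 : (a' : ℝ) ≠ 0 := by exact_mod_cast ha'
  have h4 : (b' : ℝ) ≠ 0 := by exact_mod_cast hb'
  rw [← Real.log_div h1 h2, ← Real.log_div h3 h4]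
  congr 1
  exact_mod_cast h

/-- **Few curves for given exponents.** -/
theorem ugk (ε : ℝ) (hε : 0 < ε) : ∃ (R : ℕ) (δ : ℝ), 0 < δ ∧
    ∀ (Y : ℕ), 1 ≤ Y → ∀ d m n : ℕ, R ≤ d → (d : ℝ) ≤ (Y : ℝ) ^ δ → 1 ≤ m → 1 ≤ n →
      (m : ℝ) ≤ (Y : ℝ) ^ δ → (n : ℝ) ≤ (Y : ℝ) ^ δ → ∀ (T : Finset ℚ),
      (∀ α ∈ T, ∃ p q r s : ℚ, Tri m n d Y α p q r s) → (T.card : ℝ) ≤ 4 * (Y : ℝ) ^ ε := by
  classical
  obtain ⟨R, δ, hδ, H⟩ := monk 8 6 1 0 ε hε
  refine ⟨R, δ, hδ, fun Y hY d m n hd1 hd2 hm hn hmY hnY T hT => ?_⟩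
  choose! p q r s h using hT
  have hpat : ∀ α ∈ T, ∃ P, MPat u6 (g6 m n) d (fun _ => 1) (t8 (p α) (q α) (r α) (s α)) P :=
    fun α hα => MPat.ex (h α hα).tm_facts.2.2
  choose! P hP using hpat
  obtain ⟨κ, hκ⟩ : ∃ κ : ℚ → (Fin 1 → Finset (Finset (Fin 6))) × (Fin 6 → Fin 6 → ℚ),
    κ = fun α => (fun _ => P α, mrat (fun _ : Fin 1 => P α) (g6 m n)
      (t8 (p α) (q α) (r α) (s α))) := ⟨_, rfl⟩
  have hYr : (0 : ℝ) ≤ (Y : ℝ) ^ δ := by positivity
  have hcard := H Y hY d hd1 hd2 (fun _ => u6) (fun _ i => by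
      have h1 : |u6 i| = 1 := by fin_cases i <;> rfl
      rw [h1, Int.cast_one]
      exact Real.one_le_exp hYr) (g6 m n) (fun i j => by
      have h1 : g6 m n i j = 0 ∨ g6 m n i j = m ∨ g6 m n i j = n := by
        fin_cases i <;> fin_cases j <;> simp [g6]
      rcases h1 with h1 | h1 | h1
      · rw [h1, Nat.cast_zero]; exact hYr
      · rw [h1]; exact hmY
      · rw [h1]; exact hnY) (T.image κ) (by
      intro k hk
      obtain ⟨α, hα, rfl⟩ := Finset.mem_image.1 hk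
      refine ⟨t8 (p α) (q α) (r α) (s α), fun _ _ => 1,
        t8_bd (h α hα).hp (h α hα).hq (h α hα).hr (h α hα).hs, fun _ _ => by simp, fun k => ?_, ?_⟩
      · rw [hκ]
        exact hP α hα
      · rw [hκ])
  -- the injection
  have hinj : Set.InjOn (fun α => (κ α, decide (0 < p α), decide (0 < q α))) (T : Set ℚ) := by
    intro α hα' β hβ' hαβ
    have hα := Finset.mem_coe.1 hα'
    have hβ := Finset.mem_coe.1 hβ'
    obtain ⟨k1, k2, k3⟩ : κ α = κ β ∧ decide (0 < p α) = decide (0 < p β) ∧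
        decide (0 < q α) = decide (0 < q β) := by
      simpa using hαβ
    rw [hκ] at k1
    obtain ⟨k4, k5⟩ := Prod.mk.inj k1
    have k6 : P α = P β := congrFun k4 0
    obtain ⟨f1, f2, f3⟩ := (h α hα).tm_facts
    have hPα := hP α hα
    have hne : ∀ γ ∈ T, ∀ i, mm (g6 m n i) (t8 (p γ) (q γ) (r γ) (s γ)) ≠ 0 := fun γ hγ i =>
      mm_ne _ fun j => (t8_bd (h γ hγ).hp (h γ hγ).hq (h γ hγ).hr (h γ hγ).hs j).1
    have hlog : ∀ γ ∈ T, ∀ i, Real.log (mm (g6 m n i) (t8 (p γ) (q γ) (r γ) (s γ)) : ℤ) =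
        Real.log (D6 m n (p γ) (q γ) (r γ) (s γ) : ℚ) +
        LL (m * Real.log (p γ)) (n * Real.log (q γ)) (m * Real.log (r γ)) (n * Real.log (s γ)) i := by
      intro γ hγ i
      rw [← log6 m n (h γ hγ).hp.1 (h γ hγ).hq.1 (h γ hγ).hr.1 (h γ hγ).hs.1 i, ← Real.log_mul]
      · congr 1
        have := mm6 m n (p γ) (q γ) (r γ) (s γ) i
        exact_mod_cast this
      · exact_mod_cast D6_ne m n (p γ) (q γ) (r γ) (s γ)
      · exact_mod_cast M6_ne m n (h γ hγ).hp.1 (h γ hγ).hq.1 (h γ hγ).hr.1 (h γ hγ).hs.1 i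
    have hA := alg6 (P := P α) f1 f2 f3 (fun B hB => ⟨(hPα.blk B hB).1, (hPα.blk B hB).2.1⟩)
      hPα.dis (fun i => by
        have h1 := (hPα.un i).2 (f1 i)
        obtain ⟨B, hB, hi⟩ := Finset.mem_biUnion.1 h1
        exact ⟨B, hB, hi⟩)
      (m * Real.log (p α) - m * Real.log (p β)) (n * Real.log (q α) - n * Real.log (q β))
      (m * Real.log (r α) - m * Real.log (r β)) (n * Real.log (s α) - n * Real.log (s β)) (by
        rintro i i' ⟨K, hK, hi, hi'⟩
        show LL _ _ _ _ i = LL _ _ _ _ i'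
        rw [LL_sub, LL_sub]
        have h1 : Same (fun _ : Fin 1 => P α) i i' := ⟨0, K, hK, hi, hi'⟩
        have h2 : Same (fun _ : Fin 1 => P β) i i' := ⟨0, K, k6 ▸ hK, hi, hi'⟩
        have h3 := congrFun (congrFun k5 i) i'
        unfold mrat at h3
        rw [if_pos h1, if_pos h2] at h3
        have h4 := ratio_log (hne α hα i) (hne α hα i') (hne β hβ i) (hne β hβ i') h3
        rw [hlog α hα i, hlog α hα i', hlog β hβ i, hlog β hβ i'] at h4
        linarith)
    obtain ⟨a1, a2, _, _⟩ := hA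
    have hm0 : (m : ℝ) ≠ 0 := by exact_mod_cast (by omega : m ≠ 0)
    have hn0 : (n : ℝ) ≠ 0 := by exact_mod_cast (by omega : n ≠ 0)
    have key : ∀ x y : ℚ, x ≠ 0 → y ≠ 0 → Real.log x = Real.log y →
        decide (0 < x) = decide (0 < y) → x = y := by
      intro x y hx hy hxy hs
      have h1 : |(x : ℝ)| = |(y : ℝ)| := by
        rw [← Real.log_abs, ← Real.log_abs (y : ℝ)] at hxy
        exact Real.log_injOn_pos (Set.mem_Ioi.2 (abs_pos.2 (by exact_mod_cast hx)))
          (Set.mem_Ioi.2 (abs_pos.2 (by exact_mod_cast hy))) hxy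
      have h2 : |x| = |y| := by exact_mod_cast h1
      have h3 : (0 < x ↔ 0 < y) := by simpa using hs
      rcases abs_eq_abs.1 h2 with h4 | h4
      · exact h4
      · exfalso
        rcases lt_or_gt_of_ne hx with h5 | h5
        · exact absurd (h3.2 (by linarith)) (by linarith)
        · exact absurd (h3.1 h5) (by linarith)
    have hpp : p α = p β := key _ _ (h α hα).hp.1 (h β hβ).hp.1 (by
      have : (m : ℝ) * (Real.log (p α) - Real.log (p β)) = 0 := by linarith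
      rcases mul_eq_zero.1 this with h5 | h5
      · exact absurd h5 hm0
      · linarith) k2
    have hqq : q α = q β := key _ _ (h α hα).hq.1 (h β hβ).hq.1 (by
      have : (n : ℝ) * (Real.log (q α) - Real.log (q β)) = 0 := by linarith
      rcases mul_eq_zero.1 this with h5 | h5
      · exact absurd h5 hn0
      · linarith) k3
    have e1 := (h α hα).e1
    have e2 := (h β hβ).e1
    rw [← hpp, ← hqq] at e2
    have hne4 : p α ^ (m * d) ≠ q α ^ (n * d) :=
      (nd9 (h α hα).a0 (h α hα).a1 (h α hα).e1 (h α hα).e2 (h α hα).n1 (h α hα).n2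
        (h α hα).n3).2.2.2.1
    have h6 : (α - β) * (p α ^ (m * d) - q α ^ (n * d)) = 0 := by linear_combination e1 - e2
    rcases mul_eq_zero.1 h6 with h7 | h7
    · linarith
    · exact absurd (by linarith) hne4
  have h8 : T.card ≤ (T.image κ ×ˢ (Finset.univ : Finset (Bool × Bool))).card := by
    refine Finset.card_le_card_of_injOn _ ?_ hinj
    intro α hα
    exact Finset.mem_coe.2 (Finset.mem_product.2 ⟨Finset.mem_image_of_mem _ (Finset.mem_coe.1 hα),
      Finset.mem_univ _⟩)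
  rw [Finset.card_product] at h8
  have h9 : (Finset.univ : Finset (Bool × Bool)).card = 4 := by decide
  rw [h9] at h8
  have h10 : (T.card : ℝ) ≤ ((T.image κ).card : ℝ) * 4 := by exact_mod_cast h8
  linarith

end Pool.Agent.Y902.GN
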