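import Mathlib
import Pool.Agent.Y902.GN.Ug3

/-!
# Few diagonal curves with three points: all exponents
-/

set_option autoImplicit false

namespace Pool.Agent.Y902.GN

theorem nine {α : ℚ} (a0 : α ≠ 0) (a1 : α ≠ 1) {M N : ℕ} (hM : M ≠ 0) (hN : N ≠ 0)
    {S : Set (ℚ × ℚ)} (hS : 8 < S.encard)
    (h : ∀ P ∈ S, P.1 ≠ 0 ∧ P.2 ≠ 0 ∧ α * P.1 ^ M + (1 - α) * P.2 ^ N = 1) :
    ∃ P ∈ S, ∃ Q ∈ S, P.1 ^ M ≠ 1 ∧ Q.1 ^ M ≠ 1 ∧ P.1 ^ M ≠ Q.1 ^ M := by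
  have a1' : 1 - α ≠ 0 := sub_ne_zero.2 (Ne.symm a1)
  have key : ∀ (k : ℕ) (_ : k ≠ 0) (x y : ℚ), x ^ k = y ^ k → x = y ∨ x = -y := by
    intro k hk x y hxy
    have h4 : |x| ^ k = |y| ^ k := by rw [← abs_pow, ← abs_pow, hxy]
    exact abs_eq_abs.1 ((pow_left_inj₀ (abs_nonneg _) (abs_nonneg _) hk).1 h4)
  have cls : ∀ x y : ℚ, α * x ^ M + (1 - α) * y ^ N = 1 → ∀ Q ∈ S, Q.1 ^ M = x ^ M →
      Q = (x, y) ∨ Q = (x, -y) ∨ Q = (-x, y) ∨ Q = (-x, -y) := by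
    intro x y hxy Q hQ hQx
    obtain ⟨_, _, hc⟩ := h Q hQ
    have h1 : Q.2 ^ N = y ^ N := by
      refine mul_left_cancel₀ a1' ?_
      rw [hQx] at hc
      linear_combination hc - hxy
    rcases key M hM _ _ hQx with h2 | h2 <;> rcases key N hN _ _ h1 with h3 | h3
    · exact Or.inl (Prod.ext h2 h3)
    · exact Or.inr (Or.inl (Prod.ext h2 h3))
    · exact Or.inr (Or.inr (Or.inl (Prod.ext h2 h3)))
    · exact Or.inr (Or.inr (Or.inr (Prod.ext h2 h3)))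
  have four' : ∀ (x y : ℚ) (U : Set (ℚ × ℚ)) (n : ℕ), U.encard ≤ n →
      (({(x, y), (x, -y), (-x, y), (-x, -y)} : Set (ℚ × ℚ)) ∪ U).encard ≤ (4 + n : ℕ) := by
    intro x y U n hU
    refine (Set.encard_union_le _ _).trans ?_
    have h1 : ({(x, y), (x, -y), (-x, y), (-x, -y)} : Set (ℚ × ℚ)).encard ≤ 4 := by
      calc ({(x, y), (x, -y), (-x, y), (-x, -y)} : Set (ℚ × ℚ)).encard
          ≤ ({(x, -y), (-x, y), (-x, -y)} : Set (ℚ × ℚ)).encard + 1 := Set.encard_insert_le _ _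
        _ ≤ (({(-x, y), (-x, -y)} : Set (ℚ × ℚ)).encard + 1) + 1 := by
            gcongr; exact Set.encard_insert_le _ _
        _ ≤ ((({(-x, -y)} : Set (ℚ × ℚ)).encard + 1) + 1) + 1 := by
            gcongr; exact Set.encard_insert_le _ _
        _ = 4 := by rw [Set.encard_singleton]; norm_num
    calc _ ≤ (4 : ℕ∞) + (n : ℕ∞) := add_le_add h1 hU
      _ = ((4 + n : ℕ) : ℕ∞) := by push_cast; rfl
  have h11 : α * 1 ^ M + (1 - α) * 1 ^ N = 1 := by rw [one_pow, one_pow]; ring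
  by_contra hcon
  push Not at hcon
  by_cases hP : ∃ P ∈ S, P.1 ^ M ≠ 1
  · obtain ⟨P, hP1, hP2⟩ := hP
    have hsub : S ⊆ ({(P.1, P.2), (P.1, -P.2), (-P.1, P.2), (-P.1, -P.2)} : Set (ℚ × ℚ)) ∪
        {(1, 1), (1, -1), (-1, 1), (-1, -1)} := by
      intro Q hQ
      by_cases h1 : Q.1 ^ M = 1
      · right
        rcases cls 1 1 h11 Q hQ (by rw [h1, one_pow]) with h2 | h2 | h2 | h2 <;> simp [h2]
      · left
        rcases cls P.1 P.2 (h P hP1).2.2 Q hQ (hcon P hP1 Q hQ hP2 h1).symm with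
          h2 | h2 | h2 | h2 <;> simp [h2]
    have h4 : (({(1, 1), (1, -1), (-1, 1), (-1, -1)} : Set (ℚ × ℚ))).encard ≤ (4 : ℕ) := by
      have := four' 1 1 ∅ 0 (by simp)
      simpa using this
    have := four' P.1 P.2 _ 4 h4
    exact absurd ((Set.encard_le_encard hsub).trans this) (not_le.2 hS)
  · push Not at hP
    have hsub : S ⊆ ({(1, 1), (1, -1), (-1, 1), (-1, -1)} : Set (ℚ × ℚ)) ∪ ∅ := by
      intro Q hQ
      left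
      rcases cls 1 1 h11 Q hQ (by rw [hP Q hQ, one_pow]) with h2 | h2 | h2 | h2 <;> simp [h2]
    have h4 := four' 1 1 ∅ 0 (by simp)
    exact absurd ((Set.encard_le_encard hsub).trans (h4.trans (by norm_num))) (not_le.2 hS)

/-- **Few curves, all exponents.** -/
theorem ug (ε : ℝ) (hε : 0 < ε) : ∃ (R : ℕ) (δ : ℝ), 0 < δ ∧
    ∀ (Y : ℕ), 1 ≤ Y → ∀ (T : Finset (ℕ × ℕ × ℚ)),
      (∀ t ∈ T, R ≤ Nat.gcd t.1 t.2.1 ∧ 1 ≤ t.1 ∧ 1 ≤ t.2.1 ∧ (t.1 : ℝ) ≤ (Y : ℝ) ^ δ ∧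
        (t.2.1 : ℝ) ≤ (Y : ℝ) ^ δ ∧ t.2.2 ≠ 0 ∧ t.2.2 ≠ 1 ∧ ∃ S : Set (ℚ × ℚ), 8 < S.encard ∧
          ∀ P ∈ S, (P.1 ≠ 0 ∧ HtLe Y P.1) ∧ (P.2 ≠ 0 ∧ HtLe Y P.2) ∧
            t.2.2 * P.1 ^ t.1 + (1 - t.2.2) * P.2 ^ t.2.1 = 1) →
      (T.card : ℝ) ≤ (Y : ℝ) ^ ε := by
  classical
  obtain ⟨R, δ1, hδ1, H⟩ := ugk (ε / 4) (by positivity)
  refine ⟨R + 4, min δ1 (ε / 4), by positivity, fun Y hY T hT => ?_⟩
  obtain ⟨δ, hδ⟩ : ∃ δ : ℝ, δ = min δ1 (ε / 4) := ⟨_, rfl⟩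
  rw [← hδ] at hT
  have hδ0 : 0 < δ := by rw [hδ]; positivity
  have hδa : δ ≤ δ1 := by rw [hδ]; exact min_le_left _ _
  have hδb : δ ≤ ε / 4 := by rw [hδ]; exact min_le_right _ _
  have hYr : (1 : ℝ) ≤ (Y : ℝ) := by exact_mod_cast hY
  have hY0 : (0 : ℝ) < (Y : ℝ) := by linarith
  have hmono : ∀ {a b : ℝ}, a ≤ b → (Y : ℝ) ^ a ≤ (Y : ℝ) ^ b :=
    fun hab => Real.rpow_le_rpow_of_exponent_le hYr hab
  rcases T.eq_empty_or_nonempty with rfl | ⟨t0, ht0⟩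
  · rw [Finset.card_empty, Nat.cast_zero]
    positivity
  have h4Y : (4 : ℝ) ≤ (Y : ℝ) ^ (ε / 4) := by
    obtain ⟨e1, e2, _, e3, _⟩ := hT t0 ht0
    have e4 : Nat.gcd t0.1 t0.2.1 ≤ t0.1 := Nat.gcd_le_left _ (by omega)
    have e5 : (4 : ℝ) ≤ (t0.1 : ℝ) := by exact_mod_cast (by omega : 4 ≤ t0.1)
    exact e5.trans (e3.trans (hmono hδb))
  have hfib : ∀ k ∈ T.image (fun t => (t.1, t.2.1)), (T.filter fun t => (t.1, t.2.1) = k).card ≤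
      ⌊4 * (Y : ℝ) ^ (ε / 4)⌋₊ := by
    intro k hk
    obtain ⟨t1, ht1, rfl⟩ := Finset.mem_image.1 hk
    apply Nat.le_floor
    obtain ⟨e1, e2, e2', e3, e3', _⟩ := hT t1 ht1
    obtain ⟨d, hd⟩ : ∃ d, d = Nat.gcd t1.1 t1.2.1 := ⟨_, rfl⟩
    obtain ⟨m, hm⟩ : d ∣ t1.1 := by rw [hd]; exact Nat.gcd_dvd_left _ _
    obtain ⟨n, hn⟩ : d ∣ t1.2.1 := by rw [hd]; exact Nat.gcd_dvd_right _ _
    rw [← hd] at e1
    have hd0 : 0 < d := by omega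
    have hm1 : 1 ≤ m := by
      rcases Nat.eq_zero_or_pos m with h | h
      · rw [h, mul_zero] at hm; omega
      · exact h
    have hn1 : 1 ≤ n := by
      rcases Nat.eq_zero_or_pos n with h | h
      · rw [h, mul_zero] at hn; omega
      · exact h
    have hdm : (d : ℝ) ≤ (t1.1 : ℝ) := by
      exact_mod_cast (by rw [hm]; exact Nat.le_mul_of_pos_right _ hm1 : d ≤ t1.1)
    have hmm : (m : ℝ) ≤ (t1.1 : ℝ) := by
      exact_mod_cast (by rw [hm]; exact Nat.le_mul_of_pos_left _ hd0 : m ≤ t1.1)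
    have hnn : (n : ℝ) ≤ (t1.2.1 : ℝ) := by
      exact_mod_cast (by rw [hn]; exact Nat.le_mul_of_pos_left _ hd0 : n ≤ t1.2.1)
    have hm' : t1.1 = m * d := by rw [hm, mul_comm]
    have hn' : t1.2.1 = n * d := by rw [hn, mul_comm]
    have hinj : Set.InjOn (fun t : ℕ × ℕ × ℚ => t.2.2)
        (T.filter fun t => (t.1, t.2.1) = (t1.1, t1.2.1) : Finset (ℕ × ℕ × ℚ)) := by
      intro x hx y hy hxy
      have h1 := (Finset.mem_filter.1 (Finset.mem_coe.1 hx)).2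
      have h2 := (Finset.mem_filter.1 (Finset.mem_coe.1 hy)).2
      obtain ⟨h3, h4⟩ := Prod.mk.inj h1
      obtain ⟨h5, h6⟩ := Prod.mk.inj h2
      exact Prod.ext (h3.trans h5.symm) (Prod.ext (h4.trans h6.symm) hxy)
    rw [← Finset.card_image_of_injOn hinj]
    refine H Y hY d m n (by omega) (hdm.trans (e3.trans (hmono hδa))) hm1 hn1
      (hmm.trans (e3.trans (hmono hδa))) (hnn.trans (e3'.trans (hmono hδa))) _ ?_
    intro α hα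
    obtain ⟨t, ht, rfl⟩ := Finset.mem_image.1 hα
    obtain ⟨ht2, ht3⟩ := Finset.mem_filter.1 ht
    obtain ⟨h3, h4⟩ := Prod.mk.inj ht3
    obtain ⟨_, _, _, _, _, a0, a1, S, hS1, hS2⟩ := hT t ht2
    rw [h3, h4, hm', hn'] at hS2
    obtain ⟨P, hP, Q, hQ, g1, g2, g3⟩ := nine a0 a1 (M := m * d) (N := n * d)
      (Nat.mul_ne_zero (by omega) (by omega)) (Nat.mul_ne_zero (by omega) (by omega)) hS1
      (fun P hP => ⟨(hS2 P hP).1.1, (hS2 P hP).2.1.1, (hS2 P hP).2.2⟩)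
    exact ⟨P.1, P.2, Q.1, Q.2, a0, a1, (hS2 P hP).1, (hS2 P hP).2.1, (hS2 Q hQ).1, (hS2 Q hQ).2.1,
      (hS2 P hP).2.2, (hS2 Q hQ).2.2, g1, g2, g3⟩
  have hfin := Finset.card_le_mul_card_image (f := fun t : ℕ × ℕ × ℚ => (t.1, t.2.1)) T
    ⌊4 * (Y : ℝ) ^ (ε / 4)⌋₊ hfib
  have himg : ((T.image fun t => (t.1, t.2.1)).card : ℝ) ≤ (Y : ℝ) ^ δ * (Y : ℝ) ^ δ := by
    have h5 : T.image (fun t => (t.1, t.2.1)) ⊆
        Finset.Icc 1 ⌊(Y : ℝ) ^ δ⌋₊ ×ˢ Finset.Icc 1 ⌊(Y : ℝ) ^ δ⌋₊ := by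
      intro k hk
      obtain ⟨t, ht, rfl⟩ := Finset.mem_image.1 hk
      obtain ⟨_, e2, e2', e3, e3', _⟩ := hT t ht
      exact Finset.mem_product.2 ⟨Finset.mem_Icc.2 ⟨e2, Nat.le_floor e3⟩,
        Finset.mem_Icc.2 ⟨e2', Nat.le_floor e3'⟩⟩
    have h6 := Finset.card_le_card h5
    rw [Finset.card_product, Nat.card_Icc, Nat.add_sub_cancel] at h6
    have h7 : (⌊(Y : ℝ) ^ δ⌋₊ : ℝ) ≤ (Y : ℝ) ^ δ := Nat.floor_le (by positivity)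
    calc ((T.image fun t => (t.1, t.2.1)).card : ℝ) ≤ (⌊(Y : ℝ) ^ δ⌋₊ : ℝ) * ⌊(Y : ℝ) ^ δ⌋₊ := by
          exact_mod_cast h6
      _ ≤ _ := mul_le_mul h7 h7 (by positivity) (by positivity)
  calc (T.card : ℝ) ≤ ((⌊4 * (Y : ℝ) ^ (ε / 4)⌋₊ * (T.image fun t => (t.1, t.2.1)).card : ℕ) : ℝ) := by
        exact_mod_cast hfin
    _ = (⌊4 * (Y : ℝ) ^ (ε / 4)⌋₊ : ℝ) * ((T.image fun t => (t.1, t.2.1)).card : ℝ) := by
        push_cast; rfl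
    _ ≤ (4 * (Y : ℝ) ^ (ε / 4)) * ((Y : ℝ) ^ δ * (Y : ℝ) ^ δ) :=
        mul_le_mul (Nat.floor_le (by positivity)) himg (by positivity) (by positivity)
    _ ≤ ((Y : ℝ) ^ (ε / 4) * (Y : ℝ) ^ (ε / 4)) * ((Y : ℝ) ^ (ε / 4) * (Y : ℝ) ^ (ε / 4)) := by
        refine mul_le_mul (mul_le_mul_of_nonneg_right h4Y (by positivity))
          (mul_le_mul (hmono hδb) (hmono hδb) (by positivity) (by positivity)) (by positivity)
          (by positivity)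
    _ = (Y : ℝ) ^ ε := by
        rw [← Real.rpow_add hY0, ← Real.rpow_add hY0]
        congr 1
        ring

end Pool.Agent.Y902.GN
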