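import Mathlib
import Pool.Agent.Y902.GN.Lp

/-!
# Sums of `n` products of powers of `N` integers: few classes
-/

set_option autoImplicit false

namespace Pool.Agent.Y902.GN

open Filter

/-- the data of a solution (without any coprimality of the bases) -/
structure GcPt (n N E : ℕ) (δ : ℝ) (Y : ℕ) (u : Fin n → ℤ) (a : Fin n → ℤ) : Prop where
  nz : ∀ i, a i ≠ 0
  gcd : ∀ d : ℕ, (∀ i, (d : ℤ) ∣ a i) → d = 1
  sum : ∑ i, u i * a i = 0
  nvs : ∀ K : Finset (Fin n), K.Nonempty → K ≠ Finset.univ → ∑ i ∈ K, u i * a i ≠ 0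
  hi : ∀ i, ((|a i| : ℤ) : ℝ) ≤ Real.exp ((Y : ℝ) ^ δ)
  rep : ∃ (s : Fin n → ℤ) (x : Fin N → ℕ) (e : Fin n → Fin N → ℕ),
    (∀ j, 1 ≤ x j ∧ x j ≤ Y) ∧ (∀ i, |s i| ≤ (Y : ℤ) ^ E) ∧ ∀ i, a i = s i * ∏ j, (x j : ℤ) ^ e i j

/-- the quotients of the coordinates have small height -/
def Near {n : ℕ} (C Y : ℕ) (a a' : Fin n → ℤ) : Prop :=
  ∀ i, ∃ r r' : ℤ, r ≠ 0 ∧ r' ≠ 0 ∧ |r| ≤ ((Y : ℤ) + 2) ^ C ∧ |r'| ≤ ((Y : ℤ) + 2) ^ C ∧
    r * a i = r' * a' i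

theorem Near.mono {n C C' Y : ℕ} {a a' : Fin n → ℤ} (h : Near C Y a a') (hC : C ≤ C') :
    Near C' Y a a' := by
  intro i
  obtain ⟨r, r', h1, h2, h3, h4, h5⟩ := h i
  have h6 : ((Y : ℤ) + 2) ^ C ≤ ((Y : ℤ) + 2) ^ C' := pow_le_pow_right₀ (by omega) hC
  exact ⟨r, r', h1, h2, h3.trans h6, h4.trans h6, h5⟩

/-- primitive vectors whose quotient vectors are nearly constant are near -/
theorem near_of_ratio {n C Y : ℕ} {a a' : Fin n → ℤ} (i0 : Fin n) (hn : ∀ i, a i ≠ 0)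
    (hn' : ∀ i, a' i ≠ 0)
    (hg : ∀ d : ℕ, (∀ i, (d : ℤ) ∣ a i) → d = 1) (hg' : ∀ d : ℕ, (∀ i, (d : ℤ) ∣ a' i) → d = 1)
    (h : ∀ i, ∃ r r' : ℤ, r ≠ 0 ∧ r' ≠ 0 ∧ |r| ≤ ((Y : ℤ) + 2) ^ C ∧ |r'| ≤ ((Y : ℤ) + 2) ^ C ∧
      r * (a i * a' i0) = r' * (a' i * a i0)) : Near ((n + 1) * C) Y a a' := by
  classical
  choose r r' h1 h2 h3 h4 h5 using h
  obtain ⟨g, hgd⟩ : ∃ g : ℤ, g = Int.gcd (a i0) (a' i0) := ⟨_, rfl⟩
  have hg0 : g ≠ 0 := by
    rw [hgd]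
    exact_mod_cast fun h => hn i0 (Int.gcd_eq_zero_iff.1 h).1
  obtain ⟨P, hP⟩ : ∃ P : ℤ, a i0 = g * P := by
    rw [hgd]
    exact Int.gcd_dvd_left _ _
  obtain ⟨Q, hQ⟩ : ∃ Q : ℤ, a' i0 = g * Q := by
    rw [hgd]
    exact Int.gcd_dvd_right _ _
  have hP0 : P ≠ 0 := fun h => hn i0 (by rw [hP, h, mul_zero])
  have hQ0 : Q ≠ 0 := fun h => hn' i0 (by rw [hQ, h, mul_zero])
  have hcop : IsCoprime P Q := by
    rw [Int.isCoprime_iff_gcd_eq_one]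
    have h6 : Int.gcd (g * P) (g * Q) = g.natAbs * Int.gcd P Q := Int.gcd_mul_left _ _ _
    rw [← hP, ← hQ] at h6
    have h7 : g.natAbs = Int.gcd (a i0) (a' i0) := by rw [hgd, Int.natAbs_natCast]
    rw [← h7] at h6
    have h8 : 0 < g.natAbs := Int.natAbs_pos.2 hg0
    exact Nat.eq_of_mul_eq_mul_left h8 (by omega)
  have key : ∀ i, r i * Q * a i = r' i * P * a' i := by
    intro i
    have h6 := h5 i
    rw [hP, hQ] at h6
    apply mul_left_cancel₀ hg0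
    linear_combination h6
  have hRP : ∀ (r : Fin n → ℤ) (P : ℤ) (a : Fin n → ℤ), (∀ i, r i ≠ 0) →
      (∀ i, |r i| ≤ ((Y : ℤ) + 2) ^ C) →
      (∀ d : ℕ, (∀ i, (d : ℤ) ∣ a i) → d = 1) → (∀ i, P ∣ r i * a i) →
      |P| ≤ ((Y : ℤ) + 2) ^ (n * C) := by
    intro r P a hr0 hr hg hd
    have h6 : ∀ i, P ∣ (∏ k, r k) * a i := by
      intro i
      rw [← Finset.mul_prod_erase _ _ (Finset.mem_univ i)]
      have : r i * (∏ k ∈ Finset.univ.erase i, r k) * a i =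
          r i * a i * ∏ k ∈ Finset.univ.erase i, r k := by ring
      rw [this]
      exact (hd i).mul_right _
    have h7 : P ∣ Finset.univ.gcd (fun i => (∏ k, r k) * a i) :=
      Finset.dvd_gcd fun i _ => h6 i
    rw [Finset.gcd_mul_left] at h7
    have h8 : Finset.univ.gcd a = 1 := by
      have h9 : 0 ≤ Finset.univ.gcd a := Int.nonneg_of_normalize_eq_self Finset.normalize_gcd
      have h10 := hg (Finset.univ.gcd a).natAbs fun i => by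
        rw [Int.natCast_natAbs, abs_of_nonneg h9]
        exact Finset.gcd_dvd (Finset.mem_univ i)
      omega
    rw [h8, mul_one] at h7
    have h9 : (∏ k, r k) ≠ 0 := Finset.prod_ne_zero_iff.2 fun k _ => hr0 k
    have h10 : P ∣ ∏ k, r k := h7.trans (normalize_associated _).dvd
    have h11 := Int.le_of_dvd (abs_pos.2 h9) ((abs_dvd _ _).2 ((dvd_abs _ _).2 h10))
    refine h11.trans ?_
    rw [Finset.abs_prod]
    calc ∏ k, |r k| ≤ ∏ _k : Fin n, ((Y : ℤ) + 2) ^ C :=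
          Finset.prod_le_prod (fun _ _ => abs_nonneg _) fun k _ => hr k
      _ = _ := by simp [← pow_mul, mul_comm]
  have hPb : |P| ≤ ((Y : ℤ) + 2) ^ (n * C) := by
    refine hRP r P a h1 h3 hg fun i => ?_
    have h6 : P ∣ Q * (r i * a i) := ⟨r' i * a' i, by linear_combination key i⟩
    exact hcop.dvd_of_dvd_mul_left h6
  have hQb : |Q| ≤ ((Y : ℤ) + 2) ^ (n * C) := by
    refine hRP r' Q a' h2 h4 hg' fun i => ?_
    have h6 : Q ∣ P * (r' i * a' i) := ⟨r i * a i, by linear_combination -key i⟩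
    exact hcop.symm.dvd_of_dvd_mul_left h6
  intro i
  refine ⟨r i * Q, r' i * P, mul_ne_zero (h1 i) hQ0, mul_ne_zero (h2 i) hP0, ?_, ?_, key i⟩
  · rw [abs_mul, show (n + 1) * C = C + n * C by ring, pow_add]
    exact mul_le_mul (h3 i) hQb (abs_nonneg _) (by positivity)
  · rw [abs_mul, show (n + 1) * C = C + n * C by ring, pow_add]
    exact mul_le_mul (h4 i) hPb (abs_nonneg _) (by positivity)

/-- exponents of bases equal to one can be put equal to zero -/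
theorem GcPt.norm {n N E : ℕ} {δ : ℝ} {Y : ℕ} {u a : Fin n → ℤ} (h : GcPt n N E δ Y u a) :
    ∃ (s : Fin n → ℤ) (x : Fin N → ℕ) (e : Fin n → Fin N → ℕ),
    (∀ j, 1 ≤ x j ∧ x j ≤ Y) ∧ (∀ i, |s i| ≤ (Y : ℤ) ^ E) ∧
      (∀ i, a i = s i * ∏ j, (x j : ℤ) ^ e i j) ∧
      ∀ i j, (2 : ℝ) ^ e i j ≤ Real.exp ((Y : ℝ) ^ δ) := by
  obtain ⟨s, x, e, h1, h2, h3⟩ := h.rep
  have h4 : ∀ i, a i = s i * ∏ j, (x j : ℤ) ^ (if x j = 1 then 0 else e i j) := by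
    intro i
    rw [h3 i]
    congr 1
    refine Finset.prod_congr rfl fun j _ => ?_
    by_cases hj : x j = 1
    · simp [hj]
    · simp [hj]
  refine ⟨s, x, fun i j => if x j = 1 then 0 else e i j, h1, h2, h4, fun i j => ?_⟩
  by_cases hj : x j = 1
  · simp only [hj, if_true, pow_zero]
    exact Real.one_le_exp (by positivity)
  · simp only [hj, if_false]
    have hx : 2 ≤ x j := by have := (h1 j).1; omega
    have e1 : (x j : ℤ) ^ e i j ∣ a i := by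
      rw [h3 i]
      exact Dvd.dvd.mul_left (Finset.dvd_prod_of_mem (fun j => (x j : ℤ) ^ e i j)
        (Finset.mem_univ j)) _
    have e2 : (x j : ℤ) ^ e i j ≤ |a i| :=
      Int.le_of_dvd (abs_pos.2 (h.nz i)) ((dvd_abs _ _).2 e1)
    have e3 : (2 : ℤ) ^ e i j ≤ (x j : ℤ) ^ e i j := by
      exact_mod_cast Nat.pow_le_pow_left hx (e i j)
    have e4 : ((2 : ℤ) : ℝ) ^ e i j ≤ ((|a i| : ℤ) : ℝ) := by exact_mod_cast e3.trans e2
    refine le_trans ?_ (h.hi i)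
    push_cast at e4 ⊢
    exact e4

/-- `Y` is large if there are points which are not near -/
theorem y_large {n C Y : ℕ} {a a' : Fin n → ℤ}
    (ha : ∀ i, a i ≠ 0 ∧ ((|a i| : ℤ) : ℝ) ≤ Real.exp (Y : ℝ))
    (ha' : ∀ i, a' i ≠ 0 ∧ ((|a' i| : ℤ) : ℝ) ≤ Real.exp (Y : ℝ)) (h : ¬ Near C Y a a') :
    C ≤ 2 * Y := by
  by_contra hcon
  push Not at hcon
  apply h
  have key : ∀ z : ℤ, ((|z| : ℤ) : ℝ) ≤ Real.exp (Y : ℝ) → |z| ≤ ((Y : ℤ) + 2) ^ C := by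
    intro z hz
    have h1 : Real.exp (Y : ℝ) ≤ ((2 : ℝ)) ^ C := by
      rw [← Real.exp_log (show (0 : ℝ) < 2 ^ C by positivity), Real.log_pow]
      apply Real.exp_le_exp.2
      have h5 : (1 : ℝ) / 2 < Real.log 2 := by
        have := Real.log_two_gt_d9
        linarith
      have h6 : (2 : ℝ) * Y ≤ (C : ℝ) := by exact_mod_cast hcon.le
      nlinarith [(Nat.cast_nonneg C : (0 : ℝ) ≤ (C : ℝ))]
    have h2 : (2 : ℝ) ^ C ≤ ((Y : ℝ) + 2) ^ C :=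
      pow_le_pow_left₀ (by norm_num) (by
        have : (0 : ℝ) ≤ (Y : ℝ) := Nat.cast_nonneg _
        linarith) _
    have h3 := hz.trans (h1.trans h2)
    exact_mod_cast h3
  intro i
  exact ⟨a' i, a i, (ha' i).1, (ha i).1, key _ (ha' i).2, key _ (ha i).2, mul_comm _ _⟩

end Pool.Agent.Y902.GN
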