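import Mathlib
import Pool.Agent.Y902.GN.Gc

/-!
# Sums of `n` products of powers of `N` integers: the theorem
-/

set_option autoImplicit false

namespace Pool.Agent.Y902.GN

open Filter

/-- **Few classes.** -/
theorem gc (n N E : ℕ) (ε : ℝ) (hε : 0 < ε) : ∃ (C : ℕ) (δ : ℝ), 0 < δ ∧
    ∀ (Y : ℕ), 1 ≤ Y → ∀ (u : Fin n → ℤ), (∀ i, u i ≠ 0 ∧
      ((|u i| : ℤ) : ℝ) ≤ Real.exp ((Y : ℝ) ^ δ)) → ∀ (T : Finset (Fin n → ℤ)),
      (∀ a ∈ T, GcPt n N E δ Y u a) → (∀ a ∈ T, ∀ a' ∈ T, a ≠ a' → ¬ Near C Y a a') →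
      (T.card : ℝ) ≤ (Y : ℝ) ^ ε := by
  classical
  by_contra hcon
  push Not at hcon
  have hseq := fun ν : ℕ => hcon ν (1 / ((ν : ℝ) + 1)) (by positivity)
  choose Y0 hY1 u hu T hT hTn hc using hseq
  have hY1' : ∀ ν, (1 : ℝ) ≤ (Y0 ν : ℝ) := fun ν => by exact_mod_cast hY1 ν
  have hpow : ∀ ν, (Y0 ν : ℝ) ^ (1 / ((ν : ℝ) + 1)) ≤ (Y0 ν : ℝ) := by
    intro ν
    calc (Y0 ν : ℝ) ^ (1 / ((ν : ℝ) + 1)) ≤ (Y0 ν : ℝ) ^ (1 : ℝ) := by
          apply Real.rpow_le_rpow_of_exponent_le (hY1' ν)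
          rw [div_le_one (by positivity)]
          have : (0 : ℝ) ≤ (ν : ℝ) := Nat.cast_nonneg _
          linarith
      _ = (Y0 ν : ℝ) := Real.rpow_one _
  have hYlarge : ∀ ν, ν ≤ 2 * Y0 ν := by
    intro ν
    have h1 : (1 : ℝ) ≤ (Y0 ν : ℝ) ^ ε := Real.one_le_rpow (hY1' ν) hε.le
    have h2 : 1 < (T ν).card := by exact_mod_cast lt_of_le_of_lt h1 (hc ν)
    obtain ⟨a, ha, a', ha', hne⟩ := Finset.one_lt_card.1 h2
    have h3 := hT ν a ha
    have h4 := hT ν a' ha'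
    exact y_large (fun i => ⟨h3.nz i, (h3.hi i).trans (Real.exp_le_exp.2 (hpow ν))⟩)
      (fun i => ⟨h4.nz i, (h4.hi i).trans (Real.exp_le_exp.2 (hpow ν))⟩) (hTn ν a ha a' ha' hne)
  have hY0 : ∀ m : ℕ, ∀ᶠ ν in (Uf : Filter ℕ), m ≤ Y0 ν := by
    intro m
    filter_upwards [ev_ge (2 * m)] with ν hν
    have := hYlarge ν
    omega
  obtain ⟨Y, hYd⟩ : ∃ Y : ℕ → ℕ, ∀ ν, Y ν = Y0 ν ^ (E + 1) := ⟨_, fun _ => rfl⟩
  have hYY : ∀ ν, Y0 ν ≤ Y ν := fun ν => by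
    rw [hYd]
    exact Nat.le_self_pow (by omega) _
  have hY : ∀ m : ℕ, ∀ᶠ ν in (Uf : Filter ℕ), m ≤ Y ν := fun m =>
    (hY0 m).mono fun ν hν => hν.trans (hYY ν)
  have hYYe : ∀ᶠ ν in (Uf : Filter ℕ), Y0 ν ≤ Y ν := Filter.Eventually.of_forall hYY
  have hbig : Big Y T := by
    refine big_of_card (ε := ε / (E + 1)) (by positivity) (hY 2) (Filter.Eventually.of_forall
      fun ν => ?_)
    rw [hYd]
    push_cast
    rw [← Real.rpow_natCast, ← Real.rpow_mul (by positivity)]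
    have : ((E + 1 : ℕ) : ℝ) * (ε / ((E : ℝ) + 1)) = ε := by
      push_cast
      field_simp
    rw [this]
    exact hc ν
  -- representations
  choose! s x e hx hs ha he using fun ν a (h : a ∈ T ν) => (hT ν a h).norm
  have heb : ∀ ν, ∀ a ∈ T ν, ∀ i j, e ν a i j <
      ⌊((2 : ℕ) : ℝ) * (Y0 ν : ℝ) ^ (1 / ((ν : ℝ) + 1))⌋₊ + 1 := by
    intro ν a h i j
    exact exp_bd (he ν a h i j) le_rfl
  -- constant exponents
  obtain ⟨T', h1, h2, h3⟩ := hbig.fiber (fun ν a => e ν a)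
    (fun ν => Fintype.piFinset fun _ : Fin n => Fintype.piFinset fun _ : Fin N =>
      Finset.range (⌊((2 : ℕ) : ℝ) * (Y0 ν : ℝ) ^ (1 / ((ν : ℝ) + 1))⌋₊ + 1))
    (Filter.Eventually.of_forall fun ν a h => by
      rw [Fintype.mem_piFinset]
      intro i
      rw [Fintype.mem_piFinset]
      intro j
      rw [Finset.mem_range]
      exact heb ν a h i j) (by
      have h4 := (((few_rpow hY0 2).mono_Y hYYe).pow N).pow n
      refine h4.mono (Filter.Eventually.of_forall fun ν => ?_)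
      rw [Fintype.card_piFinset_const, Fintype.card_piFinset_const, Finset.card_range])
  obtain ⟨e0, he0⟩ : ∃ e0 : ℕ → Fin n → Fin N → ℕ, ∀ᶠ ν in (Uf : Filter ℕ),
      (∀ a ∈ T' ν, e ν a = e0 ν) := by
    have h4 : ∀ᶠ ν in (Uf : Filter ℕ), ∃ e0 : Fin n → Fin N → ℕ, ∀ a ∈ T' ν, e ν a = e0 := by
      filter_upwards [h3, h2.nonempty] with ν a b
      obtain ⟨p0, hp0⟩ := b
      exact ⟨e ν p0, fun p hp => a p hp p0 hp0⟩
    exact h4.choice
  have he0b : ∀ᶠ ν in (Uf : Filter ℕ), ∀ i j, e0 ν i j ≤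
      ⌊((2 : ℕ) : ℝ) * (Y0 ν : ℝ) ^ (1 / ((ν : ℝ) + 1))⌋₊ + 1 := by
    filter_upwards [he0, h1, h2.nonempty] with ν a b c i j
    obtain ⟨p0, hp0⟩ := c
    rw [← a p0 hp0]
    exact (heb ν p0 (b hp0) i j).le
  -- the points
  obtain ⟨pt, hpt⟩ : ∃ pt : ℕ → (Fin n → ℤ) → Fin (N + n) → ℤ, ∀ ν a, pt ν a =
      Fin.append (fun j => (x ν a j : ℤ)) (s ν a) := ⟨_, fun _ _ => rfl⟩
  obtain ⟨ee, hee⟩ : ∃ ee : ℕ → Fin n → Fin (N + n) → ℕ, ∀ ν i, ee ν i =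
      Fin.append (e0 ν i) (fun i' => if i' = i then 1 else 0) := ⟨_, fun _ _ => rfl⟩
  have hprod : ∀ᶠ ν in (Uf : Filter ℕ), ∀ a ∈ T' ν, ∀ i,
      ∏ q, pt ν a q ^ ee ν i q = a i := by
    filter_upwards [he0, h1] with ν b c a h i
    rw [hpt, hee, prod_append, ha ν a (c h) i, b a h]
  have hinj : ∀ᶠ ν in (Uf : Filter ℕ), Set.InjOn (pt ν) (T' ν) := by
    filter_upwards [hprod] with ν b a h a' h' hpp
    funext i
    rw [← b a h i, ← b a' h' i, hpp]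
  have hOm := big_image h2 pt hinj
  have hb : Bdd Y (fun ν => (T' ν).image (pt ν)) := by
    filter_upwards [h1] with ν c t ht q
    obtain ⟨a, h, rfl⟩ := Finset.mem_image.1 ht
    rw [hpt]
    refine Fin.addCases (fun j => ?_) (fun i => ?_) q
    · rw [Fin.append_left]
      have h6 := hx ν a (c h) j
      refine ⟨?_, ?_⟩
      · have : x ν a j ≠ 0 := by omega
        exact_mod_cast this
      · rw [abs_of_nonneg (by positivity)]
        exact_mod_cast h6.2.trans (hYY ν)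
    · rw [Fin.append_right]
      refine ⟨?_, ?_⟩
      · intro h7
        apply (hT ν a (c h)).nz i
        rw [ha ν a (c h) i, h7, zero_mul]
      · refine (hs ν a (c h) i).trans ?_
        rw [hYd]
        push_cast
        exact pow_le_pow_right₀ (by exact_mod_cast hY1 ν) (by omega)
  have hfew : Few Y (fun ν => ∑ i, ∑ q, ee ν i q) := by
    have h4 := (Few.const hY (n * (N + n))).mul ((few_rpow hY0 2).mono_Y hYYe)
    refine h4.mono ?_
    filter_upwards [he0b] with ν b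
    calc ∑ i, ∑ q, ee ν i q ≤ ∑ _i : Fin n, ∑ _q : Fin (N + n),
          (⌊((2 : ℕ) : ℝ) * (Y0 ν : ℝ) ^ (1 / ((ν : ℝ) + 1))⌋₊ + 1) := by
          refine Finset.sum_le_sum fun i _ => Finset.sum_le_sum fun q _ => ?_
          rw [hee]
          refine Fin.addCases (fun j => ?_) (fun i' => ?_) q
          · rw [Fin.append_left]
            exact b _ _
          · rw [Fin.append_right]
            split_ifs <;> omega
      _ = _ := by simp; ring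
  let S : TS Y (fun ν => (T' ν).image (pt ν)) n :=
    { e := ee
      u := u
      w := fun ν => ⌊((2 : ℕ) : ℝ) * (Y0 ν : ℝ) ^ (1 / ((ν : ℝ) + 1))⌋₊ + 1
      he := hfew
      hu := Filter.Eventually.of_forall fun ν i => ⟨(hu ν i).1, by
        have h5 := (hu ν i).2.trans (exp_le_two_pow (by positivity))
        exact_mod_cast h5⟩
      hw := (few_rpow hY0 2).mono_Y hYYe
      sum0 := by
        filter_upwards [hprod, h1] with ν b c t ht
        obtain ⟨a, h, rfl⟩ := Finset.mem_image.1 ht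
        simp only [b a h]
        exact (hT ν a (c h)).sum }
  have hST : ∀ᶠ ν in (Uf : Filter ℕ), ∀ a ∈ T' ν, ∀ i, S.T ν i (pt ν a) = u ν i * a i := by
    filter_upwards [hprod] with ν b a h i
    show u ν i * ∏ q, pt ν a q ^ ee ν i q = _
    rw [b a h i]
  have hv : NVS S := by
    unfold NVS
    filter_upwards [hST, h1] with ν b c t ht K hK1 hK2
    obtain ⟨a, h, rfl⟩ := Finset.mem_image.1 ht
    rw [Finset.sum_congr rfl fun i _ => b a h i]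
    exact (hT ν a (c h)).nvs K hK1 hK2
  obtain ⟨Om', g1, g2, g3⟩ := gct hY hOm hb S hv
  unfold NC at g3
  choose Cc hCc using g3
  obtain ⟨C1, hC1⟩ : ∃ C1 : ℕ, ∀ i i', Cc i i' ≤ C1 :=
    ⟨∑ i, ∑ i', Cc i i', fun i i' =>
      (Finset.single_le_sum (f := fun i' => Cc i i') (fun _ _ => Nat.zero_le _)
        (Finset.mem_univ i')).trans
      (Finset.single_le_sum (f := fun i => ∑ i', Cc i i') (fun _ _ => Nat.zero_le _)
        (Finset.mem_univ i))⟩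
  have hall : ∀ᶠ ν in (Uf : Filter ℕ), ∀ i i', ∀ t ∈ Om' ν, ∀ t' ∈ Om' ν, ∃ r r' : ℤ, r ≠ 0 ∧
      r' ≠ 0 ∧ |r| ≤ ((Y ν : ℤ) + 2) ^ Cc i i' ∧ |r'| ≤ ((Y ν : ℤ) + 2) ^ Cc i i' ∧
      r * (S.T ν i t * S.T ν i' t') = r' * (S.T ν i t' * S.T ν i' t) :=
    Filter.eventually_all.2 fun i => Filter.eventually_all.2 fun i' => hCc i i'
  obtain ⟨ν, k1, k2, k3, k4, k5, k6⟩ := (g1.and (g2.one_lt.and (hall.and (hST.and (h1.and
    (ev_ge ((n + 1) * ((E + 1) * C1)))))))).exists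
  obtain ⟨t1, ht1, t2, ht2, htne⟩ := Finset.one_lt_card.1 k2
  obtain ⟨a1, ha1, rfl⟩ := Finset.mem_image.1 (k1 ht1)
  obtain ⟨a2, ha2, rfl⟩ := Finset.mem_image.1 (k1 ht2)
  have hne : a1 ≠ a2 := fun h => htne (by rw [h])
  have p1 := hT ν a1 (k5 ha1)
  have p2 := hT ν a2 (k5 ha2)
  apply hTn ν a1 (k5 ha1) a2 (k5 ha2) hne
  have hn : ∃ i0 : Fin n, True := by
    by_contra hcon
    push Not at hcon
    have := p1.gcd 2 fun i => (hcon i).elim
    omega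
  obtain ⟨i0, -⟩ := hn
  refine Near.mono (near_of_ratio (C := (E + 1) * C1) i0 p1.nz p2.nz p1.gcd p2.gcd fun i => ?_) k6
  obtain ⟨r, r', q1, q2, q3, q4, q5⟩ := k3 i i0 _ ht1 _ ht2
  rw [k4 a1 ha1, k4 a1 ha1, k4 a2 ha2, k4 a2 ha2] at q5
  have hYb : ((Y ν : ℤ) + 2) ^ Cc i i0 ≤ ((Y0 ν : ℤ) + 2) ^ ((E + 1) * C1) := by
    calc ((Y ν : ℤ) + 2) ^ Cc i i0 ≤ ((Y ν : ℤ) + 2) ^ C1 :=
          pow_le_pow_right₀ (by omega) (hC1 i i0)
      _ ≤ (((Y0 ν : ℤ) + 2) ^ (E + 1)) ^ C1 := by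
          refine pow_le_pow_left₀ (by positivity) ?_ _
          rw [hYd]
          push_cast
          have h4 : (1 : ℤ) ≤ ((Y0 ν : ℤ) + 2) ^ E := one_le_pow₀ (by omega)
          have h5 : ((Y0 ν : ℤ)) ^ E ≤ ((Y0 ν : ℤ) + 2) ^ E :=
            pow_le_pow_left₀ (by positivity) (by omega) _
          rw [pow_succ, pow_succ]
          nlinarith [(Nat.cast_nonneg (Y0 ν) : (0 : ℤ) ≤ (Y0 ν : ℤ))]
      _ = _ := by rw [← pow_mul]
  refine ⟨r, r', q1, q2, q3.trans hYb, q4.trans hYb, ?_⟩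
  apply mul_left_cancel₀ (mul_ne_zero (hu ν i).1 (hu ν i0).1)
  linear_combination q5

end Pool.Agent.Y902.GN
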