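import Mathlib
import Pool.Agent.Y902.GN.Lp
import Pool.Agent.Y902.GN.FinB

/-!
# Points of a hyperplane with few prime factors: few proper subspaces
-/

set_option autoImplicit false

namespace Pool.Agent.Y902.GN

open Matrix

theorem det_small {n : ℕ} {B : ℤ} (M : Matrix (Fin n) (Fin n) ℤ) (h : ∀ i j, |M i j| ≤ B) :
    |M.det| ≤ (n.factorial : ℤ) * B ^ n := by
  have h1 := Matrix.det_le (A := M) (abv := AbsoluteValue.abs) (x := B) h
  rw [Fintype.card_fin, nsmul_eq_mul] at h1
  exact h1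

/-- small vectors that span a hyperplane -/
theorem span_small {n : ℕ} (β : Fin n → ℤ) (j : Fin n) (hβ : β j ≠ 0) {B : ℤ} (hB : 1 ≤ B)
    (Sg : Set (Fin n → ℤ)) (hS : ∀ σ ∈ Sg, (∀ i, |σ i| ≤ B) ∧ ∑ i, σ i * β i = 0)
    (hspan : ∀ z : Fin n → ℚ, ∑ i, z i * (β i : ℚ) = 0 →
      z ∈ Submodule.span ℚ ((fun σ : Fin n → ℤ => fun i => (σ i : ℚ)) '' Sg)) :
    ∃ (q : ℤ) (p : Fin n → ℤ), q ≠ 0 ∧ |q| ≤ (n.factorial : ℤ) * B ^ n ∧
      (∀ i, |p i| ≤ n * ((n.factorial : ℤ) * B ^ n)) ∧ ∀ i, q * β i = p i * β j := by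
  classical
  obtain ⟨S', hS'⟩ : ∃ S' : Set (Fin n → ℚ), S' =
      (fun σ : Fin n → ℤ => fun i => (σ i : ℚ)) '' Sg ∪ {Pi.single j 1} := ⟨_, rfl⟩
  have hβ' : (β j : ℚ) ≠ 0 := by exact_mod_cast hβ
  have htop : ⊤ ≤ Submodule.span ℚ S' := by
    intro z _
    obtain ⟨c, hc⟩ : ∃ c : ℚ, c = (∑ i, z i * (β i : ℚ)) / (β j : ℚ) := ⟨_, rfl⟩
    have h1 : z - c • (Pi.single j 1 : Fin n → ℚ) ∈ Submodule.span ℚ S' := by
      refine Submodule.span_mono (by rw [hS']; exact Set.subset_union_left) (hspan _ ?_)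
      have h2 : ∑ i, (z - c • (Pi.single j 1 : Fin n → ℚ)) i * (β i : ℚ) =
          ∑ i, z i * (β i : ℚ) - c * β j := by
        have h3 : ∀ i, (z - c • (Pi.single j 1 : Fin n → ℚ)) i * (β i : ℚ) =
            z i * (β i : ℚ) - c * ((Pi.single j 1 : Fin n → ℚ) i * (β i : ℚ)) := by
          intro i
          rw [Pi.sub_apply, Pi.smul_apply, smul_eq_mul]
          ring
        rw [Finset.sum_congr rfl fun i _ => h3 i, Finset.sum_sub_distrib, ← Finset.mul_sum]
        congr 2
        rw [Finset.sum_eq_single j]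
        · simp
        · intro b _ hb
          simp [hb]
        · intro h
          exact absurd (Finset.mem_univ j) h
      rw [h2, hc, div_mul_cancel₀ _ hβ', sub_self]
    have h4 : c • (Pi.single j 1 : Fin n → ℚ) ∈ Submodule.span ℚ S' :=
      Submodule.smul_mem _ _ (Submodule.subset_span (by
        rw [hS']
        exact Set.mem_union_right _ rfl))
    have h5 := Submodule.add_mem _ h1 h4
    rwa [sub_add_cancel] at h5
  have hmem : ∀ v ∈ S', (∃ σ ∈ Sg, (fun i => (σ i : ℚ)) = v) ∨ v = Pi.single j 1 := by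
    intro v hv
    rw [hS'] at hv
    rcases hv with ⟨σ, hσ, h2⟩ | h2
    · exact Or.inl ⟨σ, hσ, h2⟩
    · exact Or.inr (Set.mem_singleton_iff.1 h2)
  obtain ⟨b, hb⟩ : ∃ b : Module.Basis ((linearIndepOn_empty ℚ id).extend
      (Set.empty_subset S')) ℚ (Fin n → ℚ), Set.range b ⊆ S' :=
    ⟨Module.Basis.ofSpan htop, Module.Basis.ofSpan_subset htop⟩
  obtain ⟨e, _⟩ : ∃ e : _ ≃ Fin n, e = b.indexEquiv (Pi.basisFun ℚ (Fin n)) := ⟨_, rfl⟩
  have hv : ∀ k : Fin n, ∃ V : Fin n → ℤ, (∀ i, b (e.symm k) i = (V i : ℚ)) ∧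
      (V ∈ Sg ∨ V = Pi.single j 1) := by
    intro k
    rcases hmem _ (hb (Set.mem_range_self (e.symm k))) with ⟨σ, hσ, h2⟩ | h2
    · exact ⟨σ, fun i => by rw [← h2], Or.inl hσ⟩
    · refine ⟨Pi.single j 1, fun i => ?_, Or.inr rfl⟩
      rw [h2]
      by_cases hij : i = j
      · subst hij
        simp
      · simp [hij]
  choose V hV1 hV2 using hv
  obtain ⟨M, hM⟩ : ∃ M : Matrix (Fin n) (Fin n) ℤ, ∀ k i, M k i = V k i := ⟨V, fun _ _ => rfl⟩
  have hMb : ∀ k i, |M k i| ≤ B := by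
    intro k i
    rw [hM]
    rcases hV2 k with h | h
    · exact (hS _ h).1 i
    · rw [h]
      by_cases hij : i = j
      · subst hij
        simpa using hB
      · simp [hij]
        linarith
  have hdet : M.det ≠ 0 := by
    have h1 : LinearIndependent ℚ (M.map (Int.cast : ℤ → ℚ)).row := by
      have h2 : (M.map (Int.cast : ℤ → ℚ)).row = fun k => b (e.symm k) := by
        funext k i
        show ((M k i : ℤ) : ℚ) = b (e.symm k) i
        rw [hM, hV1]
      rw [h2]
      exact b.linearIndependent.comp _ e.symm.injective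
    rw [Matrix.linearIndependent_rows_iff_isUnit, Matrix.isUnit_iff_isUnit_det] at h1
    intro h2
    have h3 : (M.map (Int.cast : ℤ → ℚ)).det = ((M.det : ℤ) : ℚ) := by
      have := RingHom.map_det (Int.castRingHom ℚ) M
      rw [eq_comm]
      exact this
    rw [h3, h2, Int.cast_zero] at h1
    exact not_isUnit_zero h1
  obtain ⟨χ, hχ⟩ : ∃ χ : Fin n → ℤ, ∀ k, χ k = if V k ∈ Sg then 0 else 1 := ⟨_, fun _ => rfl⟩
  have hw : ∀ k, ∑ i, M k i * β i = χ k * β j := by
    intro k
    rw [hχ]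
    split_ifs with h
    · rw [zero_mul, ← (hS _ h).2]
      exact Finset.sum_congr rfl fun i _ => by rw [hM]
    · have h1 := (hV2 k).resolve_left h
      rw [one_mul, Finset.sum_eq_single j]
      · rw [hM, h1]
        simp
      · intro i _ hi
        rw [hM, h1]
        simp [hi]
      · intro h
        exact absurd (Finset.mem_univ j) h
  have hadj : ∀ i k, |M.adjugate i k| ≤ (n.factorial : ℤ) * B ^ n := by
    intro i k
    rw [Matrix.adjugate_apply]
    apply det_small
    intro a c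
    rw [Matrix.updateRow_apply]
    split_ifs with h
    · by_cases hc : c = i
      · subst hc
        simpa using hB
      · simp [hc]
        linarith
    · exact hMb a c
  refine ⟨M.det, fun i => ∑ k, M.adjugate i k * χ k, hdet, det_small M hMb, fun i => ?_,
    fun i => ?_⟩
  · refine (Finset.abs_sum_le_sum_abs _ _).trans ?_
    have h1 : ∀ k ∈ (Finset.univ : Finset (Fin n)), |M.adjugate i k * χ k| ≤
        (n.factorial : ℤ) * B ^ n := by
      intro k _
      rw [abs_mul]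
      have h2 : |χ k| ≤ 1 := by
        rw [hχ]
        split_ifs <;> simp
      calc |M.adjugate i k| * |χ k| ≤ |M.adjugate i k| * 1 :=
            mul_le_mul_of_nonneg_left h2 (abs_nonneg _)
        _ ≤ _ := by rw [mul_one]; exact hadj i k
    refine (Finset.sum_le_card_nsmul _ _ _ h1).trans ?_
    rw [Finset.card_univ, Fintype.card_fin, nsmul_eq_mul]
  · have h1 : M.adjugate *ᵥ (M *ᵥ β) = M.det • β := by
      rw [Matrix.mulVec_mulVec, Matrix.adjugate_mul, Matrix.smul_mulVec, Matrix.one_mulVec]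
    have h2 := congrFun h1 i
    rw [Pi.smul_apply, smul_eq_mul] at h2
    rw [← h2, Finset.sum_mul]
    show ∑ k, M.adjugate i k * (M *ᵥ β) k = _
    refine Finset.sum_congr rfl fun k _ => ?_
    have h3 : (M *ᵥ β) k = χ k * β j := hw k
    rw [h3]
    ring

end Pool.Agent.Y902.GN
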