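import Mathlib
import Pool.Agent.Y902.GN.Sbs

/-!
# Points of a hyperplane with few prime factors lie in few proper subspaces
-/

set_option autoImplicit false

namespace Pool.Agent.Y902.GN

/-- the vector of rational numbers of a vector of integers -/
def vQ {n : ℕ} (a : Fin n → ℤ) : Fin n → ℚ := fun i => (a i : ℚ)

theorem proper_span {n : ℕ} (u : Fin n → ℤ) (A : Fin n → ℕ) (hA : ∀ i, A i ≠ 0)
    (hu : ∀ i, u i ≠ 0) {B : ℤ} (hB : 1 ≤ B) (P : Set (Fin n → ℤ))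
    (hP : ∀ a ∈ P, (∃ σ : Fin n → ℤ, (∀ i, a i = σ i * A i) ∧ ∀ i, |σ i| ≤ B) ∧
      ∑ i, u i * a i = 0) (a0 : Fin n → ℤ) (ha0 : a0 ∈ P) (i0 : Fin n)
    (htall : (n.factorial : ℤ) * B ^ (n + 1) * Finset.univ.gcd (fun i => u i * a0 i) <
      |u i0 * a0 i0|) :
    ¬ ∀ z : Fin n → ℚ, ∑ i, (u i : ℚ) * z i = 0 → z ∈ Submodule.span ℚ (vQ '' P) := by
  classical
  intro hsp
  obtain ⟨β, hβ⟩ : ∃ β : Fin n → ℤ, ∀ i, β i = u i * A i := ⟨_, fun _ => rfl⟩
  have hβ0 : ∀ i, β i ≠ 0 := fun i => by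
    rw [hβ]
    exact mul_ne_zero (hu i) (by exact_mod_cast hA i)
  obtain ⟨Sg, hSg⟩ : ∃ Sg : Set (Fin n → ℤ), Sg =
      {σ | (∀ i, |σ i| ≤ B) ∧ (fun i => σ i * (A i : ℤ)) ∈ P} := ⟨_, rfl⟩
  have hS : ∀ σ ∈ Sg, (∀ i, |σ i| ≤ B) ∧ ∑ i, σ i * β i = 0 := by
    intro σ hσ
    rw [hSg] at hσ
    refine ⟨hσ.1, ?_⟩
    rw [← (hP _ hσ.2).2]
    exact Finset.sum_congr rfl fun i _ => by rw [hβ]; ring
  have hspan : ∀ z : Fin n → ℚ, ∑ i, z i * (β i : ℚ) = 0 →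
      z ∈ Submodule.span ℚ ((fun σ : Fin n → ℤ => fun i => (σ i : ℚ)) '' Sg) := by
    intro z hz
    obtain ⟨D, hD⟩ : ∃ D : (Fin n → ℚ) →ₗ[ℚ] (Fin n → ℚ), ∀ v i, D v i = (A i : ℚ)⁻¹ * v i :=
      ⟨LinearMap.pi fun i => (A i : ℚ)⁻¹ • LinearMap.proj i, fun v i => rfl⟩
    have h1 : (fun i => z i * (A i : ℚ)) ∈ Submodule.span ℚ (vQ '' P) := by
      apply hsp
      rw [← hz]
      refine Finset.sum_congr rfl fun i _ => ?_
      rw [hβ]
      push_cast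
      ring
    have h2 : D (fun i => z i * (A i : ℚ)) ∈ Submodule.span ℚ (D '' (vQ '' P)) := by
      rw [← Submodule.map_span]
      exact Submodule.mem_map_of_mem h1
    have h3 : D (fun i => z i * (A i : ℚ)) = z := by
      funext i
      rw [hD]
      have : (A i : ℚ) ≠ 0 := by exact_mod_cast hA i
      field_simp
    rw [h3] at h2
    refine Submodule.span_mono ?_ h2
    rintro _ ⟨_, ⟨a, ha, rfl⟩, rfl⟩
    obtain ⟨⟨σ, hσ1, hσ2⟩, _⟩ := hP a ha
    refine ⟨σ, ?_, ?_⟩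
    · rw [hSg]
      refine ⟨hσ2, ?_⟩
      have : (fun i => σ i * (A i : ℤ)) = a := funext fun i => (hσ1 i).symm
      rw [this]
      exact ha
    · funext i
      show (σ i : ℚ) = D (vQ a) i
      rw [hD]
      unfold vQ
      rw [hσ1 i]
      have : (A i : ℚ) ≠ 0 := by exact_mod_cast hA i
      push_cast
      field_simp
  obtain ⟨q, p, hq0, hq, _, hp⟩ := span_small β i0 (hβ0 i0) hB Sg hS hspan
  obtain ⟨⟨σ, hσ1, hσ2⟩, _⟩ := hP a0 ha0
  have hb : ∀ i, u i * a0 i = β i * σ i := fun i => by rw [hβ, hσ1 i]; ring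
  have hdvd : β i0 ∣ Finset.univ.gcd (fun i => q * (u i * a0 i)) := by
    apply Finset.dvd_gcd
    intro i _
    refine ⟨p i * σ i, ?_⟩
    rw [hb, ← mul_assoc, hp i]
    ring
  rw [Finset.gcd_mul_left] at hdvd
  obtain ⟨G, hG⟩ : ∃ G : ℤ, G = Finset.univ.gcd (fun i => u i * a0 i) := ⟨_, rfl⟩
  rw [← hG] at hdvd htall
  have hG0 : 0 ≤ G := by
    rw [hG]
    exact Int.nonneg_of_normalize_eq_self Finset.normalize_gcd
  have hB0 : (0 : ℤ) < B := by linarith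
  have hi0 : u i0 * a0 i0 ≠ 0 := by
    intro h
    rw [h, abs_zero] at htall
    have h1 : (0 : ℤ) ≤ (n.factorial : ℤ) * B ^ (n + 1) * G := by positivity
    linarith
  have hGne : G ≠ 0 := by
    intro h
    have h1 : G ∣ u i0 * a0 i0 := by
      rw [hG]
      exact Finset.gcd_dvd (Finset.mem_univ i0)
    rw [h] at h1
    exact hi0 (zero_dvd_iff.1 h1)
  have h2 : |β i0| ≤ |q| * G := by
    have h3 : β i0 ∣ q * G := by
      refine hdvd.trans ?_
      exact mul_dvd_mul_right (normalize_associated q).dvd G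
    have h4 := Int.le_of_dvd (abs_pos.2 (mul_ne_zero hq0 hGne))
      ((abs_dvd _ _).2 ((dvd_abs _ _).2 h3))
    rwa [abs_mul, abs_of_nonneg hG0] at h4
  have h5 : |u i0 * a0 i0| ≤ (n.factorial : ℤ) * B ^ (n + 1) * G := by
    rw [hb, abs_mul]
    calc |β i0| * |σ i0| ≤ (|q| * G) * B :=
          mul_le_mul h2 (hσ2 i0) (abs_nonneg _) (by positivity)
      _ ≤ (((n.factorial : ℤ) * B ^ n) * G) * B := by
          apply mul_le_mul_of_nonneg_right _ hB0.le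
          exact mul_le_mul_of_nonneg_right hq hG0
      _ = _ := by ring
  linarith

/-- a solution with few bases -/
structure ScPt (n N E : ℕ) (δ : ℝ) (Y : ℕ) (u : Fin n → ℤ) (a : Fin n → ℤ) : Prop where
  nz : ∀ i, a i ≠ 0
  gcd : ∀ d : ℕ, (∀ i, (d : ℤ) ∣ a i) → d = 1
  sum : ∑ i, u i * a i = 0
  hi : ∀ i, ((|a i| : ℤ) : ℝ) ≤ Real.exp ((Y : ℝ) ^ δ)
  rep : ∃ (s : Fin n → ℤ) (x : Fin N → ℕ) (e : Fin n → Fin N → ℕ),
    (∀ j, 1 ≤ x j ∧ x j ≤ Y) ∧ (∀ j k, j ≠ k → (x j).Coprime (x k)) ∧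
    (∀ i, |s i| ≤ (Y : ℤ) ^ E) ∧ ∀ i, a i = s i * ∏ j, (x j : ℤ) ^ e i j

/-- the factor of a term besides the large part -/
theorem LpGood.sigma {n N E R : ℕ} {δ : ℝ} {Y : ℕ} {u : Fin n → ℤ} {A : Fin n → ℕ}
    {a s : Fin n → ℤ} {x : Fin N → ℕ} {e : Fin n → Fin N → ℕ}
    (h : LpGood n N E R δ Y u A a s x e) :
    ∃ σ : Fin n → ℤ, (∀ i, a i = σ i * A i) ∧ ∀ i, |σ i| ≤ (Y : ℤ) ^ (E + R * N) := by
  refine ⟨fun i => s i * ∏ j, (if R ≤ e i j then 1 else (x j : ℤ) ^ e i j), fun i => ?_,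
    fun i => ?_⟩
  · rw [h.ha i, h.hA i]
    push_cast
    rw [mul_assoc, ← Finset.prod_mul_distrib]
    congr 1
    refine Finset.prod_congr rfl fun j _ => ?_
    split_ifs <;> simp
  · rw [abs_mul, Finset.abs_prod, pow_add, pow_mul]
    refine mul_le_mul (h.s1 i) ?_ (Finset.prod_nonneg fun _ _ => abs_nonneg _) (by positivity)
    calc ∏ j, |(if R ≤ e i j then 1 else (x j : ℤ) ^ e i j)| ≤ ∏ _j : Fin N, (Y : ℤ) ^ R := by
          refine Finset.prod_le_prod (fun _ _ => abs_nonneg _) fun j _ => ?_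
          have hY : (1 : ℤ) ≤ (Y : ℤ) := by exact_mod_cast (h.x1 j).1.trans (h.x1 j).2
          split_ifs with hR
          · rw [abs_one]
            exact one_le_pow₀ hY
          · rw [abs_of_nonneg (by positivity)]
            calc (x j : ℤ) ^ e i j ≤ (Y : ℤ) ^ e i j :=
                  pow_le_pow_left₀ (by positivity) (by exact_mod_cast (h.x1 j).2) _
              _ ≤ (Y : ℤ) ^ R := pow_le_pow_right₀ hY (by omega)
      _ = _ := by simp

theorem vanish_proper {n : ℕ} (u : Fin n → ℤ) (hu : ∀ i, u i ≠ 0) (K : Finset (Fin n))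
    (hK1 : K.Nonempty) (hK2 : K ≠ Finset.univ) :
    ¬ ∀ z : Fin n → ℚ, ∑ i, (u i : ℚ) * z i = 0 → ∑ i ∈ K, (u i : ℚ) * z i = 0 := by
  classical
  intro h
  obtain ⟨k, hk⟩ := hK1
  obtain ⟨l, hl⟩ : ∃ l, l ∉ K := by
    by_contra hcon
    push Not at hcon
    exact hK2 (Finset.eq_univ_of_forall hcon)
  have huk : (u k : ℚ) ≠ 0 := by exact_mod_cast hu k
  have hul : (u l : ℚ) ≠ 0 := by exact_mod_cast hu l
  have hkl : k ≠ l := fun h => hl (h ▸ hk)
  have h1 := h (Pi.single k (u k : ℚ)⁻¹ - Pi.single l (u l : ℚ)⁻¹) (by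
    simp only [Pi.sub_apply, mul_sub, Finset.sum_sub_distrib]
    rw [Finset.sum_eq_single k, Finset.sum_eq_single l]
    · simp [huk, hul]
    · intro b _ hb
      simp [hb]
    · intro h
      exact absurd (Finset.mem_univ l) h
    · intro b _ hb
      simp [hb]
    · intro h
      exact absurd (Finset.mem_univ k) h)
  simp only [Pi.sub_apply, mul_sub, Finset.sum_sub_distrib] at h1
  rw [Finset.sum_eq_single_of_mem k hk (fun b _ hb => by simp [hb]),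
    Finset.sum_eq_zero (s := K) (f := fun i => (u i : ℚ) * (Pi.single l (u l : ℚ)⁻¹ : Fin n → ℚ) i)
      (fun b hb => by
        have : b ≠ l := fun h => hl (h ▸ hb)
        simp [this])] at h1
  simp [huk] at h1

end Pool.Agent.Y902.GN
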