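import Mathlib
import Pool.Agent.Y902.GN.Sbs2

/-!
# Points of a hyperplane with few prime factors lie in few proper subspaces (theorem)
-/

set_option autoImplicit false

namespace Pool.Agent.Y902.GN

/-- one term is much larger than the greatest common divisor of the terms -/
def Tall {n : ℕ} (K Y : ℕ) (u a : Fin n → ℤ) : Prop :=
  ∃ i, (Y : ℤ) ^ K * Finset.univ.gcd (fun j => u j * a j) < |u i * a i|

/-- the data of a solution with given large parts -/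
def ScA (n N E R : ℕ) (δ : ℝ) (Y : ℕ) (u : Fin n → ℤ) (A : Fin n → ℕ) (K : ℕ) :
    Set (Fin n → ℤ) :=
  {a | Tall K Y u a ∧ ∃ (s : Fin n → ℤ) (x : Fin N → ℕ) (e : Fin n → Fin N → ℕ),
    LpGood n N E R δ Y u A a s x e}

theorem tall_large {n K Y : ℕ} {u a : Fin n → ℤ} (hY : 2 ≤ Y)
    (hu : ∀ i, u i ≠ 0 ∧ ((|u i| : ℤ) : ℝ) ≤ Real.exp ((Y : ℝ)))
    (ha : ∀ i, a i ≠ 0 ∧ ((|a i| : ℤ) : ℝ) ≤ Real.exp ((Y : ℝ))) (h : Tall K Y u a) :
    K ≤ 4 * Y := by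
  obtain ⟨i, hi⟩ := h
  obtain ⟨G, hG⟩ : ∃ G : ℤ, G = Finset.univ.gcd (fun i => u i * a i) := ⟨_, rfl⟩
  rw [← hG] at hi
  have hG0 : 0 ≤ G := by
    rw [hG]
    exact Int.nonneg_of_normalize_eq_self Finset.normalize_gcd
  have hne : u i * a i ≠ 0 := mul_ne_zero (hu i).1 (ha i).1
  have hG1 : 1 ≤ G := by
    have h1 : G ≠ 0 := by
      intro h
      have h1 : G ∣ u i * a i := by
        rw [hG]
        exact Finset.gcd_dvd (Finset.mem_univ i)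
      rw [h] at h1
      exact hne (zero_dvd_iff.1 h1)
    omega
  have h2 : (2 : ℤ) ^ K ≤ |u i * a i| := by
    calc (2 : ℤ) ^ K ≤ (Y : ℤ) ^ K := pow_le_pow_left₀ (by norm_num) (by exact_mod_cast hY) _
      _ = (Y : ℤ) ^ K * 1 := (mul_one _).symm
      _ ≤ (Y : ℤ) ^ K * G := mul_le_mul_of_nonneg_left hG1 (by positivity)
      _ ≤ _ := hi.le
  have h3 : ((2 : ℤ) : ℝ) ^ K ≤ Real.exp (Y : ℝ) * Real.exp (Y : ℝ) := by
    calc ((2 : ℤ) : ℝ) ^ K ≤ ((|u i * a i| : ℤ) : ℝ) := by exact_mod_cast h2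
      _ = ((|u i| : ℤ) : ℝ) * ((|a i| : ℤ) : ℝ) := by rw [abs_mul]; push_cast; rfl
      _ ≤ _ := mul_le_mul (hu i).2 (ha i).2 (by positivity) (Real.exp_pos _).le
  rw [← Real.exp_add] at h3
  have h4 : Real.log (((2 : ℤ) : ℝ) ^ K) ≤ (Y : ℝ) + Y := by
    rw [Real.log_le_iff_le_exp (by positivity)]
    exact h3
  rw [Real.log_pow] at h4
  push_cast at h4
  have h5 : (1 : ℝ) / 2 < Real.log 2 := by
    have := Real.log_two_gt_d9
    linarith
  have h6 : (K : ℝ) ≤ 4 * (Y : ℝ) := by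
    nlinarith [(Nat.cast_nonneg K : (0 : ℝ) ≤ (K : ℝ))]
  exact_mod_cast h6

/-- **Few subspaces.** -/
theorem sc (n N E : ℕ) (ε : ℝ) (hε : 0 < ε) : ∃ (K : ℕ) (δ : ℝ), 0 < δ ∧
    ∀ Y : ℕ, 2 ≤ Y → ∀ u : Fin n → ℤ, (∀ i, u i ≠ 0 ∧
      ((|u i| : ℤ) : ℝ) ≤ Real.exp ((Y : ℝ) ^ δ)) →
      ∃ L : Finset (Submodule ℚ (Fin n → ℚ)), (L.card : ℝ) ≤ (Y : ℝ) ^ ε ∧
        (∀ W ∈ L, ¬ ∀ z : Fin n → ℚ, ∑ i, (u i : ℚ) * z i = 0 → z ∈ W) ∧
        ∀ a, ScPt n N E δ Y u a → Tall K Y u a → ∃ W ∈ L, vQ a ∈ W := by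
  classical
  obtain ⟨R, δ0, hδ0, H⟩ := lp n N E (ε / 2) (by positivity)
  obtain ⟨δ, hδ, hδ1, hδ2⟩ : ∃ δ : ℝ, 0 < δ ∧ δ ≤ δ0 ∧ δ ≤ 1 :=
    ⟨min δ0 1, by positivity, min_le_left _ _, min_le_right _ _⟩
  obtain ⟨K0, hK0⟩ : ∃ K0 : ℕ, K0 = 4 * ⌈((2 : ℝ) ^ (n + 1)) ^ (2 / ε)⌉₊ := ⟨_, rfl⟩
  obtain ⟨K, hK⟩ : ∃ K : ℕ, K = n.factorial + (E + R * N) * (n + 1) + K0 := ⟨_, rfl⟩
  refine ⟨K, δ, hδ, fun Y hY u hu => ?_⟩
  have hYr : (1 : ℝ) ≤ (Y : ℝ) := by exact_mod_cast (by omega : 1 ≤ Y)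
  have hpow : (Y : ℝ) ^ δ ≤ (Y : ℝ) ^ δ0 := Real.rpow_le_rpow_of_exponent_le hYr hδ1
  have hpow1 : (Y : ℝ) ^ δ ≤ (Y : ℝ) := by
    calc (Y : ℝ) ^ δ ≤ (Y : ℝ) ^ (1 : ℝ) := Real.rpow_le_rpow_of_exponent_le hYr hδ2
      _ = _ := Real.rpow_one _
  by_cases hex : ∃ a, ScPt n N E δ Y u a ∧ Tall K Y u a
  swap
  · push Not at hex
    refine ⟨∅, by simp; positivity, by simp, fun a h1 h2 => absurd h2 (hex a h1)⟩
  -- `Y` is large
  have hYl : (2 : ℝ) ^ (n + 1) ≤ (Y : ℝ) ^ (ε / 2) := by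
    obtain ⟨a, ha, ht⟩ := hex
    have h1 := tall_large hY (fun i => ⟨(hu i).1, (hu i).2.trans (Real.exp_le_exp.2 hpow1)⟩)
      (fun i => ⟨ha.nz i, (ha.hi i).trans (Real.exp_le_exp.2 hpow1)⟩) ht
    have h2 : ⌈((2 : ℝ) ^ (n + 1)) ^ (2 / ε)⌉₊ ≤ Y := by omega
    have h3 : ((2 : ℝ) ^ (n + 1)) ^ (2 / ε) ≤ (Y : ℝ) :=
      (Nat.le_ceil _).trans (by exact_mod_cast h2)
    calc (2 : ℝ) ^ (n + 1) = (((2 : ℝ) ^ (n + 1)) ^ (2 / ε)) ^ (ε / 2) := by
          rw [← Real.rpow_mul (by positivity)]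
          have : 2 / ε * (ε / 2) = 1 := by field_simp
          rw [this, Real.rpow_one]
      _ ≤ _ := Real.rpow_le_rpow (by positivity) h3 (by positivity)
  -- the large parts
  obtain ⟨hfin, hcard⟩ := fin_of_bound {A : Fin n → ℕ | (ScA n N E R δ0 Y u A K).Nonempty}
    ((Y : ℝ) ^ (ε / 2)) (fun T hT => by
      refine H Y (by omega) u (fun i => ⟨(hu i).1, (hu i).2.trans (Real.exp_le_exp.2 hpow)⟩) T ?_
      intro A hA
      obtain ⟨a, _, s, x, e, h⟩ := hT A hA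
      exact ⟨a, s, x, e, h⟩)
  obtain ⟨L1, hL1⟩ : ∃ L1 : Finset (Submodule ℚ (Fin n → ℚ)), L1 =
      (Finset.univ.filter (fun K : Finset (Fin n) => K.Nonempty ∧ K ≠ Finset.univ)).image
        (fun K => LinearMap.ker (∑ i ∈ K, (u i : ℚ) •
          (LinearMap.proj i : (Fin n → ℚ) →ₗ[ℚ] ℚ))) := ⟨_, rfl⟩
  obtain ⟨L2, hL2⟩ : ∃ L2 : Finset (Submodule ℚ (Fin n → ℚ)), L2 =
      hfin.toFinset.image (fun A => Submodule.span ℚ (vQ '' (ScA n N E R δ0 Y u A K))) :=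
    ⟨_, rfl⟩
  have hker : ∀ (K : Finset (Fin n)) (z : Fin n → ℚ),
      z ∈ LinearMap.ker (∑ i ∈ K, (u i : ℚ) • (LinearMap.proj i : (Fin n → ℚ) →ₗ[ℚ] ℚ)) ↔
        ∑ i ∈ K, (u i : ℚ) * z i = 0 := by
    intro K z
    rw [LinearMap.mem_ker, LinearMap.sum_apply]
    rfl
  refine ⟨L1 ∪ L2, ?_, ?_, ?_⟩
  · have h1 : (L1.card : ℝ) ≤ 2 ^ n := by
      have : L1.card ≤ 2 ^ n := by
        rw [hL1]
        refine Finset.card_image_le.trans ((Finset.card_filter_le _ _).trans ?_)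
        rw [Finset.card_univ, Fintype.card_finset, Fintype.card_fin]
      exact_mod_cast this
    have h2 : (L2.card : ℝ) ≤ (Y : ℝ) ^ (ε / 2) := by
      refine le_trans ?_ hcard
      rw [Set.ncard_eq_toFinset_card _ hfin, hL2]
      exact_mod_cast Finset.card_image_le
    have h3 : ((L1 ∪ L2).card : ℝ) ≤ L1.card + L2.card := by
      exact_mod_cast Finset.card_union_le _ _
    have h4 : (Y : ℝ) ^ ε = (Y : ℝ) ^ (ε / 2) * (Y : ℝ) ^ (ε / 2) := by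
      rw [← Real.rpow_add (by positivity)]
      congr 1
      ring
    have h5 : (1 : ℝ) ≤ (2 : ℝ) ^ n := one_le_pow₀ (by norm_num)
    rw [h4]
    rw [pow_succ] at hYl
    nlinarith
  · intro W hW
    rcases Finset.mem_union.1 hW with h | h
    · rw [hL1] at h
      obtain ⟨K, hK, rfl⟩ := Finset.mem_image.1 h
      obtain ⟨_, hK1, hK2⟩ := Finset.mem_filter.1 hK
      intro h1
      refine vanish_proper u (fun i => (hu i).1) K hK1 hK2 fun z hz => ?_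
      exact (hker K z).1 (h1 z hz)
    · rw [hL2] at h
      obtain ⟨A, hA, rfl⟩ := Finset.mem_image.1 h
      obtain ⟨a0, ha0⟩ := (Set.Finite.mem_toFinset hfin).1 hA
      obtain ⟨i0, hi0⟩ := ha0.1
      obtain ⟨s, x, e, hg⟩ := ha0.2
      refine proper_span u A (fun i => ?_) (fun i => (hu i).1) (B := (Y : ℤ) ^ (E + R * N))
        (one_le_pow₀ (by exact_mod_cast (by omega : 1 ≤ Y))) _ ?_ a0 ha0 i0 ?_
      · rw [hg.hA i]
        refine Finset.prod_ne_zero_iff.2 fun j _ => ?_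
        have := (hg.x1 j).1
        split_ifs
        · exact pow_ne_zero _ (by omega)
        · exact one_ne_zero
      · intro a ha
        obtain ⟨s, x, e, h⟩ := ha.2
        exact ⟨h.sigma, h.sum⟩
      · refine lt_of_le_of_lt ?_ hi0
        apply mul_le_mul_of_nonneg_right _
          (Int.nonneg_of_normalize_eq_self Finset.normalize_gcd)
        have h1 : (1 : ℤ) ≤ (Y : ℤ) := by exact_mod_cast (by omega : 1 ≤ Y)
        calc (n.factorial : ℤ) * ((Y : ℤ) ^ (E + R * N)) ^ (n + 1)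
            ≤ (Y : ℤ) ^ n.factorial * (Y : ℤ) ^ ((E + R * N) * (n + 1)) := by
              rw [← pow_mul]
              apply mul_le_mul_of_nonneg_right _ (by positivity)
              have h2 : n.factorial < 2 ^ n.factorial := Nat.lt_two_pow_self
              calc (n.factorial : ℤ) ≤ (2 : ℤ) ^ n.factorial := by exact_mod_cast h2.le
                _ ≤ (Y : ℤ) ^ n.factorial :=
                  pow_le_pow_left₀ (by norm_num) (by exact_mod_cast hY) _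
          _ = (Y : ℤ) ^ (n.factorial + (E + R * N) * (n + 1)) := by rw [← pow_add]
          _ ≤ (Y : ℤ) ^ K := pow_le_pow_right₀ h1 (by omega)
  · intro a ha ht
    obtain ⟨s, x, e, hx1, hxc, hs, hae⟩ := ha.rep
    by_cases hv : ∀ K : Finset (Fin n), K.Nonempty → K ≠ Finset.univ → ∑ i ∈ K, u i * a i ≠ 0
    · have hg : LpGood n N E R δ0 Y u
          (fun i => ∏ j, if R ≤ e i j then x j ^ e i j else 1) a s x e :=
        ⟨hx1, hxc, hs, hae, ha.nz, ha.gcd, ha.sum, hv,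
          fun i => (ha.hi i).trans (Real.exp_le_exp.2 hpow), fun i => rfl⟩
      have hm : a ∈ ScA n N E R δ0 Y u
          (fun i => ∏ j, if R ≤ e i j then x j ^ e i j else 1) K := ⟨ht, s, x, e, hg⟩
      refine ⟨Submodule.span ℚ (vQ '' (ScA n N E R δ0 Y u
          (fun i => ∏ j, if R ≤ e i j then x j ^ e i j else 1) K)), ?_, ?_⟩
      · apply Finset.mem_union_right
        rw [hL2]
        refine Finset.mem_image.2 ⟨_, (Set.Finite.mem_toFinset hfin).2 ⟨a, hm⟩, rfl⟩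
      · exact Submodule.subset_span ⟨a, hm, rfl⟩
    · push Not at hv
      obtain ⟨K, hK1, hK2, hK3⟩ := hv
      refine ⟨LinearMap.ker (∑ i ∈ K, (u i : ℚ) • (LinearMap.proj i : (Fin n → ℚ) →ₗ[ℚ] ℚ)),
        ?_, ?_⟩
      · apply Finset.mem_union_left
        rw [hL1]
        exact Finset.mem_image.2 ⟨K, Finset.mem_filter.2 ⟨Finset.mem_univ _, hK1, hK2⟩, rfl⟩
      · rw [hker]
        have h1 : ((∑ i ∈ K, u i * a i : ℤ) : ℚ) = 0 := by rw [hK3, Int.cast_zero]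
        push_cast at h1
        exact h1

end Pool.Agent.Y902.GN
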