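import Mathlib
import Pool.Agent.Y902.GN.Gc2
import Pool.Agent.Y902.GN.Sc

/-!
# Products of powers of few integers on a hyperplane lie in few proper subspaces
-/

set_option autoImplicit false

namespace Pool.Agent.Y902.GN

/-- maximal separated subsets -/
theorem max_sep {α : Type*} (S : Set α) (R : α → α → Prop) (hrefl : ∀ a, R a a)
    (hsymm : ∀ a b, R a b → R b a) (B : ℝ)
    (h : ∀ T : Finset α, (∀ a ∈ T, a ∈ S) → (∀ a ∈ T, ∀ b ∈ T, a ≠ b → ¬ R a b) →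
      (T.card : ℝ) ≤ B) : ∃ T : Finset α, (∀ a ∈ T, a ∈ S) ∧ (T.card : ℝ) ≤ B ∧
      ∀ a ∈ S, ∃ b ∈ T, R a b := by
  classical
  obtain ⟨k, hk⟩ : ∃ k, k = Nat.findGreatest (fun k => ∃ T : Finset α, (∀ a ∈ T, a ∈ S) ∧
      (∀ a ∈ T, ∀ b ∈ T, a ≠ b → ¬ R a b) ∧ T.card = k) ⌊B⌋₊ := ⟨_, rfl⟩
  obtain ⟨T, hT1, hT2, hT3⟩ : ∃ T : Finset α, (∀ a ∈ T, a ∈ S) ∧
      (∀ a ∈ T, ∀ b ∈ T, a ≠ b → ¬ R a b) ∧ T.card = k := by
    rw [hk]
    exact Nat.findGreatest_spec (P := fun k => ∃ T : Finset α, (∀ a ∈ T, a ∈ S) ∧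
      (∀ a ∈ T, ∀ b ∈ T, a ≠ b → ¬ R a b) ∧ T.card = k) (Nat.zero_le _)
      ⟨∅, by simp, by simp, rfl⟩
  refine ⟨T, hT1, h T hT1 hT2, fun a ha => ?_⟩
  by_contra hcon
  push Not at hcon
  have haT : a ∉ T := fun h => hcon a h (hrefl a)
  have h1 : ∀ b ∈ insert a T, b ∈ S := by
    intro b hb
    rcases Finset.mem_insert.1 hb with rfl | hb
    · exact ha
    · exact hT1 b hb
  have h2 : ∀ b ∈ insert a T, ∀ c ∈ insert a T, b ≠ c → ¬ R b c := by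
    intro b hb c hc hbc
    rcases Finset.mem_insert.1 hb with hb1 | hb1 <;> rcases Finset.mem_insert.1 hc with hc1 | hc1
    · exact absurd (hb1.trans hc1.symm) hbc
    · rw [hb1]
      exact hcon c hc1
    · rw [hc1]
      exact fun h => hcon b hb1 (hsymm _ _ h)
    · exact hT2 b hb1 c hc1 hbc
  have h3 := h _ h1 h2
  have h4 := Nat.le_findGreatest (Nat.le_floor h3) (P := fun k => ∃ T : Finset α,
    (∀ a ∈ T, a ∈ S) ∧ (∀ a ∈ T, ∀ b ∈ T, a ≠ b → ¬ R a b) ∧ T.card = k) ⟨_, h1, h2, rfl⟩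
  rw [← hk, Finset.card_insert_of_notMem haT] at h4
  omega

theorem Near.refl {n : ℕ} (C Y : ℕ) (a : Fin n → ℤ) : Near C Y a a := by
  intro i
  have h : (1 : ℤ) ≤ ((Y : ℤ) + 2) ^ C := one_le_pow₀ (by omega)
  exact ⟨1, 1, one_ne_zero, one_ne_zero, by rw [abs_one]; exact h, by rw [abs_one]; exact h, rfl⟩

theorem Near.symm {n C Y : ℕ} {a a' : Fin n → ℤ} (h : Near C Y a a') : Near C Y a' a := by
  intro i
  obtain ⟨r, r', h1, h2, h3, h4, h5⟩ := h i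
  exact ⟨r', r, h2, h1, h4, h3, h5.symm⟩

theorem Near.common {n C Y : ℕ} {a a' : Fin n → ℤ} (h : Near C Y a a') :
    ∃ (l : ℤ) (τ : Fin n → ℤ), l ≠ 0 ∧ (∀ i, l * a i = τ i * a' i) ∧
      ∀ i, |τ i| ≤ ((Y : ℤ) + 2) ^ (n * C) := by
  classical
  choose r r' h1 h2 h3 h4 h5 using h
  refine ⟨∏ k, r k, fun i => (∏ k ∈ Finset.univ.erase i, r k) * r' i,
    Finset.prod_ne_zero_iff.2 fun k _ => h1 k, fun i => ?_, fun i => ?_⟩
  · rw [← Finset.mul_prod_erase _ _ (Finset.mem_univ i)]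
    linear_combination (∏ k ∈ Finset.univ.erase i, r k) * h5 i
  · rw [abs_mul, Finset.abs_prod]
    have hcard : (Finset.univ.erase i : Finset (Fin n)).card = n - 1 := by
      rw [Finset.card_erase_of_mem (Finset.mem_univ i), Finset.card_univ, Fintype.card_fin]
    have hn : 1 ≤ n := by have := i.2; omega
    calc (∏ k ∈ Finset.univ.erase i, |r k|) * |r' i| ≤
          (∏ _k ∈ Finset.univ.erase i, ((Y : ℤ) + 2) ^ C) * ((Y : ℤ) + 2) ^ C :=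
          mul_le_mul (Finset.prod_le_prod (fun _ _ => abs_nonneg _) fun k _ => h3 k) (h4 i)
            (abs_nonneg _) (Finset.prod_nonneg fun _ _ => by positivity)
      _ = _ := by
          rw [Finset.prod_const, hcard, ← pow_mul, ← pow_add]
          congr 1
          obtain ⟨m, rfl⟩ : ∃ m, n = m + 1 := ⟨n - 1, by omega⟩
          simp only [Nat.add_sub_cancel]
          ring

theorem proper_span2 {n : ℕ} (u A : Fin n → ℤ) (hA : ∀ i, A i ≠ 0)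
    (hu : ∀ i, u i ≠ 0) {B : ℤ} (hB : 1 ≤ B) (P : Set (Fin n → ℤ))
    (hP : ∀ a ∈ P, (∃ (l : ℤ) (τ : Fin n → ℤ), l ≠ 0 ∧ (∀ i, l * a i = τ i * A i) ∧
      ∀ i, |τ i| ≤ B) ∧ ∑ i, u i * a i = 0) (i0 : Fin n)
    (htall : (n.factorial : ℤ) * B ^ n * Finset.univ.gcd (fun i => u i * A i) <
      |u i0 * A i0|) :
    ¬ ∀ z : Fin n → ℚ, ∑ i, (u i : ℚ) * z i = 0 → z ∈ Submodule.span ℚ (vQ '' P) := by
  classical
  intro hsp
  obtain ⟨β, hβ⟩ : ∃ β : Fin n → ℤ, ∀ i, β i = u i * A i := ⟨_, fun _ => rfl⟩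
  have hβ0 : ∀ i, β i ≠ 0 := fun i => by
    rw [hβ]
    exact mul_ne_zero (hu i) (hA i)
  obtain ⟨Sg, hSg⟩ : ∃ Sg : Set (Fin n → ℤ), Sg =
      {τ | (∀ i, |τ i| ≤ B) ∧ ∃ a ∈ P, ∃ l : ℤ, l ≠ 0 ∧ ∀ i, l * a i = τ i * A i} := ⟨_, rfl⟩
  have hS : ∀ σ ∈ Sg, (∀ i, |σ i| ≤ B) ∧ ∑ i, σ i * β i = 0 := by
    intro σ hσ
    rw [hSg] at hσ
    obtain ⟨h1, a, ha, l, _, h3⟩ := hσ
    refine ⟨h1, ?_⟩
    have h4 : ∑ i, σ i * β i = l * ∑ i, u i * a i := by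
      rw [Finset.mul_sum]
      refine Finset.sum_congr rfl fun i _ => ?_
      rw [hβ]
      linear_combination -(u i) * h3 i
    rw [h4, (hP a ha).2, mul_zero]
  have hspan : ∀ z : Fin n → ℚ, ∑ i, z i * (β i : ℚ) = 0 →
      z ∈ Submodule.span ℚ ((fun σ : Fin n → ℤ => fun i => (σ i : ℚ)) '' Sg) := by
    intro z hz
    obtain ⟨D, hD⟩ : ∃ D : (Fin n → ℚ) →ₗ[ℚ] (Fin n → ℚ), ∀ v i, D v i = (A i : ℚ)⁻¹ * v i :=
      ⟨LinearMap.pi fun i => (A i : ℚ)⁻¹ • LinearMap.proj i, fun v i => rfl⟩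
    have h1 : (fun i => z i * (A i : ℚ)) ∈ Submodule.span ℚ (vQ '' P) := by
      apply hsp
      rw [← hz]
      refine Finset.sum_congr rfl fun i _ => ?_
      rw [hβ]
      push_cast
      ring
    have h2 : D (fun i => z i * (A i : ℚ)) ∈ Submodule.span ℚ (D '' (vQ '' P)) := by
      rw [← Submodule.map_span]
      exact Submodule.mem_map_of_mem h1
    have h3 : D (fun i => z i * (A i : ℚ)) = z := by
      funext i
      rw [hD]
      have : (A i : ℚ) ≠ 0 := by exact_mod_cast hA i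
      field_simp
    rw [h3] at h2
    refine (Submodule.span_le.2 ?_) h2
    rintro _ ⟨_, ⟨a, ha, rfl⟩, rfl⟩
    obtain ⟨⟨l, τ, hl, hτ1, hτ2⟩, _⟩ := hP a ha
    have hl' : (l : ℚ) ≠ 0 := by exact_mod_cast hl
    have h4 : D (vQ a) = (l : ℚ)⁻¹ • (fun i => (τ i : ℚ)) := by
      funext i
      rw [hD, Pi.smul_apply, smul_eq_mul]
      unfold vQ
      have h5 : (l : ℚ) * (a i : ℚ) = (τ i : ℚ) * (A i : ℚ) := by exact_mod_cast hτ1 i
      have h6 : (A i : ℚ) ≠ 0 := by exact_mod_cast hA i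
      field_simp
      linear_combination h5
    rw [h4]
    refine Submodule.smul_mem _ _ (Submodule.subset_span ⟨τ, ?_, rfl⟩)
    rw [hSg]
    exact ⟨hτ2, a, ha, l, hl, hτ1⟩
  obtain ⟨q, p, hq0, hq, _, hp⟩ := span_small β i0 (hβ0 i0) hB Sg hS hspan
  have hdvd : β i0 ∣ Finset.univ.gcd (fun i => q * (u i * A i)) := by
    apply Finset.dvd_gcd
    intro i _
    refine ⟨p i, ?_⟩
    rw [← hβ i, hp i]
    ring
  rw [Finset.gcd_mul_left] at hdvd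
  obtain ⟨G, hG⟩ : ∃ G : ℤ, G = Finset.univ.gcd (fun i => u i * A i) := ⟨_, rfl⟩
  rw [← hG] at hdvd htall
  have hG0 : 0 ≤ G := by
    rw [hG]
    exact Int.nonneg_of_normalize_eq_self Finset.normalize_gcd
  have hGne : G ≠ 0 := by
    intro h
    have h1 : G ∣ u i0 * A i0 := by
      rw [hG]
      exact Finset.gcd_dvd (Finset.mem_univ i0)
    rw [h] at h1
    exact mul_ne_zero (hu i0) (hA i0) (zero_dvd_iff.1 h1)
  have h2 : |β i0| ≤ |q| * G := by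
    have h3 : β i0 ∣ q * G := hdvd.trans (mul_dvd_mul_right (normalize_associated q).dvd G)
    have h4 := Int.le_of_dvd (abs_pos.2 (mul_ne_zero hq0 hGne))
      ((abs_dvd _ _).2 ((dvd_abs _ _).2 h3))
    rwa [abs_mul, abs_of_nonneg hG0] at h4
  rw [← hβ] at htall
  have h5 := mul_le_mul_of_nonneg_right hq hG0
  linarith

/-- a solution with few generators -/
structure SgPt (n N E : ℕ) (δ : ℝ) (Y : ℕ) (u : Fin n → ℤ) (a : Fin n → ℤ) : Prop where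
  nz : ∀ i, a i ≠ 0
  gcd : ∀ d : ℕ, (∀ i, (d : ℤ) ∣ a i) → d = 1
  sum : ∑ i, u i * a i = 0
  hi : ∀ i, ((|a i| : ℤ) : ℝ) ≤ Real.exp ((Y : ℝ) ^ δ)
  rep : ∃ (s : Fin n → ℤ) (x : Fin N → ℕ) (e : Fin n → Fin N → ℕ),
    (∀ j, 1 ≤ x j ∧ x j ≤ Y) ∧ (∀ i, |s i| ≤ (Y : ℤ) ^ E) ∧ ∀ i, a i = s i * ∏ j, (x j : ℤ) ^ e i j

/-- **Few subspaces.** -/
theorem sg (n N E : ℕ) (ε : ℝ) (hε : 0 < ε) : ∃ (K : ℕ) (δ : ℝ), 0 < δ ∧
    ∀ Y : ℕ, 2 ≤ Y → ∀ u : Fin n → ℤ, (∀ i, u i ≠ 0 ∧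
      ((|u i| : ℤ) : ℝ) ≤ Real.exp ((Y : ℝ) ^ δ)) →
      ∃ L : Finset (Submodule ℚ (Fin n → ℚ)), (L.card : ℝ) ≤ (Y : ℝ) ^ ε ∧
        (∀ W ∈ L, ¬ ∀ z : Fin n → ℚ, ∑ i, (u i : ℚ) * z i = 0 → z ∈ W) ∧
        ∀ a, SgPt n N E δ Y u a → Tall K Y u a → ∃ W ∈ L, vQ a ∈ W := by
  classical
  obtain ⟨C, δ0, hδ0, H⟩ := gc n N E (ε / 2) (by positivity)
  obtain ⟨δ, hδ, hδ1, hδ2⟩ : ∃ δ : ℝ, 0 < δ ∧ δ ≤ δ0 ∧ δ ≤ 1 :=
    ⟨min δ0 1, by positivity, min_le_left _ _, min_le_right _ _⟩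
  obtain ⟨K0, hK0⟩ : ∃ K0 : ℕ, K0 = 4 * ⌈((2 : ℝ) ^ (n + 1)) ^ (2 / ε)⌉₊ := ⟨_, rfl⟩
  obtain ⟨K, hK⟩ : ∃ K : ℕ, K = n.factorial + 2 * (n * C) * n + K0 := ⟨_, rfl⟩
  refine ⟨K, δ, hδ, fun Y hY u hu => ?_⟩
  have hYr : (1 : ℝ) ≤ (Y : ℝ) := by exact_mod_cast (by omega : 1 ≤ Y)
  have hpow : (Y : ℝ) ^ δ ≤ (Y : ℝ) ^ δ0 := Real.rpow_le_rpow_of_exponent_le hYr hδ1
  have hpow1 : (Y : ℝ) ^ δ ≤ (Y : ℝ) := by
    calc (Y : ℝ) ^ δ ≤ (Y : ℝ) ^ (1 : ℝ) := Real.rpow_le_rpow_of_exponent_le hYr hδ2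
      _ = _ := Real.rpow_one _
  by_cases hex : ∃ a, SgPt n N E δ Y u a ∧ Tall K Y u a
  swap
  · push Not at hex
    refine ⟨∅, by simp; positivity, by simp, fun a h1 h2 => absurd h2 (hex a h1)⟩
  -- `Y` is large
  have hYl : (2 : ℝ) ^ (n + 1) ≤ (Y : ℝ) ^ (ε / 2) := by
    obtain ⟨a, ha, ht⟩ := hex
    have h1 := tall_large hY (fun i => ⟨(hu i).1, (hu i).2.trans (Real.exp_le_exp.2 hpow1)⟩)
      (fun i => ⟨ha.nz i, (ha.hi i).trans (Real.exp_le_exp.2 hpow1)⟩) ht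
    have h2 : ⌈((2 : ℝ) ^ (n + 1)) ^ (2 / ε)⌉₊ ≤ Y := by omega
    have h3 : ((2 : ℝ) ^ (n + 1)) ^ (2 / ε) ≤ (Y : ℝ) :=
      (Nat.le_ceil _).trans (by exact_mod_cast h2)
    calc (2 : ℝ) ^ (n + 1) = (((2 : ℝ) ^ (n + 1)) ^ (2 / ε)) ^ (ε / 2) := by
          rw [← Real.rpow_mul (by positivity)]
          have : 2 / ε * (ε / 2) = 1 := by field_simp
          rw [this, Real.rpow_one]
      _ ≤ _ := Real.rpow_le_rpow (by positivity) h3 (by positivity)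
  -- the classes
  obtain ⟨T, hT1, hT2, hT3⟩ := max_sep {a : Fin n → ℤ | GcPt n N E δ0 Y u a ∧ Tall K Y u a}
    (Near C Y) (Near.refl C Y) (fun _ _ => Near.symm) ((Y : ℝ) ^ (ε / 2))
    (fun T h1 h2 => H Y (by omega) u
      (fun i => ⟨(hu i).1, (hu i).2.trans (Real.exp_le_exp.2 hpow)⟩) T (fun a ha => (h1 a ha).1) h2)
  obtain ⟨L1, hL1⟩ : ∃ L1 : Finset (Submodule ℚ (Fin n → ℚ)), L1 =
      (Finset.univ.filter (fun K : Finset (Fin n) => K.Nonempty ∧ K ≠ Finset.univ)).image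
        (fun K => LinearMap.ker (∑ i ∈ K, (u i : ℚ) •
          (LinearMap.proj i : (Fin n → ℚ) →ₗ[ℚ] ℚ))) := ⟨_, rfl⟩
  obtain ⟨L2, hL2⟩ : ∃ L2 : Finset (Submodule ℚ (Fin n → ℚ)), L2 =
      T.image (fun A => Submodule.span ℚ (vQ '' {a | GcPt n N E δ0 Y u a ∧ Near C Y a A})) :=
    ⟨_, rfl⟩
  have hker : ∀ (K : Finset (Fin n)) (z : Fin n → ℚ),
      z ∈ LinearMap.ker (∑ i ∈ K, (u i : ℚ) • (LinearMap.proj i : (Fin n → ℚ) →ₗ[ℚ] ℚ)) ↔
        ∑ i ∈ K, (u i : ℚ) * z i = 0 := by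
    intro K z
    rw [LinearMap.mem_ker, LinearMap.sum_apply]
    rfl
  refine ⟨L1 ∪ L2, ?_, ?_, ?_⟩
  · have h1 : (L1.card : ℝ) ≤ 2 ^ n := by
      have : L1.card ≤ 2 ^ n := by
        rw [hL1]
        refine Finset.card_image_le.trans ((Finset.card_filter_le _ _).trans ?_)
        rw [Finset.card_univ, Fintype.card_finset, Fintype.card_fin]
      exact_mod_cast this
    have h2 : (L2.card : ℝ) ≤ (Y : ℝ) ^ (ε / 2) := by
      refine le_trans ?_ hT2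
      rw [hL2]
      exact_mod_cast Finset.card_image_le
    have h3 : ((L1 ∪ L2).card : ℝ) ≤ L1.card + L2.card := by
      exact_mod_cast Finset.card_union_le _ _
    have h4 : (Y : ℝ) ^ ε = (Y : ℝ) ^ (ε / 2) * (Y : ℝ) ^ (ε / 2) := by
      rw [← Real.rpow_add (by positivity)]
      congr 1
      ring
    have h5 : (1 : ℝ) ≤ (2 : ℝ) ^ n := one_le_pow₀ (by norm_num)
    rw [h4]
    rw [pow_succ] at hYl
    nlinarith
  · intro W hW
    rcases Finset.mem_union.1 hW with h | h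
    · rw [hL1] at h
      obtain ⟨K, hK, rfl⟩ := Finset.mem_image.1 h
      obtain ⟨_, hK1, hK2⟩ := Finset.mem_filter.1 hK
      intro h1
      refine vanish_proper u (fun i => (hu i).1) K hK1 hK2 fun z hz => ?_
      exact (hker K z).1 (h1 z hz)
    · rw [hL2] at h
      obtain ⟨A, hA, rfl⟩ := Finset.mem_image.1 h
      obtain ⟨hg, i0, hi0⟩ := hT1 A hA
      refine proper_span2 u A hg.nz (fun i => (hu i).1) (B := ((Y : ℤ) + 2) ^ (n * C))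
        (one_le_pow₀ (by omega)) _ ?_ i0 ?_
      · intro a ha
        exact ⟨ha.2.common, ha.1.sum⟩
      · refine lt_of_le_of_lt ?_ hi0
        apply mul_le_mul_of_nonneg_right _
          (Int.nonneg_of_normalize_eq_self Finset.normalize_gcd)
        have h0 : (2 : ℤ) ≤ (Y : ℤ) := by exact_mod_cast hY
        have h1 : (1 : ℤ) ≤ (Y : ℤ) := by linarith
        have h2 : (Y : ℤ) + 2 ≤ (Y : ℤ) ^ 2 := by nlinarith
        calc (n.factorial : ℤ) * (((Y : ℤ) + 2) ^ (n * C)) ^ n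
            ≤ (Y : ℤ) ^ n.factorial * (((Y : ℤ) ^ 2) ^ (n * C)) ^ n := by
              refine mul_le_mul ?_ ?_ (by positivity) (by positivity)
              · have h2 : n.factorial < 2 ^ n.factorial := Nat.lt_two_pow_self
                calc (n.factorial : ℤ) ≤ (2 : ℤ) ^ n.factorial := by exact_mod_cast h2.le
                  _ ≤ (Y : ℤ) ^ n.factorial := pow_le_pow_left₀ (by norm_num) h0 _
              · exact pow_le_pow_left₀ (by positivity)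
                  (pow_le_pow_left₀ (by positivity) h2 _) _
          _ = (Y : ℤ) ^ (n.factorial + 2 * (n * C) * n) := by
              rw [← pow_mul, ← pow_mul, ← pow_add]
              congr 1
              ring
          _ ≤ (Y : ℤ) ^ K := pow_le_pow_right₀ h1 (by omega)
  · intro a ha ht
    by_cases hv : ∀ K : Finset (Fin n), K.Nonempty → K ≠ Finset.univ → ∑ i ∈ K, u i * a i ≠ 0
    · have hg : GcPt n N E δ0 Y u a :=
        ⟨ha.nz, ha.gcd, ha.sum, hv, fun i => (ha.hi i).trans (Real.exp_le_exp.2 hpow), ha.rep⟩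
      obtain ⟨A, hA, hnear⟩ := hT3 a ⟨hg, ht⟩
      refine ⟨Submodule.span ℚ (vQ '' {a | GcPt n N E δ0 Y u a ∧ Near C Y a A}), ?_, ?_⟩
      · apply Finset.mem_union_right
        rw [hL2]
        exact Finset.mem_image_of_mem _ hA
      · exact Submodule.subset_span ⟨a, ⟨hg, hnear⟩, rfl⟩
    · push Not at hv
      obtain ⟨K, hK1, hK2, hK3⟩ := hv
      refine ⟨LinearMap.ker (∑ i ∈ K, (u i : ℚ) • (LinearMap.proj i : (Fin n → ℚ) →ₗ[ℚ] ℚ)),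
        ?_, ?_⟩
      · apply Finset.mem_union_left
        rw [hL1]
        exact Finset.mem_image.2 ⟨K, Finset.mem_filter.2 ⟨Finset.mem_univ _, hK1, hK2⟩, rfl⟩
      · rw [hker]
        have h1 : ((∑ i ∈ K, u i * a i : ℤ) : ℚ) = 0 := by rw [hK3, Int.cast_zero]
        push_cast at h1
        exact h1

end Pool.Agent.Y902.GN
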