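import Mathlib
import Pool.Agent.Y902.GN.Dy5

/-!
# Unicritical polynomials up to conjugation
-/

set_option autoImplicit false

namespace Pool.Agent.Y902.GN

theorem prt_card3 (E : ℕ) (ε : ℝ) (hε : 0 < ε) : ∃ (R : ℕ) (δ : ℝ), 0 < δ ∧
    ∀ Y : ℕ, 1 ≤ Y → ∀ T : Finset ℚ,
      (∀ w ∈ T, w = 0 ∨ w = 1 ∨ w = -1 ∨
        ∃ d : ℕ, R ≤ d ∧ (d : ℝ) ≤ (Y : ℝ) ^ δ ∧ Prt Y E d w) →
      (T.card : ℝ) ≤ 5 * (Y : ℝ) ^ ε := by
  classical
  obtain ⟨R, δ, hδ, H⟩ := prt_card E ε hε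
  refine ⟨R, δ, hδ, fun Y hY T hT => ?_⟩
  have h1 := H Y hY (T.filter fun w => ∃ d : ℕ, R ≤ d ∧ (d : ℝ) ≤ (Y : ℝ) ^ δ ∧ Prt Y E d w)
    (fun w hw => Or.inr (Finset.mem_filter.1 hw).2)
  have h2 : T ⊆ {0, 1, -1} ∪
      (T.filter fun w => ∃ d : ℕ, R ≤ d ∧ (d : ℝ) ≤ (Y : ℝ) ^ δ ∧ Prt Y E d w) := by
    intro w hw
    rw [Finset.mem_union]
    rcases hT w hw with h | h | h | h
    · left; simp [h]
    · left; simp [h]
    · left; simp [h]
    · right; exact Finset.mem_filter.2 ⟨hw, h⟩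
  have h3 := (Finset.card_le_card h2).trans (Finset.card_union_le _ _)
  have h4 : ({0, 1, -1} : Finset ℚ).card ≤ 3 := Finset.card_le_three
  have h5 : (T.card : ℝ) ≤ 3 + ((T.filter fun w => ∃ d : ℕ, R ≤ d ∧ (d : ℝ) ≤ (Y : ℝ) ^ δ ∧
      Prt Y E d w).card : ℝ) := by
    exact_mod_cast h3.trans (Nat.add_le_add_right h4 _)
  have h6 : (1 : ℝ) ≤ (Y : ℝ) ^ ε := Real.one_le_rpow (by exact_mod_cast hY) hε.le
  linarith

/-- **Counting lemma.** -/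
theorem cnt3 (n B E : ℕ) (hB : 1 ≤ B) (ε : ℝ) (hε : 0 < ε) : ∃ (R : ℕ) (δ : ℝ), 0 < δ ∧
    ∀ Y : ℕ, 1 ≤ Y → ∀ (Φ : ℕ → (Fin n → ℚ) → ℚ) (T : Finset (ℕ × ℚ)),
      (∀ t ∈ T, R ≤ t.1 ∧ (t.1 : ℝ) ≤ (Y : ℝ) ^ δ ∧ ∃ v : Fin n → ℚ, t.2 = Φ t.1 v ∧
        ∀ i, v i = 0 ∨ v i = 1 ∨ v i = -1 ∨ Prt (Y ^ B) E t.1 (v i)) →
      (T.card : ℝ) ≤ (Y : ℝ) ^ ε := by
  classical
  obtain ⟨R, δ1, hδ1, H⟩ := prt_card3 E (ε / (4 * (B + 1) * (n + 1))) (by positivity)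
  refine ⟨R + 5 ^ n, min (min δ1 1) (ε / 4), by positivity, fun Y hY Φ T hT => ?_⟩
  obtain ⟨δ, hδ⟩ : ∃ δ : ℝ, δ = min (min δ1 1) (ε / 4) := ⟨_, rfl⟩
  rw [← hδ] at hT
  have hδ0 : 0 < δ := by rw [hδ]; positivity
  have hδa : δ ≤ δ1 := by rw [hδ]; exact (min_le_left _ _).trans (min_le_left _ _)
  have hδb : δ ≤ ε / 4 := by rw [hδ]; exact min_le_right _ _
  have hYr : (1 : ℝ) ≤ (Y : ℝ) := by exact_mod_cast hY
  have hY0 : (0 : ℝ) < (Y : ℝ) := by linarith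
  have hmono : ∀ {a b : ℝ}, a ≤ b → (Y : ℝ) ^ a ≤ (Y : ℝ) ^ b :=
    fun hab => Real.rpow_le_rpow_of_exponent_le hYr hab
  rcases T.eq_empty_or_nonempty with rfl | ⟨t0, ht0⟩
  · rw [Finset.card_empty, Nat.cast_zero]
    positivity
  have hYB : ((Y ^ B : ℕ) : ℝ) = (Y : ℝ) ^ (B : ℝ) := by
    rw [Nat.cast_pow, Real.rpow_natCast]
  have hB1 : (1 : ℝ) ≤ (B : ℝ) := by exact_mod_cast hB
  have hYYB : (Y : ℝ) ≤ ((Y ^ B : ℕ) : ℝ) := by
    rw [hYB]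
    calc (Y : ℝ) = (Y : ℝ) ^ (1 : ℝ) := (Real.rpow_one _).symm
      _ ≤ _ := hmono hB1
  have h2n : (5 : ℝ) ^ n ≤ (Y : ℝ) ^ (ε / 4) := by
    obtain ⟨e1, e2, _⟩ := hT t0 ht0
    have e3 : (5 : ℝ) ^ n ≤ (t0.1 : ℝ) := by
      exact_mod_cast (by omega : 5 ^ n ≤ t0.1)
    exact e3.trans (e2.trans (hmono hδb))
  choose! hR hd v hv1 hv2 using hT
  -- the roles
  have hrole : ∀ i, ((T.image fun t => v t i).card : ℝ) ≤ 5 * (Y : ℝ) ^ (ε / (4 * (n + 1))) := by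
    intro i
    have h1 := H (Y ^ B) (Nat.one_le_pow _ _ hY) (T.image fun t => v t i) (by
      intro w hw
      obtain ⟨t, ht, rfl⟩ := Finset.mem_image.1 hw
      rcases hv2 t ht i with h2 | h2 | h2 | h2
      · exact Or.inl h2
      · exact Or.inr (Or.inl h2)
      · exact Or.inr (Or.inr (Or.inl h2))
      · refine Or.inr (Or.inr (Or.inr ⟨t.1, (Nat.le_add_right _ _).trans (hR t ht), ?_, h2⟩))
        refine (hd t ht).trans ?_
        calc (Y : ℝ) ^ δ ≤ (Y : ℝ) ^ δ1 := hmono hδa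
          _ ≤ _ := Real.rpow_le_rpow hY0.le hYYB hδ1.le)
    refine h1.trans ?_
    rw [hYB, ← Real.rpow_mul hY0.le]
    have h3 : (Y : ℝ) ^ ((B : ℝ) * (ε / (4 * (B + 1) * (n + 1)))) ≤
        (Y : ℝ) ^ (ε / (4 * (n + 1))) := by
      apply hmono
      rw [mul_div_assoc', div_le_div_iff₀ (by positivity) (by positivity)]
      have : (0 : ℝ) ≤ ε * (n + 1) := by positivity
      nlinarith
    linarith
  -- the injection
  have hinj : Set.InjOn (fun t : ℕ × ℚ => (t.1, v t)) (T : Set (ℕ × ℚ)) := by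
    intro t ht t' ht' h
    obtain ⟨h1, h2⟩ := Prod.mk.inj h
    refine Prod.ext h1 ?_
    rw [hv1 t (Finset.mem_coe.1 ht), hv1 t' (Finset.mem_coe.1 ht'), h1, h2]
  have hcard : T.card ≤ (Finset.Icc 1 ⌊(Y : ℝ) ^ δ⌋₊).card *
      ∏ i : Fin n, (T.image fun t => v t i).card := by
    rw [← Fintype.card_piFinset, ← Finset.card_product]
    refine Finset.card_le_card_of_injOn _ ?_ hinj
    intro t ht
    have ht' := Finset.mem_coe.1 ht
    refine Finset.mem_coe.2 (Finset.mem_product.2 ⟨Finset.mem_Icc.2 ⟨?_, Nat.le_floor (hd t ht')⟩,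
      Fintype.mem_piFinset.2 fun i => Finset.mem_image_of_mem (fun t => v t i) ht'⟩)
    have h1 := hR t ht'
    have h2 : 0 < 5 ^ n := by positivity
    show 1 ≤ t.1
    omega
  have hIcc : ((Finset.Icc 1 ⌊(Y : ℝ) ^ δ⌋₊).card : ℝ) ≤ (Y : ℝ) ^ (ε / 4) := by
    rw [Nat.card_Icc, Nat.add_sub_cancel]
    exact (Nat.floor_le (by positivity)).trans (hmono hδb)
  calc (T.card : ℝ) ≤ (((Finset.Icc 1 ⌊(Y : ℝ) ^ δ⌋₊).card *
      ∏ i : Fin n, (T.image fun t => v t i).card : ℕ) : ℝ) := by exact_mod_cast hcard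
    _ = ((Finset.Icc 1 ⌊(Y : ℝ) ^ δ⌋₊).card : ℝ) *
        ∏ i : Fin n, ((T.image fun t => v t i).card : ℝ) := by push_cast; rfl
    _ ≤ (Y : ℝ) ^ (ε / 4) * ∏ _i : Fin n, (5 * (Y : ℝ) ^ (ε / (4 * (n + 1)))) := by
        refine mul_le_mul hIcc ?_ (by positivity) (by positivity)
        exact Finset.prod_le_prod (fun i _ => by positivity) fun i _ => hrole i
    _ = (Y : ℝ) ^ (ε / 4) * ((5 : ℝ) ^ n * (Y : ℝ) ^ (ε / (4 * (n + 1)) * n)) := by
        rw [Finset.prod_const, Finset.card_univ, Fintype.card_fin, mul_pow,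
          Real.rpow_mul hY0.le, Real.rpow_natCast]
    _ ≤ (Y : ℝ) ^ (ε / 4) * ((Y : ℝ) ^ (ε / 4) * (Y : ℝ) ^ (ε / 4)) := by
        refine mul_le_mul_of_nonneg_left (mul_le_mul h2n (hmono ?_) (by positivity)
          (by positivity)) (by positivity)
        rw [div_mul_eq_mul_div, div_le_div_iff₀ (by positivity) (by norm_num)]
        nlinarith
    _ ≤ (Y : ℝ) ^ ε := by
        rw [← Real.rpow_add hY0, ← Real.rpow_add hY0]
        apply hmono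
        linarith

/-- the height -/
def hh (q : ℚ) : ℕ := max q.num.natAbs q.den

theorem htLe_iff {B : ℕ} {q : ℚ} : HtLe B q ↔ hh q ≤ B := by
  unfold HtLe hh
  rw [max_le_iff, Int.abs_eq_natAbs]
  norm_cast

theorem hh_pow {B : ℕ} {q : ℚ} {n : ℕ} (h : HtLe B (q ^ n)) : hh q ^ n ≤ B := by
  have h1 := htLe_iff.1 h
  unfold hh at h1 ⊢
  rw [Rat.num_pow, Rat.den_pow, Int.natAbs_pow] at h1
  rcases max_choice q.num.natAbs q.den with h2 | h2
  · rw [h2]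
    exact (le_max_left _ _).trans h1
  · rw [h2]
    exact (le_max_right _ _).trans h1

theorem HtLe.inv {B : ℕ} {q : ℚ} (h : HtLe B q) (hq : q ≠ 0) : HtLe B q⁻¹ := by
  refine HtLe.of_div (A := (q.den : ℤ)) (B := q.num) (Rat.num_ne_zero.2 hq) ?_ h.den_abs h.1
  have e := Rat.mul_den_eq_num q
  rw [← e]
  push_cast
  have h1 : (q.den : ℚ) ≠ 0 := by exact_mod_cast q.den_nz
  field_simp

theorem HtLe.one : HtLe 1 1 := by
  refine ⟨?_, ?_⟩ <;> simp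

theorem six {S : Set ℚ} (hS : 5 < S.encard) {d : ℕ} (hd : d ≠ 0) :
    ∃ x ∈ S, ∃ y ∈ S, ∃ z ∈ S, x ≠ 0 ∧ y ≠ 0 ∧ z ≠ 0 ∧ x ^ d ≠ y ^ d ∧ x ^ d ≠ z ^ d ∧
      y ^ d ≠ z ^ d := by
  obtain ⟨x, hx, y, hy, hx0, hy0, hxy⟩ := four (lt_trans (by norm_num) hS) hd
  by_contra hcon
  push Not at hcon
  have h1 : S ⊆ {0, x, -x, y, -y} := by
    intro z hz
    by_cases hz0 : z = 0
    · exact Or.inl hz0
    · have key : ∀ u : ℚ, z ^ d = u ^ d → z = u ∨ z = -u := by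
        intro u hu
        have h4 : |z| ^ d = |u| ^ d := by rw [← abs_pow, ← abs_pow, hu]
        exact abs_eq_abs.1 ((pow_left_inj₀ (abs_nonneg _) (abs_nonneg _) hd).1 h4)
      by_cases h2 : x ^ d = z ^ d
      · rcases key x h2.symm with h3 | h3
        · exact Or.inr (Or.inl h3)
        · exact Or.inr (Or.inr (Or.inl h3))
      · rcases key y (hcon x hx y hy z hz hx0 hy0 hz0 hxy h2).symm with h3 | h3
        · exact Or.inr (Or.inr (Or.inr (Or.inl h3)))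
        · exact Or.inr (Or.inr (Or.inr (Or.inr h3)))
  have h2 : ({0, x, -x, y, -y} : Set ℚ).encard ≤ 5 := by
    calc ({0, x, -x, y, -y} : Set ℚ).encard ≤ ({x, -x, y, -y} : Set ℚ).encard + 1 :=
          Set.encard_insert_le _ _
      _ ≤ (({-x, y, -y} : Set ℚ).encard + 1) + 1 := by gcongr; exact Set.encard_insert_le _ _
      _ ≤ ((({y, -y} : Set ℚ).encard + 1) + 1) + 1 := by gcongr; exact Set.encard_insert_le _ _
      _ ≤ (((({-y} : Set ℚ).encard + 1) + 1) + 1) + 1 := by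
          gcongr; exact Set.encard_insert_le _ _
      _ = 5 := by rw [Set.encard_singleton]; norm_num
  exact absurd ((Set.encard_le_encard h1).trans h2) (not_le.2 hS)

/-- the height of the points of a finite invariant set -/
theorem uni_apriori {d Y : ℕ} {t : ℚ} (hd : 2 ≤ d) (ht : t ≠ 0)
    (htY : HtLe (Y ^ (d * (d - 1))) t) {S : Set ℚ} (hfin : S.Finite)
    (hS : ∀ w ∈ S, t * w ^ d + 1 ∈ S) : ∀ w ∈ S, HtLe (2 * Y ^ d) w := by
  intro w hw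
  obtain ⟨w0, hw0, hmax⟩ := Set.exists_max_image S hh hfin ⟨w, hw⟩
  have h1 : HtLe (2 * (hh w0 * 1) * Y ^ (d * (d - 1))) (w0 ^ d) := by
    have e1 : w0 ^ d = ((t * w0 ^ d + 1) - 1) * t⁻¹ := by
      field_simp
      ring
    rw [e1]
    exact ((htLe_iff.2 (hmax _ (hS w0 hw0))).sub HtLe.one).mul (htY.inv ht)
  have h2 := hh_pow h1
  have hpos : 0 < hh w0 := lt_of_lt_of_le w0.pos (le_max_right _ _)
  have h3 : hh w0 ^ (d - 1) * hh w0 ≤ (2 * Y ^ d) ^ (d - 1) * hh w0 := by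
    calc hh w0 ^ (d - 1) * hh w0 = hh w0 ^ d := by
          rw [← pow_succ]
          congr 1
          omega
      _ ≤ 2 * (hh w0 * 1) * Y ^ (d * (d - 1)) := h2
      _ = (2 * Y ^ (d * (d - 1))) * hh w0 := by ring
      _ ≤ (2 * Y ^ d) ^ (d - 1) * hh w0 := by
          refine Nat.mul_le_mul_right _ ?_
          rw [mul_pow, ← pow_mul]
          exact Nat.mul_le_mul_right _ (by
            calc 2 = 2 ^ 1 := (pow_one 2).symm
              _ ≤ 2 ^ (d - 1) := Nat.pow_le_pow_right (by norm_num) (by omega))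
  have h4 := Nat.le_of_mul_le_mul_right h3 hpos
  have h5 : hh w0 ≤ 2 * Y ^ d := (Nat.pow_le_pow_iff_left (by omega)).1 h4
  exact htLe_iff.2 ((hmax w hw).trans h5)

/-- **Unicritical polynomials.** -/
theorem uni (ε : ℝ) (hε : 0 < ε) : ∃ (d₀ : ℕ) (δ : ℝ), 0 < δ ∧
    ∀ Y : ℕ, 1 ≤ Y → ∀ T : Finset (ℕ × ℚ),
      (∀ t ∈ T, d₀ ≤ t.1 ∧ (t.1 : ℝ) ≤ (Y : ℝ) ^ δ ∧ t.2 ≠ 0 ∧
        HtLe (Y ^ (t.1 * (t.1 - 1))) t.2 ∧ ∃ S : Set ℚ, 5 < S.encard ∧ ∀ w ∈ S, ∃ S' ⊆ S,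
          w ∈ S' ∧ S'.Finite ∧ ∀ u ∈ S', t.2 * u ^ t.1 + 1 ∈ S') →
      (T.card : ℝ) ≤ (Y : ℝ) ^ ε := by
  classical
  obtain ⟨R, δ, hδ, H⟩ := cnt3 3 3 5 (by norm_num) ε hε
  refine ⟨R + 4, δ, hδ, fun Y hY T hT => ?_⟩
  refine H Y hY (fun d v => ((v 1 - v 2) / (1 - v 0 ^ d)) *
    (v 1 - (v 1 - v 2) / (1 - v 0 ^ d)) ^ (d - 1)) T fun t ht => ?_
  obtain ⟨hd1, hd2, ht0, htY, S, hS1, hS2⟩ := hT t ht
  obtain ⟨d, hdd⟩ : ∃ d, d = t.1 := ⟨_, rfl⟩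
  obtain ⟨c, hcc⟩ : ∃ c, c = t.2 := ⟨_, rfl⟩
  rw [← hdd] at hd1 hd2 htY hS2 ⊢
  rw [← hcc] at ht0 htY hS2 ⊢
  have hd4 : 4 ≤ d := (Nat.le_add_left _ _).trans hd1
  have hd0 : d ≠ 0 := by omega
  have hY2 : 2 ≤ Y := by
    by_contra hcon
    have hY1 : Y = 1 := by omega
    rw [hY1, Nat.cast_one, Real.one_rpow] at hd2
    have : d ≤ 1 := by exact_mod_cast hd2
    omega
  refine ⟨(Nat.le_add_right _ _).trans hd1, hd2, ?_⟩
  have hcl : ∀ w ∈ S, HtLe (2 * Y ^ d) w ∧ c * w ^ d + 1 ∈ S := by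
    intro w hw
    obtain ⟨S', h1, h2, h3, h4⟩ := hS2 w hw
    exact ⟨uni_apriori (by omega) ht0 htY h3 h4 w h2, h1 (h4 w h2)⟩
  -- quotients
  have hquo : ∀ w ∈ S, ∀ x ∈ S, x ≠ 0 → HtLe (Y ^ 3) (w / x) := by
    intro w hw x hx hx0
    have hp := (hcl _ (hcl w hw).2).1
    have hq := (hcl _ (hcl x hx).2).1
    have hq0 : (c * x ^ d + 1) - 1 ≠ 0 := by
      rw [add_sub_cancel_right]
      exact mul_ne_zero ht0 (pow_ne_zero _ hx0)
    have h1 : HtLe (2 * (2 * Y ^ d * 1) * (2 * (2 * Y ^ d * 1))) ((w / x) ^ d) := by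
      have e1 : (w / x) ^ d = ((c * w ^ d + 1) - 1) * ((c * x ^ d + 1) - 1)⁻¹ := by
        rw [add_sub_cancel_right, add_sub_cancel_right, div_pow]
        have := pow_ne_zero d hx0
        field_simp
      rw [e1]
      exact (hp.sub HtLe.one).mul ((hq.sub HtLe.one).inv hq0)
    have h2 := hh_pow h1
    have h3 : hh (w / x) ^ d ≤ (2 * Y ^ 2) ^ d := by
      refine h2.trans ?_
      calc 2 * (2 * Y ^ d * 1) * (2 * (2 * Y ^ d * 1)) = 2 ^ 4 * (Y ^ 2) ^ d := by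
            rw [← pow_mul]
            ring
        _ ≤ 2 ^ d * (Y ^ 2) ^ d :=
            Nat.mul_le_mul_right _ (Nat.pow_le_pow_right (by norm_num) hd4)
        _ = _ := (mul_pow _ _ _).symm
    have h4 : hh (w / x) ≤ 2 * Y ^ 2 := (Nat.pow_le_pow_iff_left hd0).1 h3
    refine htLe_iff.2 (h4.trans ?_)
    calc 2 * Y ^ 2 ≤ Y * Y ^ 2 := Nat.mul_le_mul_right _ hY2
      _ = Y ^ 3 := by ring
  -- partners
  have hprt : ∀ x ∈ S, ∀ w ∈ S, ∀ z ∈ S, x ≠ 0 → w ≠ 0 → z ≠ 0 → x ^ d ≠ w ^ d → x ^ d ≠ z ^ d →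
      w ^ d ≠ z ^ d → Prt (Y ^ 3) 5 d (w / x) := by
    intro x hx w hw z hz hx0 hw0 hz0 h1 h2 h3
    have hxd : x ^ d ≠ 0 := pow_ne_zero _ hx0
    obtain ⟨ρ, hρ⟩ : ∃ ρ : ℚ, ρ = ((c * x ^ d + 1) / x - (c * w ^ d + 1) / x) *
      ((c * x ^ d + 1) / x - (c * z ^ d + 1) / x)⁻¹ := ⟨_, rfl⟩
    have hne : (c * x ^ d + 1) / x - (c * z ^ d + 1) / x ≠ 0 := by
      rw [← sub_div]
      refine div_ne_zero ?_ hx0
      rw [show c * x ^ d + 1 - (c * z ^ d + 1) = c * (x ^ d - z ^ d) by ring]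
      exact mul_ne_zero ht0 (sub_ne_zero.2 h2)
    have hρH : HtLe (Y ^ 14) ρ := by
      rw [hρ]
      have e1 := hquo _ (hcl x hx).2 x hx hx0
      have e2 := hquo _ (hcl w hw).2 x hx hx0
      have e3 := hquo _ (hcl z hz).2 x hx hx0
      refine ((e1.sub e2).mul ((e1.sub e3).inv hne)).mono ?_
      calc 2 * (Y ^ 3 * Y ^ 3) * (2 * (Y ^ 3 * Y ^ 3)) ≤ Y * (Y ^ 3 * Y ^ 3) * (Y * (Y ^ 3 * Y ^ 3)) :=
            by gcongr
        _ = Y ^ 14 := by ring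
    have hρ2 : (1 - (w / x) ^ d) = ρ * (1 - (z / x) ^ d) := by
      have e1 : ρ * ((c * x ^ d + 1) / x - (c * z ^ d + 1) / x) =
          (c * x ^ d + 1) / x - (c * w ^ d + 1) / x := by
        rw [hρ, mul_assoc, inv_mul_cancel₀ hne, mul_one]
      rw [div_pow, div_pow]
      field_simp
      field_simp at e1
      have e2 : c * (ρ * (x ^ d - z ^ d)) = c * (x ^ d - w ^ d) := by linear_combination e1
      exact (mul_left_cancel₀ ht0 e2).symm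
    have hu1 : (w / x) ^ d ≠ 1 := by
      rw [div_pow, Ne, div_eq_one_iff_eq hxd]
      exact fun h => h1 h.symm
    have hv1 : (z / x) ^ d ≠ 1 := by
      rw [div_pow, Ne, div_eq_one_iff_eq hxd]
      exact fun h => h2 h.symm
    have huv : (w / x) ^ d ≠ (z / x) ^ d := by
      rw [div_pow, div_pow]
      intro h
      exact h3 ((div_left_inj' hxd).1 h)
    have e := Rat.mul_den_eq_num ρ
    have hA : ρ.num ≠ 0 := by
      intro h
      rw [h, Int.cast_zero] at e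
      have : ρ = 0 := by
        rcases mul_eq_zero.1 e with h' | h'
        · exact h'
        · exact absurd h' (by exact_mod_cast ρ.den_nz)
      rw [this, zero_mul] at hρ2
      exact hu1 (by linarith)
    have hB : ((ρ.den : ℕ) : ℤ) ≠ 0 := by exact_mod_cast ρ.den_nz
    have hAB : (ρ.den : ℤ) - ρ.num ≠ 0 := by
      intro h
      have h5 : (ρ.num : ℚ) = (ρ.den : ℚ) := by
        have : ρ.num = (ρ.den : ℤ) := by omega
        rw [this]
        push_cast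
        rfl
      rw [h5] at e
      have h6 : (ρ.den : ℚ) ≠ 0 := by exact_mod_cast ρ.den_nz
      have h7 : ρ = 1 := mul_right_cancel₀ h6 (e.trans (one_mul _).symm)
      rw [h7, one_mul] at hρ2
      exact huv (by linarith)
    have hY1 : (1 : ℤ) ≤ (Y : ℤ) := by exact_mod_cast hY
    have hY2' : (2 : ℤ) ≤ (Y : ℤ) := by exact_mod_cast hY2
    have h15 : (((Y ^ 3 : ℕ)) : ℤ) ^ 5 = (Y : ℤ) ^ 14 * Y := by
      push_cast
      ring
    have hb1 : |ρ.num| ≤ (Y : ℤ) ^ 14 := by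
      have := hρH.1
      push_cast at this
      exact this
    have hb2 : |((ρ.den : ℕ) : ℤ)| ≤ (Y : ℤ) ^ 14 := by
      have := hρH.den_abs
      push_cast at this
      exact this
    have h14 : (0 : ℤ) ≤ (Y : ℤ) ^ 14 := by positivity
    refine ⟨div_ne_zero hw0 hx0, z / x, div_ne_zero hz0 hx0, hquo w hw x hx hx0,
      hquo z hz x hx hx0, ![(ρ.den : ℤ) - ρ.num, -(ρ.den : ℤ), ρ.num], ?_, ?_⟩
    · intro i
      rw [h15]
      fin_cases i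
      · refine ⟨hAB, ?_⟩
        show |(ρ.den : ℤ) - ρ.num| ≤ _
        have := abs_sub ((ρ.den : ℕ) : ℤ) ρ.num
        nlinarith
      · refine ⟨neg_ne_zero.2 hB, ?_⟩
        show |-(ρ.den : ℤ)| ≤ _
        rw [abs_neg]
        nlinarith
      · refine ⟨hA, ?_⟩
        show |ρ.num| ≤ _
        nlinarith
    · show (((ρ.den : ℤ) - ρ.num : ℤ) : ℚ) + ((-(ρ.den : ℤ) : ℤ) : ℚ) * (w / x) ^ d +
        ((ρ.num : ℤ) : ℚ) * (z / x) ^ d = 0
      push_cast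
      linear_combination (ρ.den : ℚ) * hρ2 + (1 - (z / x) ^ d) * e
  obtain ⟨x, hx, y, hy, z, hz, hx0, hy0, hz0, hxy, hxz, hyz⟩ := six hS1 hd0
  have hall : ∀ w ∈ S, w / x = 0 ∨ w / x = 1 ∨ w / x = -1 ∨ Prt (Y ^ 3) 5 d (w / x) := by
    intro w hw
    by_cases hw0 : w = 0
    · left
      rw [hw0, zero_div]
    · right
      by_cases h1 : x ^ d = w ^ d
      · have h4 : |w| ^ d = |x| ^ d := by rw [← abs_pow, ← abs_pow, h1]
        rcases abs_eq_abs.1 ((pow_left_inj₀ (abs_nonneg _) (abs_nonneg _) hd0).1 h4) with h5 | h5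
        · left
          rw [h5, div_self hx0]
        · right; left
          rw [h5, neg_div, div_self hx0]
      · right; right
        by_cases h2 : w ^ d = y ^ d
        · exact hprt x hx w hw z hz hx0 hw0 hz0 h1 hxz (by rw [h2]; exact hyz)
        · exact hprt x hx w hw y hy hx0 hw0 hy0 h1 hxy h2
  have hyx : (y / x) ^ d ≠ 1 := by
    rw [div_pow, Ne, div_eq_one_iff_eq (pow_ne_zero _ hx0)]
    exact fun h => hxy h.symm
  refine ⟨![y / x, (c * x ^ d + 1) / x, (c * y ^ d + 1) / x], ?_, ?_⟩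
  · show c = (((c * x ^ d + 1) / x - (c * y ^ d + 1) / x) / (1 - (y / x) ^ d)) *
      ((c * x ^ d + 1) / x - ((c * x ^ d + 1) / x - (c * y ^ d + 1) / x) /
        (1 - (y / x) ^ d)) ^ (d - 1)
    have hxd : x ^ d ≠ 0 := pow_ne_zero _ hx0
    have h1 : 1 - (y / x) ^ d ≠ 0 := sub_ne_zero.2 (Ne.symm hyx)
    have h2 : ((c * x ^ d + 1) / x - (c * y ^ d + 1) / x) / (1 - (y / x) ^ d) = c * x ^ (d - 1) := by
      rw [div_eq_iff h1, div_pow]
      have e1 : x ^ d = x ^ (d - 1) * x := by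
        rw [← pow_succ]
        congr 1
        omega
      field_simp
      rw [e1]
      ring
    rw [h2]
    have h3 : (c * x ^ d + 1) / x - c * x ^ (d - 1) = x⁻¹ := by
      have e1 : x ^ d = x ^ (d - 1) * x := by
        rw [← pow_succ]
        congr 1
        omega
      rw [e1]
      field_simp
      ring
    rw [h3, inv_pow, mul_assoc, mul_inv_cancel₀ (pow_ne_zero _ hx0), mul_one]
  · intro i
    fin_cases i
    · exact hall y hy
    · exact hall _ (hcl x hx).2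
    · exact hall _ (hcl y hy).2

end Pool.Agent.Y902.GN
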