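import Mathlib
import Pool.Agent.Y902.GN.Gq
import Pool.Agent.Y902.GN.Dy

/-!
# Values of polynomials at products of powers of few integers
-/

set_option autoImplicit false

namespace Pool.Agent.Y902.GN

theorem digits : ∀ (d : ℕ) (z : Fin d → ℤ) (x : ℤ), (∀ i, |z i| < |x|) →
    ∑ i, z i * x ^ (i : ℕ) = 0 → ∀ i, z i = 0
  | 0, _, _, _, _ => fun i => i.elim0
  | d + 1, z, x, hz, h => by
    have hx : x ≠ 0 := by
      intro hx
      have := hz 0
      rw [hx, abs_zero] at this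
      exact absurd this (not_lt.2 (abs_nonneg _))
    rw [Fin.sum_univ_succ] at h
    have e1 : ∑ i : Fin d, z i.succ * x ^ ((i.succ : Fin (d + 1)) : ℕ) =
        x * ∑ i : Fin d, z i.succ * x ^ (i : ℕ) := by
      rw [Finset.mul_sum]
      refine Finset.sum_congr rfl fun i _ => ?_
      rw [Fin.val_succ, pow_succ]
      ring
    rw [e1, Fin.val_zero, pow_zero, mul_one] at h
    have h0 : z 0 = 0 := by
      refine Int.eq_zero_of_abs_lt_dvd (m := |x|) ((abs_dvd _ _).2 ?_) (hz 0)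
      exact ⟨-(∑ i : Fin d, z i.succ * x ^ (i : ℕ)), by linear_combination h⟩
    rw [h0, zero_add] at h
    have h1 := (mul_eq_zero.1 h).resolve_left hx
    have ih := digits d (fun i => z i.succ) x (fun i => hz i.succ) h1
    intro i
    refine Fin.cases h0 (fun j => ih j) i

/-- the points: `w = ∑ c i * x ^ i`, with `x` and `w` products of powers of `N` integers -/
structure HlPt (d N E K : ℕ) (δ : ℝ) (Y : ℕ) (c : Fin (d + 1) → ℤ) (x w : ℤ) : Prop where
  c1 : ∀ i, |c i| ≤ (Y : ℤ) ^ E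
  nc : ∃ i j : Fin (d + 1), (i : ℕ) < j ∧ c i ≠ 0 ∧ c j ≠ 0
  val : w = ∑ i, c i * x ^ (i : ℕ)
  tall : (Y : ℤ) ^ K < |x|
  hx : ((|x| : ℤ) : ℝ) ≤ Real.exp ((Y : ℝ) ^ δ)
  rep : ∃ (η θ : ℤ) (b : Fin N → ℕ) (e f : Fin N → ℕ), |η| = 1 ∧ |θ| = 1 ∧
    (∀ j, 1 ≤ b j ∧ b j ≤ Y) ∧ x = η * ∏ j, (b j : ℤ) ^ e j ∧ w = θ * ∏ j, (b j : ℤ) ^ f j

/-- scaling equivalence -/
def HlEq {d : ℕ} (c : Fin (d + 1) → ℤ) (x w : ℤ) (c' : Fin (d + 1) → ℤ) (x' w' : ℤ) : Prop :=
  ∃ ρ κ : ℚ, (x : ℚ) = ρ * x' ∧ (w : ℚ) = κ * w' ∧ ∀ i, (c i : ℚ) * ρ ^ (i : ℕ) = κ * c' i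

/-- the enumeration of the support -/
noncomputable def sg1 {d : ℕ} (I : Finset (Fin (d + 1))) (j : Fin I.card) : Fin (d + 1) :=
  ((I.equivFin.symm j : {i // i ∈ I}) : Fin (d + 1))

theorem sg1_mem {d : ℕ} (I : Finset (Fin (d + 1))) (j : Fin I.card) : sg1 I j ∈ I :=
  (I.equivFin.symm j).2

theorem sg1_surj {d : ℕ} (I : Finset (Fin (d + 1))) {i : Fin (d + 1)} (hi : i ∈ I) :
    ∃ j, sg1 I j = i := by
  refine ⟨I.equivFin ⟨i, hi⟩, ?_⟩
  unfold sg1
  rw [Equiv.symm_apply_apply]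

theorem sg1_inj {d : ℕ} (I : Finset (Fin (d + 1))) : Function.Injective (sg1 I) := by
  intro j j' h
  exact I.equivFin.symm.injective (Subtype.ext h)

theorem sg1_sum {d : ℕ} (I : Finset (Fin (d + 1))) (F : Fin (d + 1) → ℤ) :
    ∑ j, F (sg1 I j) = ∑ i ∈ I, F i := by
  unfold sg1
  rw [Equiv.sum_comp I.equivFin.symm (fun i : {i // i ∈ I} => F i), Finset.sum_coe_sort I F]

/-- the terms -/
noncomputable def ta {d : ℕ} (I : Finset (Fin (d + 1))) (c : Fin (d + 1) → ℤ) (x w : ℤ) :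
    Fin (I.card + 1) → ℤ :=
  Fin.cons w (fun j => -(c (sg1 I j) * x ^ (sg1 I j : ℕ)))

theorem ta_zero {d : ℕ} (I : Finset (Fin (d + 1))) (c : Fin (d + 1) → ℤ) (x w : ℤ) :
    ta I c x w 0 = w := rfl

theorem ta_succ {d : ℕ} (I : Finset (Fin (d + 1))) (c : Fin (d + 1) → ℤ) (x w : ℤ)
    (j : Fin I.card) : ta I c x w j.succ = -(c (sg1 I j) * x ^ (sg1 I j : ℕ)) := rfl

theorem HlPt.ta_nvs {d N E K : ℕ} {δ : ℝ} {Y : ℕ} {c : Fin (d + 1) → ℤ} {x w : ℤ}
    (h : HlPt d N E K δ Y c x w) (hK : (Y : ℤ) ^ E ≤ (Y : ℤ) ^ K) {I : Finset (Fin (d + 1))}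
    (hI : ∀ i, i ∈ I ↔ c i ≠ 0) :
    ∑ k, ta I c x w k = 0 ∧ ∀ J : Finset (Fin (I.card + 1)), J.Nonempty → J ≠ Finset.univ →
      ∑ k ∈ J, ta I c x w k ≠ 0 := by
  classical
  have hsum : ∑ i ∈ I, c i * x ^ (i : ℕ) = w := by
    rw [h.val]
    refine Finset.sum_subset (Finset.subset_univ _) fun i _ hi => ?_
    have : c i = 0 := by
      by_contra h'
      exact hi ((hI i).2 h')
    rw [this, zero_mul]
  constructor
  · rw [Fin.sum_univ_succ, ta_zero]
    simp only [ta_succ]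
    rw [Finset.sum_neg_distrib, sg1_sum I (fun i => c i * x ^ (i : ℕ)), hsum]
    ring
  · intro J hJ1 hJ2 hJ3
    obtain ⟨p, hp⟩ : ∃ p : ℤ, p = if (0 : Fin (I.card + 1)) ∈ J then 1 else 0 := ⟨_, rfl⟩
    obtain ⟨q, hq⟩ : ∃ q : Fin (d + 1) → ℤ, q = fun i => if ∃ j : Fin I.card, sg1 I j = i ∧
      j.succ ∈ J then 1 else 0 := ⟨_, rfl⟩
    have hqj : ∀ j : Fin I.card, q (sg1 I j) = if j.succ ∈ J then 1 else 0 := by
      intro j
      rw [hq]
      by_cases hj : j.succ ∈ J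
      · rw [if_pos hj]
        exact if_pos ⟨j, rfl, hj⟩
      · rw [if_neg hj]
        refine if_neg ?_
        rintro ⟨j', h1, h2⟩
        exact hj (sg1_inj I h1 ▸ h2)
    have e1 : ∑ k ∈ J, ta I c x w k = p * w - ∑ i ∈ I, q i * (c i * x ^ (i : ℕ)) := by
      have e2 : ∑ k ∈ J, ta I c x w k = ∑ k, if k ∈ J then ta I c x w k else 0 := by
        rw [Finset.sum_ite_mem, Finset.univ_inter]
      rw [e2, Fin.sum_univ_succ, ta_zero, ← sg1_sum I (fun i => q i * (c i * x ^ (i : ℕ)))]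
      simp only [ta_succ]
      rw [sub_eq_add_neg, ← Finset.sum_neg_distrib]
      congr 1
      · rw [hp]
        split_ifs <;> simp
      · refine Finset.sum_congr rfl fun j _ => ?_
        rw [hqj]
        split_ifs <;> simp
    rw [e1, ← hsum, Finset.mul_sum, ← Finset.sum_sub_distrib] at hJ3
    have e3 : ∑ i, (if i ∈ I then (p - q i) * c i else 0) * x ^ (i : ℕ) = 0 := by
      refine Eq.trans ?_ hJ3
      have : ∀ i : Fin (d + 1), (if i ∈ I then (p - q i) * c i else 0) * x ^ (i : ℕ) =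
          if i ∈ I then (p * (c i * x ^ (i : ℕ)) - q i * (c i * x ^ (i : ℕ))) else 0 := by
        intro i
        split_ifs <;> ring
      rw [Finset.sum_congr rfl fun i _ => this i, Finset.sum_ite_mem, Finset.univ_inter]
    have hp1 : p = 0 ∨ p = 1 := by rw [hp]; split_ifs <;> simp
    have hq1 : ∀ i, q i = 0 ∨ q i = 1 := by
      intro i
      rw [hq]
      by_cases hi : ∃ j : Fin I.card, sg1 I j = i ∧ j.succ ∈ J
      · right
        exact if_pos hi
      · left
        exact if_neg hi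
    have e4 := digits (d + 1) _ x (fun i => by
      have h1 : |if i ∈ I then (p - q i) * c i else 0| ≤ |c i| := by
        split_ifs
        · rw [abs_mul]
          have : |p - q i| ≤ 1 := by
            rcases hp1 with h1 | h1 <;> rcases hq1 i with h2 | h2 <;> rw [h1, h2] <;> simp
          calc |p - q i| * |c i| ≤ 1 * |c i| := mul_le_mul_of_nonneg_right this (abs_nonneg _)
            _ = _ := one_mul _
        · rw [abs_zero]
          exact abs_nonneg _
      exact lt_of_le_of_lt (h1.trans ((h.c1 i).trans hK)) h.tall) e3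
    have e5 : ∀ j : Fin I.card, p = q (sg1 I j) := by
      intro j
      have h1 := e4 (sg1 I j)
      rw [if_pos (sg1_mem I j)] at h1
      rcases mul_eq_zero.1 h1 with h2 | h2
      · linarith
      · exact absurd h2 ((hI _).1 (sg1_mem I j))
    rcases hp1 with h1 | h1
    · -- nothing in `J`
      obtain ⟨k, hk⟩ := hJ1
      revert hk
      refine Fin.cases (fun hk => ?_) (fun j hk => ?_) k
      · rw [hp, if_pos hk] at h1
        exact one_ne_zero h1
      · have := e5 j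
        rw [h1, hqj, if_pos hk] at this
        exact zero_ne_one this
    · apply hJ2
      rw [Finset.eq_univ_iff_forall]
      intro k
      refine Fin.cases ?_ (fun j => ?_) k
      · by_contra hk
        rw [hp, if_neg hk] at h1
        exact zero_ne_one h1
      · by_contra hk
        have := e5 j
        rw [h1, hqj, if_neg hk] at this
        exact one_ne_zero this

end Pool.Agent.Y902.GN
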