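import Mathlib
import Pool.Agent.Y902.GN.Hl
import Pool.Agent.Y902.GN.Dy6

/-!
# Values of polynomials at products of powers of few integers: near points are equivalent
-/

set_option autoImplicit false

namespace Pool.Agent.Y902.GN

theorem HlPt.w_ne {d N E K : ℕ} {δ : ℝ} {Y : ℕ} {c : Fin (d + 1) → ℤ} {x w : ℤ}
    (h : HlPt d N E K δ Y c x w) : w ≠ 0 := by
  obtain ⟨η, θ, b, e, f, _, hθ, hb, _, hw⟩ := h.rep
  rw [hw]
  refine mul_ne_zero ?_ (Finset.prod_ne_zero_iff.2 fun j _ => pow_ne_zero _ ?_)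
  · intro h0
    rw [h0, abs_zero] at hθ
    exact zero_ne_one hθ
  · have := (hb j).1
    exact_mod_cast (by omega : b j ≠ 0)

theorem HlPt.x_ne {d N E K : ℕ} {δ : ℝ} {Y : ℕ} {c : Fin (d + 1) → ℤ} {x w : ℤ}
    (h : HlPt d N E K δ Y c x w) : x ≠ 0 := by
  intro h0
  have := h.tall
  rw [h0, abs_zero] at this
  have h1 : (0 : ℤ) ≤ (Y : ℤ) ^ K := by positivity
  omega

/-- **Near points are equivalent.** -/
theorem hl_near {d N E K C : ℕ} {δ : ℝ} {Y : ℕ} {c c' : Fin (d + 1) → ℤ} {x w x' w' : ℤ}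
    (h : HlPt d N E K δ Y c x w) (h' : HlPt d N E K δ Y c' x' w') {I : Finset (Fin (d + 1))}
    (hI : ∀ i, i ∈ I ↔ c i ≠ 0) (hI' : ∀ i, i ∈ I ↔ c' i ≠ 0)
    (hn : NearP C Y (ta I c x w) (ta I c' x' w')) (hY : 2 ≤ Y)
    (hK : 1 + E + 2 * (C + 2 * E) * (2 * d + 1) ≤ K) : HlEq c x w c' x' w' := by
  have hx0 := h.x_ne
  have hx0' := h'.x_ne
  have hw0 := h.w_ne
  have hw0' := h'.w_ne
  obtain ⟨B, hB⟩ : ∃ B : ℕ, B = (Y + 2) ^ (C + 2 * E) := ⟨_, rfl⟩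
  have hYE : ∀ z : ℤ, |z| ≤ (Y : ℤ) ^ E → |z| ≤ ((Y : ℤ) + 2) ^ E := fun z hz =>
    hz.trans (pow_le_pow_left₀ (by positivity) (by omega) _)
  have hbd : ∀ r z z' : ℤ, |r| ≤ ((Y : ℤ) + 2) ^ C → |z| ≤ (Y : ℤ) ^ E → |z'| ≤ (Y : ℤ) ^ E →
      |r * z * z'| ≤ (B : ℤ) := by
    intro r z z' hr hz hz'
    rw [hB]
    push_cast
    rw [abs_mul, abs_mul, pow_add, pow_mul', pow_two, ← mul_assoc]
    exact mul_le_mul (mul_le_mul hr (hYE z hz) (abs_nonneg _) (by positivity)) (hYE z' hz')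
      (abs_nonneg _) (by positivity)
  have hbd1 : ∀ r z : ℤ, |r| ≤ ((Y : ℤ) + 2) ^ C → |z| ≤ (Y : ℤ) ^ E → |r * z| ≤ (B : ℤ) := by
    intro r z hr hz
    have := hbd r z 1 hr hz (by
      rw [abs_one]
      exact one_le_pow₀ (by exact_mod_cast (by omega : 1 ≤ Y)))
    rwa [mul_one] at this
  obtain ⟨i0, i1, hi01, hci0, hci1⟩ := h.nc
  obtain ⟨j0, hj0⟩ := sg1_surj I ((hI i0).2 hci0)
  obtain ⟨j1, hj1⟩ := sg1_surj I ((hI i1).2 hci1)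
  have hci0' : c' i0 ≠ 0 := (hI' i0).1 ((hI i0).2 hci0)
  have hci1' : c' i1 ≠ 0 := (hI' i1).1 ((hI i1).2 hci1)
  obtain ⟨m, hm⟩ : ∃ m : ℕ, (i1 : ℕ) = i0 + m := ⟨(i1 : ℕ) - i0, by omega⟩
  -- the quotient of the `x`
  obtain ⟨r, r', r1, r2, r3, r4, r5⟩ := hn j1.succ j0.succ
  rw [ta_succ, ta_succ, ta_succ, ta_succ, hj1, hj0, hm] at r5
  obtain ⟨ρ, hρ⟩ : ∃ ρ : ℚ, ρ = (x : ℚ) / x' := ⟨_, rfl⟩
  have hx0q : (x : ℚ) ≠ 0 := by exact_mod_cast hx0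
  have hx0q' : (x' : ℚ) ≠ 0 := by exact_mod_cast hx0'
  have hρ0 : ρ ≠ 0 := by
    rw [hρ]
    exact div_ne_zero hx0q hx0q'
  have hρx : (x : ℚ) = ρ * x' := by
    rw [hρ]
    field_simp
  have hP0 : r * c' i0 * c i1 ≠ 0 := mul_ne_zero (mul_ne_zero r1 hci0') hci1
  have hρB : hh ρ ≤ B := by
    have e1 : HtLe B (ρ ^ m) := by
      refine HtLe.of_div (A := r' * c i0 * c' i1) (B := r * c' i0 * c i1) hP0 ?_
        (hbd _ _ _ r4 (h.c1 i0) (h'.c1 i1)) (hbd _ _ _ r3 (h'.c1 i0) (h.c1 i1))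
      have hP0q : ((r * c' i0 * c i1 : ℤ) : ℚ) ≠ 0 := by exact_mod_cast hP0
      rw [eq_div_iff hP0q, hρ, div_pow, div_mul_eq_mul_div, div_eq_iff (pow_ne_zero _ hx0q')]
      have r6 : ((r * (-(c i1 * x ^ ((i0 : ℕ) + m)) * -(c' i0 * x' ^ (i0 : ℕ))) : ℤ) : ℚ) =
          ((r' * (-(c' i1 * x' ^ ((i0 : ℕ) + m)) * -(c i0 * x ^ (i0 : ℕ))) : ℤ) : ℚ) := by
        exact_mod_cast r5
      have hxx : (x : ℚ) ^ (i0 : ℕ) * (x' : ℚ) ^ (i0 : ℕ) ≠ 0 :=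
        mul_ne_zero (pow_ne_zero _ hx0q) (pow_ne_zero _ hx0q')
      refine mul_left_cancel₀ hxx ?_
      push_cast at r6 ⊢
      rw [pow_add, pow_add] at r6
      linear_combination r6
    have e2 := hh_pow e1
    refine (Nat.le_self_pow ?_ _).trans e2
    omega
  -- the quotient of the `w`
  obtain ⟨t, t', t1, t2, t3, t4, t5⟩ := hn 0 j0.succ
  rw [ta_succ, ta_succ, ta_zero, ta_zero, hj0] at t5
  obtain ⟨κ, hκ⟩ : ∃ κ : ℚ, κ = (w : ℚ) / w' := ⟨_, rfl⟩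
  have hw0q : (w : ℚ) ≠ 0 := by exact_mod_cast hw0
  have hw0q' : (w' : ℚ) ≠ 0 := by exact_mod_cast hw0'
  have hκw : (w : ℚ) = κ * w' := by
    rw [hκ]
    field_simp
  have hB1' : 1 ≤ B := (htLe_iff.2 hρB).one_le
  have hκB : HtLe (B ^ (d + 1)) κ := by
    have hQ0 : t * c' i0 ≠ 0 := mul_ne_zero t1 hci0'
    have e1 : HtLe B (((t' * c i0 : ℤ) : ℚ) / ((t * c' i0 : ℤ) : ℚ)) :=
      HtLe.of_div (A := t' * c i0) (B := t * c' i0) hQ0 rfl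
        (hbd1 _ _ t4 (h.c1 i0)) (hbd1 _ _ t3 (h'.c1 i0))
    have e2 : κ = ((t' * c i0 : ℤ) : ℚ) / ((t * c' i0 : ℤ) : ℚ) * ρ ^ (i0 : ℕ) := by
      have hQ0q : ((t * c' i0 : ℤ) : ℚ) ≠ 0 := by exact_mod_cast hQ0
      rw [hκ, hρ, div_pow, div_mul_div_comm, div_eq_div_iff hw0q'
        (mul_ne_zero hQ0q (pow_ne_zero _ hx0q'))]
      have t6 : ((t * (w * -(c' i0 * x' ^ (i0 : ℕ))) : ℤ) : ℚ) =
          ((t' * (w' * -(c i0 * x ^ (i0 : ℕ))) : ℤ) : ℚ) := by exact_mod_cast t5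
      push_cast at t6 ⊢
      linear_combination -t6
    rw [e2, pow_succ']
    refine (e1.mul ((htLe_iff.2 hρB).pow (i0 : ℕ))).mono ?_
    exact Nat.mul_le_mul_left _ (Nat.pow_le_pow_right hB1' (Nat.lt_succ_iff.1 i0.2))
  refine ⟨ρ, κ, hρx, hκw, ?_⟩
  -- the identity
  have ρ1 := Rat.mul_den_eq_num ρ
  have κ1 := Rat.mul_den_eq_num κ
  have hρd : (ρ.den : ℚ) ≠ 0 := by exact_mod_cast ρ.den_nz
  have hκd : (κ.den : ℚ) ≠ 0 := by exact_mod_cast κ.den_nz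
  obtain ⟨z, hz⟩ : ∃ z : Fin (d + 1) → ℤ, z = fun i => (κ.den : ℤ) *
    (c i * (ρ.num ^ (i : ℕ) * (ρ.den : ℤ) ^ (d - (i : ℕ)))) - κ.num * (c' i * (ρ.den : ℤ) ^ d) :=
    ⟨_, rfl⟩
  have hzq : ∀ i, ((z i : ℤ) : ℚ) = (κ.den : ℚ) * (ρ.den : ℚ) ^ d *
      ((c i : ℚ) * ρ ^ (i : ℕ) - κ * c' i) := by
    intro i
    have hi : (i : ℕ) ≤ d := Nat.lt_succ_iff.1 i.2
    have e1 : (ρ.den : ℚ) ^ d = (ρ.den : ℚ) ^ (i : ℕ) * (ρ.den : ℚ) ^ (d - (i : ℕ)) := by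
      rw [← pow_add]
      congr 1
      omega
    rw [hz]
    push_cast
    rw [← ρ1, ← κ1, e1, mul_pow]
    ring
  have hzsum : ∑ i, z i * x' ^ (i : ℕ) = 0 := by
    have e1 : ((∑ i, z i * x' ^ (i : ℕ) : ℤ) : ℚ) = 0 := by
      push_cast
      have e2 : ∀ i : Fin (d + 1), ((z i : ℤ) : ℚ) * (x' : ℚ) ^ (i : ℕ) =
          (κ.den : ℚ) * (ρ.den : ℚ) ^ d *
            ((c i : ℚ) * (x : ℚ) ^ (i : ℕ) - κ * ((c' i : ℚ) * (x' : ℚ) ^ (i : ℕ))) := by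
        intro i
        rw [hzq i, hρx, mul_pow]
        ring
      rw [Finset.sum_congr rfl fun i _ => e2 i, ← Finset.mul_sum, Finset.sum_sub_distrib,
        ← Finset.mul_sum]
      have e3 : (w : ℚ) = ∑ i, (c i : ℚ) * (x : ℚ) ^ (i : ℕ) := by
        have := h.val
        exact_mod_cast this
      have e4 : (w' : ℚ) = ∑ i, (c' i : ℚ) * (x' : ℚ) ^ (i : ℕ) := by
        have := h'.val
        exact_mod_cast this
      rw [← e3, ← e4, hκw, sub_self, mul_zero]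
    exact_mod_cast e1
  have hBY : B ≤ Y ^ (2 * (C + 2 * E)) := by
    rw [hB, pow_mul]
    refine Nat.pow_le_pow_left ?_ _
    nlinarith
  have hzb : ∀ i, |z i| < |x'| := by
    intro i
    refine lt_of_le_of_lt ?_ h'.tall
    have hρn : |ρ.num| ≤ (B : ℤ) := (htLe_iff.2 hρB).1
    have hρd' : |((ρ.den : ℕ) : ℤ)| ≤ (B : ℤ) := (htLe_iff.2 hρB).den_abs
    have hκn : |κ.num| ≤ (B : ℤ) ^ (d + 1) := by
      have := hκB.1
      exact_mod_cast this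
    have hκd' : |((κ.den : ℕ) : ℤ)| ≤ (B : ℤ) ^ (d + 1) := by
      have := hκB.den_abs
      exact_mod_cast this
    have hB1 : (1 : ℤ) ≤ (B : ℤ) := by
      exact_mod_cast (htLe_iff.2 hρB).one_le
    have hi : (i : ℕ) ≤ d := Nat.lt_succ_iff.1 i.2
    have m1 : |(κ.den : ℤ) * (c i * (ρ.num ^ (i : ℕ) * (ρ.den : ℤ) ^ (d - (i : ℕ))))| ≤
        (B : ℤ) ^ (d + 1) * ((Y : ℤ) ^ E * (B : ℤ) ^ d) := by
      rw [abs_mul, abs_mul, abs_mul, abs_pow, abs_pow]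
      refine mul_le_mul hκd' (mul_le_mul (h.c1 i) ?_ (by positivity) (by positivity))
        (by positivity) (by positivity)
      calc |ρ.num| ^ (i : ℕ) * |((ρ.den : ℕ) : ℤ)| ^ (d - (i : ℕ)) ≤
            (B : ℤ) ^ (i : ℕ) * (B : ℤ) ^ (d - (i : ℕ)) :=
            mul_le_mul (pow_le_pow_left₀ (abs_nonneg _) hρn _)
              (pow_le_pow_left₀ (abs_nonneg _) hρd' _) (by positivity) (by positivity)
        _ = (B : ℤ) ^ d := by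
            rw [← pow_add]
            congr 1
            omega
    have m2 : |κ.num * (c' i * (ρ.den : ℤ) ^ d)| ≤
        (B : ℤ) ^ (d + 1) * ((Y : ℤ) ^ E * (B : ℤ) ^ d) := by
      rw [abs_mul, abs_mul, abs_pow]
      exact mul_le_mul hκn (mul_le_mul (h'.c1 i) (pow_le_pow_left₀ (abs_nonneg _) hρd' _)
        (by positivity) (by positivity)) (by positivity) (by positivity)
    calc |z i| ≤ (B : ℤ) ^ (d + 1) * ((Y : ℤ) ^ E * (B : ℤ) ^ d) +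
          (B : ℤ) ^ (d + 1) * ((Y : ℤ) ^ E * (B : ℤ) ^ d) := by
          rw [hz]
          exact (abs_sub _ _).trans (add_le_add m1 m2)
      _ = 2 * (Y : ℤ) ^ E * (B : ℤ) ^ (2 * d + 1) := by ring
      _ ≤ (Y : ℤ) * (Y : ℤ) ^ E * ((Y : ℤ) ^ (2 * (C + 2 * E))) ^ (2 * d + 1) := by
          refine mul_le_mul (mul_le_mul_of_nonneg_right (by exact_mod_cast hY) (by positivity))
            (pow_le_pow_left₀ (by positivity) ?_ _) (by positivity) (by positivity)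
          exact_mod_cast hBY
      _ = (Y : ℤ) ^ (1 + E + 2 * (C + 2 * E) * (2 * d + 1)) := by
          rw [← pow_mul, pow_add, pow_add, pow_one]
      _ ≤ (Y : ℤ) ^ K := pow_le_pow_right₀ (by exact_mod_cast (by omega : 1 ≤ Y)) hK
  have hz0 := digits (d + 1) z x' hzb hzsum
  intro i
  have e1 := hzq i
  rw [hz0 i, Int.cast_zero] at e1
  rcases mul_eq_zero.1 e1.symm with e2 | e2
  · exact absurd e2 (mul_ne_zero hκd (pow_ne_zero _ hρd))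
  · linarith

end Pool.Agent.Y902.GN
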