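import Mathlib
import Pool.Agent.Y902.GN.Hl2

/-!
# Values of polynomials at products of powers of few integers: the count
-/

set_option autoImplicit false

namespace Pool.Agent.Y902.GN

theorem NearP.refl {n : ℕ} (C Y : ℕ) (a : Fin n → ℤ) : NearP C Y a a := fun i i0 =>
  ⟨1, 1, one_ne_zero, one_ne_zero, by rw [abs_one]; exact one_le_pow₀ (by omega),
    by rw [abs_one]; exact one_le_pow₀ (by omega), rfl⟩

theorem hl_exp {d E Y : ℕ} {δ : ℝ} (hδ : 0 < δ) (hY : 1 ≤ Y)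
    (hYl : 2 * (d : ℝ) + E / δ ≤ (Y : ℝ) ^ δ) :
    ((d : ℝ) + 1) * (Y : ℝ) ^ E * Real.exp (d * (Y : ℝ) ^ δ) ≤ Real.exp ((Y : ℝ) ^ (2 * δ)) := by
  have hY0 : (0 : ℝ) < (Y : ℝ) := by exact_mod_cast hY
  have h1 : ((d : ℝ) + 1) ≤ Real.exp d := Real.add_one_le_exp _
  have h2 : (Y : ℝ) ^ E = Real.exp (E * Real.log Y) := by
    rw [mul_comm, Real.exp_mul, Real.exp_log hY0, Real.rpow_natCast]
  have h3 : Real.log Y ≤ (Y : ℝ) ^ δ / δ := Real.log_le_rpow_div hY0.le hδ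
  have h4 : (1 : ℝ) ≤ (Y : ℝ) ^ δ := Real.one_le_rpow (by exact_mod_cast hY) hδ.le
  calc ((d : ℝ) + 1) * (Y : ℝ) ^ E * Real.exp (d * (Y : ℝ) ^ δ) ≤
        Real.exp d * Real.exp (E * Real.log Y) * Real.exp (d * (Y : ℝ) ^ δ) := by
        rw [h2]
        refine mul_le_mul_of_nonneg_right (mul_le_mul_of_nonneg_right h1 (by positivity))
          (by positivity)
    _ = Real.exp (d + E * Real.log Y + d * (Y : ℝ) ^ δ) := by
        rw [← Real.exp_add, ← Real.exp_add]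
    _ ≤ Real.exp ((Y : ℝ) ^ (2 * δ)) := by
        apply Real.exp_le_exp.2
        have h5 : (E : ℝ) * Real.log Y ≤ E * ((Y : ℝ) ^ δ / δ) :=
          mul_le_mul_of_nonneg_left h3 (Nat.cast_nonneg _)
        have h6 : (d : ℝ) ≤ d * (Y : ℝ) ^ δ := le_mul_of_one_le_right (Nat.cast_nonneg _) h4
        have h7 : (Y : ℝ) ^ (2 * δ) = (Y : ℝ) ^ δ * (Y : ℝ) ^ δ := by
          rw [two_mul, Real.rpow_add hY0]
        rw [h7]
        calc (d : ℝ) + E * Real.log Y + d * (Y : ℝ) ^ δ ≤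
              d * (Y : ℝ) ^ δ + E * ((Y : ℝ) ^ δ / δ) + d * (Y : ℝ) ^ δ := by linarith
          _ = (2 * (d : ℝ) + E / δ) * (Y : ℝ) ^ δ := by ring
          _ ≤ _ := mul_le_mul_of_nonneg_right hYl (by positivity)

theorem HlPt.gq {d N E K : ℕ} {δ δ1 : ℝ} {Y : ℕ} {c : Fin (d + 1) → ℤ} {x w : ℤ}
    (h : HlPt d N E K δ Y c x w) (hK : E ≤ K) (hδ : 0 < δ) (hδ1 : 2 * δ ≤ δ1) (hY : 1 ≤ Y)
    (hYl : 2 * (d : ℝ) + E / δ ≤ (Y : ℝ) ^ δ) {I : Finset (Fin (d + 1))}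
    (hI : ∀ i, i ∈ I ↔ c i ≠ 0) : GqPt (I.card + 1) N E δ1 Y (fun _ => 1) (ta I c x w) := by
  have hY1 : (1 : ℤ) ≤ (Y : ℤ) := by exact_mod_cast hY
  obtain ⟨hs, hv⟩ := h.ta_nvs (pow_le_pow_right₀ hY1 hK) hI
  have hx0 := h.x_ne
  have hw0 := h.w_ne
  have hY0 : (0 : ℝ) < (Y : ℝ) := by exact_mod_cast hY
  have hbig : Real.exp ((Y : ℝ) ^ (2 * δ)) ≤ Real.exp ((Y : ℝ) ^ δ1) :=
    Real.exp_le_exp.2 (Real.rpow_le_rpow_of_exponent_le (by exact_mod_cast hY) hδ1)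
  have hterm : ∀ i : Fin (d + 1), ((|c i * x ^ (i : ℕ)| : ℤ) : ℝ) ≤
      (Y : ℝ) ^ E * Real.exp (d * (Y : ℝ) ^ δ) := by
    intro i
    rw [abs_mul, Int.cast_mul, abs_pow]
    have e1 : ((|c i| : ℤ) : ℝ) ≤ (Y : ℝ) ^ E := by exact_mod_cast h.c1 i
    refine mul_le_mul e1 ?_ (by positivity) (by positivity)
    have e2 : |x| ^ (i : ℕ) ≤ |x| ^ d :=
      pow_le_pow_right₀ (Int.one_le_abs hx0) (Nat.lt_succ_iff.1 i.2)
    calc (((|x| ^ (i : ℕ) : ℤ)) : ℝ) ≤ (((|x| ^ d : ℤ)) : ℝ) := by exact_mod_cast e2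
      _ = ((|x| : ℤ) : ℝ) ^ d := by push_cast; rfl
      _ ≤ Real.exp ((Y : ℝ) ^ δ) ^ d := pow_le_pow_left₀ (by positivity) h.hx _
      _ = Real.exp (d * (Y : ℝ) ^ δ) := by rw [← Real.exp_nat_mul]
  have hle : ∀ v : ℝ, v ≤ ((d : ℝ) + 1) * ((Y : ℝ) ^ E * Real.exp (d * (Y : ℝ) ^ δ)) →
      v ≤ Real.exp ((Y : ℝ) ^ δ1) := by
    intro v hv
    refine hv.trans (le_trans ?_ ((hl_exp hδ hY hYl).trans hbig))
    rw [mul_assoc]
  refine ⟨fun k => ?_, ?_, fun J h1 h2 => ?_, fun k => ?_, ?_⟩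
  · refine Fin.cases hw0 (fun j => ?_) k
    rw [ta_succ]
    exact neg_ne_zero.2 (mul_ne_zero ((hI _).1 (sg1_mem I j)) (pow_ne_zero _ hx0))
  · simp only [one_mul]
    exact hs
  · simp only [one_mul]
    exact hv J h1 h2
  · refine Fin.cases ?_ (fun j => ?_) k
    · rw [ta_zero]
      apply hle
      rw [h.val]
      calc ((|∑ i, c i * x ^ (i : ℕ)| : ℤ) : ℝ) ≤ ((∑ i : Fin (d + 1), |c i * x ^ (i : ℕ)| : ℤ) : ℝ) := by
            exact_mod_cast Finset.abs_sum_le_sum_abs _ _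
        _ = ∑ i : Fin (d + 1), ((|c i * x ^ (i : ℕ)| : ℤ) : ℝ) := by push_cast; rfl
        _ ≤ ∑ _i : Fin (d + 1), (Y : ℝ) ^ E * Real.exp (d * (Y : ℝ) ^ δ) :=
            Finset.sum_le_sum fun i _ => hterm i
        _ = _ := by
            rw [Finset.sum_const, Finset.card_univ, Fintype.card_fin, nsmul_eq_mul]
            push_cast
            ring
    · rw [ta_succ, abs_neg]
      apply hle
      refine (hterm _).trans (le_mul_of_one_le_left (by positivity) ?_)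
      have : (0 : ℝ) ≤ (d : ℝ) := Nat.cast_nonneg _
      linarith
  · obtain ⟨η, θ, b, e, f, hη, hθ, hb, hx, hw⟩ := h.rep
    refine ⟨Fin.cons θ (fun j => -(c (sg1 I j) * η ^ (sg1 I j : ℕ))), b,
      Fin.cons f (fun j q => e q * (sg1 I j : ℕ)), hb, fun k => ?_, fun k => ?_⟩
    · refine Fin.cases ?_ (fun j => ?_) k
      · rw [Fin.cons_zero, hθ]
        exact one_le_pow₀ hY1
      · rw [Fin.cons_succ, abs_neg, abs_mul, abs_pow, hη, one_pow, mul_one]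
        exact h.c1 _
    · refine Fin.cases ?_ (fun j => ?_) k
      · rw [Fin.cons_zero, Fin.cons_zero, ta_zero]
        exact hw
      · rw [Fin.cons_succ, Fin.cons_succ, ta_succ]
        have e1 : x ^ (sg1 I j : ℕ) = η ^ (sg1 I j : ℕ) * ∏ q, (b q : ℤ) ^ (e q * (sg1 I j : ℕ)) := by
          rw [hx, mul_pow, ← Finset.prod_pow]
          congr 1
          refine Finset.prod_congr rfl fun q _ => ?_
          rw [pow_mul]
        rw [e1]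
        ring

/-- **Few classes.** -/
theorem hl (d N E : ℕ) (ε : ℝ) (hε : 0 < ε) : ∃ (K : ℕ) (δ : ℝ), 0 < δ ∧
    ∀ (Y : ℕ), 2 ≤ Y → ∀ (T : Finset ((Fin (d + 1) → ℤ) × ℤ × ℤ)),
      (∀ t ∈ T, HlPt d N E K δ Y t.1 t.2.1 t.2.2) →
      (∀ t ∈ T, ∀ t' ∈ T, t ≠ t' → ¬ HlEq t.1 t.2.1 t.2.2 t'.1 t'.2.1 t'.2.2) →
      (T.card : ℝ) ≤ (Y : ℝ) ^ ε := by
  classical
  have hgq := fun n : ℕ => gq n N E (ε / 2) (by positivity)
  choose C δ' hδ' H using hgq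
  have hne : (Finset.range (d + 3)).Nonempty := ⟨0, Finset.mem_range.2 (by omega)⟩
  obtain ⟨δ1, hδ1, hδ1'⟩ : ∃ δ1 : ℝ, 0 < δ1 ∧ ∀ n ∈ Finset.range (d + 3), δ1 ≤ δ' n :=
    ⟨(Finset.range (d + 3)).inf' hne δ', (Finset.lt_inf'_iff hne).2 fun n _ => hδ' n,
      fun n hn => Finset.inf'_le _ hn⟩
  obtain ⟨C1, hC1⟩ : ∃ C1 : ℕ, ∀ n ∈ Finset.range (d + 3), C n ≤ C1 :=
    ⟨∑ n ∈ Finset.range (d + 3), C n, fun n hn =>
      Finset.single_le_sum (f := C) (fun _ _ => Nat.zero_le _) hn⟩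
  obtain ⟨δ, hδ, hδa, hδb⟩ : ∃ δ : ℝ, 0 < δ ∧ 2 * δ ≤ δ1 ∧ δ ≤ 1 :=
    ⟨min (δ1 / 2) 1, by positivity, by
      have := min_le_left (δ1 / 2) 1
      linarith, min_le_right _ _⟩
  obtain ⟨Y1, hY1⟩ : ∃ Y1 : ℕ, Y1 = ⌈(2 * (d : ℝ) + E / δ) ^ (1 / δ)⌉₊ +
      ⌈((2 : ℝ) ^ (d + 1)) ^ (2 / ε)⌉₊ := ⟨_, rfl⟩
  obtain ⟨K, hKd⟩ : ∃ K : ℕ, K = 1 + E + 2 * (C1 + 2 * E) * (2 * d + 1) + 2 * Y1 := ⟨_, rfl⟩
  refine ⟨K, δ, hδ, fun Y hY T hT hne' => ?_⟩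
  have hYr : (1 : ℝ) ≤ (Y : ℝ) := by exact_mod_cast (by omega : 1 ≤ Y)
  have hY0 : (0 : ℝ) < (Y : ℝ) := by linarith
  rcases T.eq_empty_or_nonempty with rfl | ⟨t0, ht0⟩
  · rw [Finset.card_empty, Nat.cast_zero]
    positivity
  have hYY1 : Y1 ≤ Y := by
    by_contra hcon
    push Not at hcon
    have h1 := hT t0 ht0
    have h2 : ((Y : ℝ)) ^ K < Real.exp Y := by
      have e1 : ((Y : ℝ)) ^ K < ((|t0.2.1| : ℤ) : ℝ) := by exact_mod_cast h1.tall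
      refine e1.trans_le (h1.hx.trans (Real.exp_le_exp.2 ?_))
      calc (Y : ℝ) ^ δ ≤ (Y : ℝ) ^ (1 : ℝ) := Real.rpow_le_rpow_of_exponent_le hYr hδb
        _ = _ := Real.rpow_one _
    have h3 : Real.exp (Y : ℝ) ≤ (2 : ℝ) ^ (2 * Y) := by
      rw [← Real.exp_log (show (0 : ℝ) < 2 ^ (2 * Y) by positivity), Real.log_pow]
      apply Real.exp_le_exp.2
      have h5 : (1 : ℝ) / 2 < Real.log 2 := by
        have := Real.log_two_gt_d9
        linarith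
      push_cast
      nlinarith
    have h4 : (2 : ℝ) ^ (2 * Y) ≤ (Y : ℝ) ^ K := by
      calc (2 : ℝ) ^ (2 * Y) ≤ (2 : ℝ) ^ K := pow_le_pow_right₀ (by norm_num) (by omega)
        _ ≤ (Y : ℝ) ^ K := pow_le_pow_left₀ (by norm_num) (by exact_mod_cast hY) _
    linarith
  have hYl : 2 * (d : ℝ) + E / δ ≤ (Y : ℝ) ^ δ := by
    have h1 : (2 * (d : ℝ) + E / δ) ^ (1 / δ) ≤ (Y : ℝ) := by
      refine (Nat.le_ceil _).trans ?_
      exact_mod_cast (by omega : ⌈(2 * (d : ℝ) + E / δ) ^ (1 / δ)⌉₊ ≤ Y)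
    have h2 := Real.rpow_le_rpow (by positivity) h1 hδ.le
    rwa [← Real.rpow_mul (by positivity), one_div_mul_cancel hδ.ne', Real.rpow_one] at h2
  have h2d : (2 : ℝ) ^ (d + 1) ≤ (Y : ℝ) ^ (ε / 2) := by
    have h1 : ((2 : ℝ) ^ (d + 1)) ^ (2 / ε) ≤ (Y : ℝ) := by
      refine (Nat.le_ceil _).trans ?_
      exact_mod_cast (by omega : ⌈((2 : ℝ) ^ (d + 1)) ^ (2 / ε)⌉₊ ≤ Y)
    have h2 := Real.rpow_le_rpow (by positivity) h1 (show (0 : ℝ) ≤ ε / 2 by positivity)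
    rwa [← Real.rpow_mul (by positivity), show 2 / ε * (ε / 2) = 1 by field_simp,
      Real.rpow_one] at h2
  obtain ⟨su, hsu⟩ : ∃ su : (Fin (d + 1) → ℤ) × ℤ × ℤ → Finset (Fin (d + 1)), su = fun t =>
      Finset.univ.filter fun i => t.1 i ≠ 0 := ⟨_, rfl⟩
  have hsu' : ∀ t i, i ∈ su t ↔ t.1 i ≠ 0 := by
    intro t i
    rw [hsu]
    simp
  have hfib : ∀ I ∈ T.image su, (T.filter fun t => su t = I).card ≤ ⌊(Y : ℝ) ^ (ε / 2)⌋₊ := by
    intro I _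
    apply Nat.le_floor
    have hIr : I.card + 1 ∈ Finset.range (d + 3) := by
      have h1 : I.card ≤ d + 1 := (Finset.card_le_univ I).trans (by simp)
      exact Finset.mem_range.2 (by omega)
    have hnear : ∀ t ∈ T.filter (fun t => su t = I), ∀ t' ∈ T.filter (fun t => su t = I),
        NearP (C (I.card + 1)) Y (ta I t.1 t.2.1 t.2.2) (ta I t'.1 t'.2.1 t'.2.2) → t = t' := by
      intro t ht t' ht' hn
      obtain ⟨h1, h2⟩ := Finset.mem_filter.1 ht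
      obtain ⟨h3, h4⟩ := Finset.mem_filter.1 ht'
      by_contra hcon
      refine hne' t h1 t' h3 hcon (hl_near (hT t h1) (hT t' h3) (fun i => by rw [← h2, hsu'])
        (fun i => by rw [← h4, hsu']) hn hY ?_)
      have h5 := hC1 _ hIr
      rw [hKd]
      have h6 : 2 * (C (I.card + 1) + 2 * E) * (2 * d + 1) ≤ 2 * (C1 + 2 * E) * (2 * d + 1) := by
        gcongr
      omega
    have hinj : Set.InjOn (fun t : (Fin (d + 1) → ℤ) × ℤ × ℤ => ta I t.1 t.2.1 t.2.2)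
        (T.filter fun t => su t = I : Finset ((Fin (d + 1) → ℤ) × ℤ × ℤ)) := by
      intro t ht t' ht' htt
      refine hnear t (Finset.mem_coe.1 ht) t' (Finset.mem_coe.1 ht') ?_
      have htt' : ta I t.1 t.2.1 t.2.2 = ta I t'.1 t'.2.1 t'.2.2 := htt
      rw [htt']
      exact NearP.refl _ _ _
    rw [← Finset.card_image_of_injOn hinj]
    refine H (I.card + 1) Y (by omega) (fun _ => 1) (fun _ => ⟨one_ne_zero, by
      simp only [abs_one, Int.cast_one]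
      exact Real.one_le_exp (by positivity)⟩) _ ?_ ?_
    · intro a ha
      obtain ⟨t, ht, rfl⟩ := Finset.mem_image.1 ha
      obtain ⟨h1, h2⟩ := Finset.mem_filter.1 ht
      exact (hT t h1).gq (by omega) hδ (hδa.trans (hδ1' _ hIr)) (by omega) hYl
        (fun i => by rw [← h2, hsu'])
    · intro a ha a' ha' haa hn
      obtain ⟨t, ht, rfl⟩ := Finset.mem_image.1 ha
      obtain ⟨t', ht', rfl⟩ := Finset.mem_image.1 ha'
      exact haa (by rw [hnear t ht t' ht' hn])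
  have hfin := Finset.card_le_mul_card_image (f := su) T ⌊(Y : ℝ) ^ (ε / 2)⌋₊ hfib
  have himg : ((T.image su).card : ℝ) ≤ (2 : ℝ) ^ (d + 1) := by
    have h1 : (T.image su).card ≤ 2 ^ (d + 1) := by
      refine (Finset.card_le_univ _).trans ?_
      simp
    exact_mod_cast h1
  calc (T.card : ℝ) ≤ ((⌊(Y : ℝ) ^ (ε / 2)⌋₊ * (T.image su).card : ℕ) : ℝ) := by
        exact_mod_cast hfin
    _ = (⌊(Y : ℝ) ^ (ε / 2)⌋₊ : ℝ) * ((T.image su).card : ℝ) := by push_cast; rfl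
    _ ≤ (Y : ℝ) ^ (ε / 2) * (Y : ℝ) ^ (ε / 2) :=
        mul_le_mul (Nat.floor_le (by positivity)) (himg.trans h2d) (by positivity) (by positivity)
    _ = (Y : ℝ) ^ ε := by
        rw [← Real.rpow_add hY0]
        congr 1
        ring

end Pool.Agent.Y902.GN
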