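import Mathlib
import Pool.Agent.Y902.GN.Hl3

/-!
# Points outside torus translates: algebra
-/

set_option autoImplicit false

namespace Pool.Agent.Y902.GN

/-- minimal vanishing subsums with at least two terms -/
def MinV {κ : Type*} (a : κ → ℤ) (J : Finset κ) : Prop :=
  J.Nontrivial ∧ ∑ k ∈ J, a k = 0 ∧ ∀ K ⊆ J, K.Nonempty → K ≠ J → ∑ k ∈ K, a k ≠ 0

theorem MinV.nz {κ : Type*} {a : κ → ℤ} {J : Finset κ} (h : MinV a J) {k : κ} (hk : k ∈ J) :
    a k ≠ 0 := by
  intro h0
  refine h.2.2 {k} (Finset.singleton_subset_iff.2 hk) (Finset.singleton_nonempty k) ?_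
    (by simpa using h0)
  intro hJ
  have := h.1
  rw [← hJ] at this
  exact Finset.not_nontrivial_singleton this

theorem minv_const {κ : Type*} [DecidableEq κ] (a w : κ → ℤ)
    (h : ∀ J, MinV a J → ∀ k ∈ J, ∀ l ∈ J, w k = w l) (φ : ℤ → ℚ) :
    ∀ (n : ℕ) (W : Finset κ), W.card = n → ∑ k ∈ W, a k = 0 →
      ∑ k ∈ W, (a k : ℚ) * φ (w k) = 0 := by
  intro n
  induction n using Nat.strong_induction_on with
  | _ n ih =>
    intro W hW h0
    rcases W.eq_empty_or_nonempty with rfl | hne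
    · simp
    obtain ⟨J, hJ, hmin⟩ := Finset.exists_min_image
      (W.powerset.filter fun J => J.Nonempty ∧ ∑ k ∈ J, a k = 0) Finset.card
      ⟨W, by simp [hne, h0]⟩
    rw [Finset.mem_filter, Finset.mem_powerset] at hJ
    obtain ⟨hJW, hJne, hJ0⟩ := hJ
    have hJφ : ∑ k ∈ J, (a k : ℚ) * φ (w k) = 0 := by
      rcases hJne.exists_eq_singleton_or_nontrivial with ⟨k, rfl⟩ | hJn
      · rw [Finset.sum_singleton] at hJ0
        rw [Finset.sum_singleton, hJ0]
        simp
      · have hm : MinV a J := ⟨hJn, hJ0, fun K hK hKne hKJ hK0 => by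
          have := hmin K (by
            rw [Finset.mem_filter, Finset.mem_powerset]
            exact ⟨hK.trans hJW, hKne, hK0⟩)
          exact hKJ (Finset.eq_of_subset_of_card_le hK this)⟩
        obtain ⟨k0, hk0⟩ := hJne
        have e1 : ∀ k ∈ J, (a k : ℚ) * φ (w k) = (a k : ℚ) * φ (w k0) := fun k hk => by
          rw [h J hm k hk k0 hk0]
        rw [Finset.sum_congr rfl e1, ← Finset.sum_mul]
        have e2 : (∑ k ∈ J, (a k : ℚ)) = 0 := by exact_mod_cast hJ0
        rw [e2, zero_mul]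
    have hd0 : ∑ k ∈ W \ J, a k = 0 := by
      have := Finset.sum_sdiff (f := a) hJW
      rw [hJ0, h0, add_zero] at this
      exact this
    have hlt : (W \ J).card < n := by
      rw [← hW]
      refine Finset.card_lt_card ?_
      refine Finset.sdiff_ssubset hJW hJne
    have h2 := ih _ hlt (W \ J) rfl hd0
    have h3 := Finset.sum_sdiff (f := fun k => (a k : ℚ) * φ (w k)) hJW
    rw [← h3, h2, hJφ, add_zero]

theorem clear_den {ι : Type*} (s : Finset ι) (q : ι → ℚ) :
    ∃ D : ℕ, 0 < D ∧ ∀ i ∈ s, ∃ z : ℤ, (z : ℚ) = D * q i := by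
  refine ⟨∏ i ∈ s, (q i).den, Finset.prod_pos fun i _ => (q i).pos, fun i hi => ?_⟩
  obtain ⟨c, hc⟩ := Finset.dvd_prod_of_mem (fun i => (q i).den) hi
  refine ⟨c * (q i).num, ?_⟩
  have hc' : ((∏ i ∈ s, (q i).den : ℕ) : ℚ) = ((q i).den : ℚ) * c := by exact_mod_cast hc
  rw [hc']
  have := Rat.mul_den_eq_num (q i)
  push_cast
  rw [← this]
  ring

/-- vectors not orthogonal to a common vector span everything -/
theorem span_comb {n : ℕ} (V : Finset (Fin n → ℤ))
    (h : ∀ a : Fin n → ℤ, a ≠ 0 → ∃ v ∈ V, ∑ i, a i * v i ≠ 0) :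
    ∃ (D : ℕ) (W : Fin n → (Fin n → ℤ) → ℤ), 0 < D ∧
      ∀ i j, ∑ v ∈ V, W i v * v j = if i = j then (D : ℤ) else 0 := by
  classical
  obtain ⟨g, hg⟩ : ∃ g : {v // v ∈ V} → (Fin n → ℚ), g = fun (v : {v // v ∈ V}) j =>
      ((v.1 j : ℤ) : ℚ) := ⟨_, rfl⟩
  have htop : Submodule.span ℚ (Set.range g) = ⊤ := by
    by_contra hne
    obtain ⟨f, hf0, hf⟩ := Submodule.exists_le_ker_of_lt_top _ (lt_top_iff_ne_top.2 hne)
    obtain ⟨q, hq⟩ : ∃ q : Fin n → ℚ, q = fun i => f (fun j => if i = j then 1 else 0) := ⟨_, rfl⟩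
    have hfx : ∀ x : Fin n → ℚ, f x = ∑ i, x i * q i := by
      intro x
      rw [LinearMap.pi_apply_eq_sum_univ f x, hq]
      rfl
    obtain ⟨D, hD, hz⟩ := clear_den Finset.univ q
    choose z hz using fun i => hz i (Finset.mem_univ i)
    have hz0 : z ≠ 0 := by
      intro hz0
      apply hf0
      refine LinearMap.ext fun x => ?_
      rw [hfx, LinearMap.zero_apply]
      refine Finset.sum_eq_zero fun i _ => ?_
      have h1 := hz i
      rw [hz0, Pi.zero_apply, Int.cast_zero] at h1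
      have hDq : (D : ℚ) ≠ 0 := by exact_mod_cast hD.ne'
      have h2 : q i = 0 := (mul_eq_zero.1 h1.symm).resolve_left hDq
      rw [h2, mul_zero]
    obtain ⟨v, hv, hvne⟩ := h z hz0
    apply hvne
    have h1 : f (g ⟨v, hv⟩) = 0 := hf (Submodule.subset_span ⟨⟨v, hv⟩, rfl⟩)
    rw [hfx, hg] at h1
    have h2 : ((∑ i, z i * v i : ℤ) : ℚ) = 0 := by
      push_cast
      calc ∑ i, (z i : ℚ) * (v i : ℚ) = D * ∑ i, (v i : ℚ) * q i := by
            rw [Finset.mul_sum]
            refine Finset.sum_congr rfl fun i _ => ?_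
            rw [hz i]
            ring
        _ = 0 := by rw [h1, mul_zero]
    exact_mod_cast h2
  have hmem : ∀ i : Fin n, (fun j => if i = j then (1 : ℚ) else 0) ∈
      Submodule.span ℚ (Set.range g) := fun i => by
    rw [htop]
    exact Submodule.mem_top
  have hc := fun i => (Submodule.mem_span_range_iff_exists_fun ℚ).1 (hmem i)
  choose c hc using hc
  obtain ⟨D, hD, hz⟩ := clear_den (Finset.univ : Finset (Fin n × {v // v ∈ V}))
    (fun p => c p.1 p.2)
  choose z hz using fun p => hz p (Finset.mem_univ p)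
  refine ⟨D, fun i v => if hv : v ∈ V then z (i, ⟨v, hv⟩) else 0, hD, fun i j => ?_⟩
  have e1 : ∑ v ∈ V, (if hv : v ∈ V then z (i, ⟨v, hv⟩) else 0) * v j =
      ∑ v : {v // v ∈ V}, z (i, v) * (v : Fin n → ℤ) j := by
    rw [← Finset.sum_coe_sort V]
    refine Finset.sum_congr rfl fun v _ => ?_
    rw [dif_pos v.2]
  rw [e1]
  have e2 : ((∑ v : {v // v ∈ V}, z (i, v) * (v : Fin n → ℤ) j : ℤ) : ℚ) =
      ((if i = j then (D : ℤ) else 0 : ℤ) : ℚ) := by
    push_cast
    have e3 := congrFun (hc i) j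
    rw [Finset.sum_apply] at e3
    calc ∑ v : {v // v ∈ V}, (z (i, v) : ℚ) * ((v : Fin n → ℤ) j : ℚ) =
          D * ∑ v : {v // v ∈ V}, (c i v • g v) j := by
          rw [Finset.mul_sum]
          refine Finset.sum_congr rfl fun v _ => ?_
          rw [hz (i, v), Pi.smul_apply, smul_eq_mul, hg]
          ring
      _ = D * (if i = j then (1 : ℚ) else 0) := by rw [e3]
      _ = _ := by split_ifs <;> simp
  exact_mod_cast e2

theorem HtLe.zpow {B : ℕ} {q : ℚ} (h : HtLe B q) (hq : q ≠ 0) (w : ℤ) :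
    HtLe (B ^ w.natAbs) (q ^ w) := by
  rcases Int.natAbs_eq w with hw | hw
  · rw [hw, zpow_natCast, Int.natAbs_natCast]
    exact h.pow _
  · rw [hw, zpow_neg, zpow_natCast, Int.natAbs_neg, Int.natAbs_natCast]
    exact (h.pow _).inv (pow_ne_zero _ hq)

theorem HtLe.prod {ι : Type*} (s : Finset ι) (q : ι → ℚ) (B : ι → ℕ)
    (h : ∀ i ∈ s, HtLe (B i) (q i)) : HtLe (∏ i ∈ s, B i) (∏ i ∈ s, q i) := by
  classical
  induction s using Finset.induction_on with
  | empty => simpa using HtLe.one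
  | insert i s hi ih =>
    rw [Finset.prod_insert hi, Finset.prod_insert hi]
    exact (h i (Finset.mem_insert_self _ _)).mul
      (ih fun j hj => h j (Finset.mem_insert_of_mem hj))

theorem prod_zpow_sum {ι : Type*} {z : ℚ} (hz : z ≠ 0) (s : Finset ι) (w : ι → ℤ) :
    ∏ i ∈ s, z ^ w i = z ^ ∑ i ∈ s, w i := by
  classical
  induction s using Finset.induction_on with
  | empty => simp
  | insert i s hi ih => rw [Finset.prod_insert hi, Finset.sum_insert hi, zpow_add₀ hz, ih]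

/-- small monomials imply small coordinates -/
theorem coords_small {n : ℕ} {V : Finset (Fin n → ℤ)} {D : ℕ} {W : Fin n → (Fin n → ℤ) → ℤ}
    (hD : 0 < D) (hW : ∀ i j, ∑ v ∈ V, W i v * v j = if i = j then (D : ℤ) else 0)
    {B : ℕ} {z : Fin n → ℚ} (hz : ∀ i, z i ≠ 0)
    (h : ∀ v ∈ V, HtLe B (∏ i, z i ^ v i)) (i : Fin n) :
    HtLe (B ^ ∑ v ∈ V, (W i v).natAbs) (z i) := by
  have e1 : z i ^ D = ∏ v ∈ V, (∏ j, z j ^ v j) ^ W i v := by
    have e2 : ∀ v ∈ V, (∏ j, z j ^ v j) ^ W i v = ∏ j, z j ^ (W i v * v j) := by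
      intro v _
      rw [← Finset.prod_zpow]
      refine Finset.prod_congr rfl fun j _ => ?_
      rw [← zpow_mul, mul_comm]
    rw [Finset.prod_congr rfl e2, Finset.prod_comm]
    have e3 : ∀ j ∈ (Finset.univ : Finset (Fin n)), ∏ v ∈ V, z j ^ (W i v * v j) =
        if i = j then z i ^ D else 1 := by
      intro j _
      rw [prod_zpow_sum (hz j) V (fun v => W i v * v j), hW]
      split_ifs with hij
      · rw [hij, zpow_natCast]
      · rw [zpow_zero]
    rw [Finset.prod_congr rfl e3, Finset.prod_ite_eq]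
    simp
  have e4 : HtLe (B ^ ∑ v ∈ V, (W i v).natAbs) (z i ^ D) := by
    rw [e1, ← Finset.prod_pow_eq_pow_sum]
    exact HtLe.prod V _ _ fun v hv => (h v hv).zpow
      (Finset.prod_ne_zero_iff.2 fun j _ => zpow_ne_zero _ (hz j)) _
  have e5 := hh_pow e4
  exact htLe_iff.2 ((Nat.le_self_pow hD.ne' _).trans e5)

end Pool.Agent.Y902.GN
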