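import Mathlib
import Pool.Agent.Y902.GN.Tc

/-!
# Points outside torus translates: blocks
-/

set_option autoImplicit false

namespace Pool.Agent.Y902.GN

/-- the points -/
structure TcPt {κ : Type*} [Fintype κ] {n : ℕ} (m : κ → Fin n → ℕ) (r N E : ℕ) (δ : ℝ) (Y : ℕ)
    (c : Fin r → κ → ℤ) (x : Fin n → ℤ) : Prop where
  c1 : ∀ q k, |c q k| ≤ (Y : ℤ) ^ E
  eqn : ∀ q, ∑ k, c q k * ∏ i, x i ^ m k i = 0
  tor : ∀ a : Fin n → ℤ, a ≠ 0 → ∃ s : ℚ, s ≠ 0 ∧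
    ∃ q, ∑ k, (c q k : ℚ) * ∏ i, (s ^ a i * (x i : ℚ)) ^ m k i ≠ 0
  hx : ∀ i, ((|x i| : ℤ) : ℝ) ≤ Real.exp ((Y : ℝ) ^ δ)
  rep : ∃ (η : Fin n → ℤ) (b : Fin N → ℕ) (e : Fin n → Fin N → ℕ), (∀ i, |η i| = 1) ∧
    (∀ j, 1 ≤ b j ∧ b j ≤ Y) ∧ ∀ i, x i = η i * ∏ j, (b j : ℤ) ^ e i j

/-- the terms -/
def tt {κ : Type*} {n r : ℕ} (m : κ → Fin n → ℕ) (c : Fin r → κ → ℤ) (x : Fin n → ℤ)
    (q : Fin r) (k : κ) : ℤ := c q k * ∏ i, x i ^ m k i

theorem TcPt.ne {κ : Type*} [Fintype κ] {n : ℕ} {m : κ → Fin n → ℕ} {r N E : ℕ} {δ : ℝ} {Y : ℕ}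
    {c : Fin r → κ → ℤ} {x : Fin n → ℤ} (h : TcPt m r N E δ Y c x) (i : Fin n) : x i ≠ 0 := by
  obtain ⟨η, b, e, hη, hb, hx⟩ := h.rep
  rw [hx i]
  refine mul_ne_zero ?_ (Finset.prod_ne_zero_iff.2 fun j _ => pow_ne_zero _ ?_)
  · intro h0
    have := hη i
    rw [h0, abs_zero] at this
    exact zero_ne_one this
  · have := (hb j).1
    exact_mod_cast (by omega : b j ≠ 0)

theorem TcPt.blocks {κ : Type*} [Fintype κ] {n : ℕ} {m : κ → Fin n → ℕ} {r N E : ℕ} {δ : ℝ}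
    {Y : ℕ} {c : Fin r → κ → ℤ} {x : Fin n → ℤ} (h : TcPt m r N E δ Y c x) (a : Fin n → ℤ)
    (ha : a ≠ 0) : ∃ q J, MinV (tt m c x q) J ∧ ∃ k ∈ J, ∃ l ∈ J,
      ∑ i, a i * ((m k i : ℤ) - m l i) ≠ 0 := by
  classical
  by_contra hcon
  push Not at hcon
  obtain ⟨s, hs, q, hq⟩ := h.tor a ha
  apply hq
  have h1 := minv_const (tt m c x q) (fun k => ∑ i, a i * (m k i : ℤ)) (fun J hJ k hk l hl => by
    have := hcon q J hJ k hk l hl
    simp only [mul_sub, Finset.sum_sub_distrib] at this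
    linarith) (fun w => s ^ w) _ Finset.univ rfl (h.eqn q)
  refine Eq.trans ?_ h1
  refine Finset.sum_congr rfl fun k _ => ?_
  have e1 : ∏ i, (s ^ a i * (x i : ℚ)) ^ m k i = (∏ i, (x i : ℚ) ^ m k i) *
      s ^ ∑ i, a i * (m k i : ℤ) := by
    rw [← prod_zpow_sum hs, ← Finset.prod_mul_distrib]
    refine Finset.prod_congr rfl fun i _ => ?_
    rw [mul_pow, zpow_mul, zpow_natCast, mul_comm]
  rw [e1]
  unfold tt
  push_cast
  ring

/-- the enumeration of a finite set -/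
noncomputable def sg2 {κ : Type*} (J : Finset κ) (j : Fin J.card) : κ :=
  ((J.equivFin.symm j : {i // i ∈ J}) : κ)

theorem sg2_mem {κ : Type*} (J : Finset κ) (j : Fin J.card) : sg2 J j ∈ J :=
  (J.equivFin.symm j).2

theorem sg2_surj {κ : Type*} (J : Finset κ) {i : κ} (hi : i ∈ J) : ∃ j, sg2 J j = i := by
  refine ⟨J.equivFin ⟨i, hi⟩, ?_⟩
  unfold sg2
  rw [Equiv.symm_apply_apply]

theorem sg2_inj {κ : Type*} (J : Finset κ) : Function.Injective (sg2 J) := by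
  intro j j' h
  exact J.equivFin.symm.injective (Subtype.ext h)

theorem sg2_sum {κ : Type*} (J : Finset κ) (F : κ → ℤ) :
    ∑ j, F (sg2 J j) = ∑ i ∈ J, F i := by
  unfold sg2
  rw [Equiv.sum_comp J.equivFin.symm (fun i : {i // i ∈ J} => F i), Finset.sum_coe_sort J F]

/-- blocks give points of the general theorem -/
theorem TcPt.gq {κ : Type*} [Fintype κ] {n : ℕ} {m : κ → Fin n → ℕ} {r N E : ℕ} {δ δ1 : ℝ}
    {Y : ℕ} {c : Fin r → κ → ℤ} {x : Fin n → ℤ} (h : TcPt m r N E δ Y c x) {M : ℕ}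
    (hM : ∀ k, ∑ i, m k i ≤ M) (hδ : 0 < δ) (hδ1 : 2 * δ ≤ δ1) (hY : 1 ≤ Y)
    (hYl : 2 * (M : ℝ) + E / δ ≤ (Y : ℝ) ^ δ) {q : Fin r} {J : Finset κ}
    (hJ : MinV (tt m c x q) J) :
    GqPt J.card N E δ1 Y (fun _ => 1) (fun j => tt m c x q (sg2 J j)) := by
  classical
  have hY1 : (1 : ℤ) ≤ (Y : ℤ) := by exact_mod_cast hY
  have hY0 : (0 : ℝ) < (Y : ℝ) := by exact_mod_cast hY
  refine ⟨fun j => hJ.nz (sg2_mem J j), ?_, fun K h1 h2 => ?_, fun j => ?_, ?_⟩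
  · simp only [one_mul]
    rw [sg2_sum J (tt m c x q)]
    exact hJ.2.1
  · simp only [one_mul]
    have e1 : ∑ j ∈ K, tt m c x q (sg2 J j) = ∑ k ∈ K.image (sg2 J), tt m c x q k := by
      rw [Finset.sum_image fun a _ b _ hab => sg2_inj J hab]
    rw [e1]
    refine hJ.2.2 _ ?_ (h1.image _) ?_
    · intro k hk
      obtain ⟨j, _, rfl⟩ := Finset.mem_image.1 hk
      exact sg2_mem J j
    · intro hKJ
      apply h2
      rw [Finset.eq_univ_iff_forall]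
      intro j
      obtain ⟨j', hj', hjj⟩ := Finset.mem_image.1 (hKJ.ge (sg2_mem J j))
      rwa [← sg2_inj J hjj]
  · have e1 : ((|tt m c x q (sg2 J j)| : ℤ) : ℝ) ≤ (Y : ℝ) ^ E * Real.exp (M * (Y : ℝ) ^ δ) := by
      unfold tt
      rw [abs_mul, Int.cast_mul]
      have e2 : ((|c q (sg2 J j)| : ℤ) : ℝ) ≤ (Y : ℝ) ^ E := by exact_mod_cast h.c1 q _
      refine mul_le_mul e2 ?_ (by positivity) (by positivity)
      rw [Finset.abs_prod, Int.cast_prod]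
      calc ∏ i, ((|x i ^ m (sg2 J j) i| : ℤ) : ℝ) ≤
            ∏ i, Real.exp ((Y : ℝ) ^ δ) ^ m (sg2 J j) i := by
            refine Finset.prod_le_prod (fun i _ => by positivity) fun i _ => ?_
            rw [abs_pow]
            push_cast
            have := h.hx i
            push_cast at this
            exact pow_le_pow_left₀ (abs_nonneg _) this _
        _ = Real.exp ((Y : ℝ) ^ δ) ^ ∑ i, m (sg2 J j) i := by
            rw [Finset.prod_pow_eq_pow_sum]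
        _ ≤ Real.exp ((Y : ℝ) ^ δ) ^ M :=
            pow_le_pow_right₀ (Real.one_le_exp (by positivity)) (hM _)
        _ = Real.exp (M * (Y : ℝ) ^ δ) := by rw [← Real.exp_nat_mul]
    refine e1.trans ?_
    have e3 := hl_exp (d := M) (E := E) hδ hY hYl
    refine le_trans ?_ (e3.trans (Real.exp_le_exp.2
      (Real.rpow_le_rpow_of_exponent_le (by exact_mod_cast hY) hδ1)))
    have e4 : (0 : ℝ) ≤ (Y : ℝ) ^ E * Real.exp (M * (Y : ℝ) ^ δ) := by positivity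
    have e5 : (0 : ℝ) ≤ (M : ℝ) := Nat.cast_nonneg _
    nlinarith
  · obtain ⟨η, b, e, hη, hb, hx⟩ := h.rep
    refine ⟨fun j => c q (sg2 J j) * ∏ i, η i ^ m (sg2 J j) i, b,
      fun j p => ∑ i, e i p * m (sg2 J j) i, hb, fun j => ?_, fun j => ?_⟩
    · have e1 : |∏ i, η i ^ m (sg2 J j) i| = 1 := by
        rw [Finset.abs_prod]
        refine Finset.prod_eq_one fun i _ => ?_
        rw [abs_pow, hη, one_pow]
      rw [abs_mul, e1, mul_one]
      exact h.c1 _ _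
    · unfold tt
      have e1 : ∏ i, x i ^ m (sg2 J j) i = (∏ i, η i ^ m (sg2 J j) i) *
          ∏ p, (b p : ℤ) ^ ∑ i, e i p * m (sg2 J j) i := by
        have e2 : ∀ p ∈ (Finset.univ : Finset (Fin N)), (b p : ℤ) ^ ∑ i, e i p * m (sg2 J j) i =
            ∏ i, ((b p : ℤ) ^ e i p) ^ m (sg2 J j) i := by
          intro p _
          rw [← Finset.prod_pow_eq_pow_sum]
          exact Finset.prod_congr rfl fun i _ => pow_mul _ _ _
        rw [Finset.prod_congr rfl e2, Finset.prod_comm, ← Finset.prod_mul_distrib]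
        refine Finset.prod_congr rfl fun i _ => ?_
        rw [Finset.prod_pow, ← mul_pow, ← hx i]
      rw [e1]
      ring

end Pool.Agent.Y902.GN
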