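import Mathlib
import Pool.Agent.Y902.GN.Tc2
import Pool.Agent.Y902.GN.Sc2

/-!
# Points outside torus translates: the count
-/

set_option autoImplicit false

namespace Pool.Agent.Y902.GN

/-- coordinatewise closeness -/
def CloseC {n : ℕ} (C Y : ℕ) (x x' : Fin n → ℤ) : Prop :=
  ∀ i, HtLe ((Y + 2) ^ C) ((x i : ℚ) / x' i)

theorem NearP.symm {n : ℕ} {C Y : ℕ} {a a' : Fin n → ℤ} (h : NearP C Y a a') :
    NearP C Y a' a := fun i i0 => by
  obtain ⟨r, r', h1, h2, h3, h4, h5⟩ := h i i0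
  exact ⟨r', r, h2, h1, h4, h3, h5.symm⟩

theorem NearP.mono {n : ℕ} {C C' Y : ℕ} {a a' : Fin n → ℤ} (h : NearP C Y a a') (hC : C ≤ C') :
    NearP C' Y a a' := fun i i0 => by
  obtain ⟨r, r', h1, h2, h3, h4, h5⟩ := h i i0
  have hY : (1 : ℤ) ≤ (Y : ℤ) + 2 := by omega
  exact ⟨r, r', h1, h2, h3.trans (pow_le_pow_right₀ hY hC),
    h4.trans (pow_le_pow_right₀ hY hC), h5⟩

theorem NearP.join {n : ℕ} {C Y : ℕ} {a a' τ : Fin n → ℤ} (hτ : ∀ i, τ i ≠ 0)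
    (h : NearP C Y a τ) (h' : NearP C Y a' τ) : NearP (2 * C) Y a a' := fun i l => by
  obtain ⟨r, r', h1, h2, h3, h4, h5⟩ := h i l
  obtain ⟨p, p', g1, g2, g3, g4, g5⟩ := h' i l
  refine ⟨r * p', r' * p, mul_ne_zero h1 g2, mul_ne_zero h2 g1, ?_, ?_, ?_⟩
  · rw [abs_mul, two_mul, pow_add]
    exact mul_le_mul h3 g4 (abs_nonneg _) (by positivity)
  · rw [abs_mul, two_mul, pow_add]
    exact mul_le_mul h4 g3 (abs_nonneg _) (by positivity)
  · refine mul_left_cancel₀ (mul_ne_zero (hτ i) (hτ l)) ?_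
    linear_combination (τ i * a' l * p') * h5 - (r' * τ i * a l) * g5

/-- **Near blocks imply close coordinates.** -/
theorem tc_near {κ : Type*} [Fintype κ] {n : ℕ} {m : κ → Fin n → ℕ} {r N E C : ℕ} {δ : ℝ}
    {Y : ℕ} {c c' : Fin r → κ → ℤ} {x x' : Fin n → ℤ} (h : TcPt m r N E δ Y c x)
    (h' : TcPt m r N E δ Y c' x')
    (ht : ∀ q J, MinV (tt m c x q) J → MinV (tt m c' x' q) J)
    (hn : ∀ q J, MinV (tt m c x q) J → NearP C Y (fun j : Fin J.card => tt m c x q (sg2 J j))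
      (fun j => tt m c' x' q (sg2 J j))) {V : Finset (Fin n → ℤ)}
    (hV : ∀ v ∈ V, ∃ q J, MinV (tt m c x q) J ∧ ∃ k ∈ J, ∃ l ∈ J, ∀ i, v i = (m k i : ℤ) - m l i)
    {D : ℕ} {W : Fin n → (Fin n → ℤ) → ℤ} (hD : 0 < D)
    (hW : ∀ i j, ∑ v ∈ V, W i v * v j = if i = j then (D : ℤ) else 0) {w : ℕ}
    (hw : ∀ i, ∑ v ∈ V, (W i v).natAbs ≤ w) : CloseC ((C + 2 * E) * w) Y x x' := by
  intro i
  have hx0 := h.ne
  have hx0' := h'.ne
  have hx0q : ∀ i, (x i : ℚ) ≠ 0 := fun i => by exact_mod_cast hx0 i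
  have hx0q' : ∀ i, (x' i : ℚ) ≠ 0 := fun i => by exact_mod_cast hx0' i
  have hYE : ∀ z : ℤ, |z| ≤ (Y : ℤ) ^ E → |z| ≤ ((Y : ℤ) + 2) ^ E := fun z hz =>
    hz.trans (pow_le_pow_left₀ (by positivity) (by omega) _)
  have hbd : ∀ r z z' : ℤ, |r| ≤ ((Y : ℤ) + 2) ^ C → |z| ≤ (Y : ℤ) ^ E → |z'| ≤ (Y : ℤ) ^ E →
      |r * z * z'| ≤ (((Y + 2) ^ (C + 2 * E) : ℕ) : ℤ) := by
    intro r z z' hr hz hz'
    push_cast
    rw [abs_mul, abs_mul, pow_add, pow_mul', pow_two, ← mul_assoc]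
    exact mul_le_mul (mul_le_mul hr (hYE z hz) (abs_nonneg _) (by positivity)) (hYE z' hz')
      (abs_nonneg _) (by positivity)
  have key : ∀ v ∈ V, HtLe ((Y + 2) ^ (C + 2 * E)) (∏ i, ((x i : ℚ) / x' i) ^ v i) := by
    intro v hv
    obtain ⟨q, J, hJ, k, hk, l, hl, hkl⟩ := hV v hv
    have hJ' := ht q J hJ
    obtain ⟨j, rfl⟩ := sg2_surj J hk
    obtain ⟨j', rfl⟩ := sg2_surj J hl
    obtain ⟨R, R', R1, R2, R3, R4, R5⟩ := hn q J hJ j j'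
    obtain ⟨k, hkd⟩ : ∃ k, k = sg2 J j := ⟨_, rfl⟩
    obtain ⟨l, hld⟩ : ∃ l, l = sg2 J j' := ⟨_, rfl⟩
    beta_reduce at R5
    rw [← hkd, ← hld] at R5
    rw [← hkd] at hk
    rw [← hld] at hl
    rw [← hkd, ← hld] at hkl
    have a1 := hJ.nz hk
    have a2 := hJ.nz hl
    have a3 := hJ'.nz hk
    have a4 := hJ'.nz hl
    unfold tt at R5 a1 a2 a3 a4
    have c1 := left_ne_zero_of_mul a1
    have c2 := left_ne_zero_of_mul a2
    have c3 := left_ne_zero_of_mul a3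
    have c4 := left_ne_zero_of_mul a4
    have hP0 : R * c q k * c' q l ≠ 0 := mul_ne_zero (mul_ne_zero R1 c1) c4
    refine HtLe.of_div (A := R' * c' q k * c q l) (B := R * c q k * c' q l) hP0 ?_
      (hbd _ _ _ R4 (h'.c1 q k) (h.c1 q l)) (hbd _ _ _ R3 (h.c1 q k) (h'.c1 q l))
    have hP0q : ((R * c q k * c' q l : ℤ) : ℚ) ≠ 0 := by exact_mod_cast hP0
    have e1 : ∏ i, ((x i : ℚ) / x' i) ^ v i = ((∏ i, (x i : ℚ) ^ m k i) * ∏ i, (x' i : ℚ) ^ m l i) /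
        ((∏ i, (x' i : ℚ) ^ m k i) * ∏ i, (x i : ℚ) ^ m l i) := by
      rw [← Finset.prod_mul_distrib, ← Finset.prod_mul_distrib, ← Finset.prod_div_distrib]
      refine Finset.prod_congr rfl fun i _ => ?_
      have q1 := hx0q i
      have q2 := hx0q' i
      rw [hkl i, zpow_sub₀ (div_ne_zero q1 q2), zpow_natCast, zpow_natCast, div_pow, div_pow]
      field_simp
    have d1 : (∏ i, (x' i : ℚ) ^ m k i) ≠ 0 := Finset.prod_ne_zero_iff.2 fun i _ =>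
      pow_ne_zero _ (hx0q' i)
    have d2 : (∏ i, (x i : ℚ) ^ m l i) ≠ 0 := Finset.prod_ne_zero_iff.2 fun i _ =>
      pow_ne_zero _ (hx0q i)
    rw [e1, div_eq_div_iff (mul_ne_zero d1 d2) hP0q]
    have R6 : ((R * (c q k * (∏ i, x i ^ m k i) * (c' q l * ∏ i, x' i ^ m l i)) : ℤ) : ℚ) =
        ((R' * (c' q k * (∏ i, x' i ^ m k i) * (c q l * ∏ i, x i ^ m l i)) : ℤ) : ℚ) := by
      exact_mod_cast R5
    push_cast at R6 ⊢
    linear_combination R6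
  have := coords_small hD hW (fun i => div_ne_zero (hx0q i) (hx0q' i)) key i
  refine this.mono ?_
  rw [← pow_mul]
  refine Nat.pow_le_pow_right (by omega) (Nat.mul_le_mul_left _ (hw i))

end Pool.Agent.Y902.GN
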