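import Mathlib
import Pool.Agent.Y902.GN.Tc3

/-!
# Points outside torus translates: the count
-/

set_option autoImplicit false

namespace Pool.Agent.Y902.GN

/-- uniform constants for the linear algebra -/
theorem span_const {n : ℕ} (U : Finset (Fin n → ℤ)) : ∃ w : ℕ, ∀ V ⊆ U,
    (∀ a : Fin n → ℤ, a ≠ 0 → ∃ v ∈ V, ∑ i, a i * v i ≠ 0) →
    ∃ (D : ℕ) (W : Fin n → (Fin n → ℤ) → ℤ), 0 < D ∧
      (∀ i j, ∑ v ∈ V, W i v * v j = if i = j then (D : ℤ) else 0) ∧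
      ∀ i, ∑ v ∈ V, (W i v).natAbs ≤ w := by
  classical
  have h1 : ∀ V : Finset (Fin n → ℤ), ∃ w : ℕ,
      (∀ a : Fin n → ℤ, a ≠ 0 → ∃ v ∈ V, ∑ i, a i * v i ≠ 0) →
      ∃ (D : ℕ) (W : Fin n → (Fin n → ℤ) → ℤ), 0 < D ∧
      (∀ i j, ∑ v ∈ V, W i v * v j = if i = j then (D : ℤ) else 0) ∧
      ∀ i, ∑ v ∈ V, (W i v).natAbs ≤ w := by
    intro V
    by_cases hV : ∀ a : Fin n → ℤ, a ≠ 0 → ∃ v ∈ V, ∑ i, a i * v i ≠ 0
    · obtain ⟨D, W, hD, hW⟩ := span_comb V hV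
      refine ⟨∑ i, ∑ v ∈ V, (W i v).natAbs, fun _ => ⟨D, W, hD, hW, fun i => ?_⟩⟩
      exact Finset.single_le_sum (f := fun i => ∑ v ∈ V, (W i v).natAbs)
        (fun _ _ => Nat.zero_le _) (Finset.mem_univ i)
    · exact ⟨0, fun h => absurd h hV⟩
  choose w hw using h1
  refine ⟨∑ V ∈ U.powerset, w V, fun V hV hP => ?_⟩
  obtain ⟨D, W, hD, hW, h2⟩ := hw V hP
  refine ⟨D, W, hD, hW, fun i => (h2 i).trans ?_⟩
  exact Finset.single_le_sum (f := w) (fun _ _ => Nat.zero_le _) (Finset.mem_powerset.2 hV)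

theorem close_small {n C Y : ℕ} {x x' : Fin n → ℤ} (hY : 1 ≤ Y) (hC : Y ≤ C)
    (h : ∀ i, x i ≠ 0 ∧ ((|x i| : ℤ) : ℝ) ≤ Real.exp Y)
    (h' : ∀ i, x' i ≠ 0 ∧ ((|x' i| : ℤ) : ℝ) ≤ Real.exp Y) : CloseC C Y x x' := by
  have h1 : Real.exp (Y : ℝ) ≤ ((Y : ℝ) + 2) ^ C := by
    have e1 : Real.exp (Y : ℝ) = Real.exp 1 ^ Y := by
      rw [← Real.exp_nat_mul, mul_one]
    have hYr : (1 : ℝ) ≤ (Y : ℝ) := by exact_mod_cast hY
    have e2 : Real.exp 1 ≤ (Y : ℝ) + 2 := by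
      have := Real.exp_one_lt_d9
      linarith
    rw [e1]
    exact (pow_le_pow_left₀ (Real.exp_pos _).le e2 _).trans
      (pow_le_pow_right₀ (by linarith) hC)
  have h2 : ∀ z : ℤ, ((|z| : ℤ) : ℝ) ≤ Real.exp Y → |z| ≤ (((Y + 2) ^ C : ℕ) : ℤ) := by
    intro z hz
    have := hz.trans h1
    exact_mod_cast this
  intro i
  exact HtLe.of_div (h' i).1 rfl (h2 _ (h i).2) (h2 _ (h' i).2)

/-- **Few classes outside torus translates.** -/
theorem tc {κ : Type*} [Fintype κ] [DecidableEq κ] {n : ℕ} (m : κ → Fin n → ℕ) (r N E : ℕ)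
    (ε : ℝ) (hε : 0 < ε) : ∃ (C : ℕ) (δ : ℝ), 0 < δ ∧ ∀ (Y : ℕ), 2 ≤ Y →
    ∀ T : Finset (Fin n → ℤ), (∀ x ∈ T, ∃ c, TcPt m r N E δ Y c x) →
      (∀ x ∈ T, ∀ x' ∈ T, x ≠ x' → ¬ CloseC C Y x x') → (T.card : ℝ) ≤ (Y : ℝ) ^ ε := by
  classical
  obtain ⟨p0, hp0⟩ : ∃ p0 : ℕ, p0 = Fintype.card (Fin r × Finset κ) := ⟨_, rfl⟩
  obtain ⟨ε', hε'⟩ : ∃ ε' : ℝ, ε' = ε / (2 * (p0 + 1)) := ⟨_, rfl⟩
  have hε0 : 0 < ε' := by rw [hε']; positivity
  have hgq := fun s : ℕ => gq s N E ε' hε0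
  choose C0 δ' hδ' H using hgq
  have hne : (Finset.range (Fintype.card κ + 1)).Nonempty := ⟨0, Finset.mem_range.2 (by omega)⟩
  obtain ⟨δ1, hδ1, hδ1'⟩ : ∃ δ1 : ℝ, 0 < δ1 ∧
      ∀ s ∈ Finset.range (Fintype.card κ + 1), δ1 ≤ δ' s :=
    ⟨(Finset.range (Fintype.card κ + 1)).inf' hne δ', (Finset.lt_inf'_iff hne).2 fun s _ => hδ' s,
      fun s hs => Finset.inf'_le _ hs⟩
  obtain ⟨C1, hC1⟩ : ∃ C1 : ℕ, ∀ s ∈ Finset.range (Fintype.card κ + 1), C0 s ≤ C1 :=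
    ⟨∑ s ∈ Finset.range (Fintype.card κ + 1), C0 s, fun s hs =>
      Finset.single_le_sum (f := C0) (fun _ _ => Nat.zero_le _) hs⟩
  have hcard : ∀ J : Finset κ, J.card ∈ Finset.range (Fintype.card κ + 1) := fun J => by
    have := Finset.card_le_univ J
    exact Finset.mem_range.2 (by omega)
  obtain ⟨δ, hδ, hδa, hδb⟩ : ∃ δ : ℝ, 0 < δ ∧ 2 * δ ≤ δ1 ∧ δ ≤ 1 :=
    ⟨min (δ1 / 2) 1, by positivity, by
      have := min_le_left (δ1 / 2) 1
      linarith, min_le_right _ _⟩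
  obtain ⟨M, hM⟩ : ∃ M : ℕ, ∀ k, ∑ i, m k i ≤ M := ⟨∑ k, ∑ i, m k i, fun k =>
    Finset.single_le_sum (f := fun k => ∑ i, m k i) (fun _ _ => Nat.zero_le _)
      (Finset.mem_univ k)⟩
  obtain ⟨U, hU⟩ : ∃ U : Finset (Fin n → ℤ), U = (Finset.univ : Finset (κ × κ)).image
      fun p i => (m p.1 i : ℤ) - m p.2 i := ⟨_, rfl⟩
  obtain ⟨w, hw⟩ := span_const U
  obtain ⟨Y1, hY1⟩ : ∃ Y1 : ℕ, Y1 = ⌈(2 * (M : ℝ) + E / δ) ^ (1 / δ)⌉₊ +
      ⌈((2 : ℝ) ^ p0) ^ (2 / ε)⌉₊ := ⟨_, rfl⟩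
  refine ⟨(2 * C1 + 2 * E) * w + Y1, δ, hδ, fun Y hY T hT hne' => ?_⟩
  have hYr : (1 : ℝ) ≤ (Y : ℝ) := by exact_mod_cast (by omega : 1 ≤ Y)
  have hY0 : (0 : ℝ) < (Y : ℝ) := by linarith
  rcases lt_or_ge Y Y1 with hYY1 | hYY1
  · -- small `Y`
    have h1 : T.card ≤ 1 := by
      rw [Finset.card_le_one]
      intro x hx x' hx'
      by_contra hxx
      obtain ⟨c, hc⟩ := hT x hx
      obtain ⟨c', hc'⟩ := hT x' hx'
      have e1 : Real.exp ((Y : ℝ) ^ δ) ≤ Real.exp Y := by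
        apply Real.exp_le_exp.2
        calc (Y : ℝ) ^ δ ≤ (Y : ℝ) ^ (1 : ℝ) := Real.rpow_le_rpow_of_exponent_le hYr hδb
          _ = _ := Real.rpow_one _
      exact hne' x hx x' hx' hxx (close_small (by omega) (by omega)
        (fun i => ⟨hc.ne i, (hc.hx i).trans e1⟩) (fun i => ⟨hc'.ne i, (hc'.hx i).trans e1⟩))
    calc (T.card : ℝ) ≤ 1 := by exact_mod_cast h1
      _ ≤ _ := Real.one_le_rpow hYr hε.le
  have hYl : 2 * (M : ℝ) + E / δ ≤ (Y : ℝ) ^ δ := by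
    have h1 : (2 * (M : ℝ) + E / δ) ^ (1 / δ) ≤ (Y : ℝ) := by
      refine (Nat.le_ceil _).trans ?_
      exact_mod_cast (by omega : ⌈(2 * (M : ℝ) + E / δ) ^ (1 / δ)⌉₊ ≤ Y)
    have h2 := Real.rpow_le_rpow (by positivity) h1 hδ.le
    rwa [← Real.rpow_mul (by positivity), one_div_mul_cancel hδ.ne', Real.rpow_one] at h2
  have h2d : (2 : ℝ) ^ p0 ≤ (Y : ℝ) ^ (ε / 2) := by
    have h1 : ((2 : ℝ) ^ p0) ^ (2 / ε) ≤ (Y : ℝ) := by
      refine (Nat.le_ceil _).trans ?_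
      exact_mod_cast (by omega : ⌈((2 : ℝ) ^ p0) ^ (2 / ε)⌉₊ ≤ Y)
    have h2 := Real.rpow_le_rpow (by positivity) h1 (show (0 : ℝ) ≤ ε / 2 by positivity)
    rwa [← Real.rpow_mul (by positivity), show 2 / ε * (ε / 2) = 1 by field_simp,
      Real.rpow_one] at h2
  -- the classes of the blocks
  have hTJ : ∀ J : Finset κ, ∃ TJ : Finset (Fin J.card → ℤ),
      (∀ a ∈ TJ, GqPt J.card N E δ1 Y (fun _ => 1) a) ∧ (TJ.card : ℝ) ≤ (Y : ℝ) ^ ε' ∧
      ∀ a, GqPt J.card N E δ1 Y (fun _ => 1) a → ∃ b ∈ TJ, NearP C1 Y a b := by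
    intro J
    obtain ⟨TJ, h1, h2, h3⟩ := max_sep {a : Fin J.card → ℤ | GqPt J.card N E δ1 Y (fun _ => 1) a}
      (NearP (C0 J.card) Y) (NearP.refl _ _) (fun _ _ => NearP.symm) ((Y : ℝ) ^ ε')
      (fun T h1 h2 => H J.card Y (by omega) (fun _ => 1) (fun _ => ⟨one_ne_zero, by
        simp only [abs_one, Int.cast_one]
        exact Real.one_le_exp (by positivity)⟩) T (fun a ha => by
          have h3 := h1 a ha
          refine ⟨h3.nz, h3.sum, h3.nvs, fun i => (h3.hi i).trans (Real.exp_le_exp.2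
            (Real.rpow_le_rpow_of_exponent_le hYr (hδ1' _ (hcard J)))), h3.rep⟩) h2)
    exact ⟨TJ, h1, h2, fun a ha => by
      obtain ⟨b, hb, hab⟩ := h3 a ha
      exact ⟨b, hb, hab.mono (hC1 _ (hcard J))⟩⟩
  choose TJ hTJ1 hTJ2 hTJ3 using hTJ
  choose! c hc using hT
  have hcode : ∀ (x : Fin n → ℤ) (p : Fin r × Finset κ), ∃ τ : Option (Fin p.2.card → ℤ),
      (x ∈ T → τ ∈ insert none ((TJ p.2).image some)) ∧
      (x ∈ T → MinV (tt m (c x) x p.1) p.2 → ∃ b ∈ TJ p.2, τ = some b ∧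
        NearP C1 Y (fun j : Fin p.2.card => tt m (c x) x p.1 (sg2 p.2 j)) b) ∧
      (¬ MinV (tt m (c x) x p.1) p.2 → τ = none) := by
    intro x p
    by_cases hm : x ∈ T ∧ MinV (tt m (c x) x p.1) p.2
    · obtain ⟨b, hb, hab⟩ := hTJ3 p.2 _ ((hc x hm.1).gq hM hδ hδa (by omega) hYl hm.2)
      refine ⟨some b, fun _ => Finset.mem_insert_of_mem (Finset.mem_image_of_mem _ hb),
        fun _ _ => ⟨b, hb, rfl, hab⟩, fun h => absurd hm.2 h⟩
    · refine ⟨none, fun _ => Finset.mem_insert_self _ _, fun h1 h2 => absurd ⟨h1, h2⟩ hm,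
        fun _ => rfl⟩
  choose code hcode1 hcode2 hcode3 using hcode
  have hinj : Set.InjOn code (T : Set (Fin n → ℤ)) := by
    intro x hx x' hx' hxx
    have hx := Finset.mem_coe.1 hx
    have hx' := Finset.mem_coe.1 hx'
    by_contra hne2
    have h1 := hc x hx
    have h2 := hc x' hx'
    have htype : ∀ q J, MinV (tt m (c x) x q) J → MinV (tt m (c x') x' q) J := by
      intro q J hJ
      by_contra hJ'
      obtain ⟨b, _, hb, _⟩ := hcode2 x (q, J) hx hJ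
      have hb' := hcode3 x' (q, J) hJ'
      rw [hxx, hb'] at hb
      exact absurd hb (by simp)
    obtain ⟨V, hV⟩ : ∃ V : Finset (Fin n → ℤ), V = U.filter fun v => ∃ q J,
        MinV (tt m (c x) x q) J ∧ ∃ k ∈ J, ∃ l ∈ J, ∀ i, v i = (m k i : ℤ) - m l i := ⟨_, rfl⟩
    obtain ⟨D, W, hD, hW, hWw⟩ := hw V (by rw [hV]; exact Finset.filter_subset _ _) (by
      intro a ha
      obtain ⟨q, J, hJ, k, hk, l, hl, hkl⟩ := h1.blocks a ha
      refine ⟨fun i => (m k i : ℤ) - m l i, ?_, hkl⟩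
      rw [hV, Finset.mem_filter, hU]
      exact ⟨Finset.mem_image.2 ⟨(k, l), Finset.mem_univ _, rfl⟩, q, J, hJ, k, hk, l, hl,
        fun i => rfl⟩)
    refine hne' x hx x' hx' hne2 ?_
    have hclose := tc_near (C := 2 * C1) h1 h2 htype (fun q J hJ => by
      obtain ⟨b, hbT, hb, hn⟩ := hcode2 x (q, J) hx hJ
      obtain ⟨b', hbT', hb', hn'⟩ := hcode2 x' (q, J) hx' (htype q J hJ)
      have hbb : b = b' := by
        rw [hxx, hb'] at hb
        exact (Option.some.inj hb).symm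
      rw [← hbb] at hn'
      exact hn.join (hTJ1 _ b hbT).nz hn') (V := V) (fun v hv => by
        rw [hV, Finset.mem_filter] at hv
        exact hv.2) hD hW hWw
    intro i
    exact (hclose i).mono (Nat.pow_le_pow_right (by omega) (by omega))
  have hle : T.card ≤ (Fintype.piFinset fun p : Fin r × Finset κ =>
      insert none ((TJ p.2).image some)).card := by
    rw [← Finset.card_image_of_injOn hinj]
    refine Finset.card_le_card fun g hg => ?_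
    obtain ⟨x, hx, rfl⟩ := Finset.mem_image.1 hg
    exact Fintype.mem_piFinset.2 fun p => hcode1 x p hx
  rw [Fintype.card_piFinset] at hle
  have hone : (1 : ℝ) ≤ (Y : ℝ) ^ ε' := Real.one_le_rpow hYr hε0.le
  calc (T.card : ℝ) ≤ ((∏ p : Fin r × Finset κ, (insert none ((TJ p.2).image some)).card : ℕ) : ℝ) := by
        exact_mod_cast hle
    _ = ∏ p : Fin r × Finset κ, (((insert none ((TJ p.2).image some)).card : ℕ) : ℝ) := by
        push_cast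
        rfl
    _ ≤ ∏ _p : Fin r × Finset κ, 2 * (Y : ℝ) ^ ε' := by
        refine Finset.prod_le_prod (fun p _ => Nat.cast_nonneg _) fun p _ => ?_
        have e1 : (insert none ((TJ p.2).image some)).card ≤ (TJ p.2).card + 1 :=
          (Finset.card_insert_le _ _).trans (Nat.add_le_add_right Finset.card_image_le _)
        have e2 : (((insert none ((TJ p.2).image some)).card : ℕ) : ℝ) ≤ ((TJ p.2).card : ℝ) + 1 := by
          exact_mod_cast e1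
        have e3 := hTJ2 p.2
        linarith
    _ = (2 * (Y : ℝ) ^ ε') ^ p0 := by
        rw [Finset.prod_const, Finset.card_univ, hp0]
    _ = 2 ^ p0 * ((Y : ℝ) ^ ε') ^ p0 := mul_pow _ _ _
    _ ≤ (Y : ℝ) ^ (ε / 2) * (Y : ℝ) ^ (ε / 2) := by
        refine mul_le_mul h2d ?_ (by positivity) (by positivity)
        rw [← Real.rpow_natCast, ← Real.rpow_mul hY0.le]
        refine Real.rpow_le_rpow_of_exponent_le hYr ?_
        rw [hε']
        rw [div_mul_eq_mul_div, div_le_div_iff₀ (by positivity) (by positivity)]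
        have : (0 : ℝ) ≤ (p0 : ℝ) := Nat.cast_nonneg _
        nlinarith
    _ = (Y : ℝ) ^ ε := by
        rw [← Real.rpow_add hY0]
        congr 1
        ring

end Pool.Agent.Y902.GN
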