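import Mathlib
import Pool.Agent.Y902.GN.Tc4

/-!
# Values of polynomials at rational numbers generated by few integers
-/

set_option autoImplicit false

namespace Pool.Agent.Y902.GN

theorem intval (d : ℕ) (z : Fin d → ℤ) (x : ℚ) :
    ∃ m : ℤ, (m : ℚ) = (x.den : ℚ) ^ d * ∑ i, (z i : ℚ) * x ^ (i : ℕ) := by
  refine ⟨∑ i, z i * (x.num ^ (i : ℕ) * (x.den : ℤ) ^ (d - (i : ℕ))), ?_⟩
  push_cast
  rw [Finset.mul_sum]
  refine Finset.sum_congr rfl fun i _ => ?_
  have e1 : (x.den : ℚ) ^ d = (x.den : ℚ) ^ (i : ℕ) * (x.den : ℚ) ^ (d - (i : ℕ)) := by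
    rw [← pow_add]
    congr 1
    omega
  have e2 := Rat.mul_den_eq_num x
  rw [← e2, e1, mul_pow]
  ring

theorem rd1 : ∀ (d : ℕ) (z : Fin d → ℤ) (x : ℚ), (∀ i, |z i| < |x.num|) →
    ∑ i, (z i : ℚ) * x ^ (i : ℕ) = 0 → ∀ i, z i = 0
  | 0, _, _, _, _ => fun i => i.elim0
  | d + 1, z, x, hz, h => by
    have hnum : x.num ≠ 0 := by
      intro h0
      have := hz 0
      rw [h0, abs_zero] at this
      exact absurd this (not_lt.2 (abs_nonneg _))
    have hx : x ≠ 0 := fun h0 => hnum (Rat.num_eq_zero.2 h0)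
    rw [Fin.sum_univ_succ] at h
    have e1 : ∑ i : Fin d, (z i.succ : ℚ) * x ^ ((i.succ : Fin (d + 1)) : ℕ) =
        x * ∑ i : Fin d, (z i.succ : ℚ) * x ^ (i : ℕ) := by
      rw [Finset.mul_sum]
      refine Finset.sum_congr rfl fun i _ => ?_
      rw [Fin.val_succ, pow_succ]
      ring
    rw [e1, Fin.val_zero, pow_zero, mul_one] at h
    obtain ⟨m, hm⟩ := intval d (fun i => z i.succ) x
    have h0 : z 0 = 0 := by
      refine Int.eq_zero_of_abs_lt_dvd (m := |x.num|) ((abs_dvd _ _).2 ?_) (hz 0)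
      have h2 : x.num ∣ z 0 * (x.den : ℤ) ^ (d + 1) := by
        refine ⟨-m, ?_⟩
        have h3 : ((z 0 * (x.den : ℤ) ^ (d + 1) : ℤ) : ℚ) = ((x.num * -m : ℤ) : ℚ) := by
          push_cast
          rw [hm]
          have e2 := Rat.mul_den_eq_num x
          rw [← e2]
          linear_combination (x.den : ℚ) ^ (d + 1) * h
        exact_mod_cast h3
      have h3 : IsCoprime x.num ((x.den : ℤ) ^ (d + 1)) := by
        apply IsCoprime.pow_right
        rw [Int.isCoprime_iff_gcd_eq_one, Int.gcd_eq_natAbs, Int.natAbs_natCast]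
        exact x.reduced
      exact h3.dvd_of_dvd_mul_right h2
    rw [h0, Int.cast_zero, zero_add] at h
    have h1 := (mul_eq_zero.1 h).resolve_left hx
    have ih := rd1 d (fun i => z i.succ) x (fun i => hz i.succ) h1
    intro i
    refine Fin.cases h0 (fun j => ih j) i

theorem rdigits (d : ℕ) (z : Fin d → ℤ) (x : ℚ) (hz : ∀ i, |z i| < (hh x : ℤ))
    (h : ∑ i, (z i : ℚ) * x ^ (i : ℕ) = 0) : ∀ i, z i = 0 := by
  rcases le_total x.den x.num.natAbs with hc | hc
  · refine rd1 d z x (fun i => ?_) h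
    have := hz i
    unfold hh at this
    rw [max_eq_left hc] at this
    rwa [Int.abs_eq_natAbs x.num]
  · have hzd : ∀ i, |z i| < (x.den : ℤ) := fun i => by
      have := hz i
      unfold hh at this
      rwa [max_eq_right hc] at this
    by_cases hx : x = 0
    · intro i
      have := hzd i
      rw [hx] at this
      have h1 : |z i| < 1 := by simpa using this
      exact Int.abs_lt_one_iff.1 h1
    · have hrev : ∑ i : Fin d, (z (Fin.rev i) : ℚ) * x⁻¹ ^ (i : ℕ) = 0 := by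
        have e1 : ∀ i : Fin d, (z (Fin.rev i) : ℚ) * x⁻¹ ^ (i : ℕ) =
            x⁻¹ ^ (d - 1) * ((z (Fin.rev i) : ℚ) * x ^ ((Fin.rev i : Fin d) : ℕ)) := by
          intro i
          have hi := i.2
          have e2 : x⁻¹ ^ (d - 1) = x⁻¹ ^ (i : ℕ) * x⁻¹ ^ ((Fin.rev i : Fin d) : ℕ) := by
            rw [← pow_add, Fin.val_rev]
            congr 1
            omega
          rw [e2, inv_pow x ((Fin.rev i : Fin d) : ℕ)]
          field_simp
        rw [Finset.sum_congr rfl fun i _ => e1 i, ← Finset.mul_sum]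
        have e3 := Equiv.sum_comp (Fin.revPerm (n := d)) fun i => (z i : ℚ) * x ^ (i : ℕ)
        have e4 : ∑ i : Fin d, (z (Fin.rev i) : ℚ) * x ^ ((Fin.rev i : Fin d) : ℕ) = 0 := by
          rw [← h, ← e3]
          rfl
        rw [e4, mul_zero]
      have hnum0 : x.num ≠ 0 := Rat.num_ne_zero.2 hx
      have hz2 := rd1 d (fun i => z (Fin.rev i)) x⁻¹ (fun i => by
        rw [Rat.num_inv, abs_mul, Int.abs_sign_of_ne_zero hnum0, one_mul]
        have := hzd (Fin.rev i)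
        have e5 : |((x.den : ℕ) : ℤ)| = (x.den : ℤ) := abs_of_nonneg (by positivity)
        rw [e5]
        exact this) hrev
      intro i
      have := hz2 (Fin.rev i)
      simpa using this

/-- the points: `w = ∑ c i * x ^ i`, with `x` and `w` rational numbers which are products of
powers of `N` integers -/
structure HrPt (d N E K : ℕ) (δ : ℝ) (Y : ℕ) (c : Fin (d + 1) → ℤ) (x w : ℚ) : Prop where
  c1 : ∀ i, |c i| ≤ (Y : ℤ) ^ E
  nc : ∃ i j : Fin (d + 1), (i : ℕ) < j ∧ c i ≠ 0 ∧ c j ≠ 0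
  val : w = ∑ i, (c i : ℚ) * x ^ (i : ℕ)
  tall : Y ^ K < hh x
  rep : ∃ (η θ : ℤ) (b : Fin N → ℕ) (e f : Fin N → ℤ), |η| = 1 ∧ |θ| = 1 ∧
    (∀ j, 1 ≤ b j ∧ b j ≤ Y) ∧
    (∀ j, ((e j).natAbs : ℝ) ≤ (Y : ℝ) ^ δ ∧ ((f j).natAbs : ℝ) ≤ (Y : ℝ) ^ δ) ∧
    x = η * ∏ j, (b j : ℚ) ^ e j ∧ w = θ * ∏ j, (b j : ℚ) ^ f j

/-- scaling equivalence -/
def HrEq {d : ℕ} (c : Fin (d + 1) → ℤ) (x w : ℚ) (c' : Fin (d + 1) → ℤ) (x' w' : ℚ) : Prop :=
  ∃ ρ κ : ℚ, x = ρ * x' ∧ w = κ * w' ∧ ∀ i, (c i : ℚ) * ρ ^ (i : ℕ) = κ * c' i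

theorem HrPt.ne {d N E K : ℕ} {δ : ℝ} {Y : ℕ} {c : Fin (d + 1) → ℤ} {x w : ℚ}
    (h : HrPt d N E K δ Y c x w) : x ≠ 0 ∧ w ≠ 0 := by
  obtain ⟨η, θ, b, e, f, hη, hθ, hb, _, hx, hw⟩ := h.rep
  have hb0 : ∀ j, (b j : ℚ) ≠ 0 := fun j => by
    have := (hb j).1
    exact_mod_cast (by omega : b j ≠ 0)
  constructor
  · rw [hx]
    refine mul_ne_zero ?_ (Finset.prod_ne_zero_iff.2 fun j _ => zpow_ne_zero _ (hb0 j))
    intro h0
    have : η = 0 := by exact_mod_cast h0
    rw [this, abs_zero] at hη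
    exact zero_ne_one hη
  · rw [hw]
    refine mul_ne_zero ?_ (Finset.prod_ne_zero_iff.2 fun j _ => zpow_ne_zero _ (hb0 j))
    intro h0
    have : θ = 0 := by exact_mod_cast h0
    rw [this, abs_zero] at hθ
    exact zero_ne_one hθ

/-- the terms -/
noncomputable def tr {d : ℕ} (I : Finset (Fin (d + 1))) (c : Fin (d + 1) → ℤ) (x w : ℚ) :
    Fin (I.card + 1) → ℚ :=
  Fin.cons w (fun j => -((c (sg1 I j) : ℚ) * x ^ (sg1 I j : ℕ)))

theorem tr_zero {d : ℕ} (I : Finset (Fin (d + 1))) (c : Fin (d + 1) → ℤ) (x w : ℚ) :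
    tr I c x w 0 = w := rfl

theorem tr_succ {d : ℕ} (I : Finset (Fin (d + 1))) (c : Fin (d + 1) → ℤ) (x w : ℚ)
    (j : Fin I.card) : tr I c x w j.succ = -((c (sg1 I j) : ℚ) * x ^ (sg1 I j : ℕ)) := rfl

theorem sg1_sumq {d : ℕ} (I : Finset (Fin (d + 1))) (F : Fin (d + 1) → ℚ) :
    ∑ j, F (sg1 I j) = ∑ i ∈ I, F i := by
  unfold sg1
  rw [Equiv.sum_comp I.equivFin.symm (fun i : {i // i ∈ I} => F i), Finset.sum_coe_sort I F]

theorem HrPt.tr_nvs {d N E K : ℕ} {δ : ℝ} {Y : ℕ} {c : Fin (d + 1) → ℤ} {x w : ℚ}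
    (h : HrPt d N E K δ Y c x w) (hK : Y ^ E ≤ Y ^ K) {I : Finset (Fin (d + 1))}
    (hI : ∀ i, i ∈ I ↔ c i ≠ 0) :
    ∑ k, tr I c x w k = 0 ∧ ∀ J : Finset (Fin (I.card + 1)), J.Nonempty → J ≠ Finset.univ →
      ∑ k ∈ J, tr I c x w k ≠ 0 := by
  classical
  have hsum : ∑ i ∈ I, (c i : ℚ) * x ^ (i : ℕ) = w := by
    rw [h.val]
    refine Finset.sum_subset (Finset.subset_univ _) fun i _ hi => ?_
    have : c i = 0 := by
      by_contra h'
      exact hi ((hI i).2 h')
    rw [this, Int.cast_zero, zero_mul]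
  constructor
  · rw [Fin.sum_univ_succ, tr_zero]
    simp only [tr_succ]
    rw [Finset.sum_neg_distrib, sg1_sumq I (fun i => (c i : ℚ) * x ^ (i : ℕ)), hsum]
    ring
  · intro J hJ1 hJ2 hJ3
    obtain ⟨p, hp⟩ : ∃ p : ℤ, p = if (0 : Fin (I.card + 1)) ∈ J then 1 else 0 := ⟨_, rfl⟩
    obtain ⟨q, hq⟩ : ∃ q : Fin (d + 1) → ℤ, q = fun i => if ∃ j : Fin I.card, sg1 I j = i ∧
      j.succ ∈ J then 1 else 0 := ⟨_, rfl⟩
    have hqj : ∀ j : Fin I.card, q (sg1 I j) = if j.succ ∈ J then 1 else 0 := by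
      intro j
      rw [hq]
      by_cases hj : j.succ ∈ J
      · rw [if_pos hj]
        exact if_pos ⟨j, rfl, hj⟩
      · rw [if_neg hj]
        refine if_neg ?_
        rintro ⟨j', h1, h2⟩
        exact hj (sg1_inj I h1 ▸ h2)
    have e1 : ∑ k ∈ J, tr I c x w k = (p : ℚ) * w -
        ∑ i ∈ I, (q i : ℚ) * ((c i : ℚ) * x ^ (i : ℕ)) := by
      have e2 : ∑ k ∈ J, tr I c x w k = ∑ k, if k ∈ J then tr I c x w k else 0 := by
        rw [Finset.sum_ite_mem, Finset.univ_inter]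
      rw [e2, Fin.sum_univ_succ, tr_zero,
        ← sg1_sumq I (fun i => (q i : ℚ) * ((c i : ℚ) * x ^ (i : ℕ)))]
      simp only [tr_succ]
      rw [sub_eq_add_neg, ← Finset.sum_neg_distrib]
      congr 1
      · rw [hp]
        split_ifs <;> simp
      · refine Finset.sum_congr rfl fun j _ => ?_
        rw [hqj]
        split_ifs <;> simp
    rw [e1, ← hsum, Finset.mul_sum, ← Finset.sum_sub_distrib] at hJ3
    have e3 : ∑ i, ((if i ∈ I then (p - q i) * c i else 0 : ℤ) : ℚ) * x ^ (i : ℕ) = 0 := by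
      refine Eq.trans ?_ hJ3
      have : ∀ i : Fin (d + 1), ((if i ∈ I then (p - q i) * c i else 0 : ℤ) : ℚ) * x ^ (i : ℕ) =
          if i ∈ I then ((p : ℚ) * ((c i : ℚ) * x ^ (i : ℕ)) -
            (q i : ℚ) * ((c i : ℚ) * x ^ (i : ℕ))) else 0 := by
        intro i
        split_ifs
        · push_cast
          ring
        · simp
      rw [Finset.sum_congr rfl fun i _ => this i, Finset.sum_ite_mem, Finset.univ_inter]
    have hp1 : p = 0 ∨ p = 1 := by rw [hp]; split_ifs <;> simp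
    have hq1 : ∀ i, q i = 0 ∨ q i = 1 := by
      intro i
      rw [hq]
      by_cases hi : ∃ j : Fin I.card, sg1 I j = i ∧ j.succ ∈ J
      · right
        exact if_pos hi
      · left
        exact if_neg hi
    have htall : (Y : ℤ) ^ E < (hh x : ℤ) := by exact_mod_cast lt_of_le_of_lt hK h.tall
    have e4 := rdigits (d + 1) _ x (fun i => by
      have h1 : |if i ∈ I then (p - q i) * c i else 0| ≤ |c i| := by
        split_ifs
        · rw [abs_mul]
          have : |p - q i| ≤ 1 := by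
            rcases hp1 with h1 | h1 <;> rcases hq1 i with h2 | h2 <;> rw [h1, h2] <;> simp
          calc |p - q i| * |c i| ≤ 1 * |c i| := mul_le_mul_of_nonneg_right this (abs_nonneg _)
            _ = _ := one_mul _
        · rw [abs_zero]
          exact abs_nonneg _
      exact lt_of_le_of_lt (h1.trans (h.c1 i)) htall) e3
    have e5 : ∀ j : Fin I.card, p = q (sg1 I j) := by
      intro j
      have h1 := e4 (sg1 I j)
      rw [if_pos (sg1_mem I j)] at h1
      rcases mul_eq_zero.1 h1 with h2 | h2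
      · linarith
      · exact absurd h2 ((hI _).1 (sg1_mem I j))
    rcases hp1 with h1 | h1
    · -- nothing in `J`
      obtain ⟨k, hk⟩ := hJ1
      revert hk
      refine Fin.cases (fun hk => ?_) (fun j hk => ?_) k
      · rw [hp, if_pos hk] at h1
        exact one_ne_zero h1
      · have := e5 j
        rw [h1, hqj, if_pos hk] at this
        exact zero_ne_one this
    · apply hJ2
      rw [Finset.eq_univ_iff_forall]
      intro k
      refine Fin.cases ?_ (fun j => ?_) k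
      · by_contra hk
        rw [hp, if_neg hk] at h1
        exact zero_ne_one h1
      · by_contra hk
        have := e5 j
        rw [h1, hqj, if_neg hk] at this
        exact one_ne_zero this

end Pool.Agent.Y902.GN
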