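import Mathlib
import Pool.Agent.Y902.GN.Hr

/-!
# Values of polynomials at rational numbers generated by few integers: terms
-/

set_option autoImplicit false

namespace Pool.Agent.Y902.GN

theorem pow_bound {N Y : ℕ} (hY : 1 ≤ Y) {b n : Fin N → ℕ} (hb : ∀ j, b j ≤ Y) {G : ℝ}
    (hn : ∀ j, (n j : ℝ) ≤ G) :
    ((∏ j, (b j : ℝ) ^ n j)) ≤ Real.exp (N * G * Real.log Y) := by
  have hY0 : (0 : ℝ) < (Y : ℝ) := by exact_mod_cast hY
  have hlog : 0 ≤ Real.log Y := Real.log_nonneg (by exact_mod_cast hY)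
  calc ∏ j, (b j : ℝ) ^ n j ≤ ∏ _j : Fin N, Real.exp (G * Real.log Y) := by
        refine Finset.prod_le_prod (fun j _ => by positivity) fun j _ => ?_
        calc (b j : ℝ) ^ n j ≤ (Y : ℝ) ^ n j := by
              exact pow_le_pow_left₀ (Nat.cast_nonneg _) (by exact_mod_cast hb j) _
          _ = Real.exp (n j * Real.log Y) := by
              rw [mul_comm, Real.exp_mul, Real.exp_log hY0, Real.rpow_natCast]
          _ ≤ _ := Real.exp_le_exp.2 (mul_le_mul_of_nonneg_right (hn j) hlog)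
    _ = Real.exp (N * G * Real.log Y) := by
        rw [Finset.prod_const, Finset.card_univ, Fintype.card_fin, ← Real.exp_nat_mul]
        congr 1
        ring

theorem hr_exp {E G : ℝ} {Y : ℕ} {δ : ℝ} (hE : 0 ≤ E) (hG : 0 ≤ G) (hδ : 0 < δ) (hY : 1 ≤ Y)
    (hYl : (E + G) / δ ≤ (Y : ℝ) ^ δ) :
    (Y : ℝ) ^ E * Real.exp (G * (Y : ℝ) ^ δ * Real.log Y) ≤ Real.exp ((Y : ℝ) ^ (3 * δ)) := by
  have hY0 : (0 : ℝ) < (Y : ℝ) := by exact_mod_cast hY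
  have hlog : 0 ≤ Real.log Y := Real.log_nonneg (by exact_mod_cast hY)
  have h2 : (Y : ℝ) ^ E = Real.exp (E * Real.log Y) := by
    rw [mul_comm, Real.exp_mul, Real.exp_log hY0]
  have h3 : Real.log Y ≤ (Y : ℝ) ^ δ / δ := Real.log_le_rpow_div hY0.le hδ
  have h4 : (1 : ℝ) ≤ (Y : ℝ) ^ δ := Real.one_le_rpow (by exact_mod_cast hY) hδ.le
  rw [h2, ← Real.exp_add]
  apply Real.exp_le_exp.2
  have h7 : (Y : ℝ) ^ (3 * δ) = (Y : ℝ) ^ δ * (Y : ℝ) ^ δ * (Y : ℝ) ^ δ := by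
    rw [← Real.rpow_add hY0, ← Real.rpow_add hY0]
    congr 1
    ring
  rw [h7]
  calc E * Real.log Y + G * (Y : ℝ) ^ δ * Real.log Y ≤
        E * (Y : ℝ) ^ δ * Real.log Y + G * (Y : ℝ) ^ δ * Real.log Y := by
        have : E * Real.log Y ≤ E * (Y : ℝ) ^ δ * Real.log Y :=
          mul_le_mul_of_nonneg_right (le_mul_of_one_le_right hE h4) hlog
        linarith
    _ = (E + G) * (Y : ℝ) ^ δ * Real.log Y := by ring
    _ ≤ (E + G) * (Y : ℝ) ^ δ * ((Y : ℝ) ^ δ / δ) :=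
        mul_le_mul_of_nonneg_left h3 (by positivity)
    _ = (E + G) / δ * ((Y : ℝ) ^ δ * (Y : ℝ) ^ δ) := by ring
    _ ≤ (Y : ℝ) ^ δ * ((Y : ℝ) ^ δ * (Y : ℝ) ^ δ) :=
        mul_le_mul_of_nonneg_right hYl (by positivity)
    _ = _ := by ring

/-- multiplying by a common product gives integers -/
theorem zpow_shift {N : ℕ} {b : Fin N → ℕ} (hb : ∀ j, 1 ≤ b j) (F : Fin N → ℕ) (g : Fin N → ℤ)
    (hg : ∀ j, 0 ≤ (F j : ℤ) + g j) :
    (((∏ j, (b j : ℤ) ^ ((F j : ℤ) + g j).toNat : ℤ)) : ℚ) =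
      (∏ j, (b j : ℚ) ^ g j) * ∏ j, (b j : ℚ) ^ F j := by
  rw [← Finset.prod_mul_distrib]
  push_cast
  refine Finset.prod_congr rfl fun j _ => ?_
  have hb0 : (b j : ℚ) ≠ 0 := by
    have := hb j
    exact_mod_cast (by omega : b j ≠ 0)
  rw [← zpow_natCast, Int.toNat_of_nonneg (hg j), ← zpow_natCast (b j : ℚ) (F j),
    ← zpow_add₀ hb0, add_comm]

theorem HrPt.terms {d N E K : ℕ} {δ δ1 : ℝ} {Y : ℕ} {c : Fin (d + 1) → ℤ} {x w : ℚ}
    (h : HrPt d N E K δ Y c x w) (hK : E ≤ K) (hδ : 0 < δ) (hδ1 : 3 * δ ≤ δ1) (hY : 1 ≤ Y)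
    (hYl : ((E : ℝ) + N * (2 * (d + 1))) / δ ≤ (Y : ℝ) ^ δ) {I : Finset (Fin (d + 1))}
    (hI : ∀ i, i ∈ I ↔ c i ≠ 0) : ∃ (P : ℚ) (t : Fin (I.card + 1) → ℤ), P ≠ 0 ∧
      (∀ k, (t k : ℚ) = tr I c x w k * P) ∧ GqPt (I.card + 1) N E δ1 Y (fun _ => 1) t := by
  have hY1 : (1 : ℤ) ≤ (Y : ℤ) := by exact_mod_cast hY
  have hY0 : (0 : ℝ) < (Y : ℝ) := by exact_mod_cast hY
  obtain ⟨hs, hv⟩ := h.tr_nvs (Nat.pow_le_pow_right hY hK) hI
  obtain ⟨hx0, hw0⟩ := h.ne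
  obtain ⟨η, θ, b, e, f, hη, hθ, hb, hef, hx, hw⟩ := h.rep
  have hb0 : ∀ j, (b j : ℚ) ≠ 0 := fun j => by
    have := (hb j).1
    exact_mod_cast (by omega : b j ≠ 0)
  obtain ⟨F, hF⟩ : ∃ F : Fin N → ℕ, F = fun j => d * (e j).natAbs + (f j).natAbs := ⟨_, rfl⟩
  obtain ⟨g, hg⟩ : ∃ g : Fin (I.card + 1) → Fin N → ℤ,
      g = Fin.cons f (fun i j => (sg1 I i : ℕ) * e j) := ⟨_, rfl⟩
  obtain ⟨s, hs'⟩ : ∃ s : Fin (I.card + 1) → ℤ,
      s = Fin.cons θ (fun i => -(c (sg1 I i) * η ^ (sg1 I i : ℕ))) := ⟨_, rfl⟩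
  have hgabs : ∀ k j, (g k j).natAbs ≤ F j := by
    intro k j
    rw [hg, hF]
    refine Fin.cases ?_ (fun i => ?_) k
    · rw [Fin.cons_zero]
      exact Nat.le_add_left _ _
    · rw [Fin.cons_succ, Int.natAbs_mul, Int.natAbs_natCast]
      exact (Nat.mul_le_mul_right _ (Nat.lt_succ_iff.1 (sg1 I i).2)).trans (Nat.le_add_right _ _)
  have hgpos : ∀ k j, 0 ≤ (F j : ℤ) + g k j := by
    intro k j
    have h1 := hgabs k j
    omega
  have hgn : ∀ k j, ((F j : ℤ) + g k j).toNat ≤ 2 * F j := by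
    intro k j
    have h1 := hgabs k j
    omega
  have hFr : ∀ j, ((2 * F j : ℕ) : ℝ) ≤ 2 * (d + 1) * (Y : ℝ) ^ δ := by
    intro j
    have h1 := (hef j).1
    have h2 := (hef j).2
    have h3 : (d : ℝ) * ((e j).natAbs : ℝ) ≤ d * (Y : ℝ) ^ δ :=
      mul_le_mul_of_nonneg_left h1 (Nat.cast_nonneg _)
    rw [hF]
    push_cast at h1 h2 h3 ⊢
    nlinarith
  obtain ⟨t, ht⟩ : ∃ t : Fin (I.card + 1) → ℤ,
      t = fun k => s k * ∏ j, (b j : ℤ) ^ ((F j : ℤ) + g k j).toNat := ⟨_, rfl⟩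
  have hP0 : (∏ j, (b j : ℚ) ^ F j) ≠ 0 := Finset.prod_ne_zero_iff.2 fun j _ =>
    pow_ne_zero _ (hb0 j)
  have htq : ∀ k, (t k : ℚ) = tr I c x w k * ∏ j, (b j : ℚ) ^ F j := by
    intro k
    rw [ht, Int.cast_mul, zpow_shift (fun j => (hb j).1) F (g k) (hgpos k), ← mul_assoc]
    congr 1
    rw [hs', hg]
    refine Fin.cases ?_ (fun i => ?_) k
    · rw [Fin.cons_zero, Fin.cons_zero, tr_zero, hw]
    · rw [Fin.cons_succ, Fin.cons_succ, tr_succ]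
      have e1 : x ^ (sg1 I i : ℕ) = (η : ℚ) ^ (sg1 I i : ℕ) *
          ∏ j, (b j : ℚ) ^ (((sg1 I i : ℕ) : ℤ) * e j) := by
        rw [hx, mul_pow, ← Finset.prod_pow]
        congr 1
        refine Finset.prod_congr rfl fun j _ => ?_
        rw [mul_comm, zpow_mul, zpow_natCast]
      rw [e1]
      push_cast
      ring
  have hsb : ∀ k, |s k| ≤ (Y : ℤ) ^ E := by
    intro k
    rw [hs']
    refine Fin.cases ?_ (fun i => ?_) k
    · rw [Fin.cons_zero, hθ]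
      exact one_le_pow₀ hY1
    · rw [Fin.cons_succ, abs_neg, abs_mul, abs_pow, hη, one_pow, mul_one]
      exact h.c1 _
  have htr0 : ∀ k, tr I c x w k ≠ 0 := by
    intro k
    refine Fin.cases hw0 (fun i => ?_) k
    rw [tr_succ]
    have := (hI _).1 (sg1_mem I i)
    exact neg_ne_zero.2 (mul_ne_zero (by exact_mod_cast this) (pow_ne_zero _ hx0))
  have hsumq : ∀ J : Finset (Fin (I.card + 1)), ((∑ k ∈ J, t k : ℤ) : ℚ) =
      (∑ k ∈ J, tr I c x w k) * ∏ j, (b j : ℚ) ^ F j := by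
    intro J
    push_cast
    rw [Finset.sum_mul]
    exact Finset.sum_congr rfl fun k _ => htq k
  refine ⟨∏ j, (b j : ℚ) ^ F j, t, hP0, htq, fun k => ?_, ?_, fun J h1 h2 h3 => ?_, fun k => ?_,
    ?_⟩
  · intro h0
    have := htq k
    rw [h0, Int.cast_zero] at this
    exact mul_ne_zero (htr0 k) hP0 this.symm
  · simp only [one_mul]
    have := hsumq Finset.univ
    rw [hs, zero_mul] at this
    exact_mod_cast this
  · simp only [one_mul] at h3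
    have := hsumq J
    rw [h3, Int.cast_zero] at this
    exact mul_ne_zero (hv J h1 h2) hP0 this.symm
  · have e1 : ((|t k| : ℤ) : ℝ) = ((|s k| : ℤ) : ℝ) *
        ∏ j, (b j : ℝ) ^ ((F j : ℤ) + g k j).toNat := by
      rw [ht, abs_mul, Finset.abs_prod]
      push_cast
      congr 1
      refine Finset.prod_congr rfl fun j _ => ?_
      rw [abs_pow, Nat.abs_cast]
    rw [e1]
    have e2 : ((|s k| : ℤ) : ℝ) ≤ (Y : ℝ) ^ (E : ℝ) := by
      rw [Real.rpow_natCast]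
      exact_mod_cast hsb k
    have e3 := pow_bound hY (fun j => (hb j).2) (n := fun j => ((F j : ℤ) + g k j).toNat)
      (G := 2 * (d + 1) * (Y : ℝ) ^ δ) (fun j => by
        refine le_trans ?_ (hFr j)
        exact_mod_cast hgn k j)
    have e4 := hr_exp (E := E) (G := N * (2 * (d + 1))) (Nat.cast_nonneg _) (by positivity) hδ hY
      hYl
    refine (mul_le_mul e2 e3 (by positivity) (by positivity)).trans ?_
    refine le_trans ?_ (e4.trans (Real.exp_le_exp.2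
      (Real.rpow_le_rpow_of_exponent_le (by exact_mod_cast hY) hδ1)))
    refine mul_le_mul_of_nonneg_left (Real.exp_le_exp.2 (le_of_eq ?_)) (by positivity)
    ring
  · exact ⟨s, b, fun k j => ((F j : ℤ) + g k j).toNat, hb, hsb, fun k => by rw [ht]⟩

/-- **Near points are equivalent.** -/
theorem hr_near {d N E K C : ℕ} {δ : ℝ} {Y : ℕ} {c c' : Fin (d + 1) → ℤ} {x w x' w' : ℚ}
    (h : HrPt d N E K δ Y c x w) (h' : HrPt d N E K δ Y c' x' w') {I : Finset (Fin (d + 1))}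
    (hI : ∀ i, i ∈ I ↔ c i ≠ 0) (hI' : ∀ i, i ∈ I ↔ c' i ≠ 0) {P P' : ℚ} (hP : P ≠ 0)
    (hP' : P' ≠ 0) {t₁ t₁' : Fin (I.card + 1) → ℤ} (ht : ∀ k, (t₁ k : ℚ) = tr I c x w k * P)
    (ht' : ∀ k, (t₁' k : ℚ) = tr I c' x' w' k * P') (hn : NearP C Y t₁ t₁') (hY : 2 ≤ Y)
    (hK : 1 + E + 2 * (C + 2 * E) * (2 * d + 1) ≤ K) : HrEq c x w c' x' w' := by
  obtain ⟨hx0q, hw0q⟩ := h.ne
  obtain ⟨hx0q', hw0q'⟩ := h'.ne
  have hnq : ∀ k l, ∃ r r' : ℤ, r ≠ 0 ∧ r' ≠ 0 ∧ |r| ≤ ((Y : ℤ) + 2) ^ C ∧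
      |r'| ≤ ((Y : ℤ) + 2) ^ C ∧ (r : ℚ) * (tr I c x w k * tr I c' x' w' l) =
        r' * (tr I c' x' w' k * tr I c x w l) := by
    intro k l
    obtain ⟨r, r', h1, h2, h3, h4, h5⟩ := hn k l
    refine ⟨r, r', h1, h2, h3, h4, ?_⟩
    have h6 : ((r * (t₁ k * t₁' l) : ℤ) : ℚ) = ((r' * (t₁' k * t₁ l) : ℤ) : ℚ) := by
      exact_mod_cast h5
    push_cast at h6
    rw [ht, ht, ht', ht'] at h6
    refine mul_right_cancel₀ (mul_ne_zero hP hP') ?_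
    linear_combination h6
  obtain ⟨B, hB⟩ : ∃ B : ℕ, B = (Y + 2) ^ (C + 2 * E) := ⟨_, rfl⟩
  have hYE : ∀ z : ℤ, |z| ≤ (Y : ℤ) ^ E → |z| ≤ ((Y : ℤ) + 2) ^ E := fun z hz =>
    hz.trans (pow_le_pow_left₀ (by positivity) (by omega) _)
  have hbd : ∀ r z z' : ℤ, |r| ≤ ((Y : ℤ) + 2) ^ C → |z| ≤ (Y : ℤ) ^ E → |z'| ≤ (Y : ℤ) ^ E →
      |r * z * z'| ≤ (B : ℤ) := by
    intro r z z' hr hz hz'
    rw [hB]
    push_cast
    rw [abs_mul, abs_mul, pow_add, pow_mul', pow_two, ← mul_assoc]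
    exact mul_le_mul (mul_le_mul hr (hYE z hz) (abs_nonneg _) (by positivity)) (hYE z' hz')
      (abs_nonneg _) (by positivity)
  have hbd1 : ∀ r z : ℤ, |r| ≤ ((Y : ℤ) + 2) ^ C → |z| ≤ (Y : ℤ) ^ E → |r * z| ≤ (B : ℤ) := by
    intro r z hr hz
    have := hbd r z 1 hr hz (by
      rw [abs_one]
      exact one_le_pow₀ (by exact_mod_cast (by omega : 1 ≤ Y)))
    rwa [mul_one] at this
  obtain ⟨i0, i1, hi01, hci0, hci1⟩ := h.nc
  obtain ⟨j0, hj0⟩ := sg1_surj I ((hI i0).2 hci0)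
  obtain ⟨j1, hj1⟩ := sg1_surj I ((hI i1).2 hci1)
  have hci0' : c' i0 ≠ 0 := (hI' i0).1 ((hI i0).2 hci0)
  have hci1' : c' i1 ≠ 0 := (hI' i1).1 ((hI i1).2 hci1)
  obtain ⟨m, hm⟩ : ∃ m : ℕ, (i1 : ℕ) = i0 + m := ⟨(i1 : ℕ) - i0, by omega⟩
  -- the quotient of the `x`
  obtain ⟨r, r', r1, r2, r3, r4, r5⟩ := hnq j1.succ j0.succ
  rw [tr_succ, tr_succ, tr_succ, tr_succ, hj1, hj0, hm] at r5
  obtain ⟨ρ, hρ⟩ : ∃ ρ : ℚ, ρ = x / x' := ⟨_, rfl⟩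
  have hρ0 : ρ ≠ 0 := by
    rw [hρ]
    exact div_ne_zero hx0q hx0q'
  have hρx : x = ρ * x' := by
    rw [hρ]
    field_simp
  have hP0 : r * c' i0 * c i1 ≠ 0 := mul_ne_zero (mul_ne_zero r1 hci0') hci1
  have hρB : hh ρ ≤ B := by
    have e1 : HtLe B (ρ ^ m) := by
      refine HtLe.of_div (A := r' * c i0 * c' i1) (B := r * c' i0 * c i1) hP0 ?_
        (hbd _ _ _ r4 (h.c1 i0) (h'.c1 i1)) (hbd _ _ _ r3 (h'.c1 i0) (h.c1 i1))
      have hP0q : ((r * c' i0 * c i1 : ℤ) : ℚ) ≠ 0 := by exact_mod_cast hP0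
      rw [eq_div_iff hP0q, hρ, div_pow, div_mul_eq_mul_div, div_eq_iff (pow_ne_zero _ hx0q')]
      have hxx : x ^ (i0 : ℕ) * x' ^ (i0 : ℕ) ≠ 0 :=
        mul_ne_zero (pow_ne_zero _ hx0q) (pow_ne_zero _ hx0q')
      refine mul_left_cancel₀ hxx ?_
      push_cast
      rw [pow_add, pow_add] at r5
      linear_combination r5
    have e2 := hh_pow e1
    refine (Nat.le_self_pow ?_ _).trans e2
    omega
  -- the quotient of the `w`
  obtain ⟨t, t', t1, t2, t3, t4, t5⟩ := hnq 0 j0.succ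
  rw [tr_succ, tr_succ, tr_zero, tr_zero, hj0] at t5
  obtain ⟨κ, hκ⟩ : ∃ κ : ℚ, κ = w / w' := ⟨_, rfl⟩
  have hκw : w = κ * w' := by
    rw [hκ]
    field_simp
  have hB1' : 1 ≤ B := (htLe_iff.2 hρB).one_le
  have hκB : HtLe (B ^ (d + 1)) κ := by
    have hQ0 : t * c' i0 ≠ 0 := mul_ne_zero t1 hci0'
    have e1 : HtLe B (((t' * c i0 : ℤ) : ℚ) / ((t * c' i0 : ℤ) : ℚ)) :=
      HtLe.of_div (A := t' * c i0) (B := t * c' i0) hQ0 rfl
        (hbd1 _ _ t4 (h.c1 i0)) (hbd1 _ _ t3 (h'.c1 i0))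
    have e2 : κ = ((t' * c i0 : ℤ) : ℚ) / ((t * c' i0 : ℤ) : ℚ) * ρ ^ (i0 : ℕ) := by
      have hQ0q : ((t * c' i0 : ℤ) : ℚ) ≠ 0 := by exact_mod_cast hQ0
      rw [hκ, hρ, div_pow, div_mul_div_comm, div_eq_div_iff hw0q'
        (mul_ne_zero hQ0q (pow_ne_zero _ hx0q'))]
      push_cast
      linear_combination -t5
    rw [e2, pow_succ']
    refine (e1.mul ((htLe_iff.2 hρB).pow (i0 : ℕ))).mono ?_
    exact Nat.mul_le_mul_left _ (Nat.pow_le_pow_right hB1' (Nat.lt_succ_iff.1 i0.2))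
  refine ⟨ρ, κ, hρx, hκw, ?_⟩
  -- the identity
  have ρ1 := Rat.mul_den_eq_num ρ
  have κ1 := Rat.mul_den_eq_num κ
  have hρd : (ρ.den : ℚ) ≠ 0 := by exact_mod_cast ρ.den_nz
  have hκd : (κ.den : ℚ) ≠ 0 := by exact_mod_cast κ.den_nz
  obtain ⟨z, hz⟩ : ∃ z : Fin (d + 1) → ℤ, z = fun i => (κ.den : ℤ) *
    (c i * (ρ.num ^ (i : ℕ) * (ρ.den : ℤ) ^ (d - (i : ℕ)))) - κ.num * (c' i * (ρ.den : ℤ) ^ d) :=
    ⟨_, rfl⟩
  have hzq : ∀ i, ((z i : ℤ) : ℚ) = (κ.den : ℚ) * (ρ.den : ℚ) ^ d *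
      ((c i : ℚ) * ρ ^ (i : ℕ) - κ * c' i) := by
    intro i
    have hi : (i : ℕ) ≤ d := Nat.lt_succ_iff.1 i.2
    have e1 : (ρ.den : ℚ) ^ d = (ρ.den : ℚ) ^ (i : ℕ) * (ρ.den : ℚ) ^ (d - (i : ℕ)) := by
      rw [← pow_add]
      congr 1
      omega
    rw [hz]
    push_cast
    rw [← ρ1, ← κ1, e1, mul_pow]
    ring
  have hzsum : ∑ i, (z i : ℚ) * x' ^ (i : ℕ) = 0 := by
    have e2 : ∀ i : Fin (d + 1), ((z i : ℤ) : ℚ) * x' ^ (i : ℕ) =
        (κ.den : ℚ) * (ρ.den : ℚ) ^ d *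
          ((c i : ℚ) * x ^ (i : ℕ) - κ * ((c' i : ℚ) * x' ^ (i : ℕ))) := by
      intro i
      rw [hzq i, hρx, mul_pow]
      ring
    rw [Finset.sum_congr rfl fun i _ => e2 i, ← Finset.mul_sum, Finset.sum_sub_distrib,
      ← Finset.mul_sum, ← h.val, ← h'.val, hκw, sub_self, mul_zero]
  have hBY : B ≤ Y ^ (2 * (C + 2 * E)) := by
    rw [hB, pow_mul]
    refine Nat.pow_le_pow_left ?_ _
    nlinarith
  have hzb : ∀ i, |z i| < (hh x' : ℤ) := by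
    intro i
    have htall : (Y : ℤ) ^ K < (hh x' : ℤ) := by exact_mod_cast h'.tall
    refine lt_of_le_of_lt ?_ htall
    have hρn : |ρ.num| ≤ (B : ℤ) := (htLe_iff.2 hρB).1
    have hρd' : |((ρ.den : ℕ) : ℤ)| ≤ (B : ℤ) := (htLe_iff.2 hρB).den_abs
    have hκn : |κ.num| ≤ (B : ℤ) ^ (d + 1) := by
      have := hκB.1
      exact_mod_cast this
    have hκd' : |((κ.den : ℕ) : ℤ)| ≤ (B : ℤ) ^ (d + 1) := by
      have := hκB.den_abs
      exact_mod_cast this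
    have hB1 : (1 : ℤ) ≤ (B : ℤ) := by
      exact_mod_cast (htLe_iff.2 hρB).one_le
    have hi : (i : ℕ) ≤ d := Nat.lt_succ_iff.1 i.2
    have m1 : |(κ.den : ℤ) * (c i * (ρ.num ^ (i : ℕ) * (ρ.den : ℤ) ^ (d - (i : ℕ))))| ≤
        (B : ℤ) ^ (d + 1) * ((Y : ℤ) ^ E * (B : ℤ) ^ d) := by
      rw [abs_mul, abs_mul, abs_mul, abs_pow, abs_pow]
      refine mul_le_mul hκd' (mul_le_mul (h.c1 i) ?_ (by positivity) (by positivity))
        (by positivity) (by positivity)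
      calc |ρ.num| ^ (i : ℕ) * |((ρ.den : ℕ) : ℤ)| ^ (d - (i : ℕ)) ≤
            (B : ℤ) ^ (i : ℕ) * (B : ℤ) ^ (d - (i : ℕ)) :=
            mul_le_mul (pow_le_pow_left₀ (abs_nonneg _) hρn _)
              (pow_le_pow_left₀ (abs_nonneg _) hρd' _) (by positivity) (by positivity)
        _ = (B : ℤ) ^ d := by
            rw [← pow_add]
            congr 1
            omega
    have m2 : |κ.num * (c' i * (ρ.den : ℤ) ^ d)| ≤
        (B : ℤ) ^ (d + 1) * ((Y : ℤ) ^ E * (B : ℤ) ^ d) := by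
      rw [abs_mul, abs_mul, abs_pow]
      exact mul_le_mul hκn (mul_le_mul (h'.c1 i) (pow_le_pow_left₀ (abs_nonneg _) hρd' _)
        (by positivity) (by positivity)) (by positivity) (by positivity)
    calc |z i| ≤ (B : ℤ) ^ (d + 1) * ((Y : ℤ) ^ E * (B : ℤ) ^ d) +
          (B : ℤ) ^ (d + 1) * ((Y : ℤ) ^ E * (B : ℤ) ^ d) := by
          rw [hz]
          exact (abs_sub _ _).trans (add_le_add m1 m2)
      _ = 2 * (Y : ℤ) ^ E * (B : ℤ) ^ (2 * d + 1) := by ring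
      _ ≤ (Y : ℤ) * (Y : ℤ) ^ E * ((Y : ℤ) ^ (2 * (C + 2 * E))) ^ (2 * d + 1) := by
          refine mul_le_mul (mul_le_mul_of_nonneg_right (by exact_mod_cast hY) (by positivity))
            (pow_le_pow_left₀ (by positivity) ?_ _) (by positivity) (by positivity)
          exact_mod_cast hBY
      _ = (Y : ℤ) ^ (1 + E + 2 * (C + 2 * E) * (2 * d + 1)) := by
          rw [← pow_mul, pow_add, pow_add, pow_one]
      _ ≤ (Y : ℤ) ^ K := pow_le_pow_right₀ (by exact_mod_cast (by omega : 1 ≤ Y)) hK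
  have hz0 := rdigits (d + 1) z x' hzb hzsum
  intro i
  have e1 := hzq i
  rw [hz0 i, Int.cast_zero] at e1
  rcases mul_eq_zero.1 e1.symm with e2 | e2
  · exact absurd e2 (mul_ne_zero hκd (pow_ne_zero _ hρd))
  · linarith

end Pool.Agent.Y902.GN
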