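import Mathlib
import Pool.Agent.Y902.GN.Hr2

/-!
# Values of polynomials at rational numbers generated by few integers: the count
-/

set_option autoImplicit false

namespace Pool.Agent.Y902.GN

theorem htLe_cast {b : ℕ} (hb : 1 ≤ b) : HtLe b (b : ℚ) := by
  refine ⟨?_, ?_⟩
  · rw [Rat.num_natCast, Nat.abs_cast]
  · rw [Rat.den_natCast]
    exact hb

theorem HrPt.small {d N E K : ℕ} {δ : ℝ} {Y : ℕ} {c : Fin (d + 1) → ℤ} {x w : ℚ}
    (h : HrPt d N E K δ Y c x w) (hδ : δ ≤ 1) (hY : 1 ≤ Y) : K < N * Y := by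
  obtain ⟨η, θ, b, e, f, hη, hθ, hb, hef, hx, hw⟩ := h.rep
  have hYr : (1 : ℝ) ≤ (Y : ℝ) := by exact_mod_cast hY
  have he : ∀ j, (e j).natAbs ≤ Y := by
    intro j
    have h1 := (hef j).1
    have h2 : (Y : ℝ) ^ δ ≤ Y := by
      calc (Y : ℝ) ^ δ ≤ (Y : ℝ) ^ (1 : ℝ) := Real.rpow_le_rpow_of_exponent_le hYr hδ
        _ = _ := Real.rpow_one _
    exact_mod_cast h1.trans h2
  have hb0 : ∀ j, (b j : ℚ) ≠ 0 := fun j => by
    have := (hb j).1
    exact_mod_cast (by omega : b j ≠ 0)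
  have h1 : HtLe (∏ j, b j ^ (e j).natAbs) (∏ j, (b j : ℚ) ^ e j) :=
    HtLe.prod Finset.univ _ _ fun j _ => (htLe_cast (hb j).1).zpow (hb0 j) _
  have h2 : HtLe 1 (η : ℚ) := by
    refine ⟨?_, ?_⟩
    · rw [Rat.num_intCast, hη]
      simp
    · rw [Rat.den_intCast]
  have h3 : hh x ≤ Y ^ (N * Y) := by
    have h4 := htLe_iff.1 (h2.mul h1)
    rw [← hx, one_mul] at h4
    refine h4.trans ?_
    calc ∏ j, b j ^ (e j).natAbs ≤ ∏ _j : Fin N, Y ^ Y := by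
          refine Finset.prod_le_prod (fun j _ => Nat.zero_le _) fun j _ => ?_
          exact (Nat.pow_le_pow_left (hb j).2 _).trans (Nat.pow_le_pow_right hY (he j))
      _ = Y ^ (N * Y) := by
          rw [Finset.prod_const, Finset.card_univ, Fintype.card_fin, ← pow_mul, mul_comm]
  by_contra hcon
  push Not at hcon
  have := h.tall
  exact absurd (h3.trans (Nat.pow_le_pow_right hY hcon)) (not_le.2 this)

/-- **Few classes.** -/
theorem hr (d N E : ℕ) (ε : ℝ) (hε : 0 < ε) : ∃ (K : ℕ) (δ : ℝ), 0 < δ ∧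
    ∀ (Y : ℕ), 2 ≤ Y → ∀ (T : Finset ((Fin (d + 1) → ℤ) × ℚ × ℚ)),
      (∀ t ∈ T, HrPt d N E K δ Y t.1 t.2.1 t.2.2) →
      (∀ t ∈ T, ∀ t' ∈ T, t ≠ t' → ¬ HrEq t.1 t.2.1 t.2.2 t'.1 t'.2.1 t'.2.2) →
      (T.card : ℝ) ≤ (Y : ℝ) ^ ε := by
  classical
  have hgq := fun n : ℕ => gq n N E (ε / 2) (by positivity)
  choose C δ' hδ' H using hgq
  have hne : (Finset.range (d + 3)).Nonempty := ⟨0, Finset.mem_range.2 (by omega)⟩
  obtain ⟨δ1, hδ1, hδ1'⟩ : ∃ δ1 : ℝ, 0 < δ1 ∧ ∀ n ∈ Finset.range (d + 3), δ1 ≤ δ' n :=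
    ⟨(Finset.range (d + 3)).inf' hne δ', (Finset.lt_inf'_iff hne).2 fun n _ => hδ' n,
      fun n hn => Finset.inf'_le _ hn⟩
  obtain ⟨C1, hC1⟩ : ∃ C1 : ℕ, ∀ n ∈ Finset.range (d + 3), C n ≤ C1 :=
    ⟨∑ n ∈ Finset.range (d + 3), C n, fun n hn =>
      Finset.single_le_sum (f := C) (fun _ _ => Nat.zero_le _) hn⟩
  obtain ⟨δ, hδ, hδa, hδb⟩ : ∃ δ : ℝ, 0 < δ ∧ 3 * δ ≤ δ1 ∧ δ ≤ 1 :=
    ⟨min (δ1 / 3) 1, by positivity, by
      have := min_le_left (δ1 / 3) 1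
      linarith, min_le_right _ _⟩
  obtain ⟨Y1, hY1⟩ : ∃ Y1 : ℕ, Y1 = ⌈(((E : ℝ) + N * (2 * (d + 1))) / δ) ^ (1 / δ)⌉₊ +
      ⌈((2 : ℝ) ^ (d + 1)) ^ (2 / ε)⌉₊ := ⟨_, rfl⟩
  obtain ⟨K, hKd⟩ : ∃ K : ℕ, K = 1 + E + 2 * (C1 + 2 * E) * (2 * d + 1) + N * Y1 := ⟨_, rfl⟩
  refine ⟨K, δ, hδ, fun Y hY T hT hne' => ?_⟩
  have hYr : (1 : ℝ) ≤ (Y : ℝ) := by exact_mod_cast (by omega : 1 ≤ Y)
  have hY0 : (0 : ℝ) < (Y : ℝ) := by linarith
  rcases T.eq_empty_or_nonempty with rfl | ⟨t0, ht0⟩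
  · rw [Finset.card_empty, Nat.cast_zero]
    positivity
  have hYY1 : Y1 ≤ Y := by
    by_contra hcon
    push Not at hcon
    have h1 := (hT t0 ht0).small hδb (by omega)
    have h2 : N * Y ≤ N * Y1 := Nat.mul_le_mul_left _ hcon.le
    omega
  have hYl : ((E : ℝ) + N * (2 * (d + 1))) / δ ≤ (Y : ℝ) ^ δ := by
    have h1 : (((E : ℝ) + N * (2 * (d + 1))) / δ) ^ (1 / δ) ≤ (Y : ℝ) := by
      refine (Nat.le_ceil _).trans ?_
      exact_mod_cast (by omega : ⌈(((E : ℝ) + N * (2 * (d + 1))) / δ) ^ (1 / δ)⌉₊ ≤ Y)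
    have h2 := Real.rpow_le_rpow (by positivity) h1 hδ.le
    rwa [← Real.rpow_mul (by positivity), one_div_mul_cancel hδ.ne', Real.rpow_one] at h2
  have h2d : (2 : ℝ) ^ (d + 1) ≤ (Y : ℝ) ^ (ε / 2) := by
    have h1 : ((2 : ℝ) ^ (d + 1)) ^ (2 / ε) ≤ (Y : ℝ) := by
      refine (Nat.le_ceil _).trans ?_
      exact_mod_cast (by omega : ⌈((2 : ℝ) ^ (d + 1)) ^ (2 / ε)⌉₊ ≤ Y)
    have h2 := Real.rpow_le_rpow (by positivity) h1 (show (0 : ℝ) ≤ ε / 2 by positivity)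
    rwa [← Real.rpow_mul (by positivity), show 2 / ε * (ε / 2) = 1 by field_simp,
      Real.rpow_one] at h2
  obtain ⟨su, hsu⟩ : ∃ su : (Fin (d + 1) → ℤ) × ℚ × ℚ → Finset (Fin (d + 1)), su = fun t =>
      Finset.univ.filter fun i => t.1 i ≠ 0 := ⟨_, rfl⟩
  have hsu' : ∀ t i, i ∈ su t ↔ t.1 i ≠ 0 := by
    intro t i
    rw [hsu]
    simp
  have hfib : ∀ I ∈ T.image su, (T.filter fun t => su t = I).card ≤ ⌊(Y : ℝ) ^ (ε / 2)⌋₊ := by
    intro I _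
    apply Nat.le_floor
    have hIr : I.card + 1 ∈ Finset.range (d + 3) := by
      have h1 : I.card ≤ d + 1 := (Finset.card_le_univ I).trans (by simp)
      exact Finset.mem_range.2 (by omega)
    have hex : ∀ t : (Fin (d + 1) → ℤ) × ℚ × ℚ, ∃ (P : ℚ) (v : Fin (I.card + 1) → ℤ),
        t ∈ T.filter (fun t => su t = I) → P ≠ 0 ∧
        (∀ k, (v k : ℚ) = tr I t.1 t.2.1 t.2.2 k * P) ∧
        GqPt (I.card + 1) N E δ1 Y (fun _ => 1) v := by
      intro t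
      by_cases ht : t ∈ T.filter (fun t => su t = I)
      · obtain ⟨h1, h2⟩ := Finset.mem_filter.1 ht
        obtain ⟨P, v, h3, h4, h5⟩ := (hT t h1).terms (by omega) hδ hδa (by omega) hYl (I := I)
          (fun i => by rw [← h2, hsu'])
        exact ⟨P, v, fun _ => ⟨h3, h4, h5⟩⟩
      · exact ⟨0, 0, fun h => absurd h ht⟩
    choose P v hPv using hex
    have hnear : ∀ t ∈ T.filter (fun t => su t = I), ∀ t' ∈ T.filter (fun t => su t = I),
        NearP (C (I.card + 1)) Y (v t) (v t') → t = t' := by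
      intro t ht t' ht' hn
      obtain ⟨h1, h2⟩ := Finset.mem_filter.1 ht
      obtain ⟨h3, h4⟩ := Finset.mem_filter.1 ht'
      obtain ⟨g1, g2, _⟩ := hPv t ht
      obtain ⟨g1', g2', _⟩ := hPv t' ht'
      by_contra hcon
      refine hne' t h1 t' h3 hcon (hr_near (hT t h1) (hT t' h3) (fun i => by rw [← h2, hsu'])
        (fun i => by rw [← h4, hsu']) g1 g1' g2 g2' hn hY ?_)
      have h5 := hC1 _ hIr
      rw [hKd]
      have h6 : 2 * (C (I.card + 1) + 2 * E) * (2 * d + 1) ≤ 2 * (C1 + 2 * E) * (2 * d + 1) := by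
        gcongr
      omega
    have hinj : Set.InjOn v
        (T.filter fun t => su t = I : Finset ((Fin (d + 1) → ℤ) × ℚ × ℚ)) := by
      intro t ht t' ht' htt
      refine hnear t (Finset.mem_coe.1 ht) t' (Finset.mem_coe.1 ht') ?_
      rw [htt]
      exact NearP.refl _ _ _
    rw [← Finset.card_image_of_injOn hinj]
    refine H (I.card + 1) Y (by omega) (fun _ => 1) (fun _ => ⟨one_ne_zero, by
      simp only [abs_one, Int.cast_one]
      exact Real.one_le_exp (by positivity)⟩) _ ?_ ?_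
    · intro a ha
      obtain ⟨t, ht, rfl⟩ := Finset.mem_image.1 ha
      have h3 := (hPv t ht).2.2
      exact ⟨h3.nz, h3.sum, h3.nvs, fun i => (h3.hi i).trans (Real.exp_le_exp.2
        (Real.rpow_le_rpow_of_exponent_le hYr (hδ1' _ hIr))), h3.rep⟩
    · intro a ha a' ha' haa hn
      obtain ⟨t, ht, rfl⟩ := Finset.mem_image.1 ha
      obtain ⟨t', ht', rfl⟩ := Finset.mem_image.1 ha'
      exact haa (by rw [hnear t ht t' ht' hn])
  have hfin := Finset.card_le_mul_card_image (f := su) T ⌊(Y : ℝ) ^ (ε / 2)⌋₊ hfib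
  have himg : ((T.image su).card : ℝ) ≤ (2 : ℝ) ^ (d + 1) := by
    have h1 : (T.image su).card ≤ 2 ^ (d + 1) := by
      refine (Finset.card_le_univ _).trans ?_
      simp
    exact_mod_cast h1
  calc (T.card : ℝ) ≤ ((⌊(Y : ℝ) ^ (ε / 2)⌋₊ * (T.image su).card : ℕ) : ℝ) := by
        exact_mod_cast hfin
    _ = (⌊(Y : ℝ) ^ (ε / 2)⌋₊ : ℝ) * ((T.image su).card : ℝ) := by push_cast; rfl
    _ ≤ (Y : ℝ) ^ (ε / 2) * (Y : ℝ) ^ (ε / 2) :=
        mul_le_mul (Nat.floor_le (by positivity)) (himg.trans h2d) (by positivity) (by positivity)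
    _ = (Y : ℝ) ^ ε := by
        rw [← Real.rpow_add hY0]
        congr 1
        ring

end Pool.Agent.Y902.GN
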