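import Mathlib
import Pool.Agent.Y902.GN.Mk

/-!
# Rational points on dilated subvarieties of a torus
-/

set_option autoImplicit false

namespace Pool.Agent.Y902.GN

/-- a character -/
def ch {n : ℕ} (χ : Fin n → ℤ) (x : Fin n → ℚ) : ℚ := ∏ j, x j ^ χ j

theorem ch_ne {n : ℕ} (χ : Fin n → ℤ) {x : Fin n → ℚ} (hx : ∀ j, x j ≠ 0) : ch χ x ≠ 0 :=
  Finset.prod_ne_zero_iff.2 fun j _ => zpow_ne_zero _ (hx j)

theorem ch_add {n : ℕ} (χ ψ : Fin n → ℤ) {x : Fin n → ℚ} (hx : ∀ j, x j ≠ 0) :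
    ch (χ + ψ) x = ch χ x * ch ψ x := by
  unfold ch
  rw [← Finset.prod_mul_distrib]
  exact Finset.prod_congr rfl fun j _ => by rw [Pi.add_apply, zpow_add₀ (hx j)]

theorem ch_zero {n : ℕ} (x : Fin n → ℚ) : ch 0 x = 1 := by
  unfold ch
  simp

theorem ch_sub {n : ℕ} (χ ψ : Fin n → ℤ) {x : Fin n → ℚ} (hx : ∀ j, x j ≠ 0) :
    ch (χ - ψ) x = ch χ x / ch ψ x := by
  rw [eq_div_iff (ch_ne ψ hx), ← ch_add _ _ hx, sub_add_cancel]

theorem ch_neg {n : ℕ} (χ : Fin n → ℤ) {x : Fin n → ℚ} (hx : ∀ j, x j ≠ 0) :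
    ch (-χ) x = (ch χ x)⁻¹ := by
  rw [← zero_sub, ch_sub _ _ hx, ch_zero, one_div]

theorem ch_mul {n : ℕ} (χ : Fin n → ℤ) (x y : Fin n → ℚ) :
    ch χ (fun j => x j * y j) = ch χ x * ch χ y := by
  unfold ch
  rw [← Finset.prod_mul_distrib]
  exact Finset.prod_congr rfl fun j _ => by rw [mul_zpow]

theorem ch_pow {n : ℕ} (d : ℕ) (χ : Fin n → ℤ) (x : Fin n → ℚ) :
    ∏ j, x j ^ ((d : ℤ) * χ j) = ch χ x ^ d := by
  unfold ch
  rw [← Finset.prod_pow]
  refine Finset.prod_congr rfl fun j _ => ?_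
  rw [mul_comm, zpow_mul, zpow_natCast]

theorem ch_closure {n : ℕ} {S : Set (Fin n → ℤ)} {x y : Fin n → ℚ} (hx : ∀ j, x j ≠ 0)
    (hy : ∀ j, y j ≠ 0) (h : ∀ χ ∈ S, ch χ x = ch χ y) :
    ∀ χ ∈ AddSubgroup.closure S, ch χ x = ch χ y := by
  intro χ hχ
  induction hχ using AddSubgroup.closure_induction with
  | mem χ hχ => exact h χ hχ
  | zero => rw [ch_zero, ch_zero]
  | add χ ψ _ _ h1 h2 => rw [ch_add _ _ hx, ch_add _ _ hy, h1, h2]
  | neg χ _ h1 => rw [ch_neg _ hx, ch_neg _ hy, h1]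

/-- numerators and denominators -/
def tp {n : ℕ} (x : Fin n → ℚ) : Fin (n + n) → ℤ :=
  Fin.append (fun j => (x j).num) (fun j => ((x j).den : ℤ))

/-- the exponents -/
def tg {n M : ℕ} (a : Fin M → Fin n → ℤ) (D : ℕ) : Fin M → Fin (n + n) → ℕ := fun i =>
  Fin.append (fun j => ((D : ℤ) + a i j).toNat) (fun j => ((D : ℤ) - a i j).toNat)

/-- the common factor -/
def tc {n : ℕ} (x : Fin n → ℚ) : ℚ := ∏ j, (((x j).num : ℚ) * ((x j).den : ℚ))

theorem tc_ne {n : ℕ} {x : Fin n → ℚ} (hx : ∀ j, x j ≠ 0) : tc x ≠ 0 := by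
  refine Finset.prod_ne_zero_iff.2 fun j _ => mul_ne_zero ?_ ?_
  · exact_mod_cast Rat.num_ne_zero.2 (hx j)
  · exact_mod_cast (x j).den_nz

theorem mm_tp {n M : ℕ} {a : Fin M → Fin n → ℤ} {D : ℕ} (hD : ∀ i j, |a i j| ≤ (D : ℤ))
    {x : Fin n → ℚ} (hx : ∀ j, x j ≠ 0) (i : Fin M) :
    ((mm (tg a D i) (tp x) : ℤ) : ℚ) = ch (a i) x * tc x ^ D := by
  unfold mm tg tp ch tc
  rw [Fin.prod_univ_add]
  simp only [Fin.append_left, Fin.append_right]
  rw [← Finset.prod_mul_distrib, ← Finset.prod_pow, ← Finset.prod_mul_distrib]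
  push_cast
  refine Finset.prod_congr rfl fun j _ => ?_
  have h1 := abs_le.1 (hD i j)
  have e1 : ((((D : ℤ) + a i j).toNat : ℕ) : ℤ) = (D : ℤ) + a i j :=
    Int.toNat_of_nonneg (by linarith [h1.1])
  have e2 : ((((D : ℤ) - a i j).toNat : ℕ) : ℤ) = (D : ℤ) - a i j :=
    Int.toNat_of_nonneg (by linarith [h1.2])
  have n1 : ((x j).num : ℚ) ≠ 0 := by exact_mod_cast Rat.num_ne_zero.2 (hx j)
  have n2 : ((x j).den : ℚ) ≠ 0 := by exact_mod_cast (x j).den_nz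
  have e3 : x j = ((x j).num : ℚ) / ((x j).den : ℚ) := (Rat.num_div_den (x j)).symm
  calc ((x j).num : ℚ) ^ ((D : ℤ) + a i j).toNat * ((x j).den : ℚ) ^ ((D : ℤ) - a i j).toNat
      = ((x j).num : ℚ) ^ ((D : ℤ) + a i j) * ((x j).den : ℚ) ^ ((D : ℤ) - a i j) := by
        rw [← e1, ← e2, zpow_natCast, zpow_natCast, e1, e2]
    _ = (((x j).num : ℚ) / ((x j).den : ℚ)) ^ a i j *
          (((x j).num : ℚ) * ((x j).den : ℚ)) ^ D := by
        rw [zpow_add₀ n1, zpow_sub₀ n2, div_zpow, mul_pow, zpow_natCast, zpow_natCast]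
        field_simp
    _ = x j ^ a i j * (((x j).num : ℚ) * ((x j).den : ℚ)) ^ D := by rw [← e3]

/-- the value at `x` of the Laurent polynomial `∑ c i * x ^ (d * a i)` -/
def lau {n M : ℕ} (c : Fin M → ℤ) (a : Fin M → Fin n → ℤ) (d : ℕ) (x : Fin n → ℚ) : ℚ :=
  ∑ i, (c i : ℚ) * ∏ j, x j ^ ((d : ℤ) * a i j)

theorem lau_ch {n M : ℕ} (c : Fin M → ℤ) (a : Fin M → Fin n → ℤ) (d : ℕ) (x : Fin n → ℚ) :
    lau c a d x = ∑ i, (c i : ℚ) * ch (a i) x ^ d := by
  unfold lau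
  exact Finset.sum_congr rfl fun i _ => by rw [ch_pow]

theorem term_tp {n M : ℕ} {a : Fin M → Fin n → ℤ} {D : ℕ} (hD : ∀ i j, |a i j| ≤ (D : ℤ))
    {x : Fin n → ℚ} (hx : ∀ j, x j ≠ 0) (d : ℕ) (u s : Fin M → ℤ) (i : Fin M) :
    ((u i * (s i * mm (tg a D i) (tp x) ^ d) : ℤ) : ℚ) =
      (((u i * s i : ℤ) : ℚ) * ch (a i) x ^ d) * (tc x ^ D) ^ d := by
  push_cast
  rw [mm_tp hD hx]
  ring

theorem sum_tp {n M : ℕ} {a : Fin M → Fin n → ℤ} {D : ℕ} (hD : ∀ i j, |a i j| ≤ (D : ℤ))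
    {x : Fin n → ℚ} (hx : ∀ j, x j ≠ 0) (d : ℕ) (u s : Fin M → ℤ) (K : Finset (Fin M)) :
    ∑ i ∈ K, u i * (s i * mm (tg a D i) (tp x) ^ d) = 0 ↔
      ∑ i ∈ K, ((u i * s i : ℤ) : ℚ) * ch (a i) x ^ d = 0 := by
  rw [← Int.cast_eq_zero (α := ℚ), Int.cast_sum, Finset.sum_congr rfl fun i _ =>
    term_tp hD hx d u s i, ← Finset.sum_mul]
  exact ⟨fun h => (mul_eq_zero.1 h).resolve_right (pow_ne_zero _ (pow_ne_zero _ (tc_ne hx))),
    fun h => by rw [h, zero_mul]⟩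

/-- the points of the torus on which the system vanishes -/
def TorZero {n M r : ℕ} (c : Fin r → Fin M → ℤ) (a : Fin M → Fin n → ℤ) (d : ℕ) :
    Set (Fin n → ℚ) := {x | (∀ j, x j ≠ 0) ∧ ∀ k, lau (c k) a d x = 0}

/-- the translate by `g` of the algebraic subgroup of the torus defined by the characters in `H` -/
def Coset {n : ℕ} (g : Fin n → ℚ) (H : AddSubgroup (Fin n → ℤ)) : Set (Fin n → ℚ) :=
  {z | (∀ j, z j ≠ 0) ∧ ∀ χ ∈ H, ∏ j, z j ^ χ j = ∏ j, g j ^ χ j}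

/-- the group of characters of a pattern -/
def pgr {n M r : ℕ} (a : Fin M → Fin n → ℤ) (P : Fin r → Finset (Finset (Fin M))) :
    AddSubgroup (Fin n → ℤ) :=
  AddSubgroup.closure {χ | ∃ i i', Same P i i' ∧ χ = a i - a i'}

/-- the coset is contained in the zero set -/
theorem coset_sub {n M r d : ℕ} {a : Fin M → Fin n → ℤ} {D : ℕ}
    (hD : ∀ i j, |a i j| ≤ (D : ℤ)) {u s : Fin r → Fin M → ℤ} {x : Fin n → ℚ}
    (hx : ∀ j, x j ≠ 0) {P : Fin r → Finset (Finset (Fin M))}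
    (hP : ∀ k, MPat (u k) (tg a D) d (s k) (tp x) (P k)) {z : Fin n → ℚ}
    (hz : z ∈ Coset x (pgr a P)) : z ∈ TorZero (fun k i => u k i * s k i) a d := by
  classical
  obtain ⟨hz1, hz2⟩ := hz
  refine ⟨hz1, fun k => ?_⟩
  rw [lau_ch]
  have hnot : ∀ i, i ∉ (P k).biUnion id → ((u k i * s k i : ℤ) : ℚ) * ch (a i) z ^ d = 0 := by
    intro i hi
    have h1 : u k i * (s k i * mm (tg a D i) (tp x) ^ d) = 0 := by
      by_contra hcon
      exact hi (((hP k).un i).2 hcon)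
    have h2 := congrArg (Int.cast : ℤ → ℚ) h1
    rw [term_tp hD hx, Int.cast_zero] at h2
    have h3 := (mul_eq_zero.1 h2).resolve_right (pow_ne_zero _ (pow_ne_zero _ (tc_ne hx)))
    have h4 := (mul_eq_zero.1 h3).resolve_right (pow_ne_zero _ (ch_ne _ hx))
    rw [h4, zero_mul]
  rw [← Finset.sum_subset (Finset.subset_univ ((P k).biUnion id)) (fun i _ hi => hnot i hi),
    Finset.sum_biUnion (hP k).dis]
  refine Finset.sum_eq_zero fun B hB => ?_
  obtain ⟨⟨i0, hi0⟩, hB2, -⟩ := (hP k).blk B hB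
  show ∑ i ∈ B, ((u k i * s k i : ℤ) : ℚ) * ch (a i) z ^ d = 0
  rw [sum_tp hD hx] at hB2
  have e1 : ∀ i ∈ B, ((u k i * s k i : ℤ) : ℚ) * ch (a i) z ^ d =
      (((u k i * s k i : ℤ) : ℚ) * ch (a i) x ^ d) * (ch (a i0) z / ch (a i0) x) ^ d := by
    intro i hi
    have e2 : ch (a i - a i0) z = ch (a i - a i0) x :=
      hz2 _ (AddSubgroup.subset_closure ⟨i, i0, ⟨k, B, hB, hi, hi0⟩, rfl⟩)
    rw [ch_sub _ _ hz1, ch_sub _ _ hx, div_eq_div_iff (ch_ne _ hz1) (ch_ne _ hx)] at e2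
    have n1 := ch_ne (a i0) hx
    have e3 : ch (a i) z = ch (a i) x * (ch (a i0) z / ch (a i0) x) := by
      field_simp
      linear_combination e2
    rw [e3, mul_pow]
    ring
  rw [Finset.sum_congr rfl e1, ← Finset.sum_mul, hB2, zero_mul]

/-- two solutions with the same key are in the same coset -/
theorem coset_key {n M r : ℕ} {a : Fin M → Fin n → ℤ} {D : ℕ}
    (hD : ∀ i j, |a i j| ≤ (D : ℤ)) {x y : Fin n → ℚ}
    (hx : ∀ j, x j ≠ 0) (hy : ∀ j, y j ≠ 0) {P : Fin r → Finset (Finset (Fin M))}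
    (h : mrat P (tg a D) (tp x) = mrat P (tg a D) (tp y)) : Coset x (pgr a P) =
      Coset y (pgr a P) := by
  have h1 : ∀ χ ∈ pgr a P, ch χ x = ch χ y := by
    refine ch_closure hx hy ?_
    rintro χ ⟨i, i', hii, rfl⟩
    have h2 := congrFun (congrFun h i) i'
    unfold mrat at h2
    rw [if_pos hii, if_pos hii, mm_tp hD hx, mm_tp hD hx, mm_tp hD hy, mm_tp hD hy,
      mul_div_mul_right _ _ (pow_ne_zero _ (tc_ne hx)),
      mul_div_mul_right _ _ (pow_ne_zero _ (tc_ne hy))] at h2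
    rw [ch_sub _ _ hx, ch_sub _ _ hy]
    exact h2
  ext z
  unfold Coset
  constructor
  · rintro ⟨h2, h3⟩
    exact ⟨h2, fun χ hχ => (h3 χ hχ).trans (h1 χ hχ)⟩
  · rintro ⟨h2, h3⟩
    exact ⟨h2, fun χ hχ => (h3 χ hχ).trans (h1 χ hχ).symm⟩

theorem exists_prime_val {q : ℚ} (h0 : 0 < q) (h1 : q ≠ 1) : ∃ p : ℕ, p.Prime ∧
    padicValRat p q ≠ 0 := by
  have hnum : 0 < q.num := Rat.num_pos.2 h0
  by_cases h2 : q.num.natAbs = 1
  · have h3 : q.den ≠ 1 := by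
      intro h3
      apply h1
      have h4 : q.num = 1 := by omega
      rw [← Rat.num_div_den q, h4, h3]
      norm_num
    obtain ⟨p, hp, hpd⟩ := Nat.exists_prime_and_dvd h3
    haveI : Fact p.Prime := ⟨hp⟩
    refine ⟨p, hp, ?_⟩
    have h4 : q.num = 1 := by omega
    have h5 : padicValRat p q = (padicValInt p q.num : ℤ) - (padicValNat p q.den : ℤ) := rfl
    rw [h5, h4, padicValInt.one]
    have h6 : 1 ≤ padicValNat p q.den := one_le_padicValNat_of_dvd q.den_nz hpd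
    omega
  · obtain ⟨p, hp, hpd⟩ := Nat.exists_prime_and_dvd h2
    haveI : Fact p.Prime := ⟨hp⟩
    refine ⟨p, hp, ?_⟩
    have h5 : padicValRat p q = (padicValInt p q.num : ℤ) - (padicValNat p q.den : ℤ) := rfl
    have h6 : 1 ≤ padicValInt p q.num := by
      unfold padicValInt
      exact one_le_padicValNat_of_dvd (by omega) hpd
    have h7 : padicValNat p q.den = 0 := by
      apply padicValNat.eq_zero_of_not_dvd
      intro h8
      have h9 : p ∣ Nat.gcd q.num.natAbs q.den := Nat.dvd_gcd hpd h8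
      rw [q.reduced] at h9
      exact hp.one_lt.ne' (Nat.dvd_one.1 h9)
    rw [h5]
    omega

theorem val_ch {n : ℕ} (p : ℕ) [Fact p.Prime] (χ : Fin n → ℤ) {y : Fin n → ℚ}
    (hy : ∀ j, y j ≠ 0) : padicValRat p (ch χ y) = ∑ j, χ j * padicValRat p (y j) := by
  classical
  unfold ch
  have key : ∀ s : Finset (Fin n), padicValRat p (∏ j ∈ s, y j ^ χ j) =
      ∑ j ∈ s, χ j * padicValRat p (y j) := by
    intro s
    induction s using Finset.induction_on with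
    | empty => simp
    | insert j s hj ih =>
      rw [Finset.prod_insert hj, Finset.sum_insert hj, padicValRat.mul (zpow_ne_zero _ (hy j))
        (Finset.prod_ne_zero_iff.2 fun j _ => zpow_ne_zero _ (hy j)), ih, padicValRat.zpow]
  exact key Finset.univ

/-- two different points with the same signs of a coset are on a translate of a one-parameter
subgroup in the coset -/
theorem coset_line {n : ℕ} {g : Fin n → ℚ} {H : AddSubgroup (Fin n → ℤ)} {x y : Fin n → ℚ}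
    (hx : x ∈ Coset g H) (hy : y ∈ Coset g H) (hxy : ∀ j, 0 < x j / y j) (hne : x ≠ y) :
    ∃ w : Fin n → ℤ, w ≠ 0 ∧ ∀ t : ℚ, t ≠ 0 → (fun j => x j * t ^ w j) ∈ Coset g H := by
  classical
  obtain ⟨j0, hj0⟩ := Function.ne_iff.1 hne
  have h1 : x j0 / y j0 ≠ 1 := by
    intro h
    exact hj0 ((div_eq_one_iff_eq (hy.1 j0)).1 h)
  obtain ⟨p, hp, hpv⟩ := exists_prime_val (hxy j0) h1
  haveI : Fact p.Prime := ⟨hp⟩
  refine ⟨fun j => padicValRat p (x j / y j), fun h => hpv (congrFun h j0), fun t ht => ?_⟩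
  refine ⟨fun j => mul_ne_zero (hx.1 j) (zpow_ne_zero _ ht), fun χ hχ => ?_⟩
  have h2 : ch χ (fun j => x j / y j) = 1 := by
    have h3 : ch χ x = ch χ y := (hx.2 χ hχ).trans (hy.2 χ hχ).symm
    have h4 : ch χ (fun j => (x j / y j) * y j) = ch χ (fun j => x j / y j) * ch χ y := ch_mul _ _ _
    have h5 : (fun j => (x j / y j) * y j) = x := by
      funext j
      exact div_mul_cancel₀ _ (hy.1 j)
    rw [h5, h3] at h4
    exact mul_right_cancel₀ (ch_ne χ hy.1) (by rw [← h4, one_mul])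
  have h3 := val_ch p χ (y := fun j => x j / y j) fun j => div_ne_zero (hx.1 j) (hy.1 j)
  rw [h2, padicValRat.one] at h3
  show ch χ (fun j => x j * t ^ padicValRat p (x j / y j)) = ch χ g
  rw [ch_mul]
  have h4 : ch χ (fun j => t ^ padicValRat p (x j / y j)) = 1 := by
    unfold ch
    have h5 : ∀ j ∈ Finset.univ, (t ^ padicValRat p (x j / y j)) ^ χ j =
        t ^ (χ j * padicValRat p (x j / y j)) := by
      intro j _
      rw [← zpow_mul, mul_comm]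
    rw [Finset.prod_congr rfl h5]
    have h6 : ∀ s : Finset (Fin n), ∏ j ∈ s, t ^ (χ j * padicValRat p (x j / y j)) =
        t ^ (∑ j ∈ s, χ j * padicValRat p (x j / y j)) := by
      intro s
      induction s using Finset.induction_on with
      | empty => simp
      | insert j s hj ih => rw [Finset.prod_insert hj, Finset.sum_insert hj, zpow_add₀ ht, ih]
    rw [h6, ← h3, zpow_zero]
  rw [h4, mul_one]
  exact hx.2 χ hχ

end Pool.Agent.Y902.GN
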