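import Mathlib
import Pool.Agent.Y902.GN.Tor

/-!
# Sums of monomials without vanishing partial sums: the ratios of the monomials are nearly constant
-/

set_option autoImplicit false

namespace Pool.Agent.Y902.GN

open Filter

theorem ncb {n k : ℕ} {Y : ℕ → ℕ} (hY : ∀ m : ℕ, ∀ᶠ ν in (Uf : Filter ℕ), m ≤ Y ν)
    {A : ℕ → Finset (Fin n → ℤ)} (hA : Big Y A)
    (hx : ∀ᶠ ν in (Uf : Filter ℕ), ∀ x ∈ A ν, ∀ j, x j ≠ 0 ∧ |x j| ≤ (Y ν : ℤ))
    (g : ℕ → Fin k → Fin n → ℕ) (s : ℕ → (Fin n → ℤ) → Fin k → ℤ)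
    (hss : ∀ᶠ ν in (Uf : Filter ℕ), ∀ x ∈ A ν, ∀ i, s ν x i ≠ 0 ∧ |s ν x i| ≤ (Y ν : ℤ))
    (w : ℕ → ℕ) (hg : Few Y (fun ν => ∑ i, ∑ j, g ν i j)) (hw : Few Y w)
    (u : ℕ → Fin k → ℤ) (hu : ∀ᶠ ν in (Uf : Filter ℕ), ∀ i, u ν i ≠ 0 ∧ |u ν i| ≤ 2 ^ w ν)
    (h0 : ∀ᶠ ν in (Uf : Filter ℕ), ∀ x ∈ A ν, ∑ i, u ν i * (s ν x i * mm (g ν i) x) = 0)
    (hv : ∀ᶠ ν in (Uf : Filter ℕ), ∀ x ∈ A ν, ∀ K : Finset (Fin k), K.Nonempty →
      K ≠ Finset.univ → ∑ i ∈ K, u ν i * (s ν x i * mm (g ν i) x) ≠ 0) :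
    ∃ A' : ℕ → Finset (Fin n → ℤ), (∀ᶠ ν in (Uf : Filter ℕ), A' ν ⊆ A ν) ∧ Big Y A' ∧
      ∀ i i', ∃ C : ℕ, ∀ᶠ ν in (Uf : Filter ℕ), ∀ x ∈ A' ν, ∀ x' ∈ A' ν,
        ∃ r r' : ℤ, r ≠ 0 ∧ r' ≠ 0 ∧ |r| ≤ ((Y ν : ℤ) + 2) ^ C ∧ |r'| ≤ ((Y ν : ℤ) + 2) ^ C ∧
        r * (mm (g ν i) x * mm (g ν i') x') = r' * (mm (g ν i) x' * mm (g ν i') x) := by
  classical
  -- the points
  obtain ⟨pt, hpt⟩ : ∃ pt : ℕ → (Fin n → ℤ) → Fin (k + n) → ℤ, ∀ ν x, pt ν x =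
      Fin.append (s ν x) x := ⟨_, fun _ _ => rfl⟩
  obtain ⟨ee, hee⟩ : ∃ ee : ℕ → Fin k → Fin (k + n) → ℕ, ∀ ν i, ee ν i =
      Fin.append (fun i' => if i' = i then 1 else 0) (fun j => g ν i j) :=
    ⟨_, fun _ _ => rfl⟩
  have hprod : ∀ ν x i, ∏ q, pt ν x q ^ ee ν i q = s ν x i * mm (g ν i) x := by
    intro ν x i
    rw [hpt, hee, Fin.prod_univ_add]
    simp only [Fin.append_left, Fin.append_right]
    have e2 : ∏ i', s ν x i' ^ (if i' = i then 1 else 0) = s ν x i := by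
      rw [Finset.prod_eq_single i]
      · simp
      · intro b _ hb
        simp [hb]
      · intro h
        exact absurd (Finset.mem_univ i) h
    rw [e2]
    rfl
  have hptr' : ∀ ν x, (fun j => pt ν x (Fin.natAdd k j)) = x := by
    intro ν x
    funext j
    rw [hpt, Fin.append_right]
  have hinj : ∀ᶠ ν in (Uf : Filter ℕ), Set.InjOn (pt ν) (A ν) := by
    refine Filter.Eventually.of_forall fun ν x _ x' _ hpp => ?_
    rw [← hptr' ν x, ← hptr' ν x', hpp]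
  have hOm := big_image hA pt hinj
  have hb : Bdd Y (fun ν => (A ν).image (pt ν)) := by
    filter_upwards [hx, hss] with ν a1 a3 t ht q
    obtain ⟨x, hx, rfl⟩ := Finset.mem_image.1 ht
    rw [hpt]
    refine Fin.addCases (fun j => ?_) (fun q => ?_) q
    · rw [Fin.append_left]
      exact a3 x hx j
    · rw [Fin.append_right]
      exact a1 x hx q
  have hfew : Few Y (fun ν => ∑ i, ∑ q, ee ν i q) := by
    have h4 := Few.add hY hg (Few.const hY k)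
    refine h4.mono (Filter.Eventually.of_forall fun ν => ?_)
    have e1 : ∀ i, ∑ q, ee ν i q = (∑ j, g ν i j) + 1 := by
      intro i
      rw [hee, Fin.sum_univ_add]
      simp only [Fin.append_left, Fin.append_right]
      rw [add_comm]
      congr 1
      simp
    rw [Finset.sum_congr rfl fun i _ => e1 i, Finset.sum_add_distrib]
    simp
  let S : TS Y (fun ν => (A ν).image (pt ν)) k :=
    { e := ee
      u := u
      w := w
      he := hfew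
      hu := hu
      hw := hw
      sum0 := by
        filter_upwards [h0] with ν h0 t ht
        obtain ⟨x, hx, rfl⟩ := Finset.mem_image.1 ht
        simp only [hprod]
        exact h0 x hx }
  have hST : ∀ ν x i, S.T ν i (pt ν x) = u ν i * (s ν x i * mm (g ν i) x) := by
    intro ν x i
    show u ν i * ∏ q, pt ν x q ^ ee ν i q = _
    rw [hprod]
  have hv' : NVS S := by
    filter_upwards [hv] with ν hv t ht K hK1 hK2
    obtain ⟨x, hx, rfl⟩ := Finset.mem_image.1 ht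
    rw [Finset.sum_congr rfl fun i _ => hST ν x i]
    exact hv x hx K hK1 hK2
  obtain ⟨Om1, h1, h2, h3⟩ := gct hY hOm hb S hv'
  refine ⟨fun ν => (A ν).filter fun x => pt ν x ∈ Om1 ν,
    Filter.Eventually.of_forall fun ν => Finset.filter_subset _ _, big_preimage h2 pt h1, ?_⟩
  intro i i'
  obtain ⟨C, h3⟩ := h3 i i'
  refine ⟨C + 2 + 1, ?_⟩
  filter_upwards [h3, hss, hu] with ν k4 k5' k9 x hx x' hx'
  obtain ⟨hx1, hx2⟩ := Finset.mem_filter.1 hx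
  obtain ⟨hx1', hx2'⟩ := Finset.mem_filter.1 hx'
  obtain ⟨r, r', hr, hr', hr1, hr2, hrr⟩ := k4 _ hx2 _ hx2'
  have Q := k5' x hx1
  have Q' := k5' x' hx1'
  have e1 : r * ((u ν i * (s ν x i * mm (g ν i) x)) *
      (u ν i' * (s ν x' i' * mm (g ν i') x'))) =
      r' * ((u ν i * (s ν x' i * mm (g ν i) x')) *
      (u ν i' * (s ν x i' * mm (g ν i') x))) := by
    rw [← hST, ← hST, ← hST, ← hST]
    exact hrr
  have a0 : (1 : ℤ) ≤ (Y ν : ℤ) + 2 := by omega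
  have hbd : ∀ {r a b : ℤ}, |r| ≤ ((Y ν : ℤ) + 2) ^ C → |a| ≤ (Y ν : ℤ) →
      |b| ≤ (Y ν : ℤ) → |r * a * b| ≤ ((Y ν : ℤ) + 2) ^ (C + 2 + 1) := by
    intro r a b q1 q2 q3
    rw [abs_mul, abs_mul]
    have q4 := mul_le_mul (mul_le_mul q1 (q2.trans (show (Y ν : ℤ) ≤ (Y ν : ℤ) + 2 by omega))
      (abs_nonneg _) (by positivity)) (q3.trans (show (Y ν : ℤ) ≤ (Y ν : ℤ) + 2 by omega))
      (abs_nonneg _) (by positivity)
    refine q4.trans ?_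
    rw [← pow_succ, ← pow_succ]
    exact pow_le_pow_right₀ a0 (by omega)
  refine ⟨r * s ν x i * s ν x' i', r' * s ν x' i * s ν x i',
    mul_ne_zero (mul_ne_zero hr (Q i).1) (Q' i').1,
    mul_ne_zero (mul_ne_zero hr' (Q' i).1) (Q i').1,
    hbd hr1 (Q i).2 (Q' i').2, hbd hr2 (Q' i).2 (Q i').2, ?_⟩
  apply mul_left_cancel₀ (mul_ne_zero (k9 i).1 (k9 i').1)
  linear_combination e1

end Pool.Agent.Y902.GN
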