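import Mathlib
import Pool.Agent.Y902.GN.Tor

/-!
# Rational points on dilated subvarieties of a torus: the theorem
-/

set_option autoImplicit false

namespace Pool.Agent.Y902.GN

/-- rational points of the torus with numerators and denominators at most `Y` -/
def TorBd {n : ℕ} (Y : ℕ) (x : Fin n → ℚ) : Prop :=
  ∀ j, x j ≠ 0 ∧ |(x j).num| ≤ (Y : ℤ) ∧ (x j).den ≤ Y

/-- the points of `X s`, for some `s`, which do not lie on a translate of a one-dimensional subtorus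
contained in `X s` -/
def TorIso {n M r : ℕ} (E d Y : ℕ) (u : Fin r → Fin M → ℤ) (a : Fin M → Fin n → ℤ) :
    Set (Fin n → ℚ) :=
  {x | TorBd Y x ∧ ∃ s : Fin r → Fin M → ℤ, (∀ k i, |s k i| ≤ (Y : ℤ) ^ E) ∧
    x ∈ TorZero (fun k i => u k i * s k i) a d ∧
    ∀ w : Fin n → ℤ, w ≠ 0 → ∃ t : ℚ, t ≠ 0 ∧
      (fun j => x j * t ^ w j) ∉ TorZero (fun k i => u k i * s k i) a d}

theorem tor (n M r E : ℕ) (ε : ℝ) (hε : 0 < ε) : ∃ (R : ℕ) (δ : ℝ), 0 < δ ∧
    ∀ (Y d : ℕ) (a : Fin M → Fin n → ℤ) (u : Fin r → Fin M → ℤ), 1 ≤ Y → R ≤ d →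
      (d : ℝ) ≤ (Y : ℝ) ^ δ → (∀ i j, ((|a i j| : ℤ) : ℝ) ≤ (Y : ℝ) ^ δ) →
      (∀ k i, ((|u k i| : ℤ) : ℝ) ≤ Real.exp ((Y : ℝ) ^ δ)) →
      (∃ L : Finset ((Fin n → ℚ) × AddSubgroup (Fin n → ℤ)), (L.card : ℝ) ≤ (Y : ℝ) ^ ε ∧
        ∀ (x : Fin n → ℚ) (s : Fin r → Fin M → ℤ), TorBd Y x →
          (∀ k i, |s k i| ≤ (Y : ℤ) ^ E) → x ∈ TorZero (fun k i => u k i * s k i) a d →
          ∃ p ∈ L, x ∈ Coset p.1 p.2 ∧
            Coset p.1 p.2 ⊆ TorZero (fun k i => u k i * s k i) a d) ∧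
      (TorIso E d Y u a).Finite ∧ ((TorIso E d Y u a).ncard : ℝ) ≤ (Y : ℝ) ^ ε := by
  classical
  obtain ⟨R, δ, hδ, H⟩ := monk (n + n) M r E (ε / 2) (by positivity)
  refine ⟨R + 2 + ⌈(2 : ℝ) ^ (n * δ / ε)⌉₊, δ / 2, by positivity,
    fun Y d a u hY hd hdY ha hu => ?_⟩
  have hY1 : (1 : ℝ) ≤ (Y : ℝ) := by exact_mod_cast hY
  have hY0 : (0 : ℝ) < (Y : ℝ) := by linarith
  have hdδ : (Y : ℝ) ^ (δ / 2) ≤ (Y : ℝ) ^ δ :=
    Real.rpow_le_rpow_of_exponent_le hY1 (by linarith)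
  have hd' : ((R + 2 + ⌈(2 : ℝ) ^ (n * δ / ε)⌉₊ : ℕ) : ℝ) ≤ (Y : ℝ) ^ (δ / 2) :=
    le_trans (by exact_mod_cast hd) hdY
  push_cast at hd'
  have hR0 : (0 : ℝ) ≤ (R : ℝ) := Nat.cast_nonneg _
  have hceil : (2 : ℝ) ^ (n * δ / ε) ≤ (⌈(2 : ℝ) ^ (n * δ / ε)⌉₊ : ℝ) := Nat.le_ceil _
  have hpos : (0 : ℝ) < (2 : ℝ) ^ (n * δ / ε) := by positivity
  have h2Y : (2 : ℝ) ≤ (Y : ℝ) ^ (δ / 2) := by linarith
  have h2n : (2 : ℝ) ^ n ≤ (Y : ℝ) ^ (ε / 2) := by
    have h1 : (2 : ℝ) ^ (n * δ / ε) ≤ (Y : ℝ) ^ (δ / 2) := by linarith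
    have h2 := Real.rpow_le_rpow hpos.le h1 (show (0 : ℝ) ≤ ε / δ by positivity)
    rw [← Real.rpow_mul (by norm_num), ← Real.rpow_mul hY0.le] at h2
    have e1 : (n : ℝ) * δ / ε * (ε / δ) = n := by field_simp
    have e2 : δ / 2 * (ε / δ) = ε / 2 := by field_simp
    rw [e1, e2, Real.rpow_natCast] at h2
    exact h2
  obtain ⟨D, hDd⟩ : ∃ D : ℕ, D = ⌊(Y : ℝ) ^ (δ / 2)⌋₊ := ⟨_, rfl⟩
  have hDr : (D : ℝ) ≤ (Y : ℝ) ^ (δ / 2) := by
    rw [hDd]
    exact Nat.floor_le (by positivity)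
  have hD : ∀ i j, |a i j| ≤ (D : ℤ) := by
    intro i j
    have h1 : ((a i j).natAbs : ℝ) ≤ (Y : ℝ) ^ (δ / 2) := by
      have h2 := ha i j
      rw [Int.abs_eq_natAbs, Int.cast_natCast] at h2
      exact h2
    have h3 : (a i j).natAbs ≤ D := by
      rw [hDd]
      exact Nat.le_floor h1
    rw [Int.abs_eq_natAbs]
    exact_mod_cast h3
  have hg : ∀ i j, (tg a D i j : ℝ) ≤ (Y : ℝ) ^ δ := by
    intro i j
    have h1 : tg a D i j ≤ 2 * D := by
      unfold tg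
      refine Fin.addCases (fun j => ?_) (fun j => ?_) j
      · rw [Fin.append_left]
        have := abs_le.1 (hD i j)
        omega
      · rw [Fin.append_right]
        have := abs_le.1 (hD i j)
        omega
    calc (tg a D i j : ℝ) ≤ ((2 * D : ℕ) : ℝ) := by exact_mod_cast h1
      _ = 2 * (D : ℝ) := by push_cast; ring
      _ ≤ (Y : ℝ) ^ (δ / 2) * (Y : ℝ) ^ (δ / 2) := by
        refine mul_le_mul h2Y hDr (Nat.cast_nonneg _) (by positivity)
      _ = (Y : ℝ) ^ δ := by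
        rw [← Real.rpow_add hY0]
        congr 1
        ring
  -- the keys
  obtain ⟨KK, hKK⟩ : ∃ KK : Set ((Fin r → Finset (Finset (Fin M))) × (Fin M → Fin M → ℚ)),
      ∀ κ, κ ∈ KK ↔ ∃ (x : Fin n → ℚ), (∀ j, x j ≠ 0) ∧ ∃ s : Fin r → Fin M → ℤ,
        MonSol (n + n) M r E d Y u (tg a D) κ (tp x) s := ⟨{κ | _}, fun κ => Iff.rfl⟩
  obtain ⟨hfin, hcard⟩ := fin_of_bound KK ((Y : ℝ) ^ (ε / 2)) fun T hT =>
    H Y hY d (by omega) (hdY.trans hdδ) u
      (fun k i => (hu k i).trans (Real.exp_le_exp.2 hdδ)) (tg a D) hg T (fun κ hκ => by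
        obtain ⟨x, _, s, hs⟩ := (hKK κ).1 (hT κ hκ)
        exact ⟨tp x, s, hs⟩)
  have hch : ∀ κ, κ ∈ KK → ∃ x : Fin n → ℚ, (∀ j, x j ≠ 0) ∧
      κ.2 = mrat κ.1 (tg a D) (tp x) := by
    intro κ hκ
    obtain ⟨x, hx, s, hs⟩ := (hKK κ).1 hκ
    exact ⟨x, hx, hs.rat⟩
  choose! xk hxk1 hxk2 using hch
  obtain ⟨L, hL⟩ : ∃ L : Finset ((Fin n → ℚ) × AddSubgroup (Fin n → ℤ)),
      L = hfin.toFinset.image fun κ => (xk κ, pgr a κ.1) := ⟨_, rfl⟩
  have hLc : (L.card : ℝ) ≤ (Y : ℝ) ^ (ε / 2) := by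
    rw [Set.ncard_eq_toFinset_card _ hfin] at hcard
    refine le_trans ?_ hcard
    rw [hL]
    exact_mod_cast Finset.card_image_le
  have hcov : ∀ (x : Fin n → ℚ) (s : Fin r → Fin M → ℤ), TorBd Y x →
      (∀ k i, |s k i| ≤ (Y : ℤ) ^ E) → x ∈ TorZero (fun k i => u k i * s k i) a d →
      ∃ p ∈ L, x ∈ Coset p.1 p.2 ∧
        Coset p.1 p.2 ⊆ TorZero (fun k i => u k i * s k i) a d := by
    intro x s hx hs h0
    have hx0 : ∀ j, x j ≠ 0 := fun j => (hx j).1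
    have hpat : ∀ k, ∃ P, MPat (u k) (tg a D) d (s k) (tp x) P := by
      intro k
      apply MPat.ex
      rw [sum_tp hD hx0]
      have := h0.2 k
      rw [lau_ch] at this
      exact this
    choose P hP using hpat
    have hκ : (P, mrat P (tg a D) (tp x)) ∈ KK := by
      rw [hKK]
      refine ⟨x, hx0, s, ⟨?_, hs, hP, rfl⟩⟩
      intro q
      unfold tp
      refine Fin.addCases (fun j => ?_) (fun j => ?_) q
      · rw [Fin.append_left]
        exact ⟨Rat.num_ne_zero.2 (hx0 j), (hx j).2.1⟩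
      · rw [Fin.append_right]
        refine ⟨by exact_mod_cast (x j).den_nz, ?_⟩
        rw [abs_of_nonneg (by positivity)]
        exact_mod_cast (hx j).2.2
    have hC : Coset (xk (P, mrat P (tg a D) (tp x))) (pgr a P) = Coset x (pgr a P) :=
      coset_key hD (hxk1 _ hκ) hx0 (hxk2 _ hκ).symm
    refine ⟨(xk (P, mrat P (tg a D) (tp x)), pgr a P), ?_, ?_, ?_⟩
    · rw [hL]
      exact Finset.mem_image.2 ⟨_, hfin.mem_toFinset.2 hκ, rfl⟩
    · show x ∈ Coset (xk (P, mrat P (tg a D) (tp x))) (pgr a P)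
      rw [hC]
      exact ⟨hx0, fun χ _ => rfl⟩
    · show Coset (xk (P, mrat P (tg a D) (tp x))) (pgr a P) ⊆ _
      rw [hC]
      exact fun z hz => coset_sub hD hx0 hP hz
  refine ⟨⟨L, hLc.trans (Real.rpow_le_rpow_of_exponent_le hY1 (by linarith)), hcov⟩, ?_⟩
  refine fin_of_bound _ _ fun T hT => ?_
  have hT' : ∀ x, x ∈ T → ∃ p ∈ L, x ∈ Coset p.1 p.2 ∧ ∀ w : Fin n → ℤ, w ≠ 0 → ∃ t : ℚ,
      t ≠ 0 ∧ (fun j => x j * t ^ w j) ∉ Coset p.1 p.2 := by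
    intro x hx
    obtain ⟨h1, s, h2, h3, h4⟩ := hT x hx
    obtain ⟨p, hp, hxp, hsub⟩ := hcov x s h1 h2 h3
    refine ⟨p, hp, hxp, fun w hw => ?_⟩
    obtain ⟨t, ht, hnot⟩ := h4 w hw
    exact ⟨t, ht, fun h => hnot (hsub h)⟩
  choose! pp hp1 hp2 hp3 using hT'
  have hle : T.card ≤ (L ×ˢ (Finset.univ : Finset (Fin n → Bool))).card := by
    refine Finset.card_le_card_of_injOn (fun x => (pp x, fun j => decide (0 < x j))) ?_ ?_
    · intro x hx
      exact Finset.mem_coe.2 (Finset.mem_product.2 ⟨hp1 x hx, Finset.mem_univ _⟩)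
    · intro x hx y hy hxy
      simp only [Prod.mk.injEq] at hxy
      obtain ⟨e1, e2⟩ := hxy
      by_contra hne
      have hx1 := hp2 x hx
      have hy1 := hp2 y hy
      rw [← e1] at hy1
      obtain ⟨w, hw, hw'⟩ := coset_line hx1 hy1 (by
        intro j
        have e3 : decide (0 < x j) = decide (0 < y j) := congrFun e2 j
        have e4 : 0 < x j ↔ 0 < y j := by
          constructor
          · intro h
            have : decide (0 < y j) = true := by rw [← e3]; exact decide_eq_true h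
            exact of_decide_eq_true this
          · intro h
            have : decide (0 < x j) = true := by rw [e3]; exact decide_eq_true h
            exact of_decide_eq_true this
        rcases lt_or_gt_of_ne (hx1.1 j) with h1 | h1
        · have h2 : y j < 0 := by
            rcases lt_or_gt_of_ne (hy1.1 j) with h2 | h2
            · exact h2
            · exact absurd (e4.2 h2) (not_lt.2 h1.le)
          exact div_pos_of_neg_of_neg h1 h2
        · exact div_pos h1 (e4.1 h1)) hne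
      obtain ⟨t, ht, hnot⟩ := hp3 x hx w hw
      exact hnot (hw' t ht)
  rw [Finset.card_product, Finset.card_univ, Fintype.card_fun, Fintype.card_bool,
    Fintype.card_fin] at hle
  calc (T.card : ℝ) ≤ ((L.card * 2 ^ n : ℕ) : ℝ) := by exact_mod_cast hle
    _ = (L.card : ℝ) * 2 ^ n := by push_cast; ring
    _ ≤ (Y : ℝ) ^ (ε / 2) * (Y : ℝ) ^ (ε / 2) :=
        mul_le_mul hLc h2n (by positivity) (by positivity)
    _ = (Y : ℝ) ^ ε := by
        rw [← Real.rpow_add hY0]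
        congr 1
        ring

end Pool.Agent.Y902.GN
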