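import Mathlib
import Pool.Agent.Y902.GN.Ncb
import Pool.Agent.Y902.GN.Tor2
import Pool.Agent.Y902.GN.Un

/-!
# Few classes of points modulo a subgroup of the torus
-/

set_option autoImplicit false

namespace Pool.Agent.Y902.GN

/-- equivalence of points of the torus modulo the subgroup of the torus given by `Λ` -/
def Eqv {n : ℕ} (Λ : AddSubgroup (Fin n → ℤ)) (x y : Fin n → ℚ) : Prop :=
  (∀ j, 0 < x j / y j) ∧ ∀ p : ℕ, p.Prime → (fun j => padicValRat p (x j / y j)) ∈ Λ

theorem val_prod {B : Finset ℕ} (hB : ∀ p ∈ B, p.Prime) (f : ℕ → ℕ) {p : ℕ} (hp : p ∈ B) :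
    padicValNat p (∏ q ∈ B, q ^ f q) = f p := by
  classical
  haveI : Fact p.Prime := ⟨hB p hp⟩
  rw [← Finset.mul_prod_erase B _ hp]
  have h1 : ¬ p ∣ ∏ q ∈ B.erase p, q ^ f q := by
    intro h
    obtain ⟨q, hq, hpq⟩ := (Prime.dvd_finsetProd_iff (hB p hp).prime _).1 h
    obtain ⟨h2, h3⟩ := Finset.mem_erase.1 hq
    exact h2 ((Nat.prime_dvd_prime_iff_eq (hB p hp) (hB q h3)).1
      ((hB p hp).dvd_of_dvd_pow hpq)).symm
  rw [padicValNat.mul (pow_ne_zero _ (hB p hp).ne_zero) (by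
    intro h
    rw [h] at h1
    exact h1 (dvd_zero _)), padicValNat.prime_pow, padicValNat.eq_zero_of_not_dvd h1, add_zero]

theorem prod_dvd_pw {B : Finset ℕ} (hB : ∀ p ∈ B, p.Prime) (f : ℕ → ℕ) {N : ℕ}
    (h : ∀ p ∈ B, p ^ f p ∣ N) : ∏ q ∈ B, q ^ f q ∣ N := by
  refine Finset.prod_dvd_of_isRelPrime ?_ h
  intro p hp q hq hpq
  show IsRelPrime (p ^ f p) (q ^ f q)
  rw [← Nat.coprime_iff_isRelPrime]
  exact Nat.Coprime.pow _ _ ((Nat.coprime_primes (hB p hp) (hB q hq)).2 hpq)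

theorem dvd_of_mem_prod {B : Finset ℕ} (hB : ∀ p ∈ B, p.Prime) (f : ℕ → ℕ) {p : ℕ}
    (hp : p.Prime) (h : p ∣ ∏ q ∈ B, q ^ f q) : p ∣ ∏ q ∈ B, q := by
  obtain ⟨q, hq, hpq⟩ := (Prime.dvd_finsetProd_iff hp.prime _).1 h
  have := (Nat.prime_dvd_prime_iff_eq hp (hB q hq)).1 (hp.dvd_of_dvd_pow hpq)
  rw [this]
  exact Finset.dvd_prod_of_mem _ hq

/-- the finite part of the argument -/
theorem few_classes {n M y m C' R : ℕ} (hR : (C' * (2 * M * M) + 1) * (4 * m) ≤ R) (hR1 : 1 ≤ R)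
    (hm : 1 ≤ m) (hy2 : 2 ^ (4 * n * m) ≤ y) (hy4 : 4 ≤ y)
    (hS : ∀ P : ℕ, P ≠ 0 → P ≤ y ^ 2 → ∀ H : Finset ℕ,
      (∀ h ∈ H, 1 ≤ h ∧ h ≤ y ∧ ∀ p, p.Prime → p ∣ h → p ∣ P) → H.card ^ (8 * n * m + 1) ≤ y)
    (e : Fin M → Fin n → ℤ) (Λ : AddSubgroup (Fin n → ℤ))
    (hΛ : ∀ w, w ∉ Λ → ∃ i i', (R : ℤ) ≤ ∑ j, w j * (e i j - e i' j))
    (x' : Fin n → ℚ) (hx' : ∀ j, x' j ≠ 0) (A : Finset (Fin n → ℚ))
    (hA : ∀ x ∈ A, TorBd y x) (hne : ∀ x ∈ A, ∀ z ∈ A, Eqv Λ x z → x = z)
    (hNC : ∀ x ∈ A, ∀ i i', ∃ r r' : ℤ, r ≠ 0 ∧ r' ≠ 0 ∧ |r| ≤ ((y : ℤ) + 2) ^ C' ∧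
      |r'| ≤ ((y : ℤ) + 2) ^ C' ∧
      (r : ℚ) * (ch (e i) x * ch (e i') x') = r' * (ch (e i) x' * ch (e i') x)) :
    A.card ^ m ≤ y := by
  classical
  choose! r r' hr hr' hrb hrb' hrr using hNC
  obtain ⟨N, hN⟩ : ∃ N : (Fin n → ℚ) → ℕ, ∀ x, N x =
      ∏ i, ∏ i', (r x i i').natAbs * (r' x i i').natAbs := ⟨_, fun _ => rfl⟩
  have hN0 : ∀ x ∈ A, N x ≠ 0 := by
    intro x hx
    rw [hN]
    refine Finset.prod_ne_zero_iff.2 fun i _ => Finset.prod_ne_zero_iff.2 fun i' _ =>
      mul_ne_zero (Int.natAbs_ne_zero.2 (hr x hx i i')) (Int.natAbs_ne_zero.2 (hr' x hx i i'))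
  have hNb : ∀ x ∈ A, N x ≤ (y + 2) ^ (C' * (2 * M * M)) := by
    intro x hx
    rw [hN]
    have h1 : ∀ {z : ℤ}, |z| ≤ ((y : ℤ) + 2) ^ C' → z.natAbs ≤ (y + 2) ^ C' := by
      intro z hz
      rw [Int.abs_eq_natAbs] at hz
      exact_mod_cast hz
    calc ∏ i, ∏ i', (r x i i').natAbs * (r' x i i').natAbs
        ≤ ∏ _i : Fin M, ∏ _i' : Fin M, (y + 2) ^ C' * (y + 2) ^ C' := by
          refine Finset.prod_le_prod' fun i _ => Finset.prod_le_prod' fun i' _ => ?_
          exact Nat.mul_le_mul (h1 (hrb x hx i i')) (h1 (hrb' x hx i i'))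
      _ = (y + 2) ^ (C' * (2 * M * M)) := by
          rw [Finset.prod_const, Finset.prod_const, Finset.card_univ, Fintype.card_fin,
            ← pow_add, ← pow_mul, ← pow_mul]
          congr 1
          ring
  obtain ⟨B, hB⟩ : ∃ B : (Fin n → ℚ) → Finset ℕ, ∀ x, B x = (N x).primeFactors.filter
      fun p => (fun j => padicValRat p (x j / x' j)) ∉ Λ := ⟨_, fun _ => rfl⟩
  have hBp : ∀ x, ∀ p ∈ B x, p.Prime := by
    intro x p hp
    rw [hB] at hp
    exact Nat.prime_of_mem_primeFactors (Finset.mem_filter.1 hp).1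
  -- bad primes
  have hbad : ∀ x ∈ A, ∀ p : ℕ, p.Prime → (fun j => padicValRat p (x j / x' j)) ∉ Λ →
      p ^ R ∣ N x := by
    intro x hx p hp hw
    haveI : Fact p.Prime := ⟨hp⟩
    obtain ⟨i, i', h1⟩ := hΛ _ hw
    have hx0 : ∀ j, x j ≠ 0 := fun j => (hA x hx j).1
    have hy0 : ∀ j, x j / x' j ≠ 0 := fun j => div_ne_zero (hx0 j) (hx' j)
    have h2 : (r x i i' : ℚ) * ch (e i - e i') (fun j => x j / x' j) = (r' x i i' : ℚ) := by
      have h3 : (fun j => (x j / x' j) * x' j) = x := by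
        funext j
        exact div_mul_cancel₀ _ (hx' j)
      have h4 : ∀ i, ch (e i) x = ch (e i) (fun j => x j / x' j) * ch (e i) x' := by
        intro i
        rw [← ch_mul, h3]
      have h5 := hrr x hx i i'
      rw [h4 i, h4 i'] at h5
      rw [ch_sub _ _ hy0]
      have n1 := ch_ne (e i) hx'
      have n2 := ch_ne (e i') hx'
      have n3 := ch_ne (e i') hy0
      rw [mul_div_assoc', div_eq_iff n3]
      apply mul_right_cancel₀ (mul_ne_zero n1 n2)
      linear_combination h5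
    have h3 := congrArg (padicValRat p) h2
    rw [padicValRat.mul (by exact_mod_cast hr x hx i i') (ch_ne _ hy0), val_ch p _ hy0,
      padicValRat.of_int, padicValRat.of_int] at h3
    have h4 : ∑ j, (e i - e i') j * padicValRat p (x j / x' j) =
        ∑ j, padicValRat p (x j / x' j) * (e i j - e i' j) := by
      refine Finset.sum_congr rfl fun j _ => ?_
      rw [Pi.sub_apply]
      ring
    rw [h4] at h3
    have h5 : R ≤ padicValInt p (r' x i i') := by
      have : (R : ℤ) ≤ (padicValInt p (r' x i i') : ℤ) := by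
        rw [← h3]
        have : (0 : ℤ) ≤ (padicValInt p (r x i i') : ℤ) := Int.natCast_nonneg _
        linarith
      exact_mod_cast this
    have h6 : p ^ R ∣ (r' x i i').natAbs := by
      rw [padicValNat_dvd_iff_le (Int.natAbs_ne_zero.2 (hr' x hx i i'))]
      exact h5
    refine h6.trans ?_
    rw [hN]
    exact (Dvd.intro_left _ rfl : (r' x i i').natAbs ∣ (r x i i').natAbs * (r' x i i').natAbs).trans
      ((Finset.dvd_prod_of_mem (fun i' => (r x i i').natAbs * (r' x i i').natAbs)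
        (Finset.mem_univ i')).trans
      (Finset.dvd_prod_of_mem (fun i => ∏ i', (r x i i').natAbs * (r' x i i').natAbs)
        (Finset.mem_univ i)))
  obtain ⟨G, hG⟩ : ∃ G : (Fin n → ℚ) → ℕ, ∀ x, G x = ∏ p ∈ B x, p := ⟨_, fun _ => rfl⟩
  have hG1 : ∀ x, 1 ≤ G x := by
    intro x
    rw [hG]
    exact Finset.prod_pos fun p hp => (hBp x p hp).pos
  have hBG : ∀ x, B x = (G x).primeFactors := by
    intro x
    rw [hG, Nat.primeFactors_prod (hBp x)]
  have hGR : ∀ x ∈ A, G x ^ R ∣ N x := by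
    intro x hx
    rw [hG, ← Finset.prod_pow]
    refine prod_dvd_pw (hBp x) (fun _ => R) fun p hp => ?_
    rw [hB] at hp
    exact hbad x hx p (Nat.prime_of_mem_primeFactors (Finset.mem_filter.1 hp).1)
      (Finset.mem_filter.1 hp).2
  obtain ⟨Gs, hGs⟩ : ∃ Gs : Finset ℕ, Gs = (Finset.Icc 1 (y + 2)).filter
      fun g => g ^ (4 * m) ≤ y + 2 := ⟨_, rfl⟩
  have hGsc : Gs.card ^ (4 * m) ≤ y + 2 := by
    rw [hGs]
    exact card_root (by omega)
  have hGm : ∀ x ∈ A, G x ∈ Gs := by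
    intro x hx
    have h1 : G x ^ R ≤ (y + 2) ^ (C' * (2 * M * M)) :=
      (Nat.le_of_dvd (Nat.pos_of_ne_zero (hN0 x hx)) (hGR x hx)).trans (hNb x hx)
    have h2 : G x ^ (4 * m) ≤ y + 2 := by
      apply pow_root (m := C' * (2 * M * M) + 1) (by omega)
      rw [← pow_mul, mul_comm (4 * m)]
      exact (Nat.pow_le_pow_right (hG1 x) hR).trans (h1.trans
        (Nat.pow_le_pow_right (by omega) (by omega)))
    rw [hGs, Finset.mem_filter, Finset.mem_Icc]
    exact ⟨⟨hG1 x, (Nat.le_self_pow (by omega) _).trans h2⟩, h2⟩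
  -- the parts of the coordinates
  obtain ⟨α, hα⟩ : ∃ α : (Fin n → ℚ) → Fin n → ℕ, ∀ x j, α x j =
      ∏ p ∈ B x, p ^ padicValNat p (x j).num.natAbs := ⟨fun x j => _, fun _ _ => rfl⟩
  obtain ⟨β, hβ⟩ : ∃ β : (Fin n → ℚ) → Fin n → ℕ, ∀ x j, β x j =
      ∏ p ∈ B x, p ^ padicValNat p (x j).den := ⟨fun x j => _, fun _ _ => rfl⟩
  obtain ⟨H, hH⟩ : ∃ H : ℕ → Finset ℕ, ∀ g, H g = (Finset.Icc 1 y).filter
      fun h => ∀ p, p.Prime → p ∣ h → p ∣ g := ⟨_, fun _ => rfl⟩
  have hHc : ∀ g ∈ Gs, (H g).card ^ (8 * n * m + 1) ≤ y := by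
    intro g hg
    rw [hGs, Finset.mem_filter, Finset.mem_Icc] at hg
    refine hS g (by omega) ?_ _ ?_
    · have : y + 2 ≤ y ^ 2 := by nlinarith
      omega
    · intro h hh
      rw [hH, Finset.mem_filter, Finset.mem_Icc] at hh
      exact ⟨hh.1.1, hh.1.2, hh.2⟩
  have hpart : ∀ x ∈ A, ∀ a : ℕ, a ≠ 0 → a ≤ y →
      ∏ p ∈ B x, p ^ padicValNat p a ∈ H (G x) := by
    intro x hx a ha hay
    rw [hH, Finset.mem_filter, Finset.mem_Icc]
    refine ⟨⟨Finset.prod_pos fun p hp => pow_pos (hBp x p hp).pos _, ?_⟩, ?_⟩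
    · refine (Nat.le_of_dvd (Nat.pos_of_ne_zero ha) (prod_dvd_pw (hBp x) _ fun p hp => ?_)).trans
        hay
      haveI : Fact p.Prime := ⟨hBp x p hp⟩
      exact pow_padicValNat_dvd
    · intro p hp hpd
      rw [hG]
      exact dvd_of_mem_prod (hBp x) _ hp hpd
  have hαm : ∀ x ∈ A, ∀ j, α x j ∈ H (G x) := by
    intro x hx j
    rw [hα]
    refine hpart x hx _ (Int.natAbs_ne_zero.2 (Rat.num_ne_zero.2 (hA x hx j).1)) ?_
    have := (hA x hx j).2.1
    rw [Int.abs_eq_natAbs] at this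
    exact_mod_cast this
  have hβm : ∀ x ∈ A, ∀ j, β x j ∈ H (G x) := by
    intro x hx j
    rw [hβ]
    exact hpart x hx _ (x j).den_nz (hA x hx j).2.2
  -- injectivity
  have hinj : ∀ x ∈ A, ∀ z ∈ A, G x = G z → (∀ j, decide (0 < x j) = decide (0 < z j)) →
      α x = α z → β x = β z → x = z := by
    intro x hx z hz hg hsg ha hb
    apply hne x hx z hz
    have hx0 : ∀ j, x j ≠ 0 := fun j => (hA x hx j).1
    have hz0 : ∀ j, z j ≠ 0 := fun j => (hA z hz j).1
    have hBB : B x = B z := by rw [hBG, hBG, hg]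
    refine ⟨fun j => ?_, fun p hp => ?_⟩
    · have e3 := hsg j
      have e4 : 0 < x j ↔ 0 < z j := by
        constructor
        · intro h
          have : decide (0 < z j) = true := by rw [← e3]; exact decide_eq_true h
          exact of_decide_eq_true this
        · intro h
          have : decide (0 < x j) = true := by rw [e3]; exact decide_eq_true h
          exact of_decide_eq_true this
      rcases lt_or_gt_of_ne (hx0 j) with h1 | h1
      · have h2 : z j < 0 := by
          rcases lt_or_gt_of_ne (hz0 j) with h2 | h2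
          · exact h2
          · exact absurd (e4.2 h2) (not_lt.2 h1.le)
        exact div_pos_of_neg_of_neg h1 h2
      · exact div_pos h1 (e4.1 h1)
    · haveI : Fact p.Prime := ⟨hp⟩
      by_cases hpB : p ∈ B x
      · have h1 : (fun j => padicValRat p (x j / z j)) = 0 := by
          funext j
          rw [padicValRat.div (hx0 j) (hz0 j)]
          have h2 : padicValNat p (x j).num.natAbs = padicValNat p (z j).num.natAbs := by
            have h3 := congrFun ha j
            rw [hα, hα, ← hBB] at h3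
            rw [← val_prod (hBp x) (fun p => padicValNat p (x j).num.natAbs) hpB,
              ← val_prod (hBp x) (fun p => padicValNat p (z j).num.natAbs) hpB, h3]
          have h2' : padicValNat p (x j).den = padicValNat p (z j).den := by
            have h3 := congrFun hb j
            rw [hβ, hβ, ← hBB] at h3
            rw [← val_prod (hBp x) (fun p => padicValNat p (x j).den) hpB,
              ← val_prod (hBp x) (fun p => padicValNat p (z j).den) hpB, h3]
          have h4 : ∀ q : ℚ, padicValRat p q = (padicValNat p q.num.natAbs : ℤ) -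
            (padicValNat p q.den : ℤ) := fun q => rfl
          rw [h4, h4, h2, h2', sub_self]
          rfl
        rw [h1]
        exact zero_mem _
      · have h1 : ∀ z ∈ A, B z = B x → (fun j => padicValRat p (z j / x' j)) ∈ Λ := by
          intro z hz hzB
          by_contra hcon
          apply hpB
          rw [← hzB, hB, Finset.mem_filter]
          refine ⟨Nat.mem_primeFactors.2 ⟨hp, ?_, hN0 z hz⟩, hcon⟩
          exact (dvd_pow_self p (by omega)).trans (hbad z hz p hp hcon)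
        have h2 := Λ.sub_mem (h1 x hx rfl) (h1 z hz hBB.symm)
        have h3 : (fun j => padicValRat p (x j / z j)) =
            (fun j => padicValRat p (x j / x' j)) - (fun j => padicValRat p (z j / x' j)) := by
          funext j
          rw [Pi.sub_apply, padicValRat.div (hx0 j) (hz0 j), padicValRat.div (hx0 j) (hx' j),
            padicValRat.div (hz0 j) (hx' j)]
          ring
        rw [h3]
        exact h2
  -- the count
  obtain ⟨K, hK1, hK2⟩ : ∃ K : ℕ, (∀ g ∈ Gs, (H g).card ≤ K) ∧ K ^ (8 * n * m + 1) ≤ y := by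
    rcases Gs.eq_empty_or_nonempty with h | h
    · refine ⟨0, fun g hg => ?_, ?_⟩
      · rw [h] at hg
        exact absurd hg (Finset.notMem_empty g)
      · rw [zero_pow (by omega)]
        omega
    · obtain ⟨g, hg, hmax⟩ := Finset.exists_max_image Gs (fun g => (H g).card) h
      exact ⟨(H g).card, hmax, hHc g hg⟩
  have hfib : ∀ g ∈ Gs, (A.filter fun x => G x = g).card ≤ 2 ^ n * (K ^ n * K ^ n) := by
    intro g hg
    have h1 : (A.filter fun x => G x = g).card ≤ ((Finset.univ : Finset (Fin n → Bool)) ×ˢ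
        ((Fintype.piFinset fun _ : Fin n => H g) ×ˢ
          (Fintype.piFinset fun _ : Fin n => H g))).card := by
      refine Finset.card_le_card_of_injOn (fun x => (fun j => decide (0 < x j), α x, β x)) ?_ ?_
      · intro x hx
        obtain ⟨hx1, hx2⟩ := Finset.mem_filter.1 (Finset.mem_coe.1 hx)
        refine Finset.mem_coe.2 (Finset.mem_product.2 ⟨Finset.mem_univ _,
          Finset.mem_product.2 ⟨?_, ?_⟩⟩)
        · rw [Fintype.mem_piFinset]
          intro j
          rw [← hx2]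
          exact hαm x hx1 j
        · rw [Fintype.mem_piFinset]
          intro j
          rw [← hx2]
          exact hβm x hx1 j
      · intro x hx z hz hxz
        obtain ⟨hx1, hx2⟩ := Finset.mem_filter.1 (Finset.mem_coe.1 hx)
        obtain ⟨hz1, hz2⟩ := Finset.mem_filter.1 (Finset.mem_coe.1 hz)
        simp only [Prod.mk.injEq] at hxz
        exact hinj x hx1 z hz1 (hx2.trans hz2.symm) (fun j => congrFun hxz.1 j) hxz.2.1 hxz.2.2
    refine h1.trans ?_
    rw [Finset.card_product, Finset.card_product, Finset.card_univ, Fintype.card_fun,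
      Fintype.card_bool, Fintype.card_fin, Fintype.card_piFinset, Finset.prod_const,
      Finset.card_univ, Fintype.card_fin]
    exact Nat.mul_le_mul_left _ (Nat.mul_le_mul (Nat.pow_le_pow_left (hK1 g hg) _)
      (Nat.pow_le_pow_left (hK1 g hg) _))
  have hAc : A.card ≤ Gs.card * (2 ^ n * (K ^ n * K ^ n)) := by
    rw [Finset.card_eq_sum_card_fiberwise (f := G) (t := Gs) fun x hx => hGm x hx]
    calc ∑ g ∈ Gs, (A.filter fun x => G x = g).card ≤ ∑ _g ∈ Gs, 2 ^ n * (K ^ n * K ^ n) :=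
          Finset.sum_le_sum hfib
      _ = _ := by rw [Finset.sum_const, smul_eq_mul]
  have hK3 : K ^ (8 * n * m) ≤ y := by
    rcases Nat.eq_zero_or_pos K with h | h
    · subst h
      rcases Nat.eq_zero_or_pos (8 * n * m) with h2 | h2
      · rw [h2, pow_zero]
        omega
      · rw [zero_pow (by omega)]
        omega
    · exact (Nat.pow_le_pow_right h (by omega)).trans hK2
  apply pow_root (m := 4) (by norm_num)
  calc (A.card ^ m) ^ 4 = A.card ^ (4 * m) := by rw [← pow_mul, mul_comm]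
    _ ≤ (Gs.card * (2 ^ n * (K ^ n * K ^ n))) ^ (4 * m) := Nat.pow_le_pow_left hAc _
    _ = Gs.card ^ (4 * m) * (2 ^ (4 * n * m) * K ^ (8 * n * m)) := by
        rw [mul_pow, mul_pow, mul_pow, ← pow_mul, ← pow_mul, ← pow_add]
        congr 3
        · ring
        · ring
    _ ≤ (y + 2) * (y * y) := Nat.mul_le_mul hGsc (Nat.mul_le_mul hy2 hK3)
    _ ≤ (y * y) * (y * y) := Nat.mul_le_mul_right _ (by nlinarith)
    _ = y ^ 4 := by ring

end Pool.Agent.Y902.GN
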