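import Mathlib
import Pool.Agent.Y902.GN.Cls
import Pool.Agent.Y902.GN.Lp

/-!
# Rational points on hypersurfaces with few monomials
-/

set_option autoImplicit false

namespace Pool.Agent.Y902.GN

open Filter

/-- the points which are counted -/
structure WdGood {n M : ℕ} (E Y : ℕ) (u : Fin M → ℤ) (e : Fin M → Fin n → ℤ) (x : Fin n → ℚ)
    (s : Fin M → ℤ) : Prop where
  bd : TorBd Y x
  s1 : ∀ i, s i ≠ 0 ∧ |s i| ≤ (Y : ℤ) ^ E
  sum : ∑ i, ((u i * s i : ℤ) : ℚ) * ch (e i) x = 0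
  nvs : ∀ K : Finset (Fin M), K.Nonempty → K ≠ Finset.univ →
    ∑ i ∈ K, ((u i * s i : ℤ) : ℚ) * ch (e i) x ≠ 0

theorem sum_tp1 {n M : ℕ} {a : Fin M → Fin n → ℤ} {D : ℕ} (hD : ∀ i j, |a i j| ≤ (D : ℤ))
    {x : Fin n → ℚ} (hx : ∀ j, x j ≠ 0) (u s : Fin M → ℤ) (K : Finset (Fin M)) :
    ∑ i ∈ K, u i * (s i * mm (tg a D i) (tp x)) = 0 ↔
      ∑ i ∈ K, ((u i * s i : ℤ) : ℚ) * ch (a i) x = 0 := by
  have h := sum_tp hD hx 1 u s K
  simp only [pow_one] at h
  exact h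

theorem tp_inj {n : ℕ} {x z : Fin n → ℚ} (h : tp x = tp z) : x = z := by
  funext j
  have h1 := congrFun h (Fin.castAdd n j)
  have h2 := congrFun h (Fin.natAdd n j)
  unfold tp at h1 h2
  rw [Fin.append_left, Fin.append_left] at h1
  rw [Fin.append_right, Fin.append_right] at h2
  exact Rat.ext h1 (by exact_mod_cast h2)

/-- **Hypersurfaces with few monomials and large width.** -/
theorem wide (n M E : ℕ) (ε : ℝ) (hε : 0 < ε) : ∃ (R : ℕ) (δ : ℝ), 0 < δ ∧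
    ∀ (Y : ℕ), 1 ≤ Y → ∀ (e : Fin M → Fin n → ℤ),
      (∀ i j, ((|e i j| : ℤ) : ℝ) ≤ (Y : ℝ) ^ δ) → ∀ (Λ : AddSubgroup (Fin n → ℤ)), Λ ≠ ⊤ →
      (∀ w, w ∉ Λ → ∃ i i', (R : ℤ) ≤ ∑ j, w j * (e i j - e i' j)) → ∀ (u : Fin M → ℤ),
      (∀ i, u i ≠ 0 ∧ ((|u i| : ℤ) : ℝ) ≤ Real.exp ((Y : ℝ) ^ δ)) →
      ∀ (T : Finset (Fin n → ℚ)), (∀ x ∈ T, ∃ s : Fin M → ℤ, WdGood E Y u e x s) →
      (∀ x ∈ T, ∀ z ∈ T, Eqv Λ x z → x = z) → (T.card : ℝ) ≤ (Y : ℝ) ^ ε := by
  classical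
  by_contra hcon
  push Not at hcon
  have hseq := fun ν : ℕ => hcon (ν + 1) (1 / ((ν : ℝ) + 1)) (by positivity)
  choose Y0 hY1 e he Λ hΛt hΛ u hu T hT hne hc using hseq
  have hY1' : ∀ ν, (1 : ℝ) ≤ (Y0 ν : ℝ) := fun ν => by exact_mod_cast hY1 ν
  have heY : ∀ ν i j, |e ν i j| ≤ (Y0 ν : ℤ) := by
    intro ν i j
    have h1 : ((|e ν i j| : ℤ) : ℝ) ≤ (Y0 ν : ℝ) := by
      refine (he ν i j).trans ?_
      calc (Y0 ν : ℝ) ^ (1 / ((ν : ℝ) + 1)) ≤ (Y0 ν : ℝ) ^ (1 : ℝ) := by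
            apply Real.rpow_le_rpow_of_exponent_le (hY1' ν)
            rw [div_le_one (by positivity)]
            have : (0 : ℝ) ≤ (ν : ℝ) := Nat.cast_nonneg _
            linarith
        _ = (Y0 ν : ℝ) := Real.rpow_one _
    exact_mod_cast h1
  have hYlarge : ∀ ν, ν ≤ 2 * Y0 ν := by
    intro ν
    have h1 : ∃ j : Fin n, (Pi.single j 1 : Fin n → ℤ) ∉ Λ ν := by
      by_contra hcon
      push Not at hcon
      apply hΛt ν
      rw [eq_top_iff]
      intro w _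
      have h2 : w = ∑ j, w j • (Pi.single j 1 : Fin n → ℤ) := by
        funext k
        rw [Finset.sum_apply, Finset.sum_eq_single k]
        · simp
        · intro j _ hj
          simp [hj.symm]
        · intro h
          exact absurd (Finset.mem_univ k) h
      rw [h2]
      exact sum_mem fun j _ => (Λ ν).zsmul_mem (hcon j) _
    obtain ⟨j, hj⟩ := h1
    obtain ⟨i, i', h2⟩ := hΛ ν _ hj
    have h3 : ∑ k, (Pi.single j 1 : Fin n → ℤ) k * (e ν i k - e ν i' k) = e ν i j - e ν i' j := by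
      rw [Finset.sum_eq_single j]
      · simp
      · intro k _ hk
        simp [hk]
      · intro h
        exact absurd (Finset.mem_univ j) h
    rw [h3] at h2
    have h4 := abs_le.1 (heY ν i j)
    have h5 := abs_le.1 (heY ν i' j)
    push_cast at h2
    omega
  have hY0 : ∀ m : ℕ, ∀ᶠ ν in (Uf : Filter ℕ), m ≤ Y0 ν := by
    intro m
    filter_upwards [ev_ge (2 * m)] with ν hν
    have := hYlarge ν
    omega
  obtain ⟨Y, hYd⟩ : ∃ Y : ℕ → ℕ, ∀ ν, Y ν = Y0 ν ^ (E + 1) := ⟨_, fun _ => rfl⟩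
  have hYY : ∀ ν, Y0 ν ≤ Y ν := fun ν => by
    rw [hYd]
    exact Nat.le_self_pow (by omega) _
  have hY : ∀ m : ℕ, ∀ᶠ ν in (Uf : Filter ℕ), m ≤ Y ν := fun m =>
    (hY0 m).mono fun ν hν => hν.trans (hYY ν)
  have hYYe : ∀ᶠ ν in (Uf : Filter ℕ), Y0 ν ≤ Y ν := Filter.Eventually.of_forall hYY
  have hbig : Big Y T := by
    refine big_of_card (ε := ε / (E + 1)) (by positivity) (hY 2) (Filter.Eventually.of_forall
      fun ν => ?_)
    rw [hYd]
    push_cast
    rw [← Real.rpow_natCast, ← Real.rpow_mul (by positivity)]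
    have : ((E + 1 : ℕ) : ℝ) * (ε / ((E : ℝ) + 1)) = ε := by
      push_cast
      field_simp
    rw [this]
    exact hc ν
  choose! s hs using hT
  -- the exponents
  obtain ⟨D, hDd⟩ : ∃ D : ℕ → ℕ, ∀ ν, D ν =
      ⌊((1 : ℕ) : ℝ) * (Y0 ν : ℝ) ^ (1 / ((ν : ℝ) + 1))⌋₊ := ⟨_, fun _ => rfl⟩
  have hD : ∀ ν i j, |e ν i j| ≤ (D ν : ℤ) := by
    intro ν i j
    have h1 : ((e ν i j).natAbs : ℝ) ≤ ((1 : ℕ) : ℝ) * (Y0 ν : ℝ) ^ (1 / ((ν : ℝ) + 1)) := by
      have h2 := he ν i j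
      rw [Int.abs_eq_natAbs, Int.cast_natCast] at h2
      rw [Nat.cast_one, one_mul]
      exact h2
    have h3 : (e ν i j).natAbs ≤ D ν := by
      rw [hDd]
      exact Nat.le_floor h1
    rw [Int.abs_eq_natAbs]
    exact_mod_cast h3
  have hgD : ∀ ν i j, tg (e ν) (D ν) i j ≤ 2 * D ν := by
    intro ν i j
    unfold tg
    refine Fin.addCases (fun j => ?_) (fun j => ?_) j
    · rw [Fin.append_left]
      have := abs_le.1 (hD ν i j)
      omega
    · rw [Fin.append_right]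
      have := abs_le.1 (hD ν i j)
      omega
  have hgf : Few Y (fun ν => ∑ i, ∑ j, tg (e ν) (D ν) i j) := by
    have h1 := (few_rpow hY0 1).mono_Y hYYe
    have h2 := (Few.const hY (M * (n + n) * 2)).mul h1
    refine h2.mono (Filter.Eventually.of_forall fun ν => ?_)
    rw [← hDd]
    calc ∑ i, ∑ j, tg (e ν) (D ν) i j ≤ ∑ _i : Fin M, ∑ _j : Fin (n + n), 2 * (D ν + 1) :=
          Finset.sum_le_sum fun i _ => Finset.sum_le_sum fun j _ =>
            (hgD ν i j).trans (by omega)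
      _ = _ := by simp; ring
  obtain ⟨un, hun⟩ : ∃ un : (Fin (n + n) → ℤ) → (Fin n → ℚ), ∀ x : Fin n → ℚ, un (tp x) = x := by
    refine ⟨fun t j => (t (Fin.castAdd n j) : ℚ) / (t (Fin.natAdd n j) : ℚ), fun x => ?_⟩
    funext j
    show ((tp x (Fin.castAdd n j) : ℤ) : ℚ) / ((tp x (Fin.natAdd n j) : ℤ) : ℚ) = x j
    unfold tp
    rw [Fin.append_left, Fin.append_right]
    exact_mod_cast Rat.num_div_den (x j)
  have hbigA := big_image hbig (fun _ x => tp x)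
    (Filter.Eventually.of_forall fun ν x _ z _ h => tp_inj h)
  have hub : ∀ ν i, |u ν i| ≤ 2 ^ (⌊((2 : ℕ) : ℝ) * (Y0 ν : ℝ) ^ (1 / ((ν : ℝ) + 1))⌋₊ + 1) := by
    intro ν i
    have h5 := (hu ν i).2.trans (exp_le_two_pow (by positivity))
    exact_mod_cast h5
  obtain ⟨A', g1, g2, g3⟩ := ncb hY hbigA
    (by
      refine Filter.Eventually.of_forall fun ν t ht q => ?_
      obtain ⟨x, hx, rfl⟩ := Finset.mem_image.1 ht
      have G := (hs ν x hx).bd
      unfold tp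
      refine Fin.addCases (fun j => ?_) (fun j => ?_) q
      · rw [Fin.append_left]
        refine ⟨Rat.num_ne_zero.2 (G j).1, (G j).2.1.trans ?_⟩
        exact_mod_cast hYY ν
      · rw [Fin.append_right]
        refine ⟨by exact_mod_cast (x j).den_nz, ?_⟩
        rw [abs_of_nonneg (by positivity)]
        exact_mod_cast (G j).2.2.trans (hYY ν))
    (fun ν => tg (e ν) (D ν)) (fun ν t => s ν (un t))
    (by
      refine Filter.Eventually.of_forall fun ν t ht i => ?_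
      obtain ⟨x, hx, rfl⟩ := Finset.mem_image.1 ht
      rw [hun]
      refine ⟨((hs ν x hx).s1 i).1, ((hs ν x hx).s1 i).2.trans ?_⟩
      rw [hYd]
      push_cast
      exact pow_le_pow_right₀ (by exact_mod_cast hY1 ν) (by omega))
    _ hgf ((few_rpow hY0 2).mono_Y hYYe) u
    (Filter.Eventually.of_forall fun ν i => ⟨(hu ν i).1, hub ν i⟩)
    (by
      refine Filter.Eventually.of_forall fun ν t ht => ?_
      obtain ⟨x, hx, rfl⟩ := Finset.mem_image.1 ht
      rw [hun]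
      exact (sum_tp1 (hD ν) (fun j => ((hs ν x hx).bd j).1) (u ν) (s ν x) Finset.univ).2
        (hs ν x hx).sum)
    (by
      refine Filter.Eventually.of_forall fun ν t ht K hK1 hK2 => ?_
      obtain ⟨x, hx, rfl⟩ := Finset.mem_image.1 ht
      rw [hun]
      exact fun h => (hs ν x hx).nvs K hK1 hK2
        ((sum_tp1 (hD ν) (fun j => ((hs ν x hx).bd j).1) (u ν) (s ν x) K).1 h))
  choose C hC using g3
  obtain ⟨C', hC'⟩ : ∃ C' : ℕ, ∀ i i', C i i' ≤ C' :=
    ⟨∑ i, ∑ i', C i i', fun i i' => (Finset.single_le_sum (f := fun i' => C i i')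
      (fun _ _ => Nat.zero_le _) (Finset.mem_univ i')).trans
      (Finset.single_le_sum (f := fun i => ∑ i', C i i') (fun _ _ => Nat.zero_le _)
        (Finset.mem_univ i))⟩
  obtain ⟨m, hm⟩ := g2
  have hm1 : 1 ≤ m := by
    rcases Nat.eq_zero_or_pos m with h | h
    · exfalso
      obtain ⟨ν, h1⟩ := hm.exists
      rw [h, pow_zero] at h1
      omega
    · exact h
  obtain ⟨Y₀, hY₀⟩ := hSC 2 (8 * n * m + 1)
  obtain ⟨ν, k1, k2, k3, k4, k5, k6, k7⟩ := (g1.and (hm.and ((Filter.eventually_all.2 fun i =>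
    Filter.eventually_all.2 fun i' => hC i i').and ((ev_ge ((C' * (2 * M * M) + 1) * (4 * m))).and
    ((hY (2 ^ (4 * n * m))).and ((hY 4).and (hY Y₀))))))).exists
  have hcard1 : (A' ν).card ^ m ≤ Y ν := by
    obtain ⟨A, hA⟩ : ∃ A : Finset (Fin n → ℚ), A = (T ν).filter fun x => tp x ∈ A' ν := ⟨_, rfl⟩
    have hAA : (A' ν).card = A.card := by
      have h1 : A' ν = A.image tp := by
        ext t
        rw [Finset.mem_image]
        constructor
        · intro ht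
          obtain ⟨x, hx, rfl⟩ := Finset.mem_image.1 (k1 ht)
          exact ⟨x, by rw [hA]; exact Finset.mem_filter.2 ⟨hx, ht⟩, rfl⟩
        · rintro ⟨x, hx, rfl⟩
          rw [hA] at hx
          exact (Finset.mem_filter.1 hx).2
      rw [h1, Finset.card_image_of_injective _ fun x z h => tp_inj h]
    rw [hAA]
    rcases A.eq_empty_or_nonempty with hAe | hAe
    · rw [hAe, Finset.card_empty, zero_pow (by omega)]
      exact Nat.zero_le _
    obtain ⟨x', hx'⟩ := hAe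
    have hAT : ∀ x ∈ A, x ∈ T ν ∧ tp x ∈ A' ν := by
      intro x hx
      rw [hA] at hx
      exact Finset.mem_filter.1 hx
    have hx0 : ∀ x ∈ A, ∀ j, x j ≠ 0 := fun x hx j => ((hs ν x (hAT x hx).1).bd j).1
    refine few_classes (C' := C') (R := ν + 1) (by omega) (by omega) hm1 k5 k6
      (fun P hP1 hP2 H hH => hY₀ (Y ν) k7 P hP1 hP2 H hH) (e ν) (Λ ν) (hΛ ν) x' (hx0 x' hx') A
      ?_ ?_ ?_
    · intro x hx j
      have G := (hs ν x (hAT x hx).1).bd j
      refine ⟨G.1, G.2.1.trans ?_, G.2.2.trans (hYY ν)⟩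
      exact_mod_cast hYY ν
    · exact fun x hx z hz h => hne ν x (hAT x hx).1 z (hAT z hz).1 h
    · intro x hx i i'
      obtain ⟨r, r', h1, h2, h3, h4, h5⟩ := k3 i i' (tp x) (hAT x hx).2 (tp x') (hAT x' hx').2
      have hpw : ((Y ν : ℤ) + 2) ^ C i i' ≤ ((Y ν : ℤ) + 2) ^ C' :=
        pow_le_pow_right₀ (by omega) (hC' i i')
      refine ⟨r, r', h1, h2, h3.trans hpw, h4.trans hpw, ?_⟩
      have h6 := congrArg (Int.cast : ℤ → ℚ) h5
      push_cast at h6
      rw [mm_tp (hD ν) (hx0 x hx), mm_tp (hD ν) (hx0 x' hx'), mm_tp (hD ν) (hx0 x' hx'),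
        mm_tp (hD ν) (hx0 x hx)] at h6
      apply mul_right_cancel₀ (mul_ne_zero (pow_ne_zero (D ν) (tc_ne (hx0 x hx)))
        (pow_ne_zero (D ν) (tc_ne (hx0 x' hx'))))
      linear_combination h6
  omega

end Pool.Agent.Y902.GN
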