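import Mathlib
import Pool.Agent.Y902.GN.Tc4

/-!
# Common zeros of two plane curves
-/

set_option autoImplicit false

namespace Pool.Agent.Y902.GN

open Polynomial

/-- the sum of the absolute values of the coefficients -/
noncomputable def N1 (p : ℤ[X]) : ℤ := ∑ i ∈ p.support, |p.coeff i|

theorem N1_eq {p : ℤ[X]} {n : ℕ} (h : p.natDegree < n) : N1 p = ∑ i ∈ Finset.range n, |p.coeff i| := by
  unfold N1
  refine Finset.sum_subset (fun i hi => ?_) fun i _ hi => ?_
  · rw [Finset.mem_range]
    exact lt_of_le_of_lt (le_natDegree_of_mem_supp i hi) h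
  · rw [notMem_support_iff.1 hi, abs_zero]

theorem abs_coeff_le (p : ℤ[X]) (i : ℕ) : |p.coeff i| ≤ N1 p := by
  by_cases hi : i ∈ p.support
  · exact Finset.single_le_sum (f := fun i => |p.coeff i|) (fun _ _ => abs_nonneg _) hi
  · rw [notMem_support_iff.1 hi, abs_zero]
    exact Finset.sum_nonneg fun _ _ => abs_nonneg _

theorem N1_nonneg (p : ℤ[X]) : 0 ≤ N1 p := Finset.sum_nonneg fun _ _ => abs_nonneg _

theorem N1_add (p q : ℤ[X]) : N1 (p + q) ≤ N1 p + N1 q := by
  obtain ⟨n, hn⟩ : ∃ n, n = max (max p.natDegree q.natDegree) (p + q).natDegree + 1 := ⟨_, rfl⟩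
  rw [N1_eq (n := n) (p := p + q) (by omega), N1_eq (n := n) (p := p) (by omega),
    N1_eq (n := n) (p := q) (by omega), ← Finset.sum_add_distrib]
  refine Finset.sum_le_sum fun i _ => ?_
  rw [coeff_add]
  exact abs_add_le _ _

theorem N1_monomial (i : ℕ) (c : ℤ) : N1 (monomial i c) ≤ |c| := by
  have h : (monomial i c : ℤ[X]).natDegree < i + 1 :=
    lt_of_le_of_lt (natDegree_monomial_le _) (Nat.lt_succ_self _)
  rw [N1_eq h]
  simp only [coeff_monomial]
  rw [Finset.sum_eq_single i]
  · rw [if_pos rfl]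
  · intro j _ hj
    rw [if_neg (Ne.symm hj), abs_zero]
  · intro hi
    exact absurd (Finset.mem_range.2 (Nat.lt_succ_self _)) hi

theorem N1_zero : N1 0 = 0 := by
  unfold N1
  simp

theorem N1_sum {ι : Type*} (s : Finset ι) (f : ι → ℤ[X]) :
    N1 (∑ i ∈ s, f i) ≤ ∑ i ∈ s, N1 (f i) := by
  classical
  induction s using Finset.induction_on with
  | empty => simp [N1_zero]
  | insert i s hi ih =>
    rw [Finset.sum_insert hi, Finset.sum_insert hi]
    exact (N1_add _ _).trans (by linarith)

theorem N1_mul (p q : ℤ[X]) : N1 (p * q) ≤ N1 p * N1 q := by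
  rw [mul_eq_sum_sum]
  refine (N1_sum _ _).trans ?_
  unfold N1
  rw [Finset.sum_mul]
  refine Finset.sum_le_sum fun i _ => ?_
  rw [Polynomial.sum, Finset.mul_sum]
  refine (N1_sum _ _).trans (Finset.sum_le_sum fun j _ => ?_)
  exact (N1_monomial _ _).trans (le_of_eq (abs_mul _ _))

theorem N1_prod {ι : Type*} (s : Finset ι) (f : ι → ℤ[X]) {B : ℤ} (hB : ∀ i ∈ s, N1 (f i) ≤ B) :
    N1 (∏ i ∈ s, f i) ≤ B ^ s.card := by
  classical
  induction s using Finset.induction_on with
  | empty =>
    rw [Finset.prod_empty, Finset.card_empty, pow_zero]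
    have := N1_monomial 0 1
    rw [abs_one] at this
    exact this
  | insert i s hi ih =>
    rw [Finset.prod_insert hi, Finset.card_insert_of_notMem hi, pow_succ']
    refine (N1_mul _ _).trans (mul_le_mul (hB i (Finset.mem_insert_self _ _))
      (ih fun j hj => hB j (Finset.mem_insert_of_mem hj)) (N1_nonneg _)
      ((N1_nonneg _).trans (hB i (Finset.mem_insert_self _ _))))

theorem N1_det {n : ℕ} (M : Matrix (Fin n) (Fin n) ℤ[X]) {B : ℤ} (hB : ∀ i j, N1 (M i j) ≤ B) :
    N1 M.det ≤ n.factorial * B ^ n := by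
  rw [Matrix.det_apply]
  refine (N1_sum _ _).trans ?_
  have h1 : ∀ σ ∈ (Finset.univ : Finset (Equiv.Perm (Fin n))),
      N1 (Equiv.Perm.sign σ • ∏ i, M (σ i) i) ≤ B ^ n := by
    intro σ _
    have h2 : N1 (∏ i, M (σ i) i) ≤ B ^ n := by
      have := N1_prod Finset.univ (fun i => M (σ i) i) (fun i _ => hB (σ i) i)
      rwa [Finset.card_univ, Fintype.card_fin] at this
    have h3 : ∀ p : ℤ[X], N1 (-p) = N1 p := by
      intro p
      unfold N1
      rw [support_neg]
      exact Finset.sum_congr rfl fun i _ => by rw [coeff_neg, abs_neg]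
    rcases Int.units_eq_one_or (Equiv.Perm.sign σ) with h | h
    · rw [h, one_smul]
      exact h2
    · rw [h, Units.neg_smul, one_smul, h3]
      exact h2
  refine (Finset.sum_le_card_nsmul _ _ _ h1).trans (le_of_eq ?_)
  rw [Finset.card_univ, Fintype.card_perm, Fintype.card_fin, nsmul_eq_mul]

theorem root_le {p : ℤ[X]} (hp : p ≠ 0) {x : ℤ} (hx : p.eval x = 0) : |x| ≤ N1 p := by
  by_contra hcon
  push Not at hcon
  apply hp
  have h1 := digits (p.natDegree + 1) (fun i => p.coeff i) x
    (fun i => lt_of_le_of_lt (abs_coeff_le p i) hcon) (by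
      rw [eval_eq_sum_range, Finset.sum_range] at hx
      exact hx)
  ext i
  rw [coeff_zero]
  by_cases hi : i < p.natDegree + 1
  · exact h1 ⟨i, hi⟩
  · exact coeff_eq_zero_of_natDegree_lt (by omega)

/-- the Sylvester matrix has small entries -/
theorem N1_resultant (F G : ℤ[X][X]) {B : ℤ} (hB0 : 0 ≤ B) (hF : ∀ j, N1 (F.coeff j) ≤ B)
    (hG : ∀ j, N1 (G.coeff j) ≤ B) :
    N1 (resultant F G F.natDegree G.natDegree) ≤
      ((F.natDegree + G.natDegree).factorial : ℤ) * B ^ (F.natDegree + G.natDegree) := by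
  unfold resultant
  refine N1_det _ fun i j => ?_
  unfold sylvester
  rw [Matrix.of_apply]
  refine Fin.addCases (fun k => ?_) (fun k => ?_) j
  · rw [Fin.addCases_left]
    split_ifs
    · exact hG _
    · rw [N1_zero]
      exact hB0
  · rw [Fin.addCases_right]
    split_ifs
    · exact hF _
    · rw [N1_zero]
      exact hB0

/-- a common zero with large abscissa of two curves, one of them irreducible -/
theorem dvd_of_common {F G : ℤ[X][X]} (hF : Irreducible F) (hF0 : 0 < F.natDegree) {x y : ℤ}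
    (h1 : (F.eval (C y)).eval x = 0) (h2 : (G.eval (C y)).eval x = 0) {B : ℤ} (hB0 : 0 ≤ B)
    (hFB : ∀ j, N1 (F.coeff j) ≤ B) (hGB : ∀ j, N1 (G.coeff j) ≤ B)
    (hx : ((F.natDegree + G.natDegree).factorial : ℤ) * B ^ (F.natDegree + G.natDegree) < |x|) :
    F ∣ G := by
  let _ : NormalizedGCDMonoid ℤ[X] := UniqueFactorizationMonoid.toNormalizedGCDMonoid _
  have hr : resultant F G F.natDegree G.natDegree = 0 := by
    by_contra hne
    obtain ⟨p, q, _, _, hpq⟩ := exists_mul_add_mul_eq_C_resultant F G le_rfl le_rfl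
      (Or.inl hF0.ne')
    have h3 := congrArg (fun P : ℤ[X][X] => (P.eval (C y)).eval x) hpq
    simp only [eval_add, eval_mul, eval_C, h1, h2, zero_mul, add_zero] at h3
    exact absurd (root_le hne h3.symm) (not_le.2 (lt_of_le_of_lt (N1_resultant F G hB0 hFB hGB) hx))
  have hinj : Function.Injective (algebraMap ℤ[X] (FractionRing ℤ[X])) :=
    IsFractionRing.injective _ _
  have hFp : F.IsPrimitive := hF.isPrimitive hF0.ne'
  have hFK : Irreducible (F.map (algebraMap ℤ[X] (FractionRing ℤ[X]))) :=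
    (hFp.irreducible_iff_irreducible_map_fraction_map).1 hF
  have hrK : resultant (F.map (algebraMap ℤ[X] (FractionRing ℤ[X])))
      (G.map (algebraMap ℤ[X] (FractionRing ℤ[X]))) = 0 := by
    rw [natDegree_map_eq_of_injective hinj, natDegree_map_eq_of_injective hinj,
      resultant_map_map, hr, map_zero]
  have hnc := (resultant_eq_zero_iff.1 hrK).2
  have hdvdK : F.map (algebraMap ℤ[X] (FractionRing ℤ[X])) ∣
      G.map (algebraMap ℤ[X] (FractionRing ℤ[X])) := by
    by_contra hnd
    exact hnc ((Irreducible.coprime_iff_not_dvd hFK).2 hnd)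
  exact hFp.dvd_of_fraction_map_dvd_fraction_map hdvdK

end Pool.Agent.Y902.GN
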