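import Mathlib
import Pool.Agent.Y902.GN.Ir

/-!
# Close points of irreducible plane curves
-/

set_option autoImplicit false

namespace Pool.Agent.Y902.GN

open Polynomial

/-- the polynomial with given coefficients -/
noncomputable def poly2 {d : ℕ} (c : Fin (d + 1) → Fin (d + 1) → ℤ) : ℤ[X][X] :=
  ∑ j : Fin (d + 1), monomial (j : ℕ) (∑ i : Fin (d + 1), monomial (i : ℕ) (c i j))

theorem coeff_sum_fin {R : Type*} [Semiring R] {d : ℕ} (a : Fin (d + 1) → R) (j : Fin (d + 1)) :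
    (∑ i : Fin (d + 1), monomial (i : ℕ) (a i) : R[X]).coeff (j : ℕ) = a j := by
  rw [finsetSum_coeff, Finset.sum_eq_single j]
  · rw [coeff_monomial, if_pos rfl]
  · intro i _ hij
    rw [coeff_monomial, if_neg fun h => hij (Fin.ext h)]
  · intro h
    exact absurd (Finset.mem_univ _) h

theorem coeff_sum_fin' {R : Type*} [Semiring R] {d : ℕ} (a : Fin (d + 1) → R) {j : ℕ}
    (hj : d + 1 ≤ j) : (∑ i : Fin (d + 1), monomial (i : ℕ) (a i) : R[X]).coeff j = 0 := by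
  rw [finsetSum_coeff]
  refine Finset.sum_eq_zero fun i _ => ?_
  rw [coeff_monomial, if_neg]
  have := i.2
  omega

theorem poly2_coeff {d : ℕ} (c : Fin (d + 1) → Fin (d + 1) → ℤ) (i j : Fin (d + 1)) :
    ((poly2 c).coeff (j : ℕ)).coeff (i : ℕ) = c i j := by
  unfold poly2
  rw [coeff_sum_fin, coeff_sum_fin]

theorem poly2_coeff_iff {d : ℕ} {a b : Fin (d + 1) → Fin (d + 1) → ℤ}
    (h : ∀ i j, a i j = 0 ↔ b i j = 0) (i j : ℕ) :
    ((poly2 a).coeff j).coeff i = 0 ↔ ((poly2 b).coeff j).coeff i = 0 := by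
  rcases lt_or_ge j (d + 1) with hj | hj
  · rcases lt_or_ge i (d + 1) with hi | hi
    · have h1 := poly2_coeff a ⟨i, hi⟩ ⟨j, hj⟩
      have h2 := poly2_coeff b ⟨i, hi⟩ ⟨j, hj⟩
      simp only at h1 h2
      rw [h1, h2]
      exact h _ _
    · have h1 : ∀ c : Fin (d + 1) → Fin (d + 1) → ℤ, ((poly2 c).coeff j).coeff i = 0 := by
        intro c
        have h2 := coeff_sum_fin (fun j => ∑ i : Fin (d + 1), monomial (i : ℕ) (c i j)) ⟨j, hj⟩
        simp only at h2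
        unfold poly2
        rw [h2]
        exact coeff_sum_fin' _ hi
      rw [h1, h1]
  · have h1 : ∀ c : Fin (d + 1) → Fin (d + 1) → ℤ, (poly2 c).coeff j = 0 := fun c =>
      coeff_sum_fin' _ hj
    rw [h1, h1]

theorem natDegree_congr {R : Type*} [Semiring R] {p q : R[X]}
    (h : ∀ i, p.coeff i = 0 ↔ q.coeff i = 0) : p.natDegree = q.natDegree := by
  have h1 : p.support = q.support := by
    ext i
    rw [mem_support_iff, mem_support_iff, not_iff_not]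
    exact h i
  unfold natDegree degree
  rw [h1]

theorem poly2_eval {d : ℕ} (c : Fin (d + 1) → Fin (d + 1) → ℤ) (x y : ℤ) :
    ((poly2 c).eval (C y)).eval x = ∑ i, ∑ j, c i j * x ^ (i : ℕ) * y ^ (j : ℕ) := by
  unfold poly2
  rw [eval_finsetSum, eval_finsetSum, Finset.sum_comm]
  refine Finset.sum_congr rfl fun j _ => ?_
  rw [eval_monomial, eval_mul, eval_pow, eval_C, eval_finsetSum, Finset.sum_mul]
  exact Finset.sum_congr rfl fun i _ => by rw [eval_monomial]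

theorem poly2_N1 {d : ℕ} {c : Fin (d + 1) → Fin (d + 1) → ℤ} {H : ℤ} (hH : 0 ≤ H)
    (hc : ∀ i j, |c i j| ≤ H) (j : ℕ) : N1 ((poly2 c).coeff j) ≤ (d + 1) * H := by
  rcases lt_or_ge j (d + 1) with hj | hj
  · have h2 := coeff_sum_fin (fun j => ∑ i : Fin (d + 1), monomial (i : ℕ) (c i j)) ⟨j, hj⟩
    simp only at h2
    unfold poly2
    rw [h2]
    refine (N1_sum _ _).trans ?_
    calc ∑ i : Fin (d + 1), N1 (monomial (i : ℕ) (c i ⟨j, hj⟩)) ≤ ∑ _i : Fin (d + 1), H :=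
          Finset.sum_le_sum fun i _ => (N1_monomial _ _).trans (hc _ _)
      _ = (d + 1) * H := by
          rw [Finset.sum_const, Finset.card_univ, Fintype.card_fin, nsmul_eq_mul]
          push_cast
          ring
  · have h1 : (poly2 c).coeff j = 0 := coeff_sum_fin' _ hj
    rw [h1, N1_zero]
    positivity

theorem poly2_natDegree {d : ℕ} (c : Fin (d + 1) → Fin (d + 1) → ℤ) :
    (poly2 c).natDegree ≤ d := by
  rw [natDegree_le_iff_coeff_eq_zero]
  intro j hj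
  exact coeff_sum_fin' _ hj

/-- **Close points of irreducible curves are equivalent.** -/
theorem curve_exact {d : ℕ} {c c' : Fin (d + 1) → Fin (d + 1) → ℤ} {H : ℤ} (hH : 0 ≤ H)
    (hc : ∀ i j, |c i j| ≤ H) (hc' : ∀ i j, |c' i j| ≤ H)
    (hsupp : ∀ i j, c i j = 0 ↔ c' i j = 0) (hirr : Irreducible (poly2 c'))
    (hdep : 0 < (poly2 c').natDegree) {x y x' y' : ℤ} (hx0 : x ≠ 0) (hy0 : y ≠ 0) (hx0' : x' ≠ 0)
    (hy0' : y' ≠ 0) (h : ∑ i, ∑ j, c i j * x ^ (i : ℕ) * y ^ (j : ℕ) = 0)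
    (h' : ∑ i, ∑ j, c' i j * x' ^ (i : ℕ) * y' ^ (j : ℕ) = 0) {M : ℕ}
    (hρM : HtLe M ((x : ℚ) / x')) (hσM : HtLe M ((y : ℚ) / y'))
    (htall : ((2 * d).factorial : ℤ) * ((d + 1) * (H * (M : ℤ) ^ (2 * d))) ^ (2 * d) < |x'|) :
    ∃ κ : ℚ, ∀ i j, (c i j : ℚ) * ((x : ℚ) / x') ^ (i : ℕ) * ((y : ℚ) / y') ^ (j : ℕ) =
      κ * c' i j := by
  obtain ⟨ρ, hρ⟩ : ∃ ρ : ℚ, ρ = (x : ℚ) / x' := ⟨_, rfl⟩
  obtain ⟨σ, hσ⟩ : ∃ σ : ℚ, σ = (y : ℚ) / y' := ⟨_, rfl⟩
  rw [← hρ] at hρM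
  rw [← hσ] at hσM
  rw [← hρ, ← hσ]
  have hx0q : (x : ℚ) ≠ 0 := by exact_mod_cast hx0
  have hx0q' : (x' : ℚ) ≠ 0 := by exact_mod_cast hx0'
  have hy0q : (y : ℚ) ≠ 0 := by exact_mod_cast hy0
  have hy0q' : (y' : ℚ) ≠ 0 := by exact_mod_cast hy0'
  have hρ0 : ρ ≠ 0 := by rw [hρ]; exact div_ne_zero hx0q hx0q'
  have hσ0 : σ ≠ 0 := by rw [hσ]; exact div_ne_zero hy0q hy0q'
  have hρx : (x : ℚ) = ρ * x' := by rw [hρ]; field_simp
  have hσy : (y : ℚ) = σ * y' := by rw [hσ]; field_simp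
  have ρ1 := Rat.mul_den_eq_num ρ
  have σ1 := Rat.mul_den_eq_num σ
  have hM1 : (1 : ℤ) ≤ (M : ℤ) := by exact_mod_cast hρM.one_le
  obtain ⟨g, hg⟩ : ∃ g : Fin (d + 1) → Fin (d + 1) → ℤ, g = fun i j =>
      c i j * (ρ.num ^ (i : ℕ) * (ρ.den : ℤ) ^ (d - (i : ℕ))) *
        (σ.num ^ (j : ℕ) * (σ.den : ℤ) ^ (d - (j : ℕ))) := ⟨_, rfl⟩
  have hpw : ∀ (τ : ℚ) (i : Fin (d + 1)), (τ.num : ℚ) ^ (i : ℕ) * (τ.den : ℚ) ^ (d - (i : ℕ)) =
      (τ.den : ℚ) ^ d * τ ^ (i : ℕ) := by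
    intro τ i
    have hi : (i : ℕ) ≤ d := Nat.lt_succ_iff.1 i.2
    have e1 : (τ.den : ℚ) ^ d = (τ.den : ℚ) ^ (i : ℕ) * (τ.den : ℚ) ^ (d - (i : ℕ)) := by
      rw [← pow_add]
      congr 1
      omega
    have τ1 := Rat.mul_den_eq_num τ
    rw [← τ1, e1, mul_pow]
    ring
  have hgq : ∀ i j, ((g i j : ℤ) : ℚ) = (ρ.den : ℚ) ^ d * (σ.den : ℚ) ^ d *
      ((c i j : ℚ) * ρ ^ (i : ℕ) * σ ^ (j : ℕ)) := by
    intro i j
    rw [hg]
    push_cast
    rw [hpw ρ i, hpw σ j]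
    ring
  have hρd : (ρ.den : ℚ) ≠ 0 := by exact_mod_cast ρ.den_nz
  have hσd : (σ.den : ℚ) ≠ 0 := by exact_mod_cast σ.den_nz
  have hg0 : ∀ i j, g i j = 0 ↔ c' i j = 0 := by
    intro i j
    rw [← hsupp]
    constructor
    · intro h0
      have := hgq i j
      rw [h0, Int.cast_zero] at this
      have h1 := (mul_eq_zero.1 this.symm).resolve_left
        (mul_ne_zero (pow_ne_zero _ hρd) (pow_ne_zero _ hσd))
      have h2 := (mul_eq_zero.1 h1).resolve_right (pow_ne_zero _ hσ0)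
      have h3 := (mul_eq_zero.1 h2).resolve_right (pow_ne_zero _ hρ0)
      exact_mod_cast h3
    · intro h0
      rw [hg]
      simp [h0]
  have hgz : ∑ i, ∑ j, g i j * x' ^ (i : ℕ) * y' ^ (j : ℕ) = 0 := by
    have e1 : ((∑ i, ∑ j, g i j * x' ^ (i : ℕ) * y' ^ (j : ℕ) : ℤ) : ℚ) =
        (ρ.den : ℚ) ^ d * (σ.den : ℚ) ^ d *
          ((∑ i, ∑ j, c i j * x ^ (i : ℕ) * y ^ (j : ℕ) : ℤ) : ℚ) := by
      push_cast
      rw [Finset.mul_sum]
      refine Finset.sum_congr rfl fun i _ => ?_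
      rw [Finset.mul_sum]
      refine Finset.sum_congr rfl fun j _ => ?_
      rw [hgq, hρx, hσy, mul_pow, mul_pow]
      ring
    rw [h, Int.cast_zero, mul_zero] at e1
    exact_mod_cast e1
  have hB0 : (0 : ℤ) ≤ (d + 1) * (H * (M : ℤ) ^ (2 * d)) := by positivity
  have hpm : ∀ {τ : ℚ}, HtLe M τ → ∀ i : Fin (d + 1),
      |τ.num ^ (i : ℕ) * (τ.den : ℤ) ^ (d - (i : ℕ))| ≤ (M : ℤ) ^ d := by
    intro τ hτ i
    have hi : (i : ℕ) ≤ d := Nat.lt_succ_iff.1 i.2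
    rw [abs_mul, abs_pow, abs_pow]
    calc |τ.num| ^ (i : ℕ) * |((τ.den : ℕ) : ℤ)| ^ (d - (i : ℕ)) ≤
          (M : ℤ) ^ (i : ℕ) * (M : ℤ) ^ (d - (i : ℕ)) :=
          mul_le_mul (pow_le_pow_left₀ (abs_nonneg _) hτ.1 _)
            (pow_le_pow_left₀ (abs_nonneg _) hτ.den_abs _) (by positivity) (by positivity)
      _ = (M : ℤ) ^ d := by
          rw [← pow_add]
          congr 1
          omega
  have hgH : ∀ i j, |g i j| ≤ H * (M : ℤ) ^ (2 * d) := by
    intro i j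
    rw [hg]
    simp only
    rw [abs_mul, abs_mul]
    calc |c i j| * |ρ.num ^ (i : ℕ) * (ρ.den : ℤ) ^ (d - (i : ℕ))| *
          |σ.num ^ (j : ℕ) * (σ.den : ℤ) ^ (d - (j : ℕ))| ≤ H * (M : ℤ) ^ d * (M : ℤ) ^ d :=
          mul_le_mul (mul_le_mul (hc i j) (hpm hρM i) (abs_nonneg _) hH) (hpm hσM j)
            (abs_nonneg _) (by positivity)
      _ = H * (M : ℤ) ^ (2 * d) := by rw [two_mul, pow_add]; ring
  have hcH' : ∀ i j, |c' i j| ≤ H * (M : ℤ) ^ (2 * d) := fun i j =>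
    (hc' i j).trans (le_mul_of_one_le_right hH (one_le_pow₀ hM1))
  have hHM : (0 : ℤ) ≤ H * (M : ℤ) ^ (2 * d) := by positivity
  have hdeg : (poly2 g).natDegree = (poly2 c').natDegree := by
    refine natDegree_congr fun j => ?_
    constructor
    · intro h0
      ext i
      rw [coeff_zero]
      exact (poly2_coeff_iff hg0 i j).1 (by rw [h0, coeff_zero])
    · intro h0
      ext i
      rw [coeff_zero]
      exact (poly2_coeff_iff hg0 i j).2 (by rw [h0, coeff_zero])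
  have hdvd : poly2 c' ∣ poly2 g := by
    refine dvd_of_common hirr hdep (x := x') (y := y') ?_ ?_ hB0 (poly2_N1 hHM hcH')
      (poly2_N1 hHM hgH) ?_
    · rw [poly2_eval]; exact h'
    · rw [poly2_eval]; exact hgz
    · refine lt_of_le_of_lt ?_ htall
      have h1 : (poly2 c').natDegree + (poly2 g).natDegree ≤ 2 * d := by
        have := poly2_natDegree c'
        have := poly2_natDegree g
        omega
      have hH1 : 1 ≤ H := by
        by_contra hcon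
        have hH0 : H = 0 := by omega
        have hz : poly2 c' = 0 := by
          unfold poly2
          refine Finset.sum_eq_zero fun j _ => ?_
          have : ∀ i, c' i j = 0 := fun i => by
            have := hc' i j
            rw [hH0] at this
            exact abs_nonpos_iff.1 this
          simp [this]
        rw [hz, natDegree_zero] at hdep
        exact lt_irrefl _ hdep
      have hB1 : (1 : ℤ) ≤ (d + 1) * (H * (M : ℤ) ^ (2 * d)) := by
        have h2 : (1 : ℤ) ≤ (M : ℤ) ^ (2 * d) := one_le_pow₀ hM1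
        have h3 : (1 : ℤ) ≤ H * (M : ℤ) ^ (2 * d) := one_le_mul_of_one_le_of_one_le hH1 h2
        have h4 : (0 : ℤ) ≤ (d : ℤ) := by positivity
        nlinarith
      refine mul_le_mul ?_ (pow_le_pow_right₀ hB1 h1) (by positivity) (by positivity)
      exact_mod_cast Nat.factorial_le h1
  obtain ⟨k, hk⟩ := hdvd
  have hF0 : poly2 c' ≠ 0 := hirr.ne_zero
  have hG0 : poly2 g ≠ 0 := by
    intro h0
    rw [h0, natDegree_zero] at hdeg
    omega
  have hk0 : k ≠ 0 := by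
    rintro rfl
    rw [mul_zero] at hk
    exact hG0 hk
  have hkdeg : k.natDegree = 0 := by
    have := natDegree_mul hF0 hk0
    rw [← hk, hdeg] at this
    omega
  obtain ⟨u, hu⟩ : ∃ u : ℤ[X], k = C u := ⟨_, eq_C_of_natDegree_eq_zero hkdeg⟩
  have hu0 : u ≠ 0 := by
    rintro rfl
    rw [C_0] at hu
    exact hk0 hu
  have hcoef : ∀ j, (poly2 g).coeff j = (poly2 c').coeff j * u := by
    intro j
    rw [hk, hu, coeff_mul_C]
  have hlead : (poly2 c').coeff (poly2 c').natDegree ≠ 0 := by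
    rw [coeff_natDegree]
    exact leadingCoeff_ne_zero.2 hF0
  have hudeg : u.natDegree = 0 := by
    have h1 := natDegree_mul hlead hu0
    rw [← hcoef] at h1
    have h2 : ((poly2 g).coeff (poly2 c').natDegree).natDegree =
        ((poly2 c').coeff (poly2 c').natDegree).natDegree :=
      natDegree_congr fun i => poly2_coeff_iff hg0 i _
    omega
  obtain ⟨v, hv⟩ : ∃ v : ℤ, u = C v := ⟨_, eq_C_of_natDegree_eq_zero hudeg⟩
  refine ⟨(v : ℚ) / ((ρ.den : ℚ) ^ d * (σ.den : ℚ) ^ d), fun i j => ?_⟩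
  have h1 : g i j = c' i j * v := by
    rw [← poly2_coeff g i j, hcoef, hv, coeff_mul_C, poly2_coeff]
  have h2 := hgq i j
  rw [h1] at h2
  push_cast at h2
  rw [div_mul_eq_mul_div, eq_div_iff (mul_ne_zero (pow_ne_zero _ hρd) (pow_ne_zero _ hσd))]
  linear_combination -h2

end Pool.Agent.Y902.GN
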