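import Mathlib
import Pool.Agent.Y902.GN.Ir2
import Pool.Agent.Y902.GN.Tc4
import Pool.Agent.Y902.GN.Sc2

/-!
# Points of irreducible plane curves: the count
-/

set_option autoImplicit false

namespace Pool.Agent.Y902.GN

open Polynomial

/-- points of irreducible plane curves -/
structure IrPt (d N E K : ℕ) (δ : ℝ) (Y : ℕ) (c : Fin (d + 1) → Fin (d + 1) → ℤ) (x y : ℤ) :
    Prop where
  irr : Irreducible (poly2 c)
  dep : 0 < (poly2 c).natDegree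
  c1 : ∀ i j, |c i j| ≤ (Y : ℤ) ^ E
  eqn : ∑ i, ∑ j, c i j * x ^ (i : ℕ) * y ^ (j : ℕ) = 0
  tc : TcPt (κ := Fin (d + 1) × Fin (d + 1)) (fun p => ![(p.1 : ℕ), (p.2 : ℕ)]) 1 N E δ Y
    (fun _ p => c p.1 p.2) ![x, y]
  tall : (Y : ℤ) ^ K < |x|

/-- equivalence -/
def IrEq {d : ℕ} (B : ℕ) (c c' : Fin (d + 1) → Fin (d + 1) → ℤ) (x y x' y' : ℤ) : Prop :=
  ∃ ρ σ κ : ℚ, ρ ≠ 0 ∧ σ ≠ 0 ∧ κ ≠ 0 ∧ HtLe B ρ ∧ HtLe B σ ∧ (x : ℚ) = ρ * x' ∧
    (y : ℚ) = σ * y' ∧ ∀ i j, (c i j : ℚ) * ρ ^ (i : ℕ) * σ ^ (j : ℕ) = κ * c' i j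

theorem IrEq.refl {d B : ℕ} (hB : 1 ≤ B) (c : Fin (d + 1) → Fin (d + 1) → ℤ) (x y : ℤ) :
    IrEq B c c x y x y :=
  ⟨1, 1, 1, one_ne_zero, one_ne_zero, one_ne_zero, HtLe.one.mono hB, HtLe.one.mono hB, by ring,
    by ring, fun i j => by rw [one_pow, one_pow]; ring⟩

theorem IrEq.symm {d B : ℕ} {c c' : Fin (d + 1) → Fin (d + 1) → ℤ} {x y x' y' : ℤ}
    (h : IrEq B c c' x y x' y') : IrEq B c' c x' y' x y := by
  obtain ⟨ρ, σ, κ, h1, h2, h3, hρ, hσ, h4, h5, h6⟩ := h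
  refine ⟨ρ⁻¹, σ⁻¹, κ⁻¹, inv_ne_zero h1, inv_ne_zero h2, inv_ne_zero h3, hρ.inv h1, hσ.inv h2,
    ?_, ?_, fun i j => ?_⟩
  · rw [h4]
    field_simp
  · rw [h5]
    field_simp
  · have h7 := h6 i j
    have h8 : (c' i j : ℚ) = κ⁻¹ * ((c i j : ℚ) * ρ ^ (i : ℕ) * σ ^ (j : ℕ)) := by
      rw [h7]
      field_simp
    rw [h8, inv_pow, inv_pow]
    have e1 : ρ ^ (i : ℕ) ≠ 0 := pow_ne_zero _ h1
    have e2 : σ ^ (j : ℕ) ≠ 0 := pow_ne_zero _ h2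
    field_simp

theorem poly2_ne {d : ℕ} {c : Fin (d + 1) → Fin (d + 1) → ℤ} (h : Irreducible (poly2 c)) :
    ∃ i j, c i j ≠ 0 := by
  by_contra hcon
  push Not at hcon
  apply h.ne_zero
  unfold poly2
  refine Finset.sum_eq_zero fun j _ => ?_
  rw [Finset.sum_eq_zero fun i _ => by rw [hcon i j, monomial_zero_right], monomial_zero_right]

theorem TcPt.mono {κ : Type*} [Fintype κ] {n : ℕ} {m : κ → Fin n → ℕ} {r N E : ℕ} {δ δ' : ℝ}
    {Y : ℕ} {c : Fin r → κ → ℤ} {x : Fin n → ℤ} (h : TcPt m r N E δ Y c x) (hδ : δ ≤ δ')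
    (hY : 1 ≤ Y) : TcPt m r N E δ' Y c x :=
  ⟨h.c1, h.eqn, h.tor, fun i => (h.hx i).trans (Real.exp_le_exp.2
    (Real.rpow_le_rpow_of_exponent_le (by exact_mod_cast hY) hδ)), h.rep⟩

theorem ir_num {d E C Y K : ℕ} (hY : 2 ≤ Y)
    (hK : (2 * d).factorial + (d + 1 + E + 4 * C * d) * (2 * d) ≤ K) :
    ((2 * d).factorial : ℤ) * ((d + 1) * ((Y : ℤ) ^ E * (((Y + 2) ^ C : ℕ) : ℤ) ^ (2 * d))) ^
      (2 * d) ≤ (Y : ℤ) ^ K := by
  have hYi : (2 : ℤ) ≤ (Y : ℤ) := by exact_mod_cast hY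
  have hY1 : (1 : ℤ) ≤ (Y : ℤ) := by linarith
  have h2 : ∀ k : ℕ, (k : ℤ) ≤ (Y : ℤ) ^ k := by
    intro k
    have h1 : (k : ℤ) < (2 : ℤ) ^ k := by exact_mod_cast (Nat.lt_two_pow_self (n := k))
    exact h1.le.trans (pow_le_pow_left₀ (by norm_num) hYi _)
  have h3 : (((Y + 2) ^ C : ℕ) : ℤ) ≤ (Y : ℤ) ^ (2 * C) := by
    have h4 : (Y : ℤ) + 2 ≤ (Y : ℤ) ^ 2 := by nlinarith
    push_cast
    calc ((Y : ℤ) + 2) ^ C ≤ ((Y : ℤ) ^ 2) ^ C := pow_le_pow_left₀ (by positivity) h4 _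
      _ = (Y : ℤ) ^ (2 * C) := by rw [← pow_mul]
  have h5 : ((d : ℤ) + 1) ≤ (Y : ℤ) ^ (d + 1) := by
    have := h2 (d + 1)
    push_cast at this
    exact this
  have h6 : ((d : ℤ) + 1) * ((Y : ℤ) ^ E * (((Y + 2) ^ C : ℕ) : ℤ) ^ (2 * d)) ≤
      (Y : ℤ) ^ (d + 1 + E + 4 * C * d) := by
    calc ((d : ℤ) + 1) * ((Y : ℤ) ^ E * (((Y + 2) ^ C : ℕ) : ℤ) ^ (2 * d)) ≤
          (Y : ℤ) ^ (d + 1) * ((Y : ℤ) ^ E * ((Y : ℤ) ^ (2 * C)) ^ (2 * d)) := by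
          refine mul_le_mul h5 (mul_le_mul_of_nonneg_left
            (pow_le_pow_left₀ (by positivity) h3 _) (by positivity)) (by positivity)
            (by positivity)
      _ = (Y : ℤ) ^ (d + 1 + E + 4 * C * d) := by
          rw [← pow_mul, ← pow_add, ← pow_add]
          congr 1
          ring
  calc ((2 * d).factorial : ℤ) * ((d + 1) * ((Y : ℤ) ^ E *
        (((Y + 2) ^ C : ℕ) : ℤ) ^ (2 * d))) ^ (2 * d) ≤
        (Y : ℤ) ^ (2 * d).factorial * ((Y : ℤ) ^ (d + 1 + E + 4 * C * d)) ^ (2 * d) :=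
        mul_le_mul (h2 _) (pow_le_pow_left₀ (by positivity) h6 _) (by positivity) (by positivity)
    _ = (Y : ℤ) ^ ((2 * d).factorial + (d + 1 + E + 4 * C * d) * (2 * d)) := by
        rw [← pow_mul, ← pow_add]
    _ ≤ _ := pow_le_pow_right₀ hY1 hK

/-- close points are equivalent -/
theorem ir_near {d N E K C : ℕ} {δ : ℝ} {Y : ℕ} {c c' : Fin (d + 1) → Fin (d + 1) → ℤ}
    {x y x' y' : ℤ} (h : IrPt d N E K δ Y c x y) (h' : IrPt d N E K δ Y c' x' y') (hY : 2 ≤ Y)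
    (hsupp : ∀ i j, c i j = 0 ↔ c' i j = 0)
    (hK : (2 * d).factorial + (d + 1 + E + 4 * C * d) * (2 * d) ≤ K)
    (hcl : CloseC C Y ![x, y] ![x', y']) : IrEq ((Y + 2) ^ C) c c' x y x' y' := by
  have hx : x ≠ 0 := h.tc.ne 0
  have hy : y ≠ 0 := h.tc.ne 1
  have hx' : x' ≠ 0 := h'.tc.ne 0
  have hy' : y' ≠ 0 := h'.tc.ne 1
  have hxq : (x : ℚ) ≠ 0 := by exact_mod_cast hx
  have hxq' : (x' : ℚ) ≠ 0 := by exact_mod_cast hx'
  have hyq : (y : ℚ) ≠ 0 := by exact_mod_cast hy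
  have hyq' : (y' : ℚ) ≠ 0 := by exact_mod_cast hy'
  obtain ⟨κ, hκ⟩ := curve_exact (H := (Y : ℤ) ^ E) (M := (Y + 2) ^ C) (by positivity) h.c1 h'.c1
    hsupp h'.irr h'.dep hx hy hx' hy' h.eqn h'.eqn (hcl 0) (hcl 1)
    (lt_of_le_of_lt (ir_num hY hK) h'.tall)
  refine ⟨(x : ℚ) / x', (y : ℚ) / y', κ, div_ne_zero hxq hxq', div_ne_zero hyq hyq', ?_, hcl 0,
    hcl 1, ?_, ?_, hκ⟩
  · rintro rfl
    obtain ⟨i, j, hij⟩ := poly2_ne h.irr
    have h1 := hκ i j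
    rw [zero_mul] at h1
    have h2 : (c i j : ℚ) ≠ 0 := by exact_mod_cast hij
    exact mul_ne_zero (mul_ne_zero h2 (pow_ne_zero _ (div_ne_zero hxq hxq')))
      (pow_ne_zero _ (div_ne_zero hyq hyq')) h1
  · field_simp
  · field_simp

/-- **Few classes of points of irreducible plane curves.** -/
theorem ir_count (d N E : ℕ) (ε : ℝ) (hε : 0 < ε) : ∃ (K C : ℕ) (δ : ℝ), 0 < δ ∧
    ∀ (Y : ℕ), 2 ≤ Y → ∀ (T : Finset ((Fin (d + 1) → Fin (d + 1) → ℤ) × ℤ × ℤ)),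
      (∀ t ∈ T, IrPt d N E K δ Y t.1 t.2.1 t.2.2) →
      (∀ t ∈ T, ∀ t' ∈ T, t ≠ t' →
        ¬ IrEq ((Y + 2) ^ C) t.1 t'.1 t.2.1 t.2.2 t'.2.1 t'.2.2) →
      (T.card : ℝ) ≤ (Y : ℝ) ^ ε := by
  classical
  obtain ⟨C, δ0, hδ0, H⟩ := tc (κ := Fin (d + 1) × Fin (d + 1))
    (fun p => ![(p.1 : ℕ), (p.2 : ℕ)]) 1 N E (ε / 2) (by positivity)
  obtain ⟨δ, hδ, hδa, hδb⟩ : ∃ δ : ℝ, 0 < δ ∧ δ ≤ δ0 ∧ δ ≤ 1 :=
    ⟨min δ0 1, by positivity, min_le_left _ _, min_le_right _ _⟩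
  obtain ⟨p0, hp0⟩ : ∃ p0 : ℕ, p0 = (d + 1) * (d + 1) := ⟨_, rfl⟩
  obtain ⟨Y1, hY1⟩ : ∃ Y1 : ℕ, Y1 = ⌈((2 : ℝ) ^ p0) ^ (2 / ε)⌉₊ := ⟨_, rfl⟩
  obtain ⟨K, hKd⟩ : ∃ K : ℕ, K = (2 * d).factorial + (d + 1 + E + 4 * C * d) * (2 * d) + 2 * Y1 :=
    ⟨_, rfl⟩
  refine ⟨K, C, δ, hδ, fun Y hY T hT hne' => ?_⟩
  have hYr : (1 : ℝ) ≤ (Y : ℝ) := by exact_mod_cast (by omega : 1 ≤ Y)
  have hY0 : (0 : ℝ) < (Y : ℝ) := by linarith
  rcases T.eq_empty_or_nonempty with rfl | ⟨t0, ht0⟩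
  · rw [Finset.card_empty, Nat.cast_zero]
    positivity
  have hYY1 : Y1 ≤ Y := by
    by_contra hcon
    push Not at hcon
    have h1 := hT t0 ht0
    have h2 : ((Y : ℝ)) ^ K < Real.exp Y := by
      have e1 : ((Y : ℝ)) ^ K < ((|t0.2.1| : ℤ) : ℝ) := by exact_mod_cast h1.tall
      refine e1.trans_le ((h1.tc.hx 0).trans (Real.exp_le_exp.2 ?_))
      calc (Y : ℝ) ^ δ ≤ (Y : ℝ) ^ (1 : ℝ) := Real.rpow_le_rpow_of_exponent_le hYr hδb
        _ = _ := Real.rpow_one _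
    have h3 : Real.exp (Y : ℝ) ≤ (2 : ℝ) ^ (2 * Y) := by
      rw [← Real.exp_log (show (0 : ℝ) < 2 ^ (2 * Y) by positivity), Real.log_pow]
      apply Real.exp_le_exp.2
      have h5 : (1 : ℝ) / 2 < Real.log 2 := by
        have := Real.log_two_gt_d9
        linarith
      push_cast
      nlinarith
    have h4 : (2 : ℝ) ^ (2 * Y) ≤ (Y : ℝ) ^ K := by
      calc (2 : ℝ) ^ (2 * Y) ≤ (2 : ℝ) ^ K := pow_le_pow_right₀ (by norm_num) (by omega)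
        _ ≤ (Y : ℝ) ^ K := pow_le_pow_left₀ (by norm_num) (by exact_mod_cast hY) _
    linarith
  have h2d : (2 : ℝ) ^ p0 ≤ (Y : ℝ) ^ (ε / 2) := by
    have h1 : ((2 : ℝ) ^ p0) ^ (2 / ε) ≤ (Y : ℝ) := by
      refine (Nat.le_ceil _).trans ?_
      exact_mod_cast (by omega : ⌈((2 : ℝ) ^ p0) ^ (2 / ε)⌉₊ ≤ Y)
    have h2 := Real.rpow_le_rpow (by positivity) h1 (show (0 : ℝ) ≤ ε / 2 by positivity)
    rwa [← Real.rpow_mul (by positivity), show 2 / ε * (ε / 2) = 1 by field_simp,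
      Real.rpow_one] at h2
  obtain ⟨su, hsu⟩ : ∃ su : (Fin (d + 1) → Fin (d + 1) → ℤ) × ℤ × ℤ →
      Finset (Fin (d + 1) × Fin (d + 1)), su = fun t =>
      Finset.univ.filter fun p => t.1 p.1 p.2 ≠ 0 := ⟨_, rfl⟩
  have hsu' : ∀ t t', su t = su t' → ∀ i j, t.1 i j = 0 ↔ t'.1 i j = 0 := by
    intro t t' htt i j
    have h1 : (i, j) ∈ su t ↔ (i, j) ∈ su t' := by rw [htt]
    rw [hsu] at h1
    simp only [Finset.mem_filter, Finset.mem_univ, true_and] at h1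
    exact not_iff_not.1 h1
  have hfib : ∀ I ∈ T.image su, (T.filter fun t => su t = I).card ≤ ⌊(Y : ℝ) ^ (ε / 2)⌋₊ := by
    intro I _
    apply Nat.le_floor
    have hnear : ∀ t ∈ T.filter (fun t => su t = I), ∀ t' ∈ T.filter (fun t => su t = I),
        CloseC C Y ![t.2.1, t.2.2] ![t'.2.1, t'.2.2] → t = t' := by
      intro t ht t' ht' hn
      obtain ⟨h1, h2⟩ := Finset.mem_filter.1 ht
      obtain ⟨h3, h4⟩ := Finset.mem_filter.1 ht'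
      by_contra hcon
      exact hne' t h1 t' h3 hcon (ir_near (hT t h1) (hT t' h3) hY (hsu' t t' (by rw [h2, h4]))
        (by omega) hn)
    have hinj : Set.InjOn (fun t : (Fin (d + 1) → Fin (d + 1) → ℤ) × ℤ × ℤ =>
        (![t.2.1, t.2.2] : Fin 2 → ℤ))
        (T.filter fun t => su t = I : Finset ((Fin (d + 1) → Fin (d + 1) → ℤ) × ℤ × ℤ)) := by
      intro t ht t' ht' htt
      refine hnear t (Finset.mem_coe.1 ht) t' (Finset.mem_coe.1 ht') ?_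
      have htt' : (![t.2.1, t.2.2] : Fin 2 → ℤ) = ![t'.2.1, t'.2.2] := htt
      rw [htt']
      have hx' := (hT t' (Finset.mem_filter.1 (Finset.mem_coe.1 ht')).1).tc.ne
      intro i
      rw [div_self (by exact_mod_cast hx' i)]
      exact HtLe.one.mono (one_le_pow₀ (by omega))
    rw [← Finset.card_image_of_injOn hinj]
    refine H Y hY _ ?_ ?_
    · intro a ha
      obtain ⟨t, ht, rfl⟩ := Finset.mem_image.1 ha
      obtain ⟨h1, h2⟩ := Finset.mem_filter.1 ht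
      exact ⟨_, (hT t h1).tc.mono hδa (by omega)⟩
    · intro a ha a' ha' haa hn
      obtain ⟨t, ht, rfl⟩ := Finset.mem_image.1 ha
      obtain ⟨t', ht', rfl⟩ := Finset.mem_image.1 ha'
      exact haa (by rw [hnear t ht t' ht' hn])
  have hfin := Finset.card_le_mul_card_image (f := su) T ⌊(Y : ℝ) ^ (ε / 2)⌋₊ hfib
  have himg : ((T.image su).card : ℝ) ≤ (2 : ℝ) ^ p0 := by
    have h1 : (T.image su).card ≤ 2 ^ p0 := by
      refine (Finset.card_le_univ _).trans ?_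
      rw [hp0]
      simp
    exact_mod_cast h1
  calc (T.card : ℝ) ≤ ((⌊(Y : ℝ) ^ (ε / 2)⌋₊ * (T.image su).card : ℕ) : ℝ) := by
        exact_mod_cast hfin
    _ = (⌊(Y : ℝ) ^ (ε / 2)⌋₊ : ℝ) * ((T.image su).card : ℝ) := by push_cast; rfl
    _ ≤ (Y : ℝ) ^ (ε / 2) * (Y : ℝ) ^ (ε / 2) :=
        mul_le_mul (Nat.floor_le (by positivity)) (himg.trans h2d) (by positivity) (by positivity)
    _ = (Y : ℝ) ^ ε := by
        rw [← Real.rpow_add hY0]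
        congr 1
        ring

/-- the second coordinate is small if the first one is -/
theorem other_le {d : ℕ} {c : Fin (d + 1) → Fin (d + 1) → ℤ} {H B : ℤ}
    (hirr : Irreducible (poly2 c)) (hdep : 0 < (poly2 c).natDegree) (hc : ∀ i j, |c i j| ≤ H)
    {x y : ℤ} (hy : y ≠ 0) (hB : 1 ≤ B) (hx : |x| ≤ B)
    (h : ∑ i, ∑ j, c i j * x ^ (i : ℕ) * y ^ (j : ℕ) = 0) : |y| ≤ (d + 1) * (H * B ^ d) := by
  classical
  obtain ⟨a, ha⟩ : ∃ a : Fin (d + 1) → ℤ, a = fun j => ∑ i, c i j * x ^ (i : ℕ) := ⟨_, rfl⟩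
  have h1 : ∑ j, a j * y ^ (j : ℕ) = 0 := by
    rw [← h, Finset.sum_comm]
    refine Finset.sum_congr rfl fun j _ => ?_
    rw [ha, Finset.sum_mul]
  have hH : 0 ≤ H := (abs_nonneg _).trans (hc 0 0)
  have hale : ∀ j, |a j| ≤ (d + 1) * (H * B ^ d) := by
    intro j
    rw [ha]
    calc |∑ i, c i j * x ^ (i : ℕ)| ≤ ∑ i, |c i j * x ^ (i : ℕ)| :=
          Finset.abs_sum_le_sum_abs _ _
      _ ≤ ∑ _i : Fin (d + 1), H * B ^ d := by
          refine Finset.sum_le_sum fun i _ => ?_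
          rw [abs_mul, abs_pow]
          refine mul_le_mul (hc i j) ((pow_le_pow_left₀ (abs_nonneg _) hx _).trans
            (pow_le_pow_right₀ hB (Nat.lt_succ_iff.1 i.2))) (by positivity) hH
      _ = _ := by
          rw [Finset.sum_const, Finset.card_univ, Fintype.card_fin, nsmul_eq_mul]
          push_cast
          ring
  by_cases hall : ∀ j, a j = 0
  · exfalso
    have h2 : (C (X - C x) : ℤ[X][X]) ∣ poly2 c := by
      rw [C_dvd_iff_dvd_coeff]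
      intro j
      rcases lt_or_ge j (d + 1) with hj | hj
      · rw [dvd_iff_isRoot, IsRoot.def]
        have e2 := coeff_sum_fin (fun j => ∑ i : Fin (d + 1), monomial (i : ℕ) (c i j)) ⟨j, hj⟩
        simp only at e2
        unfold poly2
        rw [e2, eval_finset_sum]
        have e3 := hall ⟨j, hj⟩
        rw [ha] at e3
        refine Eq.trans (Finset.sum_congr rfl fun i _ => ?_) e3
        rw [eval_monomial]
      · have e1 : (poly2 c).coeff j = 0 := coeff_sum_fin' _ hj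
        rw [e1]
        exact dvd_zero _
    have h3 : ¬ IsUnit (C (X - C x) : ℤ[X][X]) := by
      rw [isUnit_C]
      intro hu
      have := natDegree_eq_zero_of_isUnit hu
      rw [natDegree_X_sub_C] at this
      exact one_ne_zero this
    have h4 := (hirr.dvd_iff.1 h2).resolve_left h3
    have h5 : (poly2 c).natDegree = 0 := by
      obtain ⟨u, hu⟩ := h4
      have h6 : poly2 c ∣ C (X - C x) := ⟨u, hu.symm⟩
      have h7 : (C (X - C x) : ℤ[X][X]) ≠ 0 := by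
        rw [Ne, C_eq_zero]
        exact X_sub_C_ne_zero x
      have := natDegree_le_of_dvd h6 h7
      rw [natDegree_C] at this
      omega
    omega
  · push Not at hall
    obtain ⟨j0, hj0, hmin⟩ := Finset.exists_min_image
      (Finset.univ.filter fun j : Fin (d + 1) => a j ≠ 0) (fun j => (j : ℕ))
      ⟨hall.choose, by simp [hall.choose_spec]⟩
    have hj0' : a j0 ≠ 0 := (Finset.mem_filter.1 hj0).2
    have hdvd : y ^ ((j0 : ℕ) + 1) ∣ a j0 * y ^ (j0 : ℕ) := by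
      rw [← Finset.add_sum_erase _ _ (Finset.mem_univ j0)] at h1
      have h2 : a j0 * y ^ (j0 : ℕ) = -∑ j ∈ Finset.univ.erase j0, a j * y ^ (j : ℕ) := by
        linarith
      rw [h2, dvd_neg]
      refine Finset.dvd_sum fun j hj => ?_
      by_cases haj : a j = 0
      · rw [haj, zero_mul]
        exact dvd_zero _
      · have h3 := hmin j (by rw [Finset.mem_filter]; exact ⟨Finset.mem_univ _, haj⟩)
        have h4 : (j : ℕ) ≠ (j0 : ℕ) := fun h5 => (Finset.mem_erase.1 hj).1 (Fin.ext h5)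
        exact Dvd.dvd.mul_left (pow_dvd_pow _ (by omega)) _
    have hdvd2 : y ∣ a j0 := by
      rw [pow_succ, mul_comm] at hdvd
      exact (mul_dvd_mul_iff_right (pow_ne_zero (j0 : ℕ) hy)).1 hdvd
    exact (Int.le_of_dvd (abs_pos.2 hj0') ((abs_dvd_abs _ _).2 hdvd2)).trans (hale j0)

end Pool.Agent.Y902.GN
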