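import Mathlib
import Pool.Agent.Y902.GN.Lp

/-!
# Solutions whose small parts are bounded
-/

set_option autoImplicit false

namespace Pool.Agent.Y902.GN

/-- representations by pairwise coprime bases -/
structure RepGood (n N R : ℕ) (δ : ℝ) (Y M : ℕ) (u : Fin n → ℤ)
    (a : Fin n → ℤ) (x : Fin N → ℕ) (e : Fin n → Fin N → ℕ) : Prop where
  x1 : ∀ j, 1 ≤ x j ∧ x j ≤ Y
  xc : ∀ j k, j ≠ k → (x j).Coprime (x k)
  ha : ∀ i, (a i).natAbs = ∏ j, x j ^ e i j
  gcd : Finset.univ.gcd a = 1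
  sum : ∑ i, u i * a i = 0
  nvs : ∀ K : Finset (Fin n), K.Nonempty → K ≠ Finset.univ → ∑ i ∈ K, u i * a i ≠ 0
  hi : ∀ i, ((|a i| : ℤ) : ℝ) ≤ Real.exp ((Y : ℝ) ^ δ)
  small : ∀ i, ∏ j, (if R ≤ e i j then 1 else x j ^ e i j) ≤ M

variable {n N R : ℕ} {δ : ℝ} {Y M : ℕ} {u : Fin n → ℤ} {a : Fin n → ℤ} {x : Fin N → ℕ}
  {e : Fin n → Fin N → ℕ}

theorem RepGood.nz (h : RepGood n N R δ Y M u a x e) (i : Fin n) : a i ≠ 0 := by
  have h1 := h.ha i
  have h2 : ∏ j, x j ^ e i j ≠ 0 := Finset.prod_ne_zero_iff.2 fun j _ =>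
    pow_ne_zero _ (by have := (h.x1 j).1; omega)
  intro h3
  rw [h3, Int.natAbs_zero] at h1
  exact h2 h1.symm

theorem RepGood.lp (h : RepGood n N R δ Y M u a x e) :
    LpGood n N 0 R δ Y u (fun i => ∏ j, if R ≤ e i j then x j ^ e i j else 1) a
      (fun i => SignType.sign (a i)) x e := by
  refine ⟨h.x1, h.xc, fun i => ?_, fun i => ?_, h.nz, fun d hd => ?_, h.sum, h.nvs, h.hi,
    fun i => rfl⟩
  · rw [pow_zero]
    rcases lt_trichotomy (a i) 0 with h1 | h1 | h1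
    · rw [sign_neg h1]; simp
    · rw [h1]; simp
    · rw [sign_pos h1]; simp
  · have h1 : ∏ j, (x j : ℤ) ^ e i j = ((a i).natAbs : ℤ) := by
      rw [h.ha i]
      push_cast
      rfl
    rw [h1, ← Int.abs_eq_natAbs]
    exact (sign_mul_abs (a i)).symm
  · have h1 : (d : ℤ) ∣ Finset.univ.gcd a := Finset.dvd_gcd fun i _ => hd i
    rw [h.gcd] at h1
    have h2 := Int.natAbs_dvd_natAbs.2 h1
    simpa using h2

theorem RepGood.split (h : RepGood n N R δ Y M u a x e) (i : Fin n) :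
    a i = (SignType.sign (a i) : ℤ) * ((∏ j, (if R ≤ e i j then x j ^ e i j else 1) : ℕ) *
      (∏ j, (if R ≤ e i j then 1 else x j ^ e i j) : ℕ)) := by
  have h1 : (∏ j, (if R ≤ e i j then x j ^ e i j else 1)) *
      (∏ j, (if R ≤ e i j then 1 else x j ^ e i j)) = (a i).natAbs := by
    rw [h.ha i, ← Finset.prod_mul_distrib]
    refine Finset.prod_congr rfl fun j _ => ?_
    split_ifs <;> simp
  rw [← Nat.cast_mul, h1, ← Int.abs_eq_natAbs]
  exact (sign_mul_abs (a i)).symm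

theorem camp (n N : ℕ) (ε : ℝ) (hε : 0 < ε) : ∃ (R : ℕ) (δ : ℝ), 0 < δ ∧
    ∀ (M Y : ℕ), 1 ≤ Y → ∀ (u : Fin n → ℤ), (∀ i, u i ≠ 0 ∧
      ((|u i| : ℤ) : ℝ) ≤ Real.exp ((Y : ℝ) ^ δ)) → ∀ (T : Finset (Fin n → ℤ)),
      (∀ a ∈ T, ∃ (x : Fin N → ℕ) (e : Fin n → Fin N → ℕ), RepGood n N R δ Y M u a x e) →
      (T.card : ℝ) ≤ ((3 * (M + 1)) ^ n : ℕ) * (Y : ℝ) ^ ε := by
  classical
  obtain ⟨R, δ, hδ, h⟩ := lp n N 0 ε hε
  refine ⟨R, δ, hδ, fun M Y hY u hu T hT => ?_⟩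
  choose! x e hxe using hT
  -- the large parts
  obtain ⟨A, hA⟩ : ∃ A : (Fin n → ℤ) → Fin n → ℕ, ∀ a i, A a i =
      ∏ j, if R ≤ e a i j then x a j ^ e a i j else 1 := ⟨_, fun _ _ => rfl⟩
  obtain ⟨B, hB⟩ : ∃ B : (Fin n → ℤ) → Fin n → ℕ, ∀ a i, B a i =
      ∏ j, if R ≤ e a i j then 1 else x a j ^ e a i j := ⟨_, fun _ _ => rfl⟩
  have h1 : ((T.image A).card : ℝ) ≤ (Y : ℝ) ^ ε := by
    refine h Y hY u hu _ fun A' hA' => ?_
    obtain ⟨a, ha, rfl⟩ := Finset.mem_image.1 hA'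
    have h2 := (hxe a ha).lp
    have h3 : (fun i => ∏ j, if R ≤ e a i j then x a j ^ e a i j else 1) = A a :=
      funext fun i => (hA a i).symm
    rw [h3] at h2
    exact ⟨a, _, _, _, h2⟩
  let W : Finset ((Fin n → ℕ) × ((Fin n → ℕ) × (Fin n → SignType))) :=
    (T.image A) ×ˢ ((Fintype.piFinset fun _ : Fin n => Finset.range (M + 1)) ×ˢ Finset.univ)
  have h4 : T.card ≤ W.card := by
    refine Finset.card_le_card_of_injOn (fun a => (A a, (B a, fun i => SignType.sign (a i)))) ?_ ?_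
    · intro a ha
      have ha' : a ∈ T := ha
      simp only [W, Finset.coe_product, Set.mem_prod, Finset.mem_coe]
      refine ⟨Finset.mem_image_of_mem _ ha', ?_, Finset.mem_univ _⟩
      rw [Fintype.mem_piFinset]
      intro i
      rw [Finset.mem_range, hB]
      have := (hxe a ha').small i
      omega
    · intro a ha a' ha' haa
      simp only [Prod.mk.injEq] at haa
      obtain ⟨e1, e2, e3⟩ := haa
      funext i
      rw [(hxe a ha).split i, (hxe a' ha').split i, ← hA, ← hB, ← hA, ← hB, e1, e2,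
        congrFun e3 i]
  have h5 : W.card = (T.image A).card * ((M + 1) ^ n * 3 ^ n) := by
    simp only [W]
    rw [Finset.card_product, Finset.card_product, Fintype.card_piFinset_const, Finset.card_range,
      Finset.card_univ, Fintype.card_pi_const, show Fintype.card SignType = 3 from rfl]
  calc (T.card : ℝ) ≤ (W.card : ℝ) := by exact_mod_cast h4
    _ = ((T.image A).card : ℝ) * (((3 * (M + 1)) ^ n : ℕ) : ℝ) := by
        rw [h5, mul_pow, mul_comm (3 ^ n)]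
        push_cast
        ring
    _ ≤ (Y : ℝ) ^ ε * (((3 * (M + 1)) ^ n : ℕ) : ℝ) :=
        mul_le_mul_of_nonneg_right h1 (Nat.cast_nonneg _)
    _ = _ := mul_comm _ _

end Pool.Agent.Y902.GN
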