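import Mathlib
import Pool.Agent.Y902.GN.Sp

/-!
# Sums of powers of linear forms: the theorem
-/

set_option autoImplicit false

namespace Pool.Agent.Y902.GN

open Filter

theorem blockB {n m : ℕ} {Y : ℕ → ℕ} (hY : ∀ m : ℕ, ∀ᶠ ν in (Uf : Filter ℕ), m ≤ Y ν)
    {A : ℕ → Finset (Fin n → ℤ)} (hA : Big Y A) (c : ℕ → ℤ)
    (hx : ∀ᶠ ν in (Uf : Filter ℕ), ∀ x ∈ A ν, ∀ j, x j + c ν ≠ 0 ∧ |x j + c ν| ≤ (Y ν : ℤ))
    (B : Finset (Fin m)) (b s : ℕ → (Fin n → ℤ) → Fin m → ℤ)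
    (hbb : ∀ᶠ ν in (Uf : Filter ℕ), ∀ x ∈ A ν, ∀ i ∈ B, b ν x i ≠ 0 ∧ |b ν x i| ≤ (Y ν : ℤ))
    (hss : ∀ᶠ ν in (Uf : Filter ℕ), ∀ x ∈ A ν, ∀ i ∈ B, s ν x i ≠ 0 ∧ |s ν x i| ≤ (Y ν : ℤ))
    (d w : ℕ → ℕ) (hd : Few Y d) (hw : Few Y w)
    (hl : ∀ m : ℕ, ∀ᶠ ν in (Uf : Filter ℕ), m ≤ d ν)
    (u : ℕ → Fin m → ℤ) (hu : ∀ᶠ ν in (Uf : Filter ℕ), ∀ i ∈ B, u ν i ≠ 0 ∧ |u ν i| ≤ 2 ^ w ν)
    (h0 : ∀ᶠ ν in (Uf : Filter ℕ), ∀ x ∈ A ν, ∑ i ∈ B, u ν i * (s ν x i * b ν x i ^ d ν) = 0)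
    (hv : ∀ᶠ ν in (Uf : Filter ℕ), ∀ x ∈ A ν, ∀ K ⊆ B, K.Nonempty →
      K ≠ B → ∑ i ∈ K, u ν i * (s ν x i * b ν x i ^ d ν) ≠ 0) :
    ∃ A' : ℕ → Finset (Fin n → ℤ), (∀ᶠ ν in (Uf : Filter ℕ), A' ν ⊆ A ν) ∧ Big Y A' ∧
      ∀ i ∈ B, ∀ i' ∈ B, ∀ᶠ ν in (Uf : Filter ℕ), ∀ x ∈ A' ν, ∀ x' ∈ A' ν,
        b ν x i * b ν x' i' = b ν x' i * b ν x i' := by
  classical
  let e : Fin B.card ≃ B := B.equivFin.symm
  have hsum : ∀ f : Fin m → ℤ, ∑ q : Fin B.card, f (e q).1 = ∑ i ∈ B, f i := by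
    intro f
    rw [Equiv.sum_comp e (fun i : B => f i.1)]
    exact Finset.sum_coe_sort B f
  obtain ⟨A', h1, h2, h3⟩ := block (k := B.card) hY hA c hx (fun ν x q => b ν x (e q).1)
    (fun ν x q => s ν x (e q).1)
    (by filter_upwards [hbb] with ν hν x hx q using hν x hx _ (e q).2)
    (by filter_upwards [hss] with ν hν x hx q using hν x hx _ (e q).2)
    d w hd hw hl (fun ν q => u ν (e q).1)
    (by filter_upwards [hu] with ν hν q using hν _ (e q).2)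
    (by
      filter_upwards [h0] with ν hν x hx
      rw [hsum fun i => u ν i * (s ν x i * b ν x i ^ d ν)]
      exact hν x hx)
    (by
      filter_upwards [hv] with ν hν x hx K hK1 hK2
      have h4 := hν x hx (K.map (e.toEmbedding.trans (Function.Embedding.subtype _))) (by
        intro i hi
        obtain ⟨q, _, rfl⟩ := Finset.mem_map.1 hi
        exact (e q).2) (hK1.map) (by
        intro hcon
        apply hK2
        have h5 := congrArg Finset.card hcon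
        rw [Finset.card_map] at h5
        apply Finset.eq_univ_of_card
        rw [h5, Fintype.card_fin])
      rw [Finset.sum_map] at h4
      exact h4)
  refine ⟨A', h1, h2, fun i hi i' hi' => ?_⟩
  have h4 := h3 (e.symm ⟨i, hi⟩) (e.symm ⟨i', hi'⟩)
  simp only [Equiv.apply_symm_apply] at h4
  exact h4

/-- **Sums of powers of linear forms.** -/
theorem sp (n m E : ℕ) (ε : ℝ) (hε : 0 < ε) : ∃ (R : ℕ) (δ : ℝ), 0 < δ ∧
    ∀ (Y : ℕ), 1 ≤ Y → ∀ d : ℕ, R ≤ d → (d : ℝ) ≤ (Y : ℝ) ^ δ → ∀ (u : Fin m → ℤ),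
      (∀ i, ((|u i| : ℤ) : ℝ) ≤ Real.exp ((Y : ℝ) ^ δ)) → ∀ (h : Fin m → Fin n → ℤ),
      (∀ i j, |h i j| ≤ (Y : ℤ) ^ E) →
      ∀ (T : Finset (Fin n → ℤ)), (∀ x ∈ T, ∃ s : Fin m → ℤ, SpGood n m E d Y u h x s) →
      (T.card : ℝ) ≤ (Y : ℝ) ^ ε := by
  classical
  by_contra hcon
  push Not at hcon
  have hseq := fun ν : ℕ => hcon (ν + 1) (1 / ((ν : ℝ) + 1)) (by positivity)
  choose Y0 hY1 d hd1 hd2 u hu h hh T hT hc using hseq
  have hY1' : ∀ ν, (1 : ℝ) ≤ (Y0 ν : ℝ) := fun ν => by exact_mod_cast hY1 ν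
  have hdY : ∀ ν, d ν ≤ Y0 ν := by
    intro ν
    have h1 : (d ν : ℝ) ≤ (Y0 ν : ℝ) := by
      refine (hd2 ν).trans ?_
      calc (Y0 ν : ℝ) ^ (1 / ((ν : ℝ) + 1)) ≤ (Y0 ν : ℝ) ^ (1 : ℝ) := by
            apply Real.rpow_le_rpow_of_exponent_le (hY1' ν)
            rw [div_le_one (by positivity)]
            have : (0 : ℝ) ≤ (ν : ℝ) := Nat.cast_nonneg _
            linarith
        _ = (Y0 ν : ℝ) := Real.rpow_one _
    exact_mod_cast h1
  have hY0 : ∀ m : ℕ, ∀ᶠ ν in (Uf : Filter ℕ), m ≤ Y0 ν := by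
    intro m
    filter_upwards [ev_ge m] with ν hν
    have := hd1 ν
    have := hdY ν
    omega
  obtain ⟨Y, hYd⟩ : ∃ Y : ℕ → ℕ, ∀ ν, Y ν = Y0 ν ^ (E + 2) := ⟨_, fun _ => rfl⟩
  have hYY : ∀ ν, Y0 ν ≤ Y ν := fun ν => by
    rw [hYd]
    exact Nat.le_self_pow (by omega) _
  have hY : ∀ m : ℕ, ∀ᶠ ν in (Uf : Filter ℕ), m ≤ Y ν := fun m =>
    (hY0 m).mono fun ν hν => hν.trans (hYY ν)
  have hYYe : ∀ᶠ ν in (Uf : Filter ℕ), Y0 ν ≤ Y ν := Filter.Eventually.of_forall hYY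
  have hbig : Big Y T := by
    refine big_of_card (ε := ε / (E + 2)) (by positivity) (hY 2) (Filter.Eventually.of_forall
      fun ν => ?_)
    rw [hYd]
    push_cast
    rw [← Real.rpow_natCast, ← Real.rpow_mul (by positivity)]
    have : ((E + 2 : ℕ) : ℝ) * (ε / ((E : ℝ) + 2)) = ε := by
      push_cast
      field_simp
    rw [this]
    exact hc ν
  choose! s hs using hT
  -- the patterns
  have hpat : ∀ ν x, x ∈ T ν → ∃ P : Finset (Finset (Fin m)),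
      (∀ B ∈ P, B.Nonempty ∧ ∑ i ∈ B, u ν i * (s ν x i * lin (h ν i) x ^ d ν) = 0 ∧
        ∀ K ⊆ B, K.Nonempty → K ≠ B → ∑ i ∈ K, u ν i * (s ν x i * lin (h ν i) x ^ d ν) ≠ 0) ∧
      P.biUnion id = (Finset.univ.filter fun i =>
        u ν i * (s ν x i * lin (h ν i) x ^ d ν) ≠ 0) ∧
      Set.PairwiseDisjoint (P : Set (Finset (Fin m))) id := by
    intro ν x hx
    refine min_blocks _ _ _ le_rfl ?_
    rw [Finset.sum_filter_ne_zero]
    exact (hs ν x hx).sum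
  choose! pat hpat1 hpat2 hpat3 using hpat
  obtain ⟨A0, a1, a2, a3⟩ := hbig.fiber (fun ν x => pat ν x) (fun _ => Finset.univ)
    (Filter.Eventually.of_forall fun ν t _ => Finset.mem_univ _) (Few.const hY _)
  obtain ⟨P, hP⟩ : ∃ P : Finset (Finset (Fin m)), ∀ᶠ ν in (Uf : Filter ℕ),
      ∀ x ∈ A0 ν, pat ν x = P := by
    apply ev_exists
    filter_upwards [a2.nonempty, a3] with ν h1 h2
    obtain ⟨x0, hx0⟩ := h1
    exact ⟨pat ν x0, fun x hx => h2 x hx x0 hx0⟩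
  have hdis : Set.PairwiseDisjoint (P : Set (Finset (Fin m))) id := by
    obtain ⟨ν, h1, h2, h3⟩ := (a1.and (a2.nonempty.and hP)).exists
    obtain ⟨x0, hx0⟩ := h2
    rw [← h3 x0 hx0]
    exact hpat3 ν x0 (h1 hx0)
  -- bounds
  have hlb : ∀ᶠ ν in (Uf : Filter ℕ), ∀ x ∈ T ν, ∀ i, |lin (h ν i) x| ≤ (Y ν : ℤ) := by
    filter_upwards [hY0 n] with ν h1 x hx i
    refine (lin_bd (hh ν i) (hs ν x hx).x1).trans ?_
    rw [hYd]
    push_cast
    calc (n : ℤ) * ((Y0 ν : ℤ) ^ E * (Y0 ν : ℤ)) ≤ (Y0 ν : ℤ) * ((Y0 ν : ℤ) ^ E * (Y0 ν : ℤ)) := by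
          refine mul_le_mul_of_nonneg_right ?_ (by positivity)
          exact_mod_cast h1
      _ = (Y0 ν : ℤ) ^ (E + 2) := by ring
  have hxb : ∀ᶠ ν in (Uf : Filter ℕ), ∀ x ∈ T ν, ∀ j, x j + ((Y0 ν : ℤ) + 1) ≠ 0 ∧
      |x j + ((Y0 ν : ℤ) + 1)| ≤ (Y ν : ℤ) := by
    filter_upwards [hY0 3] with ν h1 x hx j
    have h2 := abs_le.1 ((hs ν x hx).x1 j)
    have h3 : (1 : ℤ) ≤ x j + ((Y0 ν : ℤ) + 1) := by linarith [h2.1]
    refine ⟨by omega, ?_⟩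
    rw [abs_of_pos (by omega), hYd]
    push_cast
    have h4 : (Y0 ν : ℤ) ^ 2 ≤ (Y0 ν : ℤ) ^ (E + 2) := pow_le_pow_right₀ (by omega) (by omega)
    have h5 : (3 : ℤ) ≤ (Y0 ν : ℤ) := by exact_mod_cast h1
    nlinarith [h2.2]
  have hsb : ∀ᶠ ν in (Uf : Filter ℕ), ∀ x ∈ T ν, ∀ i, s ν x i ≠ 0 ∧ |s ν x i| ≤ (Y ν : ℤ) := by
    refine Filter.Eventually.of_forall fun ν x hx i => ?_
    refine ⟨((hs ν x hx).s1 i).1, ((hs ν x hx).s1 i).2.trans ?_⟩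
    rw [hYd]
    push_cast
    exact pow_le_pow_right₀ (by exact_mod_cast hY1 ν) (by omega)
  have hdf : Few Y d := by
    refine ((few_rpow hY0 1).mono_Y hYYe).mono (Filter.Eventually.of_forall fun ν => ?_)
    have hdν : d ν ≤ ⌊((1 : ℕ) : ℝ) * (Y0 ν : ℝ) ^ (1 / ((ν : ℝ) + 1))⌋₊ := by
      apply Nat.le_floor
      rw [Nat.cast_one, one_mul]
      exact hd2 ν
    omega
  have hdl : ∀ m : ℕ, ∀ᶠ ν in (Uf : Filter ℕ), m ≤ d ν := fun m => by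
    filter_upwards [ev_ge m] with ν hν
    have := hd1 ν
    omega
  have hub : ∀ ν i, |u ν i| ≤ 2 ^ (⌊((2 : ℕ) : ℝ) * (Y0 ν : ℝ) ^ (1 / ((ν : ℝ) + 1))⌋₊ + 1) := by
    intro ν i
    have h5 := (hu ν i).trans (exp_le_two_pow (by positivity))
    exact_mod_cast h5
  -- the ratios are constant
  obtain ⟨A1, g1, g2, g3⟩ := Big.const_all (Y := Y)
    (P.biUnion fun B => (B ×ˢ B).image fun p => (B, p.1, p.2))
    (fun q ν x => ((lin (h ν q.2.1) x : ℚ) / (lin (h ν q.2.2) x : ℚ))) a2 (by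
      rintro ⟨B, i, i'⟩ hq A' hA' hbig'
      obtain ⟨B', hB', hq⟩ := Finset.mem_biUnion.1 hq
      obtain ⟨⟨j, j'⟩, hj, hjj⟩ := Finset.mem_image.1 hq
      simp only [Prod.mk.injEq] at hjj
      obtain ⟨rfl, rfl, rfl⟩ := hjj
      obtain ⟨hj1, hj2⟩ := Finset.mem_product.1 hj
      simp only at hj1 hj2
      have hin : ∀ᶠ ν in (Uf : Filter ℕ), ∀ x ∈ A' ν, x ∈ T ν ∧ pat ν x = P := by
        filter_upwards [hA', a1, hP] with ν h1 h2 h3 x hx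
        exact ⟨h2 (h1 hx), h3 x (h1 hx)⟩
      have hτ : ∀ᶠ ν in (Uf : Filter ℕ), ∀ x ∈ A' ν, ∀ i ∈ B',
          u ν i * (s ν x i * lin (h ν i) x ^ d ν) ≠ 0 := by
        filter_upwards [hin] with ν h1 x hx i hi
        obtain ⟨h2, h3⟩ := h1 x hx
        have h4 : i ∈ P.biUnion id := Finset.mem_biUnion.2 ⟨B', hB', hi⟩
        rw [← h3, hpat2 ν x h2] at h4
        exact (Finset.mem_filter.1 h4).2
      obtain ⟨A'', h1, h2, h3⟩ := blockB hY hbig' (fun ν => (Y0 ν : ℤ) + 1)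
        (by filter_upwards [hxb, hin] with ν k1 k2 x hx using k1 x (k2 x hx).1) B'
        (fun ν x i => lin (h ν i) x) (fun ν x i => s ν x i)
        (by
          filter_upwards [hlb, hin, hτ, hdl 1] with ν k1 k2 k3 k4 x hx i hi
          refine ⟨fun h0 => k3 x hx i hi ?_, k1 x (k2 x hx).1 i⟩
          rw [h0, zero_pow (by omega), mul_zero, mul_zero])
        (by filter_upwards [hsb, hin] with ν k1 k2 x hx i _ using k1 x (k2 x hx).1 i)
        d _ hdf ((few_rpow hY0 2).mono_Y hYYe) hdl u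
        (by
          filter_upwards [hτ, hbig'.nonempty] with ν k1 k2 i hi
          obtain ⟨x, hx⟩ := k2
          exact ⟨left_ne_zero_of_mul (k1 x hx i hi), hub ν i⟩)
        (by
          filter_upwards [hin] with ν k1 x hx
          obtain ⟨k2, k3⟩ := k1 x hx
          exact (hpat1 ν x k2 B' (by rw [k3]; exact hB')).2.1)
        (by
          filter_upwards [hin] with ν k1 x hx
          obtain ⟨k2, k3⟩ := k1 x hx
          exact (hpat1 ν x k2 B' (by rw [k3]; exact hB')).2.2)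
      refine ⟨A'', h1, h2, ?_⟩
      filter_upwards [h3 j hj1 j' hj2, h1, hτ, hdl 1] with ν k1 k2 k3 k4 x hx x' hx'
      have hne : ∀ x ∈ A'' ν, (lin (h ν j') x : ℚ) ≠ 0 := by
        intro x hx h0
        have h0' : lin (h ν j') x = 0 := by exact_mod_cast h0
        apply k3 x (k2 hx) j' hj2
        rw [h0', zero_pow (by omega), mul_zero, mul_zero]
      show (lin (h ν j) x : ℚ) / (lin (h ν j') x : ℚ) = (lin (h ν j) x' : ℚ) / (lin (h ν j') x' : ℚ)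
      rw [div_eq_div_iff (hne x hx) (hne x' hx')]
      exact_mod_cast k1 x hx x' hx')
  -- the end
  have g3' : ∀ᶠ ν in (Uf : Filter ℕ), ∀ B ∈ P, ∀ i ∈ B, ∀ i' ∈ B, ∀ x ∈ A1 ν, ∀ x' ∈ A1 ν,
      ((lin (h ν i) x : ℚ) / (lin (h ν i') x : ℚ)) =
        ((lin (h ν i) x' : ℚ) / (lin (h ν i') x' : ℚ)) := by
    rw [Filter.eventually_all_finset]
    intro B hB
    rw [Filter.eventually_all_finset]
    intro i hi
    rw [Filter.eventually_all_finset]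
    intro i' hi'
    exact g3 (B, i, i') (Finset.mem_biUnion.2 ⟨B, hB, Finset.mem_image.2
      ⟨(i, i'), Finset.mem_product.2 ⟨hi, hi'⟩, rfl⟩⟩)
  have hbig3 : ∀ᶠ ν in (Uf : Filter ℕ), 2 < (A1 ν).card := by
    obtain ⟨m', hm'⟩ := g2
    filter_upwards [hm', hY (2 ^ m')] with ν k1 k2
    by_contra hcon
    have k3 : (A1 ν).card ^ m' ≤ 2 ^ m' := Nat.pow_le_pow_left (by omega) m'
    omega
  obtain ⟨ν, k1, k2, k3, k4, k5, k6⟩ := (g1.and (a1.and (hP.and (g3'.and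
    (hbig3.and (hdl 1)))))).exists
  obtain ⟨x, hx⟩ : (A1 ν).Nonempty := Finset.card_pos.1 (by omega)
  obtain ⟨y, hy, hyx⟩ : ∃ y ∈ A1 ν, y ∉ ({x, -x} : Finset (Fin n → ℤ)) := by
    by_contra hcon
    push Not at hcon
    have h1 : A1 ν ⊆ ({x, -x} : Finset (Fin n → ℤ)) := fun y hy => hcon y hy
    have h2 := Finset.card_le_card h1
    have h3 : ({x, -x} : Finset (Fin n → ℤ)).card ≤ 2 := Finset.card_le_two
    omega
  simp only [Finset.mem_insert, Finset.mem_singleton, not_or] at hyx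
  have hxT := k2 (k1 hx)
  have hyT := k2 (k1 hy)
  have G := hs ν x hxT
  have G' := hs ν y hyT
  have px := k3 x (k1 hx)
  have py := k3 y (k1 hy)
  have hnz : ∀ z ∈ T ν, pat ν z = P → ∀ B ∈ P, ∀ i ∈ B, lin (h ν i) z ≠ 0 := by
    intro z hz hzP B hB i hi h0
    have h4 : i ∈ P.biUnion id := Finset.mem_biUnion.2 ⟨B, hB, hi⟩
    rw [← hzP, hpat2 ν z hz] at h4
    apply (Finset.mem_filter.1 h4).2
    rw [h0, zero_pow (by omega), mul_zero, mul_zero]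
  have hzz : ∀ z ∈ T ν, pat ν z = P → ∀ i, i ∉ P.biUnion id → u ν i = 0 ∨ lin (h ν i) z = 0 := by
    intro z hz hzP i hi
    rw [← hzP, hpat2 ν z hz] at hi
    by_contra hcon
    push Not at hcon
    apply hi
    refine Finset.mem_filter.2 ⟨Finset.mem_univ _, mul_ne_zero hcon.1 (mul_ne_zero
      ((hs ν z hz).s1 i).1 (pow_ne_zero _ hcon.2))⟩
  refine G.line ⟨y, prim_indep G.prim G'.prim (fun h => hyx.1 h.symm) (fun h => hyx.2 (by
    rw [h, neg_neg])), ?_⟩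
  refine line_aux (by omega) P hdis (fun B hB => (hpat1 ν x hxT B (by rw [px]; exact hB)).1)
    (fun B hB => (hpat1 ν x hxT B (by rw [px]; exact hB)).2.1)
    (fun B hB i hi => ⟨hnz x hxT px B hB i hi, hnz y hyT py B hB i hi⟩) ?_ ?_
  · intro B hB i hi i' hi'
    have e1 := k4 B hB i hi i' hi' x hx y hy
    have n2 : (lin (h ν i') x : ℚ) ≠ 0 := by exact_mod_cast hnz x hxT px B hB i' hi'
    have n3 : (lin (h ν i') y : ℚ) ≠ 0 := by exact_mod_cast hnz y hyT py B hB i' hi'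
    rw [div_eq_div_iff n2 n3] at e1
    exact_mod_cast e1
  · intro i hi
    rcases hzz x hxT px i hi with h1 | h1
    · exact Or.inl h1
    · rcases hzz y hyT py i hi with h2 | h2
      · exact Or.inl h2
      · exact Or.inr ⟨h1, h2⟩

end Pool.Agent.Y902.GN
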