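import Mathlib
import Pool.Agent.Y902.GN.Sp2
import Pool.Agent.Y902.GN.FinB

/-!
# Sums of powers of linear forms: all rational points lie on few linear subspaces
-/

set_option autoImplicit false

namespace Pool.Agent.Y902.GN

open Filter

/-- `P` is a partition of the set of indices of nonzero terms into minimal vanishing sums -/
structure Pat {n m : ℕ} (u : Fin m → ℤ) (h : Fin m → Fin n → ℤ) (d : ℕ) (s : Fin m → ℤ)
    (x : Fin n → ℤ) (P : Finset (Finset (Fin m))) : Prop where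
  blk : ∀ B ∈ P, B.Nonempty ∧ ∑ i ∈ B, u i * (s i * lin (h i) x ^ d) = 0 ∧
    ∀ K ⊆ B, K.Nonempty → K ≠ B → ∑ i ∈ K, u i * (s i * lin (h i) x ^ d) ≠ 0
  un : ∀ i, i ∈ P.biUnion id ↔ u i * (s i * lin (h i) x ^ d) ≠ 0
  dis : Set.PairwiseDisjoint (P : Set (Finset (Fin m))) id

theorem Pat.ex {n m : ℕ} {u : Fin m → ℤ} {h : Fin m → Fin n → ℤ} {d : ℕ} {s : Fin m → ℤ}
    {x : Fin n → ℤ} (h0 : spF u h d s x = 0) : ∃ P, Pat u h d s x P := by
  classical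
  obtain ⟨P, h1, h2, h3⟩ := min_blocks (fun i => u i * (s i * lin (h i) x ^ d)) _
    (Finset.univ.filter fun i => u i * (s i * lin (h i) x ^ d) ≠ 0) le_rfl (by
      rw [Finset.sum_filter_ne_zero]
      exact h0)
  refine ⟨P, h1, fun i => ?_, h3⟩
  rw [h2, Finset.mem_filter]
  exact ⟨fun h => h.2, fun h => ⟨Finset.mem_univ _, h⟩⟩

open Classical in
/-- the ratios of the linear forms in the blocks -/
noncomputable def ratios {n m : ℕ} (P : Finset (Finset (Fin m))) (h : Fin m → Fin n → ℤ)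
    (x : Fin n → ℤ) : Fin m → Fin m → ℚ := fun i i' =>
  if ∃ B ∈ P, i ∈ B ∧ i' ∈ B then (lin (h i) x : ℚ) / (lin (h i') x : ℚ) else 0

/-- the data of a solution with a given key -/
structure CovSol (n m E d Y : ℕ) (u : Fin m → ℤ) (h : Fin m → Fin n → ℤ)
    (κ : Finset (Finset (Fin m)) × (Fin m → Fin m → ℚ)) (x : Fin n → ℤ) (s : Fin m → ℤ) :
    Prop where
  x1 : ∀ j, |x j| ≤ (Y : ℤ)
  s1 : ∀ i, s i ≠ 0 ∧ |s i| ≤ (Y : ℤ) ^ E
  pat : Pat u h d s x κ.1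
  rat : κ.2 = ratios κ.1 h x

/-- **There are few keys.** -/
theorem covk (n m E : ℕ) (ε : ℝ) (hε : 0 < ε) : ∃ (R : ℕ) (δ : ℝ), 0 < δ ∧
    ∀ (Y : ℕ), 1 ≤ Y → ∀ d : ℕ, R ≤ d → (d : ℝ) ≤ (Y : ℝ) ^ δ → ∀ (u : Fin m → ℤ),
      (∀ i, ((|u i| : ℤ) : ℝ) ≤ Real.exp ((Y : ℝ) ^ δ)) → ∀ (h : Fin m → Fin n → ℤ),
      (∀ i j, |h i j| ≤ (Y : ℤ) ^ E) →
      ∀ (T : Finset (Finset (Finset (Fin m)) × (Fin m → Fin m → ℚ))),
        (∀ κ ∈ T, ∃ (x : Fin n → ℤ) (s : Fin m → ℤ), CovSol n m E d Y u h κ x s) →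
      (T.card : ℝ) ≤ (Y : ℝ) ^ ε := by
  classical
  by_contra hcon
  push Not at hcon
  have hseq := fun ν : ℕ => hcon (ν + 1) (1 / ((ν : ℝ) + 1)) (by positivity)
  choose Y0 hY1 d hd1 hd2 u hu h hh T hT hc using hseq
  have hY1' : ∀ ν, (1 : ℝ) ≤ (Y0 ν : ℝ) := fun ν => by exact_mod_cast hY1 ν
  have hdY : ∀ ν, d ν ≤ Y0 ν := by
    intro ν
    have h1 : (d ν : ℝ) ≤ (Y0 ν : ℝ) := by
      refine (hd2 ν).trans ?_
      calc (Y0 ν : ℝ) ^ (1 / ((ν : ℝ) + 1)) ≤ (Y0 ν : ℝ) ^ (1 : ℝ) := by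
            apply Real.rpow_le_rpow_of_exponent_le (hY1' ν)
            rw [div_le_one (by positivity)]
            have : (0 : ℝ) ≤ (ν : ℝ) := Nat.cast_nonneg _
            linarith
        _ = (Y0 ν : ℝ) := Real.rpow_one _
    exact_mod_cast h1
  have hY0 : ∀ m : ℕ, ∀ᶠ ν in (Uf : Filter ℕ), m ≤ Y0 ν := by
    intro m
    filter_upwards [ev_ge m] with ν hν
    have := hd1 ν
    have := hdY ν
    omega
  obtain ⟨Y, hYd⟩ : ∃ Y : ℕ → ℕ, ∀ ν, Y ν = Y0 ν ^ (E + 2) := ⟨_, fun _ => rfl⟩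
  have hYY : ∀ ν, Y0 ν ≤ Y ν := fun ν => by
    rw [hYd]
    exact Nat.le_self_pow (by omega) _
  have hY : ∀ m : ℕ, ∀ᶠ ν in (Uf : Filter ℕ), m ≤ Y ν := fun m =>
    (hY0 m).mono fun ν hν => hν.trans (hYY ν)
  have hYYe : ∀ᶠ ν in (Uf : Filter ℕ), Y0 ν ≤ Y ν := Filter.Eventually.of_forall hYY
  have hbig : Big Y T := by
    refine big_of_card (ε := ε / (E + 2)) (by positivity) (hY 2) (Filter.Eventually.of_forall
      fun ν => ?_)
    rw [hYd]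
    push_cast
    rw [← Real.rpow_natCast, ← Real.rpow_mul (by positivity)]
    have : ((E + 2 : ℕ) : ℝ) * (ε / ((E : ℝ) + 2)) = ε := by
      push_cast
      field_simp
    rw [this]
    exact hc ν
  -- the patterns
  obtain ⟨T0, a1, a2, a3⟩ := hbig.fiber (fun _ κ => κ.1) (fun _ => Finset.univ)
    (Filter.Eventually.of_forall fun ν t _ => Finset.mem_univ _) (Few.const hY _)
  obtain ⟨P, hP⟩ : ∃ P : Finset (Finset (Fin m)), ∀ᶠ ν in (Uf : Filter ℕ),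
      ∀ κ ∈ T0 ν, κ.1 = P := by
    apply ev_exists
    filter_upwards [a2.nonempty, a3] with ν h1 h2
    obtain ⟨κ0, hκ0⟩ := h1
    exact ⟨κ0.1, fun κ hκ => h2 κ hκ κ0 hκ0⟩
  choose! xx ss hs' using hT
  have hinj : ∀ᶠ ν in (Uf : Filter ℕ), Set.InjOn (xx ν) (T0 ν) := by
    filter_upwards [a1, hP] with ν h1 h2 κ hκ κ' hκ' hxx
    have e1 := (hs' ν κ (h1 hκ)).rat
    have e2 := (hs' ν κ' (h1 hκ')).rat
    rw [h2 κ hκ] at e1
    rw [h2 κ' hκ'] at e2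
    refine Prod.ext ?_ ?_
    · rw [h2 κ hκ, h2 κ' hκ']
    · rw [e1, e2, hxx]
  have hbigA := big_image a2 xx hinj
  have hkey : ∀ ν x, x ∈ (T0 ν).image (xx ν) → ∃ κ, κ ∈ T0 ν ∧ xx ν κ = x := by
    intro ν x hx
    exact Finset.mem_image.1 hx
  choose! key hkey1 hkey2 using hkey
  obtain ⟨s, hsd⟩ : ∃ s : ℕ → (Fin n → ℤ) → Fin m → ℤ, ∀ ν x, s ν x = ss ν (key ν x) :=
    ⟨_, fun _ _ => rfl⟩
  have hs : ∀ᶠ ν in (Uf : Filter ℕ), ∀ x ∈ (T0 ν).image (xx ν),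
      (∀ j, |x j| ≤ (Y0 ν : ℤ)) ∧ (∀ i, s ν x i ≠ 0 ∧ |s ν x i| ≤ (Y0 ν : ℤ) ^ E) ∧
      Pat (u ν) (h ν) (d ν) (s ν x) x P ∧ key ν x = (P, ratios P (h ν) x) := by
    filter_upwards [a1, hP] with ν h1 h2 x hx
    have h3 := hkey1 ν x hx
    have h4 := hkey2 ν x hx
    have h5 := hs' ν _ (h1 h3)
    rw [h4] at h5
    have h6 := h5.pat
    have h7 := h5.rat
    rw [h2 _ h3] at h6 h7
    refine ⟨h5.x1, ?_, ?_, Prod.ext (h2 _ h3) h7⟩
    · rw [hsd]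
      exact h5.s1
    · rw [hsd]
      exact h6
  -- bounds
  have hlb : ∀ᶠ ν in (Uf : Filter ℕ), ∀ x ∈ (T0 ν).image (xx ν), ∀ i,
      |lin (h ν i) x| ≤ (Y ν : ℤ) := by
    filter_upwards [hY0 n, hs] with ν h1 h2 x hx i
    refine (lin_bd (hh ν i) (h2 x hx).1).trans ?_
    rw [hYd]
    push_cast
    calc (n : ℤ) * ((Y0 ν : ℤ) ^ E * (Y0 ν : ℤ)) ≤ (Y0 ν : ℤ) * ((Y0 ν : ℤ) ^ E * (Y0 ν : ℤ)) := by
          refine mul_le_mul_of_nonneg_right ?_ (by positivity)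
          exact_mod_cast h1
      _ = (Y0 ν : ℤ) ^ (E + 2) := by ring
  have hxb : ∀ᶠ ν in (Uf : Filter ℕ), ∀ x ∈ (T0 ν).image (xx ν), ∀ j,
      x j + ((Y0 ν : ℤ) + 1) ≠ 0 ∧ |x j + ((Y0 ν : ℤ) + 1)| ≤ (Y ν : ℤ) := by
    filter_upwards [hY0 3, hs] with ν h1 h6 x hx j
    have h2 := abs_le.1 ((h6 x hx).1 j)
    have h3 : (1 : ℤ) ≤ x j + ((Y0 ν : ℤ) + 1) := by linarith [h2.1]
    refine ⟨by omega, ?_⟩
    rw [abs_of_pos (by omega), hYd]
    push_cast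
    have h4 : (Y0 ν : ℤ) ^ 2 ≤ (Y0 ν : ℤ) ^ (E + 2) := pow_le_pow_right₀ (by omega) (by omega)
    have h5 : (3 : ℤ) ≤ (Y0 ν : ℤ) := by exact_mod_cast h1
    nlinarith [h2.2]
  have hsb : ∀ᶠ ν in (Uf : Filter ℕ), ∀ x ∈ (T0 ν).image (xx ν), ∀ i,
      s ν x i ≠ 0 ∧ |s ν x i| ≤ (Y ν : ℤ) := by
    filter_upwards [hs] with ν h1 x hx i
    refine ⟨((h1 x hx).2.1 i).1, ((h1 x hx).2.1 i).2.trans ?_⟩
    rw [hYd]
    push_cast
    exact pow_le_pow_right₀ (by exact_mod_cast hY1 ν) (by omega)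
  have hdf : Few Y d := by
    refine ((few_rpow hY0 1).mono_Y hYYe).mono (Filter.Eventually.of_forall fun ν => ?_)
    have hdν : d ν ≤ ⌊((1 : ℕ) : ℝ) * (Y0 ν : ℝ) ^ (1 / ((ν : ℝ) + 1))⌋₊ := by
      apply Nat.le_floor
      rw [Nat.cast_one, one_mul]
      exact hd2 ν
    omega
  have hdl : ∀ m : ℕ, ∀ᶠ ν in (Uf : Filter ℕ), m ≤ d ν := fun m => by
    filter_upwards [ev_ge m] with ν hν
    have := hd1 ν
    omega
  have hub : ∀ ν i, |u ν i| ≤ 2 ^ (⌊((2 : ℕ) : ℝ) * (Y0 ν : ℝ) ^ (1 / ((ν : ℝ) + 1))⌋₊ + 1) := by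
    intro ν i
    have h5 := (hu ν i).trans (exp_le_two_pow (by positivity))
    exact_mod_cast h5
  -- the ratios are constant
  obtain ⟨A1, g1, g2, g3⟩ := Big.const_all (Y := Y)
    (P.biUnion fun B => (B ×ˢ B).image fun p => (B, p.1, p.2))
    (fun q ν x => ((lin (h ν q.2.1) x : ℚ) / (lin (h ν q.2.2) x : ℚ))) hbigA (by
      rintro ⟨B, i, i'⟩ hq A' hA' hbig'
      obtain ⟨B', hB', hq⟩ := Finset.mem_biUnion.1 hq
      obtain ⟨⟨j, j'⟩, hj, hjj⟩ := Finset.mem_image.1 hq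
      simp only [Prod.mk.injEq] at hjj
      obtain ⟨rfl, rfl, rfl⟩ := hjj
      obtain ⟨hj1, hj2⟩ := Finset.mem_product.1 hj
      simp only at hj1 hj2
      have hτ : ∀ᶠ ν in (Uf : Filter ℕ), ∀ x ∈ A' ν, ∀ i ∈ B',
          u ν i * (s ν x i * lin (h ν i) x ^ d ν) ≠ 0 := by
        filter_upwards [hA', hs] with ν h1 h2 x hx i hi
        exact ((h2 x (h1 hx)).2.2.1.un i).1 (Finset.mem_biUnion.2 ⟨B', hB', hi⟩)
      obtain ⟨A'', h1, h2, h3⟩ := blockB hY hbig' (fun ν => (Y0 ν : ℤ) + 1)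
        (by filter_upwards [hxb, hA'] with ν k1 k2 x hx using k1 x (k2 hx)) B'
        (fun ν x i => lin (h ν i) x) (fun ν x i => s ν x i)
        (by
          filter_upwards [hlb, hA', hτ, hdl 1] with ν k1 k2 k3 k4 x hx i hi
          refine ⟨fun h0 => k3 x hx i hi ?_, k1 x (k2 hx) i⟩
          rw [h0, zero_pow (by omega), mul_zero, mul_zero])
        (by filter_upwards [hsb, hA'] with ν k1 k2 x hx i _ using k1 x (k2 hx) i)
        d _ hdf ((few_rpow hY0 2).mono_Y hYYe) hdl u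
        (by
          filter_upwards [hτ, hbig'.nonempty] with ν k1 k2 i hi
          obtain ⟨x, hx⟩ := k2
          exact ⟨left_ne_zero_of_mul (k1 x hx i hi), hub ν i⟩)
        (by
          filter_upwards [hA', hs] with ν k1 k2 x hx
          exact ((k2 x (k1 hx)).2.2.1.blk B' hB').2.1)
        (by
          filter_upwards [hA', hs] with ν k1 k2 x hx
          exact ((k2 x (k1 hx)).2.2.1.blk B' hB').2.2)
      refine ⟨A'', h1, h2, ?_⟩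
      filter_upwards [h3 j hj1 j' hj2, h1, hτ, hdl 1] with ν k1 k2 k3 k4 x hx x' hx'
      have hne : ∀ x ∈ A'' ν, (lin (h ν j') x : ℚ) ≠ 0 := by
        intro x hx h0
        have h0' : lin (h ν j') x = 0 := by exact_mod_cast h0
        apply k3 x (k2 hx) j' hj2
        rw [h0', zero_pow (by omega), mul_zero, mul_zero]
      show (lin (h ν j) x : ℚ) / (lin (h ν j') x : ℚ) = (lin (h ν j) x' : ℚ) / (lin (h ν j') x' : ℚ)
      rw [div_eq_div_iff (hne x hx) (hne x' hx')]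
      exact_mod_cast k1 x hx x' hx')
  -- the end
  have g3' : ∀ᶠ ν in (Uf : Filter ℕ), ∀ B ∈ P, ∀ i ∈ B, ∀ i' ∈ B, ∀ x ∈ A1 ν, ∀ x' ∈ A1 ν,
      ((lin (h ν i) x : ℚ) / (lin (h ν i') x : ℚ)) =
        ((lin (h ν i) x' : ℚ) / (lin (h ν i') x' : ℚ)) := by
    rw [Filter.eventually_all_finset]
    intro B hB
    rw [Filter.eventually_all_finset]
    intro i hi
    rw [Filter.eventually_all_finset]
    intro i' hi'
    exact g3 (B, i, i') (Finset.mem_biUnion.2 ⟨B, hB, Finset.mem_image.2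
      ⟨(i, i'), Finset.mem_product.2 ⟨hi, hi'⟩, rfl⟩⟩)
  obtain ⟨ν, k1, k2, k3, k4⟩ := (g1.and (g3'.and (g2.one_lt.and hs))).exists
  obtain ⟨x, hx, y, hy, hxy⟩ := Finset.one_lt_card.1 k3
  have G := k4 x (k1 hx)
  have G' := k4 y (k1 hy)
  apply hxy
  rw [← hkey2 ν x (k1 hx), ← hkey2 ν y (k1 hy), G.2.2.2, G'.2.2.2]
  congr 2
  funext i i'
  unfold ratios
  by_cases hii : ∃ B ∈ P, i ∈ B ∧ i' ∈ B
  · rw [if_pos hii, if_pos hii]
    obtain ⟨B, hB, hi, hi'⟩ := hii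
    exact k2 B hB i hi i' hi' x hx y hy
  · rw [if_neg hii, if_neg hii]

/-- a linear form over the rational numbers -/
def linQ {n : ℕ} (h : Fin n → ℤ) (z : Fin n → ℚ) : ℚ := ∑ j, (h j : ℚ) * z j

theorem linQ_int {n : ℕ} (h x : Fin n → ℤ) : linQ h (fun j => (x j : ℚ)) = (lin h x : ℚ) := by
  unfold linQ lin
  push_cast
  rfl

/-- the subspace of a key -/
def keySub {n m : ℕ} (u : Fin m → ℤ) (h : Fin m → Fin n → ℤ)
    (κ : Finset (Finset (Fin m)) × (Fin m → Fin m → ℚ)) : Submodule ℚ (Fin n → ℚ) where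
  carrier := {z | (∀ B ∈ κ.1, ∀ i ∈ B, ∀ i' ∈ B, linQ (h i) z = κ.2 i i' * linQ (h i') z) ∧
    ∀ i, i ∉ κ.1.biUnion id → u i ≠ 0 → linQ (h i) z = 0}
  zero_mem' := by
    refine ⟨fun B _ i _ i' _ => ?_, fun i _ _ => ?_⟩ <;> simp [linQ]
  add_mem' := by
    rintro a b ⟨ha, ha'⟩ ⟨hb, hb'⟩
    have hadd : ∀ i, linQ (h i) (a + b) = linQ (h i) a + linQ (h i) b := by
      intro i
      unfold linQ
      rw [← Finset.sum_add_distrib]
      exact Finset.sum_congr rfl fun j _ => by rw [Pi.add_apply]; ring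
    refine ⟨fun B hB i hi i' hi' => ?_, fun i hi hu => ?_⟩
    · rw [hadd, hadd, ha B hB i hi i' hi', hb B hB i hi i' hi']
      ring
    · rw [hadd, ha' i hi hu, hb' i hi hu, add_zero]
  smul_mem' := by
    rintro c a ⟨ha, ha'⟩
    have hsm : ∀ i, linQ (h i) (c • a) = c * linQ (h i) a := by
      intro i
      unfold linQ
      rw [Finset.mul_sum]
      exact Finset.sum_congr rfl fun j _ => by rw [Pi.smul_apply, smul_eq_mul]; ring
    refine ⟨fun B hB i hi i' hi' => ?_, fun i hi hu => ?_⟩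
    · rw [hsm, hsm, ha B hB i hi i' hi']
      ring
    · rw [hsm, ha' i hi hu, mul_zero]

/-- the sum of powers over the rational numbers -/
def spFQ {n m : ℕ} (u : Fin m → ℤ) (h : Fin m → Fin n → ℤ) (d : ℕ) (s : Fin m → ℤ)
    (z : Fin n → ℚ) : ℚ := ∑ i, (u i : ℚ) * ((s i : ℚ) * linQ (h i) z ^ d)

theorem keySub_sub {n m d : ℕ} (hd : d ≠ 0) {u : Fin m → ℤ} {h : Fin m → Fin n → ℤ}
    {s : Fin m → ℤ} {x : Fin n → ℤ} {P : Finset (Finset (Fin m))} (hP : Pat u h d s x P)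
    {z : Fin n → ℚ} (hz : z ∈ keySub u h (P, ratios P h x)) : spFQ u h d s z = 0 := by
  classical
  obtain ⟨hz1, hz2⟩ := hz
  unfold spFQ
  rw [← Finset.sum_subset (Finset.subset_univ (P.biUnion id)) (fun i _ hi => ?_)]
  · rw [Finset.sum_biUnion hP.dis]
    refine Finset.sum_eq_zero fun B hB => ?_
    obtain ⟨⟨i0, hi0⟩, hB2, -⟩ := hP.blk B hB
    show ∑ i ∈ B, (u i : ℚ) * ((s i : ℚ) * linQ (h i) z ^ d) = 0
    have e1 : ∀ i ∈ B, (u i : ℚ) * ((s i : ℚ) * linQ (h i) z ^ d) =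
        ((u i * (s i * lin (h i) x ^ d) : ℤ) : ℚ) *
          (linQ (h i0) z / (lin (h i0) x : ℚ)) ^ d := by
      intro i hi
      have e2 := hz1 B hB i hi i0 hi0
      have e3 : (P, ratios P h x).2 i i0 = (lin (h i) x : ℚ) / (lin (h i0) x : ℚ) := by
        show ratios P h x i i0 = _
        unfold ratios
        rw [if_pos ⟨B, hB, hi, hi0⟩]
      rw [e2, e3]
      push_cast
      rw [div_pow, mul_pow, div_pow]
      ring
    rw [Finset.sum_congr rfl e1, ← Finset.sum_mul, ← Int.cast_sum, hB2, Int.cast_zero, zero_mul]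
  · by_cases hu : u i = 0
    · rw [hu, Int.cast_zero, zero_mul]
    · rw [hz2 i hi hu, zero_pow hd, mul_zero, mul_zero]

theorem mem_keySub {n m d : ℕ} (hd : d ≠ 0) {u : Fin m → ℤ} {h : Fin m → Fin n → ℤ}
    {s : Fin m → ℤ} {x : Fin n → ℤ} {P : Finset (Finset (Fin m))} (hP : Pat u h d s x P)
    (hs : ∀ i, s i ≠ 0) : (fun j => (x j : ℚ)) ∈ keySub u h (P, ratios P h x) := by
  classical
  refine ⟨fun B hB i hi i' hi' => ?_, fun i hi hu => ?_⟩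
  · show linQ (h i) _ = ratios P h x i i' * linQ (h i') _
    unfold ratios
    rw [if_pos ⟨B, hB, hi, hi'⟩, linQ_int, linQ_int]
    have hne : lin (h i') x ≠ 0 := by
      intro h0
      apply (hP.un i').1 (Finset.mem_biUnion.2 ⟨B, hB, hi'⟩)
      rw [h0, zero_pow hd, mul_zero, mul_zero]
    have hne' : (lin (h i') x : ℚ) ≠ 0 := by exact_mod_cast hne
    field_simp
  · rw [linQ_int]
    by_contra hcon
    apply hi
    refine (hP.un i).2 (mul_ne_zero hu (mul_ne_zero (hs i) (pow_ne_zero _ ?_)))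
    exact_mod_cast hcon

/-- **Few linear subspaces.** -/
theorem cov (n m E : ℕ) (ε : ℝ) (hε : 0 < ε) : ∃ (R : ℕ) (δ : ℝ), 0 < δ ∧
    ∀ (Y : ℕ), 1 ≤ Y → ∀ d : ℕ, R ≤ d → (d : ℝ) ≤ (Y : ℝ) ^ δ → ∀ (u : Fin m → ℤ),
      (∀ i, ((|u i| : ℤ) : ℝ) ≤ Real.exp ((Y : ℝ) ^ δ)) → ∀ (h : Fin m → Fin n → ℤ),
      (∀ i j, |h i j| ≤ (Y : ℤ) ^ E) →
      ∃ L : Finset (Submodule ℚ (Fin n → ℚ)), (L.card : ℝ) ≤ (Y : ℝ) ^ ε ∧
        ∀ (x : Fin n → ℤ) (s : Fin m → ℤ), (∀ j, |x j| ≤ (Y : ℤ)) →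
          (∀ i, s i ≠ 0 ∧ |s i| ≤ (Y : ℤ) ^ E) → spF u h d s x = 0 →
          ∃ V ∈ L, (fun j => (x j : ℚ)) ∈ V ∧ ∀ z ∈ V, spFQ u h d s z = 0 := by
  classical
  obtain ⟨R, δ, hδ, H⟩ := covk n m E ε hε
  refine ⟨R + 1, δ, hδ, fun Y hY d hd hdY u hu h hh => ?_⟩
  obtain ⟨h1, h2⟩ := fin_of_bound {κ : Finset (Finset (Fin m)) × (Fin m → Fin m → ℚ) |
    ∃ (x : Fin n → ℤ) (s : Fin m → ℤ), CovSol n m E d Y u h κ x s} ((Y : ℝ) ^ ε)
    fun T hT => H Y hY d (by omega) hdY u hu h hh T hT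
  refine ⟨h1.toFinset.image (keySub u h), ?_, ?_⟩
  · rw [Set.ncard_eq_toFinset_card _ h1] at h2
    refine le_trans ?_ h2
    exact_mod_cast Finset.card_image_le
  · intro x s hx hs h0
    obtain ⟨P, hP⟩ := Pat.ex h0
    refine ⟨keySub u h (P, ratios P h x), Finset.mem_image_of_mem _ (h1.mem_toFinset.2
      ⟨x, s, hx, hs, hP, rfl⟩), mem_keySub (by omega) hP fun i => (hs i).1, fun z hz =>
      keySub_sub (by omega) hP hz⟩

end Pool.Agent.Y902.GN
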