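import Mathlib
import Pool.Agent.Y902.GN.Cov

/-!
# Integral points on complements of sums of few high powers of linear forms
-/

set_option autoImplicit false

namespace Pool.Agent.Y902.GN

/-- a nonzero integer all of whose prime factors are in `S` -/
def SUn (S : Finset ℕ) (z : ℤ) : Prop := z ≠ 0 ∧ ∀ p : ℕ, p.Prime → (p : ℤ) ∣ z → p ∈ S

open Classical in
/-- there are few `S`-units of bounded size -/
theorem sunit_card (S : Finset ℕ) (K : ℕ) :
    ((Finset.Icc (-(2 ^ K : ℤ)) (2 ^ K)).filter (SUn S)).card ≤ 2 * (K + 1) ^ S.card := by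
  have h1 : ((Finset.Icc (-(2 ^ K : ℤ)) (2 ^ K)).filter (SUn S)).card ≤
      ((Finset.univ : Finset Bool) ×ˢ
        (Finset.univ : Finset (S → Fin (K + 1)))).card := by
    refine Finset.card_le_card_of_injOn (fun z => (decide (0 < z), fun p : S =>
      (⟨min (padicValNat p.1 z.natAbs) K, by omega⟩ : Fin (K + 1)))) ?_ ?_
    · intro z _
      exact Finset.mem_coe.2 (Finset.mem_product.2 ⟨Finset.mem_univ _, Finset.mem_univ _⟩)
    · intro z hz z' hz' hzz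
      obtain ⟨hz1, hz2⟩ := Finset.mem_filter.1 (Finset.mem_coe.1 hz)
      obtain ⟨hz1', hz2'⟩ := Finset.mem_filter.1 (Finset.mem_coe.1 hz')
      simp only [Prod.mk.injEq] at hzz
      have hval : ∀ z : ℤ, z ∈ Finset.Icc (-(2 ^ K : ℤ)) (2 ^ K) → z ≠ 0 → ∀ p : ℕ, p.Prime →
          padicValNat p z.natAbs ≤ K := by
        intro z hz hz0 p hp
        have : Fact p.Prime := ⟨hp⟩
        rw [Finset.mem_Icc] at hz
        have h2 : z.natAbs ≤ 2 ^ K := by
          have : |z| ≤ (2 : ℤ) ^ K := abs_le.2 hz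
          rw [Int.abs_eq_natAbs] at this
          exact_mod_cast this
        have h3 : 2 ^ padicValNat p z.natAbs ≤ 2 ^ K :=
          (Nat.pow_le_pow_left hp.two_le _).trans
            ((Nat.le_of_dvd (Int.natAbs_pos.2 hz0) pow_padicValNat_dvd).trans h2)
        exact (Nat.pow_le_pow_iff_right (by norm_num)).1 h3
      have hpv : ∀ p : ℕ, p.Prime → padicValNat p z.natAbs = padicValNat p z'.natAbs := by
        intro p hp
        by_cases hpS : p ∈ S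
        · have h3 := congrFun hzz.2 ⟨p, hpS⟩
          simp only [Fin.mk.injEq] at h3
          rw [min_eq_left (hval z hz1 hz2.1 p hp), min_eq_left (hval z' hz1' hz2'.1 p hp)] at h3
          exact h3
        · rw [padicValNat.eq_zero_of_not_dvd fun h => hpS (hz2.2 p hp (Int.natCast_dvd.2 h)),
            padicValNat.eq_zero_of_not_dvd fun h => hpS (hz2'.2 p hp (Int.natCast_dvd.2 h))]
      have habs : z.natAbs = z'.natAbs := by
        refine Nat.eq_of_factorization_eq (Int.natAbs_ne_zero.2 hz2.1)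
          (Int.natAbs_ne_zero.2 hz2'.1) fun p => ?_
        by_cases hp : p.Prime
        · rw [Nat.factorization_def _ hp, Nat.factorization_def _ hp]
          exact hpv p hp
        · rw [Nat.factorization_eq_zero_of_not_prime _ hp,
            Nat.factorization_eq_zero_of_not_prime _ hp]
      have hsg : 0 < z ↔ 0 < z' := by
        constructor
        · intro h
          have : decide (0 < z') = true := by rw [← hzz.1]; exact decide_eq_true h
          exact of_decide_eq_true this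
        · intro h
          have : decide (0 < z) = true := by rw [hzz.1]; exact decide_eq_true h
          exact of_decide_eq_true this
      have h0 := hz2.1
      have h0' := hz2'.1
      omega
  refine h1.trans (le_of_eq ?_)
  rw [Finset.card_product, Finset.card_univ, Finset.card_univ, Fintype.card_bool,
    Fintype.card_fun, Fintype.card_fin, Fintype.card_coe]

/-- the forms with one more variable -/
def hx1 {n m : ℕ} (h : Fin m → Fin n → ℤ) : Fin (m + 1) → Fin (n + 1) → ℤ :=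
  Fin.snoc (α := fun _ => Fin (n + 1) → ℤ) (fun i => Fin.snoc (α := fun _ => ℤ) (h i) 0)
    (Fin.snoc (α := fun _ => ℤ) (fun _ => 0) 1)

/-- one more entry -/
def sn {k : ℕ} (x : Fin k → ℤ) (a : ℤ) : Fin (k + 1) → ℤ := Fin.snoc (α := fun _ => ℤ) x a

/-- one more entry -/
def snQ {k : ℕ} (x : Fin k → ℚ) (a : ℚ) : Fin (k + 1) → ℚ := Fin.snoc (α := fun _ => ℚ) x a

theorem sn_castSucc {k : ℕ} (x : Fin k → ℤ) (a : ℤ) (j : Fin k) : sn x a j.castSucc = x j := by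
  unfold sn
  rw [Fin.snoc_castSucc]

theorem sn_last {k : ℕ} (x : Fin k → ℤ) (a : ℤ) : sn x a (Fin.last k) = a := by
  unfold sn
  rw [Fin.snoc_last]

theorem snQ_castSucc {k : ℕ} (x : Fin k → ℚ) (a : ℚ) (j : Fin k) : snQ x a j.castSucc = x j := by
  unfold snQ
  rw [Fin.snoc_castSucc]

theorem snQ_last {k : ℕ} (x : Fin k → ℚ) (a : ℚ) : snQ x a (Fin.last k) = a := by
  unfold snQ
  rw [Fin.snoc_last]

theorem hx1_castSucc {n m : ℕ} (h : Fin m → Fin n → ℤ) (i : Fin m) :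
    hx1 h i.castSucc = sn (h i) 0 := by
  unfold hx1 sn
  rw [Fin.snoc_castSucc]

theorem hx1_last {n m : ℕ} (h : Fin m → Fin n → ℤ) : hx1 h (Fin.last m) = sn (fun _ => 0) 1 := by
  unfold hx1 sn
  rw [Fin.snoc_last]

theorem lin_castSucc {n m : ℕ} (h : Fin m → Fin n → ℤ) (x : Fin n → ℤ) (i : Fin m) :
    lin (hx1 h i.castSucc) (sn x 1) = lin (h i) x := by
  unfold lin
  rw [Fin.sum_univ_castSucc, hx1_castSucc]
  simp only [sn_castSucc, sn_last]
  ring

theorem lin_last {n m : ℕ} (h : Fin m → Fin n → ℤ) (x : Fin n → ℤ) :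
    lin (hx1 h (Fin.last m)) (sn x 1) = 1 := by
  unfold lin
  rw [Fin.sum_univ_castSucc, hx1_last]
  simp only [sn_castSucc, sn_last]
  simp

theorem linQ_castSucc {n m : ℕ} (h : Fin m → Fin n → ℤ) (z : Fin n → ℚ) (i : Fin m) :
    linQ (hx1 h i.castSucc) (snQ z 1) = linQ (h i) z := by
  unfold linQ
  rw [Fin.sum_univ_castSucc, hx1_castSucc]
  simp only [sn_castSucc, sn_last, snQ_castSucc, snQ_last]
  push_cast
  ring

theorem linQ_last {n m : ℕ} (h : Fin m → Fin n → ℤ) (z : Fin n → ℚ) :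
    linQ (hx1 h (Fin.last m)) (snQ z 1) = 1 := by
  unfold linQ
  rw [Fin.sum_univ_castSucc, hx1_last]
  simp only [sn_castSucc, sn_last, snQ_castSucc, snQ_last]
  simp

theorem spF_sn {n m : ℕ} (u s : Fin m → ℤ) (h : Fin m → Fin n → ℤ) (d : ℕ) (x : Fin n → ℤ)
    (η : ℤ) : spF (sn u (-η)) (hx1 h) d (sn s 1) (sn x 1) = spF u h d s x - η := by
  unfold spF
  rw [Fin.sum_univ_castSucc]
  simp only [lin_castSucc, lin_last, sn_castSucc, sn_last, one_pow]
  ring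

theorem spFQ_sn {n m : ℕ} (u s : Fin m → ℤ) (h : Fin m → Fin n → ℤ) (d : ℕ) (z : Fin n → ℚ)
    (η : ℤ) : spFQ (sn u (-η)) (hx1 h) d (sn s 1) (snQ z 1) = spFQ u h d s z - η := by
  unfold spFQ
  rw [Fin.sum_univ_castSucc]
  simp only [linQ_castSucc, linQ_last, sn_castSucc, sn_last, one_pow]
  push_cast
  ring

/-- the slice of a linear subspace -/
def slice {n : ℕ} (V : Submodule ℚ (Fin (n + 1) → ℚ)) : AffineSubspace ℚ (Fin n → ℚ) where
  carrier := {z | snQ z 1 ∈ V}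
  smul_vsub_vadd_mem' := by
    intro c p1 p2 p3 h1 h2 h3
    have h4 : snQ (c • (p1 -ᵥ p2) +ᵥ p3) 1 = c • (snQ p1 1 - snQ p2 1) + snQ p3 1 := by
      funext j
      refine Fin.lastCases ?_ (fun j => ?_) j
      · rw [Pi.add_apply, Pi.smul_apply, Pi.sub_apply, snQ_last, snQ_last, snQ_last, snQ_last]
        simp
      · rw [Pi.add_apply, Pi.smul_apply, Pi.sub_apply, snQ_castSucc, snQ_castSucc, snQ_castSucc,
          snQ_castSucc]
        simp [vsub_eq_sub, vadd_eq_add]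
    show snQ (c • (p1 -ᵥ p2) +ᵥ p3) 1 ∈ V
    rw [h4]
    exact V.add_mem (V.smul_mem _ (V.sub_mem h1 h2)) h3

/-- the size of the values -/
theorem csize {n m E d Y : ℕ} {δ : ℝ} (hδ : 0 < δ) (hY : 1 ≤ Y)
    (hdY : (d : ℝ) ≤ (Y : ℝ) ^ δ) (hX : (m + 1 + n + (2 * E + 1) / δ : ℝ) ≤ (Y : ℝ) ^ δ)
    {u s : Fin m → ℤ} {h : Fin m → Fin n → ℤ} {x : Fin n → ℤ}
    (hu : ∀ i, ((|u i| : ℤ) : ℝ) ≤ Real.exp ((Y : ℝ) ^ δ))
    (hh : ∀ i j, |h i j| ≤ (Y : ℤ) ^ E) (hx : ∀ j, |x j| ≤ (Y : ℤ))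
    (hs : ∀ i, |s i| ≤ (Y : ℤ) ^ E) :
    ((|spF u h d s x| : ℤ) : ℝ) ≤ Real.exp ((Y : ℝ) ^ (3 * δ)) := by
  have hY1 : (1 : ℝ) ≤ (Y : ℝ) := by exact_mod_cast hY
  have hY0 : (0 : ℝ) < (Y : ℝ) := by linarith
  obtain ⟨X, hXd⟩ : ∃ X : ℝ, X = (Y : ℝ) ^ δ := ⟨_, rfl⟩
  rw [← hXd] at hdY hX hu
  have hX3 : (Y : ℝ) ^ (3 * δ) = X ^ 3 := by
    rw [hXd, mul_comm, Real.rpow_mul hY0.le]
    exact_mod_cast Real.rpow_natCast _ 3
  have hX1 : 1 ≤ X := by
    rw [hXd]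
    exact Real.one_le_rpow hY1 hδ.le
  have hYX : (Y : ℝ) ≤ Real.exp (X / δ) := by
    have h1 : Real.log (Y : ℝ) ≤ (Y : ℝ) ^ δ / δ := Real.log_le_rpow_div hY0.le hδ
    rw [← hXd] at h1
    calc (Y : ℝ) = Real.exp (Real.log Y) := (Real.exp_log hY0).symm
      _ ≤ _ := Real.exp_le_exp.2 h1
  have hnat : ∀ k : ℕ, (k : ℝ) ≤ Real.exp k := fun k => by
    have := Real.add_one_le_exp (k : ℝ)
    linarith
  have hpw : ∀ k : ℕ, (Y : ℝ) ^ k ≤ Real.exp (k * (X / δ)) := by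
    intro k
    rw [Real.exp_nat_mul]
    exact pow_le_pow_left₀ hY0.le hYX k
  have hlin : ∀ i, ((|lin (h i) x| : ℤ) : ℝ) ≤ Real.exp (n + (E + 1) * (X / δ)) := by
    intro i
    have h1 : ((|lin (h i) x| : ℤ) : ℝ) ≤ n * ((Y : ℝ) ^ E * Y) := by
      have := lin_bd (hh i) hx
      exact_mod_cast this
    refine h1.trans ?_
    have h2 : (Y : ℝ) ^ E * Y = (Y : ℝ) ^ (E + 1) := (pow_succ _ _).symm
    rw [h2, Real.exp_add]
    refine mul_le_mul (hnat n) ?_ (by positivity) (by positivity)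
    have := hpw (E + 1)
    push_cast at this
    exact this
  have hterm : ∀ i, ((|u i * (s i * lin (h i) x ^ d)| : ℤ) : ℝ) ≤
      Real.exp (X + (E * (X / δ) + X * (n + (E + 1) * (X / δ)))) := by
    intro i
    rw [abs_mul, abs_mul, abs_pow]
    push_cast
    rw [Real.exp_add, Real.exp_add]
    have h3 : ((|s i| : ℤ) : ℝ) ≤ Real.exp (E * (X / δ)) := by
      have : ((|s i| : ℤ) : ℝ) ≤ (Y : ℝ) ^ E := by exact_mod_cast hs i
      exact this.trans (hpw E)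
    have h4 : (((|lin (h i) x| : ℤ) : ℝ)) ^ d ≤ Real.exp (X * (n + (E + 1) * (X / δ))) := by
      refine (pow_le_pow_left₀ (by positivity) (hlin i) d).trans ?_
      rw [← Real.exp_nat_mul]
      apply Real.exp_le_exp.2
      refine mul_le_mul_of_nonneg_right hdY (by positivity)
    have h5 := hu i
    push_cast at h3 h4 h5
    refine mul_le_mul h5 (mul_le_mul h3 h4 (by positivity) (by positivity)) (by positivity)
      (by positivity)
  have hsum : ((|spF u h d s x| : ℤ) : ℝ) ≤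
      m * Real.exp (X + (E * (X / δ) + X * (n + (E + 1) * (X / δ)))) := by
    have h1 : |spF u h d s x| ≤ ∑ i, |u i * (s i * lin (h i) x ^ d)| :=
      Finset.abs_sum_le_sum_abs _ _
    have h2 : ((|spF u h d s x| : ℤ) : ℝ) ≤ ∑ i, ((|u i * (s i * lin (h i) x ^ d)| : ℤ) : ℝ) := by
      exact_mod_cast h1
    refine h2.trans ((Finset.sum_le_card_nsmul _ _ _ fun i _ => hterm i).trans ?_)
    rw [Finset.card_univ, Fintype.card_fin, nsmul_eq_mul]
  rw [hX3]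
  calc ((|spF u h d s x| : ℤ) : ℝ)
      ≤ m * Real.exp (X + (E * (X / δ) + X * (n + (E + 1) * (X / δ)))) := hsum
    _ ≤ Real.exp m * Real.exp (X + (E * (X / δ) + X * (n + (E + 1) * (X / δ)))) :=
        mul_le_mul_of_nonneg_right (hnat m) (by positivity)
    _ = Real.exp (m + (X + (E * (X / δ) + X * (n + (E + 1) * (X / δ))))) := (Real.exp_add _ _).symm
    _ ≤ Real.exp (X ^ 3) := by
        apply Real.exp_le_exp.2
        have hX2 : X ≤ X ^ 2 := by nlinarith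
        have h12 : (1 : ℝ) ≤ X ^ 2 := by nlinarith
        have hm0 : (0 : ℝ) ≤ (m : ℝ) := Nat.cast_nonneg _
        have hn0 : (0 : ℝ) ≤ (n : ℝ) := Nat.cast_nonneg _
        have hE0 : (0 : ℝ) ≤ (E : ℝ) / δ := by positivity
        have e1 : (m : ℝ) ≤ m * X ^ 2 := by nlinarith
        have e2 : (E : ℝ) * (X / δ) ≤ E / δ * X ^ 2 := by
          have : (E : ℝ) * (X / δ) = E / δ * X := by ring
          rw [this]
          exact mul_le_mul_of_nonneg_left hX2 hE0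
        have e3 : X * (n + (E + 1) * (X / δ)) ≤ (n + (E + 1) / δ) * X ^ 2 := by
          have : X * (n + (E + 1) * (X / δ)) = n * X + (E + 1) / δ * X ^ 2 := by ring
          rw [this]
          nlinarith [mul_le_mul_of_nonneg_left hX2 hn0]
        have e4 : (m : ℝ) + (X + (E * (X / δ) + X * (n + (E + 1) * (X / δ)))) ≤
            (m + 1 + n + (2 * E + 1) / δ) * X ^ 2 := by
          have : ((m : ℝ) + 1 + n + (2 * E + 1) / δ) * X ^ 2 =
            m * X ^ 2 + (X ^ 2 + (E / δ * X ^ 2 + (n + (E + 1) / δ) * X ^ 2)) := by ring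
          rw [this]
          linarith
        calc (m : ℝ) + (X + (E * (X / δ) + X * (n + (E + 1) * (X / δ))))
            ≤ (m + 1 + n + (2 * E + 1) / δ) * X ^ 2 := e4
          _ ≤ X * X ^ 2 := mul_le_mul_of_nonneg_right hX (by positivity)
          _ = X ^ 3 := by ring

/-- **Integral points on complements.** -/
theorem cmpl (n m E q : ℕ) (ε : ℝ) (hε : 0 < ε) : ∃ (R : ℕ) (δ : ℝ), 0 < δ ∧
    ∀ (Y : ℕ), 1 ≤ Y → ∀ d : ℕ, R ≤ d → (d : ℝ) ≤ (Y : ℝ) ^ δ → ∀ (u : Fin m → ℤ),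
      (∀ i, ((|u i| : ℤ) : ℝ) ≤ Real.exp ((Y : ℝ) ^ δ)) → ∀ (h : Fin m → Fin n → ℤ),
      (∀ i j, |h i j| ≤ (Y : ℤ) ^ E) → ∀ S : Finset ℕ, S.card ≤ q →
      ∃ L : Finset (AffineSubspace ℚ (Fin n → ℚ)), (L.card : ℝ) ≤ (Y : ℝ) ^ ε ∧
        ∀ (x : Fin n → ℤ) (s : Fin m → ℤ), (∀ j, |x j| ≤ (Y : ℤ)) →
          (∀ i, s i ≠ 0 ∧ |s i| ≤ (Y : ℤ) ^ E) → SUn S (spF u h d s x) →
          ∃ W ∈ L, (fun j => (x j : ℚ)) ∈ W ∧
            ∀ z ∈ W, spFQ u h d s z = (spF u h d s x : ℚ) := by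
  classical
  obtain ⟨R, δ1, hδ1, H⟩ := cov (n + 1) (m + 1) E (ε / 2) (by positivity)
  obtain ⟨δ2, hδ2⟩ : ∃ δ2, δ2 = min δ1 (ε / (4 * (q + 1))) := ⟨_, rfl⟩
  have hδ20 : 0 < δ2 := by
    rw [hδ2]
    exact lt_min hδ1 (by positivity)
  have hδ21 : δ2 ≤ δ1 := by rw [hδ2]; exact min_le_left _ _
  have hδ2q : δ2 ≤ ε / (4 * (q + 1)) := by rw [hδ2]; exact min_le_right _ _
  obtain ⟨δ, hδ⟩ : ∃ δ, δ = δ2 / 3 := ⟨_, rfl⟩
  have hδ0 : 0 < δ := by rw [hδ]; positivity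
  have h3δ : 3 * δ = δ2 := by rw [hδ]; ring
  refine ⟨R + ⌈(m + 1 + n + (2 * E + 1) / δ : ℝ)⌉₊ + ⌈((2 * 4 ^ q : ℝ)) ^ (4 * δ / ε)⌉₊, δ, hδ0,
    fun Y hY d hd hdY u hu h hh S hS => ?_⟩
  have hY1 : (1 : ℝ) ≤ (Y : ℝ) := by exact_mod_cast hY
  have hY0 : (0 : ℝ) < (Y : ℝ) := by linarith
  have hd' : ((R + ⌈(m + 1 + n + (2 * E + 1) / δ : ℝ)⌉₊ + ⌈((2 * 4 ^ q : ℝ)) ^ (4 * δ / ε)⌉₊ : ℕ) : ℝ)
      ≤ (Y : ℝ) ^ δ := le_trans (by exact_mod_cast hd) hdY
  push_cast at hd'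
  have hR0 : (0 : ℝ) ≤ (R : ℝ) := Nat.cast_nonneg _
  have hc1 : (m + 1 + n + (2 * E + 1) / δ : ℝ) ≤ (⌈(m + 1 + n + (2 * E + 1) / δ : ℝ)⌉₊ : ℝ) :=
    Nat.le_ceil _
  have hc2 : ((2 * 4 ^ q : ℝ)) ^ (4 * δ / ε) ≤ (⌈((2 * 4 ^ q : ℝ)) ^ (4 * δ / ε)⌉₊ : ℝ) :=
    Nat.le_ceil _
  have hc1' : (0 : ℝ) ≤ (m + 1 + n + (2 * E + 1) / δ : ℝ) := by positivity
  have hc2' : (0 : ℝ) ≤ ((2 * 4 ^ q : ℝ)) ^ (4 * δ / ε) := by positivity
  have hX : (m + 1 + n + (2 * E + 1) / δ : ℝ) ≤ (Y : ℝ) ^ δ := by linarith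
  have h4q : (2 * 4 ^ q : ℝ) ≤ (Y : ℝ) ^ (ε / 4) := by
    have h1 : ((2 * 4 ^ q : ℝ)) ^ (4 * δ / ε) ≤ (Y : ℝ) ^ δ := by linarith
    have h2 := Real.rpow_le_rpow hc2' h1 (show (0 : ℝ) ≤ ε / (4 * δ) by positivity)
    rw [← Real.rpow_mul (by positivity), ← Real.rpow_mul hY0.le] at h2
    have e1 : 4 * δ / ε * (ε / (4 * δ)) = 1 := by field_simp
    have e2 : δ * (ε / (4 * δ)) = ε / 4 := by field_simp
    rw [e1, e2, Real.rpow_one] at h2
    exact h2
  have hmono : ∀ {a b : ℝ}, a ≤ b → (Y : ℝ) ^ a ≤ (Y : ℝ) ^ b :=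
    fun hab => Real.rpow_le_rpow_of_exponent_le hY1 hab
  obtain ⟨K, hK⟩ : ∃ K : ℕ, K = ⌊((2 : ℕ) : ℝ) * (Y : ℝ) ^ δ2⌋₊ + 1 := ⟨_, rfl⟩
  have hexp : Real.exp ((Y : ℝ) ^ δ2) ≤ 2 ^ K := by
    rw [hK]
    exact exp_le_two_pow (by positivity)
  obtain ⟨U, hU⟩ : ∃ U : Finset ℤ, U = (Finset.Icc (-(2 ^ K : ℤ)) (2 ^ K)).filter
      (fun η => SUn S η ∧ ((|η| : ℤ) : ℝ) ≤ Real.exp ((Y : ℝ) ^ δ2)) := ⟨_, rfl⟩
  have hUc : (U.card : ℝ) ≤ (Y : ℝ) ^ (ε / 2) := by
    have h1 : U.card ≤ 2 * (K + 1) ^ q := by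
      refine le_trans (Finset.card_le_card ?_) ((sunit_card S K).trans
        (Nat.mul_le_mul_left _ (Nat.pow_le_pow_right (by omega) hS)))
      intro η hη
      rw [hU] at hη
      obtain ⟨h1, h2⟩ := Finset.mem_filter.1 hη
      exact Finset.mem_filter.2 ⟨h1, h2.1⟩
    have h2 : ((K + 1 : ℕ) : ℝ) ≤ 4 * (Y : ℝ) ^ δ2 := by
      rw [hK]
      push_cast
      have h3 : (⌊(2 : ℝ) * (Y : ℝ) ^ δ2⌋₊ : ℝ) ≤ 2 * (Y : ℝ) ^ δ2 := Nat.floor_le (by positivity)
      have h4 : (1 : ℝ) ≤ (Y : ℝ) ^ δ2 := Real.one_le_rpow hY1 hδ20.le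
      linarith
    calc (U.card : ℝ) ≤ ((2 * (K + 1) ^ q : ℕ) : ℝ) := by exact_mod_cast h1
      _ = 2 * ((K + 1 : ℕ) : ℝ) ^ q := by push_cast; ring
      _ ≤ 2 * (4 * (Y : ℝ) ^ δ2) ^ q := by
          have := pow_le_pow_left₀ (by positivity) h2 q
          linarith
      _ = 2 * 4 ^ q * (Y : ℝ) ^ (δ2 * q) := by
          rw [mul_pow, Real.rpow_mul hY0.le, Real.rpow_natCast]
          ring
      _ ≤ (Y : ℝ) ^ (ε / 4) * (Y : ℝ) ^ (ε / 4) := by
          refine mul_le_mul h4q (hmono ?_) (by positivity) (by positivity)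
          have h5 : δ2 * q ≤ ε / (4 * (q + 1)) * q :=
            mul_le_mul_of_nonneg_right hδ2q (Nat.cast_nonneg _)
          refine h5.trans ?_
          rw [div_mul_eq_mul_div, div_le_div_iff₀ (by positivity) (by norm_num)]
          nlinarith [hε]
      _ = (Y : ℝ) ^ (ε / 2) := by
          rw [← Real.rpow_add hY0]
          congr 1
          ring
  -- the subspaces for each unit
  have hη : ∀ η, η ∈ U → ∃ L : Finset (Submodule ℚ (Fin (n + 1) → ℚ)),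
      (L.card : ℝ) ≤ (Y : ℝ) ^ (ε / 2) ∧
        ∀ (x : Fin (n + 1) → ℤ) (s : Fin (m + 1) → ℤ), (∀ j, |x j| ≤ (Y : ℤ)) →
          (∀ i, s i ≠ 0 ∧ |s i| ≤ (Y : ℤ) ^ E) → spF (sn u (-η)) (hx1 h) d s x = 0 →
          ∃ V ∈ L, (fun j => (x j : ℚ)) ∈ V ∧ ∀ z ∈ V, spFQ (sn u (-η)) (hx1 h) d s z = 0 := by
    intro η hη
    rw [hU] at hη
    obtain ⟨_, h1, h2⟩ := Finset.mem_filter.1 hη
    have hYE : (1 : ℤ) ≤ (Y : ℤ) ^ E := one_le_pow₀ (by exact_mod_cast hY)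
    refine H Y hY d (by omega) (hdY.trans (hmono (by linarith))) (sn u (-η)) ?_ (hx1 h) ?_
    · intro i
      refine Fin.lastCases ?_ (fun i => ?_) i
      · rw [sn_last, abs_neg]
        exact h2.trans (Real.exp_le_exp.2 (hmono hδ21))
      · rw [sn_castSucc]
        exact (hu i).trans (Real.exp_le_exp.2 (hmono (by linarith)))
    · intro i j
      refine Fin.lastCases ?_ (fun i => ?_) i
      · rw [hx1_last]
        refine Fin.lastCases ?_ (fun j => ?_) j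
        · rw [sn_last, abs_one]
          exact hYE
        · rw [sn_castSucc, abs_zero]
          linarith
      · rw [hx1_castSucc]
        refine Fin.lastCases ?_ (fun j => ?_) j
        · rw [sn_last, abs_zero]
          linarith
        · rw [sn_castSucc]
          exact hh i j
  choose! L hL1 hL2 using hη
  refine ⟨U.biUnion fun η => (L η).image slice, ?_, ?_⟩
  · have h1 : (U.biUnion fun η => (L η).image slice).card ≤ ∑ η ∈ U, (L η).card :=
      Finset.card_biUnion_le.trans (Finset.sum_le_sum fun η _ => Finset.card_image_le)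
    calc ((U.biUnion fun η => (L η).image slice).card : ℝ) ≤ ((∑ η ∈ U, (L η).card : ℕ) : ℝ) := by
          exact_mod_cast h1
      _ = ∑ η ∈ U, ((L η).card : ℝ) := by push_cast; rfl
      _ ≤ ∑ _η ∈ U, (Y : ℝ) ^ (ε / 2) := Finset.sum_le_sum fun η hη => hL1 η hη
      _ = U.card * (Y : ℝ) ^ (ε / 2) := by rw [Finset.sum_const, nsmul_eq_mul]
      _ ≤ (Y : ℝ) ^ (ε / 2) * (Y : ℝ) ^ (ε / 2) :=
          mul_le_mul_of_nonneg_right hUc (by positivity)
      _ = (Y : ℝ) ^ ε := by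
          rw [← Real.rpow_add hY0]
          congr 1
          ring
  · intro x s hx hs hSU
    have hsz := csize (n := n) (E := E) hδ0 hY hdY hX hu hh hx (fun i => (hs i).2)
    rw [h3δ] at hsz
    have hUm : spF u h d s x ∈ U := by
      rw [hU, Finset.mem_filter, Finset.mem_Icc]
      refine ⟨?_, hSU, hsz⟩
      have h1 : ((|spF u h d s x| : ℤ) : ℝ) ≤ ((2 ^ K : ℤ) : ℝ) := by
        push_cast
        push_cast at hsz
        exact hsz.trans hexp
      exact abs_le.1 (by exact_mod_cast h1)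
    have hYE : (1 : ℤ) ≤ (Y : ℤ) ^ E := one_le_pow₀ (by exact_mod_cast hY)
    obtain ⟨V, hV1, hV2, hV3⟩ := hL2 _ hUm (sn x 1) (sn s 1) (by
      intro j
      refine Fin.lastCases ?_ (fun j => ?_) j
      · rw [sn_last, abs_one]
        exact_mod_cast hY
      · rw [sn_castSucc]
        exact hx j) (by
      intro i
      refine Fin.lastCases ?_ (fun i => ?_) i
      · rw [sn_last]
        exact ⟨one_ne_zero, by rw [abs_one]; exact hYE⟩
      · rw [sn_castSucc]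
        exact hs i) (by rw [spF_sn, sub_self])
    refine ⟨slice V, Finset.mem_biUnion.2 ⟨_, hUm, Finset.mem_image_of_mem _ hV1⟩, ?_, ?_⟩
    · show snQ (fun j => (x j : ℚ)) 1 ∈ V
      have h1 : snQ (fun j => (x j : ℚ)) 1 = fun j => ((sn x 1 j : ℤ) : ℚ) := by
        funext j
        refine Fin.lastCases ?_ (fun j => ?_) j
        · rw [snQ_last, sn_last, Int.cast_one]
        · rw [snQ_castSucc, sn_castSucc]
      rw [h1]
      exact hV2
    · intro z hz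
      have h1 := hV3 _ (show snQ z 1 ∈ V from hz)
      rw [spFQ_sn, sub_eq_zero] at h1
      exact h1

end Pool.Agent.Y902.GN
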