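import Mathlib
import Pool.Agent.Y902.GN.Lp
import Pool.Agent.Y902.GN.Cmp

/-!
# Products of small spread
-/

set_option autoImplicit false

namespace Pool.Agent.Y902.GN

open Filter

/-- the smooth and the rough part -/
theorem smooth_rough (P : ℕ) (m : ℕ) (hm : m ≠ 0) : ∃ π ρ : ℕ, m = π * ρ ∧
    (∀ p : ℕ, p.Prime → p ∣ π → p ≤ P) ∧ ∀ p : ℕ, p.Prime → p ∣ ρ → P < p := by
  induction m using Nat.strong_induction_on with
  | _ m ih =>
    by_cases h : ∃ p : ℕ, p.Prime ∧ p ∣ m ∧ p ≤ P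
    · obtain ⟨p, hp, ⟨m', rfl⟩, hpP⟩ := h
      have hm' : m' ≠ 0 := fun h => hm (by rw [h, mul_zero])
      have hlt : m' < p * m' := by
        have := hp.two_le
        nlinarith [Nat.pos_of_ne_zero hm']
      obtain ⟨π, ρ, h1, h2, h3⟩ := ih m' hlt hm'
      refine ⟨p * π, ρ, by rw [h1, mul_assoc], fun q hq hqd => ?_, h3⟩
      rcases (Nat.Prime.dvd_mul hq).1 hqd with h | h
      · rw [(Nat.prime_dvd_prime_iff_eq hq hp).1 h]
        exact hpP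
      · exact h2 q hq h
    · push Not at h
      refine ⟨1, m, (one_mul _).symm, fun p hp hd => ?_, fun p hp hd => h p hp hd⟩
      exact absurd (Nat.dvd_one.1 hd) hp.one_lt.ne'

theorem mul_rad_dvd {g p : ℕ} (hg : g ≠ 0) (hp : p.Prime) (h : p ^ 2 ∣ g) :
    p * ∏ q ∈ g.primeFactors, q ∣ g := by
  have hpg : p ∈ g.primeFactors :=
    Nat.mem_primeFactors.2 ⟨hp, (dvd_pow_self p (by norm_num)).trans h, hg⟩
  rw [← Finset.mul_prod_erase _ _ hpg, ← mul_assoc, ← pow_two]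
  refine Nat.Coprime.mul_dvd_of_dvd_of_dvd ?_ h ?_
  · apply Nat.Coprime.pow_left
    apply Nat.Coprime.prod_right
    intro q hq
    obtain ⟨h1, h2⟩ := Finset.mem_erase.1 hq
    exact (Nat.coprime_primes hp (Nat.prime_of_mem_primeFactors h2)).2 (Ne.symm h1)
  · refine (Finset.prod_dvd_prod_of_subset _ _ _ (Finset.erase_subset p _)).trans ?_
    exact Nat.prod_primeFactors_dvd g

theorem sq_both {A W : Fin 3 → ℕ} {P Q p : ℕ} (hp : p.Prime) (hpP : P < p) (hQP : Q ≤ P)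
    (hA : ∀ i, ∀ p : ℕ, p.Prime → p ∣ A i → p ≤ P) (hW : ∀ i, W i ≠ 0)
    (heq : A 0 * W 0 + A 1 * W 1 = A 2 * W 2)
    (hg : Nat.gcd (W 0) (W 1) ≤ Q * ∏ p ∈ (Nat.gcd (W 0) (W 1)).primeFactors, p)
    {i j : Fin 3} (hij : i ≠ j) (hi : p ^ 2 ∣ W i) (hj : p ^ 2 ∣ W j) : False := by
  have hcop : ∀ i, (p ^ 2).Coprime (A i) := by
    intro i
    apply Nat.Coprime.pow_left
    rw [Nat.Prime.coprime_iff_not_dvd hp]
    intro h
    have := hA i p hp h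
    omega
  have h01 : p ^ 2 ∣ W 0 ∧ p ^ 2 ∣ W 1 := by
    have c0 : p ^ 2 ∣ W 1 → p ^ 2 ∣ W 2 → p ^ 2 ∣ W 0 := by
      intro h1 h2
      have h3 : p ^ 2 ∣ A 0 * W 0 + A 1 * W 1 := by
        rw [heq]
        exact h2.mul_left _
      have h4 := (Nat.dvd_add_left (h1.mul_left (A 1))).1 h3
      exact (hcop 0).dvd_of_dvd_mul_left h4
    have c1 : p ^ 2 ∣ W 0 → p ^ 2 ∣ W 2 → p ^ 2 ∣ W 1 := by
      intro h1 h2
      have h3 : p ^ 2 ∣ A 0 * W 0 + A 1 * W 1 := by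
        rw [heq]
        exact h2.mul_left _
      have h4 := (Nat.dvd_add_right (h1.mul_left (A 0))).1 h3
      exact (hcop 1).dvd_of_dvd_mul_left h4
    fin_cases i <;> fin_cases j <;> simp_all
  have hgd : p ^ 2 ∣ Nat.gcd (W 0) (W 1) := Nat.dvd_gcd h01.1 h01.2
  have hg0 : Nat.gcd (W 0) (W 1) ≠ 0 := fun h => hW 0 (Nat.gcd_eq_zero_iff.1 h).1
  have h1 := Nat.le_of_dvd (Nat.pos_of_ne_zero hg0) (mul_rad_dvd hg0 hp hgd)
  have h2 : 0 < ∏ q ∈ (Nat.gcd (W 0) (W 1)).primeFactors, q :=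
    Finset.prod_pos fun q hq => (Nat.prime_of_mem_primeFactors hq).pos
  have h3 := Nat.le_of_mul_le_mul_right (h1.trans hg) h2
  omega

/-- the data of a solution -/
structure SsGood (S Q R : ℕ) (D : ℝ) (T : ℕ) (A W b : Fin 3 → ℕ)
    (k : Fin 3 → Fin (S + 1) → ℕ) : Prop where
  b1 : ∀ i, 1 ≤ b i ∧ b i ≤ T
  hW : ∀ i, W i = ∏ t, (b i + t) ^ k i t
  deg : ∀ i, R ≤ ∑ t, k i t
  deg2 : ∀ i, ((∑ t, k i t : ℕ) : ℝ) ≤ D
  eq : A 0 * W 0 + A 1 * W 1 = A 2 * W 2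
  g : Nat.gcd (W 0) (W 1) ≤ Q * ∏ p ∈ (Nat.gcd (W 0) (W 1)).primeFactors, p

theorem SsGood.pos {S Q R : ℕ} {D : ℝ} {T : ℕ} {A W b : Fin 3 → ℕ}
    {k : Fin 3 → Fin (S + 1) → ℕ} (h : SsGood S Q R D T A W b k) (i : Fin 3) : W i ≠ 0 := by
  rw [h.hW i]
  refine Finset.prod_ne_zero_iff.2 fun t _ => pow_ne_zero _ ?_
  have := (h.b1 i).1
  omega

/-- rough parts of bases with exponents at least two are coprime -/
theorem SsGood.cop {S Q R P : ℕ} {D : ℝ} {T : ℕ} {A W b : Fin 3 → ℕ}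
    {k : Fin 3 → Fin (S + 1) → ℕ} (h : SsGood S Q R D T A W b k) (hSP : S ≤ P) (hQP : Q ≤ P)
    (hA : ∀ i, ∀ p : ℕ, p.Prime → p ∣ A i → p ≤ P) {π ρ : Fin 3 → Fin (S + 1) → ℕ}
    (h1 : ∀ i t, b i + t = π i t * ρ i t) (h3 : ∀ i t, ∀ p : ℕ, p.Prime → p ∣ ρ i t → P < p)
    {i i' : Fin 3} {t t' : Fin (S + 1)} (hne : (i, t) ≠ (i', t')) (hk : 2 ≤ k i t)
    (hk' : 2 ≤ k i' t') : (ρ i t).Coprime (ρ i' t') := by
  rw [Nat.coprime_iff_gcd_eq_one]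
  by_contra hcon
  obtain ⟨p, hp, hpd⟩ := Nat.exists_prime_and_dvd hcon
  have hd1 : p ∣ ρ i t := hpd.trans (Nat.gcd_dvd_left _ _)
  have hd2 : p ∣ ρ i' t' := hpd.trans (Nat.gcd_dvd_right _ _)
  have hpP := h3 i t p hp hd1
  have e1 : p ∣ b i + t := by rw [h1]; exact hd1.mul_left _
  have e2 : p ∣ b i' + t' := by rw [h1]; exact hd2.mul_left _
  by_cases hii : i = i'
  · subst hii
    have htt : t ≠ t' := fun h => hne (by rw [h])
    have e3 : (p : ℤ) ∣ (t : ℤ) - (t' : ℤ) := by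
      have f1 : (p : ℤ) ∣ (b i : ℤ) + (t : ℤ) := by exact_mod_cast e1
      have f2 : (p : ℤ) ∣ (b i : ℤ) + (t' : ℤ) := by exact_mod_cast e2
      have f3 := dvd_sub f1 f2
      have f4 : (b i : ℤ) + (t : ℤ) - ((b i : ℤ) + (t' : ℤ)) = (t : ℤ) - (t' : ℤ) := by ring
      rwa [f4] at f3
    have e4 : (t : ℤ) - (t' : ℤ) = 0 := by
      by_contra hz
      have e5 := Int.le_of_dvd (abs_pos.2 hz) ((dvd_abs _ _).2 e3)
      have e6 : |(t : ℤ) - (t' : ℤ)| ≤ (S : ℤ) := by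
        have := t.2
        have := t'.2
        rw [abs_le]
        constructor <;> omega
      omega
    apply htt
    apply Fin.ext
    omega
  · have hsq : ∀ (i : Fin 3) (t : Fin (S + 1)), 2 ≤ k i t → p ∣ b i + t → p ^ 2 ∣ W i := by
      intro i t hk hd
      rw [h.hW i]
      exact ((pow_dvd_pow_of_dvd hd 2).trans (pow_dvd_pow _ hk)).trans
        (Finset.dvd_prod_of_mem (fun t : Fin (S + 1) => (b i + t) ^ k i t) (Finset.mem_univ t))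
    exact sq_both hp hpP hQP hA h.pos h.eq h.g hii (hsq i t hk e1) (hsq i' t' hk' e2)

end Pool.Agent.Y902.GN
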