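import Mathlib
import Pool.Agent.Y902.GN.Ss

/-!
# Products of small spread: the theorem
-/

set_option autoImplicit false

namespace Pool.Agent.Y902.GN

open Filter

theorem prod_pair {n m : ℕ} (ρ : Fin n → Fin m → ℤ) (k : Fin n → Fin m → ℕ) (i : Fin n) :
    ∏ q : Fin (n * m), (ρ (finProdFinEquiv.symm q).1 (finProdFinEquiv.symm q).2) ^
      (if (finProdFinEquiv.symm q).1 = i then k i (finProdFinEquiv.symm q).2 else 0) =
      ∏ t, ρ i t ^ k i t := by
  rw [← Equiv.prod_comp finProdFinEquiv]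
  simp only [Equiv.symm_apply_apply]
  rw [Fintype.prod_prod_type, Finset.prod_eq_single i]
  · simp
  · intro i' _ h
    simp [h]
  · intro h
    exact absurd (Finset.mem_univ i) h

/-- no partial sum vanishes -/
theorem three_nvs {τ : Fin 3 → ℤ} (h0 : 0 < τ 0) (h1 : 0 < τ 1) (_h2 : τ 2 < 0)
    (hs : ∑ i, τ i = 0) (K : Finset (Fin 3)) (hK : K.Nonempty) (hK2 : K ≠ Finset.univ) :
    ∑ i ∈ K, τ i ≠ 0 := by
  classical
  have key : ∀ K : Finset (Fin 3), K.Nonempty → (2 : Fin 3) ∉ K → 0 < ∑ i ∈ K, τ i := by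
    intro K hK h
    refine Finset.sum_pos (fun i hi => ?_) hK
    fin_cases i
    · exact h0
    · exact h1
    · exact absurd hi h
  by_cases h : (2 : Fin 3) ∈ K
  · have h3 : (2 : Fin 3) ∉ Kᶜ := fun h' => (Finset.mem_compl.1 h') h
    have h4 : (Kᶜ).Nonempty := by
      rw [Finset.nonempty_iff_ne_empty]
      intro h5
      exact hK2 (Finset.compl_eq_empty_iff K |>.1 h5)
    have h5 := key Kᶜ h4 h3
    have h6 := Finset.sum_add_sum_compl K τ
    rw [hs] at h6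
    omega
  · exact (key K hK h).ne'

theorem ss (S Q P : ℕ) (ε : ℝ) (hε : 0 < ε) : ∃ (R : ℕ) (δ : ℝ), 0 < δ ∧
    ∀ T : ℕ, 1 ≤ T → ∀ A : Fin 3 → ℕ, (∀ i, A i ≠ 0 ∧ (A i : ℝ) ≤ Real.exp ((T : ℝ) ^ δ) ∧
      ∀ p : ℕ, p.Prime → p ∣ A i → p ≤ P) → ∀ U : Finset (Fin 3 → ℕ),
      (∀ W ∈ U, ∃ b k, SsGood S Q R ((T : ℝ) ^ δ) T A W b k) → (U.card : ℝ) ≤ (T : ℝ) ^ ε := by
  classical
  by_contra hcon
  push Not at hcon
  have hseq := fun ν : ℕ => hcon ν (1 / ((ν : ℝ) + 1)) (by positivity)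
  choose T0 hT1 A hA U hU hc using hseq
  have hT1' : ∀ ν, (1 : ℝ) ≤ (T0 ν : ℝ) := fun ν => by exact_mod_cast hT1 ν
  obtain ⟨P', hP', hSP, hQP⟩ : ∃ P', P ≤ P' ∧ S ≤ P' ∧ Q ≤ P' :=
    ⟨P + S + Q, by omega, by omega, by omega⟩
  have hpow : ∀ ν, (T0 ν : ℝ) ^ (1 / ((ν : ℝ) + 1)) ≤ (T0 ν : ℝ) := by
    intro ν
    calc (T0 ν : ℝ) ^ (1 / ((ν : ℝ) + 1)) ≤ (T0 ν : ℝ) ^ (1 : ℝ) := by
          apply Real.rpow_le_rpow_of_exponent_le (hT1' ν)
          rw [div_le_one (by positivity)]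
          have : (0 : ℝ) ≤ (ν : ℝ) := Nat.cast_nonneg _
          linarith
      _ = (T0 ν : ℝ) := Real.rpow_one _
  have hTlarge : ∀ ν, ν ≤ T0 ν := by
    intro ν
    have h1 : (1 : ℝ) ≤ (T0 ν : ℝ) ^ ε := Real.one_le_rpow (hT1' ν) hε.le
    have h2 : 0 < (U ν).card := by
      have : (0 : ℝ) < ((U ν).card : ℝ) := by
        have := hc ν
        linarith
      exact_mod_cast this
    obtain ⟨W, hW⟩ := Finset.card_pos.1 h2
    obtain ⟨b, k, h⟩ := hU ν W hW
    have h3 := h.deg 0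
    have h4 := (h.deg2 0).trans (hpow ν)
    have h5 : (∑ t, k 0 t) ≤ T0 ν := by exact_mod_cast h4
    exact h3.trans h5
  have hT0 : ∀ m : ℕ, ∀ᶠ ν in (Uf : Filter ℕ), m ≤ T0 ν := by
    intro m
    filter_upwards [ev_ge m] with ν hν
    exact hν.trans (hTlarge ν)
  obtain ⟨Y, hYd⟩ : ∃ Y : ℕ → ℕ, ∀ ν, Y ν = T0 ν ^ 2 := ⟨_, fun _ => rfl⟩
  have hYY : ∀ ν, T0 ν ≤ Y ν := fun ν => by
    rw [hYd]
    exact Nat.le_self_pow (by omega) _
  have hY : ∀ m : ℕ, ∀ᶠ ν in (Uf : Filter ℕ), m ≤ Y ν := fun m =>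
    (hT0 m).mono fun ν hν => hν.trans (hYY ν)
  have hYYe : ∀ᶠ ν in (Uf : Filter ℕ), T0 ν ≤ Y ν := Filter.Eventually.of_forall hYY
  have hbig : Big Y U := by
    refine big_of_card (ε := ε / 2) (by positivity) (hY 2) (Filter.Eventually.of_forall
      fun ν => ?_)
    rw [hYd]
    push_cast
    rw [← Real.rpow_natCast, ← Real.rpow_mul (by positivity)]
    have : ((2 : ℕ) : ℝ) * (ε / 2) = ε := by
      push_cast
      field_simp
    rw [this]
    exact hc ν
  choose! b k hbk using hU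
  -- the decomposition of the bases
  have hdec : ∀ (ν : ℕ) (W : Fin 3 → ℕ), ∃ π ρ : Fin 3 → Fin (S + 1) → ℕ, W ∈ U ν →
      (∀ i t, b ν W i + t = π i t * ρ i t) ∧
      (∀ i t, ∀ p : ℕ, p.Prime → p ∣ π i t → p ≤ P') ∧
      ∀ i t, ∀ p : ℕ, p.Prime → p ∣ ρ i t → P' < p := by
    intro ν W
    by_cases hW : W ∈ U ν
    · have h1 : ∀ i (t : Fin (S + 1)), b ν W i + (t : ℕ) ≠ 0 := fun i t => by
        have := ((hbk ν W hW).b1 i).1
        omega
      choose π ρ h2 h3 h4 using fun i t => smooth_rough P' _ (h1 i t)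
      exact ⟨π, ρ, fun _ => ⟨h2, h3, h4⟩⟩
    · exact ⟨fun _ _ => 0, fun _ _ => 0, fun h => absurd h hW⟩
  choose π ρ hπρ using hdec
  obtain ⟨D, hD⟩ : ∃ D : ℕ → ℕ, ∀ ν, D ν =
      ⌊((2 : ℕ) : ℝ) * (T0 ν : ℝ) ^ (1 / ((ν : ℝ) + 1))⌋₊ + 1 := ⟨_, fun _ => rfl⟩
  have hDf : Few Y D := ((few_rpow hT0 2).mono_Y hYYe).mono
    (Filter.Eventually.of_forall fun ν => by rw [hD])
  obtain ⟨K, hK⟩ : ∃ K : ℕ → ℕ, ∀ ν, K ν = Nat.log 2 (Y ν + 2) + 1 := ⟨_, fun _ => rfl⟩
  have hKf : Few Y K := fun c => by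
    have := ev_log_pow hY c
    simpa only [hK] using this
  have hkD : ∀ ν, ∀ W ∈ U ν, ∀ i t, k ν W i t < D ν := by
    intro ν W hW i t
    have h1 := (hbk ν W hW).deg2 i
    have h2 : (k ν W i t : ℝ) ≤ (T0 ν : ℝ) ^ (1 / ((ν : ℝ) + 1)) := by
      refine le_trans ?_ h1
      exact_mod_cast Finset.single_le_sum (f := fun t => k ν W i t) (fun _ _ => Nat.zero_le _)
        (Finset.mem_univ t)
    rw [hD]
    have h3 := Nat.lt_floor_add_one (((2 : ℕ) : ℝ) * (T0 ν : ℝ) ^ (1 / ((ν : ℝ) + 1)))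
    have h4 : (0 : ℝ) ≤ (T0 ν : ℝ) ^ (1 / ((ν : ℝ) + 1)) := by positivity
    have h5 : (k ν W i t : ℝ) <
        (⌊((2 : ℕ) : ℝ) * (T0 ν : ℝ) ^ (1 / ((ν : ℝ) + 1))⌋₊ : ℝ) + 1 := by
      push_cast at h3 ⊢
      linarith
    exact_mod_cast h5
  have hbY : ∀ᶠ ν in (Uf : Filter ℕ), ∀ W ∈ U ν, ∀ i (t : Fin (S + 1)), b ν W i + t ≤ Y ν := by
    filter_upwards [hT0 (S + 2)] with ν hν W hW i t
    have h1 := ((hbk ν W hW).b1 i).2
    have h2 := t.2
    rw [hYd, pow_two]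
    nlinarith
  -- constant exponents
  obtain ⟨T1, a1, a2, a3⟩ := hbig.fiber (fun ν W => k ν W)
    (fun ν => Fintype.piFinset fun _ : Fin 3 => Fintype.piFinset fun _ : Fin (S + 1) =>
      Finset.range (D ν))
    (Filter.Eventually.of_forall fun ν W hW => by
      rw [Fintype.mem_piFinset]
      intro i
      rw [Fintype.mem_piFinset]
      intro t
      rw [Finset.mem_range]
      exact hkD ν W hW i t) (by
      refine ((hDf.pow (S + 1)).pow 3).mono (Filter.Eventually.of_forall fun ν => ?_)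
      rw [Fintype.card_piFinset_const, Fintype.card_piFinset_const, Finset.card_range])
  -- constant smooth parts
  obtain ⟨T2, c1, c2, c3⟩ := a2.fiber (fun ν W => fun i t => (π ν W i t : ℤ))
    (fun ν => Fintype.piFinset fun _ : Fin 3 => Fintype.piFinset fun _ : Fin (S + 1) =>
      (Finset.Icc (-(2 ^ K ν : ℤ)) (2 ^ K ν)).filter
        (SUn ((Finset.range (P' + 1)).filter Nat.Prime)))
    (by
      filter_upwards [a1, hbY] with ν h1 h2 W hW
      rw [Fintype.mem_piFinset]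
      intro i
      rw [Fintype.mem_piFinset]
      intro t
      obtain ⟨g1, g2, g3⟩ := hπρ ν W (h1 hW)
      have h3 : π ν W i t ≠ 0 := by
        intro h
        have h4 := g1 i t
        rw [h, zero_mul] at h4
        have := ((hbk ν W (h1 hW)).b1 i).1
        omega
      have h5 : π ν W i t ≤ 2 ^ K ν := by
        have h6 : π ν W i t ≤ b ν W i + t := by
          refine Nat.le_of_dvd ?_ ⟨_, g1 i t⟩
          have := ((hbk ν W (h1 hW)).b1 i).1
          omega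
        have h7 := Nat.lt_pow_succ_log_self (b := 2) (by norm_num) (Y ν + 2)
        rw [hK]
        have := h2 W (h1 hW) i t
        omega
      refine Finset.mem_filter.2 ⟨Finset.mem_Icc.2 ⟨?_, by exact_mod_cast h5⟩, ?_, ?_⟩
      · have : (0 : ℤ) ≤ 2 ^ K ν := by positivity
        have h8 : (0 : ℤ) ≤ (π ν W i t : ℤ) := by positivity
        linarith
      · exact_mod_cast h3
      · intro p hp hpd
        have h8 := g2 i t p hp (by exact_mod_cast hpd)
        exact Finset.mem_filter.2 ⟨Finset.mem_range.2 (by omega), hp⟩)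
    (by
      have h1 : Few Y (fun ν => 2 * (K ν + 1) ^ ((Finset.range (P' + 1)).filter Nat.Prime).card) :=
        (Few.const hY 2).mul ((hKf.add hY (Few.const hY 1)).pow _)
      refine ((h1.pow (S + 1)).pow 3).mono (Filter.Eventually.of_forall fun ν => ?_)
      rw [Fintype.card_piFinset_const, Fintype.card_piFinset_const]
      exact Nat.pow_le_pow_left (Nat.pow_le_pow_left (sunit_card _ _) _) _)
  have hk0 : ∀ᶠ ν in (Uf : Filter ℕ), ∃ k0 : Fin 3 → Fin (S + 1) → ℕ, ∀ W ∈ T2 ν, k ν W = k0 := by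
    filter_upwards [a3, c1, c2.nonempty] with ν h1 h2 h3
    obtain ⟨W0, hW0⟩ := h3
    exact ⟨k ν W0, fun W hW => h1 W (h2 hW) W0 (h2 hW0)⟩
  obtain ⟨k0, hk0⟩ := hk0.choice
  have hπ0 : ∀ᶠ ν in (Uf : Filter ℕ), ∃ π0 : Fin 3 → Fin (S + 1) → ℕ,
      ∀ W ∈ T2 ν, π ν W = π0 := by
    filter_upwards [c3, c2.nonempty] with ν h1 h3
    obtain ⟨W0, hW0⟩ := h3
    refine ⟨π ν W0, fun W hW => ?_⟩
    funext i t
    have h4 := congrFun (congrFun (h1 W hW W0 hW0) i) t
    exact_mod_cast h4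
  obtain ⟨π0, hπ0⟩ := hπ0.choice
  have hsub : ∀ᶠ ν in (Uf : Filter ℕ), T2 ν ⊆ U ν := by
    filter_upwards [a1, c1] with ν h1 h2
    exact h2.trans h1
  have hbase : ∀ᶠ ν in (Uf : Filter ℕ), ∀ W ∈ T2 ν, ∀ (i : Fin 3) (t : Fin (S + 1)),
      b ν W i + (t : ℕ) = π0 ν i t * ρ ν W i t ∧ b ν W i + (t : ℕ) ≠ 0 := by
    filter_upwards [hsub, hπ0] with ν h1 h2 W hW i t
    have h3 := (hπρ ν W (h1 hW)).1 i t
    rw [h2 W hW] at h3
    refine ⟨h3, ?_⟩
    have := ((hbk ν W (h1 hW)).b1 i).1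
    omega
  have hWk : ∀ᶠ ν in (Uf : Filter ℕ), ∀ W ∈ T2 ν, ∀ i,
      W i = ∏ t : Fin (S + 1), (b ν W i + (t : ℕ)) ^ k0 ν i t := by
    filter_upwards [hsub, hk0] with ν h1 h2 W hW i
    rw [(hbk ν W (h1 hW)).hW i, h2 W hW]
  have hπb : ∀ᶠ ν in (Uf : Filter ℕ), ∀ i t, π0 ν i t ≠ 0 ∧ π0 ν i t ≤ 2 ^ K ν := by
    filter_upwards [hbase, hbY, c2.nonempty, hsub] with ν h1 h2 h3 h4 i t
    obtain ⟨W, hW⟩ := h3
    obtain ⟨h5, h6⟩ := h1 W hW i t
    have h7 : π0 ν i t ≠ 0 := by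
      intro h
      rw [h, zero_mul] at h5
      exact h6 h5
    refine ⟨h7, ?_⟩
    have h8 : π0 ν i t ≤ b ν W i + t := Nat.le_of_dvd (Nat.pos_of_ne_zero h6) ⟨_, h5⟩
    have h9 := Nat.lt_pow_succ_log_self (b := 2) (by norm_num) (Y ν + 2)
    rw [hK]
    have := h2 W (h4 hW) i t
    omega
  -- the points
  obtain ⟨pt, hpt⟩ : ∃ pt : ℕ → (Fin 3 → ℕ) → Fin (3 * (S + 1)) → ℤ, ∀ ν W q, pt ν W q =
      (ρ ν W (finProdFinEquiv.symm q).1 (finProdFinEquiv.symm q).2 : ℤ) :=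
    ⟨_, fun _ _ _ => rfl⟩
  obtain ⟨ee, hee⟩ : ∃ ee : ℕ → Fin 3 → Fin (3 * (S + 1)) → ℕ, ∀ ν i q, ee ν i q =
      if (finProdFinEquiv.symm q).1 = i then k0 ν i (finProdFinEquiv.symm q).2 else 0 :=
    ⟨_, fun _ _ _ => rfl⟩
  obtain ⟨sg, hsg⟩ : ∃ sg : Fin 3 → ℤ, sg = ![1, 1, -1] := ⟨_, rfl⟩
  have hsg1 : ∀ i, |sg i| = 1 := by
    intro i
    rw [hsg]
    fin_cases i <;> simp
  obtain ⟨uu, huu⟩ : ∃ uu : ℕ → Fin 3 → ℤ, ∀ ν i, uu ν i =
      sg i * A ν i * ∏ t, (π0 ν i t : ℤ) ^ k0 ν i t := ⟨_, fun _ _ => rfl⟩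
  have hterm : ∀ᶠ ν in (Uf : Filter ℕ), ∀ W ∈ T2 ν, ∀ i,
      uu ν i * ∏ q, pt ν W q ^ ee ν i q = sg i * A ν i * W i := by
    filter_upwards [hbase, hWk] with ν h1 h2 W hW i
    have h3 : ∏ q, pt ν W q ^ ee ν i q = ∏ t, (ρ ν W i t : ℤ) ^ k0 ν i t := by
      rw [← prod_pair (fun i t => (ρ ν W i t : ℤ)) (k0 ν) i]
      exact Finset.prod_congr rfl fun q _ => by rw [hpt, hee]
    rw [h3, huu, mul_assoc (sg i * A ν i), ← Finset.prod_mul_distrib]
    congr 1
    rw [h2 W hW i]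
    push_cast
    refine Finset.prod_congr rfl fun t _ => ?_
    rw [← mul_pow]
    congr 1
    exact_mod_cast ((h1 W hW i t).1).symm
  have hinj : ∀ᶠ ν in (Uf : Filter ℕ), Set.InjOn (pt ν) (T2 ν) := by
    filter_upwards [hbase, hWk] with ν h1 h2 W hW W' hW' hpp
    have h3 : ∀ i t, ρ ν W i t = ρ ν W' i t := by
      intro i t
      have h4 := congrFun hpp (finProdFinEquiv (i, t))
      rw [hpt, hpt] at h4
      simp only [Equiv.symm_apply_apply] at h4
      exact_mod_cast h4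
    funext i
    rw [h2 W hW i, h2 W' hW' i]
    refine Finset.prod_congr rfl fun t _ => ?_
    rw [(h1 W hW i t).1, (h1 W' hW' i t).1, h3]
  have hOm := big_image c2 pt hinj
  have hb : Bdd Y (fun ν => (T2 ν).image (pt ν)) := by
    filter_upwards [hbase, hbY, hsub] with ν h1 h2 h3 t ht q
    obtain ⟨W, hW, rfl⟩ := Finset.mem_image.1 ht
    rw [hpt]
    obtain ⟨h5, h6⟩ := h1 W hW (finProdFinEquiv.symm q).1 (finProdFinEquiv.symm q).2
    have h7 : ρ ν W (finProdFinEquiv.symm q).1 (finProdFinEquiv.symm q).2 ≠ 0 := by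
      intro h
      rw [h, mul_zero] at h5
      exact h6 h5
    refine ⟨by exact_mod_cast h7, ?_⟩
    rw [abs_of_nonneg (by positivity)]
    have h8 := Nat.le_of_dvd (Nat.pos_of_ne_zero h6) ⟨π0 ν _ _, h5.trans (mul_comm _ _)⟩
    exact_mod_cast h8.trans (h2 W (h3 hW) _ _)
  have hk0D : ∀ᶠ ν in (Uf : Filter ℕ), ∀ i t, k0 ν i t ≤ D ν := by
    filter_upwards [hsub, hk0, c2.nonempty] with ν h1 h2 h3 i t
    obtain ⟨W, hW⟩ := h3
    have := hkD ν W (h1 hW) i t
    rw [h2 W hW] at this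
    exact this.le
  have hfew : Few Y (fun ν => ∑ i, ∑ q, ee ν i q) := by
    refine ((Few.const hY (3 * (3 * (S + 1)))).mul hDf).mono ?_
    filter_upwards [hk0D] with ν h
    calc ∑ i, ∑ q, ee ν i q ≤ ∑ _i : Fin 3, ∑ _q : Fin (3 * (S + 1)), D ν := by
          refine Finset.sum_le_sum fun i _ => Finset.sum_le_sum fun q _ => ?_
          rw [hee]
          split_ifs
          · exact h _ _
          · exact Nat.zero_le _
      _ = _ := by simp; ring
  let St : TS Y (fun ν => (T2 ν).image (pt ν)) 3 :=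
    { e := ee
      u := uu
      w := fun ν => D ν + (S + 1) * (K ν * D ν)
      he := hfew
      hu := by
        filter_upwards [hπb, hk0D] with ν h1 h2 i
        rw [huu]
        refine ⟨?_, ?_⟩
        · refine mul_ne_zero (mul_ne_zero ?_ (by exact_mod_cast (hA ν i).1)) ?_
          · intro h
            have := hsg1 i
            rw [h] at this
            simp at this
          · refine Finset.prod_ne_zero_iff.2 fun t _ => pow_ne_zero _ ?_
            exact_mod_cast (h1 i t).1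
        · rw [abs_mul, abs_mul, hsg1, one_mul, pow_add, Finset.abs_prod]
          refine mul_le_mul ?_ ?_ (Finset.prod_nonneg fun _ _ => abs_nonneg _) (by positivity)
          · rw [abs_of_nonneg (by positivity)]
            have h3 := (hA ν i).2.1.trans (exp_le_two_pow (by positivity))
            rw [hD]
            exact_mod_cast h3
          · calc ∏ t, |(π0 ν i t : ℤ) ^ k0 ν i t| ≤ ∏ _t : Fin (S + 1), (2 : ℤ) ^ (K ν * D ν) := by
                  refine Finset.prod_le_prod (fun _ _ => abs_nonneg _) fun t _ => ?_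
                  rw [abs_of_nonneg (by positivity), pow_mul]
                  calc (π0 ν i t : ℤ) ^ k0 ν i t ≤ ((2 : ℤ) ^ K ν) ^ k0 ν i t :=
                        pow_le_pow_left₀ (by positivity) (by exact_mod_cast (h1 i t).2) _
                    _ ≤ ((2 : ℤ) ^ K ν) ^ D ν :=
                        pow_le_pow_right₀ (one_le_pow₀ (by norm_num)) (h2 i t)
              _ = _ := by simp [← pow_mul, mul_comm]
      hw := hDf.add hY ((Few.const hY (S + 1)).mul (hKf.mul hDf))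
      sum0 := by
        filter_upwards [hterm, hsub] with ν h1 h2 t ht
        obtain ⟨W, hW, rfl⟩ := Finset.mem_image.1 ht
        rw [Finset.sum_congr rfl fun i _ => h1 W hW i, Fin.sum_univ_three, hsg]
        have h3 := (hbk ν W (h2 hW)).eq
        simp only [Matrix.cons_val]
        have h4 : (A ν 0 * W 0 + A ν 1 * W 1 : ℤ) = A ν 2 * W 2 := by exact_mod_cast h3
        linear_combination h4 }
  have hST : ∀ᶠ ν in (Uf : Filter ℕ), ∀ W ∈ T2 ν, ∀ i,
      St.T ν i (pt ν W) = sg i * A ν i * W i := hterm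
  have hv : NVS St := by
    unfold NVS
    filter_upwards [hST, hsub] with ν h1 h2 t ht K hK1 hK2
    obtain ⟨W, hW, rfl⟩ := Finset.mem_image.1 ht
    have hg := hbk ν W (h2 hW)
    have hpos : ∀ i, (0 : ℤ) < A ν i * W i := fun i => by
      have h3 := Nat.pos_of_ne_zero (hA ν i).1
      have h4 := Nat.pos_of_ne_zero (hg.pos i)
      positivity
    rw [Finset.sum_congr rfl fun i _ => h1 W hW i]
    refine three_nvs (τ := fun i => sg i * A ν i * W i) ?_ ?_ ?_ ?_ K hK1 hK2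
    · have := hpos 0
      simp only [hsg, Matrix.cons_val]
      linarith
    · have := hpos 1
      simp only [hsg, Matrix.cons_val]
      linarith
    · have := hpos 2
      simp only [hsg, Matrix.cons_val]
      linarith
    · rw [Fin.sum_univ_three, hsg]
      have h3 := hg.eq
      simp only [Matrix.cons_val]
      have h4 : (A ν 0 * W 0 + A ν 1 * W 1 : ℤ) = A ν 2 * W 2 := by exact_mod_cast h3
      linear_combination h4
  have hlar : ∀ q, (∃ i, Lar (fun ν => ee ν i q)) →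
      ∀ᶠ ν in (Uf : Filter ℕ), 2 ≤ k0 ν (finProdFinEquiv.symm q).1 (finProdFinEquiv.symm q).2 := by
    rintro q ⟨i, hi⟩
    filter_upwards [hi 2] with ν h
    rw [hee] at h
    split_ifs at h with h1
    · rw [h1]
      exact h
    · omega
  have hcop : PC (fun ν => (T2 ν).image (pt ν)) St.e := by
    intro q q' hqq hq hq'
    filter_upwards [hlar q hq, hlar q' hq', hsub, hk0, hbase] with ν h1 h2 h3 h4 h5 t ht
    obtain ⟨W, hW, rfl⟩ := Finset.mem_image.1 ht
    rw [hpt, hpt]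
    refine Nat.isCoprime_iff_coprime.2 ?_
    obtain ⟨g1, g2, g3⟩ := hπρ ν W (h3 hW)
    refine (hbk ν W (h3 hW)).cop hSP hQP (fun i p hp hpd => ((hA ν i).2.2 p hp hpd).trans hP') g1
      g3 ?_ ?_ ?_
    · intro h
      apply hqq
      have h6 : finProdFinEquiv.symm q = finProdFinEquiv.symm q' := h
      exact finProdFinEquiv.symm.injective h6
    · rw [h4 W hW]
      exact h1
    · rw [h4 W hW]
      exact h2
  obtain ⟨Om', g1, g2, g3⟩ := lcc hY hOm hb St hv hcop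
  -- one base of each product is constant
  have htt : ∀ i : Fin 3, ∃ t : Fin (S + 1), ∀ᶠ ν in (Uf : Filter ℕ), ν ≤ (S + 1) * k0 ν i t := by
    intro i
    apply ev_exists
    filter_upwards [hsub, hk0, c2.nonempty] with ν h1 h2 h3
    obtain ⟨W, hW⟩ := h3
    have h4 := (hbk ν W (h1 hW)).deg i
    rw [h2 W hW] at h4
    by_contra hcon
    push Not at hcon
    have h5 : (S + 1) * ∑ t, k0 ν i t < (S + 1) * ν := by
      rw [Finset.mul_sum]
      calc ∑ t, (S + 1) * k0 ν i t < ∑ _t : Fin (S + 1), ν :=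
            Finset.sum_lt_sum_of_nonempty Finset.univ_nonempty fun t _ => hcon t
        _ = _ := by simp
    have h6 := Nat.lt_of_mul_lt_mul_left h5
    omega
  choose tt htt using htt
  have hconst : ∀ i : Fin 3, ∀ᶠ ν in (Uf : Filter ℕ), ∀ t ∈ Om' ν, ∀ t' ∈ Om' ν,
      t (finProdFinEquiv (i, tt i)) = t' (finProdFinEquiv (i, tt i)) := by
    intro i
    apply g3
    obtain ⟨i', hi'⟩ : ∃ i' : Fin 3, i' ≠ i := by
      fin_cases i
      · exact ⟨1, by decide⟩
      · exact ⟨0, by decide⟩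
      · exact ⟨0, by decide⟩
    refine ⟨i, i', fun m => ?_⟩
    filter_upwards [htt i, ev_ge ((S + 1) * m)] with ν h1 h2
    show m ≤ ee ν i _ - ee ν i' _
    rw [hee, hee]
    simp only [Equiv.symm_apply_apply]
    rw [if_pos trivial, if_neg (Ne.symm hi'), Nat.sub_zero]
    exact Nat.le_of_mul_le_mul_left (h2.trans h1) (by omega)
  obtain ⟨ν, k1, k2, k3, k4, k5⟩ := (g1.and (g2.one_lt.and ((Filter.eventually_all.2
    hconst).and (hbase.and hWk)))).exists
  obtain ⟨t1, ht1, t2, ht2, htne⟩ := Finset.one_lt_card.1 k2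
  obtain ⟨W1, hW1, rfl⟩ := Finset.mem_image.1 (k1 ht1)
  obtain ⟨W2, hW2, rfl⟩ := Finset.mem_image.1 (k1 ht2)
  apply htne
  congr 1
  funext i
  have h1 := k3 i _ ht1 _ ht2
  rw [hpt, hpt] at h1
  simp only [Equiv.symm_apply_apply] at h1
  have h2 : ρ ν W1 i (tt i) = ρ ν W2 i (tt i) := by exact_mod_cast h1
  have h3 : b ν W1 i = b ν W2 i := by
    have h4 := (k4 W1 hW1 i (tt i)).1
    have h5 := (k4 W2 hW2 i (tt i)).1
    rw [h2] at h4
    omega
  rw [k5 W1 hW1 i, k5 W2 hW2 i, h3]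

end Pool.Agent.Y902.GN
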