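import Mathlib
import Pool.Agent.Y902.GN.Sc2
import Pool.Agent.Y902.GN.Dh

/-!
# Generalized Fermat equations in `n` terms with different exponents
-/

set_option autoImplicit false

namespace Pool.Agent.Y902.GN

/-- the data of a solution -/
structure NfD (n E R : ℕ) (V : ℝ) (Y : ℕ) (u w s y : Fin n → ℤ) (m : Fin n → ℕ) : Prop where
  y1 : ∀ i, y i ≠ 0 ∧ |y i| ≤ (Y : ℤ)
  m1 : ∀ i, R ≤ m i
  hw : ∀ i, w i = y i ^ m i
  s1 : ∀ i, s i ≠ 0 ∧ |s i| ≤ (Y : ℤ) ^ E
  sum : ∑ i, u i * (s i * w i) = 0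
  nvs : ∀ K : Finset (Fin n), K.Nonempty → K ≠ Finset.univ → ∑ i ∈ K, u i * (s i * w i) ≠ 0
  gcd : ∀ d : ℕ, (∀ i, (d : ℤ) ∣ s i * w i) → d = 1
  hi : ∀ i, ((|s i * w i| : ℤ) : ℝ) ≤ V

theorem pow_unit {y : ℤ} (h : |y| = 1) {m m' : ℕ} (hm : m % 2 = m' % 2) : y ^ m = y ^ m' := by
  have h2 : y ^ 2 = 1 := by
    rw [← sq_abs, h, one_pow]
  have h3 : ∀ k : ℕ, y ^ k = y ^ (k % 2) := by
    intro k
    conv_lhs => rw [← Nat.div_add_mod k 2]
    rw [pow_add, pow_mul, h2, one_pow, one_mul]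
  rw [h3 m, h3 m', hm]

/-- normalization of the exponents of the bases `1` and `-1` -/
theorem NfD.norm {n E R R0 : ℕ} {y0 : ℝ} {Y : ℕ} {u w s y : Fin n → ℤ} {m : Fin n → ℕ}
    (h : NfD n E R (Real.exp y0) Y u w s y m) (hR : R0 ≤ R) :
    ∃ m' : Fin n → ℕ, NfD n E R0 (Real.exp y0) Y u w s y m' ∧
      ∀ i, m' i < ⌊((2 : ℕ) : ℝ) * y0⌋₊ + 1 + (R0 + 2) := by
  refine ⟨fun i => if |y i| = 1 then R0 + (m i + R0) % 2 else m i, ⟨h.y1, fun i => ?_, fun i => ?_,
    h.s1, h.sum, h.nvs, h.gcd, h.hi⟩, fun i => ?_⟩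
  · show R0 ≤ if |y i| = 1 then R0 + (m i + R0) % 2 else m i
    split_ifs
    · omega
    · exact hR.trans (h.m1 i)
  · show w i = y i ^ (if |y i| = 1 then R0 + (m i + R0) % 2 else m i)
    rw [h.hw i]
    split_ifs with h1
    · exact pow_unit h1 (by omega)
    · rfl
  · show (if |y i| = 1 then R0 + (m i + R0) % 2 else m i) < _
    split_ifs with h1
    · omega
    · have h2 : 2 ≤ |y i| := by
        have := Int.one_le_abs (h.y1 i).1
        omega
      have h3 : (2 : ℤ) ^ m i ≤ |s i * w i| := by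
        rw [abs_mul, h.hw i, abs_pow]
        calc (2 : ℤ) ^ m i ≤ |y i| ^ m i := pow_le_pow_left₀ (by norm_num) h2 _
          _ = 1 * |y i| ^ m i := (one_mul _).symm
          _ ≤ _ := mul_le_mul_of_nonneg_right (Int.one_le_abs (h.s1 i).1) (by positivity)
      have h4 : (2 : ℝ) ^ m i ≤ Real.exp y0 := by
        refine le_trans ?_ (h.hi i)
        exact_mod_cast h3
      have := exp_bd h4 le_rfl
      omega

theorem NfD.gcPt {n E R : ℕ} {δ : ℝ} {Y : ℕ} {u w s y : Fin n → ℤ} {m : Fin n → ℕ}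
    (h : NfD n E R (Real.exp ((Y : ℝ) ^ δ)) Y u w s y m) :
    GcPt n n E δ Y u (fun i => s i * w i) := by
  classical
  refine ⟨fun i => mul_ne_zero (h.s1 i).1 ?_, h.gcd, h.sum, h.nvs, h.hi,
    fun i => s i * (SignType.sign (y i) : ℤ) ^ m i, fun i => (y i).natAbs,
    fun i j => if j = i then m i else 0, fun j => ⟨?_, ?_⟩, fun i => ?_, fun i => ?_⟩
  · rw [h.hw i]
    exact pow_ne_zero _ (h.y1 i).1
  · exact Int.natAbs_pos.2 (h.y1 j).1
  · have := (h.y1 j).2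
    rw [Int.abs_eq_natAbs] at this
    exact_mod_cast this
  · rw [abs_mul, abs_pow]
    have h1 : |((SignType.sign (y i) : SignType) : ℤ)| = 1 := by
      rcases lt_or_gt_of_ne (h.y1 i).1 with h2 | h2
      · rw [sign_neg h2]
        simp
      · rw [sign_pos h2]
        simp
    rw [h1, one_pow, mul_one]
    exact (h.s1 i).2
  · have h1 : ∏ j, (((y j).natAbs : ℕ) : ℤ) ^ (if j = i then m i else 0) = |y i| ^ m i := by
      rw [Finset.prod_eq_single i]
      · rw [if_pos rfl, Int.abs_eq_natAbs]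
      · intro j _ hj
        rw [if_neg hj, pow_zero]
      · intro h
        exact absurd (Finset.mem_univ i) h
    rw [h1, h.hw i, mul_assoc, ← mul_pow, sign_mul_abs]

/-- the number of bases near a given one -/
theorem class_card {n E R M C Y : ℕ} {V : ℝ} (hM : 1 ≤ M) (hC : (C + E + 1) * (4 * M) ≤ R)
    (hY2 : 2 ^ (4 * M) ≤ Y) (hY4 : 4 ≤ Y) {u : Fin n → ℤ} {m : Fin n → ℕ}
    (w0 s0 y0 : Fin n → ℤ) (h0 : NfD n E R V Y u w0 s0 y0 m) (Q : Finset (Fin n → ℤ))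
    (s y : (Fin n → ℤ) → Fin n → ℤ) (hQ : ∀ w ∈ Q, NfD n E R V Y u w (s w) (y w) m ∧
      Near C Y (fun i => s w i * w i) (fun i => s0 i * w0 i)) :
    (Q.card : ℝ) ≤ (Y : ℝ) ^ ((n : ℝ) / M) := by
  classical
  have hY1 : (1 : ℝ) ≤ (Y : ℝ) := by exact_mod_cast (by omega : 1 ≤ Y)
  have h1 : Q.card ≤ ∏ i, (Q.image fun w => y w i).card := by
    rw [← Fintype.card_piFinset]
    refine Finset.card_le_card_of_injOn y ?_ ?_
    · intro w hw
      exact Finset.mem_coe.2 (Fintype.mem_piFinset.2 fun i => Finset.mem_image_of_mem _ hw)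
    · intro w hw w' hw' hyy
      funext i
      rw [(hQ w hw).1.hw i, (hQ w' hw').1.hw i, hyy]
  have h2 : ∀ i, ((Q.image fun w => y w i).card : ℝ) ≤ (Y : ℝ) ^ (1 / (M : ℝ)) := by
    intro i
    have h3 : ((Q.image fun w => y w i).image (fun z : ℤ => (z : ℚ))).card ^ M ≤ Y := by
      refine few_ratio (C' := C + E + 1) (d := m i) hM (by omega) (hC.trans (h0.m1 i)) hY2 hY4
        (y0 i : ℚ) _ ?_
      intro v hv
      obtain ⟨z, hz, rfl⟩ := Finset.mem_image.1 hv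
      obtain ⟨w, hw, rfl⟩ := Finset.mem_image.1 hz
      obtain ⟨h4, h5⟩ := hQ w hw
      obtain ⟨r, r', e1, e2, e3, e4, e5⟩ := h5 i
      have hb : ∀ (r s : ℤ), |r| ≤ ((Y : ℤ) + 2) ^ C → |s| ≤ (Y : ℤ) ^ E →
          |r * s| ≤ ((Y : ℤ) + 2) ^ (C + E + 1) := by
        intro r s hr hs
        rw [abs_mul]
        have g1 : (Y : ℤ) ^ E ≤ ((Y : ℤ) + 2) ^ E :=
          pow_le_pow_left₀ (by positivity) (by omega) _
        calc |r| * |s| ≤ ((Y : ℤ) + 2) ^ C * ((Y : ℤ) + 2) ^ E :=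
              mul_le_mul hr (hs.trans g1) (abs_nonneg _) (by positivity)
          _ = ((Y : ℤ) + 2) ^ (C + E) := (pow_add _ _ _).symm
          _ ≤ _ := pow_le_pow_right₀ (by omega) (by omega)
      refine ⟨y w i, y0 i, r * s w i, r' * s0 i, (h4.y1 i).1, (h0.y1 i).1,
        mul_ne_zero e1 (h4.s1 i).1, mul_ne_zero e2 (h0.s1 i).1, hb _ _ e3 (h4.s1 i).2,
        hb _ _ e4 (h0.s1 i).2, ?_, ?_⟩
      · rw [← h4.hw i, ← h0.hw i]
        linear_combination e5
      · have g1 : (y0 i : ℚ) ≠ 0 := by exact_mod_cast (h0.y1 i).1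
        field_simp
    rw [Finset.card_image_of_injective _ Int.cast_injective] at h3
    have h4 : ((Q.image fun w => y w i).card : ℝ) ^ (M : ℝ) ≤ (Y : ℝ) := by
      rw [Real.rpow_natCast]
      exact_mod_cast h3
    have hM0 : (0 : ℝ) < (M : ℝ) := by exact_mod_cast hM
    calc ((Q.image fun w => y w i).card : ℝ) =
          (((Q.image fun w => y w i).card : ℝ) ^ (M : ℝ)) ^ (1 / (M : ℝ)) := by
          rw [← Real.rpow_mul (by positivity)]
          have : (M : ℝ) * (1 / (M : ℝ)) = 1 := by field_simp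
          rw [this, Real.rpow_one]
      _ ≤ _ := Real.rpow_le_rpow (by positivity) h4 (by positivity)
  calc (Q.card : ℝ) ≤ ((∏ i, (Q.image fun w => y w i).card : ℕ) : ℝ) := by exact_mod_cast h1
    _ = ∏ i, ((Q.image fun w => y w i).card : ℝ) := by push_cast; rfl
    _ ≤ ∏ _i : Fin n, (Y : ℝ) ^ (1 / (M : ℝ)) :=
        Finset.prod_le_prod (fun _ _ => by positivity) fun i _ => h2 i
    _ = (Y : ℝ) ^ ((n : ℝ) / M) := by
        rw [Finset.prod_const, Finset.card_univ, Fintype.card_fin, ← Real.rpow_natCast,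
          ← Real.rpow_mul (by positivity)]
        congr 1
        ring

end Pool.Agent.Y902.GN
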