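import Mathlib
import Pool.Agent.Y902.GN.Nf

/-!
# Generalized Fermat equations in `n` terms with different exponents: the theorem
-/

set_option autoImplicit false

namespace Pool.Agent.Y902.GN

theorem NfD.monoV {n E R : ℕ} {V V' : ℝ} {Y : ℕ} {u w s y : Fin n → ℤ} {m : Fin n → ℕ}
    (h : NfD n E R V Y u w s y m) (hV : V ≤ V') : NfD n E R V' Y u w s y m :=
  ⟨h.y1, h.m1, h.hw, h.s1, h.sum, h.nvs, h.gcd, fun i => (h.hi i).trans hV⟩

/-- **Few solutions.** -/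
theorem nfc (n E : ℕ) (ε : ℝ) (hε : 0 < ε) : ∃ (R : ℕ) (δ : ℝ), 0 < δ ∧
    ∀ (Y : ℕ), 1 ≤ Y → ∀ (u : Fin n → ℤ), (∀ i, u i ≠ 0 ∧
      ((|u i| : ℤ) : ℝ) ≤ Real.exp ((Y : ℝ) ^ δ)) → ∀ (T : Finset (Fin n → ℤ)),
      (∀ w ∈ T, ∃ (s y : Fin n → ℤ) (m : Fin n → ℕ),
        NfD n E R (Real.exp ((Y : ℝ) ^ δ)) Y u w s y m ∧ ∃ i, 2 ≤ |y i|) →
      (T.card : ℝ) ≤ (Y : ℝ) ^ ε := by
  classical
  obtain ⟨C, δ1, hδ1, H⟩ := gc n n E (ε / 4) (by positivity)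
  obtain ⟨M, hMd⟩ : ∃ M : ℕ, M = ⌈8 * (n : ℝ) / ε⌉₊ + 1 := ⟨_, rfl⟩
  have hM1 : 1 ≤ M := by omega
  have hM0 : (0 : ℝ) < (M : ℝ) := by exact_mod_cast hM1
  have hnM : (n : ℝ) / M ≤ ε / 4 := by
    have h1 : 8 * (n : ℝ) / ε ≤ (M : ℝ) := by
      rw [hMd]
      push_cast
      have := Nat.le_ceil (8 * (n : ℝ) / ε)
      linarith
    rw [div_le_iff₀ hε] at h1
    rw [div_le_iff₀ hM0]
    nlinarith [(Nat.cast_nonneg n : (0 : ℝ) ≤ (n : ℝ))]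
  obtain ⟨R1, hR1⟩ : ∃ R1 : ℕ, R1 = (C + E + 1) * (4 * M) := ⟨_, rfl⟩
  obtain ⟨δ, hδ, hδa, hδb, hδc⟩ : ∃ δ : ℝ, 0 < δ ∧ δ ≤ δ1 ∧ δ ≤ 1 ∧ δ ≤ ε / (8 * (n + 1)) :=
    ⟨min (min δ1 1) (ε / (8 * (n + 1))), by positivity,
      (min_le_left _ _).trans (min_le_left _ _), (min_le_left _ _).trans (min_le_right _ _),
      min_le_right _ _⟩
  obtain ⟨Y1, hY1⟩ : ∃ Y1 : ℕ, Y1 = 2 ^ (4 * M) + 4 + ⌈((R1 : ℝ) + 5) ^ (8 * ((n : ℝ) + 1) / ε)⌉₊ :=
    ⟨_, rfl⟩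
  refine ⟨R1 + 2 * Y1, δ, hδ, fun Y hY u hu T hT => ?_⟩
  have hYr : (1 : ℝ) ≤ (Y : ℝ) := by exact_mod_cast hY
  have hY0 : (0 : ℝ) < (Y : ℝ) := by linarith
  have hmono : ∀ {a b : ℝ}, a ≤ b → (Y : ℝ) ^ a ≤ (Y : ℝ) ^ b :=
    fun hab => Real.rpow_le_rpow_of_exponent_le hYr hab
  have hpow1 : (Y : ℝ) ^ δ ≤ (Y : ℝ) := by
    calc (Y : ℝ) ^ δ ≤ (Y : ℝ) ^ (1 : ℝ) := hmono hδb
      _ = _ := Real.rpow_one _
  rcases T.eq_empty_or_nonempty with rfl | ⟨w1, hw1⟩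
  · rw [Finset.card_empty, Nat.cast_zero]
    positivity
  have hYl : Y1 ≤ Y := by
    obtain ⟨s, y, m, h, i, hi⟩ := hT w1 hw1
    have h3 : (2 : ℤ) ^ m i ≤ |s i * w1 i| := by
      rw [abs_mul, h.hw i, abs_pow]
      calc (2 : ℤ) ^ m i ≤ |y i| ^ m i := pow_le_pow_left₀ (by norm_num) hi _
        _ = 1 * |y i| ^ m i := (one_mul _).symm
        _ ≤ _ := mul_le_mul_of_nonneg_right (Int.one_le_abs (h.s1 i).1) (by positivity)
    have h4 : (2 : ℝ) ^ m i ≤ Real.exp (Y : ℝ) := by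
      refine le_trans ?_ ((h.hi i).trans (Real.exp_le_exp.2 hpow1))
      exact_mod_cast h3
    have h5 := exp_bd h4 le_rfl
    have h6 := h.m1 i
    have h7 : ⌊((2 : ℕ) : ℝ) * (Y : ℝ)⌋₊ = 2 * Y := by
      rw [← Nat.cast_mul, Nat.floor_natCast]
    omega
  have hY2 : 2 ^ (4 * M) ≤ Y := by
    refine le_trans ?_ hYl
    rw [hY1, add_assoc]
    exact Nat.le_add_right _ _
  have hY4 : 4 ≤ Y := by
    refine le_trans ?_ hYl
    rw [hY1]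
    exact (Nat.le_add_left 4 _).trans (Nat.le_add_right _ _)
  have hY5 : ⌈((R1 : ℝ) + 5) ^ (8 * ((n : ℝ) + 1) / ε)⌉₊ ≤ Y := by
    refine le_trans ?_ hYl
    rw [hY1]
    exact Nat.le_add_left _ _
  have hYR : ((R1 : ℝ) + 5) ^ n ≤ (Y : ℝ) ^ (ε / 8) := by
    have h1 : ((R1 : ℝ) + 5) ^ (8 * ((n : ℝ) + 1) / ε) ≤ (Y : ℝ) := by
      refine (Nat.le_ceil _).trans ?_
      exact_mod_cast hY5
    have h2 := Real.rpow_le_rpow (by positivity) h1 (show (0 : ℝ) ≤ ε / 8 by positivity)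
    rw [← Real.rpow_mul (by positivity)] at h2
    have h3 : 8 * ((n : ℝ) + 1) / ε * (ε / 8) = ((n + 1 : ℕ) : ℝ) := by
      push_cast
      field_simp
    rw [h3, Real.rpow_natCast] at h2
    refine le_trans ?_ h2
    exact pow_le_pow_right₀ (by linarith [(Nat.cast_nonneg R1 : (0 : ℝ) ≤ (R1 : ℝ))]) (by omega)
  -- normalized representations
  have hT' : ∀ w, w ∈ T → ∃ (s y : Fin n → ℤ) (m : Fin n → ℕ),
      NfD n E R1 (Real.exp ((Y : ℝ) ^ δ)) Y u w s y m ∧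
        ∀ i, m i < ⌊((2 : ℕ) : ℝ) * (Y : ℝ) ^ δ⌋₊ + 1 + (R1 + 2) := by
    intro w hw
    obtain ⟨s, y, m, h, _⟩ := hT w hw
    obtain ⟨m', h1, h2⟩ := h.norm (R0 := R1) (by omega)
    exact ⟨s, y, m', h1, h2⟩
  choose! s y m hg hmD using hT'
  obtain ⟨D, hD⟩ : ∃ D : ℕ, D = ⌊((2 : ℕ) : ℝ) * (Y : ℝ) ^ δ⌋₊ + 1 + (R1 + 2) := ⟨_, rfl⟩
  rw [← hD] at hmD
  have himg : ((T.image m).card : ℝ) ≤ (Y : ℝ) ^ (ε / 4) := by
    have h1 : (T.image m).card ≤ D ^ n := by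
      have h2 : T.image m ⊆ Fintype.piFinset fun _ : Fin n => Finset.range D := by
        intro m0 hm0
        obtain ⟨w, hw, rfl⟩ := Finset.mem_image.1 hm0
        exact Fintype.mem_piFinset.2 fun i => Finset.mem_range.2 (hmD w hw i)
      refine (Finset.card_le_card h2).trans ?_
      rw [Fintype.card_piFinset_const, Finset.card_range]
    have h2 : (D : ℝ) ≤ ((R1 : ℝ) + 5) * (Y : ℝ) ^ δ := by
      rw [hD]
      push_cast
      have h3 : (⌊(2 : ℝ) * (Y : ℝ) ^ δ⌋₊ : ℝ) ≤ 2 * (Y : ℝ) ^ δ := Nat.floor_le (by positivity)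
      have h4 : (1 : ℝ) ≤ (Y : ℝ) ^ δ := Real.one_le_rpow hYr hδ.le
      nlinarith [(Nat.cast_nonneg R1 : (0 : ℝ) ≤ (R1 : ℝ))]
    calc ((T.image m).card : ℝ) ≤ ((D ^ n : ℕ) : ℝ) := by exact_mod_cast h1
      _ = (D : ℝ) ^ n := by push_cast; rfl
      _ ≤ (((R1 : ℝ) + 5) * (Y : ℝ) ^ δ) ^ n := pow_le_pow_left₀ (by positivity) h2 _
      _ = ((R1 : ℝ) + 5) ^ n * (Y : ℝ) ^ (δ * n) := by
          rw [mul_pow, Real.rpow_mul hY0.le, Real.rpow_natCast]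
      _ ≤ (Y : ℝ) ^ (ε / 8) * (Y : ℝ) ^ (ε / 8) := by
          refine mul_le_mul hYR (hmono ?_) (by positivity) (by positivity)
          have h5 : δ * n ≤ ε / (8 * (n + 1)) * n :=
            mul_le_mul_of_nonneg_right hδc (Nat.cast_nonneg _)
          refine h5.trans ?_
          rw [div_mul_eq_mul_div, div_le_div_iff₀ (by positivity) (by norm_num)]
          nlinarith [hε]
      _ = (Y : ℝ) ^ (ε / 4) := by
          rw [← Real.rpow_add hY0]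
          congr 1
          ring
  -- the fibers
  have hfib : ∀ m0 ∈ T.image m, (T.filter fun w => m w = m0).card ≤ ⌊(Y : ℝ) ^ (ε / 2)⌋₊ := by
    intro m0 _
    apply Nat.le_floor
    obtain ⟨A, hA1, hA2, hA3⟩ := max_sep
      {a : Fin n → ℤ | ∃ w ∈ T.filter (fun w => m w = m0), a = fun i => s w i * w i}
      (Near C Y) (Near.refl C Y) (fun _ _ => Near.symm) ((Y : ℝ) ^ (ε / 4)) (fun T' h1 h2 => by
        refine H Y hY u (fun i => ⟨(hu i).1, (hu i).2.trans (Real.exp_le_exp.2 (hmono hδa))⟩) T'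
          (fun a ha => ?_) h2
        obtain ⟨w, hw, rfl⟩ := h1 a ha
        have h3 := hg w (Finset.mem_filter.1 hw).1
        exact (h3.monoV (Real.exp_le_exp.2 (hmono hδa))).gcPt)
    have h1 : T.filter (fun w => m w = m0) ⊆ A.biUnion fun b =>
        (T.filter (fun w => m w = m0)).filter fun w => Near C Y (fun i => s w i * w i) b := by
      intro w hw
      obtain ⟨b, hb, hn⟩ := hA3 _ ⟨w, hw, rfl⟩
      exact Finset.mem_biUnion.2 ⟨b, hb, Finset.mem_filter.2 ⟨hw, hn⟩⟩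
    have h2 : ∀ b ∈ A, (((T.filter (fun w => m w = m0)).filter
        fun w => Near C Y (fun i => s w i * w i) b).card : ℝ) ≤ (Y : ℝ) ^ (ε / 4) := by
      intro b hb
      obtain ⟨w0, hw0, rfl⟩ := hA1 b hb
      obtain ⟨hw0T, hm0⟩ := Finset.mem_filter.1 hw0
      refine (class_card (E := E) (R := R1) (C := C) (V := Real.exp ((Y : ℝ) ^ δ)) (u := u)
        (m := m0) hM1 hR1.ge hY2 hY4 w0 (s w0) (y w0)
        (by rw [← hm0]; exact hg w0 hw0T) _ s y ?_).trans (hmono hnM)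
      intro w hw
      obtain ⟨hw2, hnear⟩ := Finset.mem_filter.1 hw
      obtain ⟨hwT, hmw⟩ := Finset.mem_filter.1 hw2
      refine ⟨?_, hnear⟩
      rw [← hmw]
      exact hg w hwT
    calc ((T.filter (fun w => m w = m0)).card : ℝ) ≤ ((∑ b ∈ A, ((T.filter
          (fun w => m w = m0)).filter fun w => Near C Y (fun i => s w i * w i) b).card : ℕ) : ℝ) := by
          exact_mod_cast (Finset.card_le_card h1).trans Finset.card_biUnion_le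
      _ = ∑ b ∈ A, (((T.filter (fun w => m w = m0)).filter
          fun w => Near C Y (fun i => s w i * w i) b).card : ℝ) := by push_cast; rfl
      _ ≤ ∑ _b ∈ A, (Y : ℝ) ^ (ε / 4) := Finset.sum_le_sum h2
      _ = A.card * (Y : ℝ) ^ (ε / 4) := by rw [Finset.sum_const, nsmul_eq_mul]
      _ ≤ (Y : ℝ) ^ (ε / 4) * (Y : ℝ) ^ (ε / 4) := mul_le_mul_of_nonneg_right hA2 (by positivity)
      _ = (Y : ℝ) ^ (ε / 2) := by
          rw [← Real.rpow_add hY0]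
          congr 1
          ring
  have hfin := Finset.card_le_mul_card_image (f := m) T ⌊(Y : ℝ) ^ (ε / 2)⌋₊ hfib
  calc (T.card : ℝ) ≤ ((⌊(Y : ℝ) ^ (ε / 2)⌋₊ * (T.image m).card : ℕ) : ℝ) := by exact_mod_cast hfin
    _ = (⌊(Y : ℝ) ^ (ε / 2)⌋₊ : ℝ) * ((T.image m).card : ℝ) := by push_cast; rfl
    _ ≤ (Y : ℝ) ^ (ε / 2) * (Y : ℝ) ^ (ε / 4) :=
        mul_le_mul (Nat.floor_le (by positivity)) himg (by positivity) (by positivity)
    _ = (Y : ℝ) ^ (3 * ε / 4) := by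
        rw [← Real.rpow_add hY0]
        congr 1
        ring
    _ ≤ (Y : ℝ) ^ ε := hmono (by linarith)

end Pool.Agent.Y902.GN
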