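import Mathlib
import Pool.Agent.Y902.GN.Cmp

/-!
# Points that are close to a sum of few high powers of linear forms
-/

set_option autoImplicit false

namespace Pool.Agent.Y902.GN

theorem spF_snt {n m : ℕ} (u s : Fin m → ℤ) (h : Fin m → Fin n → ℤ) (d : ℕ) (x : Fin n → ℤ)
    (η t : ℤ) : spF (sn u (-η)) (hx1 h) d (sn s t) (sn x 1) = spF u h d s x - t * η := by
  unfold spF
  rw [Fin.sum_univ_castSucc]
  simp only [lin_castSucc, lin_last, sn_castSucc, sn_last, one_pow]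
  ring

theorem spFQ_snt {n m : ℕ} (u s : Fin m → ℤ) (h : Fin m → Fin n → ℤ) (d : ℕ) (z : Fin n → ℚ)
    (η t : ℤ) :
    spFQ (sn u (-η)) (hx1 h) d (sn s t) (snQ z 1) = spFQ u h d s z - t * η := by
  unfold spFQ
  rw [Fin.sum_univ_castSucc]
  simp only [linQ_castSucc, linQ_last, sn_castSucc, sn_last, one_pow]
  push_cast
  ring

/-- **Points whose value has a small part prime to `S`.** -/
theorem cmplt (n m E q : ℕ) (ε : ℝ) (hε : 0 < ε) : ∃ (R : ℕ) (δ : ℝ), 0 < δ ∧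
    ∀ (Y : ℕ), 1 ≤ Y → ∀ d : ℕ, R ≤ d → (d : ℝ) ≤ (Y : ℝ) ^ δ → ∀ (u : Fin m → ℤ),
      (∀ i, ((|u i| : ℤ) : ℝ) ≤ Real.exp ((Y : ℝ) ^ δ)) → ∀ (h : Fin m → Fin n → ℤ),
      (∀ i j, |h i j| ≤ (Y : ℤ) ^ E) → ∀ S : Finset ℕ, S.card ≤ q →
      ∃ L : Finset (AffineSubspace ℚ (Fin n → ℚ)), (L.card : ℝ) ≤ (Y : ℝ) ^ ε ∧
        ∀ (x : Fin n → ℤ) (s : Fin m → ℤ) (t η : ℤ), (∀ j, |x j| ≤ (Y : ℤ)) →
          (∀ i, s i ≠ 0 ∧ |s i| ≤ (Y : ℤ) ^ E) → t ≠ 0 → |t| ≤ (Y : ℤ) ^ E → SUn S η →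
          spF u h d s x = t * η →
          ∃ W ∈ L, (fun j => (x j : ℚ)) ∈ W ∧
            ∀ z ∈ W, spFQ u h d s z = (spF u h d s x : ℚ) := by
  classical
  obtain ⟨R, δ1, hδ1, H⟩ := cov (n + 1) (m + 1) E (ε / 2) (by positivity)
  obtain ⟨δ2, hδ2⟩ : ∃ δ2, δ2 = min δ1 (ε / (4 * (q + 1))) := ⟨_, rfl⟩
  have hδ20 : 0 < δ2 := by
    rw [hδ2]
    exact lt_min hδ1 (by positivity)
  have hδ21 : δ2 ≤ δ1 := by rw [hδ2]; exact min_le_left _ _
  have hδ2q : δ2 ≤ ε / (4 * (q + 1)) := by rw [hδ2]; exact min_le_right _ _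
  obtain ⟨δ, hδ⟩ : ∃ δ, δ = δ2 / 3 := ⟨_, rfl⟩
  have hδ0 : 0 < δ := by rw [hδ]; positivity
  have h3δ : 3 * δ = δ2 := by rw [hδ]; ring
  refine ⟨R + ⌈(m + 1 + n + (2 * E + 1) / δ : ℝ)⌉₊ + ⌈((2 * 4 ^ q : ℝ)) ^ (4 * δ / ε)⌉₊, δ, hδ0,
    fun Y hY d hd hdY u hu h hh S hS => ?_⟩
  have hY1 : (1 : ℝ) ≤ (Y : ℝ) := by exact_mod_cast hY
  have hY0 : (0 : ℝ) < (Y : ℝ) := by linarith
  have hd' : ((R + ⌈(m + 1 + n + (2 * E + 1) / δ : ℝ)⌉₊ + ⌈((2 * 4 ^ q : ℝ)) ^ (4 * δ / ε)⌉₊ : ℕ) : ℝ)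
      ≤ (Y : ℝ) ^ δ := le_trans (by exact_mod_cast hd) hdY
  push_cast at hd'
  have hR0 : (0 : ℝ) ≤ (R : ℝ) := Nat.cast_nonneg _
  have hc1 : (m + 1 + n + (2 * E + 1) / δ : ℝ) ≤ (⌈(m + 1 + n + (2 * E + 1) / δ : ℝ)⌉₊ : ℝ) :=
    Nat.le_ceil _
  have hc2 : ((2 * 4 ^ q : ℝ)) ^ (4 * δ / ε) ≤ (⌈((2 * 4 ^ q : ℝ)) ^ (4 * δ / ε)⌉₊ : ℝ) :=
    Nat.le_ceil _
  have hc1' : (0 : ℝ) ≤ (m + 1 + n + (2 * E + 1) / δ : ℝ) := by positivity
  have hc2' : (0 : ℝ) ≤ ((2 * 4 ^ q : ℝ)) ^ (4 * δ / ε) := by positivity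
  have hX : (m + 1 + n + (2 * E + 1) / δ : ℝ) ≤ (Y : ℝ) ^ δ := by linarith
  have h4q : (2 * 4 ^ q : ℝ) ≤ (Y : ℝ) ^ (ε / 4) := by
    have h1 : ((2 * 4 ^ q : ℝ)) ^ (4 * δ / ε) ≤ (Y : ℝ) ^ δ := by linarith
    have h2 := Real.rpow_le_rpow hc2' h1 (show (0 : ℝ) ≤ ε / (4 * δ) by positivity)
    rw [← Real.rpow_mul (by positivity), ← Real.rpow_mul hY0.le] at h2
    have e1 : 4 * δ / ε * (ε / (4 * δ)) = 1 := by field_simp
    have e2 : δ * (ε / (4 * δ)) = ε / 4 := by field_simp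
    rw [e1, e2, Real.rpow_one] at h2
    exact h2
  have hmono : ∀ {a b : ℝ}, a ≤ b → (Y : ℝ) ^ a ≤ (Y : ℝ) ^ b :=
    fun hab => Real.rpow_le_rpow_of_exponent_le hY1 hab
  obtain ⟨K, hK⟩ : ∃ K : ℕ, K = ⌊((2 : ℕ) : ℝ) * (Y : ℝ) ^ δ2⌋₊ + 1 := ⟨_, rfl⟩
  have hexp : Real.exp ((Y : ℝ) ^ δ2) ≤ 2 ^ K := by
    rw [hK]
    exact exp_le_two_pow (by positivity)
  obtain ⟨U, hU⟩ : ∃ U : Finset ℤ, U = (Finset.Icc (-(2 ^ K : ℤ)) (2 ^ K)).filter
      (fun η => SUn S η ∧ ((|η| : ℤ) : ℝ) ≤ Real.exp ((Y : ℝ) ^ δ2)) := ⟨_, rfl⟩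
  have hUc : (U.card : ℝ) ≤ (Y : ℝ) ^ (ε / 2) := by
    have h1 : U.card ≤ 2 * (K + 1) ^ q := by
      refine le_trans (Finset.card_le_card ?_) ((sunit_card S K).trans
        (Nat.mul_le_mul_left _ (Nat.pow_le_pow_right (by omega) hS)))
      intro η hη
      rw [hU] at hη
      obtain ⟨h1, h2⟩ := Finset.mem_filter.1 hη
      exact Finset.mem_filter.2 ⟨h1, h2.1⟩
    have h2 : ((K + 1 : ℕ) : ℝ) ≤ 4 * (Y : ℝ) ^ δ2 := by
      rw [hK]
      push_cast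
      have h3 : (⌊(2 : ℝ) * (Y : ℝ) ^ δ2⌋₊ : ℝ) ≤ 2 * (Y : ℝ) ^ δ2 := Nat.floor_le (by positivity)
      have h4 : (1 : ℝ) ≤ (Y : ℝ) ^ δ2 := Real.one_le_rpow hY1 hδ20.le
      linarith
    calc (U.card : ℝ) ≤ ((2 * (K + 1) ^ q : ℕ) : ℝ) := by exact_mod_cast h1
      _ = 2 * ((K + 1 : ℕ) : ℝ) ^ q := by push_cast; ring
      _ ≤ 2 * (4 * (Y : ℝ) ^ δ2) ^ q := by
          have := pow_le_pow_left₀ (by positivity) h2 q
          linarith
      _ = 2 * 4 ^ q * (Y : ℝ) ^ (δ2 * q) := by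
          rw [mul_pow, Real.rpow_mul hY0.le, Real.rpow_natCast]
          ring
      _ ≤ (Y : ℝ) ^ (ε / 4) * (Y : ℝ) ^ (ε / 4) := by
          refine mul_le_mul h4q (hmono ?_) (by positivity) (by positivity)
          have h5 : δ2 * q ≤ ε / (4 * (q + 1)) * q :=
            mul_le_mul_of_nonneg_right hδ2q (Nat.cast_nonneg _)
          refine h5.trans ?_
          rw [div_mul_eq_mul_div, div_le_div_iff₀ (by positivity) (by norm_num)]
          nlinarith [hε]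
      _ = (Y : ℝ) ^ (ε / 2) := by
          rw [← Real.rpow_add hY0]
          congr 1
          ring
  -- the subspaces for each unit
  have hη : ∀ η, η ∈ U → ∃ L : Finset (Submodule ℚ (Fin (n + 1) → ℚ)),
      (L.card : ℝ) ≤ (Y : ℝ) ^ (ε / 2) ∧
        ∀ (x : Fin (n + 1) → ℤ) (s : Fin (m + 1) → ℤ), (∀ j, |x j| ≤ (Y : ℤ)) →
          (∀ i, s i ≠ 0 ∧ |s i| ≤ (Y : ℤ) ^ E) → spF (sn u (-η)) (hx1 h) d s x = 0 →
          ∃ V ∈ L, (fun j => (x j : ℚ)) ∈ V ∧ ∀ z ∈ V, spFQ (sn u (-η)) (hx1 h) d s z = 0 := by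
    intro η hη
    rw [hU] at hη
    obtain ⟨_, h1, h2⟩ := Finset.mem_filter.1 hη
    have hYE : (1 : ℤ) ≤ (Y : ℤ) ^ E := one_le_pow₀ (by exact_mod_cast hY)
    refine H Y hY d (by omega) (hdY.trans (hmono (by linarith))) (sn u (-η)) ?_ (hx1 h) ?_
    · intro i
      refine Fin.lastCases ?_ (fun i => ?_) i
      · rw [sn_last, abs_neg]
        exact h2.trans (Real.exp_le_exp.2 (hmono hδ21))
      · rw [sn_castSucc]
        exact (hu i).trans (Real.exp_le_exp.2 (hmono (by linarith)))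
    · intro i j
      refine Fin.lastCases ?_ (fun i => ?_) i
      · rw [hx1_last]
        refine Fin.lastCases ?_ (fun j => ?_) j
        · rw [sn_last, abs_one]
          exact hYE
        · rw [sn_castSucc, abs_zero]
          linarith
      · rw [hx1_castSucc]
        refine Fin.lastCases ?_ (fun j => ?_) j
        · rw [sn_last, abs_zero]
          linarith
        · rw [sn_castSucc]
          exact hh i j
  choose! L hL1 hL2 using hη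
  refine ⟨U.biUnion fun η => (L η).image slice, ?_, ?_⟩
  · have h1 : (U.biUnion fun η => (L η).image slice).card ≤ ∑ η ∈ U, (L η).card :=
      Finset.card_biUnion_le.trans (Finset.sum_le_sum fun η _ => Finset.card_image_le)
    calc ((U.biUnion fun η => (L η).image slice).card : ℝ) ≤ ((∑ η ∈ U, (L η).card : ℕ) : ℝ) := by
          exact_mod_cast h1
      _ = ∑ η ∈ U, ((L η).card : ℝ) := by push_cast; rfl
      _ ≤ ∑ _η ∈ U, (Y : ℝ) ^ (ε / 2) := Finset.sum_le_sum fun η hη => hL1 η hη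
      _ = U.card * (Y : ℝ) ^ (ε / 2) := by rw [Finset.sum_const, nsmul_eq_mul]
      _ ≤ (Y : ℝ) ^ (ε / 2) * (Y : ℝ) ^ (ε / 2) :=
          mul_le_mul_of_nonneg_right hUc (by positivity)
      _ = (Y : ℝ) ^ ε := by
          rw [← Real.rpow_add hY0]
          congr 1
          ring
  · intro x s t η hx hs ht0 htb hSU hxe
    have hsz0 := csize (n := n) (E := E) hδ0 hY hdY hX hu hh hx (fun i => (hs i).2)
    rw [h3δ] at hsz0
    have hsz : ((|η| : ℤ) : ℝ) ≤ Real.exp ((Y : ℝ) ^ δ2) := by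
      refine le_trans ?_ hsz0
      rw [hxe]
      have h1 : |η| ≤ |t * η| := by
        rw [abs_mul]
        have h2 : 1 ≤ |t| := Int.one_le_abs ht0
        nlinarith [abs_nonneg η]
      exact_mod_cast h1
    have hUm : η ∈ U := by
      rw [hU, Finset.mem_filter, Finset.mem_Icc]
      refine ⟨?_, hSU, hsz⟩
      have h1 : ((|η| : ℤ) : ℝ) ≤ ((2 ^ K : ℤ) : ℝ) := by
        push_cast
        push_cast at hsz
        exact hsz.trans hexp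
      exact abs_le.1 (by exact_mod_cast h1)
    have hYE : (1 : ℤ) ≤ (Y : ℤ) ^ E := one_le_pow₀ (by exact_mod_cast hY)
    obtain ⟨V, hV1, hV2, hV3⟩ := hL2 _ hUm (sn x 1) (sn s t) (by
      intro j
      refine Fin.lastCases ?_ (fun j => ?_) j
      · rw [sn_last, abs_one]
        exact_mod_cast hY
      · rw [sn_castSucc]
        exact hx j) (by
      intro i
      refine Fin.lastCases ?_ (fun i => ?_) i
      · rw [sn_last]
        exact ⟨ht0, htb⟩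
      · rw [sn_castSucc]
        exact hs i) (by rw [spF_snt, hxe, sub_self])
    refine ⟨slice V, Finset.mem_biUnion.2 ⟨_, hUm, Finset.mem_image_of_mem _ hV1⟩, ?_, ?_⟩
    · show snQ (fun j => (x j : ℚ)) 1 ∈ V
      have h1 : snQ (fun j => (x j : ℚ)) 1 = fun j => ((sn x 1 j : ℤ) : ℚ) := by
        funext j
        refine Fin.lastCases ?_ (fun j => ?_) j
        · rw [snQ_last, sn_last, Int.cast_one]
        · rw [snQ_castSucc, sn_castSucc]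
      rw [h1]
      exact hV2
    · intro z hz
      have h1 := hV3 _ (show snQ z 1 ∈ V from hz)
      rw [spFQ_snt, sub_eq_zero] at h1
      rw [h1, hxe]
      push_cast
      rfl

end Pool.Agent.Y902.GN
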